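import Pool.Agent.H5.DG.CoverDefs
import Pool.Agent.H17GT.Defs
import Pool.Agent.H92.GT.ProjPoint
import Pool.Agent.H62.FC.Trdeg

/-!
# Project DG, module CovAlg: the coordinates are integral over the forms

`exists_relation`: let `A = ℂ[Y a]` act on `ℂ[X]` via `aeval F` and let `S` be the `A`-submodule
spanned by the monomials of degree less than `D = ∑ i, k i` (`X i ^ k i ∈ span F ⊔ I`, `k i ≥ e`).
Every form `p` lies in `S + I`, by strong induction on the degree: for a monomial of degree `≥ D`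
some exponent is `≥ k i`, and the component of degree `k i` of `X i ^ k i = ∑ G a * F a + q` gives
`X i ^ k i = ∑ G' a * F a + q'` with `G' a` a form of degree `k i - e` and `q' ∈ I` (`I` is
homogeneous), so the monomial is, modulo `I`, an `A`-linear combination of forms of smaller degree.
So `ℂ[X] ⧸ I` is a finite `A`-module, `X i ^ e` satisfies a monic equation over `A`; take the
component of degree `e * s` (`homogeneousComponent` of `aeval F (c t)` in degree `e * j` is `aeval F`
of the component of degree `j` of `c t`).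

`fun_algebraic`: `F a₀ ∉ P` for some `a₀` (otherwise all `X i ^ k ∈ P`, contradicting
`coordFun P j₀ ≠ 0`).  `y i = x i ^ e / v a₀` satisfies `y i ^ s + ∑ c t (v / v a₀) * y i ^ t = 0`
(divide the relation at the generic point by `v a₀ ^ s`), so it is algebraic over
`K₀ = ℂ(v a / v a₀)`; so is `1 / v a₀ = y j₀`, hence `x i ^ e` and `x i`.

`dim_le`, `delta_notMem`: the `n + 1` functions `v a / v a₀`, `a ≠ a₀`, generate a subfield over
which `K` is algebraic, so they contain a transcendence basis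
(`exists_isTranscendenceBasis_subset`); if the transcendence degree is `n + 1` they are
algebraically independent and `Δ (v) = v a₀ ^ k * Δ (v / v a₀) ≠ 0` for a form `Δ ≠ 0` of degree
`k` (the dehomogenisation of a form is not zero).
-/

open MvPolynomial
open Pool.Agent.H17GT (coordFun functionField)
open Pool.Agent.H17LG.Variety (FunField ratio)

noncomputable section

namespace Pool.Agent.H5.DG

/-! ### Homogeneous components -/

private theorem homComp_mul {σ : Type} {F : MvPolynomial σ ℂ} {e : ℕ} (hF : F.IsHomogeneous e)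
    (G : MvPolynomial σ ℂ) (j : ℕ) :
    homogeneousComponent (j + e) (G * F) = homogeneousComponent j G * F := by
  have h1 : homogeneousComponent (j + e) (G * F) =
      ∑ i ∈ Finset.range (G.totalDegree + 1),
        homogeneousComponent (j + e) (homogeneousComponent i G * F) := by
    rw [← map_sum, ← Finset.sum_mul, sum_homogeneousComponent]
  have h2 : ∀ i ∈ Finset.range (G.totalDegree + 1),
      homogeneousComponent (j + e) (homogeneousComponent i G * F) =
        if i = j then homogeneousComponent j G * F else 0 := by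
    intro i _
    have h3 : (homogeneousComponent i G * F) ∈ homogeneousSubmodule σ ℂ (i + e) :=
      (homogeneousComponent_isHomogeneous i G).mul hF
    rw [homogeneousComponent_of_mem h3]
    by_cases h : i = j
    · rw [if_pos (by omega), if_pos h, h]
    · rw [if_neg (by omega), if_neg h]
  rw [h1, Finset.sum_congr rfl h2, Finset.sum_ite_eq']
  split_ifs with h
  · rfl
  · rw [homogeneousComponent_eq_zero _ _ (by
      rw [Finset.mem_range] at h
      omega), zero_mul]

private theorem homComp_aeval {m Nn e : ℕ} {F : Fin m → MvPolynomial (Fin (Nn + 1)) ℂ}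
    (he : 1 ≤ e) (hF : ∀ a, (F a).IsHomogeneous e) (b : MvPolynomial (Fin m) ℂ) (j : ℕ) :
    homogeneousComponent (e * j) (aeval F b) = aeval F (homogeneousComponent j b) := by
  have h1 : homogeneousComponent (e * j) (aeval F b) =
      ∑ i ∈ Finset.range (b.totalDegree + 1),
        homogeneousComponent (e * j) (aeval F (homogeneousComponent i b)) := by
    rw [← map_sum, ← map_sum, sum_homogeneousComponent]
  have h2 : ∀ i ∈ Finset.range (b.totalDegree + 1),
      homogeneousComponent (e * j) (aeval F (homogeneousComponent i b)) =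
        if i = j then aeval F (homogeneousComponent j b) else 0 := by
    intro i _
    have h3 : (aeval F (homogeneousComponent i b)) ∈ homogeneousSubmodule (Fin (Nn + 1)) ℂ
        (e * i) := (homogeneousComponent_isHomogeneous i b).aeval F hF
    rw [homogeneousComponent_of_mem h3]
    by_cases h : i = j
    · rw [if_pos (by rw [h]), if_pos h, h]
    · rw [if_neg (fun h4 => h (Nat.eq_of_mul_eq_mul_left (by omega) h4).symm), if_neg h]
  rw [h1, Finset.sum_congr rfl h2, Finset.sum_ite_eq']
  split_ifs with h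
  · rfl
  · rw [homogeneousComponent_eq_zero _ _ (by
      rw [Finset.mem_range] at h
      omega), map_zero]

/-! ### Finiteness -/

/-- The monomials of small degree. -/
private def mons (Nn D : ℕ) (f : Fin (Nn + 1) → Fin D) : MvPolynomial (Fin (Nn + 1)) ℂ :=
  ∏ i, X i ^ (f i : ℕ)

/-- The span of the monomials of small degree, plus the ideal. -/
private def spn {m Nn : ℕ} (I : Ideal (MvPolynomial (Fin (Nn + 1)) ℂ))
    (F : Fin m → MvPolynomial (Fin (Nn + 1)) ℂ) (D : ℕ) :
    Submodule (aeval F : MvPolynomial (Fin m) ℂ →ₐ[ℂ] MvPolynomial (Fin (Nn + 1)) ℂ).range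
      (MvPolynomial (Fin (Nn + 1)) ℂ) :=
  Submodule.span _ (Set.range (mons Nn D)) ⊔ I.restrictScalars _

private theorem mem_spn_of_hom {m Nn e : ℕ} {I : Ideal (MvPolynomial (Fin (Nn + 1)) ℂ)}
    (hI : Homog I) {F : Fin m → MvPolynomial (Fin (Nn + 1)) ℂ} (he : 1 ≤ e)
    (hF : ∀ a, (F a).IsHomogeneous e) {k : Fin (Nn + 1) → ℕ} (hke : ∀ i, e ≤ k i)
    (hk : ∀ i, X i ^ k i ∈ Ideal.span (Set.range F) ⊔ I) (d : ℕ) :
    ∀ p : MvPolynomial (Fin (Nn + 1)) ℂ, p.IsHomogeneous d → p ∈ spn I F (∑ i, k i) := by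
  classical
  induction d using Nat.strong_induction_on with
  | _ d ih =>
    intro p hp
    -- it is enough to deal with monomials
    have hmon : ∀ μ : Fin (Nn + 1) →₀ ℕ, ∑ i, μ i = d →
        (∏ i, (X i : MvPolynomial (Fin (Nn + 1)) ℂ) ^ μ i) ∈ spn I F (∑ i, k i) := by
      intro μ hμ
      rcases lt_or_ge d (∑ i, k i) with hlt | hge
      · refine Submodule.mem_sup_left (Submodule.subset_span ⟨fun i => ⟨μ i, ?_⟩, rfl⟩)
        have := Finset.single_le_sum (f := fun i => μ i) (fun i _ => Nat.zero_le _)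
          (Finset.mem_univ i)
        omega
      · obtain ⟨i, hi⟩ : ∃ i, k i ≤ μ i := by
          by_contra hcon
          push Not at hcon
          have : ∑ i, μ i < ∑ i, k i :=
            Finset.sum_lt_sum_of_nonempty Finset.univ_nonempty fun i _ => hcon i
          omega
        -- the relation for the power
        obtain ⟨g, hg, q, hq, hgq⟩ := Submodule.mem_sup.1 (hk i)
        obtain ⟨G, hG⟩ := (Submodule.mem_span_range_iff_exists_fun _).1 hg
        obtain ⟨j, hj⟩ : ∃ j, k i = j + e := ⟨k i - e, by have := hke i; omega⟩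
        have hrel : (X i : MvPolynomial (Fin (Nn + 1)) ℂ) ^ k i =
            (∑ a, homogeneousComponent j (G a) * F a) + homogeneousComponent (k i) q := by
          have h1 : homogeneousComponent (k i) ((X i : MvPolynomial (Fin (Nn + 1)) ℂ) ^ k i) =
              X i ^ k i := homogeneousComponent_eq_self (isHomogeneous_X_pow i (k i))
          rw [← h1, ← hgq, ← hG, map_add, map_sum]
          congr 1
          refine Finset.sum_congr rfl fun a _ => ?_
          rw [smul_eq_mul, hj]
          exact homComp_mul (hF a) (G a) j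
        have hsplit : (∏ l, (X l : MvPolynomial (Fin (Nn + 1)) ℂ) ^ μ l) =
            X i ^ k i * ∏ l, X l ^ (if l = i then μ l - k i else μ l) := by
          rw [← Finset.mul_prod_erase Finset.univ _ (Finset.mem_univ i),
            ← Finset.mul_prod_erase Finset.univ (fun l => (X l : MvPolynomial (Fin (Nn + 1)) ℂ) ^
              (if l = i then μ l - k i else μ l)) (Finset.mem_univ i)]
          rw [if_pos rfl, ← mul_assoc, ← pow_add]
          congr 1
          · congr 1
            omega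
          · refine Finset.prod_congr rfl fun l hl => ?_
            rw [if_neg (Finset.ne_of_mem_erase hl)]
        obtain ⟨M, hM⟩ : ∃ M : MvPolynomial (Fin (Nn + 1)) ℂ,
          M = ∏ l, X l ^ (if l = i then μ l - k i else μ l) := ⟨_, rfl⟩
        have hMhom : M.IsHomogeneous (d - k i) := by
          have h1 : M.IsHomogeneous (∑ l, (if l = i then μ l - k i else μ l)) := by
            rw [hM]
            exact IsHomogeneous.prod _ _ _ fun l _ => isHomogeneous_X_pow l _
          have h2 : ∑ l, (if l = i then μ l - k i else μ l) = d - k i := by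
            have h3 : ∑ l, (if l = i then μ l - k i else μ l) =
                (μ i - k i) + ∑ l ∈ Finset.univ.erase i, μ l := by
              rw [← Finset.add_sum_erase Finset.univ _ (Finset.mem_univ i), if_pos rfl]
              congr 1
              exact Finset.sum_congr rfl fun l hl => if_neg (Finset.ne_of_mem_erase hl)
            have h4 : ∑ l, μ l = μ i + ∑ l ∈ Finset.univ.erase i, μ l :=
              (Finset.add_sum_erase Finset.univ (fun l => μ l) (Finset.mem_univ i)).symm
            omega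
          rwa [h2] at h1
        have hdk : k i ≤ d := by
          have := Finset.single_le_sum (f := fun i => μ i) (fun i _ => Nat.zero_le _)
            (Finset.mem_univ i)
          omega
        rw [hsplit, ← hM, hrel, add_mul, Finset.sum_mul]
        refine Submodule.add_mem _ (Submodule.sum_mem _ fun a _ => ?_) ?_
        · have h1 : (homogeneousComponent j (G a) * M).IsHomogeneous (j + (d - k i)) :=
            (homogeneousComponent_isHomogeneous j (G a)).mul hMhom
          have h2 := ih (j + (d - k i)) (by omega) _ h1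
          have h3 := Submodule.smul_mem _ (⟨F a, ⟨X a, aeval_X _ _⟩⟩ :
            (aeval F : MvPolynomial (Fin m) ℂ →ₐ[ℂ] MvPolynomial (Fin (Nn + 1)) ℂ).range) h2
          have h4 : homogeneousComponent j (G a) * F a * M =
              F a * (homogeneousComponent j (G a) * M) := by ring
          rw [h4]
          exact h3
        · refine Submodule.mem_sup_right ?_
          exact Ideal.mul_mem_right _ _ (hI q hq (k i))
    rw [p.as_sum]
    refine Submodule.sum_mem _ fun μ hμ => ?_
    have hdeg : ∑ i, μ i = d := by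
      have h1 := hp (mem_support_iff.1 hμ)
      rw [Finsupp.weight_apply, Finsupp.sum_fintype _ _ (fun _ => by simp)] at h1
      simpa using h1
    have h2 := Submodule.smul_mem _ (⟨C (p.coeff μ), ⟨C (p.coeff μ), by
      rw [← MvPolynomial.algebraMap_eq]
      exact AlgHom.commutes _ _⟩⟩ :
      (aeval F : MvPolynomial (Fin m) ℂ →ₐ[ℂ] MvPolynomial (Fin (Nn + 1)) ℂ).range) (hmon μ hdeg)
    have h3 : monomial μ (p.coeff μ) = C (p.coeff μ) * ∏ i, X i ^ μ i := by
      rw [monomial_eq, Finsupp.prod_fintype _ _ (fun _ => pow_zero _)]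
    rw [h3]
    exact h2

private theorem spn_eq_top {m Nn e : ℕ} {I : Ideal (MvPolynomial (Fin (Nn + 1)) ℂ)}
    (hI : Homog I) {F : Fin m → MvPolynomial (Fin (Nn + 1)) ℂ} (he : 1 ≤ e)
    (hF : ∀ a, (F a).IsHomogeneous e) {k : Fin (Nn + 1) → ℕ} (hke : ∀ i, e ≤ k i)
    (hk : ∀ i, X i ^ k i ∈ Ideal.span (Set.range F) ⊔ I) : spn I F (∑ i, k i) = ⊤ := by
  rw [eq_top_iff]
  intro p _
  rw [← sum_homogeneousComponent p]
  exact Submodule.sum_mem _ fun d _ => mem_spn_of_hom hI he hF hke hk d _
    (homogeneousComponent_isHomogeneous d p)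

private theorem finite_quot {m Nn e : ℕ} {I : Ideal (MvPolynomial (Fin (Nn + 1)) ℂ)}
    (hI : Homog I) {F : Fin m → MvPolynomial (Fin (Nn + 1)) ℂ} (hF : BaseFree I e F) :
    Module.Finite (aeval F : MvPolynomial (Fin m) ℂ →ₐ[ℂ] MvPolynomial (Fin (Nn + 1)) ℂ).range
      (MvPolynomial (Fin (Nn + 1)) ℂ ⧸ I) := by
  choose k' hk' using hF.base
  have hk : ∀ i, X i ^ (k' i + e) ∈ Ideal.span (Set.range F) ⊔ I := by
    intro i
    rw [pow_add]
    exact Ideal.mul_mem_right _ _ (hk' i)
  have htop := spn_eq_top hI hF.pos hF.hom (k := fun i => k' i + e) (fun i => by omega) hk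
  obtain ⟨D, hD⟩ : ∃ D, D = ∑ i, (k' i + e) := ⟨_, rfl⟩
  rw [← hD] at htop
  refine ⟨Submodule.fg_def.2 ⟨(fun p => Ideal.Quotient.mk I p) '' Set.range (mons Nn D),
    (Set.finite_range _).image _, ?_⟩⟩
  rw [eq_top_iff]
  intro y _
  obtain ⟨p, rfl⟩ := Ideal.Quotient.mk_surjective y
  have hp : p ∈ spn I F D := by
    rw [htop]
    trivial
  obtain ⟨g, hg, q, hq, rfl⟩ := Submodule.mem_sup.1 hp
  have hq' : Ideal.Quotient.mk I q = 0 := Ideal.Quotient.eq_zero_iff_mem.2 hq
  rw [map_add, hq', add_zero]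
  clear hp hq' hq
  induction hg using Submodule.span_induction with
  | mem x hx => exact Submodule.subset_span ⟨x, hx, rfl⟩
  | zero =>
    rw [map_zero]
    exact Submodule.zero_mem _
  | add x y _ _ hx hy =>
    rw [map_add]
    exact Submodule.add_mem _ (hx trivial) (hy trivial)
  | smul c x _ hx =>
    have h1 := Submodule.smul_mem _ c (hx trivial)
    exact h1

/-- **Integrality.** -/
theorem exists_relation {m Nn e : ℕ} {I : Ideal (MvPolynomial (Fin (Nn + 1)) ℂ)} (hI : Homog I)
    {F : Fin m → MvPolynomial (Fin (Nn + 1)) ℂ} (hF : BaseFree I e F) (i : Fin (Nn + 1)) :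
    ∃ (s : ℕ) (c : Fin s → MvPolynomial (Fin m) ℂ), 1 ≤ s ∧
      (∀ t : Fin s, (c t).IsHomogeneous (s - t)) ∧
      (X i ^ e) ^ s + ∑ t, aeval F (c t) * (X i ^ e) ^ (t : ℕ) ∈ I := by
  classical
  have := finite_quot hI hF
  obtain ⟨A', hA'⟩ : ∃ A' : Subalgebra ℂ (MvPolynomial (Fin (Nn + 1)) ℂ),
    A' = (aeval F : MvPolynomial (Fin m) ℂ →ₐ[ℂ] MvPolynomial (Fin (Nn + 1)) ℂ).range := ⟨_, rfl⟩
  rw [← hA'] at this
  have hint : IsIntegral A' (Ideal.Quotient.mk I (X i ^ e)) := Algebra.IsIntegral.isIntegral _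
  obtain ⟨p, hpm, hp⟩ := hint
  obtain ⟨Q, hQ⟩ : ∃ Q : Polynomial A', Q = Polynomial.X * p := ⟨_, rfl⟩
  have hQm : Q.Monic := by
    rw [hQ]
    exact Polynomial.monic_X.mul hpm
  have hQd : Q.natDegree = p.natDegree + 1 := by
    rw [hQ, Polynomial.monic_X.natDegree_mul hpm, Polynomial.natDegree_X, add_comm]
  have hQ0 : Polynomial.eval₂ (algebraMap A' (MvPolynomial (Fin (Nn + 1)) ℂ ⧸ I))
      (Ideal.Quotient.mk I (X i ^ e)) Q = 0 := by
    rw [hQ, Polynomial.eval₂_mul, hp, mul_zero]
  obtain ⟨s, hs⟩ : ∃ s, s = p.natDegree + 1 := ⟨_, rfl⟩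
  rw [← hs] at hQd
  have hpre : ∀ t : ℕ, ∃ b : MvPolynomial (Fin m) ℂ, aeval F b = (Q.coeff t : _) := by
    intro t
    have h1 : ((Q.coeff t : A') : MvPolynomial (Fin (Nn + 1)) ℂ) ∈ A' := (Q.coeff t).2
    have h2 : A' ≤ (aeval F : MvPolynomial (Fin m) ℂ →ₐ[ℂ] MvPolynomial (Fin (Nn + 1)) ℂ).range :=
      hA'.le
    exact h2 h1
  choose b hb using hpre
  have hmem : (X i ^ e) ^ s + ∑ t : Fin s, aeval F (b t) * (X i ^ e) ^ (t : ℕ) ∈ I := by
    rw [← Ideal.Quotient.eq_zero_iff_mem, map_add, map_sum,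
      add_comm (Ideal.Quotient.mk I ((X i ^ e) ^ s))]
    rw [Polynomial.eval₂_eq_sum_range, hQd, Finset.sum_range_succ] at hQ0
    have h1 : Q.coeff s = 1 := by
      rw [← hQd]
      exact hQm.leadingCoeff
    rw [h1, map_one, one_mul, ← Fin.sum_univ_eq_sum_range
      (fun t => (algebraMap A' (MvPolynomial (Fin (Nn + 1)) ℂ ⧸ I)) (Q.coeff t) *
        Ideal.Quotient.mk I (X i ^ e) ^ t)] at hQ0
    refine Eq.trans ?_ hQ0
    rw [map_pow _ _ s]
    congr 1
    refine Finset.sum_congr rfl fun t _ => ?_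
    rw [hb, map_mul, map_pow _ _ (t : ℕ)]
    rfl
  refine ⟨s, fun t => homogeneousComponent (s - t) (b t), by omega,
    fun t => homogeneousComponent_isHomogeneous _ _, ?_⟩
  have h2 := hI _ hmem (e * s)
  rw [map_add, map_sum] at h2
  have h3 : homogeneousComponent (e * s) ((X i ^ e : MvPolynomial (Fin (Nn + 1)) ℂ) ^ s) =
      (X i ^ e) ^ s := by
    refine homogeneousComponent_eq_self ?_
    rw [← pow_mul]
    exact isHomogeneous_X_pow i (e * s)
  have h4 : ∀ t : Fin s, homogeneousComponent (e * s) (aeval F (b t) * (X i ^ e) ^ (t : ℕ)) =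
      aeval F (homogeneousComponent (s - t) (b t)) * (X i ^ e) ^ (t : ℕ) := by
    intro t
    have h5 : ((X i ^ e : MvPolynomial (Fin (Nn + 1)) ℂ) ^ (t : ℕ)).IsHomogeneous (e * t) := by
      rw [← pow_mul]
      exact isHomogeneous_X_pow i (e * t)
    have h6 : e * s = e * (s - t) + e * t := by
      rw [← mul_add]
      congr 1
      have := t.2
      omega
    rw [h6, homComp_mul h5, homComp_aeval hF.pos hF.hom]
  rw [h3, Finset.sum_congr rfl fun t _ => h4 t] at h2
  exact h2

/-- The value of the form `F a` at the generic point, normalised at `j₀`. -/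
def valAt {m Nn : ℕ} (P : Ideal (MvPolynomial (Fin (Nn + 1)) ℂ)) [P.IsPrime] (j₀ : Fin (Nn + 1))
    (F : Fin m → MvPolynomial (Fin (Nn + 1)) ℂ) (a : Fin m) : FunField P :=
  aeval (fun i => ratio P i j₀) (F a)

/-! ### The generic point -/

section Generic

variable {Nn : ℕ} {P : Ideal (MvPolynomial (Fin (Nn + 1)) ℂ)}

private theorem ratio_self' [P.IsPrime] {j₀ : Fin (Nn + 1)} (h : coordFun P j₀ ≠ 0) :
    ratio P j₀ j₀ = 1 := by
  apply Subtype.ext
  exact div_self h

private theorem adjoin_ratio' [P.IsPrime] {j₀ : Fin (Nn + 1)} (h : coordFun P j₀ ≠ 0) :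
    IntermediateField.adjoin ℂ (Set.range fun i => ratio P i j₀) = ⊤ := by
  classical
  set x : Fin (Nn + 1) → functionField P := fun i => ratio P i j₀ with hx
  have hratio : ∀ i j, ((x i / x j : functionField P) :
      FractionRing (MvPolynomial (Fin (Nn + 1)) ℂ ⧸ P)) = coordFun P i / coordFun P j := by
    intro i j
    have h1 : ((x i / x j : functionField P) :
      FractionRing (MvPolynomial (Fin (Nn + 1)) ℂ ⧸ P)) =
        (coordFun P i / coordFun P j₀) / (coordFun P j / coordFun P j₀) := by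
      rw [hx]
      rfl
    rw [h1, div_div_div_cancel_right₀ h]
  have hgen : IntermediateField.adjoin ℂ {y | ∃ i j, y = x i / x j} = ⊤ := by
    rw [← IntermediateField.lift_inj, IntermediateField.lift_adjoin, IntermediateField.lift_top]
    conv_rhs => rw [functionField]
    congr 1
    ext y
    constructor
    · rintro ⟨y', ⟨i, j, rfl⟩, rfl⟩
      exact ⟨i, j, hratio i j⟩
    · rintro ⟨i, j, rfl⟩
      exact ⟨x i / x j, ⟨i, j, rfl⟩, hratio i j⟩
  change IntermediateField.adjoin ℂ (Set.range x) = ⊤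
  rw [eq_top_iff, ← hgen, IntermediateField.adjoin_le_iff]
  rintro y ⟨i, j, rfl⟩
  exact div_mem (IntermediateField.subset_adjoin _ _ ⟨i, rfl⟩)
    (IntermediateField.subset_adjoin _ _ ⟨j, rfl⟩)

private theorem eval_ratio_eq_zero_iff [P.IsPrime] {j₀ : Fin (Nn + 1)} (h : coordFun P j₀ ≠ 0)
    {n : ℕ} {Q : MvPolynomial (Fin (Nn + 1)) ℂ} (hQ : Q.IsHomogeneous n) :
    aeval (fun i => ratio P i j₀) Q = 0 ↔ Q ∈ P := by
  set x : Fin (Nn + 1) → functionField P := fun i => ratio P i j₀ with hx
  have h0 : aeval (fun i => ratio P i j₀) Q = (aeval x Q : functionField P) := rfl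
  have h1 : ((aeval x Q : functionField P) : FractionRing (MvPolynomial (Fin (Nn + 1)) ℂ ⧸ P)) =
      aeval (fun i => (coordFun P j₀)⁻¹ * coordFun P i) Q := by
    have h3 : ((functionField P).val (aeval x Q)) =
        aeval (fun i => (functionField P).val (x i)) Q := by
      rw [← MvPolynomial.comp_aeval]
      rfl
    change (functionField P).val (aeval x Q) = _
    rw [h3]
    congr 2
    funext i
    change coordFun P i / coordFun P j₀ = _
    rw [div_eq_inv_mul]
  rw [Pool.Agent.H92.GT.Proj.aeval_scale hQ] at h1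
  rw [← Pool.Agent.H92.GT.Proj.aeval_coordFun_eq_zero_iff, h0]
  constructor
  · intro h2
    have h3 : ((aeval x Q : functionField P) :
        FractionRing (MvPolynomial (Fin (Nn + 1)) ℂ ⧸ P)) = 0 := by
      rw [show (aeval x Q : functionField P) = 0 from h2]
      rfl
    rw [h3] at h1
    exact (mul_eq_zero.1 h1.symm).resolve_left (pow_ne_zero _ (inv_ne_zero h))
  · intro h2
    apply Subtype.ext
    rw [h1, h2, mul_zero]
    rfl

/-- Polynomials in the ideal vanish at the generic point. -/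
private theorem eval_ratio_of_mem [P.IsPrime] (hP : Homog P) {j₀ : Fin (Nn + 1)}
    (h : coordFun P j₀ ≠ 0) {Q : MvPolynomial (Fin (Nn + 1)) ℂ} (hQ : Q ∈ P) :
    aeval (fun i => ratio P i j₀) Q = 0 := by
  rw [← sum_homogeneousComponent Q, map_sum]
  exact Finset.sum_eq_zero fun d _ => (eval_ratio_eq_zero_iff h
    (homogeneousComponent_isHomogeneous d Q)).2 (hP Q hQ d)

private theorem coord_notMem [P.IsPrime] {j₀ : Fin (Nn + 1)} (h : coordFun P j₀ ≠ 0) :
    (X j₀ : MvPolynomial (Fin (Nn + 1)) ℂ) ∉ P := by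
  intro hcon
  apply h
  have h2 := (Pool.Agent.H92.GT.Proj.aeval_coordFun_eq_zero_iff P (X j₀)).2 hcon
  rwa [aeval_X] at h2

end Generic

private theorem aeval_valAt {m Nn : ℕ} (P : Ideal (MvPolynomial (Fin (Nn + 1)) ℂ)) [P.IsPrime]
    (j₀ : Fin (Nn + 1)) (F : Fin m → MvPolynomial (Fin (Nn + 1)) ℂ) (c : MvPolynomial (Fin m) ℂ) :
    aeval (fun i => ratio P i j₀) (aeval F c) = aeval (valAt P j₀ F) c := by
  rw [← AlgHom.comp_apply, MvPolynomial.comp_aeval]
  rfl

private theorem scale_aeval {m : ℕ} {K : Type} [Field K] [Algebra ℂ K] {G : MvPolynomial (Fin m) ℂ}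
    {n : ℕ} (hG : G.IsHomogeneous n) (c : K) (x : Fin m → K) :
    aeval (fun i => c * x i) G = c ^ n * aeval x G := by
  rw [aeval_def, aeval_def, eval₂_eq, eval₂_eq, Finset.mul_sum]
  refine Finset.sum_congr rfl fun m hm => ?_
  have h5 : ∑ i ∈ m.support, m i = n := by
    have := hG (mem_support_iff.1 hm)
    rw [Finsupp.weight_apply, Finsupp.sum] at this
    simpa using this
  simp only [mul_pow, Finset.prod_mul_distrib]
  rw [Finset.prod_pow_eq_pow_sum, h5]
  ring

private theorem scale_div {m : ℕ} {K : Type} [Field K] [Algebra ℂ K] {G : MvPolynomial (Fin m) ℂ}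
    {n : ℕ} (hG : G.IsHomogeneous n) {c : K} (hc : c ≠ 0) (x : Fin m → K) :
    aeval x G = c ^ n * aeval (fun i => x i / c) G := by
  rw [← scale_aeval hG]
  congr 2
  funext i
  rw [mul_div_cancel₀ _ hc]

private theorem rel_div {K : Type} [Field K] {x v y : K} (hv : v ≠ 0) (hx : x = v * y) {s : ℕ}
    (γ : Fin s → K) (h : x ^ s + ∑ t : Fin s, v ^ s * (γ t * y ^ (t : ℕ)) = 0) :
    y ^ s + ∑ t : Fin s, γ t * y ^ (t : ℕ) = 0 := by
  rw [hx, mul_pow, ← Finset.mul_sum, ← mul_add] at h
  exact (mul_eq_zero.1 h).resolve_left (pow_ne_zero _ hv)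

theorem fun_algebraic {m Nn e : ℕ} (P : Ideal (MvPolynomial (Fin (Nn + 1)) ℂ)) [P.IsPrime]
    (hP : Homog P) {F : Fin m → MvPolynomial (Fin (Nn + 1)) ℂ} (hF : BaseFree P e F)
    {j₀ : Fin (Nn + 1)} (hj₀ : coordFun P j₀ ≠ 0) :
    ∃ a₀, valAt P j₀ F a₀ ≠ 0 ∧ Algebra.IsAlgebraic
      (IntermediateField.adjoin ℂ (Set.range fun a => valAt P j₀ F a / valAt P j₀ F a₀))
      (FunField P) := by
  classical
  obtain ⟨a₀, ha₀⟩ : ∃ a₀, valAt P j₀ F a₀ ≠ 0 := by
    by_contra hcon
    push Not at hcon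
    have h1 : Ideal.span (Set.range F) ⊔ P ≤ P := by
      refine sup_le (Ideal.span_le.2 ?_) le_rfl
      rintro - ⟨a, rfl⟩
      exact (eval_ratio_eq_zero_iff hj₀ (hF.hom a)).1 (hcon a)
    obtain ⟨k, hk⟩ := hF.base j₀
    exact coord_notMem hj₀ (Ideal.IsPrime.mem_of_pow_mem inferInstance k (h1 hk))
  refine ⟨a₀, ha₀, ?_⟩
  obtain ⟨K₀, hK₀⟩ : ∃ K₀ : IntermediateField ℂ (FunField P), K₀ = IntermediateField.adjoin ℂ
    (Set.range fun a => valAt P j₀ F a / valAt P j₀ F a₀) := ⟨_, rfl⟩
  rw [← hK₀]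
  have hmem : ∀ c : MvPolynomial (Fin m) ℂ,
      aeval (fun a => valAt P j₀ F a / valAt P j₀ F a₀) c ∈ K₀ := by
    intro c
    have h1 : ∀ a, valAt P j₀ F a / valAt P j₀ F a₀ ∈ K₀ := by
      intro a
      rw [hK₀]
      exact IntermediateField.subset_adjoin _ _ ⟨a, rfl⟩
    induction c using MvPolynomial.induction_on with
    | C a =>
      rw [aeval_C]
      exact K₀.algebraMap_mem a
    | add p q hp hq =>
      rw [map_add]
      exact add_mem hp hq
    | mul_X p i hp =>
      rw [map_mul, aeval_X]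
      exact mul_mem hp (h1 i)
  -- the normalised powers are algebraic
  have hy : ∀ i, IsAlgebraic K₀ (ratio P i j₀ ^ e / valAt P j₀ F a₀) := by
    intro i
    obtain ⟨s, c, hs, hc, hrel⟩ := exists_relation hP hF i
    have h1 := eval_ratio_of_mem hP hj₀ hrel
    rw [map_add, map_sum, map_pow, map_pow, aeval_X] at h1
    have h2 : ∀ t : Fin s, aeval (fun i => ratio P i j₀) (aeval F (c t) * (X i ^ e) ^ (t : ℕ)) =
        valAt P j₀ F a₀ ^ s * (aeval (fun a => valAt P j₀ F a / valAt P j₀ F a₀) (c t) *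
          (ratio P i j₀ ^ e / valAt P j₀ F a₀) ^ (t : ℕ)) := by
      intro t
      rw [map_mul, map_pow, map_pow, aeval_X, aeval_valAt, scale_div (hc t) ha₀, div_pow]
      have h3 : valAt P j₀ F a₀ ^ s = valAt P j₀ F a₀ ^ (s - (t : ℕ)) *
          valAt P j₀ F a₀ ^ (t : ℕ) := by
        rw [← pow_add]
        congr 1
        have := t.2
        omega
      rw [h3]
      field_simp
    rw [Finset.sum_congr rfl fun t _ => h2 t] at h1
    have h4 : (ratio P i j₀ ^ e / valAt P j₀ F a₀) ^ s + ∑ t : Fin s,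
        aeval (fun a => valAt P j₀ F a / valAt P j₀ F a₀) (c t) *
          (ratio P i j₀ ^ e / valAt P j₀ F a₀) ^ (t : ℕ) = 0 :=
      rel_div ha₀ (mul_div_cancel₀ _ ha₀).symm _ h1
    -- the polynomial
    obtain ⟨q, hq⟩ : ∃ q : Polynomial K₀, q = Polynomial.X ^ s + ∑ t : Fin s,
      Polynomial.C (⟨aeval (fun a => valAt P j₀ F a / valAt P j₀ F a₀) (c t), hmem _⟩ : K₀) *
        Polynomial.X ^ (t : ℕ) := ⟨_, rfl⟩
    refine ⟨q, ?_, ?_⟩
    · have h5 : q.coeff s = 1 := by
        rw [hq, Polynomial.coeff_add, Polynomial.coeff_X_pow, if_pos rfl,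
          Polynomial.finsetSum_coeff]
        rw [Finset.sum_eq_zero, add_zero]
        intro t _
        rw [Polynomial.coeff_C_mul, Polynomial.coeff_X_pow, if_neg (by have := t.2; omega),
          mul_zero]
      intro h6
      rw [h6, Polynomial.coeff_zero] at h5
      exact zero_ne_one h5
    · rw [hq, map_add, map_sum, map_pow, Polynomial.aeval_X, ← h4]
      congr 1
      refine Finset.sum_congr rfl fun t _ => ?_
      rw [map_mul, map_pow, Polynomial.aeval_X, Polynomial.aeval_C]
      rfl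
  have hinv : IsAlgebraic K₀ (valAt P j₀ F a₀) := by
    have h1 := hy j₀
    rw [ratio_self' hj₀, one_pow, one_div] at h1
    have h2 := h1.inv
    rwa [inv_inv] at h2
  have hx : ∀ i, IsAlgebraic K₀ (ratio P i j₀) := by
    intro i
    have h1 := (hy i).mul hinv
    rw [div_mul_cancel₀ _ ha₀] at h1
    exact h1.of_pow (by have := hF.pos; omega)
  refine ⟨fun z => ?_⟩
  have hz : z ∈ IntermediateField.adjoin ℂ (Set.range fun i => ratio P i j₀) := by
    rw [adjoin_ratio' hj₀]
    trivial
  induction hz using IntermediateField.adjoin_induction with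
  | mem y hy =>
    obtain ⟨i, rfl⟩ := hy
    exact hx i
  | algebraMap c =>
    have h1 : algebraMap ℂ (FunField P) c = algebraMap K₀ (FunField P) (algebraMap ℂ K₀ c) := rfl
    rw [h1]
    exact isAlgebraic_algebraMap _
  | add y y' _ _ h1 h2 => exact h1.add h2
  | inv y _ h1 => exact h1.inv
  | mul y y' _ _ h1 h2 => exact h1.mul h2

/-- A transcendence basis among the quotients of the forms. -/
private theorem exists_basis {n Nn e w : ℕ} (P : Ideal (MvPolynomial (Fin (Nn + 1)) ℂ)) [P.IsPrime]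
    (hP : Homog P) {F : Fin (n + 2) → MvPolynomial (Fin (Nn + 1)) ℂ} (hF : BaseFree P e F)
    (hz : ∃ z : Fin (w + 1) → FunField P, IsTranscendenceBasis ℂ z) :
    ∃ (j₀ : Fin (Nn + 1)) (a₀ : Fin (n + 2)) (J : Fin (w + 1) → Fin (n + 1)),
      coordFun P j₀ ≠ 0 ∧ valAt P j₀ F a₀ ≠ 0 ∧ IsTranscendenceBasis ℂ
        (fun i => valAt P j₀ F (a₀.succAbove (J i)) / valAt P j₀ F a₀) := by
  obtain ⟨z, hz⟩ := hz
  obtain ⟨j₀, hj₀⟩ := Pool.Agent.H92.GT.Proj.exists_coordFun_ne_zero P (k := w) z hz
  obtain ⟨a₀, ha₀, halg⟩ := fun_algebraic P hP hF hj₀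
  have h1 : IntermediateField.adjoin ℂ (Set.range fun a => valAt P j₀ F a / valAt P j₀ F a₀) =
      IntermediateField.adjoin ℂ (Set.range fun i : Fin (n + 1) =>
        valAt P j₀ F (a₀.succAbove i) / valAt P j₀ F a₀) := by
    refine le_antisymm (IntermediateField.adjoin_le_iff.2 ?_) (IntermediateField.adjoin_le_iff.2 ?_)
    · rintro - ⟨a, rfl⟩
      dsimp only
      rcases eq_or_ne a a₀ with rfl | hne
      · rw [div_self ha₀]
        exact one_mem _
      · obtain ⟨i, rfl⟩ := Fin.exists_succAbove_eq hne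
        exact IntermediateField.subset_adjoin _ _ ⟨i, rfl⟩
    · rintro - ⟨i, rfl⟩
      exact IntermediateField.subset_adjoin _ _ ⟨a₀.succAbove i, rfl⟩
  rw [h1] at halg
  obtain ⟨J, hJ⟩ := Pool.Agent.H92.GT.exists_index halg hz
  exact ⟨j₀, a₀, J, hj₀, ha₀, hJ⟩

theorem dim_le {n Nn e : ℕ} (P : Ideal (MvPolynomial (Fin (Nn + 1)) ℂ)) [P.IsPrime]
    (hP : Homog P) {F : Fin (n + 2) → MvPolynomial (Fin (Nn + 1)) ℂ} (hF : BaseFree P e F) {w : ℕ}
    (hz : ∃ z : Fin w → FunField P, IsTranscendenceBasis ℂ z) : w ≤ n + 1 := by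
  rcases w with - | w
  · exact Nat.zero_le _
  obtain ⟨j₀, a₀, J, -, -, hJ⟩ := exists_basis P hP hF hz
  have hinj : Function.Injective J := by
    intro i i' h
    apply hJ.1.injective
    dsimp only
    rw [h]
  have := Fintype.card_le_of_injective J hinj
  simpa using this

theorem delta_notMem {n Nn e : ℕ} (P : Ideal (MvPolynomial (Fin (Nn + 1)) ℂ)) [P.IsPrime]
    (hP : Homog P) {F : Fin (n + 2) → MvPolynomial (Fin (Nn + 1)) ℂ} (hF : BaseFree P e F)
    (hz : ∃ z : Fin (n + 1) → FunField P, IsTranscendenceBasis ℂ z) {Δ : PV n} (hΔ : Δ ≠ 0)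
    {k : ℕ} (hk : Δ.IsHomogeneous k) : aeval F Δ ∉ P := by
  classical
  intro hcon
  obtain ⟨j₀, a₀, J, hj₀, ha₀, hJ⟩ := exists_basis P hP hF hz
  have hinj : Function.Injective J := by
    intro i i' h
    apply hJ.1.injective
    dsimp only
    rw [h]
  have hbij : Function.Bijective J := (Finite.injective_iff_bijective).1 hinj
  obtain ⟨x', hx'⟩ : ∃ x' : Fin (n + 1) → FunField P,
    x' = fun i => valAt P j₀ F (a₀.succAbove i) / valAt P j₀ F a₀ := ⟨_, rfl⟩
  have hind : AlgebraicIndependent ℂ x' := by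
    have h1 : AlgebraicIndependent ℂ (x' ∘ (Equiv.ofBijective J hbij)) := by
      rw [hx']
      exact hJ.1
    exact (algebraicIndependent_equiv (Equiv.ofBijective J hbij)).1 h1
  -- the value
  have h1 := eval_ratio_of_mem hP hj₀ hcon
  rw [aeval_valAt, scale_div hk ha₀] at h1
  have h2 := (mul_eq_zero.1 h1).resolve_left (pow_ne_zero _ ha₀)
  -- dehomogenisation
  obtain ⟨Δ', hΔ'⟩ : ∃ Δ' : MvPolynomial (Fin (n + 1)) ℂ,
    Δ' = aeval (a₀.insertNth (α := fun _ => MvPolynomial (Fin (n + 1)) ℂ) 1 fun i => X i) Δ :=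
    ⟨_, rfl⟩
  have hev : ∀ {K : Type} [Field K] [Algebra ℂ K] (y : Fin (n + 1) → K) (u : Fin (n + 2) → K),
      u a₀ = 1 → (∀ i, u (a₀.succAbove i) = y i) → aeval y Δ' = aeval u Δ := by
    intro K _ _ y u hu1 hu2
    rw [hΔ', ← AlgHom.comp_apply, MvPolynomial.comp_aeval]
    congr 2
    funext a
    rcases eq_or_ne a a₀ with rfl | hne
    · rw [Fin.insertNth_apply_same, map_one, hu1]
    · obtain ⟨i, rfl⟩ := Fin.exists_succAbove_eq hne
      rw [Fin.insertNth_apply_succAbove, aeval_X, hu2]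
  have h3 : aeval x' Δ' = 0 := by
    rw [hev x' (fun a => valAt P j₀ F a / valAt P j₀ F a₀) (div_self ha₀) (fun i => by rw [hx']),
      h2]
  have h4 : Δ' = 0 := (algebraicIndependent_iff.1 hind) Δ' h3
  apply hΔ
  have h5 : X a₀ * Δ = 0 := by
    apply MvPolynomial.funext
    intro u
    rw [map_mul, eval_X, map_zero]
    by_cases hu : u a₀ = 0
    · rw [hu, zero_mul]
    · have h6 := scale_div (K := ℂ) hk hu u
      have h7 := hev (K := ℂ) (fun i => u (a₀.succAbove i) / u a₀) (fun a => u a / u a₀)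
        (div_self hu) (fun i => rfl)
      rw [← h7, h4, map_zero, mul_zero] at h6
      rw [← MvPolynomial.aeval_eq_eval]
      change u a₀ * aeval u Δ = 0
      rw [h6, mul_zero]
  exact (mul_eq_zero.1 h5).resolve_left (X_ne_zero a₀)

end Pool.Agent.H5.DG
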