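import Pool.Agent.H5.DG.CovMain
import Pool.Agent.H5.DG.CovAlg

/-!
# Project DG, module FinalDefs: the four properties, the orbifold and the cover part
-/

open MvPolynomial Filter Topology
open Pool.Agent.H17 (PN VanishesAt zeroLocus ZariskiClosedIn HolomorphicInto puncturedDisc)
open Pool.Agent.H17GT (coordFun)
open Pool.Agent.H17LG.Variety (FunField ratio IsLogGeneralType)

noncomputable section

namespace Pool.Agent.H5.DG

variable {Nn m : ℕ}

/-- The open part of the variety given by `P` is of log general type. -/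
def LogGeneralType (P : Ideal (MvPolynomial (Fin (Nn + 1)) ℂ)) [P.IsPrime] (O : Finset (Fin m))
    (H : Fin m → MvPolynomial (Fin (Nn + 1)) ℂ) (w : ℕ) : Prop :=
  IsLogGeneralType (OnForms P O H (w := w))

/-- The four properties of the Green–Griffiths–Lang conjecture for the open part of the variety
given by `I`, with the exceptional set `Ξ`: it is of log general type; holomorphic maps from the
punctured disc which are not into `Ξ` extend; the images of the non-constant entire curves lie in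
`Ξ`; the closed subvarieties of positive dimension which are not contained in `Ξ` are of log
general type. -/
structure FourProperties (I : Ideal (MvPolynomial (Fin (Nn + 1)) ℂ)) [I.IsPrime]
    (O : Finset (Fin m)) (H : Fin m → MvPolynomial (Fin (Nn + 1)) ℂ) (r : ℕ)
    (Ξ : Set (PN Nn)) : Prop where
  closed : ZariskiClosedIn (coverLocus I O H) Ξ
  proper : Ξ ≠ coverLocus I O H
  logGeneralType : LogGeneralType I O H r
  picard : ∀ f : ℂ → PN Nn, HolomorphicInto f puncturedDisc →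
    (∀ z ∈ puncturedDisc, f z ∈ coverLocus I O H) → (∃ z ∈ puncturedDisc, f z ∉ Ξ) →
    ∃ g : ℂ → PN Nn, HolomorphicInto g (Metric.ball 0 1) ∧ ∀ z ∈ puncturedDisc, g z = f z
  brody : ∀ f : ℂ → PN Nn, HolomorphicInto f Set.univ → (∀ z, f z ∈ coverLocus I O H) →
    (∃ z w, f z ≠ f w) → ∀ z, f z ∈ Ξ
  strongly : ∀ (P : Ideal (MvPolynomial (Fin (Nn + 1)) ℂ)) [P.IsPrime], Homog P → I ≤ P →
    (∀ i ∈ O, H i ∉ P) → ¬ coverLocus P O H ⊆ Ξ → ∀ w, 1 ≤ w →
    (∃ z : Fin w → FunField P, IsTranscendenceBasis ℂ z) → LogGeneralType P O H w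

theorem logGeneralType_empty {m' : ℕ} (P : Ideal (MvPolynomial (Fin (Nn + 1)) ℂ)) [P.IsPrime]
    {H : Fin m → MvPolynomial (Fin (Nn + 1)) ℂ} {H' : Fin m' → MvPolynomial (Fin (Nn + 1)) ℂ}
    {w : ℕ} (h : LogGeneralType P (∅ : Finset (Fin m)) H w) :
    LogGeneralType P (∅ : Finset (Fin m')) H' w := by
  have h1 : (OnForms P (∅ : Finset (Fin m)) H (w := w)) =
      OnForms P (∅ : Finset (Fin m')) H' (w := w) := by
    funext E
    refine propext ⟨?_, ?_⟩
    · rintro ⟨j, -, -, i, hi, -⟩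
      exact absurd hi (Finset.notMem_empty i)
    · rintro ⟨j, -, -, i, hi, -⟩
      exact absurd hi (Finset.notMem_empty i)
  unfold LogGeneralType at h ⊢
  rwa [← h1]

theorem coverLocus_empty {m' : ℕ} (P : Ideal (MvPolynomial (Fin (Nn + 1)) ℂ))
    (H : Fin m → MvPolynomial (Fin (Nn + 1)) ℂ) (H' : Fin m' → MvPolynomial (Fin (Nn + 1)) ℂ) :
    coverLocus P (∅ : Finset (Fin m)) H = coverLocus P (∅ : Finset (Fin m')) H' := by
  ext x
  exact ⟨fun h => ⟨h.1, fun i hi => absurd hi (Finset.notMem_empty i)⟩,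
    fun h => ⟨h.1, fun i hi => absurd hi (Finset.notMem_empty i)⟩⟩

/-- If no hypersurface is removed the forms `H` do not matter. -/
theorem FourProperties.empty {m' r : ℕ} {I : Ideal (MvPolynomial (Fin (Nn + 1)) ℂ)} [I.IsPrime]
    {H : Fin m → MvPolynomial (Fin (Nn + 1)) ℂ} {H' : Fin m' → MvPolynomial (Fin (Nn + 1)) ℂ}
    {Ξ : Set (PN Nn)} (h : FourProperties I (∅ : Finset (Fin m)) H r Ξ) :
    FourProperties I (∅ : Finset (Fin m')) H' r Ξ := by
  have h0 := coverLocus_empty I H H'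
  refine ⟨?_, ?_, logGeneralType_empty I h.logGeneralType, ?_, ?_, ?_⟩
  · rw [← h0]
    exact h.closed
  · rw [← h0]
    exact h.proper
  · rw [← h0]
    exact h.picard
  · rw [← h0]
    exact h.brody
  · intro P _ hP hIP _ hsub w hw hz
    refine logGeneralType_empty P (h.strongly P hP hIP
      (fun i hi => absurd hi (Finset.notMem_empty i)) ?_ w hw hz)
    rwa [coverLocus_empty P H H']

/-! ### Points of varieties -/

/-- The Nullstellensatz for prime ideals. -/
theorem mem_of_forall (P : Ideal (MvPolynomial (Fin (Nn + 1)) ℂ)) [P.IsPrime]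
    {Q : MvPolynomial (Fin (Nn + 1)) ℂ}
    (h : ∀ x : Fin (Nn + 1) → ℂ, (∀ R ∈ P, eval x R = 0) → eval x Q = 0) : Q ∈ P := by
  rw [← MvPolynomial.IsPrime.vanishingIdeal_zeroLocus (K := ℂ) P,
    MvPolynomial.mem_vanishingIdeal_iff]
  intro x hx
  rw [MvPolynomial.aeval_eq_eval]
  refine h x fun R hR => ?_
  have h1 := hx R hR
  rwa [MvPolynomial.aeval_eq_eval] at h1

theorem exists_X_notMem (P : Ideal (MvPolynomial (Fin (Nn + 1)) ℂ)) [P.IsPrime] {w : ℕ}
    (hw : 1 ≤ w) (hz : ∃ z : Fin w → FunField P, IsTranscendenceBasis ℂ z) :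
    ∃ i, (X i : MvPolynomial (Fin (Nn + 1)) ℂ) ∉ P := by
  obtain ⟨w, rfl⟩ : ∃ w', w = w' + 1 := ⟨w - 1, by omega⟩
  obtain ⟨z, hz⟩ := hz
  obtain ⟨j, hj⟩ := Pool.Agent.H92.GT.Proj.exists_coordFun_ne_zero P (k := w) z hz
  refine ⟨j, fun hcon => hj ?_⟩
  have h1 := (Pool.Agent.H92.GT.Proj.aeval_coordFun_eq_zero_iff P (X j)).2 hcon
  rwa [aeval_X] at h1

/-- A point outside of a hypersurface. -/
theorem exists_point {P : Ideal (MvPolynomial (Fin (Nn + 1)) ℂ)} [P.IsPrime] {w : ℕ}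
    (hw : 1 ≤ w) (hz : ∃ z : Fin w → FunField P, IsTranscendenceBasis ℂ z) {O : Finset (Fin m)}
    {H : Fin m → MvPolynomial (Fin (Nn + 1)) ℂ} {e : ℕ} (hH : ∀ i, (H i).IsHomogeneous e)
    (hO : ∀ i ∈ O, H i ∉ P) {Q : MvPolynomial (Fin (Nn + 1)) ℂ} {k : ℕ}
    (hQ : Q.IsHomogeneous k) (hQP : Q ∉ P) : ∃ x ∈ coverLocus P O H, ¬ VanishesAt Q x := by
  classical
  obtain ⟨i, hi⟩ := exists_X_notMem P hw hz
  have hP : P.IsPrime := inferInstance
  have h1 : X i * Q * ∏ j ∈ O, H j ∉ P := by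
    intro hcon
    rcases hP.mem_or_mem hcon with h2 | h2
    · rcases hP.mem_or_mem h2 with h3 | h3
      · exact hi h3
      · exact hQP h3
    · obtain ⟨j, hj, h3⟩ := (hP.prod_mem_iff).1 h2
      exact hO j hj h3
  have h2 : ∃ x : Fin (Nn + 1) → ℂ, (∀ R ∈ P, eval x R = 0) ∧
      eval x (X i * Q * ∏ j ∈ O, H j) ≠ 0 := by
    by_contra hcon
    push Not at hcon
    exact h1 (mem_of_forall P hcon)
  obtain ⟨x, hx, hne⟩ := h2
  rw [map_mul, map_mul, eval_X, map_prod] at hne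
  have hx0 : x ≠ 0 := by
    rintro rfl
    exact hne (by rw [Pi.zero_apply, zero_mul, zero_mul])
  refine ⟨Projectivization.mk ℂ x hx0, ⟨fun R hR k hk => ?_, fun j hj => ?_⟩, ?_⟩
  · rw [Pool.Agent.H17.vanishesAt_mk_iff hk]
    exact hx R hR
  · rw [Pool.Agent.H17.vanishesAt_mk_iff (hH j)]
    exact (Finset.prod_ne_zero_iff.1 (right_ne_zero_of_mul hne)) j hj
  · rw [Pool.Agent.H17.vanishesAt_mk_iff hQ]
    exact right_ne_zero_of_mul (left_ne_zero_of_mul hne)

/-! ### The orbifold form -/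

/-- Maps to `ℙ^r` which meet the hyperplanes `l j` with multiplicities at least `q`. -/
structure OrbifoldPart (q : ℕ) {r : ℕ} (l : Fin m → Fin (r + 1) → ℂ)
    (Δ : MvPolynomial (Fin (r + 1)) ℂ) : Prop where
  picard : ∀ f : ℂ → PN r, HolomorphicInto f puncturedDisc →
    (∀ j, MeetsWithMult q (l j) f puncturedDisc) →
    (∃ z ∈ puncturedDisc, ¬ VanishesAt Δ (f z)) →
    ∃ g : ℂ → PN r, HolomorphicInto g (Metric.ball 0 1) ∧ ∀ z ∈ puncturedDisc, g z = f z
  brody : ∀ f : ℂ → PN r, HolomorphicInto f Set.univ →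
    (∀ j, MeetsWithMult q (l j) f Set.univ) → (∃ z, ¬ VanishesAt Δ (f z)) → ∀ z w, f z = f w

/-- The statements on finite covers. -/
structure CoverPart {r : ℕ} (l : Fin m → Fin (r + 1) → ℂ) (Δ : MvPolynomial (Fin (r + 1)) ℂ)
    (I : Ideal (MvPolynomial (Fin (Nn + 1)) ℂ)) (F : Fin (r + 1) → MvPolynomial (Fin (Nn + 1)) ℂ)
    (O : Finset (Fin m)) : Prop where
  picard : ∀ f : ℂ → PN Nn, HolomorphicInto f puncturedDisc →
    (∀ z ∈ puncturedDisc, f z ∈ coverLocus I O fun j => comb (l j) F) →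
    (∃ z ∈ puncturedDisc, ¬ VanishesAt (aeval F Δ) (f z)) →
    ∃ g : ℂ → PN Nn, HolomorphicInto g (Metric.ball 0 1) ∧ ∀ z ∈ puncturedDisc, g z = f z
  brody : ∀ f : ℂ → PN Nn, HolomorphicInto f Set.univ →
    (∀ z, f z ∈ coverLocus I O fun j => comb (l j) F) →
    (∃ z, ¬ VanishesAt (aeval F Δ) (f z)) → ∀ z w, f z = f w
  strongly : ∀ (P : Ideal (MvPolynomial (Fin (Nn + 1)) ℂ)) [P.IsPrime], Homog P → I ≤ P →
    (∀ i ∈ O, comb (l i) F ∉ P) → aeval F Δ ∉ P → ∀ w, 1 ≤ w →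
      (∃ z : Fin w → FunField P, IsTranscendenceBasis ℂ z) →
      LogGeneralType P O (fun j => comb (l j) F) w

section

variable {r e : ℕ} {l : Fin m → Fin (r + 1) → ℂ} {Δ : MvPolynomial (Fin (r + 1)) ℂ} {k : ℕ}
  {I : Ideal (MvPolynomial (Fin (Nn + 1)) ℂ)} {F : Fin (r + 1) → MvPolynomial (Fin (Nn + 1)) ℂ}
  {O : Finset (Fin m)}

/-- The exceptional set. -/
def excLocus (l : Fin m → Fin (r + 1) → ℂ) (Δ : MvPolynomial (Fin (r + 1)) ℂ)
    (I : Ideal (MvPolynomial (Fin (Nn + 1)) ℂ))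
    (F : Fin (r + 1) → MvPolynomial (Fin (Nn + 1)) ℂ) (O : Finset (Fin m)) : Set (PN Nn) :=
  {x | x ∈ coverLocus I O (fun j => comb (l j) F) ∧ VanishesAt (aeval F Δ) x}

theorem excLocus_closed (hF : BaseFree I e F) (hk : Δ.IsHomogeneous k) :
    ZariskiClosedIn (coverLocus I O fun j => comb (l j) F) (excLocus l Δ I F O) := by
  refine ⟨{aeval F Δ}, ?_, ?_⟩
  · intro P hP
    rw [Set.mem_singleton_iff] at hP
    subst hP
    exact ⟨e * k, hk.aeval _ hF.hom⟩
  · ext x
    simp [excLocus]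

theorem excLocus_ne [I.IsPrime] (hF : BaseFree I e F) (hk : Δ.IsHomogeneous k)
    (hΔI : aeval F Δ ∉ I) (hO : ∀ j ∈ O, comb (l j) F ∉ I) {w : ℕ} (hw : 1 ≤ w)
    (hz : ∃ z : Fin w → FunField I, IsTranscendenceBasis ℂ z) :
    excLocus l Δ I F O ≠ coverLocus I O fun j => comb (l j) F := by
  intro hcon
  obtain ⟨x, hx, hne⟩ := exists_point (H := fun j => comb (l j) F) (O := O) hw hz
    (fun j => comb_isHomogeneous (l j) hF.hom) hO (hk.aeval _ hF.hom) hΔI
  rw [← hcon] at hx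
  exact hne hx.2

/-- **All four properties**, for covers which are not contained in the exceptional set. -/
theorem CoverPart.four [I.IsPrime] (h : CoverPart l Δ I F O) (hI : Homog I)
    (hF : BaseFree I e F) (hk : Δ.IsHomogeneous k) (hΔI : aeval F Δ ∉ I)
    (hO : ∀ j ∈ O, comb (l j) F ∉ I) {w : ℕ} (hw : 1 ≤ w)
    (hz : ∃ z : Fin w → FunField I, IsTranscendenceBasis ℂ z) :
    FourProperties I O (fun j => comb (l j) F) w (excLocus l Δ I F O) where
  closed := excLocus_closed hF hk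
  proper := excLocus_ne hF hk hΔI hO hw hz
  logGeneralType := h.strongly I hI le_rfl hO hΔI _ hw hz
  picard := by
    intro f hf hfX hne
    obtain ⟨z, hz1, hz2⟩ := hne
    exact h.picard f hf hfX ⟨z, hz1, fun hcon => hz2 ⟨hfX z hz1, hcon⟩⟩
  brody := by
    intro f hf hfX hne z
    refine ⟨hfX z, ?_⟩
    by_contra hcon
    obtain ⟨a, b, hab⟩ := hne
    exact hab (h.brody f hf hfX ⟨z, hcon⟩ a b)
  strongly := by
    intro P _ hP hIP hOP hsub w hw hz'
    refine h.strongly P hP hIP hOP (fun hcon => hsub ?_) w hw hz'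
    intro x hx
    exact ⟨⟨fun Q hQ => hx.1 Q (hIP hQ), hx.2⟩, hx.1 _ hcon (e * k) (hk.aeval _ hF.hom)⟩

/-- The constant exceptional form. -/
theorem excLocus_one : excLocus l 1 I F O = ∅ := by
  ext x
  simp only [excLocus, Set.mem_ofPred_eq, Set.mem_empty_iff_false, iff_false, not_and]
  intro _ h
  unfold VanishesAt at h
  rw [map_one, map_one] at h
  exact one_ne_zero h

end

/-- The theorem for the hyperplanes `l j` and the multiplicity `q`, with the exceptional form `Δ`: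
maps to `ℙ^r`, finite covers of closed subvarieties of `ℙ^r`, and the four properties for the
covers which are not contained in the exceptional set, in particular for those of dimension `r`. -/
structure HyperplaneTheorem (q : ℕ) {r : ℕ} (l : Fin m → Fin (r + 1) → ℂ)
    (Δ : MvPolynomial (Fin (r + 1)) ℂ) : Prop where
  orbifold : OrbifoldPart q l Δ
  covers : ∀ (N e : ℕ) (I : Ideal (MvPolynomial (Fin (N + 1)) ℂ)) [I.IsPrime]
    (F : Fin (r + 1) → MvPolynomial (Fin (N + 1)) ℂ) (O : Finset (Fin m)), Homog I →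
    BaseFree I e F → (∀ j ∈ O, comb (l j) F ∉ I) → (∀ j ∉ O, RamM q I (comb (l j) F)) →
    CoverPart l Δ I F O ∧ ∀ w, 1 ≤ w → (∃ z : Fin w → FunField I, IsTranscendenceBasis ℂ z) →
      (w = r → aeval F Δ ∉ I) ∧
      (aeval F Δ ∉ I → FourProperties I O (fun j => comb (l j) F) w (excLocus l Δ I F O))

theorem MeetsWithMult.of_le {r q q' : ℕ} (hq : q ≤ q') {l : Fin (r + 1) → ℂ} {f : ℂ → PN r}
    {U : Set ℂ} (h : MeetsWithMult q' l f U) : MeetsWithMult q l f U := by
  intro s hs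
  obtain ⟨φ, h1, h2, h3⟩ := h s hs
  exact ⟨φ, h1, h2, fun h0 => le_trans (by exact_mod_cast hq) (h3 h0)⟩

/-- Larger multiplicities. -/
theorem HyperplaneTheorem.of_le {q q' r : ℕ} (hq : q ≤ q') {l : Fin m → Fin (r + 1) → ℂ}
    {Δ : MvPolynomial (Fin (r + 1)) ℂ} (h : HyperplaneTheorem q l Δ) :
    HyperplaneTheorem q' l Δ where
  orbifold := ⟨fun f hf hm hne => h.orbifold.picard f hf (fun j => (hm j).of_le hq) hne,
    fun f hf hm hne => h.orbifold.brody f hf (fun j => (hm j).of_le hq) hne⟩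
  covers := fun N e I _ F O hI hF hO hram =>
    h.covers N e I F O hI hF hO fun j hj => (hram j hj).of_le hq

end Pool.Agent.H5.DG
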