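import Pool.Agent.H5.DG.Defs
import Pool.Agent.H92.GT.ProjGeneric
import Pool.Agent.H92.GT.KummerEval

/-!
# Project DG, module E4: the diagonal complete intersections are irreducible

`linForm_prime`: after a linear change of variables (an automorphism of the polynomial ring) it is a
variable; or: degree one, so irreducible, and the polynomial ring is a UFD.

`exists_prime`: copy the proof of `Pool.Agent.H92.GT.Proj.exists_prime` (ProjGeneric), with
`GenField`-like `L = AlgebraicClosure (FractionRing (MvPolynomial (Fin (n + 2)) ℂ))`,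
`ρ j ^ d = linForm (l j)`, `P = genIdeal ρ` (`Pool.Agent.H92.GT.Proj.genIdeal`),
`Kummer.eval_eq_zero` with `ev = aeval v` for the third property, `Kummer.ratio_ne` is used inside.
Transcendence basis `z i = α (i + 1) / α 0`, `α k = ∑ j, b k j * x j ^ d`; `x j ^ d / α 0` lies in
`ℂ(z)`, `x j₀ = 1`, so `α 0` and all `x j ^ d` lie in `ℂ(z)`.
-/

open MvPolynomial
open Pool.Agent.H17LG.Variety (FunField)

noncomputable section

namespace Pool.Agent.H5.DG

/-- The linear form with the coefficients `l`. -/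
def linForm {m : ℕ} (l : Fin m → ℂ) : MvPolynomial (Fin m) ℂ := ∑ a, C (l a) * X a

private lemma eval_linForm {m : ℕ} (l v : Fin m → ℂ) : eval v (linForm l) = dot l v := by
  unfold linForm dot
  rw [map_sum]
  exact Finset.sum_congr rfl fun a _ => by rw [map_mul, eval_C, eval_X]

private lemma dot_single {m : ℕ} (l : Fin m → ℂ) (a : Fin m) : dot l (Pi.single a 1) = l a := by
  classical
  unfold dot
  rw [Finset.sum_eq_single a]
  · simp
  · intro b _ hb
    simp [Pi.single_eq_of_ne hb]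
  · intro h
    exact absurd (Finset.mem_univ a) h

private lemma linForm_ne_zero {m : ℕ} {l : Fin m → ℂ} (hl : l ≠ 0) : linForm l ≠ 0 := by
  intro h
  apply hl
  funext a
  rw [← dot_single l a, ← eval_linForm, h, map_zero]
  rfl

private lemma linForm_isHomogeneous {m : ℕ} (l : Fin m → ℂ) : (linForm l).IsHomogeneous 1 := by
  unfold linForm
  exact IsHomogeneous.sum _ _ _ fun a _ => isHomogeneous_C_mul_X _ _

private lemma linForm_totalDegree {m : ℕ} {l : Fin m → ℂ} (hl : l ≠ 0) :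
    (linForm l).totalDegree = 1 :=
  (linForm_isHomogeneous l).totalDegree (linForm_ne_zero hl)

theorem linForm_prime {m : ℕ} {l : Fin m → ℂ} (hl : l ≠ 0) : Prime (linForm l) := by
  rw [← irreducible_iff_prime]
  have hne := linForm_ne_zero hl
  have hdeg := linForm_totalDegree hl
  refine ⟨?_, ?_⟩
  · intro hu
    rw [MvPolynomial.isUnit_iff_totalDegree_of_isReduced] at hu
    omega
  · intro f g hfg
    have hf : f ≠ 0 := by
      rintro rfl
      rw [zero_mul] at hfg
      exact hne hfg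
    have hg : g ≠ 0 := by
      rintro rfl
      rw [mul_zero] at hfg
      exact hne hfg
    have h1 := totalDegree_mul_of_isDomain hf hg
    rw [← hfg, hdeg] at h1
    have hunit : ∀ q : MvPolynomial (Fin m) ℂ, q ≠ 0 → q.totalDegree = 0 → IsUnit q := by
      intro q hq hq0
      rw [totalDegree_eq_zero_iff_eq_C] at hq0
      rw [hq0] at hq ⊢
      have h2 : q.coeff 0 ≠ 0 := by
        intro h2
        rw [h2, C_0] at hq
        exact hq rfl
      exact (IsUnit.mk0 _ h2).map C
    rcases Nat.eq_zero_or_pos f.totalDegree with h2 | h2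
    · exact Or.inl (hunit f hf h2)
    · exact Or.inr (hunit g hg (by omega))

theorem linForm_not_dvd {m : ℕ} {l l' : Fin m → ℂ} (hl' : l' ≠ 0)
    (h : ¬ ∃ x : ℂ, l' = x • l) : ¬ linForm l ∣ linForm l' := by
  rintro ⟨q, hq⟩
  have hne' := linForm_ne_zero hl'
  have hq0 : q ≠ 0 := by
    rintro rfl
    rw [mul_zero] at hq
    exact hne' hq
  have hl : l ≠ 0 := by
    rintro rfl
    apply hne'
    rw [hq]
    have : linForm (0 : Fin m → ℂ) = 0 := by
      unfold linForm
      exact Finset.sum_eq_zero fun a _ => by simp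
    rw [this, zero_mul]
  have h1 := totalDegree_mul_of_isDomain (linForm_ne_zero hl) hq0
  rw [← hq, linForm_totalDegree hl, linForm_totalDegree hl'] at h1
  have h2 : q.totalDegree = 0 := by omega
  rw [totalDegree_eq_zero_iff_eq_C] at h2
  apply h
  refine ⟨q.coeff 0, ?_⟩
  funext a
  have h3 := congrArg (eval (Pi.single a 1 : Fin m → ℂ)) hq
  rw [map_mul, eval_linForm, eval_linForm, dot_single, dot_single, h2, eval_C] at h3
  rw [Pi.smul_apply, smul_eq_mul, h3, mul_comm]

private lemma emultiplicity_linForm {m : ℕ} {s : ℕ} {l : Fin s → Fin m → ℂ} (hne : ∀ j, l j ≠ 0)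
    (hpair : ∀ i j, i ≠ j → ¬ ∃ x : ℂ, l i = x • l j) (i j : Fin s) :
    emultiplicity (linForm (l i)) (linForm (l j)) = if j = i then 1 else 0 := by
  by_cases h : j = i
  · rw [if_pos h, h]
    have := emultiplicity_pow_self_of_prime (linForm_prime (hne i)) 1
    simpa using this
  · rw [if_neg h]
    exact emultiplicity_eq_zero.mpr (linForm_not_dvd (hne j) (hpair j i h))

private theorem isAlg {K : Type} [Field K] [Algebra ℂ K] {s r d : ℕ} (hd : 0 < d)
    {x : Fin s → K} (hgen : IntermediateField.adjoin ℂ (Set.range x) = ⊤) {α : Fin (r + 1) → K}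
    (hα0 : α 0 ≠ 0) {l : Fin s → Fin (r + 1) → ℂ}
    (hval : ∀ j, ∑ k : Fin (r + 1), algebraMap ℂ K (l j k) * α k = x j ^ d)
    {j₀ : Fin s} (hx1 : x j₀ = 1) :
    Algebra.IsAlgebraic
      (IntermediateField.adjoin ℂ (Set.range fun i : Fin r => α (Fin.succ i) / α 0)) K := by
  set z : Fin r → K := fun i => α (Fin.succ i) / α 0 with hz
  set Mz := IntermediateField.adjoin ℂ (Set.range z) with hMz
  have hzM : ∀ i, z i ∈ Mz := fun i => IntermediateField.subset_adjoin _ _ ⟨i, rfl⟩
  have hval' : ∀ j, x j ^ d =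
      α 0 * (algebraMap ℂ K (l j 0) + ∑ i : Fin r, algebraMap ℂ K (l j (Fin.succ i)) * z i) := by
    intro j
    rw [← hval j, Fin.sum_univ_succ, mul_add, Finset.mul_sum, mul_comm (α 0)]
    congr 1
    refine Finset.sum_congr rfl fun i _ => ?_
    rw [hz]
    field_simp
  have hvM : ∀ j, algebraMap ℂ K (l j 0) + ∑ i : Fin r, algebraMap ℂ K (l j (Fin.succ i)) * z i ∈
      Mz := fun j =>
    add_mem (Mz.algebraMap_mem _) (sum_mem fun i _ => mul_mem (Mz.algebraMap_mem _) (hzM i))
  have hα0M : α 0 ∈ Mz := by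
    have h1 := hval' j₀
    rw [hx1, one_pow] at h1
    rw [eq_inv_of_mul_eq_one_left h1.symm]
    exact inv_mem (hvM _)
  have hxM : ∀ j, x j ^ d ∈ Mz := by
    intro j
    rw [hval']
    exact mul_mem hα0M (hvM _)
  have hxalg : ∀ j, IsAlgebraic Mz (x j) := fun j =>
    IsAlgebraic.of_pow hd (isAlgebraic_algebraMap (⟨_, hxM j⟩ : Mz))
  set Az := algebraicClosure Mz K with hAz
  refine ⟨fun f => ?_⟩
  have h1 : f ∈ IntermediateField.adjoin ℂ (Set.range x) := by
    rw [hgen]
    exact IntermediateField.mem_top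
  have h2 : IntermediateField.adjoin ℂ (Set.range x) ≤ Az.restrictScalars ℂ := by
    rw [IntermediateField.adjoin_le_iff]
    rintro _ ⟨j, rfl⟩
    exact mem_algebraicClosure_iff.mpr (hxalg j)
  exact mem_algebraicClosure_iff.mp (h2 h1)

/-- **The diagonal complete intersections are irreducible.** -/
theorem exists_prime {n Nn d : ℕ} (hd : 0 < d) {l : Fin (Nn + 1) → Fin (n + 2) → ℂ}
    (hne : ∀ j, l j ≠ 0) (hpair : ∀ i j, i ≠ j → ¬ ∃ x : ℂ, l i = x • l j)
    {b : Fin (n + 2) → Fin (Nn + 1) → ℂ}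
    (hb : ∀ (v : Fin (n + 2) → ℂ) a, v a = ∑ j, b a j * dot (l j) v) {q : ℕ}
    {a : Fin q → Fin (Nn + 1) → ℂ}
    (ha : ∀ y : Fin (Nn + 1) → ℂ, (∀ i, ∑ j, a i j * y j = 0) ↔
      ∃ v : Fin (n + 2) → ℂ, ∀ j, y j = dot (l j) v) :
    ∃ (P : Ideal (MvPolynomial (Fin (Nn + 1)) ℂ)) (_ : P.IsPrime),
      (∀ Q ∈ P, ∀ k, homogeneousComponent k Q ∈ P) ∧ (∀ i, ∑ j, C (a i j) * X j ^ d ∈ P) ∧
      (∀ Q ∈ P, ∀ k, Q.IsHomogeneous k → ∀ (x : Fin (Nn + 1) → ℂ) (v : Fin (n + 2) → ℂ),
        (∀ j, x j ^ d = dot (l j) v) → eval x Q = 0) ∧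
      ∃ z : Fin (n + 1) → FunField P, IsTranscendenceBasis ℂ z := by
  classical
  have hρex : ∀ j, ∃ ρ : Pool.Agent.H92.GT.Cover.GenField (n + 1), ρ ^ d =
      algebraMap (MvPolynomial (Fin (n + 1 + 1)) ℂ) (Pool.Agent.H92.GT.Cover.GenField (n + 1))
        (linForm (l j)) := fun j => IsAlgClosed.exists_pow_nat_eq _ hd
  choose ρ hρ using hρex
  have hRL : Function.Injective (algebraMap (MvPolynomial (Fin (n + 1 + 1)) ℂ)
      (Pool.Agent.H92.GT.Cover.GenField (n + 1))) := by
    rw [IsScalarTower.algebraMap_eq _ (FractionRing (MvPolynomial (Fin (n + 1 + 1)) ℂ))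
      (Pool.Agent.H92.GT.Cover.GenField (n + 1)), RingHom.coe_comp]
    exact (algebraMap (FractionRing (MvPolynomial (Fin (n + 1 + 1)) ℂ))
      (Pool.Agent.H92.GT.Cover.GenField (n + 1))).injective.comp (IsFractionRing.injective _ _)
  set P := Pool.Agent.H92.GT.Proj.genIdeal ρ with hP
  have hmem : ∀ {Q : MvPolynomial (Fin (Nn + 1)) ℂ} {k : ℕ}, Q.IsHomogeneous k →
      (Q ∈ P ↔ aeval ρ Q = 0) := fun hQ =>
        Pool.Agent.H92.GT.Proj.mem_genIdeal_of_homogeneous hQ
  -- linear combinations of the powers of the coordinates at the generic point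
  have hlin : ∀ c : Fin (Nn + 1) → ℂ, aeval ρ (∑ j, C (c j) * X j ^ d :
      MvPolynomial (Fin (Nn + 1)) ℂ) =
      algebraMap (MvPolynomial (Fin (n + 1 + 1)) ℂ) (Pool.Agent.H92.GT.Cover.GenField (n + 1))
        (∑ j, C (c j) * linForm (l j)) := by
    intro c
    rw [map_sum, map_sum]
    refine Finset.sum_congr rfl fun j _ => ?_
    rw [map_mul, map_mul, map_pow, aeval_C, aeval_X, hρ,
      IsScalarTower.algebraMap_apply ℂ (MvPolynomial (Fin (n + 1 + 1)) ℂ)
        (Pool.Agent.H92.GT.Cover.GenField (n + 1))]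
    rfl
  have hhom : ∀ c : Fin (Nn + 1) → ℂ,
      (∑ j, C (c j) * X j ^ d : MvPolynomial (Fin (Nn + 1)) ℂ).IsHomogeneous d := by
    intro c
    refine MvPolynomial.IsHomogeneous.sum _ _ _ fun j _ => ?_
    exact MvPolynomial.isHomogeneous_C_mul_X_pow _ _ _
  have hAP : ∀ i, ∑ j, C (a i j) * X j ^ d ∈ P := by
    intro i
    rw [hmem (hhom (a i)), hlin]
    have h1 : (∑ j, C (a i j) * linForm (l j) : MvPolynomial (Fin (n + 1 + 1)) ℂ) = 0 := by
      apply MvPolynomial.funext
      intro v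
      rw [map_sum, map_zero]
      have h2 := (ha fun j => dot (l j) v).mpr ⟨v, fun j => rfl⟩ i
      rw [← h2]
      refine Finset.sum_congr rfl fun j _ => ?_
      rw [map_mul, eval_C, eval_linForm]
    rw [h1, map_zero]
  have hj₀ : Pool.Agent.H17GT.coordFun P 0 ≠ 0 := by
    intro h0
    have h1 := (Pool.Agent.H92.GT.Proj.aeval_coordFun_eq_zero_iff P (X 0)).mp
      (by rw [aeval_X]; exact h0)
    rw [hmem (isHomogeneous_X ℂ (0 : Fin (Nn + 1))), aeval_X] at h1
    have h2 := hρ 0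
    rw [h1, zero_pow hd.ne'] at h2
    exact linForm_ne_zero (hne 0) (hRL (by rw [← h2, map_zero]))
  obtain ⟨x, hx1, hgen, hker⟩ := Pool.Agent.H92.GT.Proj.proj_point P hj₀
  set Af : Fin (n + 1 + 1) → MvPolynomial (Fin (Nn + 1)) ℂ := fun k =>
    ∑ j, C (b k j) * X j ^ d with hAf
  have hAfhom : ∀ k, IsWeightedHomogeneous (1 : Fin (Nn + 1) → ℕ) (Af k) d := fun k => hhom (b k)
  have hAfρ : ∀ k, aeval ρ (Af k) =
      algebraMap (MvPolynomial (Fin (n + 1 + 1)) ℂ) (Pool.Agent.H92.GT.Cover.GenField (n + 1))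
        (X k) := by
    intro k
    rw [hAf]
    show aeval ρ (∑ j, C (b k j) * X j ^ d : MvPolynomial (Fin (Nn + 1)) ℂ) = _
    rw [hlin]
    congr 1
    apply MvPolynomial.funext
    intro v
    rw [map_sum, eval_X, hb v k]
    refine Finset.sum_congr rfl fun j _ => ?_
    rw [map_mul, eval_C, eval_linForm]
  set α : Fin (n + 1 + 1) → Pool.Agent.H17GT.functionField P := fun k => aeval x (Af k) with hα
  have hα0 : α 0 ≠ 0 := by
    intro h0
    have h1 := (hmem (hAfhom 0)).mp ((hker _ _ (hAfhom 0)).mp h0)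
    rw [hAfρ] at h1
    exact X_ne_zero (R := ℂ) (0 : Fin (n + 1 + 1)) (hRL (by rw [h1, map_zero]))
  set z : Fin (n + 1) → Pool.Agent.H17GT.functionField P := fun i => α (Fin.succ i) / α 0 with hz
  have hind : AlgebraicIndependent ℂ z := by
    rw [algebraicIndependent_iff]
    intro p hp
    apply Pool.Agent.H92.GT.eq_zero_of_hmg
    apply hRL
    have h1 : Pool.Agent.H92.GT.hmg p Af ∈ P := by
      rw [← hker _ _ (Pool.Agent.H92.GT.hmg_isWeightedHomogeneous p hAfhom),
        Pool.Agent.H92.GT.map_hmg, Pool.Agent.H92.GT.hmg_eq p hα0, hp, mul_zero]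
    rw [hmem (Pool.Agent.H92.GT.hmg_isWeightedHomogeneous p hAfhom),
      Pool.Agent.H92.GT.map_hmg] at h1
    rw [map_zero, ← h1]
    have h2 := Pool.Agent.H92.GT.map_hmg (IsScalarTower.toAlgHom ℂ
      (MvPolynomial (Fin (n + 1 + 1)) ℂ) (Pool.Agent.H92.GT.Cover.GenField (n + 1))) p
      (fun i => X i)
    refine Eq.trans h2 ?_
    congr 1
    funext i
    exact (hAfρ i).symm
  have hval : ∀ j, ∑ k : Fin (n + 1 + 1), algebraMap ℂ (Pool.Agent.H17GT.functionField P) (l j k) *
      α k = x j ^ d := by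
    intro j
    have h1 : (∑ k, C (l j k) * Af k - X j ^ d : MvPolynomial (Fin (Nn + 1)) ℂ).IsHomogeneous d := by
      refine IsHomogeneous.sub (IsHomogeneous.sum _ _ _ fun k _ => ?_) ?_
      · have h2 := (isHomogeneous_C (Fin (Nn + 1)) (l j k)).mul (hhom (b k))
        rw [zero_add] at h2
        exact h2
      · exact isHomogeneous_X_pow j d
    have h2 : (∑ k, C (l j k) * Af k - X j ^ d : MvPolynomial (Fin (Nn + 1)) ℂ) ∈ P := by
      rw [hmem h1, map_sub, map_sum, map_pow, aeval_X, hρ, sub_eq_zero]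
      unfold linForm
      rw [map_sum]
      refine Finset.sum_congr rfl fun k _ => ?_
      rw [map_mul, map_mul, hAfρ, aeval_C,
        IsScalarTower.algebraMap_apply ℂ (MvPolynomial (Fin (n + 1 + 1)) ℂ)
          (Pool.Agent.H92.GT.Cover.GenField (n + 1))]
      rfl
    have h3 := (hker _ _ h1).mpr h2
    rw [map_sub, map_sum, map_pow, aeval_X, sub_eq_zero] at h3
    rw [← h3]
    refine Finset.sum_congr rfl fun k _ => ?_
    rw [map_mul, aeval_C]
  have halgz : Algebra.IsAlgebraic (IntermediateField.adjoin ℂ (Set.range z))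
      (Pool.Agent.H17GT.functionField P) := isAlg hd hgen hα0 hval hx1
  have hbasis : IsTranscendenceBasis ℂ z := Pool.Agent.H92.GT.isTranscendenceBasis_of hind halgz
  refine ⟨P, inferInstance, Pool.Agent.H92.GT.Proj.genIdeal_homogeneous ρ, hAP, ?_, ⟨z, hbasis⟩⟩
  intro Q hQ k hQh y v hy
  have h1 : aeval ρ Q = 0 := (hmem hQh).mp hQ
  exact Pool.Agent.H92.GT.Kummer.eval_eq_zero (R := MvPolynomial (Fin (n + 1 + 1)) ℂ)
    (L := Pool.Agent.H92.GT.Cover.GenField (n + 1)) (n := fun _ => d) (fun _ => hd)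
    (u := fun j => linForm (l j)) (fun j => linForm_ne_zero (hne j)) hρ
    (p := fun j => linForm (l j)) (fun j => linForm_prime (hne j))
    (fun i j => emultiplicity_linForm hne hpair i j) h1 (aeval v) (fun j => by
      rw [hy j, ← eval_linForm]
      rfl)

end Pool.Agent.H5.DG
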