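import Pool.Agent.H5.DG.D3Lem

/-!
# Project DG, module OrbDefs: maps which meet hyperplanes with multiplicities
-/

open MvPolynomial Filter Topology
open Pool.Agent.H17 (PN VanishesAt HolomorphicInto puncturedDisc)

noncomputable section

namespace Pool.Agent.H5.DG

/-- The map `f`, holomorphic on `U`, meets the hyperplane given by `l` with multiplicities at least
`m` at all points of `U` (multiplicity `⊤` is allowed). -/
def MeetsWithMult {r : ℕ} (m : ℕ) (l : Fin (r + 1) → ℂ) (f : ℂ → PN r) (U : Set ℂ) : Prop :=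
  ∀ s ∈ U, ∃ φ : ℂ → Fin (r + 1) → ℂ, AnalyticAt ℂ φ s ∧
    (∀ᶠ z in 𝓝 s, ∃ h : φ z ≠ 0, f z = Projectivization.mk ℂ (φ z) h) ∧
    (∑ a, l a * φ s a = 0 → (m : ℕ∞) ≤ analyticOrderAt (fun z => ∑ a, l a * φ z a) s)

/-- Maps of the punctured disc to `ℙ^r`, not into `Δ = 0`, which meet the hyperplanes `l j` with
multiplicities at least `q` extend. -/
def OrbExt (q : ℕ) {m r : ℕ} (l : Fin m → Fin (r + 1) → ℂ) (Δ : MvPolynomial (Fin (r + 1)) ℂ) :
    Prop :=
  ∀ f : ℂ → PN r, HolomorphicInto f puncturedDisc →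
    (∀ j, MeetsWithMult q (l j) f puncturedDisc) →
    (∃ z ∈ puncturedDisc, ¬ VanishesAt Δ (f z)) →
    ∃ g : ℂ → PN r, HolomorphicInto g (Metric.ball 0 1) ∧ ∀ z ∈ puncturedDisc, g z = f z

private theorem dot_analytic {r : ℕ} {φ : ℂ → Fin (r + 1) → ℂ} {s : ℂ} (hφ : AnalyticAt ℂ φ s)
    (l : Fin (r + 1) → ℂ) : AnalyticAt ℂ (fun z => ∑ a, l a * φ z a) s :=
  Finset.analyticAt_fun_sum _ fun a _ => analyticAt_const.fun_mul (analyticAt_pi_iff.mp hφ a)

/-- Entire curves. -/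
theorem OrbExt.brody {q m r k : ℕ} {l : Fin m → Fin (r + 1) → ℂ}
    {Δ : MvPolynomial (Fin (r + 1)) ℂ} (hk : Δ.IsHomogeneous k) (h : OrbExt q l Δ) {f : ℂ → PN r}
    (hf : HolomorphicInto f Set.univ) (hm : ∀ j, MeetsWithMult q (l j) f Set.univ)
    (hne : ∃ z, ¬ VanishesAt Δ (f z)) (z w : ℂ) : f z = f w := by
  obtain ⟨w₀, hw₀, hw₀'⟩ : ∃ w, w ≠ 0 ∧ ¬ VanishesAt Δ (f w) := by
    obtain ⟨z₁, hz₁⟩ := hne
    by_cases hz0 : z₁ = 0
    · subst hz0
      obtain ⟨ψ, hψ, he⟩ := hf 0 (Set.mem_univ 0)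
      rcases vanish_local hψ he hk with h1 | h1
      · exact absurd h1.self_of_nhds hz₁
      · obtain ⟨w, hw1, hw2⟩ := (h1.and self_mem_nhdsWithin).exists
        exact ⟨w, hw2, hw1⟩
    · exact ⟨z₁, hz0, hz₁⟩
  have hexp : ∀ z ∈ puncturedDisc, AnalyticAt ℂ (fun z : ℂ => Complex.exp z⁻¹) z := by
    intro z hz
    have h1 : z ≠ 0 := hz.2
    exact (analyticAt_inv h1).cexp
  have hgh : HolomorphicInto (fun z => f (Complex.exp z⁻¹)) puncturedDisc :=
    Pool.Agent.H17.HolomorphicInto.comp hf (u := fun z => Complex.exp z⁻¹) hexp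
      (fun _ _ => Set.mem_univ _)
  have hmg : ∀ j, MeetsWithMult q (l j) (fun z => f (Complex.exp z⁻¹)) puncturedDisc := by
    intro j s hs
    obtain ⟨ψ, hψ, he, hord⟩ := hm j (Complex.exp s⁻¹) (Set.mem_univ _)
    have hu := hexp s hs
    refine ⟨fun z => ψ (Complex.exp z⁻¹), ?_, ?_, fun h0 => ?_⟩
    · exact AnalyticAt.comp (g := ψ) (f := fun z : ℂ => Complex.exp z⁻¹) hψ hu
    · exact hu.continuousAt.eventually he
    · have h1 := hord h0
      have hA : AnalyticAt ℂ (fun z => ∑ a, l j a * ψ z a) (Complex.exp s⁻¹) :=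
        dot_analytic hψ (l j)
      have h2 : analyticOrderAt (fun z => ∑ a, l j a * ψ (Complex.exp z⁻¹) a) s =
          analyticOrderAt (fun z => ∑ a, l j a * ψ z a) (Complex.exp s⁻¹) *
            analyticOrderAt (fun z => Complex.exp z⁻¹ - Complex.exp s⁻¹) s :=
        AnalyticAt.analyticOrderAt_comp (f := fun z => ∑ a, l j a * ψ z a)
          (g := fun z : ℂ => Complex.exp z⁻¹) hA hu
      have h3 : (1 : ℕ∞) ≤ analyticOrderAt (fun z => Complex.exp z⁻¹ - Complex.exp s⁻¹) s := by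
        rw [Order.one_le_iff_ne_zero]
        intro h4
        have h5 : AnalyticAt ℂ (fun z : ℂ => Complex.exp z⁻¹ - Complex.exp s⁻¹) s :=
          hu.fun_sub analyticAt_const
        rw [h5.analyticOrderAt_eq_zero] at h4
        exact h4 (sub_self _)
      rw [h2]
      calc ((q : ℕ) : ℕ∞) = ((q : ℕ) : ℕ∞) * 1 := (mul_one _).symm
        _ ≤ _ := mul_le_mul' h1 h3
  obtain ⟨g, hg, hge⟩ := h _ hgh hmg (by
    obtain ⟨zs, h1, h2⟩ := Pool.Agent.H99.Cover.exists_seq_exp_inv w₀ hw₀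
    obtain ⟨k, h3, h4⟩ := (h2.and (h1.eventually
      (Metric.ball_mem_nhds (0 : ℂ) one_pos))).exists
    refine ⟨zs k, ⟨h4, h3.1⟩, ?_⟩
    rw [h3.2]
    exact hw₀')
  exact const_of_extension hf hg hge z w

end Pool.Agent.H5.DG
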