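import Pool.Agent.H5.DG.SecDefs

/-!
# Project DG2, module SecBase: composition of finite morphisms, forms modulo an ideal
-/

open MvPolynomial Filter Topology
open Pool.Agent.H17 (PN VanishesAt zeroLocus HolomorphicInto puncturedDisc)
open Pool.Agent.H17GT (coordFun functionField)
open Pool.Agent.H17LG.Variety (FunField ratio IsLogGeneralType PoleAtMost)
open Pool.Agent.H23.Fano (PrimeDivisorOver)

noncomputable section

namespace Pool.Agent.H5.DG

section

variable {Nn M m : ℕ} {I : Ideal (MvPolynomial (Fin (Nn + 1)) ℂ)}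
  {P : Ideal (MvPolynomial (Fin (M + 1)) ℂ)}

/-- The composition of finite morphisms. -/
theorem BaseFree.comp {e e₀ r : ℕ} {B : Fin r → MvPolynomial (Fin (M + 1)) ℂ}
    {F : Fin (M + 1) → MvPolynomial (Fin (Nn + 1)) ℂ} (hB : BaseFree P e₀ B)
    (hF : BaseFree I e F) (hPI : ∀ g ∈ P, aeval F g ∈ I) :
    BaseFree I (e * e₀) fun a => aeval F (B a) where
  pos := Nat.mul_pos hF.pos hB.pos
  hom := fun a => (hB.hom a).aeval _ hF.hom
  base := by
    intro i
    have h1 : ∀ b, F b ∈ Ideal.radical (Ideal.span (Set.range fun a => aeval F (B a)) ⊔ I) := by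
      intro b
      obtain ⟨k, hk⟩ := hB.base b
      refine ⟨k, ?_⟩
      have h2 : Ideal.span (Set.range B) ⊔ P ≤
          (Ideal.span (Set.range fun a => aeval F (B a)) ⊔ I).comap
            (aeval F : MvPolynomial (Fin (M + 1)) ℂ →ₐ[ℂ] _).toRingHom := by
        refine sup_le (Ideal.span_le.2 ?_) fun g hg => ?_
        · rintro _ ⟨a, rfl⟩
          exact Ideal.mem_sup_left (Ideal.subset_span ⟨a, rfl⟩)
        · exact Ideal.mem_sup_right (hPI g hg)
      have h3 := h2 hk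
      rw [Ideal.mem_comap] at h3
      have h4 : (aeval F : MvPolynomial (Fin (M + 1)) ℂ →ₐ[ℂ] _).toRingHom (X b ^ k) = F b ^ k := by
        change aeval F (X b ^ k) = F b ^ k
        rw [map_pow, aeval_X]
      rwa [h4] at h3
    obtain ⟨k, hk⟩ := hF.base i
    have h5 : Ideal.span (Set.range F) ⊔ I ≤
        Ideal.radical (Ideal.span (Set.range fun a => aeval F (B a)) ⊔ I) := by
      refine sup_le (Ideal.span_le.2 ?_) (le_sup_right.trans Ideal.le_radical)
      rintro _ ⟨b, rfl⟩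
      exact h1 b
    obtain ⟨s, hs⟩ := h5 hk
    exact ⟨k * s, by rwa [pow_mul]⟩

/-- Multiplicities depend on the form only up to a constant factor and modulo the ideal. -/
theorem RamM.congr {q : ℕ} {L L' : MvPolynomial (Fin (Nn + 1)) ℂ} {c : ℂ} (hc : c ≠ 0)
    (h : C c * L - L' ∈ I) (hL : RamM q I L) : RamM q I L' := by
  have h1 : Ideal.span {L} ⊔ I ≤ Ideal.span {L'} ⊔ I := by
    refine sup_le ?_ le_sup_right
    rw [Ideal.span_singleton_le_iff_mem]
    have h2 : L = C c⁻¹ * L' + C c⁻¹ * (C c * L - L') := by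
      have h3 : (C c⁻¹ * C c : MvPolynomial (Fin (Nn + 1)) ℂ) = 1 := by
        rw [← C_mul, inv_mul_cancel₀ hc, C_1]
      linear_combination (-L) * h3
    rw [h2]
    exact Submodule.add_mem_sup (Ideal.mul_mem_left _ _ (Ideal.subset_span rfl))
      (Ideal.mul_mem_left _ _ h)
  intro i
  obtain ⟨k, hk⟩ := hL i
  refine ⟨k, ?_⟩
  have h2 : (Ideal.radical (Ideal.span {L} ⊔ I)) ^ q ⊔ I ≤
      (Ideal.radical (Ideal.span {L'} ⊔ I)) ^ q ⊔ I :=
    sup_le_sup_right (Ideal.pow_right_mono (Ideal.radical_mono h1) q) I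
  have h3 : X i ^ k * L' = C c * (X i ^ k * L) - X i ^ k * (C c * L - L') := by ring
  rw [h3]
  exact Ideal.sub_mem _ (Ideal.mul_mem_left _ _ (h2 hk))
    (Ideal.mul_mem_left _ _ (Ideal.mem_sup_right h))

theorem mem_congr {Q : Ideal (MvPolynomial (Fin (Nn + 1)) ℂ)} (hIQ : I ≤ Q)
    {L L' : MvPolynomial (Fin (Nn + 1)) ℂ} {c : ℂ} (hc : c ≠ 0) (h : C c * L - L' ∈ I) :
    L' ∈ Q ↔ L ∈ Q := by
  constructor
  · intro h1
    have h2 : L = C c⁻¹ * L' + C c⁻¹ * (C c * L - L') := by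
      have h3 : (C c⁻¹ * C c : MvPolynomial (Fin (Nn + 1)) ℂ) = 1 := by
        rw [← C_mul, inv_mul_cancel₀ hc, C_1]
      linear_combination (-L) * h3
    rw [h2]
    exact Q.add_mem (Q.mul_mem_left _ h1) (Q.mul_mem_left _ (hIQ h))
  · intro h1
    have h2 : L' = C c * L - (C c * L - L') := by ring
    rw [h2]
    exact Q.sub_mem (Q.mul_mem_left _ h1) (hIQ h)

theorem vanishesAt_congr (hI : Homog I) {x : PN Nn}
    (hx : ∀ Q ∈ I, ∀ k, Q.IsHomogeneous k → VanishesAt Q x)
    {L L' : MvPolynomial (Fin (Nn + 1)) ℂ} {c : ℂ} (hc : c ≠ 0) (h : C c * L - L' ∈ I) :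
    VanishesAt L' x ↔ VanishesAt L x := by
  have h1 : eval x.rep (C c * L - L') = 0 :=
    eval_of_mem hI x.rep_nonzero (by rw [x.mk_rep]; exact hx) h
  rw [map_sub, map_mul, eval_C, sub_eq_zero] at h1
  unfold VanishesAt
  rw [← h1, mul_eq_zero]
  exact ⟨fun h2 => h2.resolve_left hc, Or.inr⟩

end

/-! ### Log general type -/

section

variable {K : Type} [Field K] [Algebra ℂ K] {k : ℕ}

/-- The larger the boundary the weaker the statement. -/
theorem isLogGeneralType_mono {B B' : PrimeDivisorOver K k → Prop} (hB : ∀ E, B E → B' E)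
    (h : IsLogGeneralType B) : IsLogGeneralType B' := by
  obtain ⟨n, hn, ω, hω, r, f, hf, h1, h2⟩ := h
  refine ⟨n, hn, ω, hω, r, f, hf, fun i E => ⟨fun hE => (h1 i E).1 fun h3 => hE (hB E h3),
    fun _ => ?_⟩, h2⟩
  by_cases hE : B E
  · exact (h1 i E).2 hE
  · obtain ⟨g, η, h3, h4, h5⟩ := (h1 i E).1 hE
    refine ⟨g, η, h3, h4, ?_⟩
    rw [Nat.cast_zero, add_zero] at h5
    exact add_nonneg h5 (by positivity)

end

section

variable {Nn m m' : ℕ}

/-- The generic point. -/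
theorem eval_ratio_zero_iff (Q : Ideal (MvPolynomial (Fin (Nn + 1)) ℂ)) [Q.IsPrime]
    {j : Fin (Nn + 1)} (hj : coordFun Q j ≠ 0) {d : ℕ} {G : MvPolynomial (Fin (Nn + 1)) ℂ}
    (hGh : G.IsHomogeneous d) : aeval (fun i => ratio Q i j) G = 0 ↔ G ∈ Q := by
  set x : Fin (Nn + 1) → functionField Q := fun i => ratio Q i j with hx
  have h0 : aeval (fun i => ratio Q i j) G = (aeval x G : functionField Q) := rfl
  have h1 : ((aeval x G : functionField Q) : FractionRing (MvPolynomial (Fin (Nn + 1)) ℂ ⧸ Q)) =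
      aeval (fun i => (coordFun Q j)⁻¹ * coordFun Q i) G := by
    have h3 : ((functionField Q).val (aeval x G)) =
        aeval (fun i => (functionField Q).val (x i)) G := by
      rw [← MvPolynomial.comp_aeval]
      rfl
    change (functionField Q).val (aeval x G) = _
    rw [h3]
    congr 2
    funext i
    change coordFun Q i / coordFun Q j = _
    rw [div_eq_inv_mul]
  rw [Pool.Agent.H92.GT.Proj.aeval_scale hGh] at h1
  rw [← Pool.Agent.H92.GT.Proj.aeval_coordFun_eq_zero_iff, h0]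
  constructor
  · intro h2
    have h3 : ((aeval x G : functionField Q) :
        FractionRing (MvPolynomial (Fin (Nn + 1)) ℂ ⧸ Q)) = 0 := by
      rw [show (aeval x G : functionField Q) = 0 from h2]
      rfl
    rw [h3] at h1
    exact (mul_eq_zero.1 h1.symm).resolve_left (pow_ne_zero _ (inv_ne_zero hj))
  · intro h2
    apply Subtype.ext
    rw [h1, h2, mul_zero]
    rfl

/-- Polynomials in the ideal vanish at the generic point. -/
theorem eval_ratio_mem (Q : Ideal (MvPolynomial (Fin (Nn + 1)) ℂ)) [Q.IsPrime]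
    (hQ : Homog Q) {j : Fin (Nn + 1)} (hj : coordFun Q j ≠ 0)
    {L : MvPolynomial (Fin (Nn + 1)) ℂ} (hL : L ∈ Q) :
    aeval (fun i => ratio Q i j) L = 0 := by
  classical
  rw [← sum_homogeneousComponent L, map_sum]
  exact Finset.sum_eq_zero fun d _ => (eval_ratio_zero_iff Q hj
    (homogeneousComponent_isHomogeneous d L)).2 (hQ L hL d)

/-- The boundary. -/
theorem onForms_mono {Q : Ideal (MvPolynomial (Fin (Nn + 1)) ℂ)} [Q.IsPrime] (hQ : Homog Q)
    {O : Finset (Fin m)} {O' : Finset (Fin m')} {H : Fin m → MvPolynomial (Fin (Nn + 1)) ℂ}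
    {H' : Fin m' → MvPolynomial (Fin (Nn + 1)) ℂ} {σ : Fin m' → Fin m} (hσ : ∀ j ∈ O', σ j ∈ O)
    {c : Fin m' → ℂ} (hc : ∀ j, c j ≠ 0) (hH : ∀ j, C (c j) * H (σ j) - H' j ∈ Q) {w : ℕ}
    (E : PrimeDivisorOver (FunField Q) w) (hE : OnForms Q O' H' E) : OnForms Q O H E := by
  obtain ⟨j, hj, h1, i, hi, h2⟩ := hE
  refine ⟨j, hj, h1, σ i, hσ i hi, ?_⟩
  have h3 := eval_ratio_mem Q hQ hj (hH i)
  rw [map_sub, map_mul, sub_eq_zero] at h3
  have h4 : aeval (fun i => ratio Q i j) (C (c i) : MvPolynomial (Fin (Nn + 1)) ℂ) =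
      algebraMap ℂ (FunField Q) (c i) := MvPolynomial.aeval_C _ _
  rw [← h3, E.ord.map_mul, h4] at h2
  have h5 : E.ord (algebraMap ℂ (FunField Q) (c i)) = 0 := by
    refine le_antisymm ?_ (E.ord_const _)
    have h6 : E.ord (algebraMap ℂ (FunField Q) (c i)) +
        E.ord (algebraMap ℂ (FunField Q) (c i)⁻¹) = 0 := by
      rw [← E.ord.map_mul, ← map_mul, mul_inv_cancel₀ (hc i), map_one, E.ord.map_one]
    calc E.ord (algebraMap ℂ (FunField Q) (c i)) ≤ E.ord (algebraMap ℂ (FunField Q) (c i)) +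
          E.ord (algebraMap ℂ (FunField Q) (c i)⁻¹) := le_add_of_nonneg_right (E.ord_const _)
      _ = 0 := h6
  rwa [h5, zero_add] at h2

end

end Pool.Agent.H5.DG
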