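import Pool.Agent.H5.DG.SecBase

/-!
# Project DG2, module SecDim: finite covers of the same dimension are dominant

`X → Y` is a finite morphism, given by forms `F a`, and `X` and `Y` have the same dimension.  Then a
form `g` which does not vanish identically on `Y` does not vanish identically on `X` either.  The
quotients `u a = F a / F a₀` are algebraic functions of some of them, `u (J i)`, which form a
transcendence basis of the function field of `X`.  The coordinate functions `η (J i)` of `Y` are
algebraically independent, so they form a transcendence basis, and `g (η)` satisfies an algebraic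
equation over `ℂ(η (J i))` with non-zero constant term, which is also true for `g (u)`.
-/

open MvPolynomial
open Pool.Agent.H17GT (coordFun functionField)
open Pool.Agent.H17LG.Variety (FunField ratio)

noncomputable section

namespace Pool.Agent.H5.DG

/-- The values of a form at proportional points. -/
theorem aeval_eq_pow_mul {m n : ℕ} {K : Type} [Field K] [Algebra ℂ K]
    {G : MvPolynomial (Fin m) ℂ} (hG : G.IsHomogeneous n) {x y : Fin m → K} {c : K}
    (hxy : ∀ i, x i = c * y i) : aeval x G = c ^ n * aeval y G := by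
  obtain rfl : x = fun i => c * y i := funext hxy
  rw [aeval_def, aeval_def, eval₂_eq, eval₂_eq, Finset.mul_sum]
  refine Finset.sum_congr rfl fun m hm => ?_
  have h5 : ∑ i ∈ m.support, m i = n := by
    have := hG (mem_support_iff.1 hm)
    rw [Finsupp.weight_apply, Finsupp.sum] at this
    simpa using this
  simp only [mul_pow, Finset.prod_mul_distrib]
  rw [Finset.prod_pow_eq_pow_sum, h5]
  ring

/-- The homogenisation with respect to the variable `a₀`. -/
theorem exists_homogenise {M : ℕ} (a₀ : Fin (M + 1)) (R : MvPolynomial (Fin (M + 1)) ℂ) :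
    ∃ S : MvPolynomial (Fin (M + 1)) ℂ, S.IsHomogeneous R.totalDegree ∧
      ∀ {K : Type} [Field K] [Algebra ℂ K] (x : Fin (M + 1) → K), x a₀ = 1 →
        aeval x S = aeval x R := by
  classical
  refine ⟨∑ d ∈ Finset.range (R.totalDegree + 1),
    X a₀ ^ (R.totalDegree - d) * homogeneousComponent d R, ?_, ?_⟩
  · refine MvPolynomial.IsHomogeneous.sum _ _ _ fun d hd => ?_
    have h1 := (isHomogeneous_X_pow (R := ℂ) a₀ (R.totalDegree - d)).mul
      (homogeneousComponent_isHomogeneous d R)
    rwa [Nat.sub_add_cancel (Nat.lt_succ_iff.1 (Finset.mem_range.1 hd))] at h1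
  · intro K _ _ x hx
    conv_rhs => rw [← sum_homogeneousComponent R]
    rw [map_sum, map_sum]
    refine Finset.sum_congr rfl fun d _ => ?_
    rw [map_mul, map_pow, aeval_X, hx, one_pow, one_mul]

/-- **Finite covers of the same dimension are dominant.** -/
theorem notMem_of_dim {M Nn e k w : ℕ} {P : Ideal (MvPolynomial (Fin (M + 1)) ℂ)} [P.IsPrime]
    {I : Ideal (MvPolynomial (Fin (Nn + 1)) ℂ)} [I.IsPrime] (hI : Homog I)
    {F : Fin (M + 1) → MvPolynomial (Fin (Nn + 1)) ℂ} (hF : BaseFree I e F)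
    (hPI : ∀ g ∈ P, aeval F g ∈ I) (hw : 1 ≤ w)
    (hz : ∃ z : Fin w → FunField I, IsTranscendenceBasis ℂ z)
    (hzP : ∃ z : Fin w → FunField P, IsTranscendenceBasis ℂ z)
    {g : MvPolynomial (Fin (M + 1)) ℂ} (hk : g.IsHomogeneous k) (hg : g ∉ P) :
    aeval F g ∉ I := by
  classical
  obtain ⟨w, rfl⟩ : ∃ w', w = w' + 1 := ⟨w - 1, by omega⟩
  obtain ⟨z, hz⟩ := hz
  obtain ⟨zP, hzP⟩ := hzP
  obtain ⟨j₀, hj₀⟩ := Pool.Agent.H92.GT.Proj.exists_coordFun_ne_zero I (k := w) z hz
  obtain ⟨a₀, ha₀, halg⟩ := fun_algebraic I hI hF hj₀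
  obtain ⟨J, hJ⟩ := Pool.Agent.H92.GT.exists_index halg hz
  obtain ⟨u, hu⟩ : ∃ u : Fin (M + 1) → FunField I, u = fun a =>
    valAt I j₀ F a / valAt I j₀ F a₀ := ⟨_, rfl⟩
  have hJ' : IsTranscendenceBasis ℂ fun i => u (J i) := by rw [hu]; exact hJ
  have hua₀ : u a₀ = 1 := by rw [hu]; exact div_self ha₀
  have huv : ∀ a, valAt I j₀ F a = valAt I j₀ F a₀ * u a := by
    intro a
    rw [hu]
    exact (mul_div_cancel₀ _ ha₀).symm
  -- values of forms in `I`
  have hval : ∀ {n : ℕ} {S : MvPolynomial (Fin (M + 1)) ℂ}, S.IsHomogeneous n → aeval F S ∈ I →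
      aeval u S = 0 := by
    intro n S hS hmem
    have h1 := eval_ratio_mem I hI hj₀ hmem
    have h2 : aeval (fun i => ratio I i j₀) (aeval F S) = aeval (valAt I j₀ F) S := by
      rw [← AlgHom.comp_apply, MvPolynomial.comp_aeval]
      rfl
    rw [h2, aeval_eq_pow_mul hS huv] at h1
    exact (mul_eq_zero.1 h1).resolve_left (pow_ne_zero _ ha₀)
  -- the coordinate `a₀` of `Y`
  have ha₀P : (X a₀ : MvPolynomial (Fin (M + 1)) ℂ) ∉ P := by
    intro hcon
    have h1 := hval (isHomogeneous_X ℂ a₀) (hPI _ hcon)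
    rw [aeval_X, hua₀] at h1
    exact one_ne_zero h1
  have hca₀ : coordFun P a₀ ≠ 0 := by
    intro hcon
    apply ha₀P
    rw [← Pool.Agent.H92.GT.Proj.aeval_coordFun_eq_zero_iff, aeval_X]
    exact hcon
  obtain ⟨η, hη⟩ : ∃ η : Fin (M + 1) → FunField P, η = fun a => ratio P a a₀ := ⟨_, rfl⟩
  have hηa₀ : η a₀ = 1 := by
    rw [hη]
    exact Subtype.ext (div_self hca₀)
  -- relations
  have hstar : ∀ R : MvPolynomial (Fin (M + 1)) ℂ, aeval η R = 0 → aeval u R = 0 := by
    intro R hR
    obtain ⟨S, hS, hSe⟩ := exists_homogenise a₀ R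
    rw [← hSe η hηa₀] at hR
    rw [← hSe u hua₀]
    refine hval hS (hPI _ ?_)
    rw [hη] at hR
    exact (eval_ratio_zero_iff P hca₀ hS).1 hR
  -- the transcendence basis
  have hUind : AlgebraicIndependent ℂ fun i => η (J i) := by
    rw [algebraicIndependent_iff]
    intro R hR
    have h1 : aeval η (rename J R) = 0 := by
      rw [aeval_rename]
      exact hR
    have h2 := hstar _ h1
    rw [aeval_rename] at h2
    exact (algebraicIndependent_iff.1 hJ'.1) R h2
  have hU : IsTranscendenceBasis ℂ fun i => η (J i) := by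
    refine hUind.isTranscendenceBasis_of_trdeg_le_of_finite ?_
    rw [← hzP.cardinalMk_eq_trdeg]
  -- the algebraic equation
  have hG0 : aeval η g ≠ 0 := by
    intro hcon
    rw [hη] at hcon
    exact hg ((eval_ratio_zero_iff P hca₀ hk).1 hcon)
  intro hcon
  have hug : aeval u g = 0 := hval hk hcon
  have halg2 : Algebra.IsAlgebraic (Algebra.adjoin ℂ (Set.range fun i => η (J i))) (FunField P) :=
    hU.isAlgebraic
  obtain ⟨f, hf0, hf⟩ := (halg2.isAlgebraic (aeval η g)).exists_nonzero_coeff_and_aeval_eq_zero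
    (mem_nonZeroDivisors_of_ne_zero hG0)
  have hlift : ∀ j : ℕ, ∃ c : MvPolynomial (Fin (w + 1)) ℂ,
      aeval (fun i => η (J i)) c = (f.coeff j : FunField P) := by
    intro j
    have h1 : (f.coeff j : FunField P) ∈
        (aeval (fun i => η (J i)) : MvPolynomial (Fin (w + 1)) ℂ →ₐ[ℂ] FunField P).range := by
      rw [← Algebra.adjoin_range_eq_range_aeval]
      exact (f.coeff j).2
    exact h1
  choose c hc using hlift
  have hR : aeval η (∑ j ∈ Finset.range (f.natDegree + 1), rename J (c j) * g ^ j) = 0 := by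
    rw [map_sum, ← hf, Polynomial.aeval_eq_sum_range]
    refine Finset.sum_congr rfl fun j _ => ?_
    rw [map_mul, map_pow, aeval_rename, Algebra.smul_def]
    congr 1
    exact hc j
  have h1 := hstar _ hR
  rw [map_sum, Finset.sum_range_succ'] at h1
  have h2 : ∑ j ∈ Finset.range f.natDegree, aeval u (rename J (c (j + 1)) * g ^ (j + 1)) = 0 := by
    refine Finset.sum_eq_zero fun j _ => ?_
    rw [map_mul, map_pow, hug, zero_pow (Nat.succ_ne_zero j), mul_zero]
  rw [h2, zero_add, pow_zero, mul_one, aeval_rename] at h1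
  have h3 : c 0 = 0 := (algebraicIndependent_iff.1 hJ'.1) _ h1
  apply hf0
  apply Subtype.ext
  rw [← hc 0, h3, map_zero]
  rfl

end Pool.Agent.H5.DG
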