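import Pool.Agent.H5.DG.SecOrb
import Pool.Agent.H5.DG.SecDim

/-!
# Project DG2, module SecMain: from hyperplanes to hypersurface sections

`B : Y → ℙ^r` is a finite morphism, given by forms `B a` of the same degree without common zero on
`Y`, and the forms `c j * G (σ j)` are linear combinations `p j` of the forms `B a` on `Y`.
-/

open MvPolynomial Filter Topology
open Pool.Agent.H17 (PN VanishesAt zeroLocus ZariskiClosedIn HolomorphicInto puncturedDisc)
open Pool.Agent.H17LG.Variety (FunField)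
open Pool.Agent.H23.Fano (PrimeDivisorOver)
open Pool.Agent.H62.FC (specialSet closureIn)

noncomputable section

namespace Pool.Agent.H5.DG

/-- The statements on the hyperplanes `p j` which are used: maps with multiplicities extend, and
finite covers of closed subvarieties are of log general type. -/
structure LinearPart (q : ℕ) {m r : ℕ} (p : Fin m → Fin (r + 1) → ℂ)
    (Δ : MvPolynomial (Fin (r + 1)) ℂ) : Prop where
  orb : OrbExt q p Δ
  alg : ∀ (N e : ℕ) (Q : Ideal (MvPolynomial (Fin (N + 1)) ℂ)) [Q.IsPrime]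
    (F : Fin (r + 1) → MvPolynomial (Fin (N + 1)) ℂ) (O : Finset (Fin m)), Homog Q →
    BaseFree Q e F → (∀ j ∉ O, RamM q Q (comb (p j) F)) → aeval F Δ ∉ Q → ∀ w, 1 ≤ w →
    (∃ z : Fin w → FunField Q, IsTranscendenceBasis ℂ z) →
    LogGeneralType Q O (fun j => comb (p j) F) w

theorem onForms_subset {N m : ℕ} (Q : Ideal (MvPolynomial (Fin (N + 1)) ℂ)) [Q.IsPrime]
    {O O' : Finset (Fin m)} (hO : O' ⊆ O) {H : Fin m → MvPolynomial (Fin (N + 1)) ℂ} {w : ℕ}
    (E : PrimeDivisorOver (FunField Q) w) (hE : OnForms Q O' H E) : OnForms Q O H E := by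
  obtain ⟨j, hj, h1, i, hi, h2⟩ := hE
  exact ⟨j, hj, h1, i, hO hi, h2⟩

theorem RamM.of_mem {N q : ℕ} {I : Ideal (MvPolynomial (Fin (N + 1)) ℂ)}
    {L : MvPolynomial (Fin (N + 1)) ℂ} (h : L ∈ I) : RamM q I L := fun i =>
  ⟨0, by
    rw [pow_zero, one_mul]
    exact Ideal.mem_sup_right h⟩

theorem HyperplaneTheorem.linearPart {q m r : ℕ} {p : Fin m → Fin (r + 1) → ℂ}
    {Δ : MvPolynomial (Fin (r + 1)) ℂ} (h : HyperplaneTheorem q p Δ) : LinearPart q p Δ where
  orb := h.orbifold.picard
  alg := by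
    classical
    intro N e Q _ F O hQ hF hram hΔ w hw hz
    have h1 := (h.covers N e Q F (O.filter fun j => comb (p j) F ∉ Q) hQ hF
      (fun j hj => (Finset.mem_filter.1 hj).2) (fun j hj => by
        by_cases hjO : j ∈ O
        · refine RamM.of_mem ?_
          by_contra hcon
          exact hj (Finset.mem_filter.2 ⟨hjO, hcon⟩)
        · exact hram j hjO)).1.strongly Q hQ le_rfl (fun j hj => (Finset.mem_filter.1 hj).2) hΔ
          w hw hz
    exact isLogGeneralType_mono (fun E hE => onForms_subset Q (Finset.filter_subset _ _) E hE) h1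

theorem aeval_comb {r M N : ℕ} (p : Fin (r + 1) → ℂ) (B : Fin (r + 1) → MvPolynomial (Fin (M + 1)) ℂ)
    (F : Fin (M + 1) → MvPolynomial (Fin (N + 1)) ℂ) :
    aeval F (comb p B) = comb p fun a => aeval F (B a) := by
  unfold comb
  rw [map_sum]
  refine Finset.sum_congr rfl fun a _ => ?_
  rw [map_mul, MvPolynomial.algHom_C]
  rfl

theorem aeval_aeval' {r M N : ℕ} (B : Fin (r + 1) → MvPolynomial (Fin (M + 1)) ℂ)
    (F : Fin (M + 1) → MvPolynomial (Fin (N + 1)) ℂ) (D : MvPolynomial (Fin (r + 1)) ℂ) :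
    aeval F (aeval B D) = aeval (fun a => aeval F (B a)) D := by
  rw [← AlgHom.comp_apply, MvPolynomial.comp_aeval]

/-- **The theorem on hypersurface sections**, from the statements on hyperplanes. -/
theorem SectionTheorem.of_linear {q m m' M r e₀ k : ℕ} {P : Ideal (MvPolynomial (Fin (M + 1)) ℂ)}
    [P.IsPrime] (hP : Homog P) {B : Fin (r + 1) → MvPolynomial (Fin (M + 1)) ℂ}
    (hB : BaseFree P e₀ B) {G : Fin m → MvPolynomial (Fin (M + 1)) ℂ}
    (hGh : ∀ j, ∃ d, (G j).IsHomogeneous d) {p : Fin m' → Fin (r + 1) → ℂ}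
    {Δ : MvPolynomial (Fin (r + 1)) ℂ} (hk : Δ.IsHomogeneous k) (h : LinearPart q p Δ)
    {σ : Fin m' → Fin m} {c : Fin m' → ℂ} (hc : ∀ j, c j ≠ 0)
    (hG : ∀ j, C (c j) * G (σ j) - comb (p j) B ∈ P) (hΔ : aeval B Δ ∉ P) :
    SectionTheorem q P G (aeval B Δ) where
  orbifold := OrbifoldSection.of_orbExt hP hB hk h.orb hc hG
  covers := by
    classical
    intro N e I _ F O hI hF hPI hO hram
    obtain ⟨F', hF'⟩ : ∃ F' : Fin (r + 1) → MvPolynomial (Fin (N + 1)) ℂ,
      F' = fun a => aeval F (B a) := ⟨_, rfl⟩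
    have hFF : BaseFree I (e * e₀) F' := by
      rw [hF']
      exact hB.comp hF hPI
    have hD : aeval F (aeval B Δ) = aeval F' Δ := by
      rw [hF']
      exact aeval_aeval' B F Δ
    have hH : ∀ j, C (c j) * aeval F (G (σ j)) - comb (p j) F' ∈ I := by
      intro j
      have h1 := hPI _ (hG j)
      rw [map_sub, map_mul, MvPolynomial.algHom_C, aeval_comb] at h1
      rw [hF']
      exact h1
    have hram' : ∀ j ∉ Finset.univ.filter (fun j : Fin m' => σ j ∈ O),
        RamM q I (comb (p j) F') := by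
      intro j hj
      have hj' : σ j ∉ O := fun hcon => hj (Finset.mem_filter.2 ⟨Finset.mem_univ j, hcon⟩)
      exact (hram _ hj').congr (hc j) (hH j)
    have hloc : ∀ x : PN N, x ∈ coverLocus I O (fun j => aeval F (G j)) →
        x ∈ coverLocus I (Finset.univ.filter (fun j : Fin m' => σ j ∈ O))
          (fun j => comb (p j) F') := by
      intro x hx
      refine ⟨hx.1, fun j hj hcon => hx.2 (σ j) (Finset.mem_filter.1 hj).2 ?_⟩
      exact (vanishesAt_congr hI hx.1 (hc j) (hH j)).1 hcon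
    have hopen : OpenPart (aeval F (aeval B Δ)) I O (fun j => aeval F (G j)) := by
      refine ⟨?_, ?_, ?_⟩
      · intro f hf hfX hne
        rw [hD] at hne
        exact picard_coverM hk h.orb hI hFF hram' hf (fun z hz => hloc _ (hfX z hz)) hne
      · intro f hf hfX hne z w
        rw [hD] at hne
        exact brody_coverM hk h.orb hI hFF hram' hf (fun z => hloc _ (hfX z)) hne z w
      · intro Q _ hQ hIQ hOQ hDQ w hw hz
        rw [hD] at hDQ
        have h1 : LogGeneralType Q (Finset.univ.filter fun j : Fin m' => σ j ∈ O)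
            (fun j => comb (p j) F') w :=
          h.alg N (e * e₀) Q F' (Finset.univ.filter fun j : Fin m' => σ j ∈ O) hQ
            (hFF.mono hIQ) (fun j hj => (hram' j hj).mono hIQ) hDQ w hw hz
        have h2 : ∀ j, C (c j) * aeval F (G (σ j)) - comb (p j) F' ∈ Q := fun j => hIQ (hH j)
        have h3 : ∀ E : PrimeDivisorOver (FunField Q) w,
            OnForms Q (Finset.univ.filter fun j : Fin m' => σ j ∈ O)
              (fun j => comb (p j) F') E → OnForms Q O (fun j => aeval F (G j)) E := by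
          intro E hE
          refine onForms_mono (Q := Q) (H := fun j => aeval F (G j))
            (H' := fun j => comb (p j) F') (σ := σ) (c := c) hQ ?_ hc ?_ E hE
          · intro j hj
            exact (Finset.mem_filter.1 hj).2
          · exact h2
        unfold LogGeneralType at h1 ⊢
        exact isLogGeneralType_mono h3 h1
    refine ⟨hopen, fun w hw hz => ⟨fun hzP => ?_, fun hDI => ?_⟩⟩
    · exact notMem_of_dim hI hF hPI hw hz hzP (hk.aeval _ hB.hom) hΔ
    · refine hopen.four hI ((hk.aeval _ hB.hom).aeval _ hF.hom) hDI (fun j => ?_) hO hw hz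
      obtain ⟨d, hd⟩ := hGh j
      exact ⟨e * d, hd.aeval _ hF.hom⟩

/-! ### Lang's conjecture -/

/-- **Lang's conjecture**, if the variety is not contained in the exceptional set. -/
theorem OpenPart.lang {m N k : ℕ} {D : MvPolynomial (Fin (N + 1)) ℂ}
    {I : Ideal (MvPolynomial (Fin (N + 1)) ℂ)} [I.IsPrime]
    {H : Fin m → MvPolynomial (Fin (N + 1)) ℂ} (h : OpenPart D I ∅ H) (hI : Homog I)
    (hD : D.IsHomogeneous k) (hDI : D ∉ I) (hH : ∀ j, ∃ d, (H j).IsHomogeneous d) {w : ℕ}
    (hw : 1 ≤ w) (hz : ∃ z : Fin w → FunField I, IsTranscendenceBasis ℂ z) :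
    LangProperties I w {x | x ∈ variety I ∧ VanishesAt D x} := by
  have hnil : ∀ j ∈ (∅ : Finset (Fin m)), H j ∉ I := fun j hj =>
    absurd hj (Finset.notMem_empty j)
  have hcl : ∀ S : Set (PN N), (∀ x ∈ S, VanishesAt D x) →
      closureIn (variety I) S ⊆ {x | x ∈ variety I ∧ VanishesAt D x} := by
    intro S hS x hx
    exact ⟨hx.1, hx.2 k _ hD hS⟩
  have hbrody : ∀ f : ℂ → PN N, HolomorphicInto f Set.univ → (∀ z, f z ∈ variety I) →
      (∃ z, f z ∉ {x | x ∈ variety I ∧ VanishesAt D x}) → ∀ z w, f z = f w := by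
    rintro f hf hfX ⟨z, hz⟩
    refine h.brody f hf (by rw [coverLocus_eq]; exact hfX) ⟨z, fun hcon => hz ⟨hfX z, hcon⟩⟩
  have h4 := h.four hI hD hDI hH hnil hw hz
  rw [coverLocus_eq] at h4
  refine ⟨isGeneralType_of h4.logGeneralType, ?_, ?_, ?_, ?_, ?_⟩
  · have h5 := h4.closed
    rwa [coverLocus_eq] at h5
  · have h5 := h4.proper
    rwa [coverLocus_eq] at h5
  · exact hcl _ fun x hx => (unionImages_subset hbrody hx).2
  · refine hcl _ ?_
    rintro _ ⟨f, hf, hfX, ⟨z, w, hzw⟩, y, rfl⟩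
    by_contra hcon
    exact hzw (hbrody f hf hfX ⟨y, fun h => hcon h.2⟩ z w)
  · refine hcl _ ?_
    rintro x ⟨P, _, w, hP, hIP, hw, hz', hng, hx⟩
    by_contra hcon
    refine hng (isGeneralType_of (h.strongly P hP hIP (fun j hj =>
      absurd hj (Finset.notMem_empty j)) (fun hmem => hcon ?_) w hw hz'))
    exact hx _ hmem k hD

/-- Lang's conjecture for the finite covers of closed subvarieties of the variety `Y` given by `P`
which vanish on the inverse images of the hypersurface sections `G j` with multiplicities at least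
`q` and are not contained in the exceptional set, in particular for those which have the dimension
of `Y`. -/
def LangSections (q : ℕ) {m M : ℕ} (P : Ideal (MvPolynomial (Fin (M + 1)) ℂ)) [P.IsPrime]
    (G : Fin m → MvPolynomial (Fin (M + 1)) ℂ) (Δ : MvPolynomial (Fin (M + 1)) ℂ) : Prop :=
  ∀ (N e : ℕ) (I : Ideal (MvPolynomial (Fin (N + 1)) ℂ)) [I.IsPrime]
    (F : Fin (M + 1) → MvPolynomial (Fin (N + 1)) ℂ), Homog I → BaseFree I e F →
    (∀ g ∈ P, aeval F g ∈ I) → (∀ j, RamM q I (aeval F (G j))) → ∀ w, 1 ≤ w →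
    (∃ z : Fin w → FunField I, IsTranscendenceBasis ℂ z) →
      ((∃ z : Fin w → FunField P, IsTranscendenceBasis ℂ z) → aeval F Δ ∉ I) ∧
      (aeval F Δ ∉ I → LangProperties I w {x | x ∈ variety I ∧ VanishesAt (aeval F Δ) x})

theorem SectionTheorem.lang {q m M k : ℕ} {P : Ideal (MvPolynomial (Fin (M + 1)) ℂ)} [P.IsPrime]
    {G : Fin m → MvPolynomial (Fin (M + 1)) ℂ} {Δ : MvPolynomial (Fin (M + 1)) ℂ}
    (h : SectionTheorem q P G Δ) (hGh : ∀ j, ∃ d, (G j).IsHomogeneous d)
    (hk : Δ.IsHomogeneous k) : LangSections q P G Δ := by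
  intro N e I _ F hI hF hPI hram w hw hz
  have h1 := h.covers N e I F ∅ hI hF hPI (fun j hj => absurd hj (Finset.notMem_empty j))
    fun j _ => hram j
  refine ⟨(h1.2 w hw hz).1, fun hΔI => h1.1.lang hI (hk.aeval _ hF.hom) hΔI (fun j => ?_) hw hz⟩
  obtain ⟨d, hd⟩ := hGh j
  exact ⟨e * d, hd.aeval _ hF.hom⟩

end Pool.Agent.H5.DG
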