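import Pool.Agent.H5.DG.BasicB

/-!
# Project DG, B: the size of the points of the curve

Let `t ∈ Gam N L`, `u = t 1`. The vector `w = e_a - t a e₀` satisfies `dot t w = 0`, so `N (w; u) = 0`. In `N (x e₀ + y e_a; u)` the
coefficient of `x ^ κ` is `1` (value at `e₀`), and the coefficient of `x ^ j y ^ (κ - j)` is a polynomial `q j (u)` of degree
`≤ κ - j` (`deg`). So `(-t a) ^ κ + ∑_{j < κ} q j (u) (-t a) ^ j = 0`, which gives `|t a| ≤ C max (1, |u|)`
(if `|t a| = x max (1, |u|)` then `x ^ κ ≤ ∑ C x ^ j`), and `≤ max (1, |u|)` for a valuation trivial on `ℂ`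
(`ν (q j (u)) ≤ max (1, ν u) ^ (κ - j)`). For `a = 1`, `t 1 = u`; for `a = 0`, `t 0 = 1`.
-/

open MvPolynomial

noncomputable section

namespace Pool.Agent.H5.DG

variable {n κ : ℕ} {N : Polynomial (PV n)}

private theorem sz_aeval {L : Type} [Field L] [Algebra ℂ L] (f : PV n) (w : Fin (n + 2) → L) :
    MvPolynomial.aeval w f = ∑ α ∈ f.support, algebraMap ℂ L (f.coeff α) * ∏ b, w b ^ α b := by
  rw [MvPolynomial.aeval_def, MvPolynomial.eval₂_eq']

private theorem sz_top (hN : IsPreNorm κ N) {i : ℕ} {α : Fin (n + 2) →₀ ℕ}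
    (hα : α ∈ (N.coeff i).support) (h : ¬ α 0 < κ) : i = 0 ∧ α 0 = κ ∧ ∀ b, b ≠ 0 → α b = 0 := by
  have h1 := hN.deg i α hα
  have h2 : α.degree = κ := by
    rw [Finsupp.degree_eq_weight_one]
    exact hN.hom i (MvPolynomial.mem_support_iff.1 hα)
  have h3 : α 0 = κ := by omega
  refine ⟨by omega, h3, fun b hb => ?_⟩
  rw [Finsupp.degree_eq_sum] at h2
  rw [← Finset.add_sum_erase _ _ (Finset.mem_univ (0 : Fin (n + 2)))] at h2
  have h4 : ∑ x ∈ Finset.univ.erase (0 : Fin (n + 2)), α x = 0 := by omega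
  exact Finset.sum_eq_zero_iff.1 h4 b (Finset.mem_erase.2 ⟨hb, Finset.mem_univ b⟩)

private theorem sz_prod_top {L : Type} [Field L] (w : Fin (n + 2) → L) {α : Fin (n + 2) →₀ ℕ}
    (h1 : α 0 = κ) (h2 : ∀ b, b ≠ 0 → α b = 0) : ∏ b, w b ^ α b = w 0 ^ κ := by
  rw [← Finset.mul_prod_erase _ _ (Finset.mem_univ (0 : Fin (n + 2))), h1]
  have : ∏ b ∈ Finset.univ.erase (0 : Fin (n + 2)), w b ^ α b = 1 := by
    refine Finset.prod_eq_one fun b hb => ?_
    rw [h2 b (Finset.ne_of_mem_erase hb), pow_zero]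
  rw [this, mul_one]

private theorem sz_split (hN : IsPreNorm κ N) {L : Type} [Field L] [Algebra ℂ L]
    (w : Fin (n + 2) → L) (u : L) :
    val N w u = (∑ i ∈ Finset.range (κ + 1), ∑ α ∈ (N.coeff i).support with α 0 < κ,
        algebraMap ℂ L ((N.coeff i).coeff α) * (∏ b, w b ^ α b) * u ^ i) +
      algebraMap ℂ L (∑ i ∈ Finset.range (κ + 1), ∑ α ∈ (N.coeff i).support with ¬ α 0 < κ,
        (N.coeff i).coeff α) * w 0 ^ κ := by
  rw [val_eq_sum (natDegree_le hN), map_sum, Finset.sum_mul, ← Finset.sum_add_distrib]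
  refine Finset.sum_congr rfl fun i _ => ?_
  rw [sz_aeval, map_sum, Finset.sum_mul, Finset.sum_mul,
    ← Finset.sum_filter_add_sum_filter_not _ (fun α : Fin (n + 2) →₀ ℕ => α 0 < κ)]
  congr 1
  refine Finset.sum_congr rfl fun α hα => ?_
  rw [Finset.mem_filter] at hα
  obtain ⟨h1, h2, h3⟩ := sz_top hN hα.1 hα.2
  rw [sz_prod_top w h2 h3, h1, pow_zero, mul_one]

private theorem sz_c0 (hN : IsPreNorm κ N) :
    ∑ i ∈ Finset.range (κ + 1), ∑ α ∈ (N.coeff i).support with ¬ α 0 < κ,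
      (N.coeff i).coeff α = 1 := by
  have h1 := sz_split hN (L := ℂ) (Pi.single 0 1) 1
  obtain ⟨t, ht, hv⟩ := hN.split ℂ 1
  have h2 : val N (Pi.single 0 1 : Fin (n + 2) → ℂ) 1 = 1 := by
    rw [hv]
    refine Finset.prod_eq_one fun s _ => ?_
    unfold dot
    rw [Finset.sum_eq_single 0]
    · rw [(ht s).1, Pi.single_eq_same, mul_one]
    · intro b _ hb
      rw [Pi.single_eq_of_ne hb, mul_zero]
    · intro h
      exact absurd (Finset.mem_univ _) h
  rw [h2] at h1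
  have h3 : ∑ i ∈ Finset.range (κ + 1), ∑ α ∈ (N.coeff i).support with α 0 < κ,
        algebraMap ℂ ℂ ((N.coeff i).coeff α) *
          (∏ b, (Pi.single 0 1 : Fin (n + 2) → ℂ) b ^ α b) * 1 ^ i = 0 := by
    refine Finset.sum_eq_zero fun i _ => Finset.sum_eq_zero fun α hα => ?_
    rw [Finset.mem_filter] at hα
    have h4 : α.degree = κ := by
      rw [Finsupp.degree_eq_weight_one]
      exact hN.hom i (MvPolynomial.mem_support_iff.1 hα.1)
    rw [Finsupp.degree_eq_sum] at h4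
    rw [← Finset.add_sum_erase _ _ (Finset.mem_univ (0 : Fin (n + 2)))] at h4
    have h5 : ∑ x ∈ Finset.univ.erase (0 : Fin (n + 2)), α x ≠ 0 := by
      have := hα.2
      omega
    obtain ⟨b, hb, hb2⟩ := Finset.exists_ne_zero_of_sum_ne_zero h5
    have h6 : ∏ b, (Pi.single 0 1 : Fin (n + 2) → ℂ) b ^ α b = 0 := by
      refine Finset.prod_eq_zero (Finset.mem_univ b) ?_
      rw [Pi.single_eq_of_ne (Finset.ne_of_mem_erase hb), zero_pow hb2]
    rw [h6, mul_zero, zero_mul]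
  rw [h3, zero_add, Pi.single_eq_same, one_pow, mul_one] at h1
  exact h1.symm

private theorem sz_key (hN : IsPreNorm κ N) {L : Type} [Field L] [Algebra ℂ L]
    {t : Fin (n + 2) → L} (ht : t ∈ Gam N L) {a : Fin (n + 2)} (ha : a ≠ 0) :
    ∃ e : (Fin (n + 2) →₀ ℕ) → L, (∀ α, e α = 0 ∨ e α = 1) ∧
      (-(t a)) ^ κ = -∑ i ∈ Finset.range (κ + 1), ∑ α ∈ (N.coeff i).support with α 0 < κ,
        algebraMap ℂ L ((N.coeff i).coeff α) * ((-(t a)) ^ (α 0) * e α) * (t 1) ^ i := by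
  classical
  obtain ⟨w, hw⟩ : ∃ w : Fin (n + 2) → L, w = fun b => if b = 0 then -(t a) else
    if b = a then 1 else 0 := ⟨_, rfl⟩
  have hw0 : w 0 = -(t a) := by rw [hw]; simp
  have hwa : w a = 1 := by rw [hw]; simp [ha]
  have hwb : ∀ b, b ≠ 0 → b ≠ a → w b = 0 := by
    intro b h1 h2
    rw [hw]
    simp [h1, h2]
  have hdot : dot t w = 0 := by
    unfold dot
    rw [← Finset.add_sum_erase _ _ (Finset.mem_univ (0 : Fin (n + 2))),
      ← Finset.add_sum_erase _ _ (Finset.mem_erase.2 ⟨ha, Finset.mem_univ a⟩)]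
    have : ∑ x ∈ (Finset.univ.erase (0 : Fin (n + 2))).erase a, t x * w x = 0 := by
      refine Finset.sum_eq_zero fun b hb => ?_
      rw [Finset.mem_erase, Finset.mem_erase] at hb
      rw [hwb b hb.2.1 hb.1, mul_zero]
    rw [this, hw0, hwa, ht.1]
    ring
  have h1 := ht.2 w hdot
  rw [sz_split hN, sz_c0 hN, map_one, one_mul, hw0] at h1
  refine ⟨fun α => ∏ b ∈ Finset.univ.erase (0 : Fin (n + 2)), w b ^ α b, fun α => ?_, ?_⟩
  · by_cases h : ∃ b, b ≠ 0 ∧ b ≠ a ∧ α b ≠ 0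
    · obtain ⟨b, hb1, hb2, hb3⟩ := h
      left
      refine Finset.prod_eq_zero (Finset.mem_erase.2 ⟨hb1, Finset.mem_univ b⟩) ?_
      rw [hwb b hb1 hb2, zero_pow hb3]
    · right
      push Not at h
      refine Finset.prod_eq_one fun b hb => ?_
      by_cases hba : b = a
      · rw [hba, hwa, one_pow]
      · rw [h b (Finset.ne_of_mem_erase hb) hba, pow_zero]
  · rw [eq_neg_iff_add_eq_zero, add_comm]
    rw [← h1]
    congr 1
    refine Finset.sum_congr rfl fun i _ => Finset.sum_congr rfl fun α _ => ?_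
    rw [← hw0, Finset.mul_prod_erase _ (fun b => w b ^ α b) (Finset.mem_univ (0 : Fin (n + 2)))]

theorem size_abs (hκ : 1 ≤ κ) (hN : IsPreNorm κ N) :
    ∃ C : ℝ, 1 ≤ C ∧ ∀ t ∈ Gam N ℂ, ‖t‖ ≤ C * max 1 ‖t 1‖ := by
  obtain ⟨S, hS⟩ : ∃ S : ℝ, S = ∑ i ∈ Finset.range (κ + 1), ∑ α ∈ (N.coeff i).support with α 0 < κ,
    ‖(N.coeff i).coeff α‖ := ⟨_, rfl⟩
  refine ⟨max 1 S, le_max_left _ _, fun t ht => ?_⟩
  obtain ⟨M, hM⟩ : ∃ M : ℝ, M = max 1 ‖t 1‖ := ⟨_, rfl⟩
  rw [← hM]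
  have hM1 : 1 ≤ M := by rw [hM]; exact le_max_left _ _
  have hMu : ‖t 1‖ ≤ M := by rw [hM]; exact le_max_right _ _
  have hC1 : 1 ≤ max 1 S := le_max_left _ _
  have hCM : 1 * M ≤ max 1 S * M := mul_le_mul_of_nonneg_right hC1 (by linarith)
  rw [pi_norm_le_iff_of_nonneg (by linarith)]
  intro a
  by_cases ha : a = 0
  · rw [ha, ht.1, norm_one]
    linarith
  · by_contra hlt
    push Not at hlt
    obtain ⟨e, he, hk⟩ := sz_key hN ht ha
    obtain ⟨X, hX⟩ : ∃ X : ℝ, X = ‖t a‖ := ⟨_, rfl⟩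
    rw [← hX] at hlt
    have hXM : M ≤ X := by linarith
    have hX1 : 1 ≤ X := hM1.trans hXM
    have h1 : X ^ κ ≤ S * (X ^ (κ - 1) * M) := by
      have h2 : X ^ κ = ‖(-(t a)) ^ κ‖ := by rw [norm_pow, norm_neg, hX]
      rw [h2, hk, norm_neg, hS, Finset.sum_mul]
      refine (norm_sum_le _ _).trans (Finset.sum_le_sum fun i _ => ?_)
      rw [Finset.sum_mul]
      refine (norm_sum_le _ _).trans (Finset.sum_le_sum fun α hα => ?_)
      rw [Finset.mem_filter] at hα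
      have h3 := hN.deg i α hα.1
      have h4 := hα.2
      rw [norm_mul, norm_mul, norm_mul, norm_pow, norm_pow, norm_neg, ← hX, mul_assoc]
      have h5 : ‖algebraMap ℂ ℂ ((N.coeff i).coeff α)‖ = ‖(N.coeff i).coeff α‖ := rfl
      rw [h5]
      refine mul_le_mul_of_nonneg_left ?_ (norm_nonneg _)
      have h6 : ‖e α‖ ≤ 1 := by
        rcases he α with h | h <;> rw [h] <;> simp
      have h7 : X ^ α 0 * ‖e α‖ ≤ X ^ α 0 := mul_le_of_le_one_right (by positivity) h6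
      have h8 : ‖t 1‖ ^ i ≤ M ^ i := pow_le_pow_left₀ (norm_nonneg _) hMu i
      have h9 : X ^ α 0 * ‖e α‖ * ‖t 1‖ ^ i ≤ X ^ α 0 * M ^ i :=
        mul_le_mul h7 h8 (by positivity) (by positivity)
      refine h9.trans ?_
      rcases Nat.eq_zero_or_pos i with h0 | h0
      · rw [h0, pow_zero, mul_one]
        have h10 : X ^ α 0 ≤ X ^ (κ - 1) := pow_le_pow_right₀ hX1 (by omega)
        exact h10.trans (le_mul_of_one_le_right (by positivity) hM1)
      · obtain ⟨k, rfl⟩ : ∃ k, i = k + 1 := ⟨i - 1, by omega⟩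
        have h10 : M ^ k ≤ X ^ k := pow_le_pow_left₀ (by linarith) hXM k
        have h11 : X ^ α 0 * X ^ k ≤ X ^ (κ - 1) := by
          rw [← pow_add]
          exact pow_le_pow_right₀ hX1 (by omega)
        calc X ^ α 0 * M ^ (k + 1) = (X ^ α 0 * M ^ k) * M := by ring
          _ ≤ (X ^ α 0 * X ^ k) * M := by
            refine mul_le_mul_of_nonneg_right ?_ (by linarith)
            exact mul_le_mul_of_nonneg_left h10 (by positivity)
          _ ≤ X ^ (κ - 1) * M := mul_le_mul_of_nonneg_right h11 (by linarith)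
    have h2 : X ^ κ = X ^ (κ - 1) * X := by
      rw [← pow_succ]
      congr 1
      omega
    have h3 : X ≤ S * M := by
      have h4 : 0 < X ^ (κ - 1) := by positivity
      have h5 : X ^ (κ - 1) * X ≤ X ^ (κ - 1) * (S * M) := by
        rw [← h2]
        calc X ^ κ ≤ S * (X ^ (κ - 1) * M) := h1
          _ = X ^ (κ - 1) * (S * M) := by ring
      exact le_of_mul_le_mul_left h5 h4
    have h4 : S * M ≤ max 1 S * M := mul_le_mul_of_nonneg_right (le_max_right _ _) (by linarith)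
    linarith

theorem size_val (hκ : 1 ≤ κ) (hN : IsPreNorm κ N) {L : Type} [Field L] [Algebra ℂ L]
    [IsAlgClosed L] {Γ₀ : Type} [LinearOrderedCommGroupWithZero Γ₀] (ν : Valuation L Γ₀)
    (hν : ∀ c : ℂ, c ≠ 0 → ν (algebraMap ℂ L c) = 1) (t : Fin (n + 2) → L) (ht : t ∈ Gam N L)
    (a : Fin (n + 2)) : ν (t a) ≤ max 1 (ν (t 1)) := by
  obtain ⟨M, hM⟩ : ∃ M : Γ₀, M = max 1 (ν (t 1)) := ⟨_, rfl⟩
  rw [← hM]
  have hM1 : 1 ≤ M := by rw [hM]; exact le_max_left _ _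
  have hMu : ν (t 1) ≤ M := by rw [hM]; exact le_max_right _ _
  by_cases ha : a = 0
  · rw [ha, ht.1, map_one]
    exact hM1
  · by_contra hlt
    push Not at hlt
    obtain ⟨e, he, hk⟩ := sz_key hN ht ha
    obtain ⟨X, hX⟩ : ∃ X : Γ₀, X = ν (t a) := ⟨_, rfl⟩
    rw [← hX] at hlt
    have hX1 : 1 < X := lt_of_le_of_lt hM1 hlt
    have hX0 : X ≠ 0 := (lt_trans zero_lt_one hX1).ne'
    have h2 : X ^ κ = ν ((-(t a)) ^ κ) := by rw [map_pow, Valuation.map_neg, hX]
    have h3 : ν ((-(t a)) ^ κ) < X ^ κ := by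
      rw [hk, Valuation.map_neg]
      refine Valuation.map_sum_lt ν (pow_ne_zero _ hX0) fun i _ => ?_
      refine Valuation.map_sum_lt ν (pow_ne_zero _ hX0) fun α hα => ?_
      rw [Finset.mem_filter] at hα
      have h3 := hN.deg i α hα.1
      have h4 := hα.2
      rw [map_mul, map_mul, map_mul, map_pow, map_pow, Valuation.map_neg, ← hX,
        hν _ (MvPolynomial.mem_support_iff.1 hα.1), one_mul]
      have h6 : ν (e α) ≤ 1 := by
        rcases he α with h | h <;> rw [h] <;> simp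
      have h7 : X ^ α 0 * ν (e α) ≤ X ^ α 0 := mul_le_of_le_one_right' h6
      have h8 : ν (t 1) ^ i ≤ M ^ i := pow_le_pow_left₀ zero_le hMu i
      have h9 : X ^ α 0 * ν (e α) * ν (t 1) ^ i ≤ X ^ α 0 * M ^ i := mul_le_mul' h7 h8
      refine lt_of_le_of_lt h9 ?_
      rcases Nat.eq_zero_or_pos i with h0 | h0
      · rw [h0, pow_zero, mul_one]
        exact pow_lt_pow_right₀ hX1 h4
      · have h10 : M ^ i < X ^ i := pow_lt_pow_left₀ hlt zero_le (by omega)
        have h11 : X ^ α 0 * M ^ i < X ^ α 0 * X ^ i :=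
          mul_lt_mul_of_pos_left h10 (zero_lt_iff.2 (pow_ne_zero _ hX0))
        refine lt_of_lt_of_le h11 ?_
        rw [← pow_add]
        exact pow_le_pow_right₀ hX1.le h3
    rw [← h2] at h3
    exact lt_irrefl _ h3

end Pool.Agent.H5.DG
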