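import Pool.Agent.H5.DG.Consts

/-!
# Project DG, E1: not all roots are constant

Suppose `T.card = κ` (`card_constants_le`). Let `U = {w ∈ ℂ^(n+2) | dot τ w = 0 for τ ∈ T}`. The numbers `c_τ = τ 1`, `τ ∈ T`, are different
(`toL_facts` in the algebraic closure of `K`), and `N (w; c_τ) = 0` for `w ∈ U`; `natDegree_le`: `N (w; u) = a (w) ∏ (u - c_τ)`, `a = N.coeff κ`.
(1) `dim U ≤ 1`: let `w₁, w₂ ∈ U` be linearly independent. The polynomial `a (s w₁ + t w₂)` is a binary form of degree `κ ≥ 1`, so it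
has a zero `(s, t) ≠ 0` (if it is not zero at `w₂`, the polynomial `s ↦ a (w₁ s + ...)`; `ℂ` algebraically closed), `w = s w₁ + t w₂ ≠ 0`,
`N (w; ·) = 0`, contradicting `hnd`. (2) `v` is in `U ⊗ K`: the solutions in `K` of a system of equations with coefficients in `ℂ` are
combinations of the solutions in `ℂ` (e.g. choose a basis of `U` and complete it to a basis of `ℂ^(n+2)`; or expand the coordinates of `v`
in a basis of `K` over `ℂ`: all coefficient vectors are in `U`, so they are multiples of one vector `x ∈ ℂ^(n+2)`, and `v = x f`).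
-/

open MvPolynomial

noncomputable section

namespace Pool.Agent.H5.DG

variable {n κ : ℕ} {N : Polynomial (PV n)}

private theorem cardLt_inj (hN : IsNormForm κ N) {K : Type} [Field K] [Algebra ℂ K]
    (v : Fin (n + 2) → K) (hΔ : MvPolynomial.aeval v (Del κ N) ≠ 0) :
    Set.InjOn (fun τ : Fin (n + 2) → ℂ => τ 1)
        {τ : Fin (n + 2) → ℂ | τ ∈ Gam N ℂ ∧ dot (toL K τ) v = 0} := by
  set L := AlgebraicClosure K
  set vL : Fin (n + 2) → L := fun a => algebraMap K L (v a) with hvL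
  have hΔL : MvPolynomial.aeval vL (Del κ N) ≠ 0 := by
    have h1 : MvPolynomial.aeval vL (Del κ N) = algebraMap K L (MvPolynomial.aeval v (Del κ N)) := by
      exact MvPolynomial.aeval_algebraMap_apply L v (Del κ N)
    rw [h1, Ne, map_eq_zero]
    exact hΔ
  have hdot : ∀ τ : Fin (n + 2) → ℂ, dot (toL K τ) v = 0 → dot (toL L τ) vL = 0 := by
    intro τ h
    have h1 : dot (toL L τ) vL = algebraMap K L (dot (toL K τ) v) := by
      unfold dot toL
      rw [map_sum]
      refine Finset.sum_congr rfl fun a _ => ?_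
      rw [map_mul, ← IsScalarTower.algebraMap_apply ℂ K L]
    rw [h1, h, map_zero]
  intro τ hτ τ' hτ' h
  have h1 := (toL_facts hN.one_le hN.pre vL hΔL hτ.1 (hdot τ hτ.2)).2
  have h2 := (toL_facts hN.one_le hN.pre vL hΔL hτ'.1 (hdot τ' hτ'.2)).2
  have h3 : τ 1 = τ' 1 := h
  rw [h3, h2] at h1
  funext a
  exact ((algebraMap ℂ L).injective (congrFun h1 a)).symm

private theorem cardLt_coeff (hN : IsNormForm κ N) (hnd : Nondeg N) (S : Finset ℂ) (hS : S.card = κ)
    (w : Fin (n + 2) → ℂ) (hw : w ≠ 0) (hr : ∀ c ∈ S, val N w c = 0) : MvPolynomial.aeval w (N.coeff κ) ≠ 0 := by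
  intro h0
  apply hnd w hw
  have hdeg : (atV N w).natDegree ≤ κ := (Polynomial.natDegree_map_le).trans (natDegree_le hN.pre)
  have hc : (atV N w).coeff κ = 0 := by
    rw [atV, Polynomial.coeff_map]
    exact h0
  rcases eq_or_lt_of_le hdeg with h | h
  · have h1 : (atV N w).leadingCoeff = 0 := by
      rw [Polynomial.leadingCoeff, h, hc]
    exact Polynomial.leadingCoeff_eq_zero.mp h1
  · exact Polynomial.eq_zero_of_natDegree_lt_card_of_eval_eq_zero' _ S hr (by rw [hS]; exact h)

private theorem cardLt_prop (hκ : 1 ≤ κ) {a : PV n} (ha : a.IsHomogeneous κ) (w₁ w₂ : Fin (n + 2) → ℂ)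
    (h2 : MvPolynomial.aeval w₂ a ≠ 0) (h : ∀ t : ℂ, MvPolynomial.aeval (fun i => w₁ i + t * w₂ i) a ≠ 0) : False := by
  set p : Polynomial ℂ := MvPolynomial.aeval (fun i => Polynomial.C (w₁ i) + Polynomial.X * Polynomial.C (w₂ i)) a
    with hp
  set q : Polynomial ℂ := MvPolynomial.aeval (fun i => Polynomial.X * Polynomial.C (w₁ i) + Polynomial.C (w₂ i)) a
    with hq
  have hpe : ∀ t : ℂ, p.eval t = MvPolynomial.aeval (fun i => w₁ i + t * w₂ i) a := by
    intro t
    rw [hp, ← Polynomial.coe_aeval_eq_eval, ← AlgHom.comp_apply, MvPolynomial.comp_aeval]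
    congr 2
    funext i
    simp
    ring
  have hqe : ∀ t : ℂ, q.eval t = MvPolynomial.aeval (fun i => t * w₁ i + w₂ i) a := by
    intro t
    rw [hq, ← Polynomial.coe_aeval_eq_eval, ← AlgHom.comp_apply, MvPolynomial.comp_aeval]
    congr 2
    funext i
    simp
    ring
  have hpd : p.degree = 0 := by
    by_contra hne
    obtain ⟨t, ht⟩ := IsAlgClosed.exists_root p hne
    exact h t (by rw [← hpe]; exact ht)
  have hpC : p = Polynomial.C (p.coeff 0) := Polynomial.eq_C_of_degree_le_zero hpd.le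
  have hqX : q = Polynomial.C (p.coeff 0) * Polynomial.X ^ κ := by
    refine Polynomial.eq_of_infinite_eval_eq _ _ ?_
    refine Set.Infinite.mono (s := {t : ℂ | t ≠ 0}) ?_ ?_
    · intro t ht
      have ht0 : t ≠ 0 := ht
      show q.eval t = _
      rw [hqe, Polynomial.eval_mul, Polynomial.eval_C, Polynomial.eval_pow, Polynomial.eval_X]
      have h3 : p.eval t⁻¹ = p.coeff 0 := by
        rw [hpC, Polynomial.eval_C, Polynomial.coeff_C_zero]
      rw [← h3, hpe]
      have h4 : (fun i => t * w₁ i + w₂ i) = fun i => t * (w₁ i + t⁻¹ * w₂ i) := by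
        funext i
        field_simp
      rw [h4, MvPolynomial.aeval_def, MvPolynomial.eval₂_eq', MvPolynomial.aeval_def, MvPolynomial.eval₂_eq',
        Finset.sum_mul]
      refine Finset.sum_congr rfl fun μ hμ => ?_
      have h5 : μ.degree = κ := by
        rw [Finsupp.degree_eq_weight_one]
        exact ha (MvPolynomial.mem_support_iff.mp hμ)
      rw [Finsupp.degree_eq_sum] at h5
      have h6 : ∏ i, (t * (w₁ i + t⁻¹ * w₂ i)) ^ μ i = t ^ κ * ∏ i, (w₁ i + t⁻¹ * w₂ i) ^ μ i := by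
        rw [← h5, ← Finset.prod_pow_eq_pow_sum, ← Finset.prod_mul_distrib]
        exact Finset.prod_congr rfl fun i _ => mul_pow _ _ _
      rw [h6]
      ring
    · exact Set.infinite_of_finite_compl (by
        have : {t : ℂ | t ≠ 0}ᶜ = {0} := by ext t; simp
        rw [this]
        exact Set.finite_singleton 0)
  have h7 : q.eval 0 = 0 := by
    rw [hqX, Polynomial.eval_mul, Polynomial.eval_pow, Polynomial.eval_X, zero_pow (by omega), mul_zero]
  rw [hqe] at h7
  apply h2
  rw [← h7]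
  congr 2
  funext i
  ring

/-- **E1.** It is less than `κ` if `v` is not proportional to a complex point. -/
theorem card_constants_lt (hκ : 1 ≤ κ) (hN : IsNormForm κ N) (hnd : Nondeg N) {K : Type} [Field K]
    [Algebra ℂ K] (v : Fin (n + 2) → K) (hΔ : MvPolynomial.aeval v (Del κ N) ≠ 0)
    (hv : ¬ ∃ (x : Fin (n + 2) → ℂ) (f : K), ∀ a, v a = algebraMap ℂ K (x a) * f)
    (T : Finset (Fin (n + 2) → ℂ)) (hT : ∀ τ ∈ T, τ ∈ Gam N ℂ ∧ dot (toL K τ) v = 0) :
    T.card < κ := by
  classical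
  refine lt_of_le_of_ne (card_constants_le hN v hΔ T hT) fun hcard => hv ?_
  set S : Finset ℂ := T.image fun τ => τ 1 with hS
  have hScard : S.card = κ := by
    rw [hS, Finset.card_image_of_injOn, hcard]
    intro τ hτ τ' hτ' h
    exact cardLt_inj hN v hΔ (hT τ hτ) (hT τ' hτ') h
  have hU : ∀ w : Fin (n + 2) → ℂ, (∀ τ ∈ T, dot τ w = 0) → w ≠ 0 → MvPolynomial.aeval w (N.coeff κ) ≠ 0 := by
    intro w hw hw0
    refine cardLt_coeff hN hnd S hScard w hw0 fun c hc => ?_
    rw [hS, Finset.mem_image] at hc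
    obtain ⟨τ, hτ, rfl⟩ := hc
    exact (hT τ hτ).1.2 w (hw τ hτ)
  have hprop : ∀ w₁ w₂ : Fin (n + 2) → ℂ, (∀ τ ∈ T, dot τ w₁ = 0) → (∀ τ ∈ T, dot τ w₂ = 0) → w₂ ≠ 0 →
      ∃ c : ℂ, ∀ i, w₁ i = c * w₂ i := by
    intro w₁ w₂ h1 h2 h20
    by_contra hcon
    push Not at hcon
    refine cardLt_prop hκ (hN.hom κ) w₁ w₂ (hU w₂ h2 h20) fun t => ?_
    refine hU _ (fun τ hτ => ?_) ?_
    · have e1 := h1 τ hτ
      have e2 := h2 τ hτ
      unfold dot at e1 e2 ⊢
      have e3 : ∀ a, τ a * (w₁ a + t * w₂ a) = τ a * w₁ a + t * (τ a * w₂ a) := fun a => by ring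
      rw [Finset.sum_congr rfl fun a _ => e3 a, Finset.sum_add_distrib, ← Finset.mul_sum, e1, e2, mul_zero, add_zero]
    · intro h0
      obtain ⟨i, hi⟩ := hcon (-t)
      apply hi
      have := congrFun h0 i
      simp only [Pi.zero_apply] at this
      linear_combination this
  let b := Module.Basis.ofVectorSpace ℂ K
  set x : Module.Basis.ofVectorSpaceIndex ℂ K → Fin (n + 2) → ℂ := fun i a => b.repr (v a) i with hx
  have hxU : ∀ i, ∀ τ ∈ T, dot τ (x i) = 0 := by
    intro i τ hτ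
    have h1 := (hT τ hτ).2
    unfold dot toL at h1
    have h2 := congrArg (fun z => b.repr z i) h1
    simp only [map_sum, map_zero, Finsupp.coe_zero, Pi.zero_apply, Finsupp.coe_finsetSum, Finset.sum_apply] at h2
    unfold dot
    rw [← h2]
    refine Finset.sum_congr rfl fun a _ => ?_
    rw [← Algebra.smul_def, map_smul, Finsupp.smul_apply, smul_eq_mul]
  by_cases hall : ∀ i, x i = 0
  · refine ⟨0, 0, fun a => ?_⟩
    rw [mul_zero]
    apply b.repr.injective
    ext i
    rw [map_zero, Finsupp.zero_apply]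
    exact congrFun (hall i) a
  · push Not at hall
    obtain ⟨i₀, hi₀⟩ := hall
    obtain ⟨a₀, ha₀⟩ : ∃ a, x i₀ a ≠ 0 := by
      by_contra hcon
      push Not at hcon
      exact hi₀ (funext hcon)
    refine ⟨fun a => x i₀ a / x i₀ a₀, v a₀, fun a => ?_⟩
    rw [← Algebra.smul_def]
    apply b.repr.injective
    ext i
    rw [map_smul, Finsupp.smul_apply, smul_eq_mul]
    obtain ⟨c, hc⟩ := hprop (x i) (x i₀) (hxU i) (hxU i₀) hi₀
    have h1 : b.repr (v a) i = c * x i₀ a := hc a
    have h2 : b.repr (v a₀) i = c * x i₀ a₀ := hc a₀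
    rw [h1, h2]
    field_simp

end Pool.Agent.H5.DG
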