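import Pool.Agent.H5.DG.DefsC

/-!
# Project DG, C2: the elementary part of the cluster inequality, valuations

Put `n_u = vn ν (t u) ≥ 1` (coordinate `0`), `d_(u,j) = vn ν (t u - toL L (p j))`, `C_j = {u ∈ R : d_(u,j) < 1}`. The `C_j` are disjoint (`p j - p j'` is a
non-zero complex vector, `vn = 1`) and contained in `O` (`toL τ - toL (p j)` is a non-zero complex vector). For `u ∈ C_j`: `n_u = 1`. For `u ∉ C_j`:
`d_(u,j) ≥ n_u`. So (`h1`, `h2`) `∏_{u ∈ C_j} d_(u,j) ≤ A j` (1), in particular `A j = 1` if `C_j = ∅`. Upper bounds: `u ∈ C_j`: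
`ν (dot (t u) w) ≤ max (ν (dot (p j) w)) (d_(u,j) * vn ν w) ≤ lam * max (A j) (d_(u,j))`; other `u ∈ O`: `ν (dot (t u) w) ≤ n_u * lam`. And
`∏_{u ∈ C_j} max (A j) (d_(u,j)) ≤ A j` (if one of the maxima is `A j`, the other factors are `≤ 1`; otherwise (1)). Multiply, and use
`a * ∏_{u ∈ O, in no C_j} n_u ≤ a * ∏_{u ∈ R} n_u = 1`.
-/

open MvPolynomial

noncomputable section

namespace Pool.Agent.H5.DG

section coreUaux

variable {L : Type} [Field L] {Γ₀ : Type} [LinearOrderedCommGroupWithZero Γ₀]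
  (ν : Valuation L Γ₀)

private theorem coreU_le_vn {k : ℕ} (x : Fin k → L) (a : Fin k) : ν (x a) ≤ vn ν x :=
  Finset.le_sup (f := fun a => ν (x a)) (Finset.mem_univ a)

private theorem coreU_vn_le {k : ℕ} (x : Fin k → L) (b : Γ₀) (h : ∀ a, ν (x a) ≤ b) :
    vn ν x ≤ b := Finset.sup_le fun a _ => h a

private theorem coreU_vn_sub {k : ℕ} (x y : Fin k → L) : vn ν (x - y) ≤ max (vn ν x) (vn ν y) := by
  refine coreU_vn_le ν _ _ fun a => ?_
  refine (ν.map_sub _ _).trans ?_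
  exact max_le_max (coreU_le_vn ν x a) (coreU_le_vn ν y a)

private theorem coreU_vn_comm {k : ℕ} (x y : Fin k → L) : vn ν (x - y) = vn ν (y - x) := by
  unfold vn
  congr 1
  funext a
  exact ν.map_sub_swap (x a) (y a)

private theorem coreU_vn_tri {k : ℕ} (x y z : Fin k → L) :
    vn ν (x - z) ≤ max (vn ν (x - y)) (vn ν (y - z)) := by
  refine coreU_vn_le ν _ _ fun a => ?_
  have : (x - z) a = (x - y) a + (y - z) a := by simp
  rw [this]
  refine (ν.map_add _ _).trans ?_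
  exact max_le_max (coreU_le_vn ν (x - y) a) (coreU_le_vn ν (y - z) a)

private theorem coreU_dot_le {k : ℕ} (x y : Fin k → L) (b c : Γ₀) (hx : ∀ a, ν (x a) ≤ b)
    (hy : ∀ a, ν (y a) ≤ c) : ν (dot x y) ≤ b * c := by
  unfold dot
  refine ν.map_sum_le fun a _ => ?_
  rw [ν.map_mul]
  exact mul_le_mul' (hx a) (hy a)

end coreUaux

theorem coreU {n : ℕ} {ι : Type} (J : Finset ι) (p : ι → Fin (n + 2) → ℂ)
    (hinj : Set.InjOn p J) (hp0 : ∀ j ∈ J, p j 0 = 1) (T : Finset (Fin (n + 2) → ℂ))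
    (hJT : ∀ j ∈ J, p j ∉ T) {L : Type} [Field L] [Algebra ℂ L] {Γ₀ : Type}
    [LinearOrderedCommGroupWithZero Γ₀] (ν : Valuation L Γ₀)
    (hν : ∀ c : ℂ, c ≠ 0 → ν (algebraMap ℂ L c) = 1) (R O : Finset L) (hO : O ⊆ R)
    (t : L → Fin (n + 2) → L) (a lam : Γ₀) (w : Fin (n + 2) → L) (A : ι → Γ₀)
    (h0 : ∀ u ∈ R, t u 0 = 1) (hT : ∀ u ∈ R, u ∉ O → ∃ τ ∈ T, t u = toL L τ)
    (h1 : a * ∏ u ∈ R, vn ν (t u) = 1)
    (h2 : ∀ j ∈ J, a * ∏ u ∈ R, vn ν (t u - toL L (p j)) ≤ A j) (hA : ∀ j ∈ J, A j ≤ 1)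
    (h3 : ∀ j ∈ J, ν (dot (toL L (p j)) w) ≤ lam * A j) (h4 : ∀ a, ν (w a) ≤ lam) :
    a * ∏ u ∈ O, ν (dot (t u) w) ≤ lam ^ O.card * ∏ j ∈ J, A j := by
  classical
  -- complex vectors
  have hcx : ∀ x : Fin (n + 2) → ℂ, vn ν (toL L x) ≤ 1 := by
    intro x
    refine coreU_vn_le ν _ _ fun b => ?_
    by_cases hx : x b = 0
    · simp [toL, hx]
    · exact (hν _ hx).le
  have hcs : ∀ x y : Fin (n + 2) → ℂ, x ≠ y → ¬ vn ν (toL L x - toL L y) < 1 := by
    intro x y hxy hlt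
    obtain ⟨b, hb⟩ := Function.ne_iff.mp hxy
    have h5 := (coreU_le_vn ν (toL L x - toL L y) b).trans_lt hlt
    have h6 : (toL L x - toL L y) b = algebraMap ℂ L (x b - y b) := by simp [toL]
    rw [h6, hν _ (sub_ne_zero.mpr hb)] at h5
    exact lt_irrefl _ h5
  have hn1 : ∀ u ∈ R, 1 ≤ vn ν (t u) := by
    intro u hu
    have := coreU_le_vn ν (t u) 0
    rwa [h0 u hu, ν.map_one] at this
  have hnle : ∀ u j, vn ν (t u) ≤ max (vn ν (t u - toL L (p j))) 1 := by
    intro u j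
    refine coreU_vn_le ν _ _ fun b => ?_
    have h5 : t u b = (t u - toL L (p j)) b + toL L (p j) b := by simp
    rw [h5]
    refine (ν.map_add _ _).trans ?_
    exact max_le_max (coreU_le_vn ν _ b) ((coreU_le_vn ν _ b).trans (hcx _))
  set C : ι → Finset L := fun j => R.filter fun u => vn ν (t u - toL L (p j)) < 1 with hC
  have hCR : ∀ j, C j ⊆ R := fun j => Finset.filter_subset _ _
  have hCn : ∀ j, ∀ u ∈ C j, vn ν (t u) = 1 := by
    intro j u hu
    have h5 := (Finset.mem_filter.mp hu).2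
    refine le_antisymm ?_ (hn1 u (hCR j hu))
    refine (hnle u j).trans ?_
    exact max_le h5.le le_rfl
  have hnC : ∀ j, ∀ u ∈ R, u ∉ C j → vn ν (t u) ≤ vn ν (t u - toL L (p j)) := by
    intro j u hu huC
    have h5 : 1 ≤ vn ν (t u - toL L (p j)) := by
      by_contra hlt
      exact huC (Finset.mem_filter.mpr ⟨hu, not_le.mp hlt⟩)
    exact (hnle u j).trans (max_le le_rfl h5)
  have hCO : ∀ j ∈ J, C j ⊆ O := by
    intro j hj u hu
    by_contra huO
    obtain ⟨τ, hτ, htu⟩ := hT u (hCR j hu) huO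
    have h5 := (Finset.mem_filter.mp hu).2
    rw [htu] at h5
    exact hcs τ (p j) (fun h => hJT j hj (h ▸ hτ)) h5
  have hdisj : ∀ j ∈ J, ∀ j' ∈ J, j ≠ j' → Disjoint (C j) (C j') := by
    intro j hj j' hj' hjj
    rw [Finset.disjoint_left]
    intro u hu hu'
    have h5 := (Finset.mem_filter.mp hu).2
    have h6 := (Finset.mem_filter.mp hu').2
    refine hcs (p j) (p j') (fun h => hjj (hinj hj hj' h)) ?_
    refine (coreU_vn_tri ν (toL L (p j)) (t u) (toL L (p j'))).trans_lt ?_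
    rw [coreU_vn_comm ν (toL L (p j)) (t u)]
    exact max_lt h5 h6
  -- inequality (1)
  have hone : ∀ j ∈ J, ∏ u ∈ C j, vn ν (t u - toL L (p j)) ≤ A j := by
    intro j hj
    refine le_trans ?_ (h2 j hj)
    rw [← Finset.prod_sdiff (hCR j)]
    rw [← Finset.prod_sdiff (hCR j), Finset.prod_congr rfl (hCn j), Finset.prod_const_one,
      mul_one] at h1
    have h5 : a * ∏ u ∈ R \ C j, vn ν (t u) ≤ a * ∏ u ∈ R \ C j, vn ν (t u - toL L (p j)) := by
      refine mul_le_mul_right ?_ a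
      refine Finset.prod_le_prod' fun u hu => ?_
      exact hnC j u (Finset.mem_sdiff.mp hu).1 (Finset.mem_sdiff.mp hu).2
    rw [h1] at h5
    calc ∏ u ∈ C j, vn ν (t u - toL L (p j))
        = 1 * ∏ u ∈ C j, vn ν (t u - toL L (p j)) := (one_mul _).symm
      _ ≤ (a * ∏ u ∈ R \ C j, vn ν (t u - toL L (p j))) * ∏ u ∈ C j, vn ν (t u - toL L (p j)) :=
          mul_le_mul_left h5 _
      _ = _ := by rw [mul_assoc]
  -- the products of the maxima
  have hmax : ∀ j ∈ J, ∏ u ∈ C j, max (A j) (vn ν (t u - toL L (p j))) ≤ A j := by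
    intro j hj
    by_cases hall : ∀ u ∈ C j, A j ≤ vn ν (t u - toL L (p j))
    · refine le_trans (le_of_eq ?_) (hone j hj)
      exact Finset.prod_congr rfl fun u hu => max_eq_right (hall u hu)
    · push Not at hall
      obtain ⟨u, hu, hlt⟩ := hall
      rw [← Finset.mul_prod_erase _ _ hu, max_eq_left hlt.le]
      have h5 : ∏ u ∈ (C j).erase u, max (A j) (vn ν (t u - toL L (p j))) ≤ 1 := by
        refine Finset.prod_le_one' fun u' hu' => ?_
        exact max_le (hA j hj) ((Finset.mem_filter.mp (Finset.mem_of_mem_erase hu')).2.le)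
      calc _ ≤ A j * 1 := mul_le_mul_right h5 _
        _ = A j := mul_one _
  -- upper bounds
  have hub : ∀ j ∈ J, ∀ u ∈ C j, ν (dot (t u) w) ≤ lam * max (A j) (vn ν (t u - toL L (p j))) := by
    intro j hj u hu
    have h5 : dot (t u) w = dot (toL L (p j)) w + dot (t u - toL L (p j)) w := by
      unfold dot
      rw [← Finset.sum_add_distrib]
      refine Finset.sum_congr rfl fun b _ => ?_
      simp only [Pi.sub_apply]
      ring
    rw [h5]
    refine (ν.map_add _ _).trans ?_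
    refine max_le ?_ ?_
    · exact (h3 j hj).trans (mul_le_mul_right (le_max_left _ _) _)
    · rw [mul_comm lam]
      refine (coreU_dot_le ν _ _ _ lam (coreU_le_vn ν _) h4).trans ?_
      exact mul_le_mul_left (le_max_right _ _) _
  have hub2 : ∀ u, ν (dot (t u) w) ≤ lam * vn ν (t u) := by
    intro u
    rw [mul_comm]
    exact coreU_dot_le ν _ _ _ lam (coreU_le_vn ν _) h4
  set U : Finset L := J.biUnion C with hU
  have hUO : U ⊆ O := by
    intro u hu
    obtain ⟨j, hj, huj⟩ := Finset.mem_biUnion.mp hu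
    exact hCO j hj huj
  have hcard : O.card = (O \ U).card + ∑ j ∈ J, (C j).card := by
    rw [← Finset.card_sdiff_add_card_eq_card hUO, hU, Finset.card_biUnion hdisj]
  have hprod : ∏ u ∈ O, ν (dot (t u) w) =
      (∏ u ∈ O \ U, ν (dot (t u) w)) * ∏ j ∈ J, ∏ u ∈ C j, ν (dot (t u) w) := by
    rw [← Finset.prod_sdiff hUO, hU, Finset.prod_biUnion hdisj]
  have hP1 : ∏ u ∈ O \ U, ν (dot (t u) w) ≤ lam ^ (O \ U).card * ∏ u ∈ O \ U, vn ν (t u) := by
    rw [← Finset.prod_const, ← Finset.prod_mul_distrib]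
    exact Finset.prod_le_prod' fun u _ => hub2 u
  have hP2 : ∏ j ∈ J, ∏ u ∈ C j, ν (dot (t u) w) ≤ lam ^ (∑ j ∈ J, (C j).card) * ∏ j ∈ J, A j := by
    rw [← Finset.prod_pow_eq_pow_sum, ← Finset.prod_mul_distrib]
    refine Finset.prod_le_prod' fun j hj => ?_
    calc ∏ u ∈ C j, ν (dot (t u) w)
        ≤ ∏ u ∈ C j, (lam * max (A j) (vn ν (t u - toL L (p j)))) :=
          Finset.prod_le_prod' fun u hu => hub j hj u hu
      _ = lam ^ (C j).card * ∏ u ∈ C j, max (A j) (vn ν (t u - toL L (p j))) := by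
          rw [Finset.prod_mul_distrib, Finset.prod_const]
      _ ≤ lam ^ (C j).card * A j := mul_le_mul_right (hmax j hj) _
  have hP3 : a * ∏ u ∈ O \ U, vn ν (t u) ≤ 1 := by
    rw [← h1]
    refine mul_le_mul_right ?_ a
    refine Finset.prod_le_prod_of_subset_of_one_le' ?_ fun u hu _ => hn1 u hu
    exact (Finset.sdiff_subset).trans hO
  calc a * ∏ u ∈ O, ν (dot (t u) w)
      = a * ((∏ u ∈ O \ U, ν (dot (t u) w)) * ∏ j ∈ J, ∏ u ∈ C j, ν (dot (t u) w)) := by rw [hprod]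
    _ ≤ a * ((lam ^ (O \ U).card * ∏ u ∈ O \ U, vn ν (t u)) *
        (lam ^ (∑ j ∈ J, (C j).card) * ∏ j ∈ J, A j)) :=
        mul_le_mul_right (mul_le_mul' hP1 hP2) _
    _ = (a * ∏ u ∈ O \ U, vn ν (t u)) * (lam ^ O.card * ∏ j ∈ J, A j) := by
        rw [hcard, pow_add]
        ac_rfl
    _ ≤ 1 * (lam ^ O.card * ∏ j ∈ J, A j) := mul_le_mul_left hP3 _
    _ = _ := one_mul _

end Pool.Agent.H5.DG
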