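import Pool.Agent.H5.DG.Cop

/-!
# Project DG, B1: the exceptional polynomial is not zero

`dN 0 N ≠ 0` (`N` contains `v 0 ^ κ` with coefficient `1`: `val N (x e₀) u = x ^ κ`, so by `euler` or directly
`val (dN 0 N) (x e₀) u = κ x ^ (κ - 1)`), and its coefficients are homogeneous of degree `κ - 1` in `v`; the derivative in `u` is
not zero and of degree `κ - 1 < κ`. Apply `resultant_ne_zero_of_formal` with `k = κ`. `N.coeff κ ≠ 0` by
`eval_coeff_line`. Homogeneity: the resultant of polynomials with coefficients homogeneous of degrees `p` and `q`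
with formal degrees `m, k` is homogeneous of degree `p * k + q * m` (Sylvester matrix: `k` columns with the
coefficients of `f`, `m` columns with those of `g`).
-/

set_option autoImplicit false

open MvPolynomial

noncomputable section

namespace Pool.Agent.H5.DG

variable {n κ : ℕ} {N : Polynomial (PV n)}

/-- Resultants of polynomials with homogeneous coefficients are homogeneous. -/
theorem resultant_isHomogeneous {σ : Type} {f g : Polynomial (MvPolynomial σ ℂ)} {p q m k : ℕ}
    (hf : ∀ i, (f.coeff i).IsHomogeneous p) (hg : ∀ i, (g.coeff i).IsHomogeneous q) :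
    (Polynomial.resultant f g m k).IsHomogeneous (p * k + q * m) := by
  classical
  set dg : Fin (m + k) → ℕ := fun j => j.addCases (fun _ => q) (fun _ => p) with hdg
  have hentry : ∀ i j, (Polynomial.sylvester f g m k i j).IsHomogeneous (dg j) := by
    intro i j
    rw [Polynomial.sylvester, Matrix.of_apply, hdg]
    beta_reduce
    refine Fin.addCases (fun j₁ => ?_) (fun j₁ => ?_) j
    · rw [Fin.addCases_left, Fin.addCases_left]
      split_ifs
      · exact hg _
      · exact isHomogeneous_zero _ _ _
    · rw [Fin.addCases_right, Fin.addCases_right]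
      split_ifs
      · exact hf _
      · exact isHomogeneous_zero _ _ _
  have hsum : ∑ j, dg j = p * k + q * m := by
    rw [Fin.sum_univ_add]
    simp only [hdg, Fin.addCases_left, Fin.addCases_right]
    simp
    ring
  rw [Polynomial.resultant, Matrix.det_apply, ← mem_homogeneousSubmodule]
  apply Submodule.sum_mem
  intro σ' _
  rw [Units.smul_def]
  apply zsmul_mem
  rw [mem_homogeneousSubmodule, ← hsum]
  exact IsHomogeneous.prod Finset.univ _ _ fun i _ => hentry _ _

private theorem delNe_hom0 (hN : IsPreNorm κ N) (i : ℕ) :
    ((dN 0 N).coeff i).IsHomogeneous (κ - 1) := by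
  rw [coeff_dN]
  exact (hN.hom i).pderiv

private theorem delNe_homD (hN : IsPreNorm κ N) (i : ℕ) :
    ((Polynomial.derivative N).coeff i).IsHomogeneous κ := by
  rw [Polynomial.coeff_derivative]
  have h : ((i : PV n) + 1) = MvPolynomial.C ((i : ℂ) + 1) := by
    rw [map_add, map_one, map_natCast]
  rw [h]
  have := (hN.hom (i + 1)).mul (isHomogeneous_C (Fin (n + 2)) ((i : ℂ) + 1))
  rwa [add_zero] at this

theorem del_homogeneous (hN : IsPreNorm κ N) : ∃ d, (Del κ N).IsHomogeneous d := by
  unfold Del res0
  exact ⟨_, ((hN.hom κ).mul (resultant_isHomogeneous (m := κ) (k := κ) hN.hom (delNe_hom0 hN))).mul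
    (resultant_isHomogeneous (m := κ) (k := κ) hN.hom (delNe_homD hN))⟩

theorem del_ne_zero (hκ : 1 ≤ κ) (hN : IsNormForm κ N) : Del κ N ≠ 0 := by
  have hP := hN.pre
  unfold Del
  refine mul_ne_zero (mul_ne_zero ?_ ?_) ?_
  · intro h
    have := eval_coeff_line hP
    rw [h, map_zero] at this
    exact zero_ne_one this
  · have hne : dN 0 N ≠ 0 := by
      intro h0
      have h1 := euler hP (Pi.single 0 1 : Fin (n + 2) → ℂ) (0 : ℂ)
      have h2 : val N (Pi.single 0 1 : Fin (n + 2) → ℂ) (0 : ℂ) = 1 := by
        obtain ⟨t, ht1, ht⟩ := hP.split ℂ (0 : ℂ)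
        rw [ht]
        apply Finset.prod_eq_one
        intro s _
        unfold dot
        rw [Finset.sum_eq_single 0]
        · rw [(ht1 s).1, Pi.single_eq_same, one_mul]
        · intro a _ ha
          rw [Pi.single_eq_of_ne ha, mul_zero]
        · intro h
          exact absurd (Finset.mem_univ _) h
      have h3 : ∑ a, (Pi.single 0 1 : Fin (n + 2) → ℂ) a *
          val (dN a N) (Pi.single 0 1 : Fin (n + 2) → ℂ) (0 : ℂ) = 0 := by
        apply Finset.sum_eq_zero
        intro a _
        by_cases ha : a = 0
        · subst ha
          rw [h0]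
          unfold val atV
          rw [Polynomial.map_zero, Polynomial.eval_zero, mul_zero]
        · rw [Pi.single_eq_of_ne ha, zero_mul]
      rw [h3, h2, mul_one] at h1
      have : (κ : ℂ) ≠ 0 := by
        have : κ ≠ 0 := by omega
        exact_mod_cast this
      exact this h1.symm
    unfold res0
    apply resultant_ne_zero_of_formal hκ hN hne _ (natDegree_dN_le hP 0)
    left
    intro i hi
    have := (delNe_hom0 hP i).totalDegree hi
    omega
  · have hdeg := natDegree_eq hP
    have hne : Polynomial.derivative N ≠ 0 := by
      intro h0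
      have := Polynomial.derivative_eq_zero.mp h0
      omega
    have hlt : (Polynomial.derivative N).natDegree < κ := by
      have := Polynomial.natDegree_derivative_lt (p := N) (by omega)
      omega
    exact resultant_ne_zero_of_formal hκ hN hne (Or.inr hlt) hlt.le

end Pool.Agent.H5.DG
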