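import Pool.Agent.H5.DG.DefsC

/-!
# Project DG, B6: directions

Vectors `θ` with `θ 0 = 0`, i.e. vectors of `ℂ^(n+1)`: take `κ n + 1` vectors `θ_k = (0, 1, k, k², …, k^n)` (`k = 0, …, κ n`); any
`n + 1` of them are a basis of this space (Vandermonde). Complex case: for every set `s` of `n + 1` of them there is a constant
`C` with `‖x‖ ≤ C max_{θ ∈ s} ‖dot θ x‖` for `x 0 = 0` (inverse matrix). Let `C` be the maximum of these constants. For given `x i`
the set of the `θ` with `‖x i‖ > C ‖dot θ (x i)‖` has at most `n` elements, so the union over `i ∈ s` has at most `κ n` elements.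
Valuations trivial on `ℂ`: the same with constant `1` (the inverse matrices have complex coefficients).
-/

open MvPolynomial

noncomputable section

namespace Pool.Agent.H5.DG

/-- The vector `(0, 1, k, k², …, k^n)`. -/
private def DirA_th (n : ℕ) (k : ℕ) : Fin (n + 2) → ℂ :=
  Fin.cons 0 fun i : Fin (n + 1) => (k : ℂ) ^ (i : ℕ)

private theorem DirA_pick {n κ : ℕ} {ι : Type} (s : Finset ι) (bad : ι → Finset ℕ)
    (hs : s.card ≤ κ) (hbad : ∀ i ∈ s, (bad i).card ≤ n) :
    ∃ k ∈ Finset.range (κ * n + 1), ∀ i ∈ s, k ∉ bad i := by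
  classical
  have h1 : (s.biUnion bad).card < (Finset.range (κ * n + 1)).card := by
    rw [Finset.card_range]
    refine lt_of_le_of_lt (Finset.card_biUnion_le_card_mul s bad n hbad) ?_
    exact Nat.lt_succ_of_le (Nat.mul_le_mul_right n hs)
  obtain ⟨k, hk, hk'⟩ := Finset.exists_mem_notMem_of_card_lt_card h1
  refine ⟨k, hk, fun i hi hki => hk' (Finset.mem_biUnion.2 ⟨i, hi, hki⟩)⟩

/-- `n + 1` elements of a set of natural numbers with more than `n` elements. -/
private theorem DirA_emb {n : ℕ} {B : Finset ℕ} (h : n < B.card) :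
    ∃ e : Fin (n + 1) → ℕ, Function.Injective e ∧ ∀ i, e i ∈ B := by
  obtain ⟨t, ht, htc⟩ := Finset.exists_subset_card_eq (Nat.succ_le_of_lt h)
  refine ⟨fun i => t.orderEmbOfFin htc i, (t.orderEmbOfFin htc).injective, fun i => ?_⟩
  exact ht (t.orderEmbOfFin_mem htc i)

private def DirA_M {n : ℕ} (e : Fin (n + 1) → ℕ) : Matrix (Fin (n + 1)) (Fin (n + 1)) ℂ :=
  Matrix.vandermonde fun i => (e i : ℂ)

private theorem DirA_inv {n : ℕ} {e : Fin (n + 1) → ℕ} (he : Function.Injective e) :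
    (DirA_M e)⁻¹ * DirA_M e = 1 := by
  apply Matrix.nonsing_inv_mul
  rw [isUnit_iff_ne_zero, DirA_M, Matrix.det_vandermonde_ne_zero_iff]
  exact Nat.cast_injective.comp he

/-- The coordinates of `x` in terms of the values `dot θ_k x`. -/
private theorem DirA_coord {n : ℕ} {L : Type} [Field L] [Algebra ℂ L] {e : Fin (n + 1) → ℕ}
    (he : Function.Injective e) (x : Fin (n + 2) → L) (j : Fin (n + 1)) :
    x j.succ = ∑ i, algebraMap ℂ L ((DirA_M e)⁻¹ j i) * dot (toL L (DirA_th n (e i))) x := by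
  have h1 : ∀ i, dot (toL L (DirA_th n (e i))) x =
      ∑ l : Fin (n + 1), algebraMap ℂ L (DirA_M e i l) * x l.succ := by
    intro i
    rw [dot, Fin.sum_univ_succ]
    simp only [toL, DirA_th, Fin.cons_zero, map_zero, zero_mul, zero_add, Fin.cons_succ, DirA_M,
      Matrix.vandermonde_apply]
  simp_rw [h1, Finset.mul_sum]
  rw [Finset.sum_comm]
  have h2 : ∀ l : Fin (n + 1), ∑ i, algebraMap ℂ L ((DirA_M e)⁻¹ j i) *
      (algebraMap ℂ L (DirA_M e i l) * x l.succ) = if j = l then x l.succ else 0 := by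
    intro l
    have h3 : ∑ i, algebraMap ℂ L ((DirA_M e)⁻¹ j i) *
        (algebraMap ℂ L (DirA_M e i l) * x l.succ) =
        algebraMap ℂ L (((DirA_M e)⁻¹ * DirA_M e) j l) * x l.succ := by
      rw [Matrix.mul_apply, map_sum, Finset.sum_mul]
      refine Finset.sum_congr rfl fun i _ => ?_
      rw [map_mul]
      ring
    rw [h3, DirA_inv he, Matrix.one_apply]
    split_ifs
    · rw [map_one, one_mul]
    · rw [map_zero, zero_mul]
  rw [Finset.sum_congr rfl fun l _ => h2 l, Finset.sum_ite_eq, if_pos (Finset.mem_univ _)]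

private theorem DirA_toL {n : ℕ} (θ : Fin (n + 2) → ℂ) : toL ℂ θ = θ := by
  funext a
  rfl

theorem dirA (n κ : ℕ) : ∃ (Θ : Finset (Fin (n + 2) → ℂ)) (C : ℝ), 0 < C ∧
    (∀ θ ∈ Θ, θ 0 = 0) ∧
    ∀ {ι : Type} (s : Finset ι) (x : ι → Fin (n + 2) → ℂ), s.card ≤ κ → (∀ i ∈ s, x i 0 = 0) →
      ∃ θ ∈ Θ, ∀ i ∈ s, ‖x i‖ ≤ C * ‖dot θ (x i)‖ := by
  classical
  set C0 : ℝ := ∑ e : Fin (n + 1) → Fin (κ * n + 1), ∑ j, ∑ i,
    ‖(DirA_M fun i => (e i : ℕ))⁻¹ j i‖ with hC0
  have hC0' : 0 ≤ C0 := by positivity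
  refine ⟨(Finset.range (κ * n + 1)).image (DirA_th n), C0 + 1, by positivity, ?_, ?_⟩
  · intro θ hθ
    obtain ⟨k, -, rfl⟩ := Finset.mem_image.1 hθ
    rfl
  intro ι s x hs hx
  obtain ⟨k, hk, hk'⟩ := DirA_pick (n := n) s (fun i => (Finset.range (κ * n + 1)).filter
    fun k => ¬ ‖x i‖ ≤ (C0 + 1) * ‖dot (DirA_th n k) (x i)‖) hs (fun i hi => by
      by_contra hcard
      obtain ⟨e, he, heB⟩ := DirA_emb (not_le.1 hcard)
      have hlt : ∀ l, e l < κ * n + 1 := fun l =>
        Finset.mem_range.1 (Finset.mem_filter.1 (heB l)).1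
      have hbad : ∀ l, (C0 + 1) * ‖dot (DirA_th n (e l)) (x i)‖ < ‖x i‖ := fun l =>
        not_le.1 (Finset.mem_filter.1 (heB l)).2
      have hpos : 0 < ‖x i‖ := lt_of_le_of_lt (by positivity) (hbad 0)
      have hrow : ∀ j, ∑ l, ‖(DirA_M e)⁻¹ j l‖ ≤ C0 := by
        intro j
        set e' : Fin (n + 1) → Fin (κ * n + 1) := fun l => ⟨e l, hlt l⟩ with he'
        have h1 : ∑ l, ‖(DirA_M e)⁻¹ j l‖ ≤ ∑ j, ∑ l, ‖(DirA_M e)⁻¹ j l‖ :=
          Finset.single_le_sum (f := fun j => ∑ l, ‖(DirA_M e)⁻¹ j l‖)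
            (fun _ _ => by positivity) (Finset.mem_univ j)
        have h2 : ∑ j, ∑ l, ‖(DirA_M fun i => (e' i : ℕ))⁻¹ j l‖ ≤ C0 :=
          Finset.single_le_sum (f := fun e : Fin (n + 1) → Fin (κ * n + 1) =>
            ∑ j, ∑ l, ‖(DirA_M fun i => (e i : ℕ))⁻¹ j l‖)
            (fun _ _ => by positivity) (Finset.mem_univ e')
        exact h1.trans h2
      have hlt' : ‖x i‖ < ‖x i‖ := by
        rw [pi_norm_lt_iff hpos]
        intro a
        refine Fin.cases ?_ (fun j => ?_) a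
        · rw [hx i hi, norm_zero]
          exact hpos
        · rw [DirA_coord (L := ℂ) he (x i) j]
          simp only [DirA_toL]
          have hsum : ‖∑ l, algebraMap ℂ ℂ ((DirA_M e)⁻¹ j l) * dot (DirA_th n (e l)) (x i)‖ ≤
              C0 * (‖x i‖ / (C0 + 1)) := by
            refine (norm_sum_le _ _).trans ?_
            refine le_trans (Finset.sum_le_sum (g := fun l =>
              ‖(DirA_M e)⁻¹ j l‖ * (‖x i‖ / (C0 + 1))) fun l _ => ?_) ?_
            · rw [norm_mul]
              refine mul_le_mul_of_nonneg_left ?_ (norm_nonneg _)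
              rw [le_div_iff₀ (by positivity), mul_comm]
              exact (hbad l).le
            · rw [← Finset.sum_mul]
              exact mul_le_mul_of_nonneg_right (hrow j) (by positivity)
          refine lt_of_le_of_lt hsum ?_
          rw [← mul_div_assoc, div_lt_iff₀ (by positivity)]
          nlinarith
      exact lt_irrefl _ hlt')
  refine ⟨DirA_th n k, Finset.mem_image_of_mem _ hk, fun i hi => ?_⟩
  by_contra hcon
  exact hk' i hi (Finset.mem_filter.2 ⟨hk, hcon⟩)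

theorem dirU (n κ : ℕ) : ∃ Θ : Finset (Fin (n + 2) → ℂ), (∀ θ ∈ Θ, θ 0 = 0) ∧
    ∀ (L : Type) [Field L] [Algebra ℂ L] {Γ₀ : Type} [LinearOrderedCommGroupWithZero Γ₀]
      (ν : Valuation L Γ₀), (∀ c : ℂ, c ≠ 0 → ν (algebraMap ℂ L c) = 1) →
      ∀ {ι : Type} (s : Finset ι) (x : ι → Fin (n + 2) → L), s.card ≤ κ →
        (∀ i ∈ s, x i 0 = 0) →
        ∃ θ ∈ Θ, ∀ i ∈ s, vn ν (x i) ≤ ν (dot (toL L θ) (x i)) := by
  classical
  refine ⟨(Finset.range (κ * n + 1)).image (DirA_th n), ?_, ?_⟩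
  · intro θ hθ
    obtain ⟨k, -, rfl⟩ := Finset.mem_image.1 hθ
    rfl
  intro L _ _ Γ₀ _ ν hν ι s x hs hx
  obtain ⟨k, hk, hk'⟩ := DirA_pick (n := n) s (fun i => (Finset.range (κ * n + 1)).filter
    fun k => ¬ vn ν (x i) ≤ ν (dot (toL L (DirA_th n k)) (x i))) hs (fun i hi => by
      by_contra hcard
      obtain ⟨e, he, heB⟩ := DirA_emb (not_le.1 hcard)
      have hbad : ∀ l, ν (dot (toL L (DirA_th n (e l))) (x i)) < vn ν (x i) := fun l =>
        not_le.1 (Finset.mem_filter.1 (heB l)).2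
      have hpos : 0 < vn ν (x i) := lt_of_le_of_lt (zero_le) (hbad 0)
      have hlt' : vn ν (x i) < vn ν (x i) := by
        refine (Finset.sup_lt_iff (by rw [bot_eq_zero]; exact hpos)).2 fun a _ => ?_
        refine Fin.cases ?_ (fun j => ?_) a
        · rw [hx i hi, map_zero]
          exact hpos
        · rw [DirA_coord he (x i) j]
          refine ν.map_sum_lt hpos.ne' fun l _ => ?_
          rw [map_mul]
          have h1 : ν (algebraMap ℂ L ((DirA_M e)⁻¹ j l)) ≤ 1 := by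
            by_cases h : (DirA_M e)⁻¹ j l = 0
            · rw [h, map_zero, map_zero]
              exact zero_le_one
            · exact (hν _ h).le
          exact lt_of_le_of_lt (mul_le_of_le_one_left' h1) (hbad l)
      exact lt_irrefl _ hlt')
  refine ⟨DirA_th n k, Finset.mem_image_of_mem _ hk, fun i hi => ?_⟩
  by_contra hcon
  exact hk' i hi (Finset.mem_filter.2 ⟨hk, hcon⟩)

end Pool.Agent.H5.DG
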