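import Mathlib

/-!
# Project DG: heights of polynomials and of their roots

Archimedean case: `‖lc f‖ ∏ max 1 ‖u‖` is the Mahler measure (`Polynomial.mahlerMeasure_eq_leadingCoeff_mul_prod_roots`), bounded by
the sum of the absolute values of the coefficients, and each coefficient is `± lc f` times an elementary symmetric
function of the roots, so `‖f.coeff b‖ ≤ 2 ^ κ ‖lc f‖ ∏ max 1 ‖u‖`. Valuations: Gauss' lemma, `f = lc f ∏ (X - u)`, and
the Gauss norm of `X - u` is `max 1 (ν u)`; it is multiplicative.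
-/

open Polynomial

noncomputable section

namespace Pool.Agent.H5.DG

theorem mahler_le {f : ℂ[X]} {κ : ℕ} (hf : f.natDegree = κ) {H : ℝ}
    (hH : ∀ b, ‖f.coeff b‖ ≤ H) :
    ‖f.leadingCoeff‖ * (f.roots.map fun u => max 1 ‖u‖).prod ≤ (κ + 1) * H := by
  rw [← mahlerMeasure_eq_leadingCoeff_mul_prod_roots]
  refine (mahlerMeasure_le_sum_norm_coeff f).trans ?_
  rw [Polynomial.sum_over_range f (fun _ => norm_zero), hf]
  refine (Finset.sum_le_sum fun b _ => hH b).trans ?_
  rw [Finset.sum_const, Finset.card_range, nsmul_eq_mul]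
  push_cast
  exact le_refl _

theorem coeff_le_mahler {f : ℂ[X]} {κ : ℕ} (hf : f.natDegree = κ) (b : ℕ) :
    ‖f.coeff b‖ ≤ 2 ^ κ * (‖f.leadingCoeff‖ * (f.roots.map fun u => max 1 ‖u‖).prod) := by
  rw [← mahlerMeasure_eq_leadingCoeff_mul_prod_roots]
  refine (norm_coeff_le_choose_mul_mahlerMeasure b f).trans ?_
  refine mul_le_mul_of_nonneg_right ?_ (mahlerMeasure_nonneg f)
  rw [hf]
  exact_mod_cast Nat.choose_le_two_pow κ b

section

variable {L : Type} [Field L] {Γ₀ : Type} [LinearOrderedCommGroupWithZero Γ₀]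

private theorem coeff_X_sub_C_mul_zero (h : L[X]) (u : L) :
    ((X - C u) * h).coeff 0 = - (u * h.coeff 0) := by
  rw [sub_mul, coeff_sub, coeff_X_mul_zero, coeff_C_mul, zero_sub]

private theorem coeff_X_sub_C_mul_succ (h : L[X]) (u : L) (b : ℕ) :
    ((X - C u) * h).coeff (b + 1) = h.coeff b - u * h.coeff (b + 1) := by
  rw [sub_mul, coeff_sub, coeff_X_mul, coeff_C_mul]

private theorem up_step (ν : Valuation L Γ₀) {h : L[X]} {M : Γ₀} (u : L)
    (hM : ∀ b, ν (h.coeff b) ≤ M) (b : ℕ) :
    ν (((X - C u) * h).coeff b) ≤ max 1 (ν u) * M := by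
  have h1 : ∀ b, ν (u * h.coeff b) ≤ max 1 (ν u) * M := by
    intro b
    rw [map_mul]
    exact mul_le_mul' (le_max_right _ _) (hM b)
  have h2 : ∀ b, ν (h.coeff b) ≤ max 1 (ν u) * M := by
    intro b
    calc ν (h.coeff b) = 1 * ν (h.coeff b) := (one_mul _).symm
      _ ≤ max 1 (ν u) * M := mul_le_mul' (le_max_left _ _) (hM b)
  cases b with
  | zero =>
    rw [coeff_X_sub_C_mul_zero, Valuation.map_neg]
    exact h1 0
  | succ b =>
    rw [coeff_X_sub_C_mul_succ]
    exact (ν.map_sub _ _).trans (max_le (h2 b) (h1 (b + 1)))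

private theorem down_step (ν : Valuation L Γ₀) {h : L[X]} {H : Γ₀} (u : L)
    (hH : ∀ b, ν (((X - C u) * h).coeff b) ≤ H) (b : ℕ) :
    max 1 (ν u) * ν (h.coeff b) ≤ H := by
  rcases le_total (ν u) 1 with hu | hu
  · rw [max_eq_left hu, one_mul]
    by_cases hb : h.natDegree < b
    · rw [coeff_eq_zero_of_natDegree_lt hb, map_zero]
      exact zero_le
    · obtain ⟨m, hm⟩ : ∃ m, h.natDegree + 1 = b + m := ⟨h.natDegree + 1 - b, by omega⟩
      clear hb
      induction m generalizing b with
      | zero =>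
        rw [coeff_eq_zero_of_natDegree_lt (by omega), map_zero]
        exact zero_le
      | succ m ih =>
        have h1 : h.coeff b = ((X - C u) * h).coeff (b + 1) + u * h.coeff (b + 1) := by
          rw [coeff_X_sub_C_mul_succ]
          ring
        rw [h1]
        refine (ν.map_add _ _).trans (max_le (hH _) ?_)
        rw [map_mul]
        calc ν u * ν (h.coeff (b + 1)) ≤ 1 * ν (h.coeff (b + 1)) := mul_le_mul' hu (le_refl _)
          _ = ν (h.coeff (b + 1)) := one_mul _
          _ ≤ H := ih (b + 1) (by omega)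
  · rw [max_eq_right hu, ← map_mul]
    induction b with
    | zero =>
      have h1 := hH 0
      rw [coeff_X_sub_C_mul_zero, Valuation.map_neg] at h1
      exact h1
    | succ b ih =>
      have h1 : u * h.coeff (b + 1) = h.coeff b - ((X - C u) * h).coeff (b + 1) := by
        rw [coeff_X_sub_C_mul_succ]
        ring
      rw [h1]
      refine (ν.map_sub _ _).trans (max_le ?_ (hH _))
      refine le_trans ?_ ih
      rw [map_mul]
      calc ν (h.coeff b) = 1 * ν (h.coeff b) := (one_mul _).symm
        _ ≤ ν u * ν (h.coeff b) := mul_le_mul' hu (le_refl _)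

private theorem gauss_lower (ν : Valuation L Γ₀) (c : L) (s : Multiset L) (H : Γ₀)
    (hH : ∀ b, ν ((C c * (s.map fun u => X - C u).prod).coeff b) ≤ H) :
    ν c * (s.map fun u => max 1 (ν u)).prod ≤ H := by
  induction s using Multiset.induction_on generalizing H with
  | empty =>
    have h1 := hH 0
    simpa using h1
  | cons u s ih =>
    have hpos : (0 : Γ₀) < max 1 (ν u) := lt_of_lt_of_le zero_lt_one (le_max_left _ _)
    have h1 : ∀ b, ν (((X - C u) * (C c * (s.map fun u => X - C u).prod)).coeff b) ≤ H := by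
      intro b
      have h2 : (X - C u) * (C c * (s.map fun u => X - C u).prod) =
          C c * ((u ::ₘ s).map fun u => X - C u).prod := by
        rw [Multiset.map_cons, Multiset.prod_cons]
        ring
      rw [h2]
      exact hH b
    have h3 : ν c * (s.map fun u => max 1 (ν u)).prod ≤ (max 1 (ν u))⁻¹ * H := by
      refine ih _ ?_
      intro b
      rw [le_inv_mul_iff₀ hpos]
      exact down_step ν u h1 b
    rw [le_inv_mul_iff₀ hpos] at h3
    rw [Multiset.map_cons, Multiset.prod_cons]
    calc ν c * (max 1 (ν u) * (s.map fun u => max 1 (ν u)).prod)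
        = max 1 (ν u) * (ν c * (s.map fun u => max 1 (ν u)).prod) := by
          rw [mul_left_comm]
      _ ≤ H := h3

private theorem gauss_upper (ν : Valuation L Γ₀) (c : L) (s : Multiset L) (b : ℕ) :
    ν ((C c * (s.map fun u => X - C u).prod).coeff b) ≤
      ν c * (s.map fun u => max 1 (ν u)).prod := by
  induction s using Multiset.induction_on generalizing b with
  | empty =>
    rw [Multiset.map_zero, Multiset.prod_zero, mul_one, Multiset.map_zero, Multiset.prod_zero,
      mul_one, coeff_C]
    split_ifs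
    · exact le_refl _
    · rw [map_zero]
      exact zero_le
  | cons u s ih =>
    have h2 : C c * ((u ::ₘ s).map fun u => X - C u).prod =
        (X - C u) * (C c * (s.map fun u => X - C u).prod) := by
      rw [Multiset.map_cons, Multiset.prod_cons]
      ring
    rw [h2, Multiset.map_cons, Multiset.prod_cons, mul_left_comm (ν c)]
    exact up_step ν u ih b

end

theorem gauss_le {L : Type} [Field L] [IsAlgClosed L] {Γ₀ : Type}
    [LinearOrderedCommGroupWithZero Γ₀] (ν : Valuation L Γ₀) {f : L[X]} {H : Γ₀}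
    (hH : ∀ b, ν (f.coeff b) ≤ H) :
    ν f.leadingCoeff * (f.roots.map fun u => max 1 (ν u)).prod ≤ H := by
  refine gauss_lower ν _ _ H ?_
  intro b
  rw [← (IsAlgClosed.splits f).eq_prod_roots]
  exact hH b

theorem coeff_le_gauss {L : Type} [Field L] [IsAlgClosed L] {Γ₀ : Type}
    [LinearOrderedCommGroupWithZero Γ₀] (ν : Valuation L Γ₀) {f : L[X]} (b : ℕ) :
    ν (f.coeff b) ≤ ν f.leadingCoeff * (f.roots.map fun u => max 1 (ν u)).prod := by
  conv_lhs => rw [(IsAlgClosed.splits f).eq_prod_roots]
  exact gauss_upper ν _ _ b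

end Pool.Agent.H5.DG
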