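import Pool.Agent.H5.DG.BasicB

/-!
# Project DG, B2: the consequence of the Nullstellensatz

The coefficients `N.coeff b` (`b ≤ κ`) have no common zero except `0`, so by the Nullstellensatz a power of each variable
lies in the ideal they generate. `bound_below`: `max_b |N.coeff b (v)| ≥ c ‖v‖ ^ κ` (compactness of the unit
sphere and homogeneity, or the identity). `val_bound_below`: for a valuation trivial on `ℂ` and `v` with integral
coordinates, one of them a unit: some `N.coeff b (v)` is a unit (the identity `v a ^ m = ∑ G b (v) N.coeff b (v)`).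
-/

set_option autoImplicit false

open MvPolynomial

noncomputable section

namespace Pool.Agent.H5.DG

variable {n κ : ℕ} {N : Polynomial (PV n)}

private theorem nullId_zero (hN : IsPreNorm κ N) (hnd : Nondeg N) (v : Fin (n + 2) → ℂ)
    (h : ∀ b ≤ κ, MvPolynomial.eval v (N.coeff b) = 0) : v = 0 := by
  by_contra hv
  apply hnd v hv
  unfold atV
  ext b
  rw [Polynomial.coeff_map, Polynomial.coeff_zero]
  rcases le_or_gt b κ with hb | hb
  · have := h b hb
    show MvPolynomial.aeval v (N.coeff b) = 0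
    rw [MvPolynomial.aeval_eq_eval]
    exact this
  · rw [Polynomial.coeff_eq_zero_of_natDegree_lt (lt_of_le_of_lt (natDegree_le hN) hb)]
    exact map_zero _

theorem null_identity (hN : IsPreNorm κ N) (hnd : Nondeg N) (a : Fin (n + 2)) :
    ∃ (m : ℕ) (G : Fin (κ + 1) → PV n), (X a : PV n) ^ m = ∑ b, G b * N.coeff b := by
  set I : Ideal (PV n) := Ideal.span (Set.range fun b : Fin (κ + 1) => N.coeff b) with hI
  have hz : (X a : PV n) ∈ I.radical := by
    rw [← MvPolynomial.vanishingIdeal_zeroLocus_eq_radical (K := ℂ) I,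
      MvPolynomial.mem_vanishingIdeal_iff]
    intro v hv
    rw [MvPolynomial.mem_zeroLocus_iff] at hv
    have h0 : v = 0 := by
      apply nullId_zero hN hnd
      intro b hb
      have := hv (N.coeff b) (Ideal.subset_span ⟨⟨b, by omega⟩, rfl⟩)
      rwa [MvPolynomial.aeval_eq_eval] at this
    rw [h0, MvPolynomial.aeval_X]
    rfl
  obtain ⟨m, hm⟩ := hz
  rw [hI, Ideal.mem_span_range_iff_exists_fun] at hm
  obtain ⟨c, hc⟩ := hm
  exact ⟨m, c, hc.symm⟩

private theorem nullId_hom (hN : IsPreNorm κ N) (b : ℕ) (r : ℂ) (v : Fin (n + 2) → ℂ) :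
    MvPolynomial.eval (r • v) (N.coeff b) = r ^ κ * MvPolynomial.eval v (N.coeff b) := by
  rw [MvPolynomial.eval_eq', MvPolynomial.eval_eq', Finset.mul_sum]
  apply Finset.sum_congr rfl
  intro d hd
  have h1 : κ = ∑ i, d i := by
    rw [(hN.hom b).degree_eq_sum_deg_support hd]
    apply Finset.sum_subset (Finset.subset_univ _)
    intro i _ hi
    simpa using hi
  have h2 : ∏ i, (r • v) i ^ d i = r ^ κ * ∏ i, v i ^ d i := by
    conv_rhs => rw [h1, ← Finset.prod_pow_eq_pow_sum]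
    rw [← Finset.prod_mul_distrib]
    apply Finset.prod_congr rfl
    intro i _
    rw [Pi.smul_apply, smul_eq_mul, mul_pow]
  rw [h2]
  ring

private theorem nullId_unit (v : Fin (n + 2) → ℂ) :
    ∃ v' : Fin (n + 2) → ℂ, ‖v'‖ = 1 ∧ v = (‖v‖ : ℂ) • v' := by
  by_cases hv : v = 0
  · refine ⟨fun _ => 1, ?_, ?_⟩
    · rw [pi_norm_const, norm_one]
    · rw [hv]
      simp
  · have h0 : ‖v‖ ≠ 0 := norm_ne_zero_iff.mpr hv
    refine ⟨((‖v‖⁻¹ : ℝ) : ℂ) • v, ?_, ?_⟩
    · rw [norm_smul, Complex.norm_real, norm_inv, norm_norm, inv_mul_cancel₀ h0]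
    · rw [smul_smul, Complex.ofReal_inv, mul_inv_cancel₀ (by exact_mod_cast h0), one_smul]

private theorem nullId_norm (hN : IsPreNorm κ N) (b : ℕ) (v v' : Fin (n + 2) → ℂ)
    (h : v = (‖v‖ : ℂ) • v') :
    ‖MvPolynomial.eval v (N.coeff b)‖ = ‖v‖ ^ κ * ‖MvPolynomial.eval v' (N.coeff b)‖ := by
  conv_lhs => rw [h]
  rw [nullId_hom hN, norm_mul, norm_pow, Complex.norm_real, norm_norm]

private theorem nullId_cont (F : PV n) : Continuous fun v : Fin (n + 2) → ℂ =>
    ‖MvPolynomial.eval v F‖ :=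
  (MvPolynomial.continuous_eval F).norm

theorem bound_below (hN : IsPreNorm κ N) (hnd : Nondeg N) :
    ∃ c : ℝ, 0 < c ∧ ∀ v : Fin (n + 2) → ℂ, ∃ b ≤ κ,
      c * ‖v‖ ^ κ ≤ ‖MvPolynomial.eval v (N.coeff b)‖ := by
  set S : Set (Fin (n + 2) → ℂ) := Metric.sphere 0 1 with hS
  have hSc : IsCompact S := isCompact_sphere 0 1
  have hSne : S.Nonempty := by
    refine ⟨fun _ => 1, ?_⟩
    rw [hS, mem_sphere_zero_iff_norm, pi_norm_const, norm_one]
  set F : (Fin (n + 2) → ℂ) → ℝ := fun v =>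
    ∑ b ∈ Finset.range (κ + 1), ‖MvPolynomial.eval v (N.coeff b)‖ with hF
  have hFc : Continuous F := continuous_finsetSum _ fun b _ => nullId_cont _
  obtain ⟨v0, hv0, hmin⟩ := hSc.exists_isMinOn hSne hFc.continuousOn
  have hF0 : 0 < F v0 := by
    have hnn : 0 ≤ F v0 := Finset.sum_nonneg fun _ _ => norm_nonneg _
    rcases hnn.lt_or_eq with h | h
    · exact h
    · exfalso
      have h2 : ∀ b ∈ Finset.range (κ + 1), ‖MvPolynomial.eval v0 (N.coeff b)‖ = 0 :=
        (Finset.sum_eq_zero_iff_of_nonneg fun _ _ => norm_nonneg _).mp h.symm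
      have h3 : v0 = 0 := by
        apply nullId_zero hN hnd
        intro b hb
        exact norm_eq_zero.mp (h2 b (Finset.mem_range.mpr (by omega)))
      rw [hS, mem_sphere_zero_iff_norm, h3, norm_zero] at hv0
      exact zero_ne_one hv0
  refine ⟨F v0 / (κ + 1), by positivity, fun v => ?_⟩
  obtain ⟨v', hv', hvv'⟩ := nullId_unit v
  have hle : F v0 ≤ F v' := hmin (by rw [hS, mem_sphere_zero_iff_norm]; exact hv')
  -- a large term
  have hex : ∃ b ∈ Finset.range (κ + 1), F v0 / (κ + 1) ≤ ‖MvPolynomial.eval v' (N.coeff b)‖ := by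
    by_contra hcon
    push Not at hcon
    have : F v' < ∑ b ∈ Finset.range (κ + 1), F v0 / (κ + 1) :=
      Finset.sum_lt_sum_of_nonempty ⟨0, Finset.mem_range.mpr (by omega)⟩ hcon
    rw [Finset.sum_const, Finset.card_range, nsmul_eq_mul] at this
    push_cast at this
    have e : ((κ : ℝ) + 1) * (F v0 / (κ + 1)) = F v0 := by field_simp
    rw [e] at this
    linarith
  obtain ⟨b, hb, hb2⟩ := hex
  refine ⟨b, by rw [Finset.mem_range] at hb; omega, ?_⟩
  rw [nullId_norm hN b v v' hvv', mul_comm]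
  exact mul_le_mul_of_nonneg_left hb2 (by positivity)

theorem bound_above (hN : IsPreNorm κ N) :
    ∃ C : ℝ, 0 < C ∧ ∀ (v : Fin (n + 2) → ℂ) (b : ℕ),
      ‖MvPolynomial.eval v (N.coeff b)‖ ≤ C * ‖v‖ ^ κ := by
  set S : Set (Fin (n + 2) → ℂ) := Metric.sphere 0 1 with hS
  have hSc : IsCompact S := isCompact_sphere 0 1
  have hSne : S.Nonempty := by
    refine ⟨fun _ => 1, ?_⟩
    rw [hS, mem_sphere_zero_iff_norm, pi_norm_const, norm_one]
  set F : (Fin (n + 2) → ℂ) → ℝ := fun v =>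
    ∑ b ∈ Finset.range (κ + 1), ‖MvPolynomial.eval v (N.coeff b)‖ with hF
  have hFc : Continuous F := continuous_finsetSum _ fun b _ => nullId_cont _
  obtain ⟨v0, hv0, hmax⟩ := hSc.exists_isMaxOn hSne hFc.continuousOn
  have hnn : 0 ≤ F v0 := Finset.sum_nonneg fun _ _ => norm_nonneg _
  refine ⟨F v0 + 1, by linarith, fun v b => ?_⟩
  obtain ⟨v', hv', hvv'⟩ := nullId_unit v
  have hle : F v' ≤ F v0 := hmax (by rw [hS, mem_sphere_zero_iff_norm]; exact hv')
  rcases le_or_gt b κ with hb | hb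
  · have h1 : ‖MvPolynomial.eval v' (N.coeff b)‖ ≤ F v' :=
      Finset.single_le_sum (f := fun b => ‖MvPolynomial.eval v' (N.coeff b)‖)
        (fun _ _ => norm_nonneg _) (Finset.mem_range.mpr (by omega))
    rw [nullId_norm hN b v v' hvv', mul_comm]
    exact mul_le_mul_of_nonneg_right (by linarith) (by positivity)
  · rw [Polynomial.coeff_eq_zero_of_natDegree_lt (lt_of_le_of_lt (natDegree_le hN) hb), map_zero,
      norm_zero]
    positivity

private theorem nullId_int {L : Type} [Field L] [Algebra ℂ L]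
    {Γ₀ : Type} [LinearOrderedCommGroupWithZero Γ₀] (ν : Valuation L Γ₀)
    (hν : ∀ c : ℂ, c ≠ 0 → ν (algebraMap ℂ L c) = 1) (v : Fin (n + 2) → L)
    (hv : ∀ a, ν (v a) ≤ 1) (F : PV n) : ν (MvPolynomial.aeval v F) ≤ 1 := by
  induction F using MvPolynomial.induction_on with
  | C c =>
    rw [MvPolynomial.aeval_C]
    by_cases hc : c = 0
    · rw [hc, map_zero, map_zero]
      exact zero_le_one
    · exact (hν c hc).le
  | add p q hp hq =>
    rw [map_add]
    exact ν.map_add_le hp hq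
  | mul_X p i hp =>
    rw [map_mul, map_mul, MvPolynomial.aeval_X]
    exact mul_le_one' hp (hv i)

theorem val_bound_below (hN : IsPreNorm κ N) (hnd : Nondeg N) {L : Type} [Field L] [Algebra ℂ L]
    {Γ₀ : Type} [LinearOrderedCommGroupWithZero Γ₀] (ν : Valuation L Γ₀)
    (hν : ∀ c : ℂ, c ≠ 0 → ν (algebraMap ℂ L c) = 1) (v : Fin (n + 2) → L)
    (hv : ∀ a, ν (v a) ≤ 1) (hv1 : ∃ a, ν (v a) = 1) :
    (∀ b, ν (MvPolynomial.aeval v (N.coeff b)) ≤ 1) ∧
      ∃ b ≤ κ, ν (MvPolynomial.aeval v (N.coeff b)) = 1 := by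
  refine ⟨fun b => nullId_int ν hν v hv _, ?_⟩
  obtain ⟨a, ha⟩ := hv1
  obtain ⟨m, G, hG⟩ := null_identity hN hnd a
  have h1 := congrArg (fun p => ν (MvPolynomial.aeval v p)) hG
  simp only [map_pow, MvPolynomial.aeval_X, ha, one_pow, map_sum, map_mul] at h1
  by_contra hcon
  push Not at hcon
  have hlt : ν (∑ b : Fin (κ + 1), MvPolynomial.aeval v (G b) * MvPolynomial.aeval v (N.coeff b))
      < 1 := by
    apply ν.map_sum_lt one_ne_zero
    intro b _
    rw [map_mul]
    have h2 := nullId_int ν hν v hv (G b)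
    have h3 : ν (MvPolynomial.aeval v (N.coeff b)) < 1 :=
      lt_of_le_of_ne (nullId_int ν hν v hv _) (hcon b (by omega))
    calc ν (MvPolynomial.aeval v (G b)) * ν (MvPolynomial.aeval v (N.coeff b))
        ≤ 1 * ν (MvPolynomial.aeval v (N.coeff b)) := mul_le_mul_left h2 _
      _ < 1 := by rw [one_mul]; exact h3
  rw [← h1] at hlt
  exact lt_irrefl _ hlt

end Pool.Agent.H5.DG
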