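import Pool.Agent.H5.DG.ChowProd
import Pool.Agent.H5.DG.SizeLem
import Pool.Agent.H5.DG.Mahler
import Pool.Agent.H5.DG.NullId
import Pool.Agent.H5.DG.DirA

/-!
# Project DG, B6: heights and distances, valuations

`heightU`: `val_bound_below`; `size_val` and coordinates `0`, `1` give `vn ν (tpt N v u) = max 1 (ν u)`; `gauss_le`, `coeff_le_gauss`
(`roots_nodup`). `distU`: as `distA` (see `HeightA.lean`): `w_θ = θ - (dot p θ) e₀`, `φ (v, w_θ) = (dot p v) ψ_θ (v)` with a polynomial `ψ_θ` with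
complex coefficients, so `ν (ψ_θ (v)) ≤ 1`; no homogeneity is needed.
-/

open MvPolynomial

noncomputable section

namespace Pool.Agent.H5.DG

variable {n κ : ℕ} {N : Polynomial (PV n)} {φ : PVW n} {L : Type} [Field L] [Algebra ℂ L]
  [IsAlgClosed L] {Γ₀ : Type} [LinearOrderedCommGroupWithZero Γ₀]

private theorem HeightU_aeval_le {L : Type} [Field L] [Algebra ℂ L] {Γ₀ : Type}
    [LinearOrderedCommGroupWithZero Γ₀] (ν : Valuation L Γ₀)
    (hν : ∀ c : ℂ, c ≠ 0 → ν (algebraMap ℂ L c) = 1) (v : Fin (n + 2) → L)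
    (hv : ∀ a, ν (v a) ≤ 1) (ψ : PV n) : ν (MvPolynomial.aeval v ψ) ≤ 1 := by
  rw [MvPolynomial.aeval_def, MvPolynomial.eval₂_eq]
  refine ν.map_sum_le fun m _ => ?_
  rw [map_mul, map_prod]
  have h1 : ν (algebraMap ℂ L (coeff m ψ)) ≤ 1 := by
    by_cases h : coeff m ψ = 0
    · rw [h, map_zero, map_zero]
      exact zero_le_one
    · exact (hν _ h).le
  refine mul_le_one' h1 (Finset.prod_le_one' fun i _ => ?_)
  rw [map_pow]
  exact pow_le_one' (hv i) _

private theorem HeightU_vn (hκ : 1 ≤ κ) (hN : IsPreNorm κ N) (ν : Valuation L Γ₀)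
    (hν : ∀ c : ℂ, c ≠ 0 → ν (algebraMap ℂ L c) = 1) (v : Fin (n + 2) → L)
    (hΔ : MvPolynomial.aeval v (Del κ N) ≠ 0) {u : L} (hu : u ∈ rts N v) :
    vn ν (tpt N v u) = max 1 (ν u) := by
  have hf := tpt_facts hκ hN v hΔ ((mem_roots_iff hN v hΔ u).1 hu)
  apply le_antisymm
  · refine Finset.sup_le fun a _ => ?_
    have := size_val hκ hN ν hν _ hf.1 a
    rwa [hf.2.2.1] at this
  · refine max_le ?_ ?_
    · have := Finset.le_sup (f := fun a => ν (tpt N v u a)) (Finset.mem_univ 0)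
      rwa [hf.2.1, map_one] at this
    · have := Finset.le_sup (f := fun a => ν (tpt N v u a)) (Finset.mem_univ 1)
      rwa [hf.2.2.1] at this

theorem heightU (hκ : 1 ≤ κ) (hN : IsPreNorm κ N) (hnd : Nondeg N) (ν : Valuation L Γ₀)
    (hν : ∀ c : ℂ, c ≠ 0 → ν (algebraMap ℂ L c) = 1) (v : Fin (n + 2) → L)
    (hΔ : MvPolynomial.aeval v (Del κ N) ≠ 0) (hv : ∀ a, ν (v a) ≤ 1) (hv1 : ∃ a, ν (v a) = 1) :
    ν (MvPolynomial.aeval v (N.coeff κ)) * ∏ u ∈ rts N v, vn ν (tpt N v u) = 1 := by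
  classical
  have hcoef : ∀ b, (atV N v).coeff b = MvPolynomial.aeval v (N.coeff b) := fun b => by
    rw [atV, Polynomial.coeff_map]
    rfl
  obtain ⟨hle, b, -, hb⟩ := val_bound_below hN hnd ν hν v hv hv1
  have hlc := (atV_natDegree hN v (coeff_ne_zero v hΔ)).2
  have hprod : ∏ u ∈ rts N v, vn ν (tpt N v u) =
      ((atV N v).roots.map fun u => max 1 (ν u)).prod := by
    rw [Finset.prod_congr rfl fun u hu => HeightU_vn hκ hN ν hν v hΔ hu, rts, Finset.prod,
      Multiset.toFinset_val, Multiset.dedup_eq_self.2 (roots_nodup hκ hN v hΔ)]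
  rw [hprod, ← hlc]
  apply le_antisymm
  · exact gauss_le ν fun b => by rw [hcoef]; exact hle b
  · have := coeff_le_gauss ν (f := atV N v) b
    rwa [hcoef, hb] at this

theorem distU (hκ : 1 ≤ κ) (hN : IsPreNorm κ N) (hφ : IsChow κ N φ) (ν : Valuation L Γ₀)
    (hν : ∀ c : ℂ, c ≠ 0 → ν (algebraMap ℂ L c) = 1) (v : Fin (n + 2) → L)
    (hΔ : MvPolynomial.aeval v (Del κ N) ≠ 0) (hv : ∀ a, ν (v a) ≤ 1) (p : Fin (n + 2) → ℂ)
    (hp : p ∈ Gam N ℂ) :
    ν (MvPolynomial.aeval v (N.coeff κ)) * ∏ u ∈ rts N v, vn ν (tpt N v u - toL L p) ≤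
      ν (dot (toL L p) v) := by
  classical
  obtain ⟨Θ, hΘ0, hΘ⟩ := dirU n κ
  have hp0 : p 0 = 1 := hp.1
  have hfacts := fun u (hu : u ∈ rts N v) => tpt_facts hκ hN v hΔ ((mem_roots_iff hN v hΔ u).1 hu)
  obtain ⟨θ, hθ, hθx⟩ := hΘ L ν hν (rts N v) (fun u => tpt N v u - toL L p)
    (card_roots hκ hN v hΔ).le (fun u hu => by
      rw [Pi.sub_apply, (hfacts u hu).2.1, toL, hp0, map_one, sub_self])
  set w : Fin (n + 2) → ℂ := fun a => θ a - if a = 0 then dot p θ else 0 with hw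
  have hpw : dot p w = 0 := by
    rw [dot]
    simp only [hw, mul_sub, Finset.sum_sub_distrib, mul_ite, mul_zero, Finset.sum_ite_eq',
      Finset.mem_univ, if_true]
    rw [hp0, one_mul, dot, sub_self]
  obtain ⟨ψ, hψ⟩ := hφ.dvd p hp w hpw
  have hev : evVW φ v (toL L w) = dot (toL L p) v * MvPolynomial.aeval v ψ := by
    have h1 := congrArg (MvPolynomial.aeval v) hψ
    have h2 : MvPolynomial.aeval v (MvPolynomial.aeval (Sum.elim MvPolynomial.X
        fun a => MvPolynomial.C (w a)) φ) = evVW φ v (toL L w) := by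
      rw [evVW, ← AlgHom.comp_apply, MvPolynomial.comp_aeval]
      congr 2
      funext i
      rcases i with i | i
      · simp
      · simp [toL]
    rw [h2, map_mul, map_sum] at h1
    rw [h1]
    congr 1
    rw [dot]
    refine Finset.sum_congr rfl fun a _ => ?_
    rw [map_mul, MvPolynomial.aeval_X, MvPolynomial.algHom_C]
    rfl
  have hdot : ∀ u ∈ rts N v, dot (tpt N v u) (toL L w) =
      dot (toL L θ) (tpt N v u - toL L p) := by
    intro u hu
    have h1 : dot (tpt N v u) (toL L w) = dot (tpt N v u) (toL L θ) -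
        algebraMap ℂ L (dot p θ) := by
      have h2 : ∀ a, tpt N v u a * toL L w a = tpt N v u a * toL L θ a -
          if a = 0 then tpt N v u 0 * algebraMap ℂ L (dot p θ) else 0 := by
        intro a
        simp only [toL, hw, map_sub, mul_sub]
        split_ifs with h
        · rw [h]
        · rw [map_zero, mul_zero]
      rw [dot, Finset.sum_congr rfl fun a _ => h2 a, Finset.sum_sub_distrib,
        Finset.sum_ite_eq', if_pos (Finset.mem_univ _), (hfacts u hu).2.1, one_mul]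
      rfl
    rw [h1, ← dot_toL, dot, dot, dot, ← Finset.sum_sub_distrib]
    refine Finset.sum_congr rfl fun a _ => ?_
    rw [Pi.sub_apply]
    ring
  calc ν (MvPolynomial.aeval v (N.coeff κ)) * ∏ u ∈ rts N v, vn ν (tpt N v u - toL L p)
      ≤ ν (MvPolynomial.aeval v (N.coeff κ)) *
          ∏ u ∈ rts N v, ν (dot (toL L θ) (tpt N v u - toL L p)) := by
        refine mul_le_mul_right ?_ _
        exact Finset.prod_le_prod' fun u hu => hθx u hu
    _ = ν (evVW φ v (toL L w)) := by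
        rw [chow_prod hκ hN hφ.eq v (toL L w) hΔ, map_mul, map_prod]
        congr 1
        exact Finset.prod_congr rfl fun u hu => by rw [hdot u hu]
    _ = ν (dot (toL L p) v) * ν (MvPolynomial.aeval v ψ) := by rw [hev, map_mul]
    _ ≤ ν (dot (toL L p) v) * 1 := mul_le_mul_right (HeightU_aeval_le ν hν v hv ψ) _
    _ = ν (dot (toL L p) v) := mul_one _

end Pool.Agent.H5.DG
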