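import Pool.Agent.H5.DG.PhiProd
import Pool.Agent.H5.DG.HeightU
import Pool.Agent.H5.DG.CoreU
import Pool.Agent.H5.DG.DelNe

/-!
# Project DG, C2: the cluster inequality, valuations

`coreU` with `R = rts N v`, `O = outs N v T`, `t = tpt N v`, `a = ν (a (v))`; `phi_prod`, `outs_card`, `not_mem_outs`, `tpt_facts`, `heightU`, `distU`;
`hN.pre`. `p j 0 = 1` from `hp`.
-/

open MvPolynomial

noncomputable section

namespace Pool.Agent.H5.DG

variable {n κ : ℕ} {N : Polynomial (PV n)} {φ : PVW n}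

/-- **C2.** The inequality for a valuation. -/
theorem cluster_val (hκ : 1 ≤ κ) (hN : IsNormForm κ N) (hnd : Nondeg N) (hφ : IsChow κ N φ)
    {ι : Type} (J : Finset ι) (p : ι → Fin (n + 2) → ℂ) (hp : ∀ j ∈ J, p j ∈ Gam N ℂ)
    (hinj : Set.InjOn p J) (T : Finset (Fin (n + 2) → ℂ)) (hT : ∀ τ ∈ T, τ ∈ Gam N ℂ)
    (hJT : ∀ j ∈ J, p j ∉ T)
    {L : Type} [Field L] [Algebra ℂ L] [IsAlgClosed L] {Γ₀ : Type}
    [LinearOrderedCommGroupWithZero Γ₀] (ν : Valuation L Γ₀)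
    (hν : ∀ c : ℂ, c ≠ 0 → ν (algebraMap ℂ L c) = 1) (v w : Fin (n + 2) → L)
    (hv : ∀ a, ν (v a) ≤ 1) (hv1 : ∃ a, ν (v a) = 1) (hΔ : MvPolynomial.aeval v (Del κ N) ≠ 0)
    (hTv : ∀ τ ∈ T, dot (toL L τ) v = 0) (hTw : ∀ τ ∈ T, dot (toL L τ) w = 0)
    (A : ι → Γ₀) (lam : Γ₀) (hA : ∀ j ∈ J, A j ≤ 1)
    (h1 : ∀ j ∈ J, ν (dot (toL L (p j)) v) ≤ A j)
    (h2 : ∀ j ∈ J, ν (dot (toL L (p j)) w) ≤ lam * A j) (h3 : ∀ a, ν (w a) ≤ lam) :
    ν (evVW (Phi φ T.card) v w) ≤ lam ^ (κ - T.card) * ∏ j ∈ J, A j := by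
  classical
  have hp' := hN.pre
  have hsub : outs N v T ⊆ rts N v := by
    unfold outs
    exact Finset.filter_subset _ _
  have hcard := outs_card hκ hp' v hΔ T hT hTv
  have hO : (outs N v T).card = κ - T.card := by omega
  rw [phi_prod hκ hp' hφ.eq v w hΔ T hT hTv hTw, map_mul, map_prod, ← hO]
  refine coreU J p hinj (fun j hj => (hp j hj).1) T hJT ν hν (rts N v) (outs N v T)
    hsub (tpt N v) _ lam w A
    (fun u hu => (tpt_facts hκ hp' v hΔ ((mem_roots_iff hp' v hΔ u).1 hu)).2.1)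
    (fun u hu hu' => not_mem_outs hκ hp' v hΔ T hT hTv hu hu')
    (heightU hκ hp' hnd ν hν v hΔ hv hv1)
    (fun j hj => (distU hκ hp' hφ ν hν v hΔ hv (p j) (hp j hj)).trans (h1 j hj)) hA h2 h3

end Pool.Agent.H5.DG
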