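import Mathlib

/-!
# Project DG, B4: a bounded quotient of polynomials is a polynomial

Let `P, Q ∈ ℂ[x]` (finitely many variables), `Q ≠ 0`, `‖P (x)‖ ≤ B (x) ‖Q (x)‖` with `B` continuous, for all `x` with
`D (x) ≠ 0`, `D ≠ 0` a polynomial. Then `Q ∣ P`.

Proof. The set `D ≠ 0` is dense, so the inequality holds everywhere. Induction on the number of prime factors of
`Q`: if `Q` is a unit there is nothing to show. Let `q` be a prime factor, `Q = q Q'`. `P` vanishes on the zero set of `q`,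
so `q ∣ P` (Nullstellensatz: `MvPolynomial.vanishingIdeal_zeroLocus_eq_radical`, `(q)` is prime), `P = q P'`. Where `q (x) ≠ 0`
we have `‖P' (x)‖ ≤ B (x) ‖Q' (x)‖`; induction with `D * q`.
-/

open MvPolynomial

noncomputable section

namespace Pool.Agent.H5.DG

private theorem BR_dense {σ : Type} [Fintype σ] (D : MvPolynomial σ ℂ) (hD : D ≠ 0) :
    Dense {x : σ → ℂ | eval x D ≠ 0} := by
  obtain ⟨y, hy⟩ : ∃ y : σ → ℂ, eval y D ≠ 0 := by
    by_contra hcon
    push Not at hcon
    exact hD (MvPolynomial.funext fun x => by rw [hcon x, map_zero])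
  intro x₀
  let p : Polynomial ℂ :=
    aeval (fun i => Polynomial.C (x₀ i) + Polynomial.X * Polynomial.C (y i - x₀ i)) D
  have hp : ∀ t : ℂ, p.eval t = eval (fun i => x₀ i + t * (y i - x₀ i)) D := by
    intro t
    have h1 : (Polynomial.evalRingHom t).comp
        ((aeval (fun i => Polynomial.C (x₀ i) + Polynomial.X * Polynomial.C (y i - x₀ i)) :
          MvPolynomial σ ℂ →ₐ[ℂ] Polynomial ℂ) : MvPolynomial σ ℂ →+* Polynomial ℂ) =
        eval (fun i => x₀ i + t * (y i - x₀ i)) := by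
      refine MvPolynomial.ringHom_ext (fun c => ?_) fun i => ?_
      · simp [algHom_C]
      · simp
    exact congrArg (fun φ : MvPolynomial σ ℂ →+* ℂ => φ D) h1
  have hp0 : p ≠ 0 := by
    intro h0
    apply hy
    have h1 := hp 1
    rw [h0, Polynomial.eval_zero] at h1
    rw [h1]
    congr 2
    funext i
    ring
  have hfin : {t : ℂ | p.eval t = 0}.Finite := by
    refine (p.roots.toFinset.finite_toSet).subset fun t ht => ?_
    rw [Finset.mem_coe, Multiset.mem_toFinset, Polynomial.mem_roots hp0]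
    exact ht
  have hd : Dense {t : ℂ | p.eval t = 0}ᶜ := hfin.countable.dense_compl ℂ
  have hc : Continuous fun t : ℂ => fun i => x₀ i + t * (y i - x₀ i) := by fun_prop
  have h2 : (fun i => x₀ i + (0 : ℂ) * (y i - x₀ i)) ∈ closure {x : σ → ℂ | eval x D ≠ 0} := by
    refine map_mem_closure hc (hd 0) fun t ht => ?_
    show eval _ D ≠ 0
    rw [← hp]
    exact ht
  have h3 : (fun i => x₀ i + (0 : ℂ) * (y i - x₀ i)) = x₀ := by
    funext i
    ring
  rwa [h3] at h2

theorem dvd_of_bounded {σ : Type} [Fintype σ] (P Q D : MvPolynomial σ ℂ) (hQ : Q ≠ 0)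
    (hD : D ≠ 0) (B : (σ → ℂ) → ℝ) (hB : Continuous B)
    (h : ∀ x, eval x D ≠ 0 → ‖eval x P‖ ≤ B x * ‖eval x Q‖) : Q ∣ P := by
  have hmain : Q ≠ 0 → ∀ P D : MvPolynomial σ ℂ, D ≠ 0 →
      (∀ x, eval x D ≠ 0 → ‖eval x P‖ ≤ B x * ‖eval x Q‖) → Q ∣ P := by
    clear h hD hQ P D
    refine UniqueFactorizationMonoid.induction_on_prime Q (fun h0 => absurd rfl h0)
      (fun u hu _ P _ _ _ => hu.dvd) ?_
    intro Q' q hQ' hq ih _ P D hD h
    have hcont : ∀ R : MvPolynomial σ ℂ, Continuous fun x : σ → ℂ => ‖eval x R‖ := fun R =>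
      (MvPolynomial.continuous_eval R).norm
    -- the inequality holds everywhere
    have hall : ∀ x, ‖eval x P‖ ≤ B x * ‖eval x (q * Q')‖ := by
      have hcl : IsClosed {x : σ → ℂ | ‖eval x P‖ ≤ B x * ‖eval x (q * Q')‖} :=
        isClosed_le (hcont P) (hB.mul (hcont _))
      have hsub : {x : σ → ℂ | eval x D ≠ 0} ⊆
          {x : σ → ℂ | ‖eval x P‖ ≤ B x * ‖eval x (q * Q')‖} := fun x hx => h x hx
      intro x
      exact hcl.closure_subset_iff.2 hsub (BR_dense D hD x)
    have hprime : (Ideal.span {q}).IsPrime := (Ideal.span_singleton_prime hq.ne_zero).2 hq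
    have hmem : P ∈ vanishingIdeal ℂ (zeroLocus ℂ (Ideal.span {q})) := by
      rw [mem_vanishingIdeal_iff]
      intro x hx
      have h1 : eval x q = 0 := hx q (Ideal.mem_span_singleton_self q)
      have h2 := hall x
      rw [map_mul, h1, zero_mul, norm_zero, mul_zero] at h2
      exact norm_le_zero_iff.1 h2
    rw [IsPrime.vanishingIdeal_zeroLocus, Ideal.mem_span_singleton] at hmem
    obtain ⟨P', rfl⟩ := hmem
    refine mul_dvd_mul_left q (ih hQ' P' (D * q) (mul_ne_zero hD hq.ne_zero) fun x hx => ?_)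
    rw [map_mul] at hx
    have hqx : eval x q ≠ 0 := right_ne_zero_of_mul hx
    have h1 := h x (left_ne_zero_of_mul hx)
    rw [map_mul, map_mul, norm_mul, norm_mul] at h1
    have h2 : 0 < ‖eval x q‖ := norm_pos_iff.2 hqx
    have h3 : ‖eval x q‖ * ‖eval x P'‖ ≤ ‖eval x q‖ * (B x * ‖eval x Q'‖) := by
      calc ‖eval x q‖ * ‖eval x P'‖ ≤ B x * (‖eval x q‖ * ‖eval x Q'‖) := h1
        _ = ‖eval x q‖ * (B x * ‖eval x Q'‖) := by ring
    exact le_of_mul_le_mul_left h3 h2
  exact hmain hQ P D hD h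

/-- The complement of the zero set of a non-zero polynomial is dense. -/
theorem dense_ne_zero {σ : Type} [Fintype σ] (D : MvPolynomial σ ℂ) (hD : D ≠ 0) :
    Dense {x : σ → ℂ | eval x D ≠ 0} := BR_dense D hD

end Pool.Agent.H5.DG
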