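import Pool.Agent.H5.DG.ResEval
import Pool.Agent.H5.DG.SizeLem
import Pool.Agent.H5.DG.BR
import Pool.Agent.H5.DG.Mahler
import Pool.Agent.H5.DG.NullId

/-!
# Project DG, B4: existence of the Chow form

Over `ℂ`, for `Δ (v) ≠ 0`: `‖a (v) ∏ dot (tpt N v u) w‖ ≤ ‖a (v)‖ ∏ ((n + 2) C max 1 ‖u‖ ‖w‖) ≤ C' ‖v‖ ^ κ ‖w‖ ^ κ` by
`size_abs`, `mahler_le`, `bound_above`. With `resW_eq`: `‖P (v, w)‖ ≤ C' ‖v‖ ^ κ ‖w‖ ^ κ ‖Q (v)‖`, `P = a * resW`,
`Q = res0` (polynomials in `v, w` through `rename Sum.inl`); `dvd_of_bounded` with `D = rename Sum.inl (Del κ N)`. `rename` along an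
injective map is injective, so `Q ≠ 0`.
-/

open MvPolynomial

noncomputable section

namespace Pool.Agent.H5.DG

variable {n κ : ℕ} {N : Polynomial (PV n)}

private theorem norm_dot_le (t w : Fin (n + 2) → ℂ) : ‖dot t w‖ ≤ (n + 2) * ‖t‖ * ‖w‖ := by
  rw [dot]
  refine (norm_sum_le _ _).trans ?_
  refine (Finset.sum_le_sum (g := fun _ => ‖t‖ * ‖w‖) fun a _ => ?_).trans ?_
  · rw [norm_mul]
    exact mul_le_mul (norm_le_pi_norm t a) (norm_le_pi_norm w a) (norm_nonneg _) (norm_nonneg _)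
  · rw [Finset.sum_const, Finset.card_univ, Fintype.card_fin, nsmul_eq_mul]
    push_cast
    exact le_of_eq (by ring)

private theorem prod_max_le (hκ : 1 ≤ κ) (hN : IsPreNorm κ N) {C : ℝ}
    (hC : ∀ (v : Fin (n + 2) → ℂ) (b : ℕ), ‖MvPolynomial.eval v (N.coeff b)‖ ≤ C * ‖v‖ ^ κ)
    (v : Fin (n + 2) → ℂ) (hΔ : MvPolynomial.aeval v (Del κ N) ≠ 0) :
    ‖MvPolynomial.aeval v (N.coeff κ)‖ * ∏ u ∈ rts N v, max 1 ‖u‖ ≤
      (κ + 1) * (C * ‖v‖ ^ κ) := by
  classical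
  obtain ⟨h1, h2⟩ := atV_natDegree hN v (coeff_ne_zero v hΔ)
  have h3 := mahler_le (f := atV N v) h1 (H := C * ‖v‖ ^ κ) (by
    intro b
    rw [atV, Polynomial.coeff_map]
    have h4 := hC v b
    rw [← MvPolynomial.coe_aeval_eq_eval] at h4
    exact h4)
  rw [h2] at h3
  have h5 : (∏ u ∈ rts N v, max 1 ‖u‖) = ((atV N v).roots.map fun u => max 1 ‖u‖).prod := by
    rw [Finset.prod, rts, Multiset.toFinset_val,
      Multiset.dedup_eq_self.mpr (roots_nodup hκ hN v hΔ)]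
  rw [h5]
  exact h3

theorem exists_chow_eq (hκ : 1 ≤ κ) (hN : IsPreNorm κ N) (hΔ : Del κ N ≠ 0) :
    ∃ φ : PVW n, MvPolynomial.rename Sum.inl (N.coeff κ) * resW κ N =
      φ * MvPolynomial.rename Sum.inl (res0 κ N) := by
  obtain ⟨C, hC1, hC⟩ := size_abs hκ hN
  obtain ⟨C₂, hC₂0, hC₂⟩ := bound_above hN
  have hinj : Function.Injective
      (MvPolynomial.rename Sum.inl : PV n →ₐ[ℂ] PVW n) :=
    MvPolynomial.rename_injective _ Sum.inl_injective
  have hD : (MvPolynomial.rename Sum.inl (Del κ N) : PVW n) ≠ 0 := by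
    intro h
    apply hΔ
    apply hinj
    rw [h, map_zero]
  have hQ : (MvPolynomial.rename Sum.inl (res0 κ N) : PVW n) ≠ 0 := by
    intro h
    apply hΔ
    have h1 : res0 κ N = 0 := by
      apply hinj
      rw [h, map_zero]
    rw [Del, h1, mul_zero, zero_mul]
  have hdvd : (MvPolynomial.rename Sum.inl (res0 κ N) : PVW n) ∣
      MvPolynomial.rename Sum.inl (N.coeff κ) * resW κ N := by
    refine dvd_of_bounded _ _ (MvPolynomial.rename Sum.inl (Del κ N)) hQ hD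
      (fun x => ((n + 2) * C * ‖x‖) ^ κ * ((κ + 1) * (C₂ * ‖x‖ ^ κ))) (by fun_prop) ?_
    intro x hx
    obtain ⟨v, hv⟩ : ∃ v : Fin (n + 2) → ℂ, v = fun a => x (Sum.inl a) := ⟨_, rfl⟩
    obtain ⟨w, hw⟩ : ∃ w : Fin (n + 2) → ℂ, w = fun a => x (Sum.inr a) := ⟨_, rfl⟩
    have hxe : x = Sum.elim v w := by
      funext i
      rcases i with a | a
      · rw [hv]; rfl
      · rw [hw]; rfl
    have hvn : ‖v‖ ≤ ‖x‖ := by
      rw [pi_norm_le_iff_of_nonneg (norm_nonneg _)]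
      intro a
      rw [hv]
      exact norm_le_pi_norm x (Sum.inl a)
    have hwn : ‖w‖ ≤ ‖x‖ := by
      rw [pi_norm_le_iff_of_nonneg (norm_nonneg _)]
      intro a
      rw [hw]
      exact norm_le_pi_norm x (Sum.inr a)
    have hev : ∀ F : PV n, MvPolynomial.eval x (MvPolynomial.rename Sum.inl F : PVW n) =
        MvPolynomial.aeval v F := by
      intro F
      rw [MvPolynomial.eval_rename, hxe, ← MvPolynomial.coe_aeval_eq_eval]
      rfl
    rw [hev] at hx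
    have h1 := resW_eq hκ hN v w hx
    have h2 : MvPolynomial.eval x (resW κ N) = evVW (resW κ N) v w := by
      rw [evVW, ← hxe, ← MvPolynomial.coe_aeval_eq_eval]
      rfl
    rw [map_mul, hev, hev, h2, h1, norm_mul]
    refine mul_le_mul_of_nonneg_right ?_ (norm_nonneg _)
    rw [norm_mul, norm_prod]
    have h3 : ∏ u ∈ rts N v, ‖dot (tpt N v u) w‖ ≤
        ∏ u ∈ rts N v, ((n + 2) * C * ‖x‖) * max 1 ‖u‖ := by
      refine Finset.prod_le_prod (fun u _ => norm_nonneg _) ?_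
      intro u hu
      rw [mem_roots_iff hN v hx] at hu
      obtain ⟨g1, g2, g3, g4, g5, g6⟩ := tpt_facts hκ hN v hx hu
      have h4 := hC _ g1
      rw [g3] at h4
      refine (norm_dot_le _ _).trans ?_
      calc (n + 2 : ℝ) * ‖tpt N v u‖ * ‖w‖ ≤ (n + 2 : ℝ) * (C * max 1 ‖u‖) * ‖x‖ := by
            refine mul_le_mul ?_ hwn (norm_nonneg _) (by positivity)
            exact mul_le_mul_of_nonneg_left h4 (by positivity)
        _ = ((n + 2) * C * ‖x‖) * max 1 ‖u‖ := by ring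
    rw [Finset.prod_mul_distrib, Finset.prod_const, card_roots hκ hN v hx] at h3
    calc ‖MvPolynomial.aeval v (N.coeff κ)‖ * ∏ u ∈ rts N v, ‖dot (tpt N v u) w‖
        ≤ ‖MvPolynomial.aeval v (N.coeff κ)‖ *
          (((n + 2) * C * ‖x‖) ^ κ * ∏ u ∈ rts N v, max 1 ‖u‖) :=
          mul_le_mul_of_nonneg_left h3 (norm_nonneg _)
      _ = ((n + 2) * C * ‖x‖) ^ κ *
          (‖MvPolynomial.aeval v (N.coeff κ)‖ * ∏ u ∈ rts N v, max 1 ‖u‖) := by ring
      _ ≤ ((n + 2) * C * ‖x‖) ^ κ * ((κ + 1) * (C₂ * ‖x‖ ^ κ)) := by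
          refine mul_le_mul_of_nonneg_left ?_ (by positivity)
          refine (prod_max_le hκ hN hC₂ v hx).trans ?_
          gcongr
  obtain ⟨φ, hφ⟩ := hdvd
  exact ⟨φ, by rw [hφ, mul_comm]⟩

end Pool.Agent.H5.DG
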