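import Pool.Agent.H5.DG.Cop

/-!
# Project DG, B2: nondegeneracy

Let `w ≠ 0` be a complex vector with `N (w; ·) = 0`. Let `g b ∈ ℂ[v][u]` be the coefficient of `λ ^ b` in
`N (v + λ w; u)`, `b ≥ 1`; its coefficients are homogeneous of degree `κ - b` in `v` (or zero). Suppose `g b ≠ 0`.
`exists_bezout`: `A N + B g_b = R (v) ≠ 0`. For each `u ∈ ℂ` write `N (·; u) = ∏ t_s` (`split`); some `t_s (w) = 0`, and then
`N (·; u)` and `g b (·; u)` vanish on the hyperplane `t_s = 0` (`N (v + λ w; u) = ∏ (t_s v + λ t_s w)`, where the factor `t_s v` does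
not involve `λ`), so `R` vanishes on this hyperplane. These hyperplanes are different for different `u` (`t_s 0 = 1`,
`t_s 1 = u`), and a non-zero polynomial vanishes on finitely many hyperplanes only (restrict to a line `v + x w'` that is
contained in none and on which `R` is not zero; or divisibility by pairwise coprime linear forms). So `g b = 0` for
all `b ≥ 1`: `N (v + λ w; u) = N (v; u)` identically. For `u = p j 1` and all factors `t_s` of `N (·; u)` this gives
`t_s (w) = 0`: choose `v` with `t_s v ≠ 0` for all `s`; `∏ (t_s v + λ t_s w)` is constant in `λ`. In particular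
`dot (p j) w = 0` (`mem_Gam_iff`), so `w = 0` by `hspan`.

(Proof below: only `b = 1` is needed, i.e. `g = ∑ w a * dN a N`.)
-/

open MvPolynomial

noncomputable section

namespace Pool.Agent.H5.DG

variable {n κ : ℕ} {N : Polynomial (PV n)}

/-- the derivative in the direction `w` -/
private def NonDeg_g (w : Fin (n + 2) → ℂ) (N : Polynomial (PV n)) : Polynomial (PV n) :=
  ∑ a, Polynomial.C (MvPolynomial.C (w a)) * dN a N

private lemma NonDeg_val_mul (A B : Polynomial (PV n)) (v : Fin (n + 2) → ℂ) (u : ℂ) :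
    val (A * B) v u = val A v u * val B v u := by
  unfold val atV
  rw [Polynomial.map_mul, Polynomial.eval_mul]

private lemma NonDeg_val_add (A B : Polynomial (PV n)) (v : Fin (n + 2) → ℂ) (u : ℂ) :
    val (A + B) v u = val A v u + val B v u := by
  unfold val atV
  rw [Polynomial.map_add, Polynomial.eval_add]

private lemma NonDeg_val_C (R : PV n) (v : Fin (n + 2) → ℂ) (u : ℂ) :
    val (Polynomial.C R) v u = MvPolynomial.eval v R := by
  unfold val atV
  rw [Polynomial.map_C, Polynomial.eval_C]
  show MvPolynomial.aeval v R = _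
  rw [MvPolynomial.aeval_eq_eval]

private lemma NonDeg_val_g (w v : Fin (n + 2) → ℂ) (u : ℂ) :
    val (NonDeg_g w N) v u = ∑ a, w a * val (dN a N) v u := by
  have h : ∀ s : Finset (Fin (n + 2)),
      val (∑ a ∈ s, Polynomial.C (MvPolynomial.C (w a)) * dN a N) v u =
        ∑ a ∈ s, w a * val (dN a N) v u := by
    intro s
    classical
    induction s using Finset.induction_on with
    | empty =>
      rw [Finset.sum_empty, Finset.sum_empty]
      unfold val atV
      rw [Polynomial.map_zero, Polynomial.eval_zero]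
    | insert a s ha ih =>
      rw [Finset.sum_insert ha, Finset.sum_insert ha, NonDeg_val_add, ih, NonDeg_val_mul,
        NonDeg_val_C, MvPolynomial.eval_C]
  exact h Finset.univ

private lemma NonDeg_val_split {u : ℂ} {t : Fin κ → Fin (n + 2) → ℂ}
    (ht : ∀ w : Fin (n + 2) → ℂ, val N w u = ∏ s, dot (t s) w) (w v : Fin (n + 2) → ℂ) :
    val (NonDeg_g w N) v u =
      ∑ s, dot (t s) w * ∏ s' ∈ Finset.univ.erase s, dot (t s') v := by
  rw [NonDeg_val_g]
  have h1 : ∀ a, w a * val (dN a N) v u =
      ∑ s, w a * (t s a * ∏ s' ∈ Finset.univ.erase s, dot (t s') v) := by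
    intro a
    rw [val_dN_of_split ht a v, Finset.mul_sum]
  simp only [h1]
  rw [Finset.sum_comm]
  refine Finset.sum_congr rfl fun s _ => ?_
  unfold dot
  rw [Finset.sum_mul]
  refine Finset.sum_congr rfl fun a _ => ?_
  ring

private lemma NonDeg_hom (hN : IsNormForm κ N) (w : Fin (n + 2) → ℂ) (i : ℕ) :
    ((NonDeg_g w N).coeff i).IsHomogeneous (κ - 1) := by
  unfold NonDeg_g
  rw [Polynomial.finsetSum_coeff]
  refine MvPolynomial.IsHomogeneous.sum _ _ _ fun a _ => ?_
  rw [Polynomial.coeff_C_mul, coeff_dN]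
  have h1 := (hN.hom i).pderiv (i := a)
  have h2 := (MvPolynomial.isHomogeneous_C (Fin (n + 2)) (w a)).mul h1
  rw [zero_add] at h2
  exact h2

/-- a polynomial that vanishes on infinitely many hyperplanes is zero -/
private lemma NonDeg_hyp (R : PV n)
    (h : ∀ u : ℂ, ∃ τ : Fin (n + 2) → ℂ, τ 0 = 1 ∧ τ 1 = u ∧
      ∀ v : Fin (n + 2) → ℂ, dot τ v = 0 → MvPolynomial.eval v R = 0) : R = 0 := by
  choose τ h0 h1 h2 using h
  set P := MvPolynomial.finSuccEquiv ℂ (n + 1) R with hP
  have hinj : P = 0 → R = 0 := by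
    intro h
    have := (MvPolynomial.finSuccEquiv ℂ (n + 1)).injective (a₁ := R) (a₂ := 0)
    apply this
    rw [map_zero]
    exact h
  apply hinj
  apply Polynomial.eq_zero_of_infinite_isRoot
  set q : ℂ → MvPolynomial (Fin (n + 1)) ℂ :=
    fun u => -∑ a : Fin (n + 1), MvPolynomial.C (τ u a.succ) * MvPolynomial.X a with hq
  have hqe : ∀ u y, MvPolynomial.eval y (q u) = -∑ a : Fin (n + 1), τ u a.succ * y a := by
    intro u y
    simp only [hq, map_neg, map_sum, map_mul, MvPolynomial.eval_C, MvPolynomial.eval_X]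
  have hroot : ∀ u, q u ∈ {x | P.IsRoot x} := by
    intro u
    show P.eval (q u) = 0
    apply MvPolynomial.funext
    intro y
    rw [map_zero]
    have h3 := MvPolynomial.eval_eq_eval_mv_eval' y (MvPolynomial.eval y (q u)) R
    have h4 := Polynomial.hom_eval₂ P (RingHom.id _) (MvPolynomial.eval y) (q u)
    rw [RingHom.comp_id, Polynomial.eval₂_id] at h4
    rw [← hP, Polynomial.eval_map, ← h4] at h3
    rw [← h3]
    apply h2 u
    unfold dot
    rw [Fin.sum_univ_succ]
    rw [Fin.cons_zero, h0 u, one_mul, hqe]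
    simp only [Fin.cons_succ]
    ring
  have hqinj : Function.Injective q := by
    intro u u' huu
    have h3 := hqe u (Pi.single 0 1)
    have h4 := hqe u' (Pi.single 0 1)
    rw [huu, h4] at h3
    have h5 : ∀ c : ℂ, ∑ a : Fin (n + 1), τ c a.succ * (Pi.single 0 1 : Fin (n + 1) → ℂ) a = c := by
      intro c
      rw [Finset.sum_eq_single 0]
      · rw [Pi.single_eq_same, mul_one]
        exact h1 c
      · intro b _ hb
        rw [Pi.single_eq_of_ne hb, mul_zero]
      · intro hh
        exact absurd (Finset.mem_univ _) hh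
    rw [h5, h5] at h3
    exact (neg_injective h3).symm
  exact Set.infinite_of_injective_forall_mem hqinj hroot

private lemma NonDeg_ne (hN : IsNormForm κ N) {p : Fin (n + 2) → ℂ} (hp : p ∈ Gam N ℂ)
    {w : Fin (n + 2) → ℂ} (hw : dot p w ≠ 0) : NonDeg_g w N ≠ 0 := by
  intro hg
  obtain ⟨t, ht1, ht⟩ := hN.split ℂ (p 1)
  obtain ⟨s1, hs1⟩ := (mem_Gam_iff ht1 ht p rfl).1 hp
  set P : Polynomial ℂ := ∏ s, (1 + Polynomial.C (dot (t s) w) * Polynomial.X) with hP
  set e0' : Fin (n + 2) → ℂ := Pi.single 0 1 with he0'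
  have hv : ∀ (s : Fin κ) (x : ℂ), dot (t s) (fun a => e0' a + x * w a) =
      1 + dot (t s) w * x := by
    intro s x
    unfold dot
    have h1 : ∀ a, t s a * (e0' a + x * w a) =
        t s a * e0' a + t s a * w a * x := by
      intro a
      ring
    simp only [h1]
    rw [Finset.sum_add_distrib, ← Finset.sum_mul]
    congr 1
    rw [Finset.sum_eq_single 0]
    · rw [he0', Pi.single_eq_same, mul_one]
      exact (ht1 s).1
    · intro b _ hb
      rw [he0', Pi.single_eq_of_ne hb, mul_zero]
    · intro hh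
      exact absurd (Finset.mem_univ _) hh
  have hder : Polynomial.derivative P = 0 := by
    apply Polynomial.funext
    intro x
    rw [Polynomial.eval_zero, hP, Polynomial.derivative_prod_finset, Polynomial.eval_finsetSum]
    have h1 := NonDeg_val_split ht w (fun a => e0' a + x * w a)
    rw [hg] at h1
    have h2 : val (0 : Polynomial (PV n)) (fun a => e0' a + x * w a) (p 1) = 0 := by
      unfold val atV
      rw [Polynomial.map_zero, Polynomial.eval_zero]
    rw [h2] at h1
    rw [h1]
    refine Finset.sum_congr rfl fun s _ => ?_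
    rw [Polynomial.eval_mul, Polynomial.eval_prod]
    have h3 : Polynomial.derivative (1 + Polynomial.C (dot (t s) w) * Polynomial.X) =
        Polynomial.C (dot (t s) w) := by
      simp
    rw [h3, Polynomial.eval_C, mul_comm]
    congr 1
    refine Finset.prod_congr rfl fun s' _ => ?_
    rw [hv s' x]
    simp
  have hconst : P = Polynomial.C (P.coeff 0) :=
    Polynomial.eq_C_of_natDegree_eq_zero (Polynomial.derivative_eq_zero.1 hder)
  have e0 : P.eval 0 = 1 := by
    rw [hP, Polynomial.eval_prod]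
    refine Finset.prod_eq_one fun s _ => ?_
    simp
  have hc : dot (t s1) w ≠ 0 := by
    rw [← hs1]
    exact hw
  have e1 : P.eval (-(dot (t s1) w)⁻¹) = 0 := by
    rw [hP, Polynomial.eval_prod]
    refine Finset.prod_eq_zero (Finset.mem_univ s1) ?_
    simp only [Polynomial.eval_add, Polynomial.eval_one, Polynomial.eval_mul, Polynomial.eval_C,
      Polynomial.eval_X]
    rw [mul_neg, mul_inv_cancel₀ hc]
    ring
  rw [hconst, Polynomial.eval_C] at e0 e1
  rw [e0] at e1
  exact one_ne_zero e1

theorem nondeg_of_span (hκ : 1 ≤ κ) (hN : IsNormForm κ N) {ι : Type} (J : Finset ι)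
    (p : ι → Fin (n + 2) → ℂ) (hp : ∀ j ∈ J, p j ∈ Gam N ℂ)
    (hspan : ∀ w : Fin (n + 2) → ℂ, (∀ j ∈ J, dot (p j) w = 0) → w = 0) : Nondeg N := by
  intro w hw hNw
  apply hw
  apply hspan
  intro j hj
  by_contra hjw
  have hg := NonDeg_ne hN (hp j hj) hjw
  obtain ⟨A, B, R, hR, hAB⟩ := exists_bezout hκ hN hg (Or.inl (by
    intro i _
    have h1 := (NonDeg_hom hN w i).totalDegree_le
    omega))
  apply hR
  apply NonDeg_hyp
  intro u
  obtain ⟨t, ht1, ht⟩ := hN.split ℂ u
  have h0 : ∏ s, dot (t s) w = 0 := by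
    rw [← ht w]
    unfold val
    rw [hNw, Polynomial.eval_zero]
  obtain ⟨s0, -, hs0⟩ := Finset.prod_eq_zero_iff.1 h0
  refine ⟨t s0, (ht1 s0).1, (ht1 s0).2, ?_⟩
  intro v hv
  have h1 : val N v u = 0 := by
    rw [ht v]
    exact Finset.prod_eq_zero (Finset.mem_univ s0) hv
  have h2 : val (NonDeg_g w N) v u = 0 := by
    rw [NonDeg_val_split ht w v]
    refine Finset.sum_eq_zero fun s _ => ?_
    by_cases hs : s = s0
    · rw [hs, hs0, zero_mul]
    · rw [Finset.prod_eq_zero (Finset.mem_erase.2 ⟨Ne.symm hs, Finset.mem_univ s0⟩) hv, mul_zero]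
  have h3 := NonDeg_val_C R v u
  rw [← hAB, NonDeg_val_add, NonDeg_val_mul, NonDeg_val_mul, h1, h2] at h3
  rw [← h3]
  ring

end Pool.Agent.H5.DG
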