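import Mathlib

/-!
# Project DG, E2: extension of derivations to the algebraic closure

A derivation of a field `K` of characteristic `0` extends (uniquely) to an algebraic extension (e.g. `Algebra.FormallyEtale` and
`KaehlerDifferential.tensorKaehlerEquivOfFormallyEtale`, or `Differential` of algebraic extensions in Mathlib). Constants: let `x ∈ L` with
`D' i x = 0` for all `i`, and `f = X ^ s + ∑_{k < s} c_k X ^ k` its minimal polynomial over `K`. Then `0 = D' i (f (x)) = ∑_{k < s} D i (c_k) x ^ k`, so
`D i (c_k) = 0` for all `i, k` (degree less than `s`), so `c_k ∈ ℂ`, and `x` is algebraic over `ℂ`, so `x ∈ ℂ`.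
-/

noncomputable section

namespace Pool.Agent.H5.DG

theorem exists_derivation_ext {K L : Type} [Field K] [Field L] [Algebra ℂ K] [Algebra ℂ L]
    [Algebra K L] [IsScalarTower ℂ K L] [Algebra.IsAlgebraic K L] (D : Derivation ℂ K K) :
    ∃ D' : Derivation ℂ L L, ∀ x : K, D' (algebraMap K L x) = algebraMap K L (D x) := by
  have : CharZero K := charZero_of_injective_algebraMap (algebraMap ℂ K).injective
  have : Algebra.FormallyEtale K L := Algebra.FormallyEtale.of_isSeparable K L
  let l : Ω[K⁄ℂ] →ₗ[K] L := (Algebra.linearMap K L).comp D.liftKaehlerDifferential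
  let e := KaehlerDifferential.tensorKaehlerEquivOfFormallyEtale ℂ K L
  let l' : Ω[L⁄ℂ] →ₗ[L] L := (l.liftBaseChange L).comp e.symm.toLinearMap
  refine ⟨l'.compDer (KaehlerDifferential.D ℂ L), fun x => ?_⟩
  change l.liftBaseChange L (e.symm (KaehlerDifferential.D ℂ L (algebraMap K L x))) = _
  rw [KaehlerDifferential.tensorKaehlerEquivOfFormallyEtale_symm_D_algebraMap,
    LinearMap.liftBaseChange_tmul, one_smul]
  change algebraMap K L (D.liftKaehlerDifferential (KaehlerDifferential.D ℂ K x)) = _
  rw [Derivation.liftKaehlerDifferential_comp_D]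

private lemma DerExt_aeval {K L : Type} [Field K] [Field L] [Algebra ℂ K] [Algebra ℂ L]
    [Algebra K L] [IsScalarTower ℂ K L] (D : Derivation ℂ K K) (D' : Derivation ℂ L L)
    (h : ∀ x : K, D' (algebraMap K L x) = algebraMap K L (D x)) (x : L) (hx : D' x = 0)
    (p : Polynomial K) :
    D' (Polynomial.aeval x p) =
      Polynomial.aeval x (∑ k ∈ Finset.range (p.natDegree + 1),
        Polynomial.monomial k (D (p.coeff k))) := by
  have hpow : ∀ k : ℕ, D' (x ^ k) = 0 := by
    intro k
    rw [Derivation.leibniz_pow, hx, smul_zero, smul_zero]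
  rw [Polynomial.aeval_eq_sum_range, map_sum, map_sum]
  apply Finset.sum_congr rfl
  intro k _
  rw [Polynomial.aeval_monomial, Algebra.smul_def, Derivation.leibniz, hpow, smul_zero, zero_add, h,
    smul_eq_mul, mul_comm]

theorem exists_derivations_ext {K L : Type} [Field K] [Field L] [Algebra ℂ K] [Algebra ℂ L]
    [Algebra K L] [IsScalarTower ℂ K L] [Algebra.IsAlgebraic K L] {m : ℕ}
    (D : Fin m → Derivation ℂ K K)
    (hD : ∀ f : K, (∀ i, D i f = 0) → ∃ c : ℂ, f = algebraMap ℂ K c) :
    ∃ D' : Fin m → Derivation ℂ L L,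
      (∀ i (x : K), D' i (algebraMap K L x) = algebraMap K L (D i x)) ∧
      ∀ f : L, (∀ i, D' i f = 0) → ∃ c : ℂ, f = algebraMap ℂ L c := by
  choose D' hD' using fun i => exists_derivation_ext (L := L) (D i)
  refine ⟨D', hD', fun x hx => ?_⟩
  have hint : IsIntegral K x := Algebra.IsIntegral.isIntegral x
  have hmon := minpoly.monic hint
  have h1 : ∀ i k, D i ((minpoly K x).coeff k) = 0 := by
    intro i
    set q : Polynomial K := ∑ k ∈ Finset.range ((minpoly K x).natDegree + 1),
      Polynomial.monomial k (D i ((minpoly K x).coeff k)) with hq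
    have hcoeff : ∀ k, q.coeff k = D i ((minpoly K x).coeff k) := by
      intro k
      rw [hq, Polynomial.finsetSum_coeff]
      simp only [Polynomial.coeff_monomial]
      rw [Finset.sum_ite_eq']
      split_ifs with hk
      · rfl
      · rw [Finset.mem_range, not_lt] at hk
        rw [Polynomial.coeff_eq_zero_of_natDegree_lt (by omega), map_zero]
    have h2 : Polynomial.aeval x q = 0 := by
      rw [hq, ← DerExt_aeval (D i) (D' i) (hD' i) x (hx i), minpoly.aeval, map_zero]
    have h3 : q = 0 := by
      by_contra hne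
      have h4 := minpoly.degree_le_of_ne_zero K x hne h2
      have h5 : q.natDegree < (minpoly K x).natDegree := by
        have h6 : q.coeff (minpoly K x).natDegree = 0 := by
          rw [hcoeff, hmon.coeff_natDegree, Derivation.map_one_eq_zero]
        have h7 : q.natDegree ≤ (minpoly K x).natDegree := by
          rw [Polynomial.natDegree_le_iff_coeff_eq_zero]
          intro k hk
          rw [hcoeff, Polynomial.coeff_eq_zero_of_natDegree_lt hk, map_zero]
        rcases h7.lt_or_eq with h8 | h8
        · exact h8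
        · exfalso
          rw [← h8] at h6
          exact hne (Polynomial.leadingCoeff_eq_zero.1 h6)
      have h6 := Polynomial.natDegree_le_natDegree h4
      omega
    intro k
    rw [← hcoeff, h3, Polynomial.coeff_zero]
  have h2 : minpoly K x ∈ Polynomial.lifts (algebraMap ℂ K) := by
    rw [Polynomial.lifts_iff_coeff_lifts]
    intro k
    obtain ⟨c, hc⟩ := hD _ fun i => h1 i k
    exact ⟨c, hc.symm⟩
  obtain ⟨g, hg1, _, hg2⟩ := Polynomial.lifts_and_natDegree_eq_and_monic h2 hmon
  have h3 : IsIntegral ℂ x := by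
    refine ⟨g, hg2, ?_⟩
    rw [← Polynomial.aeval_def, ← Polynomial.aeval_map_algebraMap K x g, hg1, minpoly.aeval]
  have h4 := IsAlgClosed.degree_eq_one_of_irreducible ℂ (minpoly.irreducible h3)
  obtain ⟨c, hc⟩ := minpoly.mem_range_of_degree_eq_one ℂ x h4
  exact ⟨c, hc.symm⟩

end Pool.Agent.H5.DG
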