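import Pool.Agent.H5.DG.Consts
import Pool.Agent.H5.DG.DerExt

/-!
# Project DG, E2: non-vanishing, algebraic form

`derivation_root`: apply the derivation `D` of `L` to `N (v; u) = 0`: `∑ a, val (dN a N) v u * D (v a) + (derivative (atV N v)).eval u * D u = 0`
(`D` kills the complex coefficients of `N`).

`phi_ne_zero`: let `L = AlgebraicClosure K`, `D'` the extended derivations (`exists_derivations_ext`), `v` regarded in `L`. For `u ∈ outs N v T` some
`D' i u ≠ 0`: otherwise `u` is complex, `u = c`, and `tpt_complex` gives `τ ∈ Gam N ℂ` with `τ 1 = c`, `dot τ v = 0`, so `τ ∈ T` by `hT`, contradiction to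
`u ∈ outs`. So `dot (tpt N v u) (D' i v) ≠ 0` for this `i` (`tpt_facts`, `derivation_root`, `derivative_ne_zero`). The polynomials
`∑ i, X i * dot (tpt N v u) (D' i v)`, `u ∈ outs N v T`, in `L[X]` are not zero, so their product does not vanish at some `lam ∈ ℂ^m` (`ℂ` is an infinite
subset of `L`: `MvPolynomial.funext_set` or the like; or induction / finite union of proper subspaces of `ℂ^m`). For `w = ∑ lam i D i v`:
`dot τ w = 0` for `τ ∈ T` (apply `D i` to `dot τ v = 0`); `phi_prod`, `coeff_ne_zero`.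
-/

open MvPolynomial

noncomputable section

namespace Pool.Agent.H5.DG

variable {n κ : ℕ} {N : Polynomial (PV n)} {φ : PVW n}

private theorem PhiNe_aeval_deriv {L : Type} [Field L] [Algebra ℂ L] (D : Derivation ℂ L L)
    (v : Fin (n + 2) → L) (p : PV n) :
    D (MvPolynomial.aeval v p) = ∑ a, MvPolynomial.aeval v (pderiv a p) * D (v a) := by
  induction p using MvPolynomial.induction_on with
  | C c =>
    simp only [pderiv_C, map_zero, zero_mul, Finset.sum_const_zero]
    rw [← MvPolynomial.algebraMap_eq, AlgHom.commutes, D.map_algebraMap]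
  | add p q hp hq =>
    simp only [map_add, hp, hq, add_mul, Finset.sum_add_distrib]
  | mul_X p b hp =>
    rw [map_mul, D.leibniz, hp, MvPolynomial.aeval_X]
    simp only [smul_eq_mul, Derivation.leibniz, pderiv_X, map_add, map_mul, MvPolynomial.aeval_X,
      add_mul, Finset.sum_add_distrib]
    have h1 : ∀ a : Fin (n + 2), (MvPolynomial.aeval v) ((Pi.single a 1 : Fin (n + 2) → PV n) b) =
        if a = b then 1 else 0 := by
      intro a
      by_cases h : a = b
      · subst h; simp
      · rw [Pi.single_eq_of_ne (Ne.symm h)]; simp [h]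
    simp only [h1]
    congr 1
    · rw [Finset.sum_eq_single b (fun a _ hab => by simp [hab]) (fun h => absurd (Finset.mem_univ b) h)]
      simp
    · rw [Finset.mul_sum]
      exact Finset.sum_congr rfl fun a _ => by ring

theorem derivation_root {L : Type} [Field L] [Algebra ℂ L] (D : Derivation ℂ L L)
    (v : Fin (n + 2) → L) (u : L) (hu : val N v u = 0) :
    ∑ a, val (dN a N) v u * D (v a) + (Polynomial.derivative (atV N v)).eval u * D u = 0 := by
  have h1 : val N v u = ∑ i ∈ N.support, MvPolynomial.aeval v (N.coeff i) * u ^ i := by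
    rw [val, atV, Polynomial.eval_map, Polynomial.eval₂_eq_sum, Polynomial.sum_def]
    rfl
  have h2 : ∀ a, val (dN a N) v u =
      ∑ i ∈ N.support, MvPolynomial.aeval v (pderiv a (N.coeff i)) * u ^ i := by
    intro a
    rw [val, atV, dN, Polynomial.map_sum, Polynomial.eval_finsetSum]
    refine Finset.sum_congr rfl fun i _ => ?_
    rw [Polynomial.map_monomial, Polynomial.eval_monomial]
    rfl
  have h3 : (Polynomial.derivative (atV N v)).eval u =
      ∑ i ∈ N.support, MvPolynomial.aeval v (N.coeff i) * (i * u ^ (i - 1)) := by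
    have : atV N v = ∑ i ∈ N.support, Polynomial.monomial i (MvPolynomial.aeval v (N.coeff i)) := by
      conv_lhs => rw [atV, N.as_sum_support, Polynomial.map_sum]
      refine Finset.sum_congr rfl fun i _ => ?_
      rw [Polynomial.map_monomial]
      rfl
    rw [this, Polynomial.derivative_sum, Polynomial.eval_finsetSum]
    refine Finset.sum_congr rfl fun i _ => ?_
    rw [Polynomial.derivative_monomial, Polynomial.eval_monomial]
    ring
  have h4 : D (val N v u) = 0 := by rw [hu, map_zero]
  rw [h1, map_sum] at h4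
  rw [← h4, h3]
  simp only [h2, Finset.sum_mul]
  rw [Finset.sum_comm, ← Finset.sum_add_distrib]
  refine Finset.sum_congr rfl fun i _ => ?_
  rw [D.leibniz, PhiNe_aeval_deriv, D.leibniz_pow]
  simp only [smul_eq_mul, nsmul_eq_mul, Finset.mul_sum]
  rw [add_comm]
  congr 1
  · ring
  · exact Finset.sum_congr rfl fun a _ => by ring

private theorem PhiNe_dot_sum {L : Type} [Field L] {m k : ℕ} (t : Fin k → L) (c : Fin m → L)
    (w : Fin m → Fin k → L) : dot t (fun a => ∑ i, c i * w i a) = ∑ i, c i * dot t (w i) := by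
  simp only [dot, Finset.mul_sum]
  rw [Finset.sum_comm]
  exact Finset.sum_congr rfl fun i _ => Finset.sum_congr rfl fun a _ => by ring

private theorem PhiNe_dot_map {K L : Type} [Field K] [Field L] [Algebra K L] [Algebra ℂ K]
    [Algebra ℂ L] [IsScalarTower ℂ K L] {k : ℕ} (τ : Fin k → ℂ) (v : Fin k → K) :
    dot (toL L τ) (fun a => algebraMap K L (v a)) = algebraMap K L (dot (toL K τ) v) := by
  simp only [dot, toL, map_sum, map_mul]
  refine Finset.sum_congr rfl fun a _ => ?_
  rw [IsScalarTower.algebraMap_apply ℂ K L]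

/-- **E2.** Non-vanishing, algebraic form. -/
theorem phi_ne_zero (hκ : 1 ≤ κ) (hN : IsNormForm κ N) (hφ : IsChow κ N φ) {K : Type} [Field K]
    [Algebra ℂ K] {m : ℕ} (D : Fin m → Derivation ℂ K K)
    (hD : ∀ f : K, (∀ i, D i f = 0) → ∃ c : ℂ, f = algebraMap ℂ K c)
    (v : Fin (n + 2) → K) (hΔ : MvPolynomial.aeval v (Del κ N) ≠ 0)
    (T : Finset (Fin (n + 2) → ℂ)) (hT : ∀ τ, τ ∈ T ↔ τ ∈ Gam N ℂ ∧ dot (toL K τ) v = 0) :
    ∃ lam : Fin m → ℂ, evVW (Phi φ T.card) v
      (fun a => ∑ i, algebraMap ℂ K (lam i) * D i (v a)) ≠ 0 := by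
  classical
  obtain ⟨D', hD'1, hD'2⟩ := exists_derivations_ext (K := K) (L := AlgebraicClosure K) D hD
  have hN' : IsPreNorm κ N := hN.pre
  set v' : Fin (n + 2) → AlgebraicClosure K := fun a => algebraMap K (AlgebraicClosure K) (v a)
    with hv'
  have hmap : ∀ p : PV n, MvPolynomial.aeval v' p =
      algebraMap K (AlgebraicClosure K) (MvPolynomial.aeval v p) := fun p =>
    MvPolynomial.aeval_algebraMap_apply (AlgebraicClosure K) v p
  have hinj : Function.Injective (algebraMap K (AlgebraicClosure K)) :=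
    (algebraMap K (AlgebraicClosure K)).injective
  have hΔ' : MvPolynomial.aeval v' (Del κ N) ≠ 0 := by
    rw [hmap]
    exact fun h => hΔ (hinj (by rw [h, map_zero]))
  have hdot : ∀ τ : Fin (n + 2) → ℂ, dot (toL (AlgebraicClosure K) τ) v' =
      algebraMap K (AlgebraicClosure K) (dot (toL K τ) v) := fun τ => PhiNe_dot_map τ v
  have hTv : ∀ τ ∈ T, dot (toL (AlgebraicClosure K) τ) v' = 0 := fun τ hτ => by
    rw [hdot, ((hT τ).1 hτ).2, map_zero]
  -- derivations of `v'`
  have hDv : ∀ i a, D' i (v' a) = algebraMap K (AlgebraicClosure K) (D i (v a)) := fun i a =>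
    hD'1 i (v a)
  have hex : ∀ u ∈ outs N v' T, ∃ i, dot (tpt N v' u) (fun a => D' i (v' a)) ≠ 0 := by
    intro u hu
    have hu1 : u ∈ rts N v' := (Finset.mem_filter.1 hu).1
    have hu2 : ∀ τ ∈ T, algebraMap ℂ (AlgebraicClosure K) (τ 1) ≠ u := (Finset.mem_filter.1 hu).2
    have hval : val N v' u = 0 := (mem_roots_iff hN' v' hΔ' u).1 hu1
    have h1 : ∃ i, D' i u ≠ 0 := by
      by_contra hcon
      push Not at hcon
      obtain ⟨c, rfl⟩ := hD'2 u hcon
      obtain ⟨τ, hτ, hτ1, -, hτ2⟩ := tpt_complex hκ hN' v' hΔ' hu1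
      have h2 : dot (toL K τ) v = 0 := hinj (by rw [← hdot, hτ2, map_zero])
      exact hu2 τ ((hT τ).2 ⟨hτ, h2⟩) (by rw [hτ1])
    obtain ⟨i, hi⟩ := h1
    refine ⟨i, fun h0 => ?_⟩
    have h3 := derivation_root (N := N) (D' i) v' u hval
    have h4 := (tpt_facts hκ hN' v' hΔ' hval).2.2.2.2.2 fun a => D' i (v' a)
    rw [h0, zero_mul] at h4
    have h5 : ∑ a, val (dN a N) v' u * D' i (v' a) = 0 := by
      rw [← h4]
      exact Finset.sum_congr rfl fun a _ => mul_comm _ _
    rw [h5, zero_add] at h3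
    rcases mul_eq_zero.1 h3 with h6 | h6
    · exact derivative_ne_zero hκ hN' v' hΔ' hval h6
    · exact hi h6
  -- choice of `lam`
  have hprod : ∃ lam : Fin m → ℂ, ∏ u ∈ outs N v' T,
      ∑ i, algebraMap ℂ (AlgebraicClosure K) (lam i) * dot (tpt N v' u) (fun a => D' i (v' a)) ≠ 0 := by
    by_contra hcon
    push Not at hcon
    have hP : (∏ u ∈ outs N v' T, ∑ i, (MvPolynomial.X i : MvPolynomial (Fin m) (AlgebraicClosure K)) *
        MvPolynomial.C (dot (tpt N v' u) (fun a => D' i (v' a)))) = 0 := by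
      refine MvPolynomial.funext_set (fun _ => Set.range (algebraMap ℂ (AlgebraicClosure K)))
        (fun _ => Set.infinite_range_of_injective
          (algebraMap ℂ (AlgebraicClosure K)).injective) fun x hx => ?_
      choose lam hlam using fun i => hx i (Set.mem_univ i)
      rw [map_zero, ← hcon lam, map_prod]
      refine Finset.prod_congr rfl fun u _ => ?_
      rw [map_sum]
      refine Finset.sum_congr rfl fun i _ => ?_
      rw [map_mul, MvPolynomial.eval_X, MvPolynomial.eval_C, hlam i]
    rw [Finset.prod_eq_zero_iff] at hP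
    obtain ⟨u, hu, hu0⟩ := hP
    obtain ⟨i, hi⟩ := hex u hu
    apply hi
    have := congrArg (MvPolynomial.eval (Pi.single i (1 : AlgebraicClosure K))) hu0
    rw [map_sum, map_zero] at this
    rw [← this, Finset.sum_eq_single i]
    · rw [map_mul, MvPolynomial.eval_X, MvPolynomial.eval_C, Pi.single_eq_same, one_mul]
    · intro j _ hj
      rw [map_mul, MvPolynomial.eval_X, Pi.single_eq_of_ne hj, zero_mul]
    · exact fun h => absurd (Finset.mem_univ i) h
  obtain ⟨lam, hlam⟩ := hprod
  refine ⟨lam, fun h0 => ?_⟩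
  set w : Fin (n + 2) → K := fun a => ∑ i, algebraMap ℂ K (lam i) * D i (v a) with hw
  set w' : Fin (n + 2) → AlgebraicClosure K := fun a => algebraMap K (AlgebraicClosure K) (w a)
    with hw'
  have hw'2 : w' = fun a => ∑ i, algebraMap ℂ (AlgebraicClosure K) (lam i) * D' i (v' a) := by
    funext a
    rw [hw', hw]
    simp only [map_sum, map_mul]
    refine Finset.sum_congr rfl fun i _ => ?_
    rw [hDv, ← IsScalarTower.algebraMap_apply ℂ K (AlgebraicClosure K)]
  have hTw : ∀ τ ∈ T, dot (toL (AlgebraicClosure K) τ) w' = 0 := by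
    intro τ hτ
    rw [hw'2, PhiNe_dot_sum]
    refine Finset.sum_eq_zero fun i _ => ?_
    have h1 : D' i (dot (toL (AlgebraicClosure K) τ) v') =
        dot (toL (AlgebraicClosure K) τ) (fun a => D' i (v' a)) := by
      simp only [dot, toL, map_sum]
      refine Finset.sum_congr rfl fun a _ => ?_
      rw [Derivation.leibniz, Derivation.map_algebraMap, smul_zero, add_zero, smul_eq_mul]
    rw [← h1, hTv τ hτ, map_zero, mul_zero]
  have h1 := phi_prod hκ hN' hφ.eq v' w' hΔ' T (fun τ hτ => ((hT τ).1 hτ).1) hTv hTw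
  have h2 : evVW (Phi φ T.card) v' w' = algebraMap K (AlgebraicClosure K)
      (evVW (Phi φ T.card) v w) := by
    rw [evVW, evVW, ← MvPolynomial.aeval_algebraMap_apply]
    congr 2
    funext x
    rcases x with x | x <;> rfl
  rw [h2, h0, map_zero] at h1
  have h3 : ∏ u ∈ outs N v' T, dot (tpt N v' u) w' = ∏ u ∈ outs N v' T,
      ∑ i, algebraMap ℂ (AlgebraicClosure K) (lam i) * dot (tpt N v' u) (fun a => D' i (v' a)) := by
    refine Finset.prod_congr rfl fun u _ => ?_
    rw [hw'2, PhiNe_dot_sum]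
  rw [h3] at h1
  exact (mul_ne_zero (coeff_ne_zero v' hΔ') hlam) h1.symm

end Pool.Agent.H5.DG
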