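import Mathlib

/-!
# Project DG, D2: analytic root functions

Implicit function theorem for `F (z, u) = ∑ i ≤ κ, c i z * u ^ i` at `(z₀, u₀)`: e.g. the inverse function theorem for `(z, u) ↦ (z, F (z, u))`
(`ContDiffAt.toOpenPartialHomeomorph`, `ContDiffAt.to_localInverse`), or Mathlib's implicit function theorem for analytic / `C^n` functions;
a function `ℂ → ℂ` that is `C^1` at `z₀` over `ℂ` is analytic at `z₀` (differentiable in a neighbourhood).
-/

open Filter Topology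

noncomputable section

namespace Pool.Agent.H5.DG

theorem exists_root_fun {κ : ℕ} (c : ℕ → ℂ → ℂ) {z₀ u₀ : ℂ} (hc : ∀ i, AnalyticAt ℂ (c i) z₀)
    (h0 : ∑ i ∈ Finset.range (κ + 1), c i z₀ * u₀ ^ i = 0)
    (h1 : ∑ i ∈ Finset.range (κ + 1), c i z₀ * (i * u₀ ^ (i - 1)) ≠ 0) :
    ∃ u : ℂ → ℂ, AnalyticAt ℂ u z₀ ∧ u z₀ = u₀ ∧
      ∀ᶠ z in 𝓝 z₀, ∑ i ∈ Finset.range (κ + 1), c i z * u z ^ i = 0 := by
  set f : ℂ × ℂ → ℂ := fun p => ∑ i ∈ Finset.range (κ + 1), c i p.1 * p.2 ^ i with hf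
  set u : ℂ × ℂ := (z₀, u₀) with hu
  have hfa : AnalyticAt ℂ f u := by
    refine Finset.analyticAt_fun_sum _ fun i _ => ?_
    refine AnalyticAt.mul ?_ (analyticAt_snd.pow i)
    exact AnalyticAt.comp (g := c i) (f := Prod.fst) (hc i) analyticAt_fst
  have hcd : ContDiffAt ℂ ⊤ f u := hfa.contDiffAt
  have hn : (⊤ : WithTop ℕ∞) ≠ 0 := by simp
  have hd : HasFDerivAt f (fderiv ℂ f u) u := hfa.differentiableAt.hasFDerivAt
  have hd2 : HasFDerivAt (fun y : ℂ => f (z₀, y)) (fderiv ℂ f u ∘L .inr ℂ ℂ ℂ) u₀ := by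
    have := HasFDerivAt.comp (x := u₀) (g := f) (f := fun y : ℂ => (z₀, y)) hd
      (hasFDerivAt_prodMk_right z₀ u₀)
    exact this
  have hd3 : HasDerivAt (fun y : ℂ => f (z₀, y))
      (∑ i ∈ Finset.range (κ + 1), c i z₀ * (i * u₀ ^ (i - 1))) u₀ := by
    refine HasDerivAt.fun_sum fun i _ => ?_
    exact (hasDerivAt_pow i u₀).const_mul (c i z₀)
  have hinv : (fderiv ℂ f u ∘L .inr ℂ ℂ ℂ).IsInvertible := by
    have heq := hd2.unique hd3.hasFDerivAt
    rw [heq]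
    refine ⟨ContinuousLinearEquiv.unitsEquivAut ℂ (Units.mk0 _ h1), ?_⟩
    ext
    simp
  refine ⟨hcd.implicitFunction hn hinv, ?_, ?_, ?_⟩
  · have := hcd.contDiffAt_implicitFunction hn hinv
    exact this.analyticAt
  · exact hcd.implicitFunction_apply_self hn hinv
  · have := hcd.eventually_apply_implicitFunction hn hinv
    filter_upwards [this] with z hz
    have h2 : f u = 0 := h0
    rw [h2] at hz
    exact hz

end Pool.Agent.H5.DG
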