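import Pool.Agent.H5.DG.Consts
import Pool.Agent.H5.DG.ImplRoot

/-!
# Project DG, D2: non-vanishing, analytic form

Write `g z = fun a => g a z`. All statements near `z₀` (`∀ᶠ z in 𝓝 z₀`); `Δ (g z) ≠ 0` near `z₀`.

1. `root_funs`: for each root `u₀` of `N (g z₀; ·)` `exists_root_fun` (`derivative_ne_zero`) gives an analytic root function. Their values at `z₀`
are different, so they are different near `z₀`, and there are `κ` of them: they are all roots (`card_roots`, over `L = ℂ`).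
2. Suppose `evVW (Phi φ T.card) (g z) (g' z) = 0` on `U`. For `τ ∈ T` the root function with value `τ 1` at `z₀` is constant near `z₀` (`τ 1` is a root of
`N (g z; ·)`, and the other root functions are not near `τ 1`). So near `z₀` `outs N (g z) T` consists of the values of the root functions `u` with
`u z₀ ∈ outs N (g z₀) T`. `phi_prod` (for `w = g' z`; `dot τ (g' z) = 0` since `dot τ (g z) = 0` on the open set `U`) gives
`∏_u dot (tpt N (g z) (u z)) (g' z) = 0` near `z₀`, a finite product of functions analytic at `z₀`, so one of them is `0` near `z₀`, for `u`, say.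
3. Differentiate `N (g z; u z) = 0`: `∑ a, val (dN a N) (g z) (u z) * g' a z + (derivative (atV N (g z))).eval (u z) * u' z = 0`; the first sum is
`dot (tpt N (g z) (u z)) (g' z) * val (dN 0 N) (g z) (u z) = 0`, so `u' = 0` near `z₀`, and `u` is constant near `z₀`, `u = c`.
4. `tpt N (g z) c ∈ Gam N ℂ` is one of the finitely many points of `Gam N ℂ` over `c` (`split`, `mem_Gam_iff`) and continuous in `z` near `z₀`, so it is
constant near `z₀`, equal to `τ`, and `dot τ (g z) = 0` near `z₀`, hence on `U` (identity theorem). So `τ ∈ T`, `τ 1 = u z₀`, contradicting `u z₀ ∈ outs`.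
-/

open MvPolynomial Filter Topology

noncomputable section

namespace Pool.Agent.H5.DG

variable {n κ : ℕ} {N : Polynomial (PV n)} {φ : PVW n}

private theorem PhiNeAn_toL (τ : Fin (n + 2) → ℂ) : toL ℂ τ = τ := rfl

private theorem PhiNeAn_deriv_eval (hN : IsPreNorm κ N) (v : Fin (n + 2) → ℂ) (u : ℂ) :
    (Polynomial.derivative (atV N v)).eval u =
      ∑ i ∈ Finset.range (κ + 1), MvPolynomial.aeval v (N.coeff i) * (i * u ^ (i - 1)) := by
  have : atV N v =
      ∑ i ∈ Finset.range (κ + 1), Polynomial.monomial i (MvPolynomial.aeval v (N.coeff i)) := by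
    conv_lhs => rw [atV, N.as_sum_range' (κ + 1) (Nat.lt_succ_of_le (natDegree_le hN)),
      Polynomial.map_sum]
    refine Finset.sum_congr rfl fun i _ => ?_
    rw [Polynomial.map_monomial]
    rfl
  rw [this, Polynomial.derivative_sum, Polynomial.eval_finsetSum]
  refine Finset.sum_congr rfl fun i _ => ?_
  rw [Polynomial.derivative_monomial, Polynomial.eval_monomial]
  ring

theorem root_funs (hκ : 1 ≤ κ) (hN : IsPreNorm κ N) (g : Fin (n + 2) → ℂ → ℂ) {z₀ : ℂ}
    (hg : ∀ a, AnalyticAt ℂ (g a) z₀)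
    (hΔ : MvPolynomial.aeval (fun a => g a z₀) (Del κ N) ≠ 0) :
    ∃ u : ℂ → ℂ → ℂ, (∀ x ∈ rts N (fun a => g a z₀), AnalyticAt ℂ (u x) z₀ ∧ u x z₀ = x) ∧
      ∀ᶠ z in 𝓝 z₀, MvPolynomial.aeval (fun a => g a z) (Del κ N) ≠ 0 ∧
        Set.InjOn (fun x => u x z) (rts N (fun a => g a z₀)) ∧
        ∀ y, y ∈ rts N (fun a => g a z) ↔ ∃ x ∈ rts N (fun a => g a z₀), u x z = y := by
  classical
  have han : ∀ p : PV n, AnalyticAt ℂ (fun z => MvPolynomial.aeval (fun a => g a z) p) z₀ :=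
    fun p => AnalyticAt.aeval_mvPolynomial (f := fun z a => g a z) hg p
  have hex : ∀ x ∈ rts N (fun a => g a z₀), ∃ u : ℂ → ℂ, AnalyticAt ℂ u z₀ ∧ u z₀ = x ∧
      ∀ᶠ z in 𝓝 z₀, ∑ i ∈ Finset.range (κ + 1),
        MvPolynomial.aeval (fun a => g a z) (N.coeff i) * u z ^ i = 0 := by
    intro x hx
    have hval := (mem_roots_iff hN _ hΔ x).1 hx
    refine exists_root_fun (fun i z => MvPolynomial.aeval (fun a => g a z) (N.coeff i))
      (fun i => han _) ?_ ?_
    · rw [← hval, val_eq_sum (natDegree_le hN)]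
    · have := derivative_ne_zero hκ hN _ hΔ hval
      rwa [PhiNeAn_deriv_eval hN] at this
  choose! u hu1 hu2 hu3 using hex
  refine ⟨u, fun x hx => ⟨hu1 x hx, hu2 x hx⟩, ?_⟩
  have e1 : ∀ᶠ z in 𝓝 z₀, MvPolynomial.aeval (fun a => g a z) (Del κ N) ≠ 0 :=
    (han _).continuousAt.eventually_ne hΔ
  have e2 : ∀ᶠ z in 𝓝 z₀, ∀ x ∈ rts N (fun a => g a z₀), ∑ i ∈ Finset.range (κ + 1),
        MvPolynomial.aeval (fun a => g a z) (N.coeff i) * u x z ^ i = 0 :=
    (Filter.eventually_all_finset _).2 fun x hx => hu3 x hx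
  have e3 : ∀ᶠ z in 𝓝 z₀, ∀ x ∈ rts N (fun a => g a z₀), ∀ y ∈ rts N (fun a => g a z₀),
      x ≠ y → u x z ≠ u y z := by
    refine (Filter.eventually_all_finset _).2 fun x hx => (Filter.eventually_all_finset _).2
      fun y hy => ?_
    by_cases hxy : x = y
    · exact Filter.Eventually.of_forall fun z h => absurd hxy h
    · have hne : u x z₀ - u y z₀ ≠ 0 := by
        rw [hu2 x hx, hu2 y hy]
        exact sub_ne_zero.2 hxy
      have hc : ContinuousAt (fun z => u x z - u y z) z₀ :=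
        (hu1 x hx).continuousAt.sub (hu1 y hy).continuousAt
      filter_upwards [hc.eventually_ne hne] with z hz _ h
      exact hz (sub_eq_zero.2 h)
  filter_upwards [e1, e2, e3] with z h1 h2 h3
  have hinj : Set.InjOn (fun x => u x z) (rts N (fun a => g a z₀)) := by
    intro x hx y hy hxy
    by_contra hne
    exact h3 x hx y hy hne hxy
  refine ⟨h1, hinj, fun y => ?_⟩
  have hsub : (rts N (fun a => g a z₀)).image (fun x => u x z) ⊆ rts N (fun a => g a z) := by
    intro y hy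
    obtain ⟨x, hx, rfl⟩ := Finset.mem_image.1 hy
    rw [mem_roots_iff hN _ h1, val_eq_sum (natDegree_le hN)]
    exact h2 x hx
  have heq : (rts N (fun a => g a z₀)).image (fun x => u x z) = rts N (fun a => g a z) := by
    refine Finset.eq_of_subset_of_card_le hsub ?_
    rw [Finset.card_image_of_injOn hinj, card_roots hκ hN _ h1, card_roots hκ hN _ hΔ]
  rw [← heq, Finset.mem_image]

private theorem PhiNeAn_hasDerivAt (g : Fin (n + 2) → ℂ → ℂ) {z : ℂ}
    (hg : ∀ a, DifferentiableAt ℂ (g a) z) (p : PV n) :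
    HasDerivAt (fun z => MvPolynomial.aeval (fun a => g a z) p)
      (∑ a, MvPolynomial.aeval (fun a => g a z) (pderiv a p) * deriv (g a) z) z := by
  induction p using MvPolynomial.induction_on with
  | C c =>
    simp only [pderiv_C, map_zero, zero_mul, Finset.sum_const_zero, MvPolynomial.aeval_C]
    exact hasDerivAt_const _ _
  | add p q hp hq =>
    simp only [map_add, add_mul, Finset.sum_add_distrib]
    exact hp.add hq
  | mul_X p b hp =>
    have h1 := hp.mul (hg b).hasDerivAt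
    have e1 : (fun z => (MvPolynomial.aeval fun a => g a z) (p * MvPolynomial.X b)) =
        (fun z => (MvPolynomial.aeval fun a => g a z) p) * g b := by
      funext z
      rw [map_mul, MvPolynomial.aeval_X, Pi.mul_apply]
    rw [e1]
    refine h1.congr_deriv ?_
    symm
    simp only [Derivation.leibniz, pderiv_X, map_add, map_mul, MvPolynomial.aeval_X,
      add_mul, Finset.sum_add_distrib, smul_eq_mul]
    have h1 : ∀ a : Fin (n + 2), (MvPolynomial.aeval fun a => g a z)
        ((Pi.single a 1 : Fin (n + 2) → PV n) b) = if a = b then 1 else 0 := by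
      intro a
      by_cases h : a = b
      · subst h; simp
      · rw [Pi.single_eq_of_ne (Ne.symm h)]; simp [h]
    simp only [h1]
    rw [add_comm]
    congr 1
    · rw [Finset.sum_mul]
      exact Finset.sum_congr rfl fun a _ => by ring
    · rw [Finset.sum_eq_single b (fun a _ hab => by simp [hab])
        (fun h => absurd (Finset.mem_univ b) h)]
      simp

private theorem PhiNeAn_hasDerivAt_val (hN : IsPreNorm κ N) (g : Fin (n + 2) → ℂ → ℂ)
    (u : ℂ → ℂ) {z : ℂ} (hg : ∀ a, DifferentiableAt ℂ (g a) z) (hu : DifferentiableAt ℂ u z) :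
    HasDerivAt (fun z => val N (fun a => g a z) (u z))
      (∑ a, deriv (g a) z * val (dN a N) (fun a => g a z) (u z) +
        (Polynomial.derivative (atV N fun a => g a z)).eval (u z) * deriv u z) z := by
  have e1 : (fun z => val N (fun a => g a z) (u z)) = fun z => ∑ i ∈ Finset.range (κ + 1),
      MvPolynomial.aeval (fun a => g a z) (N.coeff i) * u z ^ i := by
    funext z
    rw [val_eq_sum (natDegree_le hN)]
  rw [e1, PhiNeAn_deriv_eval hN]
  have h1 : ∀ i ∈ Finset.range (κ + 1), HasDerivAt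
      (fun z => MvPolynomial.aeval (fun a => g a z) (N.coeff i) * u z ^ i)
      ((∑ a, MvPolynomial.aeval (fun a => g a z) (pderiv a (N.coeff i)) * deriv (g a) z) * u z ^ i +
        MvPolynomial.aeval (fun a => g a z) (N.coeff i) * (i * u z ^ (i - 1) * deriv u z)) z :=
    fun i _ => (PhiNeAn_hasDerivAt g hg _).mul (hu.hasDerivAt.pow i)
  refine (HasDerivAt.fun_sum h1).congr_deriv ?_
  rw [Finset.sum_add_distrib]
  congr 1
  · simp only [Finset.sum_mul]
    rw [Finset.sum_comm]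
    refine Finset.sum_congr rfl fun a _ => ?_
    rw [val_eq_sum (natDegree_dN_le hN a), Finset.mul_sum]
    refine Finset.sum_congr rfl fun i _ => ?_
    rw [coeff_dN]
    ring
  · rw [Finset.sum_mul]
    exact Finset.sum_congr rfl fun i _ => by ring

private theorem PhiNeAn_exists_factor {ι : Type} (s : Finset ι) (f : ι → ℂ → ℂ) {z₀ : ℂ}
    (hf : ∀ i ∈ s, AnalyticAt ℂ (f i) z₀) (h0 : ∀ᶠ z in 𝓝 z₀, ∏ i ∈ s, f i z = 0) :
    ∃ i ∈ s, ∀ᶠ z in 𝓝 z₀, f i z = 0 := by
  by_contra hcon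
  push Not at hcon
  have h1 : ∀ᶠ z in 𝓝[≠] z₀, ∀ i ∈ s, f i z ≠ 0 := by
    refine (Filter.eventually_all_finset _).2 fun i hi => ?_
    rcases (hf i hi).eventually_eq_zero_or_eventually_ne_zero with h | h
    · exact absurd h (by simpa using hcon i hi)
    · exact h
  have h2 : ∀ᶠ z in 𝓝[≠] z₀, ∏ i ∈ s, f i z = 0 := h0.filter_mono nhdsWithin_le_nhds
  obtain ⟨z, hz1, hz2⟩ := (h1.and h2).exists
  exact Finset.prod_ne_zero_iff.2 hz1 hz2

private theorem PhiNeAn_const {u : ℂ → ℂ} {z₀ : ℂ} (hu : AnalyticAt ℂ u z₀)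
    (h0 : ∀ᶠ z in 𝓝 z₀, deriv u z = 0) : ∀ᶠ z in 𝓝 z₀, u z = u z₀ := by
  obtain ⟨r, hr, hb⟩ := Metric.eventually_nhds_iff_ball.1 (hu.eventually_analyticAt.and h0)
  refine Metric.eventually_nhds_iff_ball.2 ⟨r, hr, fun z hz => ?_⟩
  exact Metric.isOpen_ball.is_const_of_deriv_eq_zero (convex_ball z₀ r).isPreconnected
    (fun y hy => (hb y hy).1.differentiableAt.differentiableWithinAt) (fun y hy => (hb y hy).2) hz
    (Metric.mem_ball_self hr)

private theorem PhiNeAn_dot_deriv (g : Fin (n + 2) → ℂ → ℂ) {z : ℂ}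
    (hg : ∀ a, DifferentiableAt ℂ (g a) z) (τ : Fin (n + 2) → ℂ)
    (h : ∀ᶠ y in 𝓝 z, dot τ (fun a => g a y) = 0) : dot τ (fun a => deriv (g a) z) = 0 := by
  have h1 : HasDerivAt (fun y => dot τ (fun a => g a y)) (dot τ fun a => deriv (g a) z) z := by
    unfold dot
    exact HasDerivAt.fun_sum fun a _ => (hg a).hasDerivAt.const_mul (τ a)
  have h2 : HasDerivAt (fun y => dot τ (fun a => g a y)) 0 z :=
    (hasDerivAt_const z (0 : ℂ)).congr_of_eventuallyEq (by filter_upwards [h] with y hy; exact hy)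
  exact h1.unique h2

/-- **D2.** Non-vanishing, analytic form. -/
theorem phi_ne_zero_analytic (hκ : 1 ≤ κ) (hN : IsNormForm κ N) (hφ : IsChow κ N φ) {U : Set ℂ}
    (hU : IsOpen U) (hUc : IsPreconnected U) (g : Fin (n + 2) → ℂ → ℂ)
    (hg : ∀ a, AnalyticOnNhd ℂ (g a) U) {z₀ : ℂ} (hz₀ : z₀ ∈ U)
    (hΔ : MvPolynomial.eval (fun a => g a z₀) (Del κ N) ≠ 0)
    (T : Finset (Fin (n + 2) → ℂ))
    (hT : ∀ τ, τ ∈ T ↔ τ ∈ Gam N ℂ ∧ ∀ z ∈ U, dot τ (fun a => g a z) = 0) :
    ∃ z ∈ U, evVW (Phi φ T.card) (fun a => g a z) (fun a => deriv (g a) z) ≠ 0 := by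
  classical
  by_contra hcon
  push Not at hcon
  have hN' : IsPreNorm κ N := hN.pre
  have hΔ' : MvPolynomial.aeval (fun a => g a z₀) (Del κ N) ≠ 0 := hΔ
  have hUn : ∀ᶠ z in 𝓝 z₀, z ∈ U := hU.mem_nhds hz₀
  obtain ⟨u, hu1, hu2⟩ := root_funs hκ hN' g (fun a => hg a z₀ hz₀) hΔ'
  have hd : ∀ z ∈ U, ∀ a, DifferentiableAt ℂ (g a) z := fun z hz a =>
    (hg a z hz).differentiableAt
  -- the points of `T`
  have hTG : ∀ τ ∈ T, τ ∈ Gam N ℂ := fun τ hτ => ((hT τ).1 hτ).1
  have hTv : ∀ z ∈ U, ∀ τ ∈ T, dot (toL ℂ τ) (fun a => g a z) = 0 := fun z hz τ hτ =>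
    ((hT τ).1 hτ).2 z hz
  have hTw : ∀ z ∈ U, ∀ τ ∈ T, dot (toL ℂ τ) (fun a => deriv (g a) z) = 0 := fun z hz τ hτ =>
    PhiNeAn_dot_deriv g (hd z hz) τ (by
      filter_upwards [hU.mem_nhds hz] with y hy
      exact ((hT τ).1 hτ).2 y hy)
  -- the product of the functions `k x` vanishes
  have hprod : ∀ᶠ z in 𝓝 z₀, ∏ x ∈ outs N (fun a => g a z₀) T,
      (∑ a, deriv (g a) z * val (dN a N) (fun a => g a z) (u x z)) = 0 := by
    have hne : ∀ᶠ z in 𝓝 z₀, ∀ τ ∈ T, ∀ x ∈ rts N (fun a => g a z₀), x ≠ τ 1 → u x z ≠ τ 1 := by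
      refine (Filter.eventually_all_finset _).2 fun τ _ => (Filter.eventually_all_finset _).2
        fun x hx => ?_
      by_cases hxy : x = τ 1
      · exact Filter.Eventually.of_forall fun z h => absurd hxy h
      · have : u x z₀ ≠ τ 1 := by rw [(hu1 x hx).2]; exact hxy
        filter_upwards [(hu1 x hx).1.continuousAt.eventually_ne this] with z hz _
        exact hz
    filter_upwards [hu2, hUn, hne] with z h1 hzU h3
    obtain ⟨hΔz, hinj, hrts⟩ := h1
    have h4 := phi_prod hκ hN' hφ.eq (fun a => g a z) (fun a => deriv (g a) z) hΔz T hTG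
      (hTv z hzU) (hTw z hzU)
    rw [hcon z hzU] at h4
    have h5 := (mul_eq_zero.1 h4.symm).resolve_left (coeff_ne_zero _ hΔz)
    obtain ⟨y, hy, hy0⟩ := Finset.prod_eq_zero_iff.1 h5
    have hy1 : y ∈ rts N (fun a => g a z) := (Finset.mem_filter.1 hy).1
    have hy2 : ∀ τ ∈ T, algebraMap ℂ ℂ (τ 1) ≠ y := (Finset.mem_filter.1 hy).2
    obtain ⟨x, hx, hxy⟩ := (hrts y).1 hy1
    refine Finset.prod_eq_zero (i := x) ?_ ?_
    · refine Finset.mem_filter.2 ⟨hx, fun τ hτ hτx => ?_⟩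
      have hτx' : τ 1 = x := hτx
      -- `τ 1` is a root of `N (g z; ·)`
      have h6 := (toL_facts hκ hN' (fun a => g a z) hΔz (hTG τ hτ) (hTv z hzU τ hτ)).1
      obtain ⟨x', hx', hx'τ⟩ := (hrts _).1 h6
      have hx'τ' : u x' z = τ 1 := hx'τ
      have h7 : x' = τ 1 := by
        by_contra hne'
        exact h3 τ hτ x' hx' hne' hx'τ'
      rw [h7, hτx'] at hx'τ'
      exact hy2 τ hτ (by
        change τ 1 = y
        rw [hτx', ← hxy, hx'τ'])
    · have hval : val N (fun a => g a z) (u x z) = 0 := by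
        rw [hxy]
        exact (mem_roots_iff hN' _ hΔz y).1 hy1
      have h8 := (tpt_facts hκ hN' _ hΔz hval).2.2.2.2.2 fun a => deriv (g a) z
      rw [h8, hxy, hy0, zero_mul]
  have han : ∀ x ∈ outs N (fun a => g a z₀) T, AnalyticAt ℂ
      (fun z => ∑ a, deriv (g a) z * val (dN a N) (fun a => g a z) (u x z)) z₀ := by
    intro x hx
    have hx1 : x ∈ rts N (fun a => g a z₀) := (Finset.mem_filter.1 hx).1
    refine Finset.analyticAt_fun_sum _ fun a _ => ?_
    have h1 : (fun z => val (dN a N) (fun a => g a z) (u x z)) = fun z =>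
        ∑ i ∈ Finset.range (κ + 1), MvPolynomial.aeval (fun a => g a z) ((dN a N).coeff i) *
          u x z ^ i := by
      funext z
      rw [val_eq_sum (natDegree_dN_le hN' a)]
    have h2 : AnalyticAt ℂ (fun z => val (dN a N) (fun a => g a z) (u x z)) z₀ := by
      rw [h1]
      refine Finset.analyticAt_fun_sum _ fun i _ => ?_
      exact (AnalyticAt.aeval_mvPolynomial (f := fun z a => g a z) (fun a => hg a z₀ hz₀) _).mul
        ((hu1 x hx1).1.pow i)
    exact (hg a z₀ hz₀).deriv.mul h2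
  obtain ⟨x, hx, hx0⟩ := PhiNeAn_exists_factor _ _ han hprod
  have hx1 : x ∈ rts N (fun a => g a z₀) := (Finset.mem_filter.1 hx).1
  have hx2 : ∀ τ ∈ T, algebraMap ℂ ℂ (τ 1) ≠ x := (Finset.mem_filter.1 hx).2
  -- the root function is constant
  have hv0 : ∀ᶠ z in 𝓝 z₀, val N (fun a => g a z) (u x z) = 0 := by
    filter_upwards [hu2] with z h1
    exact (mem_roots_iff hN' _ h1.1 _).1 ((h1.2.2 _).2 ⟨x, hx1, rfl⟩)
  have hu' : ∀ᶠ z in 𝓝 z₀, deriv (u x) z = 0 := by
    filter_upwards [hv0.eventually_nhds, hx0, hu2, hUn, (hu1 x hx1).1.eventually_analyticAt]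
      with z h1 h2 h3 h4 h5
    have h6 := PhiNeAn_hasDerivAt_val hN' g (u x) (hd z h4) h5.differentiableAt
    have h7 : HasDerivAt (fun z => val N (fun a => g a z) (u x z)) 0 z :=
      (hasDerivAt_const z (0 : ℂ)).congr_of_eventuallyEq
        (by filter_upwards [h1] with y hy; exact hy)
    have h8 := h6.unique h7
    rw [h2, zero_add] at h8
    exact (mul_eq_zero.1 h8).resolve_left (derivative_ne_zero hκ hN' _ h3.1 h1.self_of_nhds)
  have hc : ∀ᶠ z in 𝓝 z₀, u x z = x := by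
    filter_upwards [PhiNeAn_const (hu1 x hx1).1 hu'] with z hz
    rw [hz, (hu1 x hx1).2]
  -- the point of the curve
  obtain ⟨t, ht1, ht2⟩ := hN'.split ℂ x
  have hp : ∀ᶠ z in 𝓝 z₀, ∏ s, dot (t s) (fun a => g a z) = 0 := by
    filter_upwards [hv0, hc] with z h1 h2
    rw [← ht2, ← h2]
    exact h1
  obtain ⟨s, _, hs⟩ := PhiNeAn_exists_factor Finset.univ (fun s z => dot (t s) (fun a => g a z))
    (fun s _ => by
      unfold dot
      exact Finset.analyticAt_fun_sum _ fun a _ => analyticAt_const.mul (hg a z₀ hz₀)) hp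
  have hsU : ∀ z ∈ U, dot (t s) (fun a => g a z) = 0 := by
    have h1 : AnalyticOnNhd ℂ (fun z => dot (t s) (fun a => g a z)) U := by
      unfold dot
      exact Finset.analyticOnNhd_fun_sum _ fun a _ => analyticOnNhd_const.mul (hg a)
    have h2 := h1.eqOn_zero_of_preconnected_of_eventuallyEq_zero hUc hz₀ hs
    exact fun z hz => h2 hz
  have hsG : t s ∈ Gam N ℂ := (mem_Gam_iff ht1 ht2 (t s) (ht1 s).2).2 ⟨s, rfl⟩
  exact hx2 (t s) ((hT _).2 ⟨hsG, hsU⟩) (ht1 s).2

end Pool.Agent.H5.DG
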