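import Pool.Agent.H5.DG.ClusterA
import Pool.Agent.H5.DG.ClusterU
import Pool.Agent.H5.DG.CardLt
import Pool.Agent.H5.DG.PhiNe
import Pool.Agent.H5.DG.PhiNeAn
import Pool.Agent.H5.DG.Package

/-!
# Project DG: the main results of Parts A, B, C

`package`, `cluster_pi`, `cluster_loc`, `cluster_val`, `finite_constants`, `card_constants_le`,
`card_constants_lt`, `phi_ne_zero`, `phi_ne_zero_analytic`, `evVW_Phi_scale`.
-/
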