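import Pool.Agent.H5.DG.Iface

/-!
# Project DG, module E0: extension of a discrete valuation to an arbitrary field extension

`exists_ext`: the elements of non-negative order form a subring of `L`, those of positive order an
ideal, which is not the unit ideal; a valuation subring of `L` containing the subring, whose
non-units contain the ideal, gives the comparison.
`cluster_ord`: `cluster_val` over the algebraic closure.
-/

open MvPolynomial

noncomputable section

namespace Pool.Agent.H5.DG

section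

variable {K : Type} [Field K] (v : AddValuation K (WithTop ℤ)) (L : Type) [Field L] [Algebra K L]

lemma E0_pos_add {a b : WithTop ℤ} (ha : 0 < a) (hb : 0 ≤ b) : 0 < a + b := by
  induction a using WithTop.recTopCoe with
  | top => simp
  | coe a =>
    induction b using WithTop.recTopCoe with
    | top => simp
    | coe b =>
      have h1 : (0 : ℤ) < a := by exact_mod_cast ha
      have h2 : (0 : ℤ) ≤ b := by exact_mod_cast hb
      exact_mod_cast (by omega : 0 < a + b)

/-- The image of the valuation ring. -/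
def valSub : Subring L where
  carrier := {y | ∃ f : K, 0 ≤ v f ∧ algebraMap K L f = y}
  mul_mem' := by
    rintro _ _ ⟨f, hf, rfl⟩ ⟨g, hg, rfl⟩
    exact ⟨f * g, by rw [v.map_mul]; exact add_nonneg hf hg, by rw [map_mul]⟩
  one_mem' := ⟨1, by rw [v.map_one], by rw [map_one]⟩
  add_mem' := by
    rintro _ _ ⟨f, hf, rfl⟩ ⟨g, hg, rfl⟩
    exact ⟨f + g, (le_min hf hg).trans (v.map_add f g), by rw [map_add]⟩
  zero_mem' := ⟨0, by rw [v.map_zero]; exact le_top, by rw [map_zero]⟩
  neg_mem' := by
    rintro _ ⟨f, hf, rfl⟩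
    exact ⟨-f, by rw [v.map_neg]; exact hf, by rw [map_neg]⟩

/-- The image of the maximal ideal. -/
def valIdeal : Ideal (valSub v L) where
  carrier := {y | ∃ f : K, 0 < v f ∧ algebraMap K L f = y}
  add_mem' := by
    rintro _ _ ⟨f, hf, hf'⟩ ⟨g, hg, hg'⟩
    exact ⟨f + g, lt_of_lt_of_le (lt_min hf hg) (v.map_add f g), by rw [map_add, hf', hg']; rfl⟩
  zero_mem' := ⟨0, by rw [v.map_zero]; exact WithTop.coe_lt_top 0, by rw [map_zero]; rfl⟩
  smul_mem' := by
    rintro ⟨_, g, hg, rfl⟩ _ ⟨f, hf, hf'⟩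
    refine ⟨f * g, ?_, ?_⟩
    · rw [v.map_mul]
      exact E0_pos_add hf hg
    · rw [map_mul, hf', mul_comm]
      rfl

/-- **Extension of a valuation.** -/
theorem exists_ext : ∃ B : ValuationSubring L, ∀ f g : K,
    B.valuation (algebraMap K L f) ≤ B.valuation (algebraMap K L g) ↔ v g ≤ v f := by
  have hI : valIdeal v L ≠ ⊤ := by
    rw [Ideal.ne_top_iff_one]
    rintro ⟨f, hf, hf'⟩
    have h1 : algebraMap K L f = algebraMap K L 1 := by
      rw [hf', map_one]
      rfl
    rw [(algebraMap K L).injective h1, v.map_one] at hf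
    exact lt_irrefl _ hf
  obtain ⟨B, hB1, hB2⟩ := Ideal.image_subset_nonunits_valuationSubring (valIdeal v L) hI
  have hle : ∀ f : K, 0 ≤ v f → B.valuation (algebraMap K L f) ≤ 1 := by
    intro f hf
    rw [ValuationSubring.valuation_le_one_iff]
    exact hB1 ⟨f, hf, rfl⟩
  have hlt : ∀ f : K, 0 < v f → B.valuation (algebraMap K L f) < 1 := by
    intro f hf
    have h1 : algebraMap K L f ∈ B.nonunits := by
      apply hB2
      exact ⟨⟨algebraMap K L f, ⟨f, hf.le, rfl⟩⟩, ⟨f, hf, rfl⟩, rfl⟩
    exact (B.mem_nonunits_iff).1 h1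
  refine ⟨B, fun f g => ?_⟩
  constructor
  · intro h
    by_contra hcon
    push Not at hcon
    have hf : f ≠ 0 := by
      rintro rfl
      rw [v.map_zero] at hcon
      exact not_top_lt hcon
    by_cases hg : g = 0
    · rw [hg, map_zero, map_zero, le_zero_iff, map_eq_zero, map_eq_zero] at h
      exact hf h
    · have h1 : 0 < v (g * f⁻¹) := by
        obtain ⟨a, ha⟩ : ∃ a : ℤ, v f = a := by
          have := (v.ne_top_iff).2 hf
          exact ⟨(v f).untop this, by simp⟩
        obtain ⟨b, hb⟩ : ∃ b : ℤ, v g = b := by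
          have := (v.ne_top_iff).2 hg
          exact ⟨(v g).untop this, by simp⟩
        have h2 : v g = v (g * f⁻¹) + v f := by
          rw [← v.map_mul, mul_assoc, inv_mul_cancel₀ hf, mul_one]
        have h3 : g * f⁻¹ ≠ 0 := mul_ne_zero hg (inv_ne_zero hf)
        obtain ⟨c, hc⟩ : ∃ c : ℤ, v (g * f⁻¹) = c := by
          have := (v.ne_top_iff).2 h3
          exact ⟨(v (g * f⁻¹)).untop this, by simp⟩
        rw [ha, hb, hc] at h2
        rw [ha, hb] at hcon
        have h4 : b = c + a := by exact_mod_cast h2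
        have h5 : a < b := by exact_mod_cast hcon
        rw [hc]
        exact_mod_cast (by omega : (0 : ℤ) < c)
      have h2 := hlt _ h1
      rw [map_mul, map_mul, map_inv₀, map_inv₀] at h2
      have hfν : B.valuation (algebraMap K L f) ≠ 0 := by
        rw [Ne, map_eq_zero, map_eq_zero]
        exact hf
      have h3 : B.valuation (algebraMap K L g) < B.valuation (algebraMap K L f) := by
        have h4 := mul_lt_mul_of_pos_right h2 (zero_lt_iff.2 hfν)
        rwa [mul_assoc, inv_mul_cancel₀ hfν, mul_one, one_mul] at h4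
      exact absurd h (not_le.2 h3)
  · intro h
    by_cases hg : g = 0
    · rw [hg, v.map_zero, top_le_iff, v.top_iff] at h
      rw [h, hg]
    · have h1 : 0 ≤ v (f * g⁻¹) := by
        by_cases hf : f = 0
        · rw [hf, zero_mul, v.map_zero]
          exact le_top
        obtain ⟨a, ha⟩ : ∃ a : ℤ, v f = a := by
          have := (v.ne_top_iff).2 hf
          exact ⟨(v f).untop this, by simp⟩
        obtain ⟨b, hb⟩ : ∃ b : ℤ, v g = b := by
          have := (v.ne_top_iff).2 hg
          exact ⟨(v g).untop this, by simp⟩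
        have h2 : v f = v (f * g⁻¹) + v g := by
          rw [← v.map_mul, mul_assoc, inv_mul_cancel₀ hg, mul_one]
        have h3 : f * g⁻¹ ≠ 0 := mul_ne_zero hf (inv_ne_zero hg)
        obtain ⟨c, hc⟩ : ∃ c : ℤ, v (f * g⁻¹) = c := by
          have := (v.ne_top_iff).2 h3
          exact ⟨(v (f * g⁻¹)).untop this, by simp⟩
        rw [ha, hb, hc] at h2
        rw [ha, hb] at h
        have h4 : a = c + b := by exact_mod_cast h2
        have h5 : b ≤ a := by exact_mod_cast h
        rw [hc]
        exact_mod_cast (by omega : (0 : ℤ) ≤ c)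
      have h2 := hle _ h1
      rw [map_mul, map_mul, map_inv₀, map_inv₀] at h2
      have hgν : B.valuation (algebraMap K L g) ≠ 0 := by
        rw [Ne, map_eq_zero, map_eq_zero]
        exact hg
      have h4 := mul_le_mul_left h2 (B.valuation (algebraMap K L g))
      rwa [mul_assoc, inv_mul_cancel₀ hgν, mul_one, one_mul] at h4

end

section

variable {n κ : ℕ} {N : Polynomial (PV n)} {φ : PVW n}

lemma dot_map {K L : Type} [Field K] [Algebra ℂ K] [Field L] [Algebra ℂ L] [Algebra K L]
    [IsScalarTower ℂ K L] {m : ℕ} (t : Fin m → ℂ) (x : Fin m → K) :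
    dot (toL L t) (fun a => algebraMap K L (x a)) = algebraMap K L (dot (toL K t) x) := by
  unfold dot toL
  rw [map_sum]
  refine Finset.sum_congr rfl fun a _ => ?_
  rw [map_mul, ← IsScalarTower.algebraMap_apply]

lemma evVW_map {K L : Type} [Field K] [Algebra ℂ K] [Field L] [Algebra ℂ L] [Algebra K L]
    [IsScalarTower ℂ K L] (G : PVW n) (x w : Fin (n + 2) → K) :
    evVW G (fun a => algebraMap K L (x a)) (fun a => algebraMap K L (w a)) =
      algebraMap K L (evVW G x w) := by
  unfold evVW
  rw [← MvPolynomial.aeval_algebraMap_apply]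
  congr 2
  funext i
  rcases i with i | i <;> rfl

/-- The cluster inequality for a discrete valuation. -/
theorem cluster_ord (hκ : 1 ≤ κ) (hN : IsNormForm κ N) (hnd : Nondeg N) (hφ : IsChow κ N φ)
    {ι : Type} (J : Finset ι) (p : ι → Fin (n + 2) → ℂ) (hp : ∀ j ∈ J, p j ∈ Gam N ℂ)
    (hinj : Set.InjOn p J) (T : Finset (Fin (n + 2) → ℂ)) (hT : ∀ τ ∈ T, τ ∈ Gam N ℂ)
    (hJT : ∀ j ∈ J, p j ∉ T) {K : Type} [Field K] [Algebra ℂ K]
    (v : AddValuation K (WithTop ℤ)) (hv : ∀ c : ℂ, 0 ≤ v (algebraMap ℂ K c))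
    (x w : Fin (n + 2) → K) (hx : ∀ a, 0 ≤ v (x a)) (hx1 : ∃ a, v (x a) = 0)
    (hΔ : MvPolynomial.aeval x (Del κ N) ≠ 0)
    (hTv : ∀ τ ∈ T, dot (toL K τ) x = 0) (hTw : ∀ τ ∈ T, dot (toL K τ) w = 0)
    (A : ι → K) (lam : K) (hA : ∀ j ∈ J, 0 ≤ v (A j))
    (h1 : ∀ j ∈ J, v (A j) ≤ v (dot (toL K (p j)) x))
    (h2 : ∀ j ∈ J, v (lam * A j) ≤ v (dot (toL K (p j)) w)) (h3 : ∀ a, v lam ≤ v (w a)) :
    v (lam ^ (κ - T.card) * ∏ j ∈ J, A j) ≤ v (evVW (Phi φ T.card) x w) := by
  obtain ⟨B, hB⟩ := exists_ext v (AlgebraicClosure K)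
  have hle1 : ∀ f : K, 0 ≤ v f → B.valuation (algebraMap K _ f) ≤ 1 := by
    intro f hf
    have := (hB f 1).2 (by rw [v.map_one]; exact hf)
    rwa [map_one, map_one] at this
  have heq1 : ∀ f : K, v f = 0 → B.valuation (algebraMap K _ f) = 1 := by
    intro f hf
    refine le_antisymm (hle1 f hf.ge) ?_
    have := (hB 1 f).2 (by rw [v.map_one]; exact hf.le)
    rwa [map_one, map_one] at this
  have hc := cluster_val hκ hN hnd hφ J p hp hinj T hT hJT (L := AlgebraicClosure K) B.valuation
    (by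
      intro c hc
      rw [IsScalarTower.algebraMap_apply ℂ K (AlgebraicClosure K)]
      apply heq1
      refine le_antisymm ?_ (hv c)
      have h5 : v (algebraMap ℂ K c) + v (algebraMap ℂ K c⁻¹) = 0 := by
        rw [← v.map_mul, ← map_mul, mul_inv_cancel₀ hc, map_one, v.map_one]
      calc v (algebraMap ℂ K c) ≤ v (algebraMap ℂ K c) + v (algebraMap ℂ K c⁻¹) :=
            le_add_of_nonneg_right (hv _)
        _ = 0 := h5)
    (fun a => algebraMap K _ (x a)) (fun a => algebraMap K _ (w a)) (fun a => hle1 _ (hx a))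
    (by
      obtain ⟨a, ha⟩ := hx1
      exact ⟨a, heq1 _ ha⟩)
    (by
      change MvPolynomial.aeval (algebraMap K (AlgebraicClosure K) ∘ x) (Del κ N) ≠ 0
      rw [MvPolynomial.aeval_algebraMap_apply]
      intro h0
      exact hΔ ((algebraMap K (AlgebraicClosure K)).injective (by rw [h0, map_zero])))
    (fun τ hτ => by rw [dot_map, hTv τ hτ, map_zero]) (fun τ hτ => by rw [dot_map, hTw τ hτ, map_zero])
    (fun j => B.valuation (algebraMap K _ (A j))) (B.valuation (algebraMap K _ lam))
    (fun j hj => hle1 _ (hA j hj))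
    (fun j hj => by
      rw [dot_map]
      exact (hB _ _).2 (h1 j hj))
    (fun j hj => by
      rw [dot_map, ← map_mul, ← map_mul]
      exact (hB _ _).2 (h2 j hj))
    (fun a => (hB _ _).2 (h3 a))
  rw [evVW_map, ← map_pow, ← map_pow, ← map_prod, ← map_prod, ← map_mul, ← map_mul] at hc
  exact (hB _ _).1 hc

end

end Pool.Agent.H5.DG
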