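import Pool.Agent.H5.DG.CovBd
import Pool.Agent.H62.FC.PunctMero

/-!
# Project DG, module CovMain: Picard and Brody for finite covers
-/

open MvPolynomial Filter Topology
open Pool.Agent.H62.FC (MeroPunct PunctMero)
open Pool.Agent.H17 (PN VanishesAt HolomorphicInto puncturedDisc)

noncomputable section

namespace Pool.Agent.H5.DG

private theorem scale {r k : ℕ} {P : MvPolynomial (Fin r) ℂ} (hP : P.IsHomogeneous k)
    (c : ℂ) (x : Fin r → ℂ) : eval (fun a => c * x a) P = c ^ k * eval x P := by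
  rw [eval_eq, eval_eq, Finset.mul_sum]
  refine Finset.sum_congr rfl fun d hd => ?_
  have h1 : ∑ i, d i = k := by
    have h2 := hP (mem_support_iff.1 hd)
    rw [Finsupp.weight_apply, Finsupp.sum_fintype _ _ (by simp)] at h2
    rw [← h2]
    simp
  have h3 : ∀ y : Fin r → ℂ, ∏ i ∈ d.support, y i ^ d i = ∏ i, y i ^ d i := by
    intro y
    refine Finset.prod_subset (Finset.subset_univ _) fun i _ hi => ?_
    rw [Finsupp.notMem_support_iff.1 hi, pow_zero]
  rw [h3, h3]
  simp only [mul_pow]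
  rw [Finset.prod_mul_distrib, Finset.prod_pow_eq_pow_sum, h1]
  ring

private theorem mero_eval {r : ℕ} {ξ : ℂ → Fin r → ℂ} {s : ℂ}
    (hξ : ∀ i, MeromorphicAt (fun z => ξ z i) s) (G : MvPolynomial (Fin r) ℂ) :
    MeromorphicAt (fun z => eval (ξ z) G) s := by
  induction G using MvPolynomial.induction_on with
  | C a =>
    simp only [eval_C]
    exact MeromorphicAt.const a s
  | add p q hp hq =>
    simp only [map_add]
    exact hp.add hq
  | mul_X p i hp =>
    simp only [map_mul, eval_X]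
    exact hp.mul (hξ i)

theorem eval_aeval {r r' : ℕ} (F : Fin r → MvPolynomial (Fin r') ℂ) (x : Fin r' → ℂ)
    (P : MvPolynomial (Fin r) ℂ) : eval x (aeval F P) = eval (fun a => eval x (F a)) P := by
  induction P using MvPolynomial.induction_on with
  | C a => simp
  | add p q hp hq => rw [map_add, map_add, map_add, hp, hq]
  | mul_X p i hp => rw [map_mul, map_mul, map_mul, hp, aeval_X, eval_X]

section

variable {r Nn m e q k : ℕ} {l : Fin m → Fin (r + 1) → ℂ} {Δ : MvPolynomial (Fin (r + 1)) ℂ}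
  {I : Ideal (MvPolynomial (Fin (Nn + 1)) ℂ)} {F : Fin (r + 1) → MvPolynomial (Fin (Nn + 1)) ℂ}
  {O : Finset (Fin m)}

private theorem vanishes_iff (hk : Δ.IsHomogeneous k) {x : PN Nn}
    (hx : (fun a => eval x.rep (F a)) ≠ 0) :
    VanishesAt Δ (coverMap F x) ↔ VanishesAt (aeval F Δ) x := by
  have h1 : coverMap F x = Projectivization.mk ℂ _ hx := dif_pos hx
  have h2 : eval x.rep (aeval F Δ) = eval (fun a => eval x.rep (F a)) Δ := eval_aeval _ _ _
  rw [h1, Pool.Agent.H17.vanishesAt_mk_iff hk, ← h2]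
  rfl

/-- A map into `X` extends if its composition with the finite morphism given by `F` extends. -/
theorem extends_of_coverMap (hI : Homog I) (hF : BaseFree I e F) {f : ℂ → PN Nn}
    (hf : HolomorphicInto f puncturedDisc)
    (hfI : ∀ z ∈ puncturedDisc, ∀ Q ∈ I, ∀ k, Q.IsHomogeneous k → VanishesAt Q (f z))
    (hext : ∃ g' : ℂ → PN r, HolomorphicInto g' (Metric.ball 0 1) ∧
      ∀ z ∈ puncturedDisc, g' z = coverMap F (f z)) :
    ∃ g : ℂ → PN Nn, HolomorphicInto g (Metric.ball 0 1) ∧ ∀ z ∈ puncturedDisc, g z = f z := by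
  classical
  have hmem : ∀ z : ℂ, 0 < ‖z‖ → ‖z‖ < 1 → z ∈ puncturedDisc := fun z h1 h2 =>
    mem_puncturedDisc.mpr ⟨h1, h2⟩
  have hall : ∀ z ∈ puncturedDisc, ∀ c : ℂ, ∀ Q ∈ I, eval (c • (f z).rep) Q = 0 := by
    intro z hz c Q hQ
    have h1 : ∀ Q ∈ I, eval (f z).rep Q = 0 := fun Q hQ =>
      eval_of_mem hI (f z).rep_nonzero (by rw [(f z).mk_rep]; exact hfI z hz) hQ
    rw [← MvPolynomial.sum_homogeneousComponent Q, map_sum]
    refine Finset.sum_eq_zero fun k _ => ?_
    have h2 : (c • (f z).rep) = fun a => c * (f z).rep a := rfl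
    rw [h2, scale (homogeneousComponent_isHomogeneous k Q), h1 _ (hI Q hQ k), mul_zero]
  have hFne : ∀ z ∈ puncturedDisc, (fun a => eval (f z).rep (F a)) ≠ 0 := fun z hz =>
    eval_ne_zero hF (f z).rep_nonzero fun Q hQ => by
      have h1 := hall z hz 1 Q hQ
      rwa [one_smul] at h1
  obtain ⟨g', hg', hgf'⟩ := hext
  -- a coordinate which does not vanish identically
  have hhalf : (1 / 2 : ℂ) ∈ puncturedDisc := by
    refine hmem _ ?_ ?_
    · norm_num
    · norm_num
  obtain ⟨i₀, hi₀⟩ : ∃ i, (f (1 / 2)).rep i ≠ 0 := by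
    by_contra hcon
    push Not at hcon
    exact (f (1 / 2)).rep_nonzero (funext hcon)
  have hi₀T : i₀ ∈ nzSet f := by
    by_contra hcon
    exact hi₀ (nz_notMem hf hcon hhalf)
  obtain ⟨a₀, ha₀⟩ : ∃ a, eval (f (1 / 2)).rep (F a) ≠ 0 := by
    by_contra hcon
    push Not at hcon
    exact hFne _ hhalf (funext hcon)
  have ha₀T : ∀ s ∈ puncturedDisc, ∀ᶠ z in 𝓝[≠] s, eval (f z).rep (F a₀) ≠ 0 := by
    rcases vanish_dich hf (hF.hom a₀) with h1 | h1
    · exact absurd (h1 _ hhalf).self_of_nhds ha₀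
    · exact h1
  -- the coordinates
  obtain ⟨ξ, hξ⟩ : ∃ ξ : ℂ → Fin (Nn + 1) → ℂ, ∀ z i, ξ z i = (f z).rep i / (f z).rep i₀ :=
    ⟨fun z i => (f z).rep i / (f z).rep i₀, fun _ _ => rfl⟩
  have hξs : ∀ z, ξ z = fun i => ((f z).rep i₀)⁻¹ * (f z).rep i := by
    intro z
    funext i
    rw [hξ, div_eq_inv_mul]
  have hξm : ∀ s ∈ puncturedDisc, ∀ i, MeromorphicAt (fun z => ξ z i) s := by
    intro s hs i
    refine (quot_mero hf i i₀ hs).congr (Eventually.of_forall fun z => ?_)
    exact (hξ z i).symm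
  have hFξ : ∀ z a, eval (ξ z) (F a) = ((f z).rep i₀)⁻¹ ^ e * eval (f z).rep (F a) := by
    intro z a
    rw [hξs, scale (hF.hom a)]
  -- the quotients of the forms
  have hquot : ∀ a, PunctMero (fun z => eval (f z).rep (F a) / eval (f z).rep (F a₀)) := by
    intro a
    obtain ⟨ψ, hψ, he⟩ := hg' 0 (Metric.mem_ball_self one_pos)
    refine ⟨fun z => ψ z a / ψ z a₀, ?_, ?_⟩
    · exact ((analyticAt_pi_iff.mp hψ a).meromorphicAt).fun_div
        (analyticAt_pi_iff.mp hψ a₀).meromorphicAt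
    · have h1 : ∀ᶠ z in 𝓝[≠] (0 : ℂ),
          eval (f z).rep (F a) / eval (f z).rep (F a₀) = ψ z a / ψ z a₀ := by
        filter_upwards [he.filter_mono nhdsWithin_le_nhds, eventually_puncturedDisc_zero]
          with z hz hzD
        obtain ⟨h2, h3⟩ := hz
        rw [hgf' z hzD] at h3
        have h4 : coverMap F (f z) = Projectivization.mk ℂ _ (hFne z hzD) :=
          dif_pos (hFne z hzD)
        rw [h4, Projectivization.mk_eq_mk_iff'] at h3
        obtain ⟨x, hx⟩ := h3
        have hx0 : x ≠ 0 := by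
          rintro rfl
          apply hFne z hzD
          rw [← hx, zero_smul]
        have h5 : ∀ b, eval (f z).rep (F b) = x * ψ z b := fun b => (congrFun hx b).symm
        rw [h5, h5, mul_div_mul_left _ _ hx0]
      have h2 := eventually_eventually_nhdsWithin.2 h1
      filter_upwards [h2, self_mem_nhdsWithin] with z hz hne
      rw [IsOpen.nhdsWithin_eq isOpen_compl_singleton hne] at hz
      exact hz.filter_mono nhdsWithin_le_nhds
  obtain ⟨C, hC0, hC⟩ := exists_norm_bound hF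
  have hnz2 : ∀ s ∈ puncturedDisc, ∀ᶠ z in 𝓝[≠] s, (f z).rep i₀ ≠ 0 ∧
      eval (f z).rep (F a₀) ≠ 0 ∧ z ∈ puncturedDisc := by
    intro s hs
    filter_upwards [nz_mem hi₀T hs, ha₀T s hs, eventually_mem_puncturedDisc hs] with z h1 h2 h3
    exact ⟨h1, h2, h3⟩
  have hu : ∀ i, PunctMero (fun z => ξ z i ^ e / eval (ξ z) (F a₀)) := by
    intro i
    refine punctMero_of_bound one_pos (C := C) (fun z h1 h2 => ?_) hquot fun z h1 h2 => ?_
    · exact ((hξm z (hmem z h1 h2) i).fun_pow e).fun_div (mero_eval (hξm z (hmem z h1 h2)) _)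
    · filter_upwards [hnz2 z (hmem z h1 h2)] with ζ hζ
      obtain ⟨h3, h4, h5⟩ := hζ
      have h6 := hC (ξ ζ) (fun c Q hQ => by
        have h7 := hall ζ h5 (c * ((f ζ).rep i₀)⁻¹) Q hQ
        rw [← h7]
        congr 2
        rw [hξs]
        funext i
        simp only [Pi.smul_apply, smul_eq_mul]
        ring)
      have h7 : ‖ξ ζ i‖ ^ e ≤ C * ∑ a, ‖eval (ξ ζ) (F a)‖ :=
        (pow_le_pow_left₀ (norm_nonneg _) (norm_le_pi_norm (ξ ζ) i) e).trans h6
      have h8 : eval (ξ ζ) (F a₀) ≠ 0 := by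
        rw [hFξ]
        exact mul_ne_zero (pow_ne_zero _ (inv_ne_zero h3)) h4
      have h9 : ∀ a, eval (f ζ).rep (F a) / eval (f ζ).rep (F a₀) =
          eval (ξ ζ) (F a) / eval (ξ ζ) (F a₀) := by
        intro a
        rw [hFξ, hFξ, mul_div_mul_left _ _ (pow_ne_zero _ (inv_ne_zero h3))]
      rw [norm_div, norm_pow, div_le_iff₀ (norm_pos_iff.2 h8)]
      refine h7.trans (le_of_eq ?_)
      rw [mul_assoc, Finset.sum_mul]
      congr 1
      refine Finset.sum_congr rfl fun a _ => ?_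
      rw [h9, norm_div, div_mul_cancel₀ _ (norm_ne_zero_iff.2 h8)]
  -- the powers
  have hpow : ∀ i, PunctMero (fun z => ξ z i ^ e) := by
    intro i
    refine PunctMero.congr ((hu i).mul (hu i₀).inv) ?_
    filter_upwards [eventually_puncturedDisc_zero] with z hz
    filter_upwards [hnz2 z hz] with ζ hζ
    obtain ⟨h3, h4, h5⟩ := hζ
    have h6 : ξ ζ i₀ = 1 := by
      rw [hξ, div_self h3]
    have h8 : eval (ξ ζ) (F a₀) ≠ 0 := by
      rw [hFξ]
      exact mul_ne_zero (pow_ne_zero _ (inv_ne_zero h3)) h4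
    rw [h6, one_pow]
    field_simp
  refine Pool.Agent.H62.FC.exists_extension hf (i₀ := i₀) ?_ ?_
  · filter_upwards [eventually_puncturedDisc_zero] with z hz
    exact nz_mem hi₀T hz
  · intro i
    by_cases hi : i ∈ nzSet f
    · refine PunctMero.root one_pos (quot_meroPunct hf hi hi₀T) hF.pos ?_
      refine (hpow i).congr (Eventually.of_forall fun z => Eventually.of_forall fun ζ => ?_)
      show ξ ζ i ^ e = ((f ζ).rep i / (f ζ).rep i₀) ^ e
      rw [hξ]
    · refine PunctMero.congr (PunctMero.const 0) ?_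
      filter_upwards [eventually_puncturedDisc_zero] with z hzD
      filter_upwards [eventually_mem_puncturedDisc hzD] with ζ hζ
      rw [nz_notMem hf hi hζ, zero_div]

/-- The value of the exceptional form. -/
theorem vanishes_coverMap_iff (hI : Homog I) (hF : BaseFree I e F) (hk : Δ.IsHomogeneous k)
    {x : PN Nn} (hx : ∀ Q ∈ I, ∀ k, Q.IsHomogeneous k → VanishesAt Q x) :
    VanishesAt Δ (coverMap F x) ↔ VanishesAt (aeval F Δ) x :=
  vanishes_iff hk (eval_ne_zero hF x.rep_nonzero fun Q hQ =>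
    eval_of_mem hI x.rep_nonzero (by rw [x.mk_rep]; exact hx) hQ)

/-- **Picard's theorem for covers**, general form. -/
theorem picard_coverM (hk : Δ.IsHomogeneous k) (h : OrbExt q l Δ) (hI : Homog I)
    (hF : BaseFree I e F) (hram : ∀ j ∉ O, RamM q I (comb (l j) F)) {f : ℂ → PN Nn}
    (hf : HolomorphicInto f puncturedDisc)
    (hfX : ∀ z ∈ puncturedDisc, f z ∈ coverLocus I O fun j => comb (l j) F)
    (hne : ∃ z ∈ puncturedDisc, ¬ VanishesAt (aeval F Δ) (f z)) :
    ∃ g : ℂ → PN Nn, HolomorphicInto g (Metric.ball 0 1) ∧ ∀ z ∈ puncturedDisc, g z = f z := by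
  have hfI : ∀ z ∈ puncturedDisc, ∀ Q ∈ I, ∀ k, Q.IsHomogeneous k → VanishesAt Q (f z) :=
    fun z hz => (hfX z hz).1
  refine extends_of_coverMap hI hF hf hfI ?_
  exact h _ (coverMap_holomorphic hI hF isOpen_puncturedDisc hf hfI) (fun j => by
    refine meets_of_ramM hI hF isOpen_puncturedDisc hf hfI ?_
    by_cases hj : j ∈ O
    · exact Or.inr fun z hz => (hfX z hz).2 j hj
    · exact Or.inl (hram j hj)) (by
    obtain ⟨z, hz, hz'⟩ := hne
    exact ⟨z, hz, fun hcon => hz' ((vanishes_coverMap_iff hI hF hk (hfI z hz)).1 hcon)⟩)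

/-- **Brody's theorem for covers**, general form. -/
theorem brody_coverM (hk : Δ.IsHomogeneous k) (h : OrbExt q l Δ) (hI : Homog I)
    (hF : BaseFree I e F) (hram : ∀ j ∉ O, RamM q I (comb (l j) F)) {f : ℂ → PN Nn}
    (hf : HolomorphicInto f Set.univ)
    (hfX : ∀ z, f z ∈ coverLocus I O fun j => comb (l j) F)
    (hne : ∃ z, ¬ VanishesAt (aeval F Δ) (f z)) (z w : ℂ) : f z = f w := by
  have hQ : (aeval F Δ).IsHomogeneous (e * k) := hk.aeval _ hF.hom
  obtain ⟨z₁, hz₁⟩ := hne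
  -- a point different from `0` outside the exceptional set
  obtain ⟨w₀, hw₀, hw₀'⟩ : ∃ w, w ≠ 0 ∧ ¬ VanishesAt (aeval F Δ) (f w) := by
    by_cases hz0 : z₁ = 0
    · subst hz0
      obtain ⟨ψ, hψ, he⟩ := hf 0 (Set.mem_univ 0)
      rcases vanish_local hψ he hQ with h1 | h1
      · exact absurd h1.self_of_nhds hz₁
      · obtain ⟨w, hw1, hw2⟩ := (h1.and self_mem_nhdsWithin).exists
        exact ⟨w, hw2, hw1⟩
    · exact ⟨z₁, hz0, hz₁⟩
  have hgh : HolomorphicInto (fun z => f (Complex.exp z⁻¹)) puncturedDisc := by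
    refine Pool.Agent.H17.HolomorphicInto.comp hf (u := fun z => Complex.exp z⁻¹) ?_
      (fun _ _ => Set.mem_univ _)
    intro z hz
    have h1 : z ≠ 0 := hz.2
    exact (analyticAt_inv h1).cexp
  obtain ⟨g, hg, hge⟩ := picard_coverM hk h hI hF hram hgh (fun z _ => hfX _) (by
    obtain ⟨zs, h1, h2⟩ := Pool.Agent.H99.Cover.exists_seq_exp_inv w₀ hw₀
    obtain ⟨n, h3, h4⟩ := (h2.and (h1.eventually (Metric.ball_mem_nhds (0 : ℂ) one_pos))).exists
    refine ⟨zs n, ⟨h4, h3.1⟩, ?_⟩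
    rw [h3.2]
    exact hw₀')
  exact const_of_extension hf hg hge z w

end

end Pool.Agent.H5.DG
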