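import Pool.Agent.H5.DG.CoverDefs
import Pool.Agent.H5.DG.OrbDefs

/-!
# Project DG, module CovMap: the morphism given by the forms, multiplicities along curves

`coverMap_mk`: `F` homogeneous, so the value does not depend on the representative
(`Projectivization.mk_eq_mk_iff'`, `Pool.Agent.H17.exists_smul_rep`,
`Pool.Agent.H17.eval_smul_of_isHomogeneous`).

`eval_ne_zero`: if all `F a` vanish at `v` and all elements of `I` vanish at `v` (`eval_of_mem`:
homogeneous components of elements of `I` lie in `I`) then `v i ^ k = 0` for all `i` (`base`;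
`Submodule.mem_sup`, `Submodule.span_induction` or `Ideal.span_le` with the kernel of `eval v`).

`meets_of_ram`: let `φ` be a local lift of `f` at `s` (on which all elements of `I` vanish near
`s`); `z ↦ (F a (φ z))_a` is a local lift of `coverMap F ∘ f`.  If `comb l F` vanishes at `φ s`:
choose `i` with `φ s i ≠ 0` and `k` with `X i ^ k * comb l F ∈ rad ^ 2 ⊔ I`; the set of the
polynomials `p` for which `z ↦ eval (φ z) p` has order at least two at `s` contains `I` and all
products of two elements of `rad` (an element `B` of `rad` satisfies `B ^ t ∈ span {comb l F} ⊔ I`,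
so `eval (φ s) B = 0` and `z ↦ eval (φ z) B` has order at least one) and is closed under sums
(`Submodule.mul_induction_on` after `sq`); so `z ↦ φ z i ^ k * eval (φ z) (comb l F)` has order at
least two, and `φ s i ≠ 0`.
-/

open MvPolynomial Filter Topology
open Pool.Agent.H17 (PN VanishesAt HolomorphicInto puncturedDisc)

noncomputable section

namespace Pool.Agent.H5.DG

variable {Nn m : ℕ}

private lemma CovMap_analytic {φ : ℂ → Fin (Nn + 1) → ℂ} {s : ℂ} (hφ : AnalyticAt ℂ φ s)
    (P : MvPolynomial (Fin (Nn + 1)) ℂ) : AnalyticAt ℂ (fun z => eval (φ z) P) s := by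
  induction P using MvPolynomial.induction_on with
  | C a =>
    simp only [eval_C]
    exact analyticAt_const
  | add p q hp hq =>
    simp only [map_add]
    exact hp.add hq
  | mul_X p i hp =>
    simp only [map_mul, eval_X]
    exact hp.mul (analyticAt_pi_iff.mp hφ i)

/-- the ideal of the polynomials whose value along `φ` has order at least `n` -/
private def CovMap_J {φ : ℂ → Fin (Nn + 1) → ℂ} {s : ℂ} (hφ : AnalyticAt ℂ φ s) (n : ℕ∞) :
    Ideal (MvPolynomial (Fin (Nn + 1)) ℂ) where
  carrier := {P | n ≤ analyticOrderAt (fun z => eval (φ z) P) s}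
  add_mem' {P Q} hP hQ := by
    change n ≤ _
    simp only [map_add]
    exact (le_min hP hQ).trans le_analyticOrderAt_add
  zero_mem' := by
    change n ≤ _
    have h : analyticOrderAt (fun z => eval (φ z) (0 : MvPolynomial (Fin (Nn + 1)) ℂ)) s = ⊤ := by
      rw [analyticOrderAt_eq_top]
      exact Filter.Eventually.of_forall fun z => map_zero _
    rw [h]
    exact le_top
  smul_mem' c P hP := by
    change n ≤ analyticOrderAt (fun z => eval (φ z) (c * P)) s
    simp only [map_mul]
    have h := analyticOrderAt_mul (CovMap_analytic hφ c) (CovMap_analytic hφ P)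
    change n ≤ analyticOrderAt ((fun z => eval (φ z) c) * fun z => eval (φ z) P) s
    rw [h]
    exact le_trans hP le_add_self

private lemma CovMap_mem {φ : ℂ → Fin (Nn + 1) → ℂ} {s : ℂ} (hφ : AnalyticAt ℂ φ s) (n : ℕ∞)
    (P : MvPolynomial (Fin (Nn + 1)) ℂ) :
    P ∈ CovMap_J hφ n ↔ n ≤ analyticOrderAt (fun z => eval (φ z) P) s := Iff.rfl

private lemma CovMap_mul {φ : ℂ → Fin (Nn + 1) → ℂ} {s : ℂ} (hφ : AnalyticAt ℂ φ s)
    (P Q : MvPolynomial (Fin (Nn + 1)) ℂ) :
    analyticOrderAt (fun z => eval (φ z) (P * Q)) s =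
      analyticOrderAt (fun z => eval (φ z) P) s + analyticOrderAt (fun z => eval (φ z) Q) s := by
  simp only [map_mul]
  exact analyticOrderAt_mul (CovMap_analytic hφ P) (CovMap_analytic hφ Q)

private lemma CovMap_one {φ : ℂ → Fin (Nn + 1) → ℂ} {s : ℂ} (hφ : AnalyticAt ℂ φ s)
    (P : MvPolynomial (Fin (Nn + 1)) ℂ) : P ∈ CovMap_J hφ 1 ↔ eval (φ s) P = 0 := by
  rw [CovMap_mem, Order.one_le_iff_ne_zero, (CovMap_analytic hφ P).analyticOrderAt_ne_zero]

/-- The map given by the forms `F a`. -/
def coverMap (F : Fin (m + 1) → MvPolynomial (Fin (Nn + 1)) ℂ) (x : PN Nn) : PN m :=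
  if h : (fun a => eval x.rep (F a)) ≠ 0 then Projectivization.mk ℂ _ h
  else Projectivization.mk ℂ (fun _ => 1) fun h => one_ne_zero (congrFun h 0)

theorem coverMap_mk {F : Fin (m + 1) → MvPolynomial (Fin (Nn + 1)) ℂ} {e : ℕ}
    (hF : ∀ a, (F a).IsHomogeneous e) {v : Fin (Nn + 1) → ℂ} (hv : v ≠ 0)
    (h : (fun a => eval v (F a)) ≠ 0) :
    coverMap F (Projectivization.mk ℂ v hv) = Projectivization.mk ℂ _ h := by
  obtain ⟨a, ha, h1⟩ := Pool.Agent.H17.exists_smul_rep v hv
  have h2 : (fun j => eval (Projectivization.mk ℂ v hv).rep (F j)) =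
      a ^ e • fun j => eval v (F j) := by
    funext j
    rw [h1]
    exact Pool.Agent.H17.eval_smul_of_isHomogeneous (hF j) a v
  have h3 : (fun j => eval (Projectivization.mk ℂ v hv).rep (F j)) ≠ 0 := by
    rw [h2]
    exact smul_ne_zero (pow_ne_zero _ ha) h
  unfold coverMap
  rw [dif_pos h3, Projectivization.mk_eq_mk_iff']
  exact ⟨a ^ e, h2.symm⟩

variable {I : Ideal (MvPolynomial (Fin (Nn + 1)) ℂ)} {e : ℕ}
  {F : Fin (m + 1) → MvPolynomial (Fin (Nn + 1)) ℂ}

theorem eval_of_mem (hI : Homog I) {v : Fin (Nn + 1) → ℂ} (hv : v ≠ 0)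
    (h : ∀ Q ∈ I, ∀ k, Q.IsHomogeneous k → VanishesAt Q (Projectivization.mk ℂ v hv))
    {Q : MvPolynomial (Fin (Nn + 1)) ℂ} (hQ : Q ∈ I) : eval v Q = 0 := by
  rw [← MvPolynomial.sum_homogeneousComponent Q, map_sum]
  refine Finset.sum_eq_zero fun k _ => ?_
  have h1 := h _ (hI Q hQ k) k (homogeneousComponent_isHomogeneous k Q)
  unfold VanishesAt at h1
  obtain ⟨a, ha, h2⟩ := Pool.Agent.H17.exists_smul_rep v hv
  rw [h2] at h1
  have h3 := Pool.Agent.H17.eval_smul_of_isHomogeneous (homogeneousComponent_isHomogeneous k Q) a v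
  have h4 : a ^ k * eval v (homogeneousComponent k Q) = 0 := by
    rw [← h3]
    exact h1
  exact (mul_eq_zero.1 h4).resolve_left (pow_ne_zero _ ha)

theorem eval_ne_zero (hF : BaseFree I e F) {v : Fin (Nn + 1) → ℂ} (hv : v ≠ 0)
    (h : ∀ Q ∈ I, eval v Q = 0) : (fun a => eval v (F a)) ≠ 0 := by
  intro h0
  apply hv
  funext i
  obtain ⟨k, hk⟩ := hF.base i
  have h1 : Ideal.span (Set.range F) ⊔ I ≤ RingHom.ker (eval v) := by
    refine sup_le (Ideal.span_le.2 ?_) fun Q hQ => ?_
    · rintro _ ⟨a, rfl⟩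
      exact congrFun h0 a
    · exact h Q hQ
  have h2 := h1 hk
  rw [RingHom.mem_ker, map_pow, eval_X] at h2
  exact eq_zero_of_pow_eq_zero h2

/-- The composition is holomorphic. -/
theorem coverMap_holomorphic (hI : Homog I) (hF : BaseFree I e F) {f : ℂ → PN Nn} {U : Set ℂ}
    (hU : IsOpen U) (hf : HolomorphicInto f U)
    (hfX : ∀ z ∈ U, ∀ Q ∈ I, ∀ k, Q.IsHomogeneous k → VanishesAt Q (f z)) :
    HolomorphicInto (fun z => coverMap F (f z)) U := by
  intro s hs
  obtain ⟨φ, hφ, he⟩ := hf s hs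
  refine ⟨fun z a => eval (φ z) (F a), ?_, ?_⟩
  · rw [analyticAt_pi_iff]
    exact fun a => CovMap_analytic hφ (F a)
  · filter_upwards [he, hU.mem_nhds hs] with z hz hzU
    obtain ⟨h1, h2⟩ := hz
    have h3 : ∀ Q ∈ I, eval (φ z) Q = 0 := by
      intro Q hQ
      refine eval_of_mem hI h1 ?_ hQ
      intro Q' hQ' k hk
      rw [← h2]
      exact hfX z hzU Q' hQ' k hk
    have h4 := eval_ne_zero hF h1 h3
    refine ⟨h4, ?_⟩
    rw [h2]
    exact coverMap_mk hF.hom h1 h4

/-- Multiplicities. -/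
theorem meets_of_ramM {q : ℕ} (hI : Homog I) (hF : BaseFree I e F) {f : ℂ → PN Nn} {U : Set ℂ}
    (hU : IsOpen U) (hf : HolomorphicInto f U)
    (hfX : ∀ z ∈ U, ∀ Q ∈ I, ∀ k, Q.IsHomogeneous k → VanishesAt Q (f z)) {l : Fin (m + 1) → ℂ}
    (hram : RamM q I (comb l F) ∨ ∀ z ∈ U, ¬ VanishesAt (comb l F) (f z)) :
    MeetsWithMult q l (fun z => coverMap F (f z)) U := by
  intro s hs
  obtain ⟨φ, hφ, he⟩ := hf s hs
  have hvan : ∀ᶠ z in 𝓝 s, ∀ Q ∈ I, eval (φ z) Q = 0 := by
    filter_upwards [he, hU.mem_nhds hs] with z hz hzU Q hQ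
    obtain ⟨h1, h2⟩ := hz
    refine eval_of_mem hI h1 ?_ hQ
    intro Q' hQ' k hk
    rw [← h2]
    exact hfX z hzU Q' hQ' k hk
  have hcomb : ∀ z, ∑ a, l a * eval (φ z) (F a) = eval (φ z) (comb l F) := by
    intro z
    unfold comb
    rw [map_sum]
    refine Finset.sum_congr rfl fun a _ => ?_
    rw [map_mul, eval_C]
  refine ⟨fun z a => eval (φ z) (F a), ?_, ?_, ?_⟩
  · rw [analyticAt_pi_iff]
    exact fun a => CovMap_analytic hφ (F a)
  · filter_upwards [he, hvan] with z hz hz2
    obtain ⟨h1, h2⟩ := hz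
    have h4 := eval_ne_zero hF h1 hz2
    refine ⟨h4, ?_⟩
    rw [h2]
    exact coverMap_mk hF.hom h1 h4
  · intro h0
    have h0' : eval (φ s) (comb l F) = 0 := by
      rw [← hcomb]
      exact h0
    have hgoal : (fun z => ∑ a, l a * eval (φ z) (F a)) = fun z => eval (φ z) (comb l F) := by
      funext z
      exact hcomb z
    change ((q : ℕ) : ℕ∞) ≤ analyticOrderAt (fun z => ∑ a, l a * eval (φ z) (F a)) s
    rw [hgoal]
    obtain ⟨hs1, hs2⟩ := he.self_of_nhds
    rcases hram with hram | hram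
    · obtain ⟨i, hi⟩ : ∃ i, φ s i ≠ 0 := by
        by_contra hc
        push Not at hc
        exact hs1 (funext hc)
      obtain ⟨k, hk⟩ := hram i
      have hIJ : ∀ n : ℕ∞, I ≤ CovMap_J hφ n := by
        intro n Q hQ
        rw [CovMap_mem]
        have : analyticOrderAt (fun z => eval (φ z) Q) s = ⊤ := by
          rw [analyticOrderAt_eq_top]
          filter_upwards [hvan] with z hz
          exact hz Q hQ
        rw [this]
        exact le_top
      have hrad : Ideal.radical (Ideal.span {comb l F} ⊔ I) ≤ CovMap_J hφ 1 := by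
        intro B hB
        obtain ⟨t, ht⟩ := hB
        have h1 : Ideal.span {comb l F} ⊔ I ≤ CovMap_J hφ 1 := by
          refine sup_le ?_ (hIJ 1)
          rw [Ideal.span_singleton_le_iff_mem, CovMap_one]
          exact h0'
        have h2 := h1 ht
        rw [CovMap_one, map_pow] at h2
        rw [CovMap_one]
        exact eq_zero_of_pow_eq_zero h2
      have hsq : ∀ p : ℕ, (Ideal.radical (Ideal.span {comb l F} ⊔ I)) ^ p ≤ CovMap_J hφ p := by
        intro p
        induction p with
        | zero =>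
          intro A _
          rw [CovMap_mem, Nat.cast_zero]
          exact zero_le
        | succ p ih =>
          rw [pow_succ, Ideal.mul_le]
          intro A hA B hB
          rw [CovMap_mem, CovMap_mul hφ]
          have h1 := (CovMap_mem hφ p A).1 (ih hA)
          have h2 := (CovMap_mem hφ 1 B).1 (hrad hB)
          rw [Nat.cast_succ]
          exact add_le_add h1 h2
      have h5 := (sup_le (hsq q) (hIJ q)) hk
      rw [CovMap_mem, CovMap_mul hφ] at h5
      have h6 : analyticOrderAt (fun z => eval (φ z) (X i ^ k : MvPolynomial (Fin (Nn + 1)) ℂ)) s =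
          0 := by
        rw [(CovMap_analytic hφ _).analyticOrderAt_eq_zero, map_pow, eval_X]
        exact pow_ne_zero _ hi
      rw [h6, zero_add] at h5
      exact h5
    · exfalso
      apply hram s hs
      unfold VanishesAt
      obtain ⟨a, ha, h2⟩ := Pool.Agent.H17.exists_smul_rep (φ s) hs1
      rw [hs2, h2]
      have h3 := Pool.Agent.H17.eval_smul_of_isHomogeneous (comb_isHomogeneous l hF.hom) a (φ s)
      have h4 : eval (a • φ s) (comb l F) = a ^ e * eval (φ s) (comb l F) := h3
      rw [h4, h0', mul_zero]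

end Pool.Agent.H5.DG
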