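import Pool.Agent.H5.DG.Defs
import Pool.Agent.H17LG.Variety
import Pool.Agent.H17.BrodyLimit

/-!
# Project DG, module CoverDefs: finite covers of projective space, definitions

`X ⊆ ℙ^Nn` is given by a homogeneous prime ideal `I`; forms `F 0, …, F (n + 1)` of degree `e`
without common zero on `X` define a finite morphism `X → ℙ^(n + 1)`.
-/

open MvPolynomial
open Pool.Agent.H17 (PN VanishesAt)
open Pool.Agent.H17GT (coordFun)
open Pool.Agent.H17LG.Variety (FunField ratio)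
open Pool.Agent.H23.Fano (PrimeDivisorOver)

noncomputable section

namespace Pool.Agent.H5.DG

variable {Nn : ℕ}

/-- The ideal `I` is homogeneous. -/
def Homog (I : Ideal (MvPolynomial (Fin (Nn + 1)) ℂ)) : Prop :=
  ∀ p ∈ I, ∀ k, homogeneousComponent k p ∈ I

/-- The form `L` vanishes with multiplicity at least two on `X`: for all `i` some `x_i ^ k L` is, on
`X`, a sum of products of two polynomials which vanish on `X ∩ {L = 0}`. -/
def Ram (I : Ideal (MvPolynomial (Fin (Nn + 1)) ℂ)) (L : MvPolynomial (Fin (Nn + 1)) ℂ) : Prop :=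
  ∀ i, ∃ k : ℕ, X i ^ k * L ∈ (Ideal.radical (Ideal.span {L} ⊔ I)) ^ 2 ⊔ I

/-- The form `L` vanishes with multiplicity at least `q` on `X`: for all `i` some `x_i ^ k L` is, on
`X`, a sum of products of `q` polynomials which vanish on `X ∩ {L = 0}`. -/
def RamM (q : ℕ) (I : Ideal (MvPolynomial (Fin (Nn + 1)) ℂ))
    (L : MvPolynomial (Fin (Nn + 1)) ℂ) : Prop :=
  ∀ i, ∃ k : ℕ, X i ^ k * L ∈ (Ideal.radical (Ideal.span {L} ⊔ I)) ^ q ⊔ I

/-- The linear combination of the forms `F a`. -/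
def comb {m : ℕ} (l : Fin m → ℂ) (F : Fin m → MvPolynomial (Fin (Nn + 1)) ℂ) :
    MvPolynomial (Fin (Nn + 1)) ℂ :=
  ∑ a, C (l a) * F a

/-- The forms `F a` of degree `e` have no common zero on `X`. -/
structure BaseFree {m : ℕ} (I : Ideal (MvPolynomial (Fin (Nn + 1)) ℂ)) (e : ℕ)
    (F : Fin m → MvPolynomial (Fin (Nn + 1)) ℂ) : Prop where
  pos : 1 ≤ e
  hom : ∀ a, (F a).IsHomogeneous e
  base : ∀ i, ∃ k : ℕ, X i ^ k ∈ Ideal.span (Set.range F) ⊔ I

/-- The points of `X` where none of the forms `H i`, `i ∈ O`, vanishes. -/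
def coverLocus {m : ℕ} (I : Ideal (MvPolynomial (Fin (Nn + 1)) ℂ)) (O : Finset (Fin m))
    (H : Fin m → MvPolynomial (Fin (Nn + 1)) ℂ) : Set (PN Nn) :=
  {x | (∀ Q ∈ I, ∀ k, Q.IsHomogeneous k → VanishesAt Q x) ∧ ∀ i ∈ O, ¬ VanishesAt (H i) x}

/-- The centre of the prime divisor `E` on the closed subvariety given by `P` lies in the union of
the hypersurfaces `H i = 0`, `i ∈ O`. -/
def OnForms {m : ℕ} (P : Ideal (MvPolynomial (Fin (Nn + 1)) ℂ)) [P.IsPrime] (O : Finset (Fin m))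
    (H : Fin m → MvPolynomial (Fin (Nn + 1)) ℂ) {w : ℕ} (E : PrimeDivisorOver (FunField P) w) :
    Prop :=
  ∃ j, coordFun P j ≠ 0 ∧ (∀ i, 0 ≤ E.ord (ratio P i j)) ∧
    ∃ i ∈ O, 0 < E.ord (aeval (fun i' => ratio P i' j) (H i))

theorem RamM.mono {q : ℕ} {I I' : Ideal (MvPolynomial (Fin (Nn + 1)) ℂ)} (h : I ≤ I')
    {L : MvPolynomial (Fin (Nn + 1)) ℂ} (hL : RamM q I L) : RamM q I' L := by
  intro i
  obtain ⟨k, hk⟩ := hL i
  refine ⟨k, ?_⟩
  have h1 : (Ideal.radical (Ideal.span {L} ⊔ I)) ^ q ⊔ I ≤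
      (Ideal.radical (Ideal.span {L} ⊔ I')) ^ q ⊔ I' :=
    sup_le_sup (Ideal.pow_right_mono (Ideal.radical_mono (sup_le_sup_left h _)) q) h
  exact h1 hk

/-- Larger multiplicities. -/
theorem RamM.of_le {q q' : ℕ} (hq : q ≤ q') {I : Ideal (MvPolynomial (Fin (Nn + 1)) ℂ)}
    {L : MvPolynomial (Fin (Nn + 1)) ℂ} (hL : RamM q' I L) : RamM q I L := by
  intro i
  obtain ⟨k, hk⟩ := hL i
  exact ⟨k, sup_le_sup_right (Ideal.pow_le_pow_right hq) I hk⟩

theorem Ram.mono {I I' : Ideal (MvPolynomial (Fin (Nn + 1)) ℂ)} (h : I ≤ I')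
    {L : MvPolynomial (Fin (Nn + 1)) ℂ} (hL : Ram I L) : Ram I' L := by
  intro i
  obtain ⟨k, hk⟩ := hL i
  refine ⟨k, ?_⟩
  have h1 : (Ideal.radical (Ideal.span {L} ⊔ I)) ^ 2 ⊔ I ≤
      (Ideal.radical (Ideal.span {L} ⊔ I')) ^ 2 ⊔ I' :=
    sup_le_sup (Ideal.pow_right_mono (Ideal.radical_mono (sup_le_sup_left h _)) 2) h
  exact h1 hk

theorem BaseFree.mono {m : ℕ} {I I' : Ideal (MvPolynomial (Fin (Nn + 1)) ℂ)} (h : I ≤ I') {e : ℕ}
    {F : Fin m → MvPolynomial (Fin (Nn + 1)) ℂ} (hF : BaseFree I e F) : BaseFree I' e F where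
  pos := hF.pos
  hom := hF.hom
  base i := by
    obtain ⟨k, hk⟩ := hF.base i
    exact ⟨k, sup_le_sup_left h _ hk⟩

theorem comb_isHomogeneous {m e : ℕ} (l : Fin m → ℂ) {F : Fin m → MvPolynomial (Fin (Nn + 1)) ℂ}
    (hF : ∀ a, (F a).IsHomogeneous e) : (comb l F).IsHomogeneous e := by
  refine MvPolynomial.IsHomogeneous.sum _ _ _ fun a _ => ?_
  have := (MvPolynomial.isHomogeneous_C (Fin (Nn + 1)) (l a)).mul (hF a)
  rwa [zero_add] at this

end Pool.Agent.H5.DG
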