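import Pool.Agent.H5.DG.Final
import Pool.Agent.H5.DG.Lang
import Pool.Agent.H39.HC.Covers
import Pool.Agent.H39.HC.GenDiag
import Pool.Agent.H39.HC.Geometry

/-!
# Project DG, module Joint: hyperplanes in general position, general diagonal forms
-/

open MvPolynomial Filter Topology
open Pool.Agent.H17 (PN VanishesAt zeroLocus HolomorphicInto puncturedDisc)
open Pool.Agent.H17LG.Variety (FunField)

noncomputable section

namespace Pool.Agent.H5.DG

/-- There is no hypersurface of degree `b` through the points with the coordinates `l j`. -/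
def NoHypersurface (b : ℕ) {m r : ℕ} (l : Fin m → Fin (r + 1) → ℂ) : Prop :=
  ∀ g : MvPolynomial (Fin (r + 1)) ℂ, g.IsHomogeneous b → (∀ j, eval (l j) g = 0) → g = 0

/-- The common zero locus of the forms `G i` is a closed irreducible variety of dimension `r` which
has the four properties, with the exceptional set `Ξ`. -/
def HasFourProperties (r : ℕ) {N c : ℕ} (G : Fin c → MvPolynomial (Fin (N + 1)) ℂ)
    (Ξ : Set (PN N)) : Prop :=
  ∃ (I : Ideal (MvPolynomial (Fin (N + 1)) ℂ)) (_ : I.IsPrime), Homog I ∧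
    variety I = zeroLocus G ∧ (∃ z : Fin r → FunField I, IsTranscendenceBasis ℂ z) ∧
    FourProperties I ∅ (fun i : Fin 0 => i.elim0) r Ξ

/-- The common zero locus of the forms `G i` is a closed irreducible variety of dimension `r` for
which Lang's conjecture is true, with the exceptional set `Ξ`. -/
def HasLangProperties (r : ℕ) {N c : ℕ} (G : Fin c → MvPolynomial (Fin (N + 1)) ℂ)
    (Ξ : Set (PN N)) : Prop :=
  ∃ (I : Ideal (MvPolynomial (Fin (N + 1)) ℂ)) (_ : I.IsPrime), Homog I ∧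
    variety I = zeroLocus G ∧ (∃ z : Fin r → FunField I, IsTranscendenceBasis ℂ z) ∧
    LangProperties I r Ξ

theorem diag_properties {n k N c d : ℕ} {a : Fin c → Fin (N + 1) → ℂ}
    {l : Fin (N + 1) → Fin (n + 2) → ℂ} {Δ : PV n} (hc : c + (n + 1) = N) (hd : 2 ≤ d)
    (hl : GenPos l) (hker : ∀ y : Fin (N + 1) → ℂ, (∀ i, ∑ j, a i j * y j = 0) ↔
      ∃ v : Fin (n + 2) → ℂ, ∀ j, y j = dot (l j) v) (hk : Δ.IsHomogeneous k)
    (h : HyperplaneTheorem d l Δ) (hne : ∀ (N e : ℕ) (I : Ideal (MvPolynomial (Fin (N + 1)) ℂ))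
      (_ : I.IsPrime) (F : Fin (n + 2) → MvPolynomial (Fin (N + 1)) ℂ), Homog I → BaseFree I e F →
      (∃ z : Fin (n + 1) → FunField I, IsTranscendenceBasis ℂ z) → aeval F Δ ∉ I) :
    ∃ F : Fin (n + 2) → MvPolynomial (Fin (N + 1)) ℂ,
      HasFourProperties (n + 1) (diagForm a d)
        {x | x ∈ zeroLocus (diagForm a d) ∧ VanishesAt (aeval F Δ) x} ∧
      HasLangProperties (n + 1) (diagForm a d)
        {x | x ∈ zeroLocus (diagForm a d) ∧ VanishesAt (aeval F Δ) x} := by
  obtain ⟨b, I, hI, hhom, hF, hram, hX, hz⟩ := diag_data_of (n := n) hc hd hl hker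
  have hvar : variety I = zeroLocus (diagForm a d) := Set.ext hX
  have h1 := (h.covers N d I (diagF b d) ∅ hhom hF (fun j hj => absurd hj (Finset.notMem_empty j))
    fun j _ => hram j).2 _ (by omega) hz
  have h2 := (h1.2 (hne N d I hI _ hhom hF hz)).empty (H' := fun i : Fin 0 => i.elim0)
  have h3 := (h.lang hk N d I (diagF b d) hhom hF (fun j => hram j) _ (by omega) hz).2
    (hne N d I hI _ hhom hF hz)
  refine ⟨diagF b d, ⟨I, hI, hhom, hvar, hz, ?_⟩, ⟨I, hI, hhom, hvar, hz, ?_⟩⟩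
  · have h4 : excLocus l Δ I (diagF b d) ∅ =
        {x | x ∈ zeroLocus (diagForm a d) ∧ VanishesAt (aeval (diagF b d) Δ) x} := by
      unfold excLocus
      rw [coverLocus_eq, hvar]
    rwa [h4] at h2
  · rwa [hvar] at h3

/-- All smooth diagonal complete intersections. -/
theorem diag_smooth {n N₀ : ℕ} (hmain : ∀ (m : ℕ) (l : Fin m → Fin (n + 2) → ℂ), N₀ ≤ m →
    GenPos l → ∃ (k : ℕ) (Δ : PV n), Δ ≠ 0 ∧ Δ.IsHomogeneous k ∧ HyperplaneTheorem 2 l Δ)
    {N c d : ℕ} (hN : N₀ ≤ N + 1) (hc : c + (n + 1) = N) (hd : 2 ≤ d)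
    {a : Fin c → Fin (N + 1) → ℂ} (hs : SmoothIntersection (diagForm a d)) :
    ∃ Ξ : Set (PN N), HasFourProperties (n + 1) (diagForm a d) Ξ ∧
      HasLangProperties (n + 1) (diagForm a d) Ξ := by
  obtain ⟨l, hl, hker⟩ := exists_forms hc hd hs
  obtain ⟨k, Δ, hΔ, hk, h⟩ := hmain (N + 1) l hN hl
  obtain ⟨F, h1⟩ := diag_properties hc hd hl hker hk (h.of_le hd)
    fun N e I _ F hhom hF hz => delta_notMem I hhom hF hz hΔ hk
  exact ⟨_, h1⟩

/-- General diagonal complete intersections. -/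
theorem diag_general {n N c d b : ℕ} (hb : (n + 1) * (d + 1) < b * (d - 1))
    (hN : (n + 1 + b).choose (n + 1) ≤ N + 1) (hc : c + (n + 1) = N) (hd : 2 ≤ d) :
    ∃ D : MvPolynomial (Fin c × Fin (N + 1)) ℂ, D ≠ 0 ∧ ∀ a : Fin c → Fin (N + 1) → ℂ,
      eval (fun p => a p.1 p.2) D ≠ 0 → HasFourProperties (n + 1) (diagForm a d) ∅ ∧
        HasLangProperties (n + 1) (diagForm a d) ∅ := by
  obtain rfl : c = N - (n + 1) := by omega
  obtain ⟨D, hD, h⟩ := Pool.Agent.H39.HC.exists_general_diag (n := n + 1) (N := N)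
    (d := b) (by omega) hN
  refine ⟨D, hD, fun a ha => ?_⟩
  obtain ⟨t, ht, hs, hbt⟩ := h a ha
  have hl : GenPos t := by
    intro s hs
    have h1 := ht (Finset.univ.image s) (Finset.card_image_le.trans (by simp))
    have h2 : Function.Injective fun i : Fin (n + 2) =>
        (⟨s i, Finset.mem_image_of_mem _ (Finset.mem_univ i)⟩ : Finset.univ.image s) := by
      intro i j hij
      exact hs (congrArg Subtype.val hij)
    exact h1.comp _ h2
  have hker : ∀ y : Fin (N + 1) → ℂ, (∀ i, ∑ j, a i j * y j = 0) ↔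
      ∃ v : Fin (n + 2) → ℂ, ∀ j, y j = dot (t j) v := by
    intro y
    have h1 := Pool.Agent.H39.HC.eval_diagForm_eq_zero_iff (m := 1) hbt y
    simp only [Pool.Agent.H39.HC.diagForm, Pool.Agent.H39.HC.lin, map_sum, map_mul,
      eval_C, eval_X, pow_one, smul_eq_mul] at h1
    exact h1
  have hmain := Pool.Agent.H39.HC.hyperplaneTheorem_of_spans (by omega) hd hb hl hs
  obtain ⟨F, h1, h2⟩ := diag_properties hc hd hl hker (isHomogeneous_one _ _) hmain
    fun N e I hI F hhom hF hz => by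
      rw [map_one]
      exact fun hcon => hI.ne_top ((Ideal.eq_top_iff_one I).2 hcon)
  have h3 : {x | x ∈ zeroLocus (diagForm a d) ∧ VanishesAt (aeval F (1 : PV n)) x} =
      (∅ : Set (PN N)) := by
    ext x
    simp only [Set.mem_ofPred_eq, Set.mem_empty_iff_false, iff_false, not_and]
    intro _ hv
    unfold VanishesAt at hv
    rw [map_one, map_one] at hv
    exact one_ne_zero hv
  rw [h3] at h1 h2
  exact ⟨h1, h2⟩

end Pool.Agent.H5.DG
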