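import Pool.Agent.H5.DG.SecBase

/-!
# Project DG2, module SecOrb: maps to a variety which meet hypersurface sections with multiplicities
-/

open MvPolynomial Filter Topology
open Pool.Agent.H17 (PN VanishesAt zeroLocus HolomorphicInto puncturedDisc)

noncomputable section

namespace Pool.Agent.H5.DG

/-- Entire curves: the map `f (exp (1 / z))` of the punctured disc. -/
theorem brody_of_picard {r k : ℕ} {Δ : MvPolynomial (Fin (r + 1)) ℂ} (hk : Δ.IsHomogeneous k)
    {f : ℂ → PN r} (hf : HolomorphicInto f Set.univ) (hne : ∃ z, ¬ VanishesAt Δ (f z))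
    (hpic : HolomorphicInto (fun z => f (Complex.exp z⁻¹)) puncturedDisc →
      (∃ z ∈ puncturedDisc, ¬ VanishesAt Δ (f (Complex.exp z⁻¹))) →
      ∃ g : ℂ → PN r, HolomorphicInto g (Metric.ball 0 1) ∧
        ∀ z ∈ puncturedDisc, g z = f (Complex.exp z⁻¹)) (z w : ℂ) : f z = f w := by
  obtain ⟨w₀, hw₀, hw₀'⟩ : ∃ w, w ≠ 0 ∧ ¬ VanishesAt Δ (f w) := by
    obtain ⟨z₁, hz₁⟩ := hne
    by_cases hz0 : z₁ = 0
    · subst hz0
      obtain ⟨ψ, hψ, he⟩ := hf 0 (Set.mem_univ 0)
      rcases vanish_local hψ he hk with h1 | h1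
      · exact absurd h1.self_of_nhds hz₁
      · obtain ⟨w, hw1, hw2⟩ := (h1.and self_mem_nhdsWithin).exists
        exact ⟨w, hw2, hw1⟩
    · exact ⟨z₁, hz0, hz₁⟩
  have hgh : HolomorphicInto (fun z => f (Complex.exp z⁻¹)) puncturedDisc := by
    refine Pool.Agent.H17.HolomorphicInto.comp hf (u := fun z => Complex.exp z⁻¹) ?_
      (fun _ _ => Set.mem_univ _)
    intro z hz
    have h1 : z ≠ 0 := hz.2
    exact (analyticAt_inv h1).cexp
  obtain ⟨g, hg, hge⟩ := hpic hgh (by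
    obtain ⟨zs, h1, h2⟩ := Pool.Agent.H99.Cover.exists_seq_exp_inv w₀ hw₀
    obtain ⟨k, h3, h4⟩ := (h2.and (h1.eventually
      (Metric.ball_mem_nhds (0 : ℂ) one_pos))).exists
    refine ⟨zs k, ⟨h4, h3.1⟩, ?_⟩
    rw [h3.2]
    exact hw₀')
  exact const_of_extension hf hg hge z w

private theorem SecOrb_analytic {r : ℕ} {φ : ℂ → Fin (r + 1) → ℂ} {s : ℂ}
    (hφ : AnalyticAt ℂ φ s) (G : MvPolynomial (Fin (r + 1)) ℂ) :
    AnalyticAt ℂ (fun z => eval (φ z) G) s := by
  induction G using MvPolynomial.induction_on with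
  | C a =>
    simp only [eval_C]
    exact analyticAt_const
  | add p q hp hq =>
    simp only [map_add]
    exact hp.add hq
  | mul_X p i hp =>
    simp only [map_mul, eval_X]
    exact hp.mul (analyticAt_pi_iff.mp hφ i)

/-- The substitution `exp (1 / z)` does not change multiplicities. -/
theorem MeetsForm.exp {q r : ℕ} {G : MvPolynomial (Fin (r + 1)) ℂ} {f : ℂ → PN r}
    (hm : MeetsForm q G f Set.univ) :
    MeetsForm q G (fun z => f (Complex.exp z⁻¹)) puncturedDisc := by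
  intro s hs
  obtain ⟨ψ, hψ, he, hord⟩ := hm (Complex.exp s⁻¹) (Set.mem_univ _)
  have hs0 : s ≠ 0 := hs.2
  have hu : AnalyticAt ℂ (fun z : ℂ => Complex.exp z⁻¹) s := (analyticAt_inv hs0).cexp
  refine ⟨fun z => ψ (Complex.exp z⁻¹), ?_, ?_, fun h0 => ?_⟩
  · exact AnalyticAt.comp (g := ψ) (f := fun z : ℂ => Complex.exp z⁻¹) hψ hu
  · exact hu.continuousAt.eventually he
  · have h1 := hord h0
    have hA : AnalyticAt ℂ (fun z => eval (ψ z) G) (Complex.exp s⁻¹) := SecOrb_analytic hψ G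
    have h2 : analyticOrderAt (fun z => eval (ψ (Complex.exp z⁻¹)) G) s =
        analyticOrderAt (fun z => eval (ψ z) G) (Complex.exp s⁻¹) *
          analyticOrderAt (fun z => Complex.exp z⁻¹ - Complex.exp s⁻¹) s :=
      AnalyticAt.analyticOrderAt_comp (f := fun z => eval (ψ z) G)
        (g := fun z : ℂ => Complex.exp z⁻¹) hA hu
    have h3 : (1 : ℕ∞) ≤ analyticOrderAt (fun z => Complex.exp z⁻¹ - Complex.exp s⁻¹) s := by
      rw [Order.one_le_iff_ne_zero]
      intro h4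
      have h5 : AnalyticAt ℂ (fun z : ℂ => Complex.exp z⁻¹ - Complex.exp s⁻¹) s :=
        hu.fun_sub analyticAt_const
      rw [h5.analyticOrderAt_eq_zero] at h4
      exact h4 (sub_self _)
    rw [h2]
    calc ((q : ℕ) : ℕ∞) = ((q : ℕ) : ℕ∞) * 1 := (mul_one _).symm
      _ ≤ _ := mul_le_mul' h1 h3

section

variable {M n e₀ : ℕ} {P : Ideal (MvPolynomial (Fin (M + 1)) ℂ)}
  {B : Fin (n + 1) → MvPolynomial (Fin (M + 1)) ℂ}

/-- Multiplicities of the composition with the morphism given by `B`. -/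
theorem MeetsForm.coverMap {q : ℕ} (hP : Homog P) (hB : BaseFree P e₀ B) {f : ℂ → PN M}
    {U : Set ℂ} (hU : IsOpen U) (hfY : ∀ z ∈ U, f z ∈ variety P)
    {G : MvPolynomial (Fin (M + 1)) ℂ} {p : Fin (n + 1) → ℂ} {c : ℂ} (hc : c ≠ 0)
    (hG : C c * G - comb p B ∈ P) (hm : MeetsForm q G f U) :
    MeetsWithMult q p (fun z => coverMap B (f z)) U := by
  intro s hs
  obtain ⟨φ, hφ, he, hord⟩ := hm s hs
  have hvan : ∀ᶠ z in 𝓝 s, ∀ Q ∈ P, eval (φ z) Q = 0 := by
    filter_upwards [he, hU.mem_nhds hs] with z hz hzU Q hQ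
    obtain ⟨h1, h2⟩ := hz
    refine eval_of_mem hP h1 ?_ hQ
    intro Q' hQ' k hk
    rw [← h2]
    exact hfY z hzU Q' hQ' k hk
  have hcomb : ∀ z, ∑ a, p a * eval (φ z) (B a) = eval (φ z) (comb p B) := by
    intro z
    unfold comb
    rw [map_sum]
    refine Finset.sum_congr rfl fun a _ => ?_
    rw [map_mul, eval_C]
  have hGz : ∀ᶠ z in 𝓝 s, ∑ a, p a * eval (φ z) (B a) = c * eval (φ z) G := by
    filter_upwards [hvan] with z hz
    have h1 := hz _ hG
    rw [map_sub, map_mul, eval_C, sub_eq_zero] at h1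
    rw [hcomb, h1]
  refine ⟨fun z a => eval (φ z) (B a), ?_, ?_, ?_⟩
  · rw [analyticAt_pi_iff]
    exact fun a => SecOrb_analytic hφ (B a)
  · filter_upwards [he, hvan] with z hz hz2
    obtain ⟨h1, h2⟩ := hz
    have h4 := eval_ne_zero hB h1 hz2
    refine ⟨h4, ?_⟩
    rw [h2]
    exact coverMap_mk hB.hom h1 h4
  · intro h0
    have h1 := hGz.self_of_nhds
    rw [h0] at h1
    have h2 : eval (φ s) G = 0 := (mul_eq_zero.1 h1.symm).resolve_left hc
    have h3 := hord h2
    have h4 : analyticOrderAt (fun z => ∑ a, p a * eval (φ z) (B a)) s =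
        analyticOrderAt (fun z => c * eval (φ z) G) s := analyticOrderAt_congr hGz
    have h5 : analyticOrderAt (fun z => c * eval (φ z) G) s =
        analyticOrderAt (fun _ : ℂ => c) s + analyticOrderAt (fun z => eval (φ z) G) s :=
      analyticOrderAt_mul analyticAt_const (SecOrb_analytic hφ G)
    change (q : ℕ∞) ≤ analyticOrderAt (fun z => ∑ a, p a * eval (φ z) (B a)) s
    rw [h4, h5]
    exact h3.trans le_add_self

/-- **Maps to a variety with multiplicities over hypersurface sections.** -/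
theorem OrbifoldSection.of_orbExt {q m m' k : ℕ} (hP : Homog P) (hB : BaseFree P e₀ B)
    {G : Fin m → MvPolynomial (Fin (M + 1)) ℂ} {p : Fin m' → Fin (n + 1) → ℂ}
    {Δ' : MvPolynomial (Fin (n + 1)) ℂ} (hk : Δ'.IsHomogeneous k) (h : OrbExt q p Δ')
    {σ : Fin m' → Fin m} {c : Fin m' → ℂ} (hc : ∀ j, c j ≠ 0)
    (hG : ∀ j, C (c j) * G (σ j) - comb (p j) B ∈ P) :
    OrbifoldSection q P G (aeval B Δ') := by
  have hpic : ∀ f : ℂ → PN M, HolomorphicInto f puncturedDisc →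
      (∀ z ∈ puncturedDisc, f z ∈ variety P) → (∀ j, MeetsForm q (G j) f puncturedDisc) →
      (∃ z ∈ puncturedDisc, ¬ VanishesAt (aeval B Δ') (f z)) →
      ∃ g : ℂ → PN M, HolomorphicInto g (Metric.ball 0 1) ∧ ∀ z ∈ puncturedDisc, g z = f z := by
    intro f hf hfY hm hne
    refine extends_of_coverMap hP hB hf hfY (h _ (coverMap_holomorphic hP hB isOpen_puncturedDisc
      hf hfY) (fun j => (hm (σ j)).coverMap hP hB isOpen_puncturedDisc hfY (hc j) (hG j)) ?_)
    obtain ⟨z, hz, hz'⟩ := hne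
    exact ⟨z, hz, fun hcon => hz' ((vanishes_coverMap_iff hP hB hk (hfY z hz)).1 hcon)⟩
  refine ⟨hpic, fun f hf hfY hm hne z w => ?_⟩
  exact brody_of_picard (hk.aeval _ hB.hom) hf hne (fun hgh hne' => hpic _ hgh (fun z _ => hfY _)
    (fun j => (hm j).exp) hne') z w

end

end Pool.Agent.H5.DG
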