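import Pool.Agent.H5.DG.ResEval

/-!
# Project DG, B4: product formula and homogeneity of the Chow form

`chow_prod`: `resW_eq`, `res0_ne`. `chow_hom`: if `Δ (v) ≠ 0` and `a ≠ 0`: `val N (a v) u = a ^ κ val N v u`, so `rts N (a v) = rts N v`,
`tpt N (a v) u = tpt N v u`, `Δ (a v) ≠ 0` (`del` is homogeneous: or use that `Del` is a product of forms in the
coefficients of `N`; simplest: `∃ d, Δ (a v) = a ^ d Δ (v)` is a hypothesis here), and `dot (tpt N v u) v = 0`, so
`φ (a v, b w + c v) = a ^ κ b ^ κ φ (v, w)`. Both sides are polynomials in `v, w, a, b, c` with complex coefficients, so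
the identity, true over `ℂ` (infinite field, dense set), holds for all `L`. Formulate it as an identity of
polynomials over `ℂ` in the variables `v, w, a, b, c` (`MvPolynomial.funext`, complement of the zero set of `Δ (v) * a`) and
specialise to `L`. `evVW_Phi_scale`: replace `w` by `w + (ε / b) e₀`: in `L[ε]`: `φ (a v, b w + c v + ε b e₀) =
a ^ κ b ^ κ φ (v, w + ε e₀)`; compare the coefficients of `ε ^ e`: `b ^ e Phi_e (a v, b w + c v) = a ^ κ b ^ κ Phi_e (v, w)`, for
`e ≤ κ` cancel `b ^ e` (as an identity of polynomials in `b`, so valid for `b = 0`, too). For `e > κ`, `Phi_e = 0` as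
polynomial: compare the two sides of `chow_hom` for `v, w + ε e₀`: `φ` is homogeneous of degree `κ` in `w`.
-/

open MvPolynomial

noncomputable section

namespace Pool.Agent.H5.DG

variable {n κ : ℕ} {N : Polynomial (PV n)} {φ : PVW n} {L : Type} [Field L] [Algebra ℂ L]

private theorem aeval_inl (p : PV n) (v w : Fin (n + 2) → L) :
    MvPolynomial.aeval (Sum.elim v w) (MvPolynomial.rename Sum.inl p : PVW n) =
      MvPolynomial.aeval v p := by
  rw [MvPolynomial.aeval_rename, Sum.elim_comp_inl]

/-- Values of forms at multiples of a point. -/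
private theorem aeval_smul_hom {k : ℕ} {p : PV n} (hp : p.IsHomogeneous k) (a : L)
    (v : Fin (n + 2) → L) :
    MvPolynomial.aeval (fun i => a * v i) p = a ^ k * MvPolynomial.aeval v p := by
  rw [MvPolynomial.aeval_def, MvPolynomial.aeval_def, MvPolynomial.eval₂_eq',
    MvPolynomial.eval₂_eq', Finset.mul_sum]
  refine Finset.sum_congr rfl fun m hm => ?_
  have h1 : ∑ i, m i = k := by
    have h2 := hp (MvPolynomial.mem_support_iff.mp hm)
    rw [← h2, Finsupp.weight_apply, Finsupp.sum_fintype _ _ (by simp)]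
    simp
  simp only [mul_pow, Finset.prod_mul_distrib, Finset.prod_pow_eq_pow_sum, h1]
  ring

/-- Polynomials which agree on the complement of a hypersurface are equal. -/
private theorem eq_of_generic {τ : Type} {P Q D : MvPolynomial τ ℂ} (hD : D ≠ 0)
    (h : ∀ x : τ → ℂ, MvPolynomial.eval x D ≠ 0 →
      MvPolynomial.eval x P = MvPolynomial.eval x Q) : P = Q := by
  have h1 : (P - Q) * D = 0 := by
    refine MvPolynomial.funext fun x => ?_
    rw [map_mul, map_sub, map_zero]
    by_cases hx : MvPolynomial.eval x D = 0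
    · rw [hx, mul_zero]
    · rw [h x hx, sub_self, zero_mul]
  exact sub_eq_zero.mp ((mul_eq_zero.mp h1).resolve_right hD)

/-- Homogeneity relations can be checked at generic complex points. -/
private theorem hom_of_generic {Δ : PV n} (hΔ : Δ ≠ 0) (φ₁ : PVW n) (k l : ℕ)
    (h : ∀ (v w : Fin (n + 2) → ℂ) (a b c : ℂ), MvPolynomial.eval v Δ ≠ 0 → a ≠ 0 → b ≠ 0 →
      evVW φ₁ (fun i => a * v i) (fun i => b * w i + c * v i) = a ^ k * b ^ l * evVW φ₁ v w)
    (v w : Fin (n + 2) → L) (a b c : L) :
    evVW φ₁ (fun i => a * v i) (fun i => b * w i + c * v i) = a ^ k * b ^ l * evVW φ₁ v w := by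
  have key : (MvPolynomial.bind₁ (Sum.elim
      (fun i => MvPolynomial.X (Sum.inr 0) * MvPolynomial.X (Sum.inl (Sum.inl i)))
      (fun i => MvPolynomial.X (Sum.inr 1) * MvPolynomial.X (Sum.inl (Sum.inr i)) +
        MvPolynomial.X (Sum.inr 2) * MvPolynomial.X (Sum.inl (Sum.inl i)))) φ₁ :
        MvPolynomial ((Fin (n + 2) ⊕ Fin (n + 2)) ⊕ Fin 3) ℂ) =
      MvPolynomial.X (Sum.inr 0) ^ k * MvPolynomial.X (Sum.inr 1) ^ l *
        MvPolynomial.rename Sum.inl φ₁ := by
    refine eq_of_generic (D := MvPolynomial.rename (fun i => Sum.inl (Sum.inl i)) Δ *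
      (MvPolynomial.X (Sum.inr 0) * MvPolynomial.X (Sum.inr 1))) ?_ fun x hx => ?_
    · refine mul_ne_zero ?_ (mul_ne_zero (MvPolynomial.X_ne_zero _) (MvPolynomial.X_ne_zero _))
      intro h0
      apply hΔ
      refine MvPolynomial.rename_injective (fun i => (Sum.inl (Sum.inl i) :
        (Fin (n + 2) ⊕ Fin (n + 2)) ⊕ Fin 3)) ?_ ?_
      · intro i j hij
        exact Sum.inl_injective (Sum.inl_injective hij)
      · rw [h0, map_zero]
    · rw [map_mul, map_mul, MvPolynomial.eval_X, MvPolynomial.eval_X,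
        MvPolynomial.eval_rename] at hx
      have h1 := h (fun i => x (Sum.inl (Sum.inl i))) (fun i => x (Sum.inl (Sum.inr i)))
        (x (Sum.inr 0)) (x (Sum.inr 1)) (x (Sum.inr 2)) (left_ne_zero_of_mul hx)
        (left_ne_zero_of_mul (right_ne_zero_of_mul hx))
        (right_ne_zero_of_mul (right_ne_zero_of_mul hx))
      rw [map_mul, map_mul, map_pow, map_pow, MvPolynomial.eval_X, MvPolynomial.eval_X,
        MvPolynomial.eval_rename]
      have h2 : ∀ (p : MvPolynomial ((Fin (n + 2) ⊕ Fin (n + 2)) ⊕ Fin 3) ℂ),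
          MvPolynomial.eval x p = MvPolynomial.aeval x p := fun p => by
        rw [MvPolynomial.aeval_eq_eval]
      rw [h2, MvPolynomial.aeval_bind₁]
      unfold evVW at h1
      convert h1 using 2
      · congr 1
        funext s
        rcases s with i | i <;> simp
      · rw [MvPolynomial.aeval_eq_eval]
        congr 2
        funext s
        rcases s with i | i <;> rfl
  have h3 := congrArg (MvPolynomial.aeval (Sum.elim (Sum.elim v w) ![a, b, c])) key
  rw [MvPolynomial.aeval_bind₁, map_mul, map_mul, map_pow, map_pow, MvPolynomial.aeval_X,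
    MvPolynomial.aeval_X, MvPolynomial.aeval_rename] at h3
  unfold evVW
  convert h3 using 2
  · congr 1
    funext s
    rcases s with i | i <;> simp
  · congr 1
  · rw [Sum.elim_comp_inl]

theorem chow_prod [IsAlgClosed L] (hκ : 1 ≤ κ) (hN : IsPreNorm κ N)
    (hφ : MvPolynomial.rename Sum.inl (N.coeff κ) * resW κ N =
      φ * MvPolynomial.rename Sum.inl (res0 κ N)) (v w : Fin (n + 2) → L)
    (hΔ : MvPolynomial.aeval v (Del κ N) ≠ 0) :
    evVW φ v w = MvPolynomial.aeval v (N.coeff κ) * ∏ u ∈ rts N v, dot (tpt N v u) w := by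
  have h1 := congrArg (MvPolynomial.aeval (Sum.elim v w)) hφ
  rw [map_mul, map_mul, aeval_inl, aeval_inl] at h1
  have h2 := resW_eq hκ hN v w hΔ
  unfold evVW at h2 ⊢
  rw [h1] at h2
  exact mul_right_cancel₀ (res0_ne v hΔ) h2

theorem chow_hom (hκ : 1 ≤ κ) (hN : IsPreNorm κ N) (hΔ : Del κ N ≠ 0)
    (hΔ' : ∃ d, (Del κ N).IsHomogeneous d)
    (hφ : MvPolynomial.rename Sum.inl (N.coeff κ) * resW κ N =
      φ * MvPolynomial.rename Sum.inl (res0 κ N)) (v w : Fin (n + 2) → L) (a b c : L) :
    evVW φ (fun i => a * v i) (fun i => b * w i + c * v i) = a ^ κ * b ^ κ * evVW φ v w := by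
  refine hom_of_generic hΔ φ κ κ (fun v w a b c hv ha _ => ?_) v w a b c
  obtain ⟨d, hd⟩ := hΔ'
  have hv' : MvPolynomial.aeval v (Del κ N) ≠ 0 := by
    rw [MvPolynomial.aeval_eq_eval]
    exact hv
  have hav : MvPolynomial.aeval (fun i => a * v i) (Del κ N) ≠ 0 := by
    rw [aeval_smul_hom hd]
    exact mul_ne_zero (pow_ne_zero _ ha) hv'
  have hrts : rts N (fun i => a * v i) = rts N v := by
    ext u
    rw [mem_roots_iff hN _ hav, mem_roots_iff hN _ hv', val_smul hN]
    constructor
    · intro h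
      exact (mul_eq_zero.mp h).resolve_left (pow_ne_zero _ ha)
    · intro h
      rw [h, mul_zero]
  rw [chow_prod hκ hN hφ _ _ hav, chow_prod hκ hN hφ _ _ hv', aeval_smul_hom (hN.hom κ), hrts]
  have hprod : ∏ u ∈ rts N v, dot (tpt N (fun i => a * v i) u) (fun i => b * w i + c * v i) =
      b ^ κ * ∏ u ∈ rts N v, dot (tpt N v u) w := by
    rw [← card_roots hκ hN v hv', ← Finset.prod_const, ← Finset.prod_mul_distrib]
    refine Finset.prod_congr rfl fun u hu => ?_
    have hu0 := (mem_roots_iff hN v hv' u).mp hu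
    have hu1 : val N (fun i => a * v i) u = 0 := by rw [val_smul hN, hu0, mul_zero]
    obtain ⟨h1, -, h2, h3, -, -⟩ := tpt_facts hκ hN _ hav hu1
    obtain ⟨-, -, -, h4, h5, -⟩ := tpt_facts hκ hN v hv' hu0
    have h6 : dot (tpt N (fun i => a * v i) u) v = 0 := by
      have h7 : dot (tpt N (fun i => a * v i) u) (fun i => a * v i) =
          a * dot (tpt N (fun i => a * v i) u) v := by
        unfold dot
        rw [Finset.mul_sum]
        exact Finset.sum_congr rfl fun i _ => by ring
      rw [h7] at h3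
      exact (mul_eq_zero.mp h3).resolve_left ha
    rw [h5 _ h1 h2 h6]
    have h8 : dot (tpt N v u) (fun i => b * w i + c * v i) =
        b * dot (tpt N v u) w + c * dot (tpt N v u) v := by
      unfold dot
      rw [Finset.mul_sum, Finset.mul_sum, ← Finset.sum_add_distrib]
      exact Finset.sum_congr rfl fun i _ => by ring
    rw [h8, h4, mul_zero, add_zero]
  rw [hprod]
  ring

/-- The polynomial in `ε` whose coefficients are the `Phi φ e`. -/
private theorem phi_expand' (φ : PVW n) : ∃ Q : Polynomial (PVW n),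
    (∀ e, Phi φ e = Q.coeff e) ∧ ∀ (L : Type) [Field L] [Algebra ℂ L]
      (v w : Fin (n + 2) → L) (ε : L),
      (Q.map (MvPolynomial.aeval (Sum.elim v w) : PVW n →ₐ[ℂ] L).toRingHom).eval ε =
        evVW φ v (fun a => w a + if a = 0 then ε else 0) := by
  refine ⟨_, fun e => rfl, fun L _ _ v w ε => ?_⟩
  rw [Polynomial.eval_map]
  unfold evVW
  induction φ using MvPolynomial.induction_on with
  | C a =>
    rw [MvPolynomial.algHom_C, MvPolynomial.algHom_C, Polynomial.algebraMap_apply,
      Polynomial.eval₂_C]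
    simp [MvPolynomial.algebraMap_eq]
  | add p q hp hq => rw [map_add, map_add, Polynomial.eval₂_add, hp, hq]
  | mul_X p s hp =>
    rw [map_mul, map_mul, Polynomial.eval₂_mul, hp, MvPolynomial.aeval_X, MvPolynomial.aeval_X]
    congr 1
    rcases s with i | i
    · simp
    · rw [Sum.elim_inr, Sum.elim_inr, Polynomial.eval₂_add, Polynomial.eval₂_C]
      by_cases hi : i = 0
      · rw [if_pos hi, if_pos hi, Polynomial.eval₂_X]
        simp
      · rw [if_neg hi, if_neg hi, Polynomial.eval₂_zero]
        simp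

/-- The meaning of `Phi`. -/
theorem phi_expand (φ : PVW n) (v w : Fin (n + 2) → L) (ε : L) :
    ∃ d : ℕ, (∀ e, d < e → evVW (Phi φ e) v w = 0) ∧
      evVW φ v (fun a => w a + if a = 0 then ε else 0) =
        ∑ e ∈ Finset.range (d + 1), evVW (Phi φ e) v w * ε ^ e := by
  obtain ⟨Q, hQ1, hQ2⟩ := phi_expand' φ
  refine ⟨Q.natDegree, fun e he => ?_, ?_⟩
  · rw [hQ1, Polynomial.coeff_eq_zero_of_natDegree_lt he]
    unfold evVW
    rw [map_zero]
  · rw [← hQ2, Polynomial.eval_map, Polynomial.eval₂_eq_sum_range]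
    refine Finset.sum_congr rfl fun e _ => ?_
    rw [hQ1]
    rfl

/-- The identity of the coefficients. -/
private theorem scale_aux (hκ : 1 ≤ κ) (hN : IsPreNorm κ N) (hΔ : Del κ N ≠ 0)
    (hΔ' : ∃ d, (Del κ N).IsHomogeneous d)
    (hφ : MvPolynomial.rename Sum.inl (N.coeff κ) * resW κ N =
      φ * MvPolynomial.rename Sum.inl (res0 κ N)) (e : ℕ) (v w : Fin (n + 2) → L) (a b c : L) :
    b ^ e * evVW (Phi φ e) (fun i => a * v i) (fun i => b * w i + c * v i) =
      a ^ κ * b ^ κ * evVW (Phi φ e) v w := by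
  obtain ⟨Q, hQ1, hQ2⟩ := phi_expand' φ
  have : Infinite L := Infinite.of_injective (algebraMap ℂ L) (algebraMap ℂ L).injective
  have h1 : (Q.map (MvPolynomial.aeval (Sum.elim (fun i => a * v i)
      (fun i => b * w i + c * v i)) : PVW n →ₐ[ℂ] L).toRingHom).comp
        (Polynomial.C b * Polynomial.X) =
      Polynomial.C (a ^ κ * b ^ κ) *
        (Q.map (MvPolynomial.aeval (Sum.elim v w) : PVW n →ₐ[ℂ] L).toRingHom) := by
    refine Polynomial.funext fun ε => ?_
    rw [Polynomial.eval_comp, Polynomial.eval_mul, Polynomial.eval_mul, Polynomial.eval_C,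
      Polynomial.eval_C, Polynomial.eval_X, hQ2, hQ2,
      ← chow_hom hκ hN hΔ hΔ' hφ v (fun a => w a + if a = 0 then ε else 0) a b c]
    congr 1
    funext i
    by_cases hi : i = 0
    · rw [if_pos hi, if_pos hi]
      ring
    · rw [if_neg hi, if_neg hi]
      ring
  have h2 := congrArg (fun P => Polynomial.coeff P e) h1
  beta_reduce at h2
  rw [Polynomial.comp_C_mul_X_coeff, Polynomial.coeff_C_mul, Polynomial.coeff_map,
    Polynomial.coeff_map, ← hQ1] at h2
  rw [mul_comm]
  exact h2

theorem evVW_Phi_scale_aux (hκ : 1 ≤ κ) (hN : IsPreNorm κ N) (hΔ : Del κ N ≠ 0)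
    (hΔ' : ∃ d, (Del κ N).IsHomogeneous d)
    (hφ : MvPolynomial.rename Sum.inl (N.coeff κ) * resW κ N =
      φ * MvPolynomial.rename Sum.inl (res0 κ N)) (e : ℕ) (v w : Fin (n + 2) → L) (a b c : L) :
    evVW (Phi φ e) (fun i => a * v i) (fun i => b * w i + c * v i) =
      a ^ κ * b ^ (κ - e) * evVW (Phi φ e) v w := by
  refine hom_of_generic hΔ (Phi φ e) κ (κ - e) (fun v w a b c _ _ hb => ?_) v w a b c
  have h1 := scale_aux hκ hN hΔ hΔ' hφ e v w a b c
  rcases le_or_gt e κ with he | he
  · have h2 : b ^ κ = b ^ e * b ^ (κ - e) := by rw [← pow_add, Nat.add_sub_cancel' he]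
    rw [h2] at h1
    refine mul_left_cancel₀ (pow_ne_zero e hb) ?_
    rw [h1]
    ring
  · -- the coefficient vanishes
    have h3 : ∀ v w : Fin (n + 2) → ℂ, evVW (Phi φ e) v w = 0 := by
      intro v w
      have h4 : ∀ b : ℂ, b ≠ 0 →
          b ^ (e - κ) * evVW (Phi φ e) v (fun i => b * w i) = evVW (Phi φ e) v w := by
        intro b hb
        have h5 := scale_aux hκ hN hΔ hΔ' hφ e v w 1 b 0
        simp only [one_mul, zero_mul, add_zero, one_pow] at h5
        have h6 : b ^ e = b ^ κ * b ^ (e - κ) := by rw [← pow_add, Nat.add_sub_cancel' he.le]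
        rw [h6, mul_assoc] at h5
        exact mul_left_cancel₀ (pow_ne_zero κ hb) h5
      have hcont : Continuous fun b : ℂ =>
          b ^ (e - κ) * evVW (Phi φ e) v (fun i => b * w i) := by
        unfold evVW
        simp only [MvPolynomial.aeval_eq_eval]
        refine (continuous_id.pow _).mul ?_
        refine (MvPolynomial.continuous_eval _).comp ?_
        refine continuous_pi fun s => ?_
        rcases s with i | i
        · exact continuous_const
        · exact continuous_id.mul continuous_const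
      have h7 := (hcont.tendsto 0).mono_left (nhdsWithin_le_nhds (s := {(0 : ℂ)}ᶜ))
      have h8 : Filter.Tendsto (fun b : ℂ =>
          b ^ (e - κ) * evVW (Phi φ e) v (fun i => b * w i)) (nhdsWithin 0 {(0 : ℂ)}ᶜ)
          (nhds (evVW (Phi φ e) v w)) := by
        refine tendsto_const_nhds.congr' ?_
        filter_upwards [self_mem_nhdsWithin] with b hb
        exact (h4 b hb).symm
      have h9 := tendsto_nhds_unique h8 h7
      rw [h9, zero_pow (by omega), zero_mul]
    rw [h3, h3, mul_zero]

end Pool.Agent.H5.DG
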