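import Pool.Agent.H5.DG.DefsC

/-!
# Project DG, C1: the elementary part of the cluster inequality, complex case

All constants depend on `n, κ, J, p, T, c, C, B` only. Let `0 < δ ≤ 1` be less than half the distances of different `p j`, and of the
`p j` and the `τ ∈ T`. `C_j = {u ∈ R : ‖t u - p j‖ < δ}`: these sets are disjoint and contained in `O`. For `u ∈ R`, `‖t u‖ ≥ 1` (coordinate `0`). For
`u ∉ C_j`: `‖t u - p j‖ ≥ c' ‖t u‖` (if `‖t u‖ ≥ 2 ‖p j‖` then `≥ ‖t u‖ / 2`, otherwise `≥ δ ≥ δ ‖t u‖ / (2 ‖p j‖)`); for `u ∈ C_j`: `‖t u‖ ≤ ‖p j‖ + δ`.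
So, from `h5` and `h3`: `∏_{u ∈ C_j} ‖t u - p j‖ ≤ K A_j` (1); if `C_j = ∅` then `1 ≤ K A_j`.
Upper bounds: `u ∈ C_j`: `‖dot (t u) w‖ ≤ ‖dot (p j) w‖ + (n + 2) ‖t u - p j‖ ‖w‖ ≤ (n + 3) lam max (A_j) (‖t u - p j‖)`; other `u ∈ O`:
`‖dot (t u) w‖ ≤ (n + 2) ‖t u‖ lam`. And `∏_{u ∈ C_j} max (A_j) (‖t u - p j‖) ≤ K A_j` (if one of the maxima is `A_j`: the other factors are `≤ max B 1`;
otherwise (1)). Multiply, and `a ∏_{u ∈ O, in no C_j} ‖t u‖ ≤ a ∏_{u ∈ R} ‖t u‖ ≤ C V ^ κ`.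
-/

open MvPolynomial

noncomputable section

namespace Pool.Agent.H5.DG

private theorem CoreA_delta {α : Type} (s : Finset α) (f : α → ℝ) (hf : ∀ x ∈ s, 0 < f x) :
    ∃ δ : ℝ, 0 < δ ∧ δ ≤ 1 ∧ ∀ x ∈ s, 2 * δ ≤ f x := by
  classical
  induction s using Finset.induction_on with
  | empty => exact ⟨1, one_pos, le_refl _, fun x hx => absurd hx (Finset.notMem_empty x)⟩
  | insert a s ha ih =>
    obtain ⟨δ, h1, h2, h3⟩ := ih fun x hx => hf x (Finset.mem_insert_of_mem hx)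
    refine ⟨min δ (f a / 2), lt_min h1 (half_pos (hf a (Finset.mem_insert_self a s))),
      (min_le_left _ _).trans h2, fun x hx => ?_⟩
    rcases Finset.mem_insert.1 hx with rfl | hx
    · have := min_le_right δ (f x / 2)
      linarith
    · have := min_le_left δ (f a / 2)
      have := h3 x hx
      linarith

private theorem CoreA_dot_le {m : ℕ} (t w : Fin m → ℂ) : ‖dot t w‖ ≤ m * ‖t‖ * ‖w‖ := by
  unfold dot
  refine (norm_sum_le _ _).trans ?_
  have : ∀ a ∈ (Finset.univ : Finset (Fin m)), ‖t a * w a‖ ≤ ‖t‖ * ‖w‖ := fun a _ => by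
    rw [norm_mul]
    exact mul_le_mul (norm_le_pi_norm t a) (norm_le_pi_norm w a) (norm_nonneg _) (norm_nonneg _)
  refine (Finset.sum_le_card_nsmul _ _ _ this).trans ?_
  rw [Finset.card_univ, Fintype.card_fin, nsmul_eq_mul, mul_assoc]

private theorem CoreA_dot_sub {m : ℕ} (t p w : Fin m → ℂ) : dot t w = dot p w + dot (t - p) w := by
  simp only [dot, Pi.sub_apply, ← Finset.sum_add_distrib]
  exact Finset.sum_congr rfl fun a _ => by ring

theorem coreA {n : ℕ} (κ : ℕ) (hκ : 1 ≤ κ) {ι : Type} (J : Finset ι) (p : ι → Fin (n + 2) → ℂ)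
    (hinj : Set.InjOn p J) (T : Finset (Fin (n + 2) → ℂ)) (hJT : ∀ j ∈ J, p j ∉ T) (c C B : ℝ)
    (hc : 0 < c) (hC : 0 < C) :
    ∃ K : ℝ, 0 < K ∧ ∀ (R O : Finset ℂ) (t : ℂ → Fin (n + 2) → ℂ) (a V lam : ℝ)
      (w : Fin (n + 2) → ℂ) (A : ι → ℝ), R.card = κ → O ⊆ R → (∀ u ∈ R, t u 0 = 1) →
      (∀ u ∈ R, u ∉ O → t u ∈ T) → 0 ≤ a → 0 < V →
      c * V ^ κ ≤ a * ∏ u ∈ R, ‖t u‖ → a * ∏ u ∈ R, ‖t u‖ ≤ C * V ^ κ →
      (∀ j ∈ J, a * ∏ u ∈ R, ‖t u - p j‖ ≤ C * (V * A j) * V ^ (κ - 1)) →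
      (∀ j ∈ J, 0 ≤ A j ∧ A j ≤ B ∧ ‖dot (p j) w‖ ≤ lam * A j) → ‖w‖ ≤ lam →
      a * ∏ u ∈ O, ‖dot (t u) w‖ ≤ K * lam ^ O.card * V ^ κ * ∏ j ∈ J, A j := by
  classical
  obtain ⟨δ₁, hδ₁, hδ₁1, hδ₁J⟩ := CoreA_delta ((J ×ˢ J).filter fun x => x.1 ≠ x.2)
    (fun x => ‖p x.1 - p x.2‖) (fun x hx => by
      obtain ⟨h1, h2⟩ := Finset.mem_filter.1 hx
      obtain ⟨h3, h4⟩ := Finset.mem_product.1 h1
      rw [norm_pos_iff, sub_ne_zero]
      exact fun h => h2 (hinj h3 h4 h))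
  obtain ⟨δ₂, hδ₂, hδ₂1, hδ₂T⟩ := CoreA_delta (J ×ˢ T)
    (fun x => ‖x.2 - p x.1‖) (fun x hx => by
      obtain ⟨h3, h4⟩ := Finset.mem_product.1 hx
      rw [norm_pos_iff, sub_ne_zero]
      exact fun h => hJT _ h3 (h ▸ h4))
  set δ := min δ₁ δ₂ with hδdef
  have hδ : 0 < δ := lt_min hδ₁ hδ₂
  have hδ1 : δ ≤ 1 := (min_le_left _ _).trans hδ₁1
  have hδJ : ∀ j ∈ J, ∀ j' ∈ J, j ≠ j' → 2 * δ ≤ ‖p j - p j'‖ := fun j hj j' hj' hne => by
    have := hδ₁J (j, j') (Finset.mem_filter.2 ⟨Finset.mem_product.2 ⟨hj, hj'⟩, hne⟩)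
    have := min_le_left δ₁ δ₂
    simp only at *
    linarith
  have hδT : ∀ j ∈ J, ∀ τ ∈ T, 2 * δ ≤ ‖τ - p j‖ := fun j hj τ hτ => by
    have := hδ₂T (j, τ) (Finset.mem_product.2 ⟨hj, hτ⟩)
    have := min_le_right δ₁ δ₂
    simp only at *
    linarith
  set M : ℝ := 1 + ∑ j ∈ J, ‖p j‖ with hM
  have hM1 : 1 ≤ M := by
    have : 0 ≤ ∑ j ∈ J, ‖p j‖ := Finset.sum_nonneg fun j _ => norm_nonneg _
    linarith
  have hMp : ∀ j ∈ J, ‖p j‖ ≤ M := fun j hj => by
    have := Finset.single_le_sum (f := fun j => ‖p j‖) (fun j _ => norm_nonneg _) hj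
    linarith
  have hM0 : 0 < M := lt_of_lt_of_le one_pos hM1
  set b : ℝ := δ / (2 * M) / (2 * M) with hb
  have hb0 : 0 < b := by positivity
  set B' : ℝ := max B 1 with hB'
  have hB'1 : 1 ≤ B' := le_max_right _ _
  set K₁ : ℝ := C / (b ^ κ * c) with hK₁
  set K₂ : ℝ := max K₁ (B' ^ κ) with hK₂
  have hK₂0 : 0 < K₂ := lt_of_lt_of_le (by positivity) (le_max_right _ _)
  refine ⟨(n + 3 : ℝ) ^ κ * C * K₂ ^ J.card, by positivity, ?_⟩
  intro R O t a V lam w A hR hO ht0 hTO ha hV h1 h2 h3 hA hw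
  have hlam : 0 ≤ lam := (norm_nonneg w).trans hw
  have ht1 : ∀ u ∈ R, 1 ≤ ‖t u‖ := fun u hu => by
    have := norm_le_pi_norm (t u) 0
    rwa [ht0 u hu, norm_one] at this
  -- the functions `f` and `g`
  set f : ι → ℂ → ℝ := fun j u => if ‖t u - p j‖ < δ then ‖t u - p j‖ else 1 with hf
  set g : ι → ℂ → ℝ := fun j u => if ‖t u - p j‖ < δ then max (A j) ‖t u - p j‖ else 1 with hg
  have hf0 : ∀ j u, 0 ≤ f j u := fun j u => by
    simp only [hf]; split_ifs
    · exact norm_nonneg _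
    · exact zero_le_one
  have hg0 : ∀ j ∈ J, ∀ u, 0 ≤ g j u := fun j hj u => by
    simp only [hg]; split_ifs
    · exact (norm_nonneg _).trans (le_max_right _ _)
    · exact zero_le_one
  have hfle : ∀ j ∈ J, ∀ u ∈ R, b * ‖t u‖ * f j u ≤ ‖t u - p j‖ := by
    intro j hj u hu
    have hn0 := norm_nonneg (t u)
    have hp := hMp j hj
    simp only [hf]
    split_ifs with h
    · -- `u` close to `p j`
      have h4 : ‖t u‖ ≤ 2 * M := by
        have : ‖t u‖ ≤ ‖t u - p j‖ + ‖p j‖ := by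
          calc ‖t u‖ = ‖(t u - p j) + p j‖ := by rw [sub_add_cancel]
            _ ≤ _ := norm_add_le _ _
        linarith
      have h5 : b * ‖t u‖ ≤ 1 := by
        calc b * ‖t u‖ ≤ b * (2 * M) := mul_le_mul_of_nonneg_left h4 hb0.le
          _ = δ / (2 * M) := by rw [hb]; field_simp
          _ ≤ 1 := by rw [div_le_one (by positivity)]; linarith
      calc b * ‖t u‖ * ‖t u - p j‖ ≤ 1 * ‖t u - p j‖ :=
            mul_le_mul_of_nonneg_right h5 (norm_nonneg _)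
        _ = _ := one_mul _
    · rw [mul_one]
      push Not at h
      have h6 : b * ‖t u‖ ≤ δ / (2 * M) * ‖t u‖ := by
        refine mul_le_mul_of_nonneg_right ?_ hn0
        rw [hb]
        exact div_le_self (by positivity) (by linarith)
      refine h6.trans ?_
      rcases le_or_gt (2 * M) ‖t u‖ with h7 | h7
      · have h8 : ‖t u‖ - ‖p j‖ ≤ ‖t u - p j‖ := norm_sub_norm_le _ _
        have h9 : δ / (2 * M) ≤ 1 / 2 := by
          rw [div_le_div_iff₀ (by positivity) (by norm_num)]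
          linarith
        calc δ / (2 * M) * ‖t u‖ ≤ 1 / 2 * ‖t u‖ := mul_le_mul_of_nonneg_right h9 hn0
          _ ≤ ‖t u‖ - ‖p j‖ := by linarith
          _ ≤ _ := h8
      · calc δ / (2 * M) * ‖t u‖ ≤ δ / (2 * M) * (2 * M) :=
            mul_le_mul_of_nonneg_left h7.le (by positivity)
          _ = δ := by field_simp
          _ ≤ _ := h
  have hVκ : 0 < V ^ κ := pow_pos hV κ
  have hprodf : ∀ j ∈ J, ∏ u ∈ R, f j u ≤ K₁ * A j := by
    intro j hj
    have h4 : b ^ κ * (∏ u ∈ R, ‖t u‖) * ∏ u ∈ R, f j u ≤ ∏ u ∈ R, ‖t u - p j‖ := by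
      calc b ^ κ * (∏ u ∈ R, ‖t u‖) * ∏ u ∈ R, f j u = ∏ u ∈ R, (b * ‖t u‖ * f j u) := by
            rw [Finset.prod_mul_distrib, Finset.prod_mul_distrib, Finset.prod_const, hR]
        _ ≤ _ := Finset.prod_le_prod (fun u _ => mul_nonneg (mul_nonneg hb0.le (norm_nonneg _))
            (hf0 j u)) fun u hu => hfle j hj u hu
    have hf00 : 0 ≤ ∏ u ∈ R, f j u := Finset.prod_nonneg fun u _ => hf0 j u
    have h5 : (c * V ^ κ) * (b ^ κ * ∏ u ∈ R, f j u) ≤ (C * A j) * V ^ κ := by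
      calc (c * V ^ κ) * (b ^ κ * ∏ u ∈ R, f j u)
          ≤ (a * ∏ u ∈ R, ‖t u‖) * (b ^ κ * ∏ u ∈ R, f j u) :=
            mul_le_mul_of_nonneg_right h1 (mul_nonneg (pow_nonneg hb0.le _) hf00)
        _ = a * (b ^ κ * (∏ u ∈ R, ‖t u‖) * ∏ u ∈ R, f j u) := by ring
        _ ≤ a * ∏ u ∈ R, ‖t u - p j‖ := mul_le_mul_of_nonneg_left h4 ha
        _ ≤ C * (V * A j) * V ^ (κ - 1) := h3 j hj
        _ = (C * A j) * V ^ κ := by
            obtain ⟨k, rfl⟩ : ∃ k, κ = k + 1 := ⟨κ - 1, by omega⟩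
            rw [Nat.add_sub_cancel, pow_succ]
            ring
    have h6 : c * b ^ κ * ∏ u ∈ R, f j u ≤ C * A j := by
      refine le_of_mul_le_mul_right ?_ hVκ
      calc c * b ^ κ * (∏ u ∈ R, f j u) * V ^ κ = (c * V ^ κ) * (b ^ κ * ∏ u ∈ R, f j u) := by ring
        _ ≤ _ := h5
    have hcb : 0 < b ^ κ * c := by positivity
    rw [hK₁, div_mul_eq_mul_div, le_div_iff₀ hcb]
    calc (∏ u ∈ R, f j u) * (b ^ κ * c) = c * b ^ κ * ∏ u ∈ R, f j u := by ring
      _ ≤ _ := h6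
  have hgB : ∀ j ∈ J, ∀ u, g j u ≤ B' := by
    intro j hj u
    simp only [hg]
    split_ifs with h
    · refine max_le ((hA j hj).2.1.trans (le_max_left _ _)) ?_
      linarith
    · exact hB'1
  have hprodg : ∀ j ∈ J, ∏ u ∈ R, g j u ≤ K₂ * A j := by
    intro j hj
    have hA0 := (hA j hj).1
    by_cases hcase : ∃ u₀ ∈ R, ‖t u₀ - p j‖ < δ ∧ ‖t u₀ - p j‖ < A j
    · obtain ⟨u₀, hu₀, hu₀1, hu₀2⟩ := hcase
      rw [← Finset.mul_prod_erase R _ hu₀]
      have e1 : g j u₀ = A j := by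
        simp only [hg]
        rw [if_pos hu₀1, max_eq_left hu₀2.le]
      have e2 : ∏ u ∈ R.erase u₀, g j u ≤ B' ^ κ := by
        calc ∏ u ∈ R.erase u₀, g j u ≤ ∏ _u ∈ R.erase u₀, B' :=
              Finset.prod_le_prod (fun u _ => hg0 j hj u) fun u _ => hgB j hj u
          _ = B' ^ (R.erase u₀).card := by rw [Finset.prod_const]
          _ ≤ B' ^ κ := pow_le_pow_right₀ hB'1 (by rw [← hR]; exact Finset.card_erase_le)
      rw [e1, mul_comm]
      exact mul_le_mul_of_nonneg_right (e2.trans (le_max_right _ _)) hA0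
    · push Not at hcase
      have e1 : ∏ u ∈ R, g j u = ∏ u ∈ R, f j u := by
        refine Finset.prod_congr rfl fun u hu => ?_
        simp only [hg, hf]
        split_ifs with h
        · exact max_eq_right (hcase u hu h)
        · rfl
      rw [e1]
      exact (hprodf j hj).trans (mul_le_mul_of_nonneg_right (le_max_left _ _) hA0)
  -- the upper bound for the factors
  have hfac : ∀ u ∈ O, ‖dot (t u) w‖ ≤ (n + 3 : ℝ) * lam * ‖t u‖ * ∏ j ∈ J, g j u := by
    intro u hu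
    have hu' := ht1 u (hO hu)
    by_cases hcase : ∃ j ∈ J, ‖t u - p j‖ < δ
    · obtain ⟨j, hj, hju⟩ := hcase
      have e1 : ∏ j' ∈ J, g j' u = max (A j) ‖t u - p j‖ := by
        rw [Finset.prod_eq_single_of_mem j hj]
        · simp only [hg]
          rw [if_pos hju]
        · intro j' hj' hne
          simp only [hg]
          rw [if_neg]
          intro h
          have h4 := hδJ j hj j' hj' (Ne.symm hne)
          have h5 : ‖p j - p j'‖ ≤ ‖t u - p j‖ + ‖t u - p j'‖ := by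
            have : p j - p j' = (t u - p j') - (t u - p j) := by abel
            rw [this]
            exact (norm_sub_le _ _).trans (by linarith)
          linarith
      rw [e1]
      have h4 := (hA j hj).2.2
      have h5 : ‖dot (t u - p j) w‖ ≤ (n + 2 : ℝ) * ‖t u - p j‖ * ‖w‖ := by
        have := CoreA_dot_le (t u - p j) w
        push_cast at this
        exact this
      have h6 : A j ≤ max (A j) ‖t u - p j‖ := le_max_left _ _
      have h7 : ‖t u - p j‖ ≤ max (A j) ‖t u - p j‖ := le_max_right _ _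
      have h8 : 0 ≤ max (A j) ‖t u - p j‖ := (norm_nonneg _).trans h7
      calc ‖dot (t u) w‖ ≤ ‖dot (p j) w‖ + ‖dot (t u - p j) w‖ := by
            rw [CoreA_dot_sub (t u) (p j) w]
            exact norm_add_le _ _
        _ ≤ lam * max (A j) ‖t u - p j‖ + (n + 2 : ℝ) * max (A j) ‖t u - p j‖ * lam := by
            refine add_le_add (h4.trans (mul_le_mul_of_nonneg_left h6 hlam)) (h5.trans ?_)
            exact mul_le_mul (mul_le_mul_of_nonneg_left h7 (by positivity)) hw (norm_nonneg _)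
              (by positivity)
        _ = (n + 3 : ℝ) * lam * 1 * max (A j) ‖t u - p j‖ := by ring
        _ ≤ (n + 3 : ℝ) * lam * ‖t u‖ * max (A j) ‖t u - p j‖ := by
            refine mul_le_mul_of_nonneg_right ?_ h8
            exact mul_le_mul_of_nonneg_left hu' (by positivity)
    · push Not at hcase
      have e1 : ∏ j' ∈ J, g j' u = 1 := Finset.prod_eq_one fun j hj => by
        simp only [hg]
        rw [if_neg (not_lt.2 (hcase j hj))]
      rw [e1, mul_one]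
      have h5 : ‖dot (t u) w‖ ≤ (n + 2 : ℝ) * ‖t u‖ * ‖w‖ := by
        have := CoreA_dot_le (t u) w
        push_cast at this
        exact this
      calc ‖dot (t u) w‖ ≤ (n + 2 : ℝ) * ‖t u‖ * ‖w‖ := h5
        _ ≤ (n + 3 : ℝ) * ‖t u‖ * lam := by
            refine mul_le_mul ?_ hw (norm_nonneg _) (by positivity)
            exact mul_le_mul_of_nonneg_right (by linarith) (norm_nonneg _)
        _ = _ := by ring
  have hOcard : O.card ≤ κ := hR ▸ Finset.card_le_card hO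
  have hprodO : ∏ u ∈ O, ‖t u‖ ≤ ∏ u ∈ R, ‖t u‖ := by
    rw [← Finset.prod_sdiff hO]
    refine le_mul_of_one_le_left (Finset.prod_nonneg fun u _ => norm_nonneg _) ?_
    rw [← Finset.prod_const_one (s := R \ O)]
    exact Finset.prod_le_prod (fun _ _ => zero_le_one) fun u hu => ht1 u (Finset.mem_sdiff.1 hu).1
  have hgO : ∀ j ∈ J, ∏ u ∈ O, g j u = ∏ u ∈ R, g j u := by
    intro j hj
    refine Finset.prod_subset hO fun u hu huO => ?_
    simp only [hg]
    rw [if_neg]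
    intro h
    have := hδT j hj (t u) (hTO u hu huO)
    linarith
  have hprodJ : ∏ j ∈ J, ∏ u ∈ O, g j u ≤ K₂ ^ J.card * ∏ j ∈ J, A j := by
    calc ∏ j ∈ J, ∏ u ∈ O, g j u ≤ ∏ j ∈ J, (K₂ * A j) :=
          Finset.prod_le_prod (fun j hj => Finset.prod_nonneg fun u _ => hg0 j hj u)
            fun j hj => by rw [hgO j hj]; exact hprodg j hj
      _ = _ := by rw [Finset.prod_mul_distrib, Finset.prod_const]
  have hJ0 : 0 ≤ ∏ j ∈ J, ∏ u ∈ O, g j u :=
    Finset.prod_nonneg fun j hj => Finset.prod_nonneg fun u _ => hg0 j hj u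
  calc a * ∏ u ∈ O, ‖dot (t u) w‖
      ≤ a * ∏ u ∈ O, ((n + 3 : ℝ) * lam * ‖t u‖ * ∏ j ∈ J, g j u) :=
        mul_le_mul_of_nonneg_left (Finset.prod_le_prod (fun u _ => norm_nonneg _) hfac) ha
    _ = (n + 3 : ℝ) ^ O.card * lam ^ O.card * (a * ∏ u ∈ O, ‖t u‖) *
          ∏ j ∈ J, ∏ u ∈ O, g j u := by
        rw [Finset.prod_mul_distrib, Finset.prod_mul_distrib, Finset.prod_const,
          Finset.prod_comm, mul_pow]
        ring
    _ ≤ (n + 3 : ℝ) ^ κ * lam ^ O.card * (C * V ^ κ) * (K₂ ^ J.card * ∏ j ∈ J, A j) := by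
        refine mul_le_mul ?_ hprodJ hJ0 (by positivity)
        refine mul_le_mul ?_ ((mul_le_mul_of_nonneg_left hprodO ha).trans h2)
          (mul_nonneg ha (Finset.prod_nonneg fun u _ => norm_nonneg _)) (by positivity)
        refine mul_le_mul_of_nonneg_right ?_ (by positivity)
        exact pow_le_pow_right₀ (by linarith [(Nat.cast_nonneg n : (0 : ℝ) ≤ n)]) hOcard
    _ = _ := by ring

end Pool.Agent.H5.DG
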