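import Pool.Agent.H5.DG.PhiProd
import Pool.Agent.H5.DG.HeightA
import Pool.Agent.H5.DG.CoreA
import Pool.Agent.H5.DG.DelNe

/-!
# Project DG, C1: the cluster inequality, complex case

`hN.pre`, `del_ne_zero`, `del_homogeneous`. `clusterA_general`: `coreA` with `R = rts N v`, `O = outs N v T`, `t = tpt N v`, `a = ‖a (v)‖`,
`V = ‖v‖`; `phi_prod`, `outs_card`, `not_mem_outs` (over `ℂ`, `toL ℂ τ = τ`), `heightA`, `distA` (maximum of the constants over `J`).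
`v ≠ 0` since `N.coeff κ` is a form of degree `κ ≥ 1` and does not vanish at `v` (`coeff_ne_zero`).
`cluster_pi`: `A j = ‖dot (p j) v‖ / ‖v‖`, `lam = ‖v‖ S`, `S = ‖w‖ / ‖v‖ + ∑ j ∈ J, ‖dot (p j) w‖ / ‖dot (p j) v‖`.
`cluster_loc`: (`B` may be replaced by `max B 1`) `A j = B (‖dot (p j) v‖ + ‖dot (p j) w‖)`, `lam = B`.
-/

open MvPolynomial

noncomputable section

namespace Pool.Agent.H5.DG

variable {n κ : ℕ} {N : Polynomial (PV n)} {φ : PVW n}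

private theorem norm_dot_le {k : ℕ} (p v : Fin k → ℂ) : ‖dot p v‖ ≤ (∑ a, ‖p a‖) * ‖v‖ := by
  unfold dot
  rw [Finset.sum_mul]
  refine (norm_sum_le _ _).trans (Finset.sum_le_sum fun a _ => ?_)
  rw [norm_mul]
  exact mul_le_mul_of_nonneg_left (norm_le_pi_norm v a) (norm_nonneg _)

private theorem toL_self {k : ℕ} (τ : Fin k → ℂ) : toL ℂ τ = τ := rfl

private theorem ne_zero_of_del (hκ : 1 ≤ κ) (hN : IsPreNorm κ N) {v : Fin (n + 2) → ℂ}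
    (hΔ : MvPolynomial.aeval v (Del κ N) ≠ 0) : v ≠ 0 := by
  rintro rfl
  refine coeff_ne_zero 0 hΔ ?_
  rw [MvPolynomial.aeval_zero, MvPolynomial.constantCoeff_eq,
    (hN.hom κ).coeff_eq_zero (d := 0) (by rw [map_zero]; omega), map_zero]

theorem clusterA_general (hκ : 1 ≤ κ) (hN : IsNormForm κ N) (hnd : Nondeg N) (hφ : IsChow κ N φ)
    {ι : Type} (J : Finset ι) (p : ι → Fin (n + 2) → ℂ) (hp : ∀ j ∈ J, p j ∈ Gam N ℂ)
    (hinj : Set.InjOn p J) (T : Finset (Fin (n + 2) → ℂ)) (hT : ∀ τ ∈ T, τ ∈ Gam N ℂ)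
    (hJT : ∀ j ∈ J, p j ∉ T) (B : ℝ) :
    ∃ K : ℝ, 0 < K ∧ ∀ v w : Fin (n + 2) → ℂ, MvPolynomial.aeval v (Del κ N) ≠ 0 →
      (∀ τ ∈ T, dot τ v = 0) → (∀ τ ∈ T, dot τ w = 0) → ∀ (A : ι → ℝ) (lam : ℝ),
      (∀ j ∈ J, 0 ≤ A j ∧ A j ≤ B ∧ ‖dot (p j) v‖ ≤ ‖v‖ * A j ∧ ‖dot (p j) w‖ ≤ lam * A j) →
      ‖w‖ ≤ lam →
      ‖evVW (Phi φ T.card) v w‖ ≤ K * lam ^ (κ - T.card) * ‖v‖ ^ κ * ∏ j ∈ J, A j := by
  have hpre := hN.pre
  have hΔ0 := del_ne_zero hκ hN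
  have hΔh := del_homogeneous hpre
  obtain ⟨c, C, hc, hC, h1⟩ := heightA hκ hpre hnd
  have h2 : ∀ j : ι, ∃ D : ℝ, 0 < D ∧ (j ∈ J → ∀ v : Fin (n + 2) → ℂ,
      MvPolynomial.aeval v (Del κ N) ≠ 0 →
      ‖MvPolynomial.aeval v (N.coeff κ)‖ * ∏ u ∈ rts N v, ‖tpt N v u - p j‖ ≤
        D * ‖dot (p j) v‖ * ‖v‖ ^ (κ - 1)) := by
    intro j
    by_cases hj : j ∈ J
    · obtain ⟨D, hD, h3⟩ := distA hκ hpre hΔ0 hΔh hφ (p j) (hp j hj)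
      exact ⟨D, hD, fun _ => h3⟩
    · exact ⟨1, one_pos, fun h => absurd h hj⟩
  choose D hD hD2 using h2
  have hE : 0 < C + ∑ j ∈ J, D j := add_pos_of_pos_of_nonneg hC
    (Finset.sum_nonneg fun j _ => (hD j).le)
  have hCE : C ≤ C + ∑ j ∈ J, D j := le_add_of_nonneg_right
    (Finset.sum_nonneg fun j _ => (hD j).le)
  have hDE : ∀ j ∈ J, D j ≤ C + ∑ j ∈ J, D j := fun j hj =>
    (Finset.single_le_sum (f := D) (fun j _ => (hD j).le) hj).trans (le_add_of_nonneg_left hC.le)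
  obtain ⟨K, hK, hcore⟩ := coreA κ hκ J p hinj T hJT c (C + ∑ j ∈ J, D j) B hc hE
  refine ⟨K, hK, fun v w hΔ hTv hTw A lam hA hw => ?_⟩
  have hroot : ∀ u ∈ rts N v, val N v u = 0 := fun u hu => (mem_roots_iff hpre v hΔ u).1 hu
  have hv0 : 0 < ‖v‖ := norm_pos_iff.2 (ne_zero_of_del hκ hpre hΔ)
  have h3 := hcore (rts N v) (outs N v T) (tpt N v) ‖MvPolynomial.aeval v (N.coeff κ)‖ ‖v‖ lam w A
    (card_roots hκ hpre v hΔ) (Finset.filter_subset _ _)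
    (fun u hu => (tpt_facts hκ hpre v hΔ (hroot u hu)).2.1)
    (fun u hu hu' => by
      obtain ⟨τ, hτ, h4⟩ := not_mem_outs hκ hpre v hΔ T hT hTv hu hu'
      rw [h4, toL_self]
      exact hτ)
    (norm_nonneg _) hv0 (h1 v hΔ).1
    ((h1 v hΔ).2.trans (mul_le_mul_of_nonneg_right hCE (pow_nonneg hv0.le _)))
    (fun j hj => by
      refine (hD2 j hj v hΔ).trans (mul_le_mul_of_nonneg_right ?_ (pow_nonneg hv0.le _))
      exact mul_le_mul (hDE j hj) (hA j hj).2.2.1 (norm_nonneg _) hE.le)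
    (fun j hj => ⟨(hA j hj).1, (hA j hj).2.1, (hA j hj).2.2.2⟩) hw
  have h4 : (outs N v T).card = κ - T.card := by
    have h5 := outs_card hκ hpre v hΔ T hT hTv
    omega
  rw [phi_prod hκ hpre hφ.eq v w hΔ T hT hTv hTw, norm_mul, norm_prod, ← h4]
  exact h3

/-- **C1, first part.** Here `J` is the set of the marked points which are not in `T`. -/
theorem cluster_pi (hκ : 1 ≤ κ) (hN : IsNormForm κ N) (hnd : Nondeg N) (hφ : IsChow κ N φ)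
    {ι : Type} (J : Finset ι) (p : ι → Fin (n + 2) → ℂ) (hp : ∀ j ∈ J, p j ∈ Gam N ℂ)
    (hinj : Set.InjOn p J) (T : Finset (Fin (n + 2) → ℂ)) (hT : ∀ τ ∈ T, τ ∈ Gam N ℂ)
    (hJT : ∀ j ∈ J, p j ∉ T) :
    ∃ K : ℝ, 0 < K ∧ ∀ v w : Fin (n + 2) → ℂ, MvPolynomial.eval v (Del κ N) ≠ 0 →
      (∀ τ ∈ T, dot τ v = 0) → (∀ τ ∈ T, dot τ w = 0) → (∀ j ∈ J, dot (p j) v ≠ 0) →
      ‖evVW (Phi φ T.card) v w‖ * ‖v‖ ^ J.card ≤
        K * ‖v‖ ^ (2 * κ - T.card) * (∏ j ∈ J, ‖dot (p j) v‖) *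
          (‖w‖ / ‖v‖ + ∑ j ∈ J, ‖dot (p j) w‖ / ‖dot (p j) v‖) ^ (κ - T.card) := by
  obtain ⟨K, hK, h1⟩ := clusterA_general hκ hN hnd hφ J p hp hinj T hT hJT
    (∑ j ∈ J, ∑ a, ‖p j a‖)
  refine ⟨K, hK, fun v w hΔ hTv hTw hJv => ?_⟩
  have hv0 : 0 < ‖v‖ := norm_pos_iff.2 (ne_zero_of_del hκ hN.pre hΔ)
  set S : ℝ := ‖w‖ / ‖v‖ + ∑ j ∈ J, ‖dot (p j) w‖ / ‖dot (p j) v‖ with hS
  have hsum : 0 ≤ ∑ j ∈ J, ‖dot (p j) w‖ / ‖dot (p j) v‖ :=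
    Finset.sum_nonneg fun j _ => div_nonneg (norm_nonneg _) (norm_nonneg _)
  have hS1 : ‖w‖ / ‖v‖ ≤ S := le_add_of_nonneg_right hsum
  have hS2 : ∀ j ∈ J, ‖dot (p j) w‖ / ‖dot (p j) v‖ ≤ S := fun j hj =>
    (Finset.single_le_sum (f := fun j => ‖dot (p j) w‖ / ‖dot (p j) v‖)
      (fun j _ => div_nonneg (norm_nonneg _) (norm_nonneg _)) hj).trans
      (le_add_of_nonneg_left (div_nonneg (norm_nonneg _) (norm_nonneg _)))
  have h2 := h1 v w hΔ hTv hTw (fun j => ‖dot (p j) v‖ / ‖v‖) (‖v‖ * S)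
    (fun j hj => by
      have hj0 : 0 < ‖dot (p j) v‖ := norm_pos_iff.2 (hJv j hj)
      refine ⟨div_nonneg (norm_nonneg _) hv0.le, ?_, ?_, ?_⟩
      · rw [div_le_iff₀ hv0]
        refine (norm_dot_le (p j) v).trans (mul_le_mul_of_nonneg_right ?_ hv0.le)
        exact Finset.single_le_sum (f := fun j => ∑ a, ‖p j a‖)
          (fun j _ => Finset.sum_nonneg fun a _ => norm_nonneg _) hj
      · rw [mul_div_cancel₀ _ hv0.ne']
      · have h3 := (div_le_iff₀ hj0).1 (hS2 j hj)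
        refine h3.trans (le_of_eq ?_)
        field_simp)
    (by
      have h3 := (div_le_iff₀ hv0).1 hS1
      rw [mul_comm]
      exact h3)
  have hTκ : T.card ≤ κ := by
    have h5 := outs_card hκ hN.pre v hΔ T hT hTv
    omega
  have h3 : 2 * κ - T.card = (κ - T.card) + κ := by omega
  have h4 : (∏ j ∈ J, ‖dot (p j) v‖ / ‖v‖) * ‖v‖ ^ J.card = ∏ j ∈ J, ‖dot (p j) v‖ := by
    rw [Finset.prod_div_distrib, Finset.prod_const, div_mul_cancel₀ _ (pow_ne_zero _ hv0.ne')]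
  calc ‖evVW (Phi φ T.card) v w‖ * ‖v‖ ^ J.card
      ≤ (K * (‖v‖ * S) ^ (κ - T.card) * ‖v‖ ^ κ * ∏ j ∈ J, ‖dot (p j) v‖ / ‖v‖) *
          ‖v‖ ^ J.card := mul_le_mul_of_nonneg_right h2 (pow_nonneg hv0.le _)
    _ = K * (‖v‖ * S) ^ (κ - T.card) * ‖v‖ ^ κ *
          ((∏ j ∈ J, ‖dot (p j) v‖ / ‖v‖) * ‖v‖ ^ J.card) := by ring
    _ = K * ‖v‖ ^ (2 * κ - T.card) * (∏ j ∈ J, ‖dot (p j) v‖) * S ^ (κ - T.card) := by
        rw [h4, h3, pow_add, mul_pow]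
        ring

/-- **C1, second part** (local form). -/
theorem cluster_loc (hκ : 1 ≤ κ) (hN : IsNormForm κ N) (hnd : Nondeg N) (hφ : IsChow κ N φ)
    {ι : Type} (J : Finset ι) (p : ι → Fin (n + 2) → ℂ) (hp : ∀ j ∈ J, p j ∈ Gam N ℂ)
    (hinj : Set.InjOn p J) (T : Finset (Fin (n + 2) → ℂ)) (hT : ∀ τ ∈ T, τ ∈ Gam N ℂ)
    (hJT : ∀ j ∈ J, p j ∉ T) (B : ℝ) :
    ∃ K : ℝ, 0 < K ∧ ∀ v w : Fin (n + 2) → ℂ, MvPolynomial.eval v (Del κ N) ≠ 0 →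
      (∀ τ ∈ T, dot τ v = 0) → (∀ τ ∈ T, dot τ w = 0) → ‖v‖ ≤ B → 1 ≤ B * ‖v‖ → ‖w‖ ≤ B →
      ‖evVW (Phi φ T.card) v w‖ ≤ K * ∏ j ∈ J, (‖dot (p j) v‖ + ‖dot (p j) w‖) := by
  set E : ℝ := max B 1 with hE
  have hE1 : 1 ≤ E := le_max_right _ _
  have hBE : B ≤ E := le_max_left _ _
  have hE0 : 0 < E := one_pos.trans_le hE1
  set P : ℝ := ∑ j ∈ J, ∑ a, ‖p j a‖ with hP
  have hP0 : 0 ≤ P := Finset.sum_nonneg fun j _ => Finset.sum_nonneg fun a _ => norm_nonneg _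
  have hPj : ∀ j ∈ J, ∑ a, ‖p j a‖ ≤ P := fun j hj =>
    Finset.single_le_sum (f := fun j => ∑ a, ‖p j a‖)
      (fun j _ => Finset.sum_nonneg fun a _ => norm_nonneg _) hj
  obtain ⟨K, hK, h1⟩ := clusterA_general hκ hN hnd hφ J p hp hinj T hT hJT (E * (P * E + P * E))
  refine ⟨K * E ^ (κ - T.card) * E ^ κ * E ^ J.card, by positivity,
    fun v w hΔ hTv hTw hvB hv1 hwB => ?_⟩
  have hvE : ‖v‖ ≤ E := hvB.trans hBE
  have hwE : ‖w‖ ≤ E := hwB.trans hBE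
  have hE2 : 1 ≤ E * ‖v‖ := hv1.trans (mul_le_mul_of_nonneg_right hBE (norm_nonneg _))
  have hdot : ∀ j ∈ J, ∀ x : Fin (n + 2) → ℂ, ‖x‖ ≤ E → ‖dot (p j) x‖ ≤ P * E := fun j hj x hx =>
    (norm_dot_le (p j) x).trans (mul_le_mul (hPj j hj) hx (norm_nonneg _) hP0)
  have h2 := h1 v w hΔ hTv hTw (fun j => E * (‖dot (p j) v‖ + ‖dot (p j) w‖)) E
    (fun j hj => by
      have ha := norm_nonneg (dot (p j) v)
      have hb := norm_nonneg (dot (p j) w)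
      refine ⟨mul_nonneg hE0.le (add_nonneg ha hb), ?_, ?_, ?_⟩
      · exact mul_le_mul_of_nonneg_left (add_le_add (hdot j hj v hvE) (hdot j hj w hwE)) hE0.le
      · calc ‖dot (p j) v‖ ≤ ‖dot (p j) v‖ + ‖dot (p j) w‖ := le_add_of_nonneg_right hb
          _ ≤ (E * ‖v‖) * (‖dot (p j) v‖ + ‖dot (p j) w‖) :=
            le_mul_of_one_le_left (add_nonneg ha hb) hE2
          _ = ‖v‖ * (E * (‖dot (p j) v‖ + ‖dot (p j) w‖)) := by ring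
      · calc ‖dot (p j) w‖ ≤ ‖dot (p j) v‖ + ‖dot (p j) w‖ := le_add_of_nonneg_left ha
          _ ≤ (E * E) * (‖dot (p j) v‖ + ‖dot (p j) w‖) :=
            le_mul_of_one_le_left (add_nonneg ha hb) (one_le_mul_of_one_le_of_one_le hE1 hE1)
          _ = E * (E * (‖dot (p j) v‖ + ‖dot (p j) w‖)) := by ring) hwE
  refine h2.trans ?_
  rw [Finset.prod_mul_distrib, Finset.prod_const]
  have h3 : 0 ≤ ∏ j ∈ J, (‖dot (p j) v‖ + ‖dot (p j) w‖) :=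
    Finset.prod_nonneg fun j _ => add_nonneg (norm_nonneg _) (norm_nonneg _)
  have h4 : ‖v‖ ^ κ ≤ E ^ κ := pow_le_pow_left₀ (norm_nonneg _) hvE κ
  calc K * E ^ (κ - T.card) * ‖v‖ ^ κ *
        (E ^ J.card * ∏ j ∈ J, (‖dot (p j) v‖ + ‖dot (p j) w‖))
      ≤ K * E ^ (κ - T.card) * E ^ κ *
        (E ^ J.card * ∏ j ∈ J, (‖dot (p j) v‖ + ‖dot (p j) w‖)) := by
        refine mul_le_mul_of_nonneg_right (mul_le_mul_of_nonneg_left h4 ?_) ?_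
        · exact mul_nonneg hK.le (pow_nonneg hE0.le _)
        · exact mul_nonneg (pow_nonneg hE0.le _) h3
    _ = _ := by ring

end Pool.Agent.H5.DG
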