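import Pool.Agent.H5.DG.PhiProd
import Pool.Agent.H5.DG.DelNe

/-!
# Project DG: the constant points; scaling

`one_le`: if `κ = 0` then `N (·; u) = 1` for all `u` (`split`, empty product), so `N = 1` would be a unit. `finite_constants`, `card_constants_le`:
pass to `L = AlgebraicClosure K` (`aeval` commutes with `algebraMap`, injective); `toL_facts`: `τ ↦ algebraMap ℂ L (τ 1)` is injective with
values in `rts N v`, `card_roots`. The last theorem is `evVW_Phi_scale` of `ChowProd.lean` with `hN.pre`, `del_ne_zero`, `del_homogeneous`.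
-/

open MvPolynomial

noncomputable section

namespace Pool.Agent.H5.DG

variable {n κ : ℕ} {N : Polynomial (PV n)} {φ : PVW n}

theorem IsNormForm.one_le (hN : IsNormForm κ N) : 1 ≤ κ := by
  by_contra hcon
  obtain rfl : κ = 0 := by omega
  have h1 := natDegree_le hN.pre
  have h2 : N = Polynomial.C (N.coeff 0) := Polynomial.eq_C_of_natDegree_le_zero h1
  have h3 := eval_coeff_line hN.pre
  have h4 : N.coeff 0 = C (MvPolynomial.coeff 0 (N.coeff 0)) := by
    have h5 := (hN.hom 0).totalDegree_le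
    exact totalDegree_eq_zero_iff_eq_C.mp (by omega)
  rw [h4, eval_C] at h3
  rw [h3, C_1] at h4
  rw [h4, Polynomial.C_1] at h2
  exact hN.irred.not_isUnit (h2 ▸ isUnit_one)

private theorem consts_aux (hN : IsNormForm κ N) {K : Type} [Field K] [Algebra ℂ K]
    (v : Fin (n + 2) → K) (hΔ : MvPolynomial.aeval v (Del κ N) ≠ 0) :
    ∃ R : Finset (AlgebraicClosure K), R.card = κ ∧
      Set.MapsTo (fun τ : Fin (n + 2) → ℂ => algebraMap ℂ (AlgebraicClosure K) (τ 1))
        {τ : Fin (n + 2) → ℂ | τ ∈ Gam N ℂ ∧ dot (toL K τ) v = 0} R ∧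
      Set.InjOn (fun τ : Fin (n + 2) → ℂ => algebraMap ℂ (AlgebraicClosure K) (τ 1))
        {τ : Fin (n + 2) → ℂ | τ ∈ Gam N ℂ ∧ dot (toL K τ) v = 0} := by
  set L := AlgebraicClosure K
  set vL : Fin (n + 2) → L := fun a => algebraMap K L (v a) with hvL
  have hΔL : MvPolynomial.aeval vL (Del κ N) ≠ 0 := by
    have h1 : MvPolynomial.aeval vL (Del κ N) = algebraMap K L (MvPolynomial.aeval v (Del κ N)) := by
      exact MvPolynomial.aeval_algebraMap_apply L v (Del κ N)
    rw [h1, Ne, map_eq_zero]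
    exact hΔ
  have hdot : ∀ τ : Fin (n + 2) → ℂ, dot (toL K τ) v = 0 → dot (toL L τ) vL = 0 := by
    intro τ h
    have h1 : dot (toL L τ) vL = algebraMap K L (dot (toL K τ) v) := by
      unfold dot toL
      rw [map_sum]
      refine Finset.sum_congr rfl fun a _ => ?_
      rw [map_mul, ← IsScalarTower.algebraMap_apply ℂ K L]
    rw [h1, h, map_zero]
  have hf : ∀ τ ∈ {τ : Fin (n + 2) → ℂ | τ ∈ Gam N ℂ ∧ dot (toL K τ) v = 0},
      algebraMap ℂ L (τ 1) ∈ rts N vL ∧ tpt N vL (algebraMap ℂ L (τ 1)) = toL L τ :=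
    fun τ hτ => toL_facts hN.one_le hN.pre vL hΔL hτ.1 (hdot τ hτ.2)
  refine ⟨rts N vL, card_roots hN.one_le hN.pre vL hΔL, fun τ hτ => (hf τ hτ).1, ?_⟩
  intro τ hτ τ' hτ' h
  have h1 := (hf τ hτ).2
  have h2 := (hf τ' hτ').2
  have h3 : algebraMap ℂ L (τ 1) = algebraMap ℂ L (τ' 1) := h
  rw [h3, h2] at h1
  funext a
  have h4 := congrFun h1 a
  exact ((algebraMap ℂ L).injective h4).symm

/-- The constant points are finite in number. -/
theorem finite_constants (hN : IsNormForm κ N) {K : Type} [Field K] [Algebra ℂ K]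
    (v : Fin (n + 2) → K) (hΔ : MvPolynomial.aeval v (Del κ N) ≠ 0) :
    {τ : Fin (n + 2) → ℂ | τ ∈ Gam N ℂ ∧ dot (toL K τ) v = 0}.Finite := by
  obtain ⟨R, _, h1, h2⟩ := consts_aux hN v hΔ
  exact Set.Finite.of_injOn h1 h2 R.finite_toSet

/-- Their number is at most `κ`. -/
theorem card_constants_le (hN : IsNormForm κ N) {K : Type} [Field K] [Algebra ℂ K]
    (v : Fin (n + 2) → K) (hΔ : MvPolynomial.aeval v (Del κ N) ≠ 0)
    (T : Finset (Fin (n + 2) → ℂ)) (hT : ∀ τ ∈ T, τ ∈ Gam N ℂ ∧ dot (toL K τ) v = 0) :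
    T.card ≤ κ := by
  obtain ⟨R, hR, h1, h2⟩ := consts_aux hN v hΔ
  rw [← hR]
  exact Finset.card_le_card_of_injOn _ (fun τ hτ => h1 (hT τ hτ)) (fun τ hτ τ' hτ' h => h2 (hT τ hτ) (hT τ' hτ') h)

/-- Scaling. -/
theorem evVW_Phi_scale (hN : IsNormForm κ N) (hφ : IsChow κ N φ) {L : Type} [Field L]
    [Algebra ℂ L] (e : ℕ) (v w : Fin (n + 2) → L) (a b c : L) :
    evVW (Phi φ e) (fun i => a * v i) (fun i => b * w i + c * v i) =
      a ^ κ * b ^ (κ - e) * evVW (Phi φ e) v w :=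
  evVW_Phi_scale_aux hN.one_le hN.pre (del_ne_zero hN.one_le hN) (del_homogeneous hN.pre) hφ.eq e v w a b c

end Pool.Agent.H5.DG
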