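import Pool.Agent.H5.DG.BasicB

/-!
# Project DG, B1: coprimality over the fraction field

`N` is irreducible in `ℂ[v][u]` of degree `κ ≥ 1` in `u` (`natDegree_eq`), hence primitive, and irreducible over the
fraction field `F` of `ℂ[v]` (Gauss: `Polynomial.IsPrimitive.irreducible_iff_irreducible_map_fraction_map`, needs a
`NormalizedGCDMonoid` / gcd monoid instance of the UFD `ℂ[v]`). If `N` and `g` were not coprime over `F`, then `N ∣ g` over `F`, hence
`N ∣ g` in `ℂ[v][u]` (`Polynomial.IsPrimitive.dvd_iff_fraction_map_dvd_fraction_map` or the like; `N` is primitive). This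
contradicts `natDegree g < κ`, resp. the degrees in `v`: if `g = N * h`, `h ≠ 0`, look at the total degree in `v`
(leading homogeneous components in `v`: all coefficients of `N` are homogeneous of degree `κ`).
`exists_bezout`: clear denominators in `IsCoprime`, or `Polynomial.exists_mul_add_mul_eq_C_resultant`.
-/

open MvPolynomial

noncomputable section

namespace Pool.Agent.H5.DG

variable {n κ : ℕ} {N : Polynomial (PV n)}

private theorem isCoprime_of_not_dvd {K : Type} [Field K] {p q : Polynomial K}
    (hp : Irreducible p) (h : ¬ p ∣ q) : IsCoprime p q :=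
  hp.coprime_iff_not_dvd.2 h

theorem isCoprime_map (hκ : 1 ≤ κ) (hN : IsNormForm κ N) {g : Polynomial (PV n)} (hg : g ≠ 0)
    (h : (∀ i, g.coeff i ≠ 0 → (g.coeff i).totalDegree < κ) ∨ g.natDegree < κ) :
    IsCoprime (N.map (algebraMap (PV n) (FractionRing (PV n))))
      (g.map (algebraMap (PV n) (FractionRing (PV n)))) := by
  have hN0 : N ≠ 0 := hN.irred.ne_zero
  have hdeg : N.natDegree = κ := natDegree_eq hN.pre
  have hprim : N.IsPrimitive := hN.irred.isPrimitive (by omega)
  have hirr : Irreducible (N.map (algebraMap (PV n) (FractionRing (PV n)))) :=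
    hprim.irreducible_iff_irreducible_map_fraction_map.1 hN.irred
  refine isCoprime_of_not_dvd hirr fun hdvd => ?_
  obtain ⟨q, hq⟩ : N ∣ g := hprim.dvd_of_fraction_map_dvd_fraction_map hdvd
  have hq0 : q ≠ 0 := by
    rintro rfl
    exact hg (by rw [hq, mul_zero])
  rcases h with h | h
  · have hlc : g.leadingCoeff = N.leadingCoeff * q.leadingCoeff := by
      rw [hq, Polynomial.leadingCoeff_mul]
    have hN1 : N.leadingCoeff ≠ 0 := Polynomial.leadingCoeff_ne_zero.2 hN0
    have hq1 : q.leadingCoeff ≠ 0 := Polynomial.leadingCoeff_ne_zero.2 hq0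
    have hg1 : g.leadingCoeff ≠ 0 := Polynomial.leadingCoeff_ne_zero.2 hg
    have h1 : g.leadingCoeff.totalDegree = N.leadingCoeff.totalDegree +
        q.leadingCoeff.totalDegree := by
      rw [hlc, MvPolynomial.totalDegree_mul_of_isDomain hN1 hq1]
    have h2 : N.leadingCoeff.totalDegree = κ := (hN.hom _).totalDegree hN1
    have h3 := h g.natDegree hg1
    rw [Polynomial.coeff_natDegree] at h3
    omega
  · rw [hq, Polynomial.natDegree_mul hN0 hq0] at h
    omega

theorem resultant_ne_zero_of_formal (hκ : 1 ≤ κ) (hN : IsNormForm κ N) {g : Polynomial (PV n)}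
    (hg : g ≠ 0)
    (h : (∀ i, g.coeff i ≠ 0 → (g.coeff i).totalDegree < κ) ∨ g.natDegree < κ) {k : ℕ}
    (hk : g.natDegree ≤ k) : Polynomial.resultant N g κ k ≠ 0 := by
  have hdeg : N.natDegree = κ := natDegree_eq hN.pre
  have hcop := isCoprime_map hκ hN hg h
  have hinj : Function.Injective (algebraMap (PV n) (FractionRing (PV n))) :=
    IsFractionRing.injective _ _
  obtain ⟨m, rfl⟩ := Nat.exists_eq_add_of_le hk
  rw [Polynomial.resultant_add_right_deg _ _ _ _ _ le_rfl]
  refine mul_ne_zero (pow_ne_zero _ ?_) fun h0 => ?_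
  · rw [← hdeg, Polynomial.coeff_natDegree]
    exact Polynomial.leadingCoeff_ne_zero.2 hN.irred.ne_zero
  · apply Polynomial.resultant_ne_zero _ _ hcop
    rw [Polynomial.natDegree_map_eq_of_injective hinj, Polynomial.natDegree_map_eq_of_injective hinj,
      Polynomial.resultant_map_map, hdeg, h0, map_zero]

theorem exists_bezout (hκ : 1 ≤ κ) (hN : IsNormForm κ N) {g : Polynomial (PV n)} (hg : g ≠ 0)
    (h : (∀ i, g.coeff i ≠ 0 → (g.coeff i).totalDegree < κ) ∨ g.natDegree < κ) :
    ∃ (A B : Polynomial (PV n)) (R : PV n), R ≠ 0 ∧ A * N + B * g = Polynomial.C R := by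
  have hdeg : N.natDegree = κ := natDegree_eq hN.pre
  obtain ⟨A, B, -, -, hAB⟩ := Polynomial.exists_mul_add_mul_eq_C_resultant N g hdeg.le
    (le_refl g.natDegree) (Or.inl (by omega : κ ≠ 0))
  exact ⟨A, B, _, resultant_ne_zero_of_formal hκ hN hg h le_rfl, by
    rw [← hAB]
    ring⟩

end Pool.Agent.H5.DG
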