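import Pool.Agent.H5.DG.CovMap
import Pool.Agent.H92.GGL.CasWei

/-!
# Project DG, module CovBd: growth of the coordinates, meromorphy at the puncture

`exists_norm_bound`: by homogeneity of the `F a` one may assume `‖x‖ = 1`, `‖x i‖ = 1` for some `i`
(`Pool.Agent.H17.exists_norm_eq`); `X i ^ k = ∑ a, G a * F a + q` with `q ∈ I` (`base`, coefficients
of the span: `Ideal.mem_span_range_iff_exists_fun`), so `1 ≤ ∑ a, ‖eval x (G a)‖ * ‖eval x (F a)‖`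
and `‖eval x (G a)‖` is bounded for `‖x‖ ≤ 1`; take the maximum over `i`.

`punctMero_of_bound`: near `0` the functions `v j` agree with functions meromorphic at `0` (off a
discrete set), so `‖u z‖ ≤ C' * ‖z‖ ^ (-K)` at generic points of a punctured disc; the normal form
of `u` is then analytic there (no poles: the norm would tend to infinity) and the removable
singularity theorem applies to `z ^ K * u`.  (Model: `PunctMero.root` in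
`Pool.Agent.H62.FC.PunctMero`.)
-/

open MvPolynomial Filter Topology
open Pool.Agent.H17 (PN VanishesAt HolomorphicInto puncturedDisc)
open Pool.Agent.H62.FC (MeroPunct PunctMero)

noncomputable section

namespace Pool.Agent.H5.DG

private theorem CovBd_poly {Nn : ℕ} (G : MvPolynomial (Fin (Nn + 1)) ℂ) :
    ∃ B : ℝ, 0 ≤ B ∧ ∀ y : Fin (Nn + 1) → ℂ, ‖y‖ ≤ 1 → ‖eval y G‖ ≤ B := by
  obtain ⟨B, hB⟩ := (isCompact_closedBall (0 : Fin (Nn + 1) → ℂ) 1).exists_bound_of_continuousOn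
    (f := fun y => eval y G) (MvPolynomial.continuous_eval G).continuousOn
  refine ⟨B, ?_, fun y hy => hB y (by simpa using hy)⟩
  exact (norm_nonneg _).trans (hB 0 (by simp))

private theorem CovBd_coord {Nn m e : ℕ} {I : Ideal (MvPolynomial (Fin (Nn + 1)) ℂ)}
    {F : Fin (m + 1) → MvPolynomial (Fin (Nn + 1)) ℂ} (hF : BaseFree I e F) (i : Fin (Nn + 1)) :
    ∃ M : ℝ, 0 < M ∧ ∀ y : Fin (Nn + 1) → ℂ, ‖y‖ ≤ 1 → ‖y i‖ = 1 → (∀ Q ∈ I, eval y Q = 0) →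
      1 ≤ M * ∑ a, ‖eval y (F a)‖ := by
  obtain ⟨k, hk⟩ := hF.base i
  obtain ⟨g, hg, q, hq, hgq⟩ := Submodule.mem_sup.1 hk
  obtain ⟨G, hG⟩ := Ideal.mem_span_range_iff_exists_fun.1 hg
  choose B hB0 hB using fun a => CovBd_poly (G a)
  have hsum : 0 ≤ ∑ a, B a := Finset.sum_nonneg fun a _ => hB0 a
  refine ⟨∑ a, B a + 1, by linarith, ?_⟩
  intro y hy hyi hI
  have h1 : (y i) ^ k = ∑ a, eval y (G a) * eval y (F a) := by
    have h2 := congrArg (eval y) hgq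
    rw [map_add, hI q hq, add_zero, ← hG, map_sum, map_pow, eval_X] at h2
    rw [← h2]
    exact Finset.sum_congr rfl fun a _ => map_mul _ _ _
  have h3 : (1 : ℝ) = ‖∑ a, eval y (G a) * eval y (F a)‖ := by
    rw [← h1, norm_pow, hyi, one_pow]
  calc (1 : ℝ) = ‖∑ a, eval y (G a) * eval y (F a)‖ := h3
    _ ≤ ∑ a, ‖eval y (G a) * eval y (F a)‖ := norm_sum_le _ _
    _ ≤ ∑ a, (∑ b, B b + 1) * ‖eval y (F a)‖ := by
        refine Finset.sum_le_sum fun a _ => ?_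
        rw [norm_mul]
        refine mul_le_mul_of_nonneg_right ?_ (norm_nonneg _)
        have h4 : B a ≤ ∑ b, B b := Finset.single_le_sum (fun b _ => hB0 b) (Finset.mem_univ a)
        linarith [hB a y hy]
    _ = (∑ b, B b + 1) * ∑ a, ‖eval y (F a)‖ := by rw [Finset.mul_sum]

/-- The forms `F a` are not small on `X`. -/
theorem exists_norm_bound {Nn m e : ℕ} {I : Ideal (MvPolynomial (Fin (Nn + 1)) ℂ)}
    {F : Fin (m + 1) → MvPolynomial (Fin (Nn + 1)) ℂ} (hF : BaseFree I e F) :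
    ∃ C : ℝ, 0 < C ∧ ∀ x : Fin (Nn + 1) → ℂ, (∀ c : ℂ, ∀ Q ∈ I, eval (c • x) Q = 0) →
      ‖x‖ ^ e ≤ C * ∑ a, ‖eval x (F a)‖ := by
  choose M hM0 hM using fun i => CovBd_coord hF i
  have hMsum : ∀ i, M i ≤ ∑ i, M i := fun i =>
    Finset.single_le_sum (fun b _ => (hM0 b).le) (Finset.mem_univ i)
  refine ⟨∑ i, M i, (hM0 0).trans_le (hMsum 0), ?_⟩
  intro x hx
  have hS : 0 ≤ ∑ a, ‖eval x (F a)‖ := Finset.sum_nonneg fun a _ => norm_nonneg _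
  rcases eq_or_ne x 0 with h0 | h0
  · have he : e ≠ 0 := by have := hF.pos; omega
    have h1 : ‖x‖ ^ e = 0 := by rw [h0, norm_zero, zero_pow he]
    rw [h1]
    exact mul_nonneg ((hM0 0).trans_le (hMsum 0)).le hS
  · have hr : 0 < ‖x‖ := norm_pos_iff.2 h0
    have hrc : ((‖x‖ : ℝ) : ℂ) ≠ 0 := by exact_mod_cast hr.ne'
    obtain ⟨i, hi⟩ := Pool.Agent.H17.exists_norm_eq x
    have hy1 : ∀ z : ℂ, ‖((‖x‖ : ℝ) : ℂ)⁻¹ * z‖ = ‖x‖⁻¹ * ‖z‖ := by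
      intro z
      rw [norm_mul, norm_inv, Complex.norm_real, norm_norm]
    have h1 : ‖(((‖x‖ : ℝ) : ℂ)⁻¹ • x)‖ ≤ 1 := by
      rw [norm_smul, norm_inv, Complex.norm_real, norm_norm, inv_mul_cancel₀ hr.ne']
    have h2 : ‖(((‖x‖ : ℝ) : ℂ)⁻¹ • x) i‖ = 1 := by
      rw [Pi.smul_apply, smul_eq_mul, hy1, hi, inv_mul_cancel₀ hr.ne']
    have h3 := hM i _ h1 h2 (hx _)
    have h4 : ∀ a, ‖eval x (F a)‖ = ‖x‖ ^ e * ‖eval (((‖x‖ : ℝ) : ℂ)⁻¹ • x) (F a)‖ := by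
      intro a
      have h5 := Pool.Agent.H17.eval_smul_of_isHomogeneous (hF.hom a) ((‖x‖ : ℝ) : ℂ)
        (((‖x‖ : ℝ) : ℂ)⁻¹ • x)
      have h6 : (fun j => ((‖x‖ : ℝ) : ℂ) * (((‖x‖ : ℝ) : ℂ)⁻¹ • x) j) = x := by
        funext j
        rw [Pi.smul_apply, smul_eq_mul, ← mul_assoc, mul_inv_cancel₀ hrc, one_mul]
      rw [h6] at h5
      rw [h5, norm_mul, norm_pow, Complex.norm_real, norm_norm]
    have h5 : ∑ a, ‖eval x (F a)‖ = ‖x‖ ^ e * ∑ a, ‖eval (((‖x‖ : ℝ) : ℂ)⁻¹ • x) (F a)‖ := by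
      rw [Finset.mul_sum]
      exact Finset.sum_congr rfl fun a _ => h4 a
    have h6 : ‖x‖ ^ e ≤ M i * ∑ a, ‖eval x (F a)‖ := by
      rw [h5]
      calc ‖x‖ ^ e = ‖x‖ ^ e * 1 := (mul_one _).symm
        _ ≤ ‖x‖ ^ e * (M i * ∑ a, ‖eval (((‖x‖ : ℝ) : ℂ)⁻¹ • x) (F a)‖) :=
            mul_le_mul_of_nonneg_left h3 (pow_nonneg hr.le e)
        _ = M i * (‖x‖ ^ e * ∑ a, ‖eval (((‖x‖ : ℝ) : ℂ)⁻¹ • x) (F a)‖) := by ring
    exact h6.trans (mul_le_mul_of_nonneg_right (hMsum i) hS)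

/-- Meromorphy from a bound. -/
theorem punctMero_of_bound {R₀ : ℝ} (hR₀ : 0 < R₀) {u : ℂ → ℂ}
    (hu : ∀ z, 0 < ‖z‖ → ‖z‖ < R₀ → MeromorphicAt u z) {ι : Type} [Fintype ι] {v : ι → ℂ → ℂ}
    (hv : ∀ j, PunctMero (v j)) {C : ℝ}
    (h : ∀ z, 0 < ‖z‖ → ‖z‖ < R₀ → ∀ᶠ ζ in 𝓝[≠] z, ‖u ζ‖ ≤ C * ∑ j, ‖v j ζ‖) : PunctMero u := by
  choose w hw hvw using hv
  -- the growth of the `w j`
  have hgr : ∀ j, ∃ (n : ℕ) (B : ℝ), 0 ≤ B ∧ ∀ᶠ z in 𝓝[≠] (0 : ℂ), ‖z ^ n * w j z‖ ≤ B := by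
    intro j
    obtain ⟨n, hn⟩ := hw j
    refine ⟨n, ‖(fun z : ℂ => (z - 0) ^ n • w j z) 0‖ + 1,
      by linarith [norm_nonneg ((fun z : ℂ => (z - 0) ^ n • w j z) 0)], ?_⟩
    have h1 := hn.continuousAt.norm.tendsto
    filter_upwards [(h1.eventually_lt_const (lt_add_one _)).filter_mono nhdsWithin_le_nhds]
      with z hz
    simp only [sub_zero, smul_eq_mul] at hz ⊢
    exact hz.le
  choose n B hB0 hB using hgr
  -- the punctured disc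
  have hU0 : ∀ᶠ z in 𝓝[≠] (0 : ℂ), 0 < ‖z‖ ∧ ‖z‖ < R₀ := by
    have h1 : ∀ᶠ z in 𝓝 (0 : ℂ), ‖z‖ < R₀ := by
      filter_upwards [Metric.ball_mem_nhds (0 : ℂ) hR₀] with z hz
      simpa using hz
    filter_upwards [h1.filter_mono nhdsWithin_le_nhds, self_mem_nhdsWithin] with z h2 h3
    exact ⟨norm_pos_iff.mpr h3, h2⟩
  have h1b : ∀ᶠ z in 𝓝 (0 : ℂ), ‖z‖ < 1 := by
    filter_upwards [Metric.ball_mem_nhds (0 : ℂ) one_pos] with z hz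
    simpa using hz
  have hall : ∀ᶠ z in 𝓝[≠] (0 : ℂ), (0 < ‖z‖ ∧ ‖z‖ < R₀) ∧ ‖z‖ < 1 ∧
      ∀ j, (v j =ᶠ[𝓝[≠] z] w j) ∧ AnalyticAt ℂ (w j) z ∧ ‖z ^ n j * w j z‖ ≤ B j := by
    filter_upwards [hU0, h1b.filter_mono nhdsWithin_le_nhds, Filter.eventually_all.2 hvw,
      Filter.eventually_all.2 fun j => (hw j).eventually_analyticAt, Filter.eventually_all.2 hB]
      with z a1 a2 a3 a4 a5
    exact ⟨a1, a2, fun j => ⟨a3 j, a4 j, a5 j⟩⟩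
  obtain ⟨ε, hε, hε'⟩ := Metric.mem_nhdsWithin_iff.1 hall
  have hD : ∀ z : ℂ, 0 < ‖z‖ → ‖z‖ < ε → (0 < ‖z‖ ∧ ‖z‖ < R₀) ∧ ‖z‖ < 1 ∧
      ∀ j, (v j =ᶠ[𝓝[≠] z] w j) ∧ AnalyticAt ℂ (w j) z ∧ ‖z ^ n j * w j z‖ ≤ B j := by
    intro z hz1 hz2
    exact hε' ⟨by simpa using hz2, norm_pos_iff.1 hz1⟩
  -- the normal form
  have hfU : MeromorphicOn u {z | 0 < ‖z‖ ∧ ‖z‖ < R₀} := fun z hz => hu z hz.1 hz.2
  obtain ⟨g, hg⟩ : ∃ g, g = toMeromorphicNFOn u {z | 0 < ‖z‖ ∧ ‖z‖ < R₀} := ⟨_, rfl⟩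
  have hgf : ∀ z : ℂ, 0 < ‖z‖ → ‖z‖ < ε → g =ᶠ[𝓝[≠] z] u := fun z h1 h2 => by
    rw [hg]
    exact hfU.toMeromorphicNFOn_eq_self_on_nhdsNE (hD z h1 h2).1
  have hgle : ∀ z : ℂ, 0 < ‖z‖ → ‖z‖ < ε → ∀ᶠ ζ in 𝓝[≠] z, ‖g ζ‖ ≤ C * ∑ j, ‖w j ζ‖ := by
    intro z h1 h2
    obtain ⟨b1, -, b2⟩ := hD z h1 h2
    filter_upwards [hgf z h1 h2, h z b1.1 b1.2, Filter.eventually_all.2 fun j => (b2 j).1]
      with ζ c1 c2 c3
    rw [c1]
    refine c2.trans (le_of_eq ?_)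
    congr 1
    exact Finset.sum_congr rfl fun j _ => by rw [c3 j]
  have hcont : ∀ z : ℂ, 0 < ‖z‖ → ‖z‖ < ε →
      Tendsto (fun ζ => C * ∑ j, ‖w j ζ‖) (𝓝[≠] z) (𝓝 (C * ∑ j, ‖w j z‖)) := by
    intro z h1 h2
    obtain ⟨-, -, b2⟩ := hD z h1 h2
    have h3 : Tendsto (fun ζ => ∑ j, ‖w j ζ‖) (𝓝 z) (𝓝 (∑ j, ‖w j z‖)) :=
      tendsto_finsetSum _ fun j _ => (b2 j).2.1.continuousAt.norm.tendsto
    exact (h3.const_mul C).mono_left nhdsWithin_le_nhds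
  have hgan : ∀ z : ℂ, 0 < ‖z‖ → ‖z‖ < ε → AnalyticAt ℂ g z := by
    intro z h1 h2
    obtain ⟨b1, -, -⟩ := hD z h1 h2
    have hnf : MeromorphicNFAt g z := by
      rw [hg]
      exact meromorphicNFOn_toMeromorphicNFOn u _ b1
    refine hnf.meromorphicOrderAt_nonneg_iff_analyticAt.1 ?_
    by_contra hneg
    have h3 := (tendsto_norm_cobounded_atTop.comp
      (tendsto_cobounded_of_meromorphicOrderAt_neg (not_le.1 hneg)))
    have h4 : ∀ᶠ ζ in 𝓝[≠] z, ‖g ζ‖ ≤ C * ∑ j, ‖w j z‖ + 1 := by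
      filter_upwards [hgle z h1 h2, (hcont z h1 h2).eventually_lt_const (lt_add_one _)]
        with ζ c1 c2
      exact c1.trans c2.le
    have h5 : ∀ᶠ ζ in 𝓝[≠] z, C * ∑ j, ‖w j z‖ + 1 < ‖g ζ‖ :=
      h3.eventually_gt_atTop _
    obtain ⟨ζ, c1, c2⟩ := (h4.and h5).exists
    exact absurd c1 (not_le.2 c2)
  have hgz : ∀ z : ℂ, 0 < ‖z‖ → ‖z‖ < ε → ‖g z‖ ≤ C * ∑ j, ‖w j z‖ := by
    intro z h1 h2
    exact le_of_tendsto_of_tendsto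
      ((hgan z h1 h2).continuousAt.norm.tendsto.mono_left nhdsWithin_le_nhds)
      (hcont z h1 h2) (hgle z h1 h2)
  -- multiply by a power of `z`
  have hnle : ∀ j, n j ≤ ∑ j, n j := fun j =>
    Finset.single_le_sum (fun _ _ => Nat.zero_le _) (Finset.mem_univ j)
  obtain ⟨s, hs, hsg⟩ := Pool.Agent.H92.GGL.meromorphicAt_of_bounded
    (u := fun z => z ^ (∑ j, n j) * g z) (ε := ε) (M := |C| * ∑ j, B j) hε
    (fun z h1 h2 => (analyticAt_id.pow _).mul (hgan z h1 h2)) (by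
      intro z h1 h2
      obtain ⟨-, b1, b2⟩ := hD z h1 h2
      rw [norm_mul]
      have h3 : ‖g z‖ ≤ |C| * ∑ j, ‖w j z‖ :=
        (hgz z h1 h2).trans (mul_le_mul_of_nonneg_right (le_abs_self C)
          (Finset.sum_nonneg fun _ _ => norm_nonneg _))
      calc ‖z ^ (∑ j, n j)‖ * ‖g z‖ ≤ ‖z ^ (∑ j, n j)‖ * (|C| * ∑ j, ‖w j z‖) :=
            mul_le_mul_of_nonneg_left h3 (norm_nonneg _)
        _ = |C| * ∑ j, ‖z ^ (∑ j, n j)‖ * ‖w j z‖ := by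
            rw [← Finset.mul_sum]
            ring
        _ ≤ |C| * ∑ j, B j := by
            refine mul_le_mul_of_nonneg_left (Finset.sum_le_sum fun j _ => ?_) (abs_nonneg C)
            have h4 : ‖z ^ (∑ j, n j)‖ ≤ ‖z ^ n j‖ := by
              rw [norm_pow, norm_pow]
              exact pow_le_pow_of_le_one (norm_nonneg z) b1.le (hnle j)
            calc ‖z ^ (∑ j, n j)‖ * ‖w j z‖ ≤ ‖z ^ n j‖ * ‖w j z‖ :=
                  mul_le_mul_of_nonneg_right h4 (norm_nonneg _)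
              _ = ‖z ^ n j * w j z‖ := (norm_mul _ _).symm
              _ ≤ B j := (b2 j).2.2)
  refine ⟨fun z => (z ^ (∑ j, n j))⁻¹ * s z, (((analyticAt_id.pow _).meromorphicAt).inv).mul
    hs.meromorphicAt, ?_⟩
  have hεe : ∀ᶠ z in 𝓝[≠] (0 : ℂ), 0 < ‖z‖ ∧ ‖z‖ < ε := by
    filter_upwards [(Metric.ball_mem_nhds (0 : ℂ) hε : _) |> mem_nhdsWithin_of_mem_nhds,
      self_mem_nhdsWithin] with z h1 h2
    exact ⟨norm_pos_iff.mpr h2, by simpa using h1⟩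
  filter_upwards [hεe] with z hz
  have hz0 : z ≠ 0 := norm_pos_iff.1 hz.1
  have h5 : ∀ᶠ ζ in 𝓝[≠] z, ζ ≠ 0 :=
    (isOpen_compl_singleton.mem_nhds hz0 : ({(0 : ℂ)}ᶜ : Set ℂ) ∈ 𝓝 z) |>
      mem_nhdsWithin_of_mem_nhds
  filter_upwards [hgf z hz.1 hz.2, h5] with ζ h6 h7
  rw [hsg ζ h7, ← h6, ← mul_assoc, inv_mul_cancel₀ (pow_ne_zero _ h7), one_mul]

end Pool.Agent.H5.DG
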