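import Pool.Agent.H5.DG.OrbDefs
import Pool.Agent.H5.DG.D2Core
import Pool.Agent.H62.FC.PunctMero
import Pool.Agent.H62.FC.Extend

/-!
# Project DG, module D3Orb: maps to projective space with multiplicities over hyperplanes

`picard_orb`: choose `i₀` with `lin (l i₀) (rep ∘ f)` not identically zero (`vanish_dich` for the
linear forms; not all vanish identically by `genPos_zero`), `g a z = (f z).rep a / ∑ ..` (the value
of the form `l i₀` at `(f z).rep`).  With a local lift `φ` at `s`, `g a = φ a / (l i₀ . φ)`, so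
`ordZ (lin (l j) g) s = ord (l j . φ) - ord (l i₀ . φ)`, `μ = - ord (l i₀ . φ)` (some `l j . φ` does
not vanish at `s`: `genPos_zero`), so the multiplicity hypothesis of `core_analytic` is
`MeetsWithMult 2`.  All `lin (l j) g` are `PunctMero`, so are their linear combinations `g a`
(or: use the quotients needed for `exists_extension`).

`brody_orb`: apply `picard_orb` to `z ↦ f (exp (1 / z))` (the multiplicities do not change since
`exp (1 / z)` has non-zero derivative), then `const_of_extension`.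
-/

open MvPolynomial Filter Topology
open Pool.Agent.H62.FC (MeroPunct PunctMero)
open Pool.Agent.H92.GGL (ordZ)
open Pool.Agent.H17 (PN VanishesAt zeroLocus ZariskiClosedIn HolomorphicInto puncturedDisc)

noncomputable section

namespace Pool.Agent.H5.DG

section

variable {n m κ : ℕ} {l : Fin m → Fin (n + 2) → ℂ}
  {M : Matrix (Fin (n + 2)) (Fin (n + 2)) ℂ} {N : Polynomial (PV n)} {φ : PVW n}
  {J : Finset (Fin m)} {c : Fin m → ℂ}

private def D3Orb_LF {r : ℕ} (v : Fin r → ℂ) : MvPolynomial (Fin r) ℂ := ∑ a, C (v a) * X a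

private theorem D3Orb_hom {r : ℕ} (v : Fin r → ℂ) : (D3Orb_LF v).IsHomogeneous 1 := by
  refine IsHomogeneous.sum _ _ _ fun a _ => ?_
  have h1 := (isHomogeneous_C (Fin r) (v a)).mul (isHomogeneous_X ℂ a)
  rwa [zero_add] at h1

private theorem D3Orb_eval {r : ℕ} (v x : Fin r → ℂ) : eval x (D3Orb_LF v) = dot v x := by
  unfold D3Orb_LF dot
  rw [map_sum]
  exact Finset.sum_congr rfl fun a _ => by rw [map_mul, eval_C, eval_X]

private theorem D3Orb_dot_smul {r : ℕ} (v x : Fin r → ℂ) (c : ℂ) :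
    dot v (fun a => c * x a) = c * dot v x := by
  unfold dot
  rw [Finset.mul_sum]
  exact Finset.sum_congr rfl fun a _ => by ring

private theorem D3Orb_rep {r : ℕ} {f : ℂ → PN r} {s : ℂ} {ψ : ℂ → Fin (r + 1) → ℂ}
    (he : ∀ᶠ z in 𝓝 s, ∃ h : ψ z ≠ 0, f z = Projectivization.mk ℂ (ψ z) h) :
    ∀ᶠ z in 𝓝 s, ∃ c : ℂ, c ≠ 0 ∧ ∀ i, (f z).rep i = c * ψ z i := by
  filter_upwards [he] with z hz
  obtain ⟨h1, h2⟩ := hz
  obtain ⟨a, ha, h3⟩ := Pool.Agent.H17.exists_smul_rep (ψ z) h1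
  refine ⟨a, ha, fun i => ?_⟩
  rw [h2, h3]
  rfl

private theorem D3Orb_ord_ge {Λ : ℂ → ℂ} {s : ℂ} (hΛ : AnalyticAt ℂ Λ s)
    (hne : meromorphicOrderAt Λ s ≠ ⊤) {k : ℕ} (hk : (k : ℕ∞) ≤ analyticOrderAt Λ s) :
    (k : ℤ) ≤ ordZ Λ s := by
  have h1 := hΛ.meromorphicOrderAt_eq
  have h2 := Pool.Agent.H92.GGL.ordZ_cast hne
  cases h3 : analyticOrderAt Λ s with
  | top =>
    rw [h3] at h1
    exact absurd h1 hne
  | coe n =>
    rw [h3] at h1 hk
    have h4 : ((ordZ Λ s : ℤ) : WithTop ℤ) = ((n : ℤ) : WithTop ℤ) := by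
      rw [h2, h1]
      rfl
    have h5 : ordZ Λ s = n := WithTop.coe_injective h4
    have h6 : k ≤ n := by exact_mod_cast hk
    rw [h5]
    exact_mod_cast h6

private theorem D3Orb_dot_analytic {r : ℕ} {ψ : ℂ → Fin r → ℂ} {s : ℂ} (hψ : AnalyticAt ℂ ψ s)
    (v : Fin r → ℂ) : AnalyticAt ℂ (fun z => dot v (ψ z)) s := by
  unfold dot
  refine Finset.analyticAt_fun_sum _ fun a _ => ?_
  exact analyticAt_const.mul (analyticAt_pi_iff.mp hψ a)

private theorem D3Orb_add {f g : ℂ → ℂ} (hf : PunctMero f) (hg : PunctMero g) :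
    PunctMero (fun z => f z + g z) := by
  obtain ⟨v, hv, hfv⟩ := hf
  obtain ⟨w, hw, hgw⟩ := hg
  refine ⟨fun z => v z + w z, hv.add hw, ?_⟩
  filter_upwards [hfv, hgw] with z h1 h2
  filter_upwards [h1, h2] with ζ h3 h4
  rw [h3, h4]

private theorem D3Orb_sum {ι : Type} (S : Finset ι) {f : ι → ℂ → ℂ}
    (hf : ∀ i ∈ S, PunctMero (f i)) : PunctMero (fun z => ∑ i ∈ S, f i z) := by
  classical
  induction S using Finset.induction_on with
  | empty =>
    simp only [Finset.sum_empty]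
    exact PunctMero.const 0
  | insert a S ha ih =>
    simp only [Finset.sum_insert ha]
    exact D3Orb_add (hf a (Finset.mem_insert_self a S))
      (ih fun i hi => hf i (Finset.mem_insert_of_mem hi))

private theorem D3Orb_scale {r k : ℕ} {P : MvPolynomial (Fin r) ℂ} (hP : P.IsHomogeneous k)
    (c : ℂ) (x : Fin r → ℂ) : eval (fun a => c * x a) P = c ^ k * eval x P := by
  rw [eval_eq, eval_eq, Finset.mul_sum]
  refine Finset.sum_congr rfl fun d hd => ?_
  have h1 : ∑ i, d i = k := by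
    have h2 := hP (mem_support_iff.1 hd)
    rw [Finsupp.weight_apply, Finsupp.sum_fintype _ _ (by simp)] at h2
    rw [← h2]
    simp
  have h3 : ∀ y : Fin r → ℂ, ∏ i ∈ d.support, y i ^ d i = ∏ i, y i ^ d i := by
    intro y
    refine Finset.prod_subset (Finset.subset_univ _) fun i _ hi => ?_
    rw [Finsupp.notMem_support_iff.1 hi, pow_zero]
  rw [h3, h3]
  simp only [mul_pow]
  rw [Finset.prod_mul_distrib, Finset.prod_pow_eq_pow_sum, h1]
  ring

/-- coordinates are combinations of the forms -/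
private theorem D3Orb_left (hl : GenPos l) (hm : n + 2 ≤ m) :
    ∃ b : Fin (n + 2) → Fin m → ℂ, ∀ (v : Fin (n + 2) → ℂ) (a : Fin (n + 2)),
      v a = ∑ i, b a i * dot (l i) v := by
  classical
  have hli := hl (Fin.castLE hm) (Fin.castLE_injective hm)
  have h1 : Submodule.span ℂ (Set.range fun j => l (Fin.castLE hm j)) = ⊤ := by
    refine hli.span_eq_top_of_card_eq_finrank' ?_
    rw [Fintype.card_fin, Module.finrank_fin_fun]
  have h2 : Submodule.span ℂ (Set.range l) = ⊤ := by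
    rw [eq_top_iff, ← h1]
    refine Submodule.span_mono ?_
    rintro _ ⟨j, rfl⟩
    exact ⟨_, rfl⟩
  have h3 : ∀ a : Fin (n + 2), ∃ b : Fin m → ℂ, ∑ i, b i • l i = Pi.single a 1 := by
    intro a
    have h4 : (Pi.single a 1 : Fin (n + 2) → ℂ) ∈ Submodule.span ℂ (Set.range l) := by
      rw [h2]
      exact Submodule.mem_top
    rwa [Submodule.mem_span_range_iff_exists_fun] at h4
  choose b hb using h3
  refine ⟨b, fun v a => ?_⟩
  have h4 : v a = dot (Pi.single a 1) v := by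
    unfold dot
    rw [Finset.sum_eq_single a]
    · rw [Pi.single_eq_same, one_mul]
    · intro c _ hc
      rw [Pi.single_eq_of_ne hc, zero_mul]
    · intro h0
      exact absurd (Finset.mem_univ a) h0
  rw [h4, ← hb a]
  unfold dot
  simp only [Finset.sum_apply, Pi.smul_apply, smul_eq_mul, Finset.sum_mul, Finset.mul_sum]
  rw [Finset.sum_comm]
  exact Finset.sum_congr rfl fun i _ => Finset.sum_congr rfl fun c _ => by ring

/-- The big Picard theorem. -/
theorem picard_orb (h : Pkg l M κ N φ J c) {f : ℂ → PN (n + 1)}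
    (hf : HolomorphicInto f puncturedDisc) (hm : ∀ j, MeetsWithMult 2 (l j) f puncturedDisc)
    (hne : ∃ z ∈ puncturedDisc, ¬ VanishesAt (DelM M κ N) (f z)) :
    ∃ g : ℂ → PN (n + 1), HolomorphicInto g (Metric.ball 0 1) ∧
      ∀ z ∈ puncturedDisc, g z = f z := by
  classical
  have hmem : ∀ z : ℂ, 0 < ‖z‖ → ‖z‖ < 1 → z ∈ puncturedDisc := fun z h1 h2 =>
    mem_puncturedDisc.mpr ⟨h1, h2⟩
  have hle : n + 2 ≤ m := by
    have := h.le_m
    omega
  -- the values of the linear forms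
  obtain ⟨Lf, hLf⟩ : ∃ Lf : Fin m → ℂ → ℂ, ∀ i z, Lf i z = dot (l i) (f z).rep :=
    ⟨fun i z => dot (l i) (f z).rep, fun _ _ => rfl⟩
  have hvan : ∀ i z, VanishesAt (D3Orb_LF (l i)) (f z) ↔ Lf i z = 0 := by
    intro i z
    unfold VanishesAt
    rw [D3Orb_eval, hLf]
  have hdich0 : ∀ i, (∀ s ∈ puncturedDisc, ∀ᶠ z in 𝓝 s, Lf i z = 0) ∨
      (∀ s ∈ puncturedDisc, ∀ᶠ z in 𝓝[≠] s, Lf i z ≠ 0) := by
    intro i
    rcases vanish_dich hf (D3Orb_hom (l i)) with h1 | h1
    · left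
      intro s hs
      filter_upwards [h1 s hs] with z hz
      exact (hvan i z).1 hz
    · right
      intro s hs
      filter_upwards [h1 s hs] with z hz hz'
      exact hz ((hvan i z).2 hz')
  have hhalf : (1 / 2 : ℂ) ∈ puncturedDisc := by
    refine hmem _ ?_ ?_
    · norm_num
    · norm_num
  obtain ⟨i₀, hi₀⟩ : ∃ i₀, ∀ s ∈ puncturedDisc, ∀ᶠ z in 𝓝[≠] s, Lf i₀ z ≠ 0 := by
    by_contra hcon
    push Not at hcon
    have h1 : ∀ i, Lf i (1 / 2) = 0 := by
      intro i
      rcases hdich0 i with h2 | h2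
      · exact (h2 _ hhalf).self_of_nhds
      · obtain ⟨s, hs, h3⟩ := hcon i
        exact absurd (h2 s hs) h3
    have h2 : (f (1 / 2)).rep = 0 := by
      refine genPos_zero (S := Finset.univ) h.gen ?_ fun j _ => ?_
      · rw [Finset.card_univ, Fintype.card_fin]
        exact hle
      · rw [← hLf]
        exact h1 j
    exact (f (1 / 2)).rep_nonzero h2
  obtain ⟨g, hg⟩ : ∃ g : Fin (n + 2) → ℂ → ℂ, ∀ a z, g a z = (f z).rep a / Lf i₀ z :=
    ⟨fun a z => (f z).rep a / Lf i₀ z, fun _ _ => rfl⟩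
  have hlin : ∀ i z, lin (l i) g z = Lf i z / Lf i₀ z := by
    intro i z
    unfold lin
    have h1 : (fun a => g a z) = fun a => (Lf i₀ z)⁻¹ * (f z).rep a := by
      funext a
      rw [hg, div_eq_inv_mul]
    rw [h1, D3Orb_dot_smul, ← hLf, div_eq_inv_mul]
  -- local lifts
  have hloc : ∀ {s : ℂ} {ψ : ℂ → Fin (n + 2) → ℂ},
      (∀ᶠ z in 𝓝 s, ∃ h : ψ z ≠ 0, f z = Projectivization.mk ℂ (ψ z) h) →
      ∀ᶠ z in 𝓝 s, ∃ c : ℂ, c ≠ 0 ∧ (∀ a, (f z).rep a = c * ψ z a) ∧
        ∀ i, Lf i z = c * dot (l i) (ψ z) := by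
    intro s ψ he
    filter_upwards [D3Orb_rep he] with z hz
    obtain ⟨c, hc, h2⟩ := hz
    refine ⟨c, hc, h2, fun i => ?_⟩
    rw [hLf, ← D3Orb_dot_smul]
    congr 1
    funext a
    exact h2 a
  have hmeroQ : ∀ (v : Fin (n + 2) → ℂ) (s : ℂ), s ∈ puncturedDisc →
      MeromorphicAt (fun z => dot v (f z).rep / Lf i₀ z) s := by
    intro v s hs
    obtain ⟨ψ, hψ, he⟩ := hf s hs
    have h1 : MeromorphicAt (fun z => dot v (ψ z) / dot (l i₀) (ψ z)) s :=
      (D3Orb_dot_analytic hψ v).meromorphicAt.fun_div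
        (D3Orb_dot_analytic hψ (l i₀)).meromorphicAt
    refine h1.congr ?_
    filter_upwards [(hloc he).filter_mono nhdsWithin_le_nhds] with z hz
    obtain ⟨c, hc, h2, h3⟩ := hz
    have h4 : dot v (f z).rep = c * dot v (ψ z) := by
      rw [← D3Orb_dot_smul]
      congr 1
      funext a
      exact h2 a
    rw [h3, h4, mul_div_mul_left _ _ hc]
  have hgm : ∀ a z, 0 < ‖z‖ → ‖z‖ < 1 → MeromorphicAt (g a) z := by
    intro a z h1 h2
    have h3 := hmeroQ (Pi.single a 1) z (hmem z h1 h2)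
    refine h3.congr (Eventually.of_forall fun w => ?_)
    rw [hg]
    show dot (Pi.single a 1) (f w).rep / Lf i₀ w = (f w).rep a / Lf i₀ w
    congr 1
    unfold dot
    rw [Finset.sum_eq_single a]
    · rw [Pi.single_eq_same, one_mul]
    · intro c _ hc
      rw [Pi.single_eq_of_ne hc, zero_mul]
    · intro h0
      exact absurd (Finset.mem_univ a) h0
  have hmp : ∀ i, (∀ s ∈ puncturedDisc, ∀ᶠ z in 𝓝[≠] s, Lf i z ≠ 0) →
      MeroPunct 1 (lin (l i) g) := by
    intro i hi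
    have hmer : ∀ z, 0 < ‖z‖ → ‖z‖ < 1 → MeromorphicAt (lin (l i) g) z := by
      intro z h1 h2
      refine (hmeroQ (l i) z (hmem z h1 h2)).congr (Eventually.of_forall fun w => ?_)
      show dot (l i) (f w).rep / Lf i₀ w = lin (l i) g w
      rw [hlin, hLf i]
    refine ⟨hmer, fun z h1 h2 => ?_⟩
    rw [meromorphicOrderAt_ne_top_iff_eventually_ne_zero (hmer z h1 h2)]
    filter_upwards [hi z (hmem z h1 h2), hi₀ z (hmem z h1 h2)] with w h3 h4
    rw [hlin]
    exact div_ne_zero h3 h4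
  have hdich : ∀ i, MeroPunct 1 (lin (l i) g) ∨
      ∀ z, 0 < ‖z‖ → ‖z‖ < 1 → ∀ᶠ ζ in 𝓝[≠] z, lin (l i) g ζ = 0 := by
    intro i
    rcases hdich0 i with h1 | h1
    · right
      intro z h2 h3
      filter_upwards [(h1 z (hmem z h2 h3)).filter_mono nhdsWithin_le_nhds] with w hw
      rw [hlin, hw, zero_div]
    · left
      exact hmp i h1
  have hone : ∀ z, 0 < ‖z‖ → ‖z‖ < 1 → ∀ᶠ ζ in 𝓝[≠] z, lin (l i₀) g ζ = 1 := by
    intro z h1 h2
    filter_upwards [hi₀ z (hmem z h1 h2)] with w hw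
    rw [hlin, div_self hw]
  have hΔ : ∀ z, 0 < ‖z‖ → ‖z‖ < 1 →
      ∀ᶠ ζ in 𝓝[≠] z, MvPolynomial.eval (fun a => g a ζ) (DelM M κ N) ≠ 0 := by
    intro z h1 h2
    obtain ⟨k, hk⟩ := DelM_isHomogeneous h
    obtain ⟨z₁, hz₁, hz₁'⟩ := hne
    have h3 : ∀ᶠ ζ in 𝓝[≠] z, ¬ VanishesAt (DelM M κ N) (f ζ) := by
      rcases vanish_dich hf hk with h4 | h4
      · exact absurd (h4 z₁ hz₁).self_of_nhds hz₁'
      · exact h4 z (hmem z h1 h2)
    filter_upwards [h3, hi₀ z (hmem z h1 h2)] with ζ h5 h6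
    have h7 : (fun a => g a ζ) = fun a => (Lf i₀ ζ)⁻¹ * (f ζ).rep a := by
      funext a
      rw [hg, div_eq_inv_mul]
    have h8 : eval (fun a => (Lf i₀ ζ)⁻¹ * (f ζ).rep a) (DelM M κ N) =
        (Lf i₀ ζ)⁻¹ ^ k * eval (f ζ).rep (DelM M κ N) := by
      exact D3Orb_scale hk _ _
    rw [h7, h8]
    exact mul_ne_zero (pow_ne_zero _ (inv_ne_zero h6)) h5
  have hmult : ∀ j, MeroPunct 1 (lin (l j) g) → ∀ s, 0 < ‖s‖ → ‖s‖ < 1 → ∀ μ : ℤ,
      (∀ i, MeroPunct 1 (lin (l i) g) → μ ≤ ordZ (lin (l i) g) s) →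
      (∃ i, MeroPunct 1 (lin (l i) g) ∧ ordZ (lin (l i) g) s = μ) →
      ordZ (lin (l j) g) s = μ ∨ μ + 2 ≤ ordZ (lin (l j) g) s := by
    intro j hj s hs1 hs2 μ hμ1 hμ2
    have hs := hmem s hs1 hs2
    obtain ⟨ψ, hψ, he, hord⟩ := hm j s hs
    have hΛ : ∀ i, AnalyticAt ℂ (fun z => dot (l i) (ψ z)) s := fun i =>
      D3Orb_dot_analytic hψ (l i)
    have hlocs := hloc he
    -- orders
    have hfin : ∀ i, MeroPunct 1 (lin (l i) g) →
        meromorphicOrderAt (fun z => dot (l i) (ψ z)) s ≠ ⊤ := by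
      intro i hi
      rw [meromorphicOrderAt_ne_top_iff_eventually_ne_zero (hΛ i).meromorphicAt]
      have h1 := (meromorphicOrderAt_ne_top_iff_eventually_ne_zero (hi.mero s hs1 hs2)).1
        (hi.ord s hs1 hs2)
      filter_upwards [h1, hlocs.filter_mono nhdsWithin_le_nhds] with z h2 h3 h4
      obtain ⟨c, hc, h5, h6⟩ := h3
      apply h2
      rw [hlin, h6 i, h4, mul_zero, zero_div]
    have hfin0 := hfin i₀ (hmp i₀ hi₀)
    have hordi : ∀ i, MeroPunct 1 (lin (l i) g) → ordZ (lin (l i) g) s =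
        ordZ (fun z => dot (l i) (ψ z)) s - ordZ (fun z => dot (l i₀) (ψ z)) s := by
      intro i hi
      have h1 : (fun z => dot (l i) (ψ z)) =ᶠ[𝓝[≠] s]
          (fun z => lin (l i) g z * dot (l i₀) (ψ z)) := by
        filter_upwards [hlocs.filter_mono nhdsWithin_le_nhds, hi₀ s hs] with z hz h3
        obtain ⟨c, hc, h5, h6⟩ := hz
        rw [hlin, h6 i, h6 i₀, mul_div_mul_left _ _ hc, div_mul_cancel₀]
        intro h7
        apply h3
        rw [h6 i₀, h7, mul_zero]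
      have h2 := meromorphicOrderAt_congr h1
      have h3 : meromorphicOrderAt (fun z => lin (l i) g z * dot (l i₀) (ψ z)) s =
          meromorphicOrderAt (lin (l i) g) s +
            meromorphicOrderAt (fun z => dot (l i₀) (ψ z)) s :=
        fun_meromorphicOrderAt_mul (hi.mero s hs1 hs2) (hΛ i₀).meromorphicAt
      rw [h3, ← Pool.Agent.H92.GGL.ordZ_cast (hfin i hi),
        ← Pool.Agent.H92.GGL.ordZ_cast hfin0,
        ← Pool.Agent.H92.GGL.ordZ_cast (hi.ord s hs1 hs2)] at h2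
      have h4 : ordZ (fun z => dot (l i) (ψ z)) s =
          ordZ (lin (l i) g) s + ordZ (fun z => dot (l i₀) (ψ z)) s := by
        exact_mod_cast h2
      linarith
    have hnn : ∀ i, MeroPunct 1 (lin (l i) g) → 0 ≤ ordZ (fun z => dot (l i) (ψ z)) s := by
      intro i hi
      have := D3Orb_ord_ge (k := 0) (hΛ i) (hfin i hi) (by simp)
      exact_mod_cast this
    -- a form which does not vanish at `s`
    obtain ⟨i₁, hi₁⟩ : ∃ i₁, dot (l i₁) (ψ s) ≠ 0 := by
      by_contra hcon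
      push Not at hcon
      obtain ⟨h1, -⟩ := he.self_of_nhds
      exact h1 (genPos_zero (S := Finset.univ) h.gen (by
        rw [Finset.card_univ, Fintype.card_fin]
        exact hle) fun j _ => hcon j)
    have hi₁m : MeroPunct 1 (lin (l i₁) g) := by
      rcases hdich0 i₁ with h1 | h1
      · exfalso
        obtain ⟨c, hc, h5, h6⟩ := hlocs.self_of_nhds
        have h7 := (h1 s hs).self_of_nhds
        rw [h6] at h7
        exact mul_ne_zero hc hi₁ h7
      · exact hmp i₁ h1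
    have h1 := hμ1 i₁ hi₁m
    rw [hordi i₁ hi₁m, ord_eq_zero_of_ne (hΛ i₁) hi₁] at h1
    obtain ⟨i₂, hi₂m, hi₂⟩ := hμ2
    have h2 := hnn i₂ hi₂m
    rw [hordi i₂ hi₂m] at hi₂
    have hμ : μ = - ordZ (fun z => dot (l i₀) (ψ z)) s := by linarith
    rw [hordi j hj, hμ]
    by_cases hjs : dot (l j) (ψ s) = 0
    · right
      have h3 := hord hjs
      have h4 := D3Orb_ord_ge (k := 2) (hΛ j) (hfin j hj) (by exact_mod_cast h3)
      push_cast at h4
      linarith
    · left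
      rw [ord_eq_zero_of_ne (hΛ j) hjs]
      ring
  have hcore := core_analytic h one_pos hgm hΔ hdich hone hmult
  -- the coordinates
  obtain ⟨b, hb⟩ := D3Orb_left h.gen hle
  obtain ⟨a₀, ha₀⟩ : ∃ a₀, a₀ ∈ nzSet f := by
    by_contra hcon
    push Not at hcon
    exact (f (1 / 2)).rep_nonzero (funext fun a => nz_notMem hf (hcon a) hhalf)
  have hga : ∀ a, PunctMero (g a) := by
    intro a
    have h1 : PunctMero (fun z => ∑ i, b a i * lin (l i) g z) :=
      D3Orb_sum _ fun i _ => (PunctMero.const (b a i)).mul (hcore i)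
    refine h1.congr (Eventually.of_forall fun z => Eventually.of_forall fun w => ?_)
    exact (hb (fun a => g a w) a).symm
  refine Pool.Agent.H62.FC.exists_extension hf (i₀ := a₀) ?_ ?_
  · filter_upwards [eventually_puncturedDisc_zero] with z hz
    exact nz_mem ha₀ hz
  · intro a
    have h1 : PunctMero (fun z => g a z * (g a₀ z)⁻¹) := (hga a).mul (hga a₀).inv
    refine h1.congr ?_
    filter_upwards [eventually_puncturedDisc_zero] with z hz
    filter_upwards [hi₀ z hz] with w hw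
    rw [hg, hg, ← div_eq_mul_inv, div_div_div_cancel_right₀ hw]

/-- Entire curves. -/
theorem brody_orb (h : Pkg l M κ N φ J c) {f : ℂ → PN (n + 1)}
    (hf : HolomorphicInto f Set.univ) (hm : ∀ j, MeetsWithMult 2 (l j) f Set.univ)
    (hne : ∃ z, ¬ VanishesAt (DelM M κ N) (f z)) (z w : ℂ) : f z = f w := by
  obtain ⟨k, hk⟩ := DelM_isHomogeneous h
  exact OrbExt.brody (q := 2) hk (fun f hf hm hne => picard_orb h hf hm hne) hf hm hne z w

end

end Pool.Agent.H5.DG
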