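import Pool.Agent.H5.DG.CovMain
import Pool.Agent.H5.DG.D3Orb

/-!
# Project DG, module CovPkg: Picard and Brody for finite covers, many hyperplanes
-/

open MvPolynomial Filter Topology
open Pool.Agent.H17 (PN VanishesAt HolomorphicInto puncturedDisc)

noncomputable section

namespace Pool.Agent.H5.DG

section

variable {n Nn κ m e : ℕ} {l : Fin m → Fin (n + 2) → ℂ}
  {M : Matrix (Fin (n + 2)) (Fin (n + 2)) ℂ} {N : Polynomial (PV n)} {φ : PVW n}
  {J : Finset (Fin m)} {c : Fin m → ℂ} {I : Ideal (MvPolynomial (Fin (Nn + 1)) ℂ)}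
  {F : Fin (n + 2) → MvPolynomial (Fin (Nn + 1)) ℂ} {O : Finset (Fin m)}

/-- **Picard's theorem for covers.** -/
theorem picard_cover (h : Pkg l M κ N φ J c) (hI : Homog I) (hF : BaseFree I e F)
    (hram : ∀ j ∉ O, Ram I (comb (l j) F)) {f : ℂ → PN Nn} (hf : HolomorphicInto f puncturedDisc)
    (hfX : ∀ z ∈ puncturedDisc, f z ∈ coverLocus I O fun j => comb (l j) F)
    (hne : ∃ z ∈ puncturedDisc, ¬ VanishesAt (aeval F (DelM M κ N)) (f z)) :
    ∃ g : ℂ → PN Nn, HolomorphicInto g (Metric.ball 0 1) ∧ ∀ z ∈ puncturedDisc, g z = f z := by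
  obtain ⟨k, hk⟩ := DelM_isHomogeneous h
  exact picard_coverM (q := 2) hk (fun f hf hm hne => picard_orb h hf hm hne) hI hF hram hf hfX hne

/-- **Brody's theorem for covers.** -/
theorem brody_cover (h : Pkg l M κ N φ J c) (hI : Homog I) (hF : BaseFree I e F)
    (hram : ∀ j ∉ O, Ram I (comb (l j) F)) {f : ℂ → PN Nn} (hf : HolomorphicInto f Set.univ)
    (hfX : ∀ z, f z ∈ coverLocus I O fun j => comb (l j) F)
    (hne : ∃ z, ¬ VanishesAt (aeval F (DelM M κ N)) (f z)) (z w : ℂ) : f z = f w := by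
  obtain ⟨k, hk⟩ := DelM_isHomogeneous h
  exact brody_coverM (q := 2) hk (fun f hf hm hne => picard_orb h hf hm hne) hI hF hram hf hfX hne
    z w

end

end Pool.Agent.H5.DG
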