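import Pool.Agent.H62.FC.NevDefs
import Pool.Agent.H62.FC.CharMero
import Pool.Agent.H62.FC.Nev0
import Pool.Agent.H62.FC.LogDeriv

/-!
# DG, module D1: a second main theorem with truncation level one at a puncture (abstract form)
-/

noncomputable section

namespace Pool.Agent.H5.DG

open Filter Topology MeasureTheory
open Pool.Agent.H92.GGL (ordZ)
open Pool.Agent.H62.FC

/-! ### Means -/

private theorem circleIntegrable_sup {f g : ℂ → ℝ} {c : ℂ} {R : ℝ} (hf : CircleIntegrable f c R)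
    (hg : CircleIntegrable g c R) : CircleIntegrable (f ⊔ g) c R := by
  have h : f ⊔ g = (1 / 2 : ℝ) • (f + g + |g - f|) := by
    funext z
    simp only [Pi.sup_apply, Pi.smul_apply, Pi.add_apply, Pi.abs_apply, Pi.sub_apply, smul_eq_mul]
    rw [max_def]
    split_ifs with h1
    · rw [abs_of_nonneg (by linarith)]
      ring
    · rw [abs_of_nonpos (by linarith)]
      ring
  rw [h]
  exact ((hf.add hg).add (hg.sub hf).abs).const_smul

private theorem mean_mono {f g : ℂ → ℝ} {x : ℝ} (hf : CircleIntegrable f 0 (Real.exp (-x)))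
    (hg : CircleIntegrable g 0 (Real.exp (-x)))
    (h : ∀ z ∈ Metric.sphere (0 : ℂ) |Real.exp (-x)|, ∀ᶠ ζ in 𝓝[≠] z, f ζ ≤ g ζ) :
    mean f x ≤ mean g x := by
  have h1 : g =ᶠ[codiscreteWithin (Metric.sphere (0 : ℂ) |Real.exp (-x)|)]
      fun z => max (f z) (g z) := by
    rw [Filter.EventuallyEq, Filter.Eventually, mem_codiscreteWithin_iff_forall_mem_nhdsNE]
    intro z hz
    filter_upwards [h z hz] with ζ hζ
    left
    show g ζ = max (f ζ) (g ζ)
    rw [max_eq_right hζ]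
  have h2 : mean g x = mean (fun z => max (f z) (g z)) x :=
    Real.circleAverage_congr_codiscreteWithin h1 (Real.exp_ne_zero _)
  rw [h2]
  exact Real.circleAverage_mono hf (CircleIntegrable.congr_codiscreteWithin h1 hg)
    fun z _ => le_max_left _ _

private theorem exists_T {ι : Type*} [Finite ι] {R₀ R₁ : ℝ} (h : R₁ < R₀) {w : ι → ℂ → ℝ}
    (hw : ∀ i, LocFin R₀ (w i)) {r : ℝ} (hr : 0 < r) :
    ∃ (T : Finset ℂ) (l : ℂ → ℝ), (∀ s ∈ T, r < ‖s‖ ∧ ‖s‖ < R₁ ∧ 0 ≤ l s) ∧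
      ∀ w' : ℂ → ℝ, (∀ s, (∀ i, w i s = 0) → w' s = 0) →
        cnt w' R₁ r = ∑ s ∈ T, w' s * l s := by
  classical
  have hfin : (⋃ i, {s : ℂ | r ≤ ‖s‖ ∧ ‖s‖ ≤ R₁ ∧ w i s ≠ 0}).Finite :=
    Set.finite_iUnion fun i => hw i r R₁ hr h
  refine ⟨hfin.toFinset.filter fun s => r < ‖s‖ ∧ ‖s‖ < R₁, fun s => Real.log (‖s‖ / r),
    fun s hs => ?_, fun w' hw' => ?_⟩
  · rw [Finset.mem_filter] at hs
    refine ⟨hs.2.1, hs.2.2, Real.log_nonneg ?_⟩
    rw [le_div_iff₀ hr, one_mul]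
    exact hs.2.1.le
  · refine cnt_eq_sum (fun s h1 h2 h3 => ?_) hr
    rw [Set.Finite.mem_toFinset, Set.mem_iUnion]
    by_contra hcon
    refine h3 (hw' s fun i => ?_)
    by_contra hi
    exact hcon ⟨i, h1.le, h2.le, hi⟩

private theorem linear_bound (A B x : ℝ) : |A + B * x| ≤ (|A| + |B|) * (1 + |x|) := by
  have h1 : |A + B * x| ≤ |A| + |B| * |x| := by
    rw [← abs_mul]
    exact abs_add_le A (B * x)
  nlinarith [abs_nonneg A, abs_nonneg B, abs_nonneg x, mul_nonneg (abs_nonneg A) (abs_nonneg x)]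

private theorem circleAverage_const_mul (a : ℝ) (f : ℂ → ℝ) (R : ℝ) :
    Real.circleAverage (fun z => a * f z) 0 R = a * Real.circleAverage f 0 R :=
  Real.circleAverage_fun_smul (a := a)

/-- The sum of the logarithmic derivatives. -/
private def Q {ι : Type} [Fintype ι] (h : ι → ℂ → ℂ) (z : ℂ) : ℝ :=
  ∑ i, Real.posLog ‖deriv (h i) z / h i z‖

private theorem log_one_add_sum {ι : Type} [Fintype ι] (a : ι → ℝ) :
    Real.log (1 + ∑ i, a i) ≤ Real.log (Fintype.card ι + 1) + ∑ i, Real.posLog (a i) := by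
  have h1 := Real.posLog_sum (Finset.univ : Finset (Option ι)) (fun o => o.elim 1 a)
  rw [Fintype.sum_option, Fintype.sum_option, Finset.card_univ, Fintype.card_option] at h1
  simp only [Option.elim_none, Option.elim_some, Real.posLog_one, zero_add] at h1
  push_cast at h1
  exact (le_max_right _ _).trans h1

/-- **Second main theorem at a puncture, abstract form.** -/
theorem smt_punct {ι : Type} [Fintype ι] {R₀ : ℝ} (hR₀ : 0 < R₀) {h : ι → ℂ → ℂ}
    (hh : ∀ i, MeroPunct R₀ (h i)) {i₀ : ι}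
    (hi₀ : ∀ z, 0 < ‖z‖ → ‖z‖ < R₀ → ∀ᶠ ζ in 𝓝[≠] z, h i₀ ζ = 1) {P : ℂ → ℂ}
    (hP : MeroPunct R₀ P) {J : Finset ι} {K ρ m : ℕ} {C : ℝ}
    (hpt : ∀ z, 0 < ‖z‖ → ‖z‖ < R₀ → ∀ᶠ ζ in 𝓝[≠] z, ∀ H : ℝ, (∀ i, ‖h i ζ‖ ≤ H) →
      (∃ i, ‖h i ζ‖ = H) → ‖P ζ‖ * H ^ J.card ≤
        C * H ^ K * (∏ j ∈ J, ‖h j ζ‖) * (1 + ∑ i, ‖deriv (h i) ζ / h i ζ‖) ^ ρ)
    (hloc : ∀ s, 0 < ‖s‖ → ‖s‖ < R₀ → ∀ μ : ℤ, (∀ i, μ ≤ ordZ (h i) s) →
      (∃ i, ordZ (h i) s = μ) →
      K * μ + ∑ j ∈ J, max (ordZ (h j) s - μ - 1) 0 ≤ ordZ P s)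
    (hmult : ∀ j ∈ J, ∀ s, 0 < ‖s‖ → ‖s‖ < R₀ → ∀ μ : ℤ, (∀ i, μ ≤ ordZ (h i) s) →
      (∃ i, ordZ (h i) s = μ) → ordZ (h j) s = μ ∨ μ + m ≤ ordZ (h j) s)
    (hm : 1 ≤ m) (hnum : K * m < J.card * (m - 1)) (i : ι) : PunctMero (h i) := by
  classical
  have : Nonempty ι := ⟨i₀⟩
  obtain ⟨R₁, hR₁⟩ : ∃ R₁, R₁ = R₀ / 2 := ⟨_, rfl⟩
  have h1 : 0 < R₁ := by rw [hR₁]; linarith
  have h12 : R₁ < R₀ := by rw [hR₁]; linarith
  -- numbers
  have hmR : (0 : ℝ) < m := by exact_mod_cast hm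
  obtain ⟨q, hq⟩ : ∃ q, q = J.card := ⟨_, rfl⟩
  rw [← hq] at hnum
  set δ : ℝ := (q : ℝ) - K - q / m with hδ
  have hδ0 : 0 < δ := by
    have h3 : (K : ℝ) * m < q * (m - 1) := by
      have h4 : ((K * m : ℕ) : ℝ) < ((q * (m - 1) : ℕ) : ℝ) := by exact_mod_cast hnum
      push_cast [Nat.cast_sub hm] at h4
      exact h4
    have h5 : δ * m = q * (m - 1) - K * m := by
      rw [hδ]
      field_simp
      ring
    nlinarith
  -- the minimum of the orders
  obtain ⟨μ, hμ0, hμj, hμ'⟩ : ∃ μ : ℂ → ℤ, (∀ s, 0 < ‖s‖ → ‖s‖ < R₀ → μ s ≤ 0) ∧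
      (∀ s j, μ s ≤ ordZ (h j) s) ∧ ∀ s, ∃ j, ordZ (h j) s = μ s := by
    refine ⟨fun s => Finset.univ.inf' Finset.univ_nonempty (fun j => ordZ (h j) s),
      fun s hs1 hs2 => ?_, fun s j => Finset.inf'_le _ (Finset.mem_univ j), fun s => ?_⟩
    · refine (Finset.inf'_le _ (Finset.mem_univ i₀)).trans (le_of_eq ?_)
      unfold ordZ
      have h3 : h i₀ =ᶠ[𝓝[≠] s] fun _ => 1 := hi₀ s hs1 hs2
      rw [meromorphicOrderAt_congr h3, meromorphicOrderAt_const]
      simp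
    · obtain ⟨j, -, hj⟩ := Finset.exists_mem_eq_inf' (Finset.univ_nonempty (α := ι))
        (fun j => ordZ (h j) s)
      exact ⟨j, hj.symm⟩
  -- the characteristic function
  obtain ⟨G, hG⟩ : ∃ G : ℂ → ℝ, ∀ z, G z =
      Finset.univ.sup' Finset.univ_nonempty (fun j => Real.posLog ‖h j z‖) := ⟨_, fun z => rfl⟩
  have hGj : ∀ z j, Real.posLog ‖h j z‖ ≤ G z := by
    intro z j
    rw [hG]
    exact Finset.le_sup' (fun j => Real.posLog ‖h j z‖) (Finset.mem_univ j)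
  have hG0 : ∀ z, 0 ≤ G z := fun z => Real.posLog_nonneg.trans (hGj z i₀)
  -- weights
  have hLoc : ∀ o : Option ι, LocFin R₀ (fun s => (ordZ (o.elim P h) s : ℝ)) := by
    intro o
    cases o with
    | none => exact MeroPunct.locFin hP
    | some j => exact MeroPunct.locFin (hh j)
  -- constants
  choose A B hAB using fun j => MeroPunct.jensen (hh j) h1 h12
  obtain ⟨A', B', hAB'⟩ := MeroPunct.jensen hP h1 h12
  obtain ⟨L, hL⟩ : ∃ L : ℝ, L = |Real.log C| + ρ * Real.log (Fintype.card ι + 1) := ⟨_, rfl⟩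
  have hcard : (0 : ℝ) < Fintype.card ι := by exact_mod_cast Fintype.card_pos
  have hL0 : 0 ≤ L := by
    rw [hL]
    have := Real.log_nonneg (show (1 : ℝ) ≤ Fintype.card ι + 1 by linarith)
    positivity
  have hε : 0 < δ / 2 / ((ρ + 1) * Fintype.card ι) := by positivity
  choose Cq E hE hq' using fun i : ι =>
    MeroPunct.logDeriv_negl h1 h12 (hh i) _ hε
  -- the exceptional set
  have hE' : volume (⋃ i, E i) ≠ ⊤ := by
    refine ((measure_iUnion_fintype_le volume _).trans_lt ?_).ne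
    exact ENNReal.sum_lt_top.2 fun p _ => lt_top_iff_ne_top.2 (hE p)
  obtain ⟨C₀, hC₀⟩ : ∃ C₀ : ℝ, C₀ = (∑ j, (|A j| + |B j|)) + (|A'| + |B'|) + L +
    ρ * (∑ i, |Cq i|) + 1 / m * ∑ j, (|A j| + |B j|) := ⟨_, rfl⟩
  refine punctMero_of_nevT h1 h12 (hh i) (C := 2 / δ * C₀) hE' fun x hx hxE => ?_
  have hxR₀ : Real.exp (-x) < R₀ := hx.trans h12
  have hr : 0 < Real.exp (-x) := Real.exp_pos _
  have hxE' : ∀ i, x ∉ E i := fun i hcon => hxE (Set.mem_iUnion.2 ⟨i, hcon⟩)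
  have hsph : ∀ z ∈ Metric.sphere (0 : ℂ) |Real.exp (-x)|, 0 < ‖z‖ ∧ ‖z‖ < R₀ := by
    intro z hz
    rw [mem_sphere_zero_iff_norm, abs_of_pos hr] at hz
    rw [hz]
    exact ⟨hr, hxR₀⟩
  -- integrability
  have hIG : CircleIntegrable G 0 (Real.exp (-x)) := by
    have hsup := Finset.sup'_induction (Finset.univ_nonempty (α := ι))
      (fun j => fun z => Real.posLog ‖h j z‖)
      (p := fun f : ℂ → ℝ => CircleIntegrable f 0 (Real.exp (-x)))
      (fun f hf g hg => circleIntegrable_sup hf hg)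
      (fun j _ => MeroPunct.circleIntegrable_posLog (hh j) hxR₀)
    have e : G = Finset.univ.sup' (Finset.univ_nonempty (α := ι))
        (fun j => fun z => Real.posLog ‖h j z‖) := by
      funext z
      rw [hG, Finset.sup'_apply]
    rw [e]
    exact hsup
  have hIlog : ∀ j, CircleIntegrable (fun z => Real.log ‖h j z‖) 0 (Real.exp (-x)) :=
    fun j => MeroPunct.circleIntegrable_log (hh j) hxR₀
  have hIP : CircleIntegrable (fun z => Real.log ‖P z‖) 0 (Real.exp (-x)) :=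
    MeroPunct.circleIntegrable_log hP hxR₀
  have hIq : ∀ j, CircleIntegrable (fun z => Real.posLog ‖deriv (h j) z / h j z‖) 0
      (Real.exp (-x)) := by
    intro j
    apply MeromorphicOn.circleIntegrable_posLog_norm
    intro z hz
    obtain ⟨hz1, hz2⟩ := hsph z hz
    have hm := (hh j).mero z hz1 hz2
    exact hm.deriv.fun_div hm
  have hIQ : CircleIntegrable (Q h) 0 (Real.exp (-x)) := by
    have e : Q h = ∑ j, fun z => Real.posLog ‖deriv (h j) z / h j z‖ := by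
      funext z
      unfold Q
      simp only [Finset.sum_apply]
    rw [e]
    exact CircleIntegrable.sum _ fun i _ => hIq i
  have hISum : CircleIntegrable (fun z => ∑ j ∈ J, Real.log ‖h j z‖) 0 (Real.exp (-x)) := by
    have e : (fun z => ∑ j ∈ J, Real.log ‖h j z‖) = ∑ j ∈ J, fun z => Real.log ‖h j z‖ := by
      funext z
      simp only [Finset.sum_apply]
    rw [e]
    exact CircleIntegrable.sum _ fun j _ => hIlog j
  have hISP : CircleIntegrable (fun z => (∑ j ∈ J, Real.log ‖h j z‖) - Real.log ‖P z‖) 0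
      (Real.exp (-x)) := hISum.sub hIP
  have hIρQ : CircleIntegrable (fun z => ρ * Q h z) 0 (Real.exp (-x)) :=
    hIQ.const_smul (a := (ρ : ℝ))
  have hILρ : CircleIntegrable (fun z => L + ρ * Q h z) 0 (Real.exp (-x)) :=
    (circleIntegrable_const L 0 _).add hIρQ
  have hIR : CircleIntegrable (fun z => (∑ j ∈ J, Real.log ‖h j z‖) - Real.log ‖P z‖ +
      (L + ρ * Q h z)) 0 (Real.exp (-x)) := hISP.add hILρ
  have hIqG : CircleIntegrable (fun z => ((q : ℝ) - K) * G z) 0 (Real.exp (-x)) :=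
    hIG.const_smul (a := ((q : ℝ) - K))
  -- the mean of `G`
  have hmG : ((q : ℝ) - K) * mean G x ≤ (∑ j ∈ J, mean (fun z => Real.log ‖h j z‖) x) -
      mean (fun z => Real.log ‖P z‖) x +
      (L + ρ * ∑ j, mean (fun z => Real.posLog ‖deriv (h j) z / h j z‖) x) := by
    have h := mean_mono (x := x) hIqG hIR (fun z hz => by
      obtain ⟨hz1, hz2⟩ := hsph z hz
      have e1 : ∀ᶠ ζ in 𝓝[≠] z, ∀ j, h j ζ ≠ 0 :=
        Filter.eventually_all.2 fun j =>
          (meromorphicOrderAt_ne_top_iff_eventually_ne_zero ((hh j).mero z hz1 hz2)).1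
            ((hh j).ord z hz1 hz2)
      have e2 : ∀ᶠ ζ in 𝓝[≠] z, P ζ ≠ 0 :=
        (meromorphicOrderAt_ne_top_iff_eventually_ne_zero (hP.mero z hz1 hz2)).1
          (hP.ord z hz1 hz2)
      filter_upwards [hpt z hz1 hz2, e1, e2, hi₀ z hz1 hz2] with ζ h3 h4 h5 h1'
      obtain ⟨j₁, -, hj₁⟩ := (Finset.univ : Finset ι).exists_max_image (fun j => ‖h j ζ‖)
        ⟨i₀, Finset.mem_univ _⟩
      have hH := h3 ‖h j₁ ζ‖ (fun j => hj₁ j (Finset.mem_univ _)) ⟨j₁, rfl⟩
      have hH1 : 1 ≤ ‖h j₁ ζ‖ := by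
        refine le_trans (le_of_eq ?_) (hj₁ i₀ (Finset.mem_univ _))
        rw [h1', norm_one]
      have hGe : G ζ = Real.log ‖h j₁ ζ‖ := by
        rw [hG]
        refine le_antisymm (Finset.sup'_le _ _ fun j hj => ?_) ?_
        · rw [← Real.posLog_eq_log (by rw [abs_norm]; exact hH1)]
          exact Real.posLog_le_posLog (norm_nonneg _) (hj₁ j hj)
        · rw [← Real.posLog_eq_log (by rw [abs_norm]; exact hH1)]
          exact Finset.le_sup' (fun j => Real.posLog ‖h j ζ‖) (Finset.mem_univ j₁)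
      have hH0 : 0 < ‖h j₁ ζ‖ := by linarith
      have hP0 : 0 < ‖P ζ‖ := norm_pos_iff.2 h5
      have hLHS : 0 < ‖P ζ‖ * ‖h j₁ ζ‖ ^ J.card := by positivity
      have hprod : 0 < ∏ j ∈ J, ‖h j ζ‖ := Finset.prod_pos fun j _ => norm_pos_iff.2 (h4 j)
      have hsum : 0 < (1 + ∑ i, ‖deriv (h i) ζ / h i ζ‖) ^ ρ := by
        have : 0 ≤ ∑ i, ‖deriv (h i) ζ / h i ζ‖ := Finset.sum_nonneg fun _ _ => norm_nonneg _
        positivity
      have hC : 0 < C := by
        by_contra hcon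
        have : C * ‖h j₁ ζ‖ ^ K * (∏ j ∈ J, ‖h j ζ‖) *
            (1 + ∑ i, ‖deriv (h i) ζ / h i ζ‖) ^ ρ ≤ 0 := by
          rw [mul_assoc, mul_assoc]
          exact mul_nonpos_of_nonpos_of_nonneg (not_lt.1 hcon) (by positivity)
        linarith
      have hlog := Real.log_le_log hLHS hH
      rw [Real.log_mul hP0.ne' (pow_ne_zero _ hH0.ne'), Real.log_pow,
        Real.log_mul (by positivity) hsum.ne', Real.log_mul (by positivity) hprod.ne',
        Real.log_mul hC.ne' (pow_ne_zero _ hH0.ne'), Real.log_pow, Real.log_pow,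
        Real.log_prod (fun j _ => norm_ne_zero_iff.2 (h4 j)), ← hq] at hlog
      have h6 := log_one_add_sum (fun i => ‖deriv (h i) ζ / h i ζ‖)
      have h7 : (ρ : ℝ) * Real.log (1 + ∑ i, ‖deriv (h i) ζ / h i ζ‖) ≤
          ρ * (Real.log (Fintype.card ι + 1) + Q h ζ) :=
        mul_le_mul_of_nonneg_left h6 (Nat.cast_nonneg _)
      have h8 := le_abs_self (Real.log C)
      rw [hGe, hL]
      linarith)
    have e0 : mean (fun z => ((q : ℝ) - K) * G z) x = ((q : ℝ) - K) * mean G x :=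
      circleAverage_const_mul _ _ _
    rw [← e0]
    refine h.trans (le_of_eq ?_)
    unfold mean
    rw [Real.circleAverage_fun_add hISP hILρ,
      Real.circleAverage_fun_sub hISum hIP, Real.circleAverage_fun_sum fun j _ => hIlog j,
      Real.circleAverage_fun_add (circleIntegrable_const L 0 _) hIρQ,
      Real.circleAverage_const]
    congr 2
    rw [circleAverage_const_mul]
    congr 1
    unfold Q
    exact Real.circleAverage_fun_sum (fun i _ => hIq i)
  have hlogG : ∀ j, mean (fun z => Real.log ‖h j z‖) x ≤ mean G x := fun j =>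
    Real.circleAverage_mono (hIlog j) hIG fun z _ => (le_max_right _ _).trans (hGj z j)
  have hposG : ∀ j, mean (fun z => Real.posLog ‖h j z‖) x ≤ mean G x := fun j =>
    Real.circleAverage_mono (MeroPunct.circleIntegrable_posLog (hh j) hxR₀) hIG
      fun z _ => hGj z j
  have hmG0 : 0 ≤ mean G x := Real.circleAverage_nonneg_of_nonneg fun z _ => hG0 z
  -- the counting functions
  obtain ⟨T, l, hT, hcnt⟩ := exists_T h12 hLoc hr
  have hμz : ∀ s, (∀ o : Option ι, (ordZ (o.elim P h) s : ℝ) = 0) → μ s = 0 := by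
    intro s hs
    obtain ⟨j, h⟩ := hμ' s
    rw [← h]
    exact_mod_cast hs (some j)
  have c1 : ∀ j, cnt (fun s => (ordZ (h j) s : ℝ)) R₁ (Real.exp (-x)) =
      ∑ s ∈ T, (ordZ (h j) s : ℝ) * l s := fun j => hcnt _ fun s hs => hs (some j)
  have c2 : cnt (fun s => (ordZ P s : ℝ)) R₁ (Real.exp (-x)) =
      ∑ s ∈ T, (ordZ P s : ℝ) * l s := hcnt _ fun s hs => hs none
  have c4 : ∀ j, cnt (fun s => max (-(ordZ (h j) s : ℝ)) 0) R₁ (Real.exp (-x)) =
      ∑ s ∈ T, max (-(ordZ (h j) s : ℝ)) 0 * l s := fun j => hcnt _ fun s hs => by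
    have h3 : (ordZ (h j) s : ℝ) = 0 := hs (some j)
    rw [h3]
    simp
  set cμ : ℝ := ∑ s ∈ T, -(μ s : ℝ) * l s with hcμ
  have hcμ0 : 0 ≤ cμ := by
    refine Finset.sum_nonneg fun s hs => mul_nonneg ?_ (hT s hs).2.2
    have := hμ0 s (hr.trans (hT s hs).1) ((hT s hs).2.1.trans h12)
    have h' : (μ s : ℝ) ≤ 0 := by exact_mod_cast this
    linarith
  have hnev : ∀ j, nevT (h j) R₁ x ≤ mean G x + cμ := by
    intro j
    unfold nevT
    rw [c4]
    refine add_le_add (hposG j) (Finset.sum_le_sum fun s hs => ?_)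
    refine mul_le_mul_of_nonneg_right (max_le ?_ ?_) (hT s hs).2.2
    · have h' : (μ s : ℝ) ≤ ordZ (h j) s := by exact_mod_cast hμj s j
      linarith
    · have h' : (μ s : ℝ) ≤ 0 := by
        exact_mod_cast hμ0 s (hr.trans (hT s hs).1) ((hT s hs).2.1.trans h12)
      linarith
  have hloc' : (m : ℝ) * ((∑ j ∈ J, cnt (fun s => (ordZ (h j) s : ℝ)) R₁ (Real.exp (-x))) -
      cnt (fun s => (ordZ P s : ℝ)) R₁ (Real.exp (-x)) + ((q : ℝ) - K) * cμ) ≤
      ∑ j ∈ J, (cnt (fun s => (ordZ (h j) s : ℝ)) R₁ (Real.exp (-x)) + cμ) := by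
    have e1 : (∑ j ∈ J, cnt (fun s => (ordZ (h j) s : ℝ)) R₁ (Real.exp (-x))) -
        cnt (fun s => (ordZ P s : ℝ)) R₁ (Real.exp (-x)) + ((q : ℝ) - K) * cμ =
        ∑ s ∈ T, ((∑ j ∈ J, (ordZ (h j) s : ℝ)) - ordZ P s - ((q : ℝ) - K) * μ s) * l s := by
      simp only [c1]
      rw [c2, hcμ, Finset.sum_comm, ← Finset.sum_sub_distrib, Finset.mul_sum,
        ← Finset.sum_add_distrib]
      refine Finset.sum_congr rfl fun s _ => ?_
      rw [← Finset.sum_mul]
      ring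
    have e2 : (∑ j ∈ J, (cnt (fun s => (ordZ (h j) s : ℝ)) R₁ (Real.exp (-x)) + cμ)) =
        ∑ s ∈ T, (∑ j ∈ J, ((ordZ (h j) s : ℝ) - μ s)) * l s := by
      simp only [c1]
      rw [hcμ]
      have e3 : ∀ j, (∑ s ∈ T, (ordZ (h j) s : ℝ) * l s) + ∑ s ∈ T, -(μ s : ℝ) * l s =
          ∑ s ∈ T, ((ordZ (h j) s : ℝ) - μ s) * l s := by
        intro j
        rw [← Finset.sum_add_distrib]
        refine Finset.sum_congr rfl fun s _ => ?_
        ring
      rw [Finset.sum_congr rfl fun j _ => e3 j, Finset.sum_comm]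
      refine Finset.sum_congr rfl fun s _ => ?_
      rw [← Finset.sum_mul]
    rw [e1, e2, Finset.mul_sum]
    refine Finset.sum_le_sum fun s hs => ?_
    obtain ⟨hs1, hs2, hs3⟩ := hT s hs
    have hs4 : 0 < ‖s‖ := hr.trans hs1
    have hs5 : ‖s‖ < R₀ := hs2.trans h12
    have h3 := hloc s hs4 hs5 (μ s) (hμj s) (hμ' s)
    have h4 : ∀ j ∈ J, (m : ℤ) * (ordZ (h j) s - μ s - max (ordZ (h j) s - μ s - 1) 0) ≤
        ordZ (h j) s - μ s := by
      intro j hj
      rcases hmult j hj s hs4 hs5 (μ s) (hμj s) (hμ' s) with h5 | h5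
      · rw [h5]
        simp
      · have h6 : (1 : ℤ) ≤ m := by exact_mod_cast hm
        rw [max_eq_left (by omega)]
        have h7 : ordZ (h j) s - μ s - (ordZ (h j) s - μ s - 1) = 1 := by ring
        rw [h7]
        omega
    have h5 := Finset.sum_le_sum h4
    rw [← Finset.mul_sum, Finset.sum_sub_distrib] at h5
    have h6 : ∑ j ∈ J, (ordZ (h j) s - μ s) = (∑ j ∈ J, ordZ (h j) s) - q * μ s := by
      rw [Finset.sum_sub_distrib, Finset.sum_const, hq, nsmul_eq_mul]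
    have h7 : (m : ℤ) * ((∑ j ∈ J, ordZ (h j) s) - ordZ P s - ((q : ℤ) - K) * μ s) ≤
        ∑ j ∈ J, (ordZ (h j) s - μ s) := by
      refine le_trans (mul_le_mul_of_nonneg_left ?_ (Int.natCast_nonneg m)) h5
      rw [h6]
      linarith
    have h8 : (m : ℝ) * ((∑ j ∈ J, (ordZ (h j) s : ℝ)) - ordZ P s - ((q : ℝ) - K) * μ s) ≤
        ∑ j ∈ J, ((ordZ (h j) s : ℝ) - μ s) := by exact_mod_cast h7
    rw [← mul_assoc]
    exact mul_le_mul_of_nonneg_right h8 hs3
  -- the conclusion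
  have hy : 1 ≤ 1 + |x| := by linarith [abs_nonneg x]
  obtain ⟨y, hyd⟩ : ∃ y, y = 1 + |x| := ⟨_, rfl⟩
  rw [← hyd] at hy ⊢
  have hy0 : 0 ≤ y := by linarith
  obtain ⟨a, ha⟩ : ∃ a, a = ∑ j, (|A j| + |B j|) := ⟨_, rfl⟩
  have hlin : ∀ j, |A j + B j * x| ≤ (|A j| + |B j|) * y := fun j => by
    rw [hyd]
    exact linear_bound _ _ _
  have hlinP : |A' + B' * x| ≤ (|A'| + |B'|) * y := by
    rw [hyd]
    exact linear_bound _ _ _
  have hJ : ∀ j, cnt (fun s => (ordZ (h j) s : ℝ)) R₁ (Real.exp (-x)) =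
      mean (fun z => Real.log ‖h j z‖) x - (A j + B j * x) := fun j => by
    have := hAB j x hx
    linarith
  have hJP := hAB' x hx
  have hsub : ∑ j ∈ J, (|A j| + |B j|) * y ≤ a * y := by
    rw [← Finset.sum_mul, ha]
    refine mul_le_mul_of_nonneg_right ?_ hy0
    exact Finset.sum_le_sum_of_subset_of_nonneg (Finset.subset_univ _)
      fun j _ _ => by positivity
  have hsum1 : |∑ j ∈ J, (A j + B j * x)| ≤ a * y :=
    (Finset.abs_sum_le_sum_abs _ _).trans ((Finset.sum_le_sum fun j _ => hlin j).trans hsub)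
  have hsum2 : (∑ j ∈ J, (cnt (fun s => (ordZ (h j) s : ℝ)) R₁ (Real.exp (-x)) + cμ)) ≤
      q * (mean G x + cμ) + a * y := by
    have h2 : ∀ j, cnt (fun s => (ordZ (h j) s : ℝ)) R₁ (Real.exp (-x)) + cμ ≤
        (mean G x + cμ) + (|A j| + |B j|) * y := by
      intro j
      rw [hJ j]
      have := (abs_le.1 (hlin j)).1
      linarith [hlogG j]
    refine (Finset.sum_le_sum fun j _ => h2 j).trans ?_
    rw [Finset.sum_add_distrib, Finset.sum_const, ← hq, nsmul_eq_mul]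
    linarith
  have hq'' : (ρ : ℝ) * (∑ j, mean (fun z => Real.posLog ‖deriv (h j) z / h j z‖) x) ≤
      δ / 2 * (mean G x + cμ) + ρ * (∑ i, |Cq i|) * y := by
    have hT0 : 0 ≤ mean G x + cμ := by linarith
    have h2 : ∀ j, mean (fun z => Real.posLog ‖deriv (h j) z / h j z‖) x ≤
        δ / 2 / ((ρ + 1) * Fintype.card ι) * (mean G x + cμ) + |Cq j| * y := by
      intro j
      refine (hq' j x hx (hxE' j)).trans (add_le_add ?_ ?_)
      · exact mul_le_mul_of_nonneg_left (hnev j) hε.le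
      · rw [← hyd]
        exact mul_le_mul_of_nonneg_right (le_abs_self _) hy0
    have h3 := mul_le_mul_of_nonneg_left (Finset.sum_le_sum fun j (_ : j ∈ Finset.univ) => h2 j)
      (Nat.cast_nonneg (α := ℝ) ρ)
    refine h3.trans ?_
    rw [Finset.sum_add_distrib, Finset.sum_const, Finset.card_univ, nsmul_eq_mul,
      ← Finset.sum_mul, mul_add]
    refine add_le_add ?_ (le_of_eq (by ring))
    have h4 : (ρ : ℝ) * (Fintype.card ι * (δ / 2 / ((ρ + 1) * Fintype.card ι) *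
        (mean G x + cμ))) = ρ / (ρ + 1) * (δ / 2 * (mean G x + cμ)) := by
      field_simp
    rw [h4]
    refine mul_le_of_le_one_left (by positivity) ?_
    rw [div_le_one (by positivity)]
    linarith
  -- final computation
  obtain ⟨t, ht⟩ : ∃ t, t = mean G x + cμ := ⟨_, rfl⟩
  have ht0 : 0 ≤ t := by rw [ht]; linarith
  have hSc : (∑ j ∈ J, cnt (fun s => (ordZ (h j) s : ℝ)) R₁ (Real.exp (-x))) =
      (∑ j ∈ J, mean (fun z => Real.log ‖h j z‖) x) - ∑ j ∈ J, (A j + B j * x) := by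
    rw [← Finset.sum_sub_distrib]
    exact Finset.sum_congr rfl fun j _ => hJ j
  obtain ⟨b, hb⟩ : ∃ b, b = (∑ j ∈ J, cnt (fun s => (ordZ (h j) s : ℝ)) R₁ (Real.exp (-x))) -
      cnt (fun s => (ordZ P s : ℝ)) R₁ (Real.exp (-x)) + ((q : ℝ) - K) * cμ := ⟨_, rfl⟩
  rw [← hb] at hloc'
  have hb2 : b ≤ q / m * t + 1 / m * a * y := by
    have h2 : (m : ℝ) * b ≤ q * t + a * y := by
      refine hloc'.trans ?_
      rw [ht]
      exact hsum2
    have h3 : (q : ℝ) * t + a * y = m * (q / m * t + 1 / m * a * y) := by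
      field_simp
    rw [h3] at h2
    exact le_of_mul_le_mul_left h2 hmR
  have hfin : ((q : ℝ) - K) * t ≤ a * y + (|A'| + |B'|) * y + L * y + (δ / 2 * t +
      ρ * (∑ i, |Cq i|) * y) + (q / m * t + 1 / m * a * y) := by
    have hLy : L ≤ L * y := by nlinarith
    rw [← ht] at hq''
    have e1 := (abs_le.1 hsum1).2
    have e2 := (abs_le.1 hlinP).1
    have e3 : ((q : ℝ) - K) * t = ((q : ℝ) - K) * mean G x + ((q : ℝ) - K) * cμ := by
      rw [ht]
      ring
    linarith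
  have hfin2 : δ / 2 * t ≤ C₀ * y := by
    have e4 : δ * t = ((q : ℝ) - K) * t - q / m * t := by
      rw [hδ]
      ring
    rw [hC₀, ← ha]
    linarith
  refine (hnev i).trans ?_
  rw [← ht]
  have : t = 2 / δ * (δ / 2 * t) := by field_simp
  rw [this, mul_assoc]
  exact mul_le_mul_of_nonneg_left hfin2 (by positivity)

end Pool.Agent.H5.DG
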