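import Mathlib

/-!
# Project DG, module D2Ord: orders of meromorphic functions and bounds for their norms
-/

open Filter Topology

noncomputable section

namespace Pool.Agent.H5.DG

/-- A bound for the norm gives a bound for the order. -/
theorem le_order_of_norm_le {P : ℂ → ℂ} {s : ℂ} (hP : MeromorphicAt P s) {k : ℤ} {C : ℝ}
    (h : ∀ᶠ ζ in 𝓝[≠] s, ‖P ζ‖ ≤ C * ‖ζ - s‖ ^ k) :
    ((k : ℤ) : WithTop ℤ) ≤ meromorphicOrderAt P s := by
  have h1 : MeromorphicAt (fun ζ => (ζ - s) ^ (-k)) s := by fun_prop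
  have h2 : MeromorphicAt ((fun ζ => (ζ - s) ^ (-k)) * P) s := h1.mul hP
  have h3 : meromorphicOrderAt (fun ζ : ℂ => (ζ - s) ^ (-k)) s = ((-k : ℤ) : WithTop ℤ) := by
    rw [meromorphicOrderAt_eq_int_iff h1]
    refine ⟨fun _ => 1, analyticAt_const, one_ne_zero, ?_⟩
    filter_upwards with z
    simp
  have h4 : 0 ≤ meromorphicOrderAt ((fun ζ => (ζ - s) ^ (-k)) * P) s := by
    by_contra hcon
    have h5 := (tendsto_cobounded_iff_meromorphicOrderAt_neg h2).2 (not_le.1 hcon)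
    have h6 : ∀ᶠ ζ in 𝓝[≠] s, ‖((fun ζ => (ζ - s) ^ (-k)) * P) ζ‖ ≤ C := by
      filter_upwards [h, self_mem_nhdsWithin] with ζ hζ hne
      have hne' : 0 < ‖ζ - s‖ := norm_pos_iff.2 (sub_ne_zero.2 hne)
      rw [Pi.mul_apply, norm_mul, norm_zpow]
      calc ‖ζ - s‖ ^ (-k) * ‖P ζ‖ ≤ ‖ζ - s‖ ^ (-k) * (C * ‖ζ - s‖ ^ k) :=
            mul_le_mul_of_nonneg_left hζ (by positivity)
        _ = C := by
            rw [zpow_neg]
            field_simp
    have h7 := tendsto_norm_cobounded_atTop.comp h5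
    obtain ⟨ζ, h8, h9⟩ := (h6.and (h7.eventually (eventually_gt_atTop C))).exists
    exact absurd h9 (not_lt.2 h8)
  rw [meromorphicOrderAt_mul h1 hP, h3] at h4
  induction hx : meromorphicOrderAt P s using WithTop.recTopCoe with
  | top => exact le_top
  | coe c =>
    rw [hx] at h4
    have h5 : (0 : ℤ) ≤ -k + c := by exact_mod_cast h4
    exact_mod_cast (by omega : k ≤ c)

/-- Local form of finitely many meromorphic functions. -/
theorem exists_local {ι : Type*} {g : ι → ℂ → ℂ} {s : ℂ} (hg : ∀ a, MeromorphicAt (g a) s)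
    {μ : ℤ} (hμ : ∀ a, ((μ : ℤ) : WithTop ℤ) ≤ meromorphicOrderAt (g a) s) :
    ∃ w : ι → ℂ → ℂ, (∀ a, AnalyticAt ℂ (w a) s) ∧
      (∀ a, ∀ᶠ ζ in 𝓝[≠] s, g a ζ = (ζ - s) ^ μ * w a ζ) ∧
      ∀ a, meromorphicOrderAt (g a) s = ((μ : ℤ) : WithTop ℤ) → w a s ≠ 0 := by
  have key : ∀ a, ∃ w : ℂ → ℂ, AnalyticAt ℂ w s ∧
      (∀ᶠ ζ in 𝓝[≠] s, g a ζ = (ζ - s) ^ μ * w ζ) ∧
      (meromorphicOrderAt (g a) s = ((μ : ℤ) : WithTop ℤ) → w s ≠ 0) := by
    intro a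
    by_cases h : meromorphicOrderAt (g a) s = ⊤
    · refine ⟨fun _ => 0, analyticAt_const, ?_, ?_⟩
      · rw [meromorphicOrderAt_eq_top_iff] at h
        filter_upwards [h] with z hz
        rw [hz, mul_zero]
      · intro h'
        rw [h] at h'
        exact absurd h' (by simp)
    · obtain ⟨k, hk⟩ := WithTop.ne_top_iff_exists.mp h
      have hk' := hk.symm
      rw [meromorphicOrderAt_eq_int_iff (hg a)] at hk'
      obtain ⟨u, hu, hus, hgu⟩ := hk'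
      have hle : μ ≤ k := by
        have := hμ a
        rw [← hk] at this
        exact_mod_cast this
      obtain ⟨m, hm⟩ := Int.le.dest hle
      refine ⟨fun z => (z - s) ^ m * u z, by fun_prop, ?_, ?_⟩
      · filter_upwards [hgu, self_mem_nhdsWithin] with z hz hne
        have hne' : z - s ≠ 0 := sub_ne_zero.2 hne
        rw [hz, smul_eq_mul, ← mul_assoc, ← hm, zpow_add₀ hne', zpow_natCast]
      · intro h'
        rw [← hk] at h'
        have h3 : k = μ := by exact_mod_cast h'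
        have h4 : m = 0 := by omega
        subst h4
        simpa using hus
  choose w h1 h2 h3 using key
  exact ⟨w, h1, h2, h3⟩

/-- Bounds for an analytic function and its derivative. -/
theorem exists_bound {k : ℂ → ℂ} {s : ℂ} (hk : AnalyticAt ℂ k s) {o : ℕ}
    (ho : ((o : ℤ) : WithTop ℤ) ≤ meromorphicOrderAt k s) :
    ∃ C : ℝ, ∀ᶠ ζ in 𝓝[≠] s, ‖k ζ‖ + ‖deriv k ζ‖ ≤ C * ‖ζ - s‖ ^ (o - 1) := by
  obtain ⟨w, hw, hkw, -⟩ := exists_local (ι := Unit) (g := fun _ => k) (μ := (o : ℤ))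
    (fun _ => hk.meromorphicAt) (fun _ => ho)
  have hkw' : k =ᶠ[𝓝 s] fun ζ => (ζ - s) ^ o * w () ζ := by
    have h1 : AnalyticAt ℂ (fun ζ => (ζ - s) ^ o * w () ζ) s := by
      have := hw ()
      fun_prop
    have h2 : k =ᶠ[𝓝[≠] s] fun ζ => (ζ - s) ^ o * w () ζ := by
      filter_upwards [hkw ()] with ζ hζ
      rw [hζ, zpow_natCast]
    exact (hk.frequently_eq_iff_eventually_eq h1).1 h2.frequently
  have hd : deriv k =ᶠ[𝓝 s] fun ζ => o * (ζ - s) ^ (o - 1) * w () ζ +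
      (ζ - s) ^ o * deriv (w ()) ζ := by
    refine hkw'.deriv.trans ?_
    filter_upwards [(hw ()).eventually_analyticAt] with ζ hζ
    have h1 : HasDerivAt (fun ζ : ℂ => (ζ - s) ^ o) (o * (ζ - s) ^ (o - 1)) ζ := by
      have h0 : HasDerivAt (fun ζ : ℂ => ζ - s) 1 ζ := (hasDerivAt_id ζ).sub_const s
      have h2 := h0.fun_pow o
      rwa [mul_one] at h2
    exact (h1.mul hζ.differentiableAt.hasDerivAt).deriv
  obtain ⟨A, hA⟩ : ∃ A, A = ‖w () s‖ + 1 := ⟨_, rfl⟩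
  obtain ⟨B, hB⟩ : ∃ B, B = ‖deriv (w ()) s‖ + 1 := ⟨_, rfl⟩
  have hwA : ∀ᶠ ζ in 𝓝 s, ‖w () ζ‖ < A := by
    have := (hw ()).continuousAt.norm
    exact this.eventually (gt_mem_nhds (by rw [hA]; linarith))
  have hwB : ∀ᶠ ζ in 𝓝 s, ‖deriv (w ()) ζ‖ < B := by
    have := (hw ()).deriv.continuousAt.norm
    exact this.eventually (gt_mem_nhds (by rw [hB]; linarith))
  have hball : ∀ᶠ ζ in 𝓝 s, ‖ζ - s‖ < 1 := by
    filter_upwards [Metric.ball_mem_nhds s one_pos] with ζ hζ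
    rwa [mem_ball_iff_norm] at hζ
  refine ⟨A + (o * A + B), ?_⟩
  have hall := (hkw'.and (hd.and (hwA.and (hwB.and hball)))).filter_mono
    (nhdsWithin_le_nhds (s := {s}ᶜ))
  filter_upwards [hall] with ζ hζ
  obtain ⟨h1, h2, h3, h4, h5⟩ := hζ
  have h6 : ‖ζ - s‖ ^ o ≤ ‖ζ - s‖ ^ (o - 1) :=
    pow_le_pow_of_le_one (norm_nonneg _) h5.le (Nat.sub_le _ _)
  have h7 : ‖k ζ‖ ≤ A * ‖ζ - s‖ ^ (o - 1) := by
    rw [h1, norm_mul, norm_pow, mul_comm]
    exact mul_le_mul h3.le h6 (by positivity) ((norm_nonneg _).trans h3.le)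
  have h8 : ‖deriv k ζ‖ ≤ (o * A + B) * ‖ζ - s‖ ^ (o - 1) := by
    rw [h2]
    refine (norm_add_le _ _).trans ?_
    rw [norm_mul, norm_mul, norm_mul, norm_pow, norm_pow, Complex.norm_natCast, add_mul]
    refine add_le_add ?_ ?_
    · calc (o : ℝ) * ‖ζ - s‖ ^ (o - 1) * ‖w () ζ‖ ≤ o * ‖ζ - s‖ ^ (o - 1) * A :=
            mul_le_mul_of_nonneg_left h3.le (by positivity)
        _ = o * A * ‖ζ - s‖ ^ (o - 1) := by ring
    · calc ‖ζ - s‖ ^ o * ‖deriv (w ()) ζ‖ ≤ ‖ζ - s‖ ^ (o - 1) * B :=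
            mul_le_mul h6 h4.le (norm_nonneg _) (by positivity)
        _ = B * ‖ζ - s‖ ^ (o - 1) := by ring
  linarith

end Pool.Agent.H5.DG
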