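import Pool.Agent.H5.DG.D2Pt
import Pool.Agent.H5.DG.D2Ord

/-!
# Project DG, module D2Loc: the local inequality

`Palong_meromorphic`: `evVW` is `MvPolynomial.aeval` of a fixed polynomial; write it as a finite sum
of products (or use an induction on the polynomial `Phi φ e`), derivatives of meromorphic functions
are meromorphic.

Proof of `loc_est`: `exists_local` (D2Ord) gives `w a` analytic at `s` with
`g a ζ = (ζ - s) ^ μ * w a ζ` near `s` (punctured), `w a s ≠ 0` for some `a`.  For `ζ ≠ s` near `s`,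
`deriv (g a) ζ = (ζ - s) ^ μ * deriv (w a) ζ + μ * (ζ - s) ^ (μ - 1) * w a ζ` (the identity for
`g a` holds in a neighbourhood of `ζ`), so by `evVW_Phi_scale` (`a = b = (ζ - s) ^ μ`,
`c = μ * (ζ - s) ^ (μ - 1)`):
`Palong φ e g ζ = ((ζ - s) ^ μ) ^ κ * ((ζ - s) ^ μ) ^ (κ - e) * evVW (Phi φ e) (w ζ) (w' ζ)`,
`e = T.card ≤ κ` by `card_constants_le` with `K = ℂ` at one point `ζ` (so `κ + (κ - e) = 2 * κ - e`).
`cluster_loc` at `(w ζ, w' ζ)` (`Del` at `w ζ` is not zero: `Del κ N` need not be known to be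
homogeneous here: use the hypothesis `hom`; the relations `dot τ (w ζ) = 0`, `dot τ (w' ζ) = 0` by
differentiation; `‖w ζ‖`, `‖w' ζ‖` are bounded near `s` and `‖w ζ‖` is bounded from below) gives
`‖evVW ..‖ ≤ K * ∏ j ∈ J, (‖dot (p j) (w ζ)‖ + ‖dot (p j) (w' ζ)‖)`, and
`dot (lam j) (w ζ) = (ζ - s) ^ (-μ) * dot (lam j) (g ζ)` is analytic at `s` of order `≥ o j`, so
`exists_bound` bounds the factor by `C * ‖ζ - s‖ ^ (o j - 1)`.  Conclude with
`le_order_of_norm_le`.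
-/

open MvPolynomial Filter Topology

noncomputable section

namespace Pool.Agent.H5.DG

/-- The form `P (v, w)` along a map. -/
def Palong {n : ℕ} (φ : PVW n) (e : ℕ) (g : Fin (n + 2) → ℂ → ℂ) (z : ℂ) : ℂ :=
  evVW (Phi φ e) (fun a => g a z) (fun a => deriv (g a) z)

private theorem aeval_mero {σ : Type*} {s : ℂ} (P : MvPolynomial σ ℂ) (F : σ → ℂ → ℂ)
    (hF : ∀ i, MeromorphicAt (F i) s) :
    MeromorphicAt (fun z => MvPolynomial.aeval (fun i => F i z) P) s := by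
  induction P using MvPolynomial.induction_on with
  | C a =>
    simp only [MvPolynomial.aeval_C]
    exact MeromorphicAt.const _ _
  | add p q hp hq =>
    simp only [map_add]
    exact hp.add hq
  | mul_X p i hp =>
    simp only [map_mul, MvPolynomial.aeval_X]
    exact hp.mul (hF i)

private theorem eval_hom {n : ℕ} {F : PV n} {k : ℕ} (hF : F.IsHomogeneous k) (c : ℂ)
    (v : Fin (n + 2) → ℂ) : MvPolynomial.eval (fun a => c * v a) F =
      c ^ k * MvPolynomial.eval v F := by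
  rw [MvPolynomial.eval_eq, MvPolynomial.eval_eq, Finset.mul_sum]
  refine Finset.sum_congr rfl fun d hd => ?_
  have h1 : ∑ i ∈ d.support, d i = k := by
    have h2 := hF (MvPolynomial.mem_support_iff.1 hd)
    rw [← h2, Finsupp.weight_apply, Finsupp.sum]
    exact Finset.sum_congr rfl fun i _ => by simp
  simp_rw [mul_pow]
  rw [Finset.prod_mul_distrib, Finset.prod_pow_eq_pow_sum, h1]
  ring

private theorem dot_smul {n : ℕ} (t v : Fin n → ℂ) (c : ℂ) :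
    dot t (fun a => c * v a) = c * dot t v := by
  unfold dot
  rw [Finset.mul_sum]
  exact Finset.sum_congr rfl fun a _ => by ring

private theorem dot_smul' {n : ℕ} (t v : Fin n → ℂ) (c : ℂ) :
    dot (fun a => c * t a) v = c * dot t v := by
  unfold dot
  rw [Finset.mul_sum]
  exact Finset.sum_congr rfl fun a _ => by ring

private theorem dot_analytic {n : ℕ} (t : Fin n → ℂ) {w : Fin n → ℂ → ℂ} {z : ℂ}
    (hw : ∀ a, AnalyticAt ℂ (w a) z) : AnalyticAt ℂ (fun ζ => dot t fun a => w a ζ) z := by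
  unfold dot
  exact Finset.univ.analyticAt_fun_sum fun a _ => analyticAt_const.mul (hw a)

private theorem dot_deriv {n : ℕ} (t : Fin n → ℂ) {w : Fin n → ℂ → ℂ} {z : ℂ}
    (hw : ∀ a, AnalyticAt ℂ (w a) z) :
    deriv (fun ζ => dot t fun a => w a ζ) z = dot t fun a => deriv (w a) z := by
  unfold dot
  exact (HasDerivAt.fun_sum fun a _ =>
    ((hw a).differentiableAt.hasDerivAt.const_mul (t a))).deriv

theorem Palong_meromorphic {n : ℕ} {φ : PVW n} {e : ℕ} {g : Fin (n + 2) → ℂ → ℂ} {s : ℂ}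
    (hg : ∀ a, MeromorphicAt (g a) s) : MeromorphicAt (Palong φ e g) s := by
  unfold Palong evVW
  exact aeval_mero (Phi φ e) (Sum.elim (fun a => g a) fun a => deriv (g a)) (by
    intro i
    cases i with
    | inl a => exact hg a
    | inr a => exact (hg a).deriv) |>.congr (by
      refine Filter.Eventually.of_forall fun z => ?_
      dsimp only
      congr 2
      funext i
      cases i <;> rfl)

/-- The local inequality. -/
theorem loc_est {n κ : ℕ} {N : Polynomial (PV n)} {φ : PVW n} (hd : DGData κ N φ)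
    (hom : ∃ k, (Del κ N).IsHomogeneous k) {ι : Type}
    {lam : ι → Fin (n + 2) → ℂ} {c : ι → ℂ} {J : Finset ι} (hJ : Marked N lam c J)
    (T : Finset (Fin (n + 2) → ℂ)) (hT : ∀ τ ∈ T, τ ∈ Gam N ℂ)
    (hJT : ∀ j ∈ J, (fun a => c j * lam j a) ∉ T) {g : Fin (n + 2) → ℂ → ℂ} {s : ℂ}
    (hg : ∀ a, MeromorphicAt (g a) s)
    (hΔ : ∀ᶠ ζ in 𝓝[≠] s, MvPolynomial.eval (fun a => g a ζ) (Del κ N) ≠ 0)
    (hTg : ∀ τ ∈ T, ∀ᶠ ζ in 𝓝[≠] s, dot τ (fun a => g a ζ) = 0) {μ : ℤ}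
    (hμ : ∀ a, ((μ : ℤ) : WithTop ℤ) ≤ meromorphicOrderAt (g a) s)
    (hμ' : ∃ a, meromorphicOrderAt (g a) s = ((μ : ℤ) : WithTop ℤ)) (o : ι → ℕ)
    (ho : ∀ j ∈ J, ((μ + o j : ℤ) : WithTop ℤ) ≤
      meromorphicOrderAt (fun ζ => dot (lam j) fun a => g a ζ) s) :
    (((2 * κ - T.card : ℕ) * μ + ∑ j ∈ J, ((o j - 1 : ℕ) : ℤ) : ℤ) : WithTop ℤ) ≤
      meromorphicOrderAt (Palong φ T.card g) s := by
  classical
  obtain ⟨k, hk⟩ := hom
  obtain ⟨w, hw, hgw, hws⟩ := exists_local hg hμ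
  obtain ⟨a₀, ha₀⟩ := hμ'
  have hw0 : w a₀ s ≠ 0 := hws a₀ ha₀
  have hκ1 := hd.pos
  -- punctured neighbourhoods
  have hopen : IsOpen ({s}ᶜ : Set ℂ) := isOpen_compl_singleton
  have hne : ∀ᶠ ζ in 𝓝[≠] s, ζ ≠ s := self_mem_nhdsWithin
  have hev : ∀ {p : ℂ → Prop}, (∀ᶠ ζ in 𝓝[≠] s, p ζ) → ∀ᶠ ζ in 𝓝[≠] s, ∀ᶠ y in 𝓝 ζ, p y := by
    intro p hp
    have h1 := eventually_eventually_nhdsWithin.2 hp
    filter_upwards [h1, hne] with ζ h2 h3
    rwa [hopen.nhdsWithin_eq h3] at h2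
  have han : ∀ᶠ ζ in 𝓝[≠] s, ∀ a, AnalyticAt ℂ (w a) ζ :=
    Filter.eventually_all.2 fun a => (hw a).eventually_analyticAt.filter_mono nhdsWithin_le_nhds
  have hgw' : ∀ᶠ ζ in 𝓝[≠] s, ∀ a, g a ζ = (ζ - s) ^ μ * w a ζ := Filter.eventually_all.2 hgw
  have hder : ∀ᶠ ζ in 𝓝[≠] s, ∀ a, deriv (g a) ζ =
      (ζ - s) ^ μ * deriv (w a) ζ + (μ * (ζ - s) ^ (μ - 1)) * w a ζ := by
    filter_upwards [hev hgw', han, hne] with ζ h1 h2 h3 a
    have h4 : g a =ᶠ[𝓝 ζ] fun y => (y - s) ^ μ * w a y := h1.mono fun y hy => hy a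
    rw [h4.deriv_eq]
    have h5 : HasDerivAt (fun y : ℂ => (y - s) ^ μ) (μ * (ζ - s) ^ (μ - 1)) ζ :=
      HasDerivAt.comp_sub_const ζ s (hasDerivAt_zpow μ (ζ - s) (Or.inl (sub_ne_zero.2 h3)))
    refine (h5.fun_mul (h2 a).differentiableAt.hasDerivAt).deriv.trans ?_
    ring
  -- the number of constants
  have hcard : T.card ≤ κ := by
    have hTg' : ∀ᶠ ζ in 𝓝[≠] s, ∀ τ ∈ T, dot τ (fun a => g a ζ) = 0 :=
      (Filter.eventually_all_finset T).2 hTg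
    obtain ⟨ζ, h1, h2⟩ := (hΔ.and hTg').exists
    refine card_constants_le hd.norm (K := ℂ) (fun a => g a ζ) ?_ T fun τ hτ => ⟨hT τ hτ, ?_⟩
    · rw [MvPolynomial.aeval_eq_eval]
      exact h1
    · exact h2 τ hτ
  -- the form along the map
  have hP : ∀ᶠ ζ in 𝓝[≠] s, Palong φ T.card g ζ = ((ζ - s) ^ μ) ^ κ *
      ((ζ - s) ^ μ) ^ (κ - T.card) *
        evVW (Phi φ T.card) (fun a => w a ζ) (fun a => deriv (w a) ζ) := by
    filter_upwards [hgw', hder] with ζ h1 h2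
    unfold Palong
    rw [← evVW_Phi_scale hd.norm hd.chow T.card (fun a => w a ζ) (fun a => deriv (w a) ζ)
      ((ζ - s) ^ μ) ((ζ - s) ^ μ) (μ * (ζ - s) ^ (μ - 1))]
    congr 1
    · funext a
      exact h1 a
    · funext a
      exact h2 a
  -- bounds
  obtain ⟨B₁, hB₁⟩ : ∃ B₁ : ℝ, B₁ = ∑ a, (‖w a s‖ + 1) := ⟨_, rfl⟩
  obtain ⟨B₂, hB₂⟩ : ∃ B₂ : ℝ, B₂ = ∑ a, (‖deriv (w a) s‖ + 1) := ⟨_, rfl⟩
  obtain ⟨B₃, hB₃⟩ : ∃ B₃ : ℝ, B₃ = 2 / ‖w a₀ s‖ := ⟨_, rfl⟩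
  have hw0' : 0 < ‖w a₀ s‖ := norm_pos_iff.2 hw0
  have hB₁0 : 0 ≤ B₁ := by
    rw [hB₁]
    positivity
  have hB₂0 : 0 ≤ B₂ := by
    rw [hB₂]
    positivity
  have hB₃0 : 0 < B₃ := by
    rw [hB₃]
    positivity
  have hv1 : ∀ᶠ ζ in 𝓝[≠] s, ‖(fun a => w a ζ)‖ ≤ B₁ := by
    have h1 : ∀ᶠ ζ in 𝓝 s, ∀ a, ‖w a ζ‖ < ‖w a s‖ + 1 := Filter.eventually_all.2 fun a =>
      (hw a).continuousAt.norm.eventually (gt_mem_nhds (by linarith))
    filter_upwards [h1.filter_mono nhdsWithin_le_nhds] with ζ h2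
    rw [pi_norm_le_iff_of_nonneg hB₁0]
    intro a
    refine (h2 a).le.trans ?_
    rw [hB₁]
    exact Finset.single_le_sum (f := fun a => ‖w a s‖ + 1) (fun i _ => by positivity)
      (Finset.mem_univ a)
  have hv2 : ∀ᶠ ζ in 𝓝[≠] s, ‖(fun a => deriv (w a) ζ)‖ ≤ B₂ := by
    have h1 : ∀ᶠ ζ in 𝓝 s, ∀ a, ‖deriv (w a) ζ‖ < ‖deriv (w a) s‖ + 1 :=
      Filter.eventually_all.2 fun a =>
        (hw a).deriv.continuousAt.norm.eventually (gt_mem_nhds (by linarith))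
    filter_upwards [h1.filter_mono nhdsWithin_le_nhds] with ζ h2
    rw [pi_norm_le_iff_of_nonneg hB₂0]
    intro a
    refine (h2 a).le.trans ?_
    rw [hB₂]
    exact Finset.single_le_sum (f := fun a => ‖deriv (w a) s‖ + 1) (fun i _ => by positivity)
      (Finset.mem_univ a)
  have hv3 : ∀ᶠ ζ in 𝓝[≠] s, 1 ≤ B₃ * ‖(fun a => w a ζ)‖ := by
    have h1 : ∀ᶠ ζ in 𝓝 s, ‖w a₀ s‖ / 2 < ‖w a₀ ζ‖ :=
      (hw a₀).continuousAt.norm.eventually (lt_mem_nhds (by linarith))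
    filter_upwards [h1.filter_mono nhdsWithin_le_nhds] with ζ h2
    have h3 : ‖w a₀ ζ‖ ≤ ‖(fun a => w a ζ)‖ := norm_le_pi_norm (fun a => w a ζ) a₀
    have h4 : B₃ * (‖w a₀ s‖ / 2) = 1 := by
      rw [hB₃]
      field_simp
    rw [← h4]
    exact mul_le_mul_of_nonneg_left (h2.le.trans h3) hB₃0.le
  -- the estimate
  obtain ⟨K, hK0, hK⟩ := cluster_loc hd.pos hd.norm hd.nondeg hd.chow J
    (fun j a => c j * lam j a) hJ.mem hJ.inj T hT hJT (B₁ + B₂ + B₃)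
  have hbd : ∀ j, ∃ C : ℝ, j ∈ J → ∀ᶠ ζ in 𝓝[≠] s,
      ‖dot (fun a => c j * lam j a) (fun a => w a ζ)‖ +
        ‖dot (fun a => c j * lam j a) (fun a => deriv (w a) ζ)‖ ≤ C * ‖ζ - s‖ ^ (o j - 1) := by
    intro j
    by_cases hj : j ∈ J
    · have hk1 : AnalyticAt ℂ (fun ζ => dot (lam j) fun a => w a ζ) s := dot_analytic _ hw
      have hord : ((o j : ℤ) : WithTop ℤ) ≤
          meromorphicOrderAt (fun ζ => dot (lam j) fun a => w a ζ) s := by
        have h1 : (fun ζ => dot (lam j) fun a => w a ζ) =ᶠ[𝓝[≠] s]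
            (fun ζ : ℂ => (ζ - s) ^ (-μ)) * fun ζ => dot (lam j) fun a => g a ζ := by
          filter_upwards [hgw', hne] with ζ h2 h3
          rw [Pi.mul_apply]
          have h4 : (fun a => g a ζ) = fun a => (ζ - s) ^ μ * w a ζ := funext h2
          rw [h4, dot_smul, ← mul_assoc, ← zpow_add₀ (sub_ne_zero.2 h3), neg_add_cancel,
            zpow_zero, one_mul]
        have h5 : MeromorphicAt (fun ζ : ℂ => (ζ - s) ^ (-μ)) s := by fun_prop
        have h6 : MeromorphicAt (fun ζ => dot (lam j) fun a => g a ζ) s := by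
          unfold dot
          exact MeromorphicAt.fun_sum fun a _ => (MeromorphicAt.const _ _).mul (hg a)
        have h7 : meromorphicOrderAt (fun ζ : ℂ => (ζ - s) ^ (-μ)) s =
            ((-μ : ℤ) : WithTop ℤ) := by
          rw [meromorphicOrderAt_eq_int_iff h5]
          refine ⟨fun _ => 1, analyticAt_const, one_ne_zero, ?_⟩
          filter_upwards with z
          simp
        rw [meromorphicOrderAt_congr h1, meromorphicOrderAt_mul h5 h6, h7]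
        have h8 := add_le_add_right (ho j hj) ((-μ : ℤ) : WithTop ℤ)
        refine le_trans (le_of_eq ?_) h8
        rw [← WithTop.coe_add]
        congr 1
        ring
      obtain ⟨C, hC⟩ := exists_bound hk1 hord
      refine ⟨‖c j‖ * C, fun _ => ?_⟩
      filter_upwards [hC, han] with ζ h1 h2
      rw [dot_deriv _ h2] at h1
      rw [dot_smul', dot_smul', norm_mul, norm_mul, ← mul_add, mul_assoc]
      exact mul_le_mul_of_nonneg_left h1 (norm_nonneg _)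
    · exact ⟨0, fun h => absurd h hj⟩
  choose C hC using hbd
  have hC' : ∀ᶠ ζ in 𝓝[≠] s, ∀ j ∈ J, ‖dot (fun a => c j * lam j a) (fun a => w a ζ)‖ +
        ‖dot (fun a => c j * lam j a) (fun a => deriv (w a) ζ)‖ ≤ C j * ‖ζ - s‖ ^ (o j - 1) :=
    (Filter.eventually_all_finset J).2 fun j hj => hC j hj
  have hTw : ∀ᶠ ζ in 𝓝[≠] s, ∀ τ ∈ T, dot τ (fun a => w a ζ) = 0 := by
    refine (Filter.eventually_all_finset T).2 fun τ hτ => ?_
    filter_upwards [hTg τ hτ, hgw', hne] with ζ h1 h2 h3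
    have h4 : (fun a => g a ζ) = fun a => (ζ - s) ^ μ * w a ζ := funext h2
    rw [h4, dot_smul] at h1
    exact (mul_eq_zero.1 h1).resolve_left (zpow_ne_zero _ (sub_ne_zero.2 h3))
  have hTw' : ∀ᶠ ζ in 𝓝[≠] s, ∀ τ ∈ T, dot τ (fun a => deriv (w a) ζ) = 0 := by
    filter_upwards [hev hTw, han] with ζ h1 h2 τ hτ
    rw [← dot_deriv _ h2]
    have h3 : (fun y => dot τ fun a => w a y) =ᶠ[𝓝 ζ] fun _ => 0 := h1.mono fun y hy => hy τ hτ
    rw [h3.deriv_eq]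
    exact deriv_const _ _
  refine le_order_of_norm_le (Palong_meromorphic hg) (C := K * ∏ j ∈ J, C j) ?_
  filter_upwards [hP, hΔ, hgw', hne, hv1, hv2, hv3, hC', hTw, hTw'] with
    ζ e1 e2 e3 e4 e5 e6 e7 e8 e9 e10
  have hζ : 0 < ‖ζ - s‖ := norm_pos_iff.2 (sub_ne_zero.2 e4)
  have hΔw : MvPolynomial.eval (fun a => w a ζ) (Del κ N) ≠ 0 := by
    intro hcon
    apply e2
    have h4 : (fun a => g a ζ) = fun a => (ζ - s) ^ μ * w a ζ := funext e3
    rw [h4, eval_hom hk, hcon, mul_zero]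
  have h1 := hK (fun a => w a ζ) (fun a => deriv (w a) ζ) hΔw e9 e10 (by linarith)
    (e7.trans (mul_le_mul_of_nonneg_right (by linarith) (norm_nonneg _))) (by linarith)
  have h2 : ∏ j ∈ J, (‖dot (fun a => c j * lam j a) (fun a => w a ζ)‖ +
        ‖dot (fun a => c j * lam j a) (fun a => deriv (w a) ζ)‖) ≤
      (∏ j ∈ J, C j) * ‖ζ - s‖ ^ (∑ j ∈ J, (o j - 1)) := by
    rw [← Finset.prod_pow_eq_pow_sum, ← Finset.prod_mul_distrib]
    exact Finset.prod_le_prod (fun j _ => by positivity) e8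
  rw [e1, norm_mul, norm_mul, norm_pow, norm_pow, norm_zpow]
  have h3 : ‖ζ - s‖ ^ (((2 * κ - T.card : ℕ) * μ + ∑ j ∈ J, ((o j - 1 : ℕ) : ℤ) : ℤ)) =
      (‖ζ - s‖ ^ μ) ^ κ * (‖ζ - s‖ ^ μ) ^ (κ - T.card) *
        ‖ζ - s‖ ^ (∑ j ∈ J, (o j - 1)) := by
    rw [zpow_add₀ hζ.ne', ← pow_add]
    congr 1
    · have h4 : κ + (κ - T.card) = 2 * κ - T.card := by omega
      rw [h4, mul_comm, zpow_mul, zpow_natCast]
    · rw [← zpow_natCast]
      congr 1
      push_cast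
      rfl
  rw [h3]
  have h5 : 0 ≤ (‖ζ - s‖ ^ μ) ^ κ * (‖ζ - s‖ ^ μ) ^ (κ - T.card) := by positivity
  calc (‖ζ - s‖ ^ μ) ^ κ * (‖ζ - s‖ ^ μ) ^ (κ - T.card) *
        ‖evVW (Phi φ T.card) (fun a => w a ζ) fun a => deriv (w a) ζ‖
      ≤ (‖ζ - s‖ ^ μ) ^ κ * (‖ζ - s‖ ^ μ) ^ (κ - T.card) *
        (K * ((∏ j ∈ J, C j) * ‖ζ - s‖ ^ (∑ j ∈ J, (o j - 1)))) :=
        mul_le_mul_of_nonneg_left (h1.trans (mul_le_mul_of_nonneg_left h2 hK0.le)) h5
    _ = _ := by ring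

end Pool.Agent.H5.DG
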