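import Pool.Agent.H5.DG.D1
import Pool.Agent.H5.DG.D2Loc

/-!
# Project DG, module D2: maps of the punctured disc

`exists_constants`: take a point `z₀` and a small disc `U` around it on which all `g a` are analytic
(generic points) and `Del (g z₀) ≠ 0`.  `T` = the (finite, by `finite_constants` with `K = ℂ`,
`v = g z₀`) set of the `τ ∈ Gam N ℂ` with `lin τ g = 0` near every point; `T.card ≤ κ` by
`card_constants_le` at `v = g z₀`.  By the identity theorem for meromorphic functions on the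
punctured disc (`MeromorphicOn.meromorphicOrderAt_ne_top_of_isPreconnected`,
`Pool.Agent.H92.GGL.isPreconnected_punctured`) `lin τ g = 0` on `U` implies it near every point; so
`phi_ne_zero_analytic` applies and gives a point where `Palong` is analytic and not zero, and the
identity theorem shows that its order is finite everywhere.

`analytic_core`: `smt_punct` (D1) with `h i = lin (lam i) g`, `P = Palong φ T.card g`,
`K = 2 * κ - T.card`, `ρ = κ - T.card`, `m = 2`.  For `j ∈ J` the point `p j` is not in `T` (its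
linear form does not vanish identically along `g`).  Pointwise inequality: `pt_est` at generic `ζ`
with `v = g ζ`, `w = g' ζ`; local inequality: `loc_est` with `o j = ordZ (h j) s - μ` (natural
number); here `μ ≤ ord (g a)` since `g a = ∑ b a i * h i`, with equality for some `a`.
-/

open MvPolynomial Filter Topology
open Pool.Agent.H62.FC (MeroPunct PunctMero)
open Pool.Agent.H92.GGL (ordZ)

noncomputable section

namespace Pool.Agent.H5.DG

/-- The value of the linear form `l` along the map `g`. -/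
def lin {m : ℕ} (l : Fin m → ℂ) (g : Fin m → ℂ → ℂ) (z : ℂ) : ℂ := dot l fun a => g a z

section

variable {n κ : ℕ} {N : Polynomial (PV n)} {φ : PVW n}

private theorem lin_mero {g : Fin (n + 2) → ℂ → ℂ} {z : ℂ} (hg : ∀ a, MeromorphicAt (g a) z)
    (τ : Fin (n + 2) → ℂ) : MeromorphicAt (lin τ g) z := by
  have h : lin τ g = ∑ a, fun ζ => τ a * g a ζ := by
    funext ζ
    rw [Finset.sum_apply]
    rfl
  rw [h]
  exact MeromorphicAt.sum fun a _ => (MeromorphicAt.const _ _).mul (hg a)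

private theorem lin_analytic {g : Fin (n + 2) → ℂ → ℂ} {z : ℂ} (hg : ∀ a, AnalyticAt ℂ (g a) z)
    (τ : Fin (n + 2) → ℂ) : AnalyticAt ℂ (lin τ g) z := by
  have h : lin τ g = fun ζ => ∑ a, τ a * g a ζ := rfl
  rw [h]
  exact Finset.analyticAt_fun_sum _ fun a _ => analyticAt_const.mul (hg a)

private theorem lin_deriv {g : Fin (n + 2) → ℂ → ℂ} {z : ℂ} (hg : ∀ a, AnalyticAt ℂ (g a) z)
    (τ : Fin (n + 2) → ℂ) : deriv (lin τ g) z = dot τ fun a => deriv (g a) z := by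
  have h : lin τ g = fun ζ => ∑ a, τ a * g a ζ := rfl
  rw [h, deriv_fun_sum (fun a _ => ((hg a).differentiableAt.const_mul _))]
  refine Finset.sum_congr rfl fun a _ => ?_
  rw [deriv_const_mul _ (hg a).differentiableAt]

private theorem Palong_analytic {φ : PVW n} {e : ℕ} {g : Fin (n + 2) → ℂ → ℂ} {z : ℂ}
    (hg : ∀ a, AnalyticAt ℂ (g a) z) : AnalyticAt ℂ (Palong φ e g) z := by
  have h : Palong φ e g = fun ζ => MvPolynomial.aeval
      (fun i => Sum.elim (fun a => g a ζ) (fun a => deriv (g a) ζ) i) (Phi φ e) := rfl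
  rw [h]
  refine AnalyticAt.aeval_mvPolynomial (fun i => ?_) _
  cases i with
  | inl a => exact hg a
  | inr a => exact (hg a).deriv

private theorem zero_of_punctured {u : ℂ → ℂ} {z : ℂ} (hu : AnalyticAt ℂ u z)
    (h : ∀ᶠ ζ in 𝓝[≠] z, u ζ = 0) : u z = 0 := by
  have h1 : Tendsto u (𝓝[≠] z) (𝓝 (u z)) := hu.continuousAt.tendsto.mono_left nhdsWithin_le_nhds
  have h2 : Tendsto u (𝓝[≠] z) (𝓝 0) := tendsto_const_nhds.congr' (h.mono fun _ h => h.symm)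
  exact tendsto_nhds_unique h1 h2

/-- The identity theorem. -/
private theorem identity {R₀ : ℝ} {u : ℂ → ℂ}
    (hu : ∀ z, 0 < ‖z‖ → ‖z‖ < R₀ → MeromorphicAt u z) {z₀ : ℂ} (h0 : 0 < ‖z₀‖)
    (h1 : ‖z₀‖ < R₀) (h : meromorphicOrderAt u z₀ = ⊤) :
    ∀ z, 0 < ‖z‖ → ‖z‖ < R₀ → ∀ᶠ ζ in 𝓝[≠] z, u ζ = 0 := by
  intro z hz1 hz2
  rw [← meromorphicOrderAt_eq_top_iff]
  by_contra hcon
  have hm : MeromorphicOn u {z : ℂ | 0 < ‖z‖ ∧ ‖z‖ < R₀} := fun z hz => hu z hz.1 hz.2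
  exact (hm.meromorphicOrderAt_ne_top_of_isPreconnected
    (Pool.Agent.H92.GGL.isPreconnected_punctured R₀) (x := z) (y := z₀) ⟨hz1, hz2⟩ ⟨h0, h1⟩ hcon) h

/-- The set of the constant points. -/
theorem exists_constants (hd : DGData κ N φ) {R₀ : ℝ} (hR₀ : 0 < R₀) {g : Fin (n + 2) → ℂ → ℂ}
    (hg : ∀ a z, 0 < ‖z‖ → ‖z‖ < R₀ → MeromorphicAt (g a) z)
    (hΔ : ∀ z, 0 < ‖z‖ → ‖z‖ < R₀ →
      ∀ᶠ ζ in 𝓝[≠] z, MvPolynomial.eval (fun a => g a ζ) (Del κ N) ≠ 0) :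
    ∃ T : Finset (Fin (n + 2) → ℂ), T.card ≤ κ ∧
      (∀ τ, τ ∈ T ↔ τ ∈ Gam N ℂ ∧ ∀ z, 0 < ‖z‖ → ‖z‖ < R₀ → ∀ᶠ ζ in 𝓝[≠] z, lin τ g ζ = 0) ∧
      MeroPunct R₀ (Palong φ T.card g) := by
  classical
  -- a generic point
  have hz₁ : 0 < ‖((R₀ / 2 : ℝ) : ℂ)‖ ∧ ‖((R₀ / 2 : ℝ) : ℂ)‖ < R₀ := by
    rw [Complex.norm_real, Real.norm_of_nonneg (by positivity)]
    constructor <;> linarith
  have hopen : IsOpen {z : ℂ | 0 < ‖z‖ ∧ ‖z‖ < R₀} :=
    (isOpen_lt continuous_const continuous_norm).inter (isOpen_lt continuous_norm continuous_const)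
  have hΩ0 : ∀ᶠ ζ in 𝓝 ((R₀ / 2 : ℝ) : ℂ), 0 < ‖ζ‖ ∧ ‖ζ‖ < R₀ := hopen.mem_nhds hz₁
  have hΩ : ∀ᶠ ζ in 𝓝[≠] ((R₀ / 2 : ℝ) : ℂ), 0 < ‖ζ‖ ∧ ‖ζ‖ < R₀ :=
    hΩ0.filter_mono nhdsWithin_le_nhds
  have han : ∀ᶠ ζ in 𝓝[≠] ((R₀ / 2 : ℝ) : ℂ), ∀ a, AnalyticAt ℂ (g a) ζ :=
    Filter.eventually_all.2 fun a => (hg a _ hz₁.1 hz₁.2).eventually_analyticAt
  obtain ⟨z₀, ⟨hz₀, hgz₀⟩, hΔ₀⟩ := ((hΩ.and han).and (hΔ _ hz₁.1 hz₁.2)).exists
  -- a disc
  have hU0 : ∀ᶠ ζ in 𝓝 z₀, 0 < ‖ζ‖ ∧ ‖ζ‖ < R₀ := hopen.mem_nhds hz₀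
  have hU1 : ∀ᶠ ζ in 𝓝 z₀, (0 < ‖ζ‖ ∧ ‖ζ‖ < R₀) ∧ ∀ a, AnalyticAt ℂ (g a) ζ :=
    hU0.and (Filter.eventually_all.2 fun a => (hgz₀ a).eventually_analyticAt)
  obtain ⟨ε, hε, hball⟩ := Metric.eventually_nhds_iff_ball.1 hU1
  have hz₀U : z₀ ∈ Metric.ball z₀ ε := Metric.mem_ball_self hε
  -- the constants
  set v₀ : Fin (n + 2) → ℂ := fun a => g a z₀ with hv₀
  have hae : MvPolynomial.aeval v₀ (Del κ N) ≠ 0 := by
    rw [MvPolynomial.aeval_eq_eval]
    exact hΔ₀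
  have hfin := finite_constants hd.norm v₀ hae
  set S : Set (Fin (n + 2) → ℂ) := {τ | τ ∈ Gam N ℂ ∧
    ∀ z, 0 < ‖z‖ → ‖z‖ < R₀ → ∀ᶠ ζ in 𝓝[≠] z, lin τ g ζ = 0} with hS
  have hdotL : ∀ τ : Fin (n + 2) → ℂ, dot (toL ℂ τ) v₀ = lin τ g z₀ := fun τ => rfl
  have hSsub : S ⊆ {τ : Fin (n + 2) → ℂ | τ ∈ Gam N ℂ ∧ dot (toL ℂ τ) v₀ = 0} := by
    rintro τ ⟨h1, h2⟩
    refine ⟨h1, ?_⟩
    rw [hdotL]
    exact zero_of_punctured (lin_analytic hgz₀ τ) (h2 z₀ hz₀.1 hz₀.2)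
  have hSfin : S.Finite := hfin.subset hSsub
  have hT : ∀ τ, τ ∈ hSfin.toFinset ↔ τ ∈ Gam N ℂ ∧
      ∀ z, 0 < ‖z‖ → ‖z‖ < R₀ → ∀ᶠ ζ in 𝓝[≠] z, lin τ g ζ = 0 := by
    intro τ
    rw [Set.Finite.mem_toFinset]
    rfl
  have hT2 : ∀ τ, τ ∈ hSfin.toFinset ↔ τ ∈ Gam N ℂ ∧
      ∀ z ∈ Metric.ball z₀ ε, dot τ (fun a => g a z) = 0 := by
    intro τ
    rw [hT]
    refine and_congr_right fun _ => ⟨fun h z hz => ?_, fun h => ?_⟩
    · obtain ⟨h1, h2⟩ := hball z hz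
      exact zero_of_punctured (lin_analytic h2 τ) (h z h1.1 h1.2)
    · refine identity (fun z h1 h2 => lin_mero (fun a => hg a z h1 h2) τ) hz₀.1 hz₀.2 ?_
      rw [meromorphicOrderAt_eq_top_iff]
      have h1 : ∀ᶠ ζ in 𝓝 z₀, ζ ∈ Metric.ball z₀ ε := Metric.isOpen_ball.mem_nhds hz₀U
      exact (h1.mono fun ζ hζ => h ζ hζ).filter_mono nhdsWithin_le_nhds
  refine ⟨hSfin.toFinset, ?_, hT, ?_⟩
  · refine card_constants_le hd.norm v₀ hae _ fun τ hτ => hSsub ?_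
    rwa [Set.Finite.mem_toFinset] at hτ
  · obtain ⟨z₂, hz₂, hne⟩ := phi_ne_zero_analytic hd.pos hd.norm hd.chow Metric.isOpen_ball
      (convex_ball z₀ ε).isPreconnected g (fun a z hz => (hball z hz).2 a) hz₀U hΔ₀ _ hT2
    obtain ⟨h1, h2⟩ := hball z₂ hz₂
    have hmero : ∀ z, 0 < ‖z‖ → ‖z‖ < R₀ → MeromorphicAt (Palong φ hSfin.toFinset.card g) z :=
      fun z h3 h4 => Palong_meromorphic fun a => hg a z h3 h4
    refine ⟨hmero, fun z h3 h4 htop => ?_⟩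
    have h5 := identity hmero h3 h4 htop z₂ h1.1 h1.2
    exact hne (zero_of_punctured (Palong_analytic h2) h5)

private theorem le_order_mul {u : ℂ → ℂ} {s : ℂ} (hu : MeromorphicAt u s) (x : ℂ)
    {k : WithTop ℤ} (h : k ≤ meromorphicOrderAt u s) :
    k ≤ meromorphicOrderAt (fun ζ => x * u ζ) s := by
  have h1 : (fun ζ => x * u ζ) = (fun _ => x) * u := rfl
  rw [h1, meromorphicOrderAt_mul (MeromorphicAt.const _ _) hu]
  have h2 : 0 ≤ meromorphicOrderAt (fun _ : ℂ => x) s := by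
    rw [meromorphicOrderAt_const]
    split_ifs
    · exact le_top
    · exact le_rfl
  calc k = 0 + k := (zero_add k).symm
    _ ≤ _ := add_le_add h2 h

private theorem le_order_sum {ι : Type*} (S : Finset ι) {u : ι → ℂ → ℂ} {s : ℂ}
    (hu : ∀ i, MeromorphicAt (u i) s) {k : WithTop ℤ}
    (h : ∀ i, k ≤ meromorphicOrderAt (u i) s) :
    k ≤ meromorphicOrderAt (∑ i ∈ S, u i) s := by
  classical
  induction S using Finset.induction_on with
  | empty =>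
    rw [Finset.sum_empty]
    have : meromorphicOrderAt (0 : ℂ → ℂ) s = ⊤ := by
      rw [meromorphicOrderAt_eq_top_iff]
      exact Filter.Eventually.of_forall fun _ => rfl
    rw [this]
    exact le_top
  | insert a S ha ih =>
    rw [Finset.sum_insert ha]
    have h1 := meromorphicOrderAt_add (hu a) (MeromorphicAt.sum (s := S) fun i _ => hu i)
    exact (le_min (h a) ih).trans h1

/-- **Analytic core.** -/
theorem analytic_core (hd : DGData κ N φ) (hom : ∃ k, (Del κ N).IsHomogeneous k) {ι : Type}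
    [Fintype ι] {lam : ι → Fin (n + 2) → ℂ}
    {b : Fin (n + 2) → ι → ℂ} (hb : ∀ (v : Fin (n + 2) → ℂ) a, v a = ∑ i, b a i * dot (lam i) v)
    {c : ι → ℂ} {J : Finset ι} (hJ : Marked N lam c J) (hcard : 4 * κ < J.card)
    {R₀ : ℝ} (hR₀ : 0 < R₀) {g : Fin (n + 2) → ℂ → ℂ}
    (hg : ∀ a z, 0 < ‖z‖ → ‖z‖ < R₀ → MeromorphicAt (g a) z)
    (hΔ : ∀ z, 0 < ‖z‖ → ‖z‖ < R₀ →
      ∀ᶠ ζ in 𝓝[≠] z, MvPolynomial.eval (fun a => g a ζ) (Del κ N) ≠ 0)
    (hne : ∀ i, MeroPunct R₀ (lin (lam i) g)) {i₀ : ι}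
    (hi₀ : ∀ z, 0 < ‖z‖ → ‖z‖ < R₀ → ∀ᶠ ζ in 𝓝[≠] z, lin (lam i₀) g ζ = 1)
    (hmult : ∀ j ∈ J, ∀ s, 0 < ‖s‖ → ‖s‖ < R₀ → ∀ μ : ℤ, (∀ i, μ ≤ ordZ (lin (lam i) g) s) →
      (∃ i, ordZ (lin (lam i) g) s = μ) →
      ordZ (lin (lam j) g) s = μ ∨ μ + 2 ≤ ordZ (lin (lam j) g) s) (i : ι) :
    PunctMero (lin (lam i) g) := by
  classical
  obtain ⟨T, hTκ, hT, hP⟩ := exists_constants hd hR₀ hg hΔ
  have hTG : ∀ τ ∈ T, τ ∈ Gam N ℂ := fun τ hτ => ((hT τ).1 hτ).1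
  have hTg : ∀ τ ∈ T, ∀ z, 0 < ‖z‖ → ‖z‖ < R₀ → ∀ᶠ ζ in 𝓝[≠] z, lin τ g ζ = 0 := fun τ hτ =>
    ((hT τ).1 hτ).2
  have hlin : ∀ j ζ, lin (fun a => c j * lam j a) g ζ = c j * lin (lam j) g ζ := by
    intro j ζ
    change ∑ a, c j * lam j a * g a ζ = c j * ∑ a, lam j a * g a ζ
    rw [Finset.mul_sum]
    exact Finset.sum_congr rfl fun a _ => by ring
  have hz₁ : 0 < ‖((R₀ / 2 : ℝ) : ℂ)‖ ∧ ‖((R₀ / 2 : ℝ) : ℂ)‖ < R₀ := by
    rw [Complex.norm_real, Real.norm_of_nonneg (by positivity)]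
    constructor <;> linarith
  have hJT : ∀ j ∈ J, (fun a => c j * lam j a) ∉ T := by
    intro j hj hcon
    have h1 := hTg _ hcon _ hz₁.1 hz₁.2
    have h2 := (meromorphicOrderAt_ne_top_iff_eventually_ne_zero ((hne j).mero _ hz₁.1 hz₁.2)).1
      ((hne j).ord _ hz₁.1 hz₁.2)
    obtain ⟨ζ, h3, h4⟩ := (h1.and h2).exists
    rw [hlin] at h3
    exact (mul_ne_zero (hJ.ne j hj) h4) h3
  obtain ⟨C, hC⟩ := pt_est hd hb hJ T hTG hJT
  refine smt_punct hR₀ (h := fun i => lin (lam i) g) hne hi₀ hP (J := J) (K := 2 * κ - T.card)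
    (ρ := κ - T.card) (m := 2) (C := C) ?_ ?_ ?_ one_le_two ?_ i
  · -- the pointwise inequality
    intro z h1 h2
    have e1 : ∀ᶠ ζ in 𝓝[≠] z, ∀ a, AnalyticAt ℂ (g a) ζ :=
      Filter.eventually_all.2 fun a => (hg a _ h1 h2).eventually_analyticAt
    have e2 : ∀ᶠ ζ in 𝓝[≠] z, ∀ i, lin (lam i) g ζ ≠ 0 :=
      Filter.eventually_all.2 fun i =>
        (meromorphicOrderAt_ne_top_iff_eventually_ne_zero ((hne i).mero _ h1 h2)).1
          ((hne i).ord _ h1 h2)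
    have e3 : ∀ᶠ ζ in 𝓝[≠] z, ∀ τ ∈ T, ∀ᶠ y in 𝓝 ζ, lin τ g y = 0 := by
      rw [Filter.eventually_all_finset]
      intro τ hτ
      have := eventually_eventually_nhdsWithin.2 (hTg τ hτ z h1 h2)
      filter_upwards [this, self_mem_nhdsWithin] with ζ hζ hne
      rwa [IsOpen.nhdsWithin_eq isOpen_compl_singleton hne] at hζ
    filter_upwards [e1, e2, e3, hΔ z h1 h2] with ζ f1 f2 f3 f4 H hH hH'
    have f5 : ∀ τ ∈ T, dot τ (fun a => deriv (g a) ζ) = 0 := by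
      intro τ hτ
      rw [← lin_deriv f1 τ]
      have h3 : lin τ g =ᶠ[𝓝 ζ] fun _ => 0 := f3 τ hτ
      rw [h3.deriv_eq, deriv_const]
    have key := hC (fun a => g a ζ) (fun a => deriv (g a) ζ) f4
      (fun τ hτ => (f3 τ hτ).self_of_nhds) f5 f2 H hH hH'
    refine key.trans (le_of_eq ?_)
    congr 3
    refine Finset.sum_congr rfl fun i _ => ?_
    rw [lin_deriv f1 (lam i)]
    rfl
  · -- the local inequality
    intro s h1 h2 μ hμ hμ'
    have hord : ∀ i, ((ordZ (lin (lam i) g) s : ℤ) : WithTop ℤ) =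
        meromorphicOrderAt (lin (lam i) g) s := fun i =>
      Pool.Agent.H92.GGL.ordZ_cast ((hne i).ord s h1 h2)
    have hga : ∀ a, g a = ∑ i, fun ζ => b a i * lin (lam i) g ζ := by
      intro a
      funext ζ
      rw [Finset.sum_apply]
      exact hb (fun a => g a ζ) a
    have hmi : ∀ a i, MeromorphicAt (fun ζ => b a i * lin (lam i) g ζ) s := fun a i =>
      (MeromorphicAt.const _ _).mul ((hne i).mero s h1 h2)
    have hle : ∀ (μ' : ℤ) a, (∀ i, μ' ≤ ordZ (lin (lam i) g) s) →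
        ((μ' : ℤ) : WithTop ℤ) ≤ meromorphicOrderAt (g a) s := by
      intro μ' a h3
      rw [hga a]
      refine le_order_sum _ (hmi a) fun i => le_order_mul ((hne i).mero s h1 h2) _ ?_
      rw [← hord]
      exact_mod_cast h3 i
    have hle' : ∀ (μ' : ℤ), (∀ a, ((μ' : ℤ) : WithTop ℤ) ≤ meromorphicOrderAt (g a) s) →
        ∀ i, ((μ' : ℤ) : WithTop ℤ) ≤ meromorphicOrderAt (lin (lam i) g) s := by
      intro μ' h3 i
      have h4 : lin (lam i) g = ∑ a, fun ζ => lam i a * g a ζ := by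
        funext ζ
        rw [Finset.sum_apply]
        rfl
      rw [h4]
      exact le_order_sum _ (fun a => (MeromorphicAt.const _ _).mul (hg a s h1 h2)) fun a =>
        le_order_mul (hg a s h1 h2) _ (h3 a)
    have hμa : ∀ a, ((μ : ℤ) : WithTop ℤ) ≤ meromorphicOrderAt (g a) s := fun a => hle μ a hμ
    have hμa' : ∃ a, meromorphicOrderAt (g a) s = ((μ : ℤ) : WithTop ℤ) := by
      by_contra hcon
      push Not at hcon
      obtain ⟨i, hi⟩ := hμ'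
      have h3 := hle' (μ + 1) (fun a => by
        have h4 := lt_of_le_of_ne (hμa a) (hcon a).symm
        induction hx : meromorphicOrderAt (g a) s using WithTop.recTopCoe with
        | top => exact le_top
        | coe x =>
          rw [hx] at h4
          have h5 : μ < x := by exact_mod_cast h4
          exact_mod_cast (by omega : μ + 1 ≤ x)) i
      rw [← hord, hi] at h3
      have h4 : μ + 1 ≤ μ := by exact_mod_cast h3
      omega
    have key := loc_est hd hom hJ T hTG hJT (fun a => hg a s h1 h2) (hΔ s h1 h2)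
      (fun τ hτ => hTg τ hτ s h1 h2) hμa hμa' (fun i => (ordZ (lin (lam i) g) s - μ).toNat)
      (fun j hj => by
        have h3 : (μ + ((ordZ (lin (lam j) g) s - μ).toNat : ℤ) : ℤ) =
            ordZ (lin (lam j) g) s := by
          rw [Int.toNat_of_nonneg (by have := hμ j; omega)]
          ring
        rw [h3, hord]
        exact le_rfl)
    rw [← Pool.Agent.H92.GGL.ordZ_cast (hP.ord s h1 h2)] at key
    have key' : (((2 * κ - T.card : ℕ) : ℤ)) * μ +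
        ∑ j ∈ J, (((ordZ (lin (lam j) g) s - μ).toNat - 1 : ℕ) : ℤ) ≤
        ordZ (Palong φ T.card g) s := by exact_mod_cast key
    refine le_trans (le_of_eq ?_) key'
    congr 1
    refine Finset.sum_congr rfl fun j _ => ?_
    have := hμ j
    omega
  · exact hmult
  · omega

end

end Pool.Agent.H5.DG
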