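import Pool.Agent.H62.FC.NevDefs
import Pool.Agent.H62.FC.Extend
import Pool.Agent.H17.Modulus
import Pool.Agent.H99.Cover.Basic

/-!
# Project DG, module D3Lem: maps of the punctured disc to projective space

The lemmas are those of `Pool.Agent.H62.FC.PicardBrody`.
-/

noncomputable section

namespace Pool.Agent.H5.DG

open MvPolynomial Topology Filter
open Pool.Agent.H92.GGL (ordZ)
open Pool.Agent.H62.FC (MeroPunct PunctMero)
open Pool.Agent.H17 (PN VanishesAt zeroLocus ZariskiClosedIn HolomorphicInto puncturedDisc)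

variable {N : ℕ}

/-! ### Holomorphic maps of the punctured disc -/

theorem preconnected_puncturedDisc : IsPreconnected puncturedDisc := by
  have h : puncturedDisc = Complex.exp '' {z : ℂ | z.re < 0} := by
    ext z
    constructor
    · rintro ⟨h1, h2⟩
      have h3 : z ≠ 0 := h2
      refine ⟨Complex.log z, ?_, Complex.exp_log h3⟩
      rw [mem_ball_zero_iff] at h1
      change (Complex.log z).re < 0
      rw [Complex.log_re]
      exact Real.log_neg (norm_pos_iff.mpr h3) h1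
    · rintro ⟨w, hw, rfl⟩
      refine ⟨?_, Complex.exp_ne_zero w⟩
      rw [mem_ball_zero_iff, Complex.norm_exp]
      have h1 := Real.exp_lt_exp.mpr hw
      rwa [Real.exp_zero] at h1
  rw [h]
  exact (convex_halfSpace_re_lt 0).isPreconnected.image _ Complex.continuous_exp.continuousOn

theorem isOpen_puncturedDisc : IsOpen puncturedDisc :=
  Metric.isOpen_ball.sdiff isClosed_singleton

theorem mem_puncturedDisc {z : ℂ} : z ∈ puncturedDisc ↔ 0 < ‖z‖ ∧ ‖z‖ < 1 := by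
  unfold puncturedDisc
  rw [Set.mem_sdiff, mem_ball_zero_iff, Set.mem_singleton_iff, norm_pos_iff]
  exact and_comm

theorem vanishesAt_X {x : PN N} {i : Fin (N + 1)} : VanishesAt (X i) x ↔ x.rep i = 0 := by
  unfold VanishesAt
  rw [eval_X]

theorem vanish_local {f : ℂ → PN N} {s : ℂ} {φ : ℂ → Fin (N + 1) → ℂ}
    (hφ : AnalyticAt ℂ φ s)
    (he : ∀ᶠ z in 𝓝 s, ∃ h : φ z ≠ 0, f z = Projectivization.mk ℂ (φ z) h)
    {Q : MvPolynomial (Fin (N + 1)) ℂ} {m : ℕ} (hQ : Q.IsHomogeneous m) :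
    (∀ᶠ z in 𝓝 s, VanishesAt Q (f z)) ∨ (∀ᶠ z in 𝓝[≠] s, ¬ VanishesAt Q (f z)) := by
  have h1 : AnalyticAt ℂ (fun z => aeval (φ z) Q) s :=
    AnalyticAt.aeval_mvPolynomial (fun i => analyticAt_pi_iff.mp hφ i) Q
  rcases h1.eventually_eq_zero_or_eventually_ne_zero with h | h
  · left
    filter_upwards [h, he] with z hz hfz
    obtain ⟨h2, h3⟩ := hfz
    rw [h3, Pool.Agent.H17.vanishesAt_mk_iff hQ]
    exact hz
  · right
    filter_upwards [h, he.filter_mono nhdsWithin_le_nhds] with z hz hfz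
    obtain ⟨h2, h3⟩ := hfz
    rw [h3, Pool.Agent.H17.vanishesAt_mk_iff hQ]
    exact hz

/-- the identity principle -/
theorem vanish_dich {f : ℂ → PN N} (hf : HolomorphicInto f puncturedDisc)
    {Q : MvPolynomial (Fin (N + 1)) ℂ} {m : ℕ} (hQ : Q.IsHomogeneous m) :
    (∀ s ∈ puncturedDisc, ∀ᶠ z in 𝓝 s, VanishesAt Q (f z)) ∨
      (∀ s ∈ puncturedDisc, ∀ᶠ z in 𝓝[≠] s, ¬ VanishesAt Q (f z)) := by
  have hou : IsOpen {s | ∀ᶠ z in 𝓝 s, VanishesAt Q (f z)} := isOpen_setOfPred_eventually_nhds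
  have hov : IsOpen {s | ∀ᶠ z in 𝓝[≠] s, ¬ VanishesAt Q (f z)} :=
    isOpen_setOfPred_eventually_nhdsWithin
  have hd : Disjoint {s | ∀ᶠ z in 𝓝 s, VanishesAt Q (f z)}
      {s | ∀ᶠ z in 𝓝[≠] s, ¬ VanishesAt Q (f z)} := by
    rw [Set.disjoint_left]
    intro s hs hs'
    have h1 : ∀ᶠ z in 𝓝 s, VanishesAt Q (f z) := hs
    have h2 : ∀ᶠ z in 𝓝[≠] s, ¬ VanishesAt Q (f z) := hs'
    obtain ⟨z, h3, h4⟩ := ((h1.filter_mono nhdsWithin_le_nhds).and h2).exists
    exact h4 h3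
  have hsub : puncturedDisc ⊆ {s | ∀ᶠ z in 𝓝 s, VanishesAt Q (f z)} ∪
      {s | ∀ᶠ z in 𝓝[≠] s, ¬ VanishesAt Q (f z)} := by
    intro s hs
    obtain ⟨φ, hφ, he⟩ := hf s hs
    exact vanish_local hφ he hQ
  by_cases hne : (puncturedDisc ∩ {s | ∀ᶠ z in 𝓝 s, VanishesAt Q (f z)}).Nonempty
  · left
    intro s hs
    exact (preconnected_puncturedDisc.subset_left_of_subset_union hou hov hd hsub hne) hs
  · right
    intro s hs
    rcases hsub hs with h | h
    · exact absurd ⟨s, hs, h⟩ hne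
    · exact h

/-- lifts and representatives -/
theorem exists_lift {f : ℂ → PN N} (hf : HolomorphicInto f puncturedDisc) {s : ℂ}
    (hs : s ∈ puncturedDisc) : ∃ φ : ℂ → Fin (N + 1) → ℂ, (∀ i, AnalyticAt ℂ (fun z => φ z i) s) ∧
      ∀ᶠ z in 𝓝 s, ∃ c : ℂ, c ≠ 0 ∧ ∀ i, (f z).rep i = c * φ z i := by
  obtain ⟨φ, hφ, he⟩ := hf s hs
  refine ⟨φ, analyticAt_pi_iff.mp hφ, ?_⟩
  filter_upwards [he] with z hz
  obtain ⟨h1, h2⟩ := hz
  obtain ⟨a, ha, h3⟩ := Pool.Agent.H17.exists_smul_rep (φ z) h1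
  refine ⟨a, ha, fun i => ?_⟩
  rw [h2, h3]
  rfl

theorem ord_eq_zero_of_ne {g : ℂ → ℂ} {s : ℂ} (hg : AnalyticAt ℂ g s) (h : g s ≠ 0) :
    ordZ g s = 0 := by
  unfold ordZ
  rw [hg.meromorphicOrderAt_eq, hg.analyticOrderAt_eq_zero.mpr h]
  rfl

open Classical in
/-- the coordinates of `f` which are not identically zero -/
def nzSet (f : ℂ → PN N) : Finset (Fin (N + 1)) :=
  Finset.univ.filter fun i => ∀ s ∈ puncturedDisc, ∀ᶠ z in 𝓝[≠] s, (f z).rep i ≠ 0

theorem nz_mem {f : ℂ → PN N} {i : Fin (N + 1)} (hi : i ∈ nzSet f) {s : ℂ}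
    (hs : s ∈ puncturedDisc) : ∀ᶠ z in 𝓝[≠] s, (f z).rep i ≠ 0 := by
  unfold nzSet at hi
  simp only [Finset.mem_filter, Finset.mem_univ, true_and] at hi
  exact hi s hs

theorem nz_notMem {f : ℂ → PN N} (hf : HolomorphicInto f puncturedDisc)
    {i : Fin (N + 1)} (hi : i ∉ nzSet f) {s : ℂ} (hs : s ∈ puncturedDisc) : (f s).rep i = 0 := by
  rcases vanish_dich hf (isHomogeneous_X ℂ i) with h | h
  · exact vanishesAt_X.mp (h s hs).self_of_nhds
  · exfalso
    apply hi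
    unfold nzSet
    simp only [Finset.mem_filter, Finset.mem_univ, true_and]
    intro s hs
    filter_upwards [h s hs] with z hz hz'
    exact hz (vanishesAt_X.mpr hz')

theorem quot_mero {f : ℂ → PN N} (hf : HolomorphicInto f puncturedDisc)
    (i i₀ : Fin (N + 1)) {s : ℂ} (hs : s ∈ puncturedDisc) :
    MeromorphicAt (fun z => (f z).rep i / (f z).rep i₀) s := by
  obtain ⟨φ, hφ, he⟩ := exists_lift hf hs
  have h1 : MeromorphicAt (fun z => φ z i / φ z i₀) s :=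
    (hφ i).meromorphicAt.fun_div (hφ i₀).meromorphicAt
  refine h1.congr ?_
  filter_upwards [he.filter_mono nhdsWithin_le_nhds] with z hz
  obtain ⟨c, hc, h2⟩ := hz
  rw [h2, h2, mul_div_mul_left _ _ hc]

theorem quot_meroPunct {f : ℂ → PN N} (hf : HolomorphicInto f puncturedDisc)
    {i i₀ : Fin (N + 1)} (hi : i ∈ nzSet f) (hi₀ : i₀ ∈ nzSet f) :
    MeroPunct 1 (fun z => (f z).rep i / (f z).rep i₀) where
  mero z h1 h2 := quot_mero hf i i₀ (mem_puncturedDisc.mpr ⟨h1, h2⟩)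
  ord z h1 h2 := by
    have hs := mem_puncturedDisc.mpr ⟨h1, h2⟩
    rw [meromorphicOrderAt_ne_top_iff_eventually_ne_zero (quot_mero hf i i₀ hs)]
    filter_upwards [nz_mem hi hs, nz_mem hi₀ hs] with w h3 h4
    exact div_ne_zero h3 h4

theorem ord_quot {f : ℂ → PN N} (hf : HolomorphicInto f puncturedDisc) {s : ℂ}
    (hs : s ∈ puncturedDisc) : ∃ o : Fin (N + 1) → ℤ, (∀ i, (f s).rep i ≠ 0 → o i = 0) ∧
      ∀ i ∈ nzSet f, ∀ i₀ ∈ nzSet f,
        ordZ (fun z => (f z).rep i / (f z).rep i₀) s = o i - o i₀ := by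
  obtain ⟨φ, hφ, he⟩ := exists_lift hf hs
  have hne : ∀ i ∈ nzSet f, ∀ᶠ z in 𝓝[≠] s, φ z i ≠ 0 := by
    intro i hi
    filter_upwards [he.filter_mono nhdsWithin_le_nhds, nz_mem hi hs] with z hz h1 h2
    obtain ⟨c, hc, h3⟩ := hz
    apply h1
    rw [h3, h2, mul_zero]
  have htop : ∀ i ∈ nzSet f, meromorphicOrderAt (fun z => φ z i) s ≠ ⊤ := fun i hi =>
    (meromorphicOrderAt_ne_top_iff_eventually_ne_zero (hφ i).meromorphicAt).mpr (hne i hi)
  refine ⟨fun i => ordZ (fun z => φ z i) s, ?_, ?_⟩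
  · intro i hi
    refine ord_eq_zero_of_ne (hφ i) fun h => hi ?_
    obtain ⟨c, hc, h2⟩ := he.self_of_nhds
    rw [h2, h, mul_zero]
  · intro i hi i₀ hi₀
    have h1 : (fun z => φ z i) =ᶠ[𝓝[≠] s]
        (fun z => ((f z).rep i / (f z).rep i₀) * φ z i₀) := by
      filter_upwards [he.filter_mono nhdsWithin_le_nhds, hne i₀ hi₀] with z hz h3
      obtain ⟨c, hc, h2⟩ := hz
      rw [h2, h2, mul_div_mul_left _ _ hc, div_mul_cancel₀ _ h3]
    have h2 := meromorphicOrderAt_congr h1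
    have h3 : meromorphicOrderAt (fun z => ((f z).rep i / (f z).rep i₀) * φ z i₀) s =
        meromorphicOrderAt (fun z => (f z).rep i / (f z).rep i₀) s +
          meromorphicOrderAt (fun z => φ z i₀) s :=
      fun_meromorphicOrderAt_mul (quot_mero hf i i₀ hs) (hφ i₀).meromorphicAt
    have h5 := mem_puncturedDisc.mp hs
    rw [h3, ← Pool.Agent.H92.GGL.ordZ_cast (htop i hi),
      ← Pool.Agent.H92.GGL.ordZ_cast (htop i₀ hi₀),
      ← Pool.Agent.H92.GGL.ordZ_cast ((quot_meroPunct hf hi hi₀).ord s h5.1 h5.2)] at h2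
    have h4 : ordZ (fun z => φ z i) s =
        ordZ (fun z => (f z).rep i / (f z).rep i₀) s + ordZ (fun z => φ z i₀) s := by
      exact_mod_cast h2
    change _ = ordZ (fun z => φ z i) s - ordZ (fun z => φ z i₀) s
    linarith

theorem eventually_mem_puncturedDisc {s : ℂ} (hs : s ∈ puncturedDisc) :
    ∀ᶠ z in 𝓝[≠] s, z ∈ puncturedDisc := by
  have h : ∀ᶠ z in 𝓝 s, z ∈ puncturedDisc := isOpen_puncturedDisc.mem_nhds hs
  exact h.filter_mono nhdsWithin_le_nhds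

theorem eventually_puncturedDisc_zero : ∀ᶠ z in 𝓝[≠] (0 : ℂ), z ∈ puncturedDisc := by
  have h1 : ∀ᶠ z in 𝓝 (0 : ℂ), z ∈ Metric.ball (0 : ℂ) 1 :=
    Metric.ball_mem_nhds (0 : ℂ) one_pos
  filter_upwards [h1.filter_mono nhdsWithin_le_nhds, self_mem_nhdsWithin] with z h2 h3
  exact ⟨h2, h3⟩

/-! ### Entire curves -/

theorem eq_of_sep {p q : PN N} (h : Pool.Agent.H17.sep p q = 0) : p = q := by
  have h1 := Pool.Agent.H17.eq_of_sepv_eq_zero p.rep_nonzero q.rep_nonzero h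
  rwa [p.mk_rep, q.mk_rep] at h1

/-- If `z ↦ f (exp (1 / z))` extends to the disc then `f` is constant. -/
theorem const_of_extension {f g : ℂ → PN N} (hf : HolomorphicInto f Set.univ)
    (hg : HolomorphicInto g (Metric.ball 0 1))
    (hge : ∀ z ∈ puncturedDisc, g z = f (Complex.exp z⁻¹)) (z w : ℂ) : f z = f w := by
  have hseq : ∀ w : ℂ, w ≠ 0 → ∃ zs : ℕ → ℂ, Tendsto zs atTop (𝓝 0) ∧
      ∀ᶠ n in atTop, zs n ∈ puncturedDisc ∧ Complex.exp (zs n)⁻¹ = w := by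
    intro w hw
    obtain ⟨zs, h1, h2⟩ := Pool.Agent.H99.Cover.exists_seq_exp_inv w hw
    refine ⟨zs, h1, ?_⟩
    filter_upwards [h2, h1.eventually (Metric.ball_mem_nhds (0 : ℂ) one_pos)] with n h3 h4
    exact ⟨⟨h4, h3.1⟩, h3.2⟩
  -- the map is constant off `0`
  have hconst : ∀ w : ℂ, w ≠ 0 → f w = g 0 := by
    intro w hw
    apply eq_of_sep
    obtain ⟨zs, h1, h2⟩ := hseq w hw
    have h3 := Pool.Agent.H17.tendsto_sep hg (Metric.mem_ball_self one_pos)
    have h4 : Tendsto (fun n => (zs n, (0 : ℂ))) atTop (𝓝 ((0 : ℂ), (0 : ℂ))) :=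
      h1.prodMk_nhds tendsto_const_nhds
    have h5 := h3.comp h4
    refine tendsto_nhds_unique (tendsto_const_nhds.congr' ?_) h5
    filter_upwards [h2] with n hn
    change Pool.Agent.H17.sep (f w) (g 0) = Pool.Agent.H17.sep (g (zs n)) (g 0)
    rw [hge (zs n) hn.1, hn.2]
  have hconst0 : f 0 = g 0 := by
    symm
    apply eq_of_sep
    have h3 := Pool.Agent.H17.tendsto_sep hf (Set.mem_univ (0 : ℂ))
    have h4 : Tendsto (fun w : ℂ => (w, (0 : ℂ))) (𝓝[≠] 0) (𝓝 ((0 : ℂ), (0 : ℂ))) :=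
      (tendsto_id.mono_left nhdsWithin_le_nhds).prodMk_nhds tendsto_const_nhds
    have h5 := h3.comp h4
    refine tendsto_nhds_unique (tendsto_const_nhds.congr' ?_) h5
    filter_upwards [self_mem_nhdsWithin] with w hw
    change Pool.Agent.H17.sep (g 0) (f 0) = Pool.Agent.H17.sep (f w) (f 0)
    rw [hconst w hw]
  have hall : ∀ w, f w = g 0 := by
    intro w
    by_cases hw : w = 0
    · rw [hw]
      exact hconst0
    · exact hconst w hw
  rw [hall, hall]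

end Pool.Agent.H5.DG
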