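import Pool.Agent.H5.DG.D3Lem
import Pool.Agent.H5.DG.D2Core
import Pool.Agent.H62.FC.PunctMero
import Pool.Agent.H62.FC.Extend

/-!
# Project DG, module D3X: maps to the diagonal complete intersections

`picard_X`: (model: `Pool.Agent.H62.FC.PicardBrody.picard`; the lemmas on maps of the punctured disc
are in D3Lem) `i₀ ∈ nzSet f`, `ξ j z = (f z).rep j / (f z).rep i₀`, `g a = ∑ j, b a j * ξ j ^ d`;
then `lin (l j) g z = ξ j z ^ d` for all `z` in the punctured disc with `(f z).rep i₀ ≠ 0`.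
`core_analytic`: `ordZ (lin (l j) g) s = d * (o j - o i₀)` for `j ∈ nzSet f` (`ord_quot`), so the
multiplicity hypothesis holds because `d ≥ 2` divides all differences.  `hΔ` from `vanish_dich` for
the form `DelX`.  Then `PunctMero (ξ j ^ d)`, `PunctMero.root`, `exists_extension`.

`brody_X`: `picard_X` for `z ↦ f (exp (1 / z))` and `const_of_extension` (a point `z ≠ 0` with
`DelX (f z) ≠ 0` exists by `vanish_local` if the given point is `0`).
-/

open MvPolynomial Filter Topology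
open Pool.Agent.H62.FC (MeroPunct PunctMero)
open Pool.Agent.H92.GGL (ordZ)
open Pool.Agent.H17 (PN VanishesAt zeroLocus ZariskiClosedIn HolomorphicInto puncturedDisc)

noncomputable section

namespace Pool.Agent.H5.DG

/-- The exceptional form in the coordinates of `ℙ^Nn`. -/
def DelX {n Nn : ℕ} (b : Fin (n + 2) → Fin (Nn + 1) → ℂ) (d : ℕ)
    (M : Matrix (Fin (n + 2)) (Fin (n + 2)) ℂ) (κ : ℕ) (N : Polynomial (PV n)) :
    MvPolynomial (Fin (Nn + 1)) ℂ :=
  MvPolynomial.aeval (fun a => ∑ j, MvPolynomial.C (b a j) * MvPolynomial.X j ^ d) (DelM M κ N)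

section

variable {n Nn κ d : ℕ} {l : Fin (Nn + 1) → Fin (n + 2) → ℂ}
  {M : Matrix (Fin (n + 2)) (Fin (n + 2)) ℂ} {N : Polynomial (PV n)} {φ : PVW n}
  {J : Finset (Fin (Nn + 1))} {c : Fin (Nn + 1) → ℂ} {b : Fin (n + 2) → Fin (Nn + 1) → ℂ}

theorem eval_DelX (hb : ∀ (v : Fin (n + 2) → ℂ) a, v a = ∑ j, b a j * dot (l j) v)
    {x : Fin (Nn + 1) → ℂ} {v : Fin (n + 2) → ℂ} (hx : ∀ j, x j ^ d = dot (l j) v) :
    MvPolynomial.eval x (DelX b d M κ N) = MvPolynomial.eval v (DelM M κ N) := by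
  unfold DelX
  have h1 : ∀ P : MvPolynomial (Fin (n + 2)) ℂ, MvPolynomial.eval x (MvPolynomial.aeval
      (fun a => ∑ j, MvPolynomial.C (b a j) * MvPolynomial.X j ^ d) P) =
      MvPolynomial.eval v P := by
    intro P
    induction P using MvPolynomial.induction_on with
    | C a => simp
    | add p q hp hq => rw [map_add, map_add, map_add, hp, hq]
    | mul_X p a hp =>
      rw [map_mul, map_mul, map_mul, hp, MvPolynomial.aeval_X, MvPolynomial.eval_X]
      congr 1
      rw [map_sum, hb v a]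
      refine Finset.sum_congr rfl fun j _ => ?_
      rw [map_mul, map_pow, MvPolynomial.eval_C, MvPolynomial.eval_X, hx j]
  exact h1 _

theorem DelX_isHomogeneous (h : Pkg l M κ N φ J c) : ∃ k, (DelX b d M κ N).IsHomogeneous k := by
  obtain ⟨k, hk⟩ := DelM_isHomogeneous h
  refine ⟨d * k, ?_⟩
  unfold DelX
  refine hk.aeval _ fun a => ?_
  refine MvPolynomial.IsHomogeneous.sum _ _ _ fun j _ => ?_
  have h1 := (MvPolynomial.isHomogeneous_C (Fin (Nn + 1)) (b a j)).mul
    ((MvPolynomial.isHomogeneous_X ℂ j).pow d)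
  rwa [zero_add, one_mul] at h1

/-- The identity `lin (l j) g = ξ j ^ d`. -/
private theorem lin_xi (hb : ∀ (v : Fin (n + 2) → ℂ) a, v a = ∑ j, b a j * dot (l j) v)
    {x : Fin (Nn + 1) → ℂ} (hx : ∃ v : Fin (n + 2) → ℂ, ∀ j, x j ^ d = dot (l j) v)
    (i₀ j : Fin (Nn + 1)) :
    dot (l j) (fun a => ∑ j, b a j * (x j / x i₀) ^ d) = (x j / x i₀) ^ d := by
  obtain ⟨v, hv⟩ := hx
  have h1 : ∀ j, (x j / x i₀) ^ d = dot (l j) (fun a => v a * ((x i₀) ^ d)⁻¹) := by
    intro j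
    rw [div_pow, hv j]
    unfold dot
    rw [div_eq_mul_inv, Finset.sum_mul]
    refine Finset.sum_congr rfl fun a _ => ?_
    ring
  have h2 : (fun a => ∑ j, b a j * (x j / x i₀) ^ d) = fun a => v a * ((x i₀) ^ d)⁻¹ := by
    funext a
    rw [hb (fun a => v a * ((x i₀) ^ d)⁻¹) a]
    exact Finset.sum_congr rfl fun j _ => by rw [h1 j]
  rw [h2, ← h1 j]

/-- The big Picard theorem. -/
theorem picard_X (hd : 2 ≤ d) (h : Pkg l M κ N φ J c)
    (hb : ∀ (v : Fin (n + 2) → ℂ) a, v a = ∑ j, b a j * dot (l j) v) {f : ℂ → PN Nn}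
    (hf : HolomorphicInto f puncturedDisc)
    (hfX : ∀ z ∈ puncturedDisc, ∃ v : Fin (n + 2) → ℂ, ∀ j, (f z).rep j ^ d = dot (l j) v)
    (hne : ∃ z ∈ puncturedDisc, ¬ VanishesAt (DelX b d M κ N) (f z)) :
    ∃ g : ℂ → PN Nn, HolomorphicInto g (Metric.ball 0 1) ∧ ∀ z ∈ puncturedDisc, g z = f z := by
  obtain ⟨z₀, hz₀, hz₀'⟩ := hne
  have hd0 : d ≠ 0 := by omega
  obtain ⟨i₀, hi₀⟩ : ∃ i, (f z₀).rep i ≠ 0 := by
    by_contra hcon
    push Not at hcon
    exact (f z₀).rep_nonzero (funext hcon)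
  have hi₀T : i₀ ∈ nzSet f := by
    by_contra hcon
    exact hi₀ (nz_notMem hf hcon hz₀)
  obtain ⟨k, hk⟩ := DelX_isHomogeneous (b := b) (d := d) h
  have hnv : ∀ s ∈ puncturedDisc, ∀ᶠ z in 𝓝[≠] s, ¬ VanishesAt (DelX b d M κ N) (f z) := by
    rcases vanish_dich hf hk with h1 | h1
    · exact absurd (h1 z₀ hz₀).self_of_nhds hz₀'
    · exact h1
  -- the map `g`
  set g : Fin (n + 2) → ℂ → ℂ :=
    fun a z => ∑ j, b a j * ((f z).rep j / (f z).rep i₀) ^ d with hgdef
  have hlin : ∀ j, ∀ z ∈ puncturedDisc, lin (l j) g z = ((f z).rep j / (f z).rep i₀) ^ d :=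
    fun j z hz => lin_xi hb (hfX z hz) i₀ j
  have hgm : ∀ a z, 0 < ‖z‖ → ‖z‖ < 1 → MeromorphicAt (g a) z := by
    intro a z h1 h2
    have hz := mem_puncturedDisc.mpr ⟨h1, h2⟩
    have h3 : MeromorphicAt (fun z => ∑ j, b a j * ((f z).rep j / (f z).rep i₀) ^ d) z := by
      refine MeromorphicAt.fun_sum fun j _ => ?_
      exact (MeromorphicAt.const (b a j) z).fun_mul ((quot_mero hf j i₀ hz).fun_pow d)
    exact h3
  have hΔ : ∀ z, 0 < ‖z‖ → ‖z‖ < 1 →
      ∀ᶠ ζ in 𝓝[≠] z, MvPolynomial.eval (fun a => g a ζ) (DelM M κ N) ≠ 0 := by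
    intro z h1 h2
    have hz := mem_puncturedDisc.mpr ⟨h1, h2⟩
    filter_upwards [hnv z hz, nz_mem hi₀T hz, eventually_mem_puncturedDisc hz] with ζ h3 h4 h5
    have h6 : MvPolynomial.eval (fun j => (f ζ).rep j / (f ζ).rep i₀) (DelX b d M κ N) =
        MvPolynomial.eval (fun a => g a ζ) (DelM M κ N) :=
      eval_DelX hb fun j => (hlin j ζ h5).symm
    rw [← h6]
    intro h7
    apply h3
    unfold VanishesAt
    have h8 : (f ζ).rep = fun j => (f ζ).rep i₀ * ((f ζ).rep j / (f ζ).rep i₀) := by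
      funext j
      field_simp
    rw [h8, Pool.Agent.H17.eval_smul_of_isHomogeneous hk, h7, mul_zero]
  have hcongr : ∀ j, ∀ z ∈ puncturedDisc,
      lin (l j) g =ᶠ[𝓝[≠] z] fun z => ((f z).rep j / (f z).rep i₀) ^ d := by
    intro j z hz
    filter_upwards [eventually_mem_puncturedDisc hz] with ζ hζ
    exact hlin j ζ hζ
  have hin : ∀ j ∈ nzSet f, MeroPunct 1 (lin (l j) g) := by
    intro j hj
    have h0 := quot_meroPunct hf hj hi₀T
    refine ⟨fun z h1 h2 => ?_, fun z h1 h2 => ?_⟩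
    · have hz := mem_puncturedDisc.mpr ⟨h1, h2⟩
      exact ((quot_mero hf j i₀ hz).fun_pow d).congr (hcongr j z hz).symm
    · have hz := mem_puncturedDisc.mpr ⟨h1, h2⟩
      rw [meromorphicOrderAt_congr (hcongr j z hz)]
      rw [meromorphicOrderAt_ne_top_iff_eventually_ne_zero ((quot_mero hf j i₀ hz).fun_pow d)]
      filter_upwards [nz_mem hj hz, nz_mem hi₀T hz] with w h3 h4
      exact pow_ne_zero _ (div_ne_zero h3 h4)
  have hout : ∀ j, j ∉ nzSet f → ∀ z, 0 < ‖z‖ → ‖z‖ < 1 →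
      ∀ᶠ ζ in 𝓝[≠] z, lin (l j) g ζ = 0 := by
    intro j hj z h1 h2
    have hz := mem_puncturedDisc.mpr ⟨h1, h2⟩
    filter_upwards [eventually_mem_puncturedDisc hz] with ζ hζ
    rw [hlin j ζ hζ, nz_notMem hf hj hζ, zero_div, zero_pow hd0]
  have hmem : ∀ j, MeroPunct 1 (lin (l j) g) → j ∈ nzSet f := by
    intro j hj
    by_contra hcon
    have h1 := mem_puncturedDisc.mp hz₀
    exact hj.ord z₀ h1.1 h1.2 (meromorphicOrderAt_eq_top_iff.mpr (hout j hcon z₀ h1.1 h1.2))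
  have hcore := core_analytic h (R₀ := 1) one_pos (g := g) hgm hΔ (fun i => by
      by_cases hi : i ∈ nzSet f
      · exact Or.inl (hin i hi)
      · exact Or.inr (hout i hi)) (i₀ := i₀) (by
      intro z h1 h2
      have hz := mem_puncturedDisc.mpr ⟨h1, h2⟩
      filter_upwards [eventually_mem_puncturedDisc hz, nz_mem hi₀T hz] with ζ h3 h4
      rw [hlin i₀ ζ h3, div_self h4, one_pow]) (by
      intro j hj s h1 h2 μ hμ1 hμ2
      have hs := mem_puncturedDisc.mpr ⟨h1, h2⟩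
      obtain ⟨o, -, ho⟩ := ord_quot hf hs
      have hord : ∀ j ∈ nzSet f, ordZ (lin (l j) g) s = d * (o j - o i₀) := by
        intro j hj
        have h3 := meromorphicOrderAt_congr (hcongr j s hs)
        have h4 : meromorphicOrderAt (fun z => ((f z).rep j / (f z).rep i₀) ^ d) s =
            d * meromorphicOrderAt (fun z => (f z).rep j / (f z).rep i₀) s :=
          fun_meromorphicOrderAt_pow (quot_mero hf j i₀ hs)
        rw [h4, ← Pool.Agent.H92.GGL.ordZ_cast ((hin j hj).ord s h1 h2),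
          ← Pool.Agent.H92.GGL.ordZ_cast ((quot_meroPunct hf hj hi₀T).ord s h1 h2),
          ho j hj i₀ hi₀T] at h3
        exact_mod_cast h3
      obtain ⟨i, hi1, hi2⟩ := hμ2
      have h3 := hμ1 j hj
      rw [← hi2, hord j (hmem j hj), hord i (hmem i hi1)] at h3
      rw [← hi2, hord j (hmem j hj), hord i (hmem i hi1)]
      have hd' : (2 : ℤ) ≤ d := by exact_mod_cast hd
      rcases lt_trichotomy (o j) (o i) with h4 | h4 | h4
      · exfalso
        nlinarith
      · left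
        rw [h4]
      · right
        nlinarith)
  refine Pool.Agent.H62.FC.exists_extension hf (i₀ := i₀) ?_ ?_
  · filter_upwards [eventually_puncturedDisc_zero] with z hz
    exact nz_mem hi₀T hz
  · intro i
    by_cases hi : i ∈ nzSet f
    · refine PunctMero.root one_pos (quot_meroPunct hf hi hi₀T) (M := d) (by omega) ?_
      refine (hcore i).congr ?_
      filter_upwards [eventually_puncturedDisc_zero] with z hz
      exact hcongr i z hz
    · refine (PunctMero.const 0).congr ?_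
      filter_upwards [eventually_puncturedDisc_zero] with z hzD
      filter_upwards [eventually_mem_puncturedDisc hzD] with ζ hζ
      rw [nz_notMem hf hi hζ, zero_div]

/-- Entire curves. -/
theorem brody_X (hd : 2 ≤ d) (h : Pkg l M κ N φ J c)
    (hb : ∀ (v : Fin (n + 2) → ℂ) a, v a = ∑ j, b a j * dot (l j) v) {f : ℂ → PN Nn}
    (hf : HolomorphicInto f Set.univ)
    (hfX : ∀ z, ∃ v : Fin (n + 2) → ℂ, ∀ j, (f z).rep j ^ d = dot (l j) v)
    (hne : ∃ z, ¬ VanishesAt (DelX b d M κ N) (f z)) (z w : ℂ) : f z = f w := by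
  obtain ⟨z₁, hz₁⟩ := hne
  obtain ⟨k, hk⟩ := DelX_isHomogeneous (b := b) (d := d) h
  -- a point different from `0` outside the exceptional set
  obtain ⟨w₀, hw₀, hw₀'⟩ : ∃ w, w ≠ 0 ∧ ¬ VanishesAt (DelX b d M κ N) (f w) := by
    by_cases hz0 : z₁ = 0
    · subst hz0
      obtain ⟨φ, hφ, he⟩ := hf 0 (Set.mem_univ 0)
      rcases vanish_local hφ he hk with h1 | h1
      · exact absurd h1.self_of_nhds hz₁
      · obtain ⟨w, hw1, hw2⟩ := (h1.and self_mem_nhdsWithin).exists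
        exact ⟨w, hw2, hw1⟩
    · exact ⟨z₁, hz0, hz₁⟩
  have hgh : HolomorphicInto (fun z => f (Complex.exp z⁻¹)) puncturedDisc := by
    refine Pool.Agent.H17.HolomorphicInto.comp hf (u := fun z => Complex.exp z⁻¹) ?_
      (fun _ _ => Set.mem_univ _)
    intro z hz
    have h1 : z ≠ 0 := hz.2
    exact (analyticAt_inv h1).cexp
  obtain ⟨g, hg, hge⟩ := picard_X hd h hb hgh (fun z _ => hfX _) (by
    obtain ⟨zs, h1, h2⟩ := Pool.Agent.H99.Cover.exists_seq_exp_inv w₀ hw₀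
    obtain ⟨n, h3, h4⟩ := (h2.and (h1.eventually (Metric.ball_mem_nhds (0 : ℂ) one_pos))).exists
    refine ⟨zs n, ⟨h4, h3.1⟩, ?_⟩
    rw [h3.2]
    exact hw₀')
  exact const_of_extension hf hg hge z w

end

end Pool.Agent.H5.DG
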