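import Mathlib

/-!
# Project DG: definitions

`N (v; u)` is a polynomial in `u` whose coefficients are forms of degree `κ` in
`v 0, …, v (n + 1)`; for fixed `u` it is a product of linear forms in `v`, the points of a curve of
degree `κ` in the dual space that lie over `u`.
-/

open MvPolynomial Polynomial

noncomputable section

namespace Pool.Agent.H5.DG

/-- Polynomials in the coordinates `v 0, …, v (n + 1)`. -/
abbrev PV (n : ℕ) := MvPolynomial (Fin (n + 2)) ℂ

/-- Polynomials in `v` and `w`. -/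
abbrev PVW (n : ℕ) := MvPolynomial (Fin (n + 2) ⊕ Fin (n + 2)) ℂ

section

variable {n : ℕ} {L : Type} [Field L] [Algebra ℂ L]

/-- The product `∑ t a * v a`. -/
def dot {m : ℕ} (t v : Fin m → L) : L := ∑ a, t a * v a

/-- A complex point regarded as a point with coordinates in `L`. -/
def toL (L : Type) [Field L] [Algebra ℂ L] {m : ℕ} (t : Fin m → ℂ) : Fin m → L :=
  fun a => algebraMap ℂ L (t a)

/-- The polynomial `N (v; ·)`. -/
def atV (N : (PV n)[X]) (v : Fin (n + 2) → L) : L[X] :=
  N.map (MvPolynomial.aeval v : PV n →ₐ[ℂ] L).toRingHom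

/-- The value `N (v; u)`. -/
def val (N : (PV n)[X]) (v : Fin (n + 2) → L) (u : L) : L := (atV N v).eval u

/-- The derivative of `N` in the direction of the variable `v a`. -/
def dN (a : Fin (n + 2)) (N : (PV n)[X]) : (PV n)[X] :=
  ∑ i ∈ N.support, Polynomial.monomial i (pderiv a (N.coeff i))

/-- The points of the curve with coordinates in `L`: the linear forms `t` with `t 0 = 1` such that
`N (·; t 1)` vanishes on the kernel of `t`. -/
def Gam (N : (PV n)[X]) (L : Type) [Field L] [Algebra ℂ L] : Set (Fin (n + 2) → L) :=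
  {t | t 0 = 1 ∧ ∀ w : Fin (n + 2) → L, dot t w = 0 → val N w (t 1) = 0}

/-- The point of the curve over the root `u` of `N (v; ·)`. -/
def tpt (N : (PV n)[X]) (v : Fin (n + 2) → L) (u : L) : Fin (n + 2) → L :=
  fun a => val (dN a N) v u / val (dN 0 N) v u

open Classical in
/-- The set of the roots of `N (v; ·)`. -/
def rts (N : (PV n)[X]) (v : Fin (n + 2) → L) : Finset L := (atV N v).roots.toFinset

/-- The value of a polynomial in `v` and `w`. -/
def evVW (φ : PVW n) (v w : Fin (n + 2) → L) : L := MvPolynomial.aeval (Sum.elim v w) φ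

end

section

variable {n : ℕ}

/-- The resultant of `N` and its derivative in the direction `w`, as a polynomial in `v` and `w`. -/
def resW (κ : ℕ) (N : (PV n)[X]) : PVW n :=
  Polynomial.resultant (N.map (MvPolynomial.rename Sum.inl : PV n →ₐ[ℂ] PVW n).toRingHom)
    (∑ a, Polynomial.C (MvPolynomial.X (Sum.inr a)) *
      (dN a N).map (MvPolynomial.rename Sum.inl : PV n →ₐ[ℂ] PVW n).toRingHom) κ κ

/-- The resultant of `N` and `∂N/∂v₀`. -/
def res0 (κ : ℕ) (N : (PV n)[X]) : PV n := Polynomial.resultant N (dN 0 N) κ κ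

/-- The exceptional polynomial. -/
def Del (κ : ℕ) (N : (PV n)[X]) : PV n :=
  N.coeff κ * res0 κ N * Polynomial.resultant N (Polynomial.derivative N) κ κ

/-- `N` is a norm form of degree `κ`. -/
structure IsNormForm (κ : ℕ) (N : (PV n)[X]) : Prop where
  irred : Irreducible N
  hom : ∀ i, (N.coeff i).IsHomogeneous κ
  deg : ∀ i, ∀ α ∈ (N.coeff i).support, α 0 + i ≤ κ
  split : ∀ (L : Type) [Field L] [Algebra ℂ L] [IsAlgClosed L] (u : L),
    ∃ t : Fin κ → Fin (n + 2) → L, (∀ s, t s 0 = 1 ∧ t s 1 = u) ∧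
      ∀ w : Fin (n + 2) → L, val N w u = ∏ s, dot (t s) w

/-- `F` has the properties of a norm form, except for the irreducibility. -/
structure IsPreNorm (k : ℕ) (F : (PV n)[X]) : Prop where
  hom : ∀ i, (F.coeff i).IsHomogeneous k
  deg : ∀ i, ∀ α ∈ (F.coeff i).support, α 0 + i ≤ k
  split : ∀ (L : Type) [Field L] [Algebra ℂ L] [IsAlgClosed L] (u : L),
    ∃ t : Fin k → Fin (n + 2) → L, (∀ s, t s 0 = 1 ∧ t s 1 = u) ∧
      ∀ w : Fin (n + 2) → L, val F w u = ∏ s, dot (t s) w

/-- `N (w; ·)` is not the zero polynomial if `w` is a non-zero complex vector. -/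
def Nondeg (N : (PV n)[X]) : Prop := ∀ w : Fin (n + 2) → ℂ, w ≠ 0 → atV N w ≠ 0

/-- `φ` is the Chow form of the curve. -/
structure IsChow (κ : ℕ) (N : (PV n)[X]) (φ : PVW n) : Prop where
  eq : MvPolynomial.rename Sum.inl (N.coeff κ) * resW κ N = φ * MvPolynomial.rename Sum.inl (res0 κ N)
  dvd : ∀ p ∈ Gam N ℂ, ∀ w : Fin (n + 2) → ℂ, dot p w = 0 → ∃ ψ : PV n,
    MvPolynomial.aeval (Sum.elim MvPolynomial.X fun a => MvPolynomial.C (w a)) φ =
      (∑ a, MvPolynomial.C (p a) * MvPolynomial.X a) * ψ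

/-- The coefficient of `ε ^ e` in `φ (v, w + ε e₀)`. -/
def Phi (φ : PVW n) (e : ℕ) : PVW n :=
  (MvPolynomial.aeval (Sum.elim (fun a => Polynomial.C (MvPolynomial.X (Sum.inl a)))
    fun a => Polynomial.C (MvPolynomial.X (Sum.inr a)) +
      if a = 0 then (Polynomial.X : (PVW n)[X]) else 0) φ : (PVW n)[X]).coeff e

/-- Any `n + 2` of the forms `l j` are linearly independent. -/
def GenPos {m n : ℕ} (l : Fin m → Fin (n + 2) → ℂ) : Prop :=
  ∀ s : Fin (n + 2) → Fin m, Function.Injective s → LinearIndependent ℂ fun i => l (s i)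

/-- The value of a polynomial in `u` and `x 0, …, x (n - 1)`. -/
def evG {L : Type} [Field L] [Algebra ℂ L] (G : MvPolynomial (Fin (n + 1)) ℂ) (u : L)
    (x : Fin n → L) : L := MvPolynomial.aeval (Fin.cons u x : Fin (n + 1) → L) G

/-- The equations `x i ^ a i = g i (u, x)`, in coordinates `u = y 0`, `x i = y (i + 1)`. The weights
`W i` guarantee that the monomials with exponents less than `a i` form a basis of the coordinate
ring over `ℂ[u]`. -/
structure IsSystem (a W : Fin n → ℕ) (g : Fin n → MvPolynomial (Fin (n + 1)) ℂ) : Prop where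
  a_pos : ∀ i, 1 ≤ a i
  W_pos : ∀ i, 1 ≤ W i
  deg : ∀ i, (g i).totalDegree ≤ a i
  weight : ∀ i, ∀ γ ∈ (g i).support, ∑ j : Fin n, γ j.succ * W j < a i * W i

end

end Pool.Agent.H5.DG
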