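import Pool.Agent.H5.DG.Defs

/-!
# Project DG, Part A: definitions
-/

noncomputable section

namespace Pool.Agent.H5.DG

/-- The ideal generated by the polynomials `x i ^ a i - g i`. -/
def sysIdeal {R : Type} [CommRing R] {m : ℕ} (a : Fin m → ℕ)
    (g : Fin m → MvPolynomial (Fin m) R) : Ideal (MvPolynomial (Fin m) R) :=
  Ideal.span (Set.range fun i => MvPolynomial.X i ^ a i - g i)

/-- The exponents of the monomials of the basis. -/
abbrev Idx {m : ℕ} (a : Fin m → ℕ) : Type := (i : Fin m) → Fin (a i)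

/-- A polynomial in `u, x 0, …, x (n - 1)` regarded as a polynomial in `x` over `ℂ[u]`. -/
def toX {n : ℕ} (G : MvPolynomial (Fin (n + 1)) ℂ) : MvPolynomial (Fin n) (Polynomial ℂ) :=
  MvPolynomial.aeval (Fin.cons (MvPolynomial.C Polynomial.X) MvPolynomial.X :
    Fin (n + 1) → MvPolynomial (Fin n) (Polynomial ℂ)) G

/-- The determinant of `v 0 + v 1 u + ∑ v (i + 2) U i`. -/
def NA {n : ℕ} {ι : Type} [Fintype ι] [DecidableEq ι] (U : Fin n → Matrix ι ι (Polynomial ℂ)) :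
    Polynomial (PV n) :=
  Matrix.det (Matrix.of fun α β : ι =>
    (if α = β then Polynomial.C (MvPolynomial.X 0) +
      Polynomial.C (MvPolynomial.X 1) * Polynomial.X else 0) +
    ∑ i : Fin n, Polynomial.C (MvPolynomial.X i.succ.succ) *
      (U i α β).map MvPolynomial.C)

/-- `y` is a common eigenvector of the matrices `U i` at `u`, with eigenvalues `x i`. -/
def Eig {n : ℕ} {ι : Type} [Fintype ι] {L : Type} [Field L] [Algebra ℂ L]
    (U : Fin n → Matrix ι ι (Polynomial ℂ)) (u : L) (x : Fin n → L) (y : ι → L) : Prop :=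
  y ≠ 0 ∧ ∀ i α, ∑ β, Polynomial.aeval u (U i α β) * y β = x i * y α

/-- The points `s q` of `ℂ^(n+1)` satisfy equations `y (i + 1) ^ δ i = g i (y)`, where `g i` involves
only `y 0, …, y (i + 1)` and has degree less than `δ i` in `y (i + 1)`, for all `i` with
`m ≤ i + 1`. -/
structure Lvl {n : ℕ} {ι : Type} (m : ℕ) (δ : Fin n → ℕ) (g : Fin n → MvPolynomial (Fin (n + 1)) ℂ)
    (s : ι → Fin (n + 1) → ℂ) : Prop where
  pos : ∀ i : Fin n, m ≤ (i : ℕ) + 1 → 1 ≤ δ i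
  deg : ∀ i : Fin n, m ≤ (i : ℕ) + 1 → (g i).totalDegree ≤ δ i
  tri : ∀ i : Fin n, m ≤ (i : ℕ) + 1 → ∀ γ ∈ (g i).support,
    (∀ j : Fin (n + 1), i.succ < j → γ j = 0) ∧ γ i.succ < δ i
  eq : ∀ i : Fin n, m ≤ (i : ℕ) + 1 → ∀ q, s q i.succ ^ δ i = MvPolynomial.eval (s q) (g i)

/-- The conclusion of the interpolation theorem. -/
def Good {n : ℕ} {ι : Type} (ρ : ℕ) (s : ι → Fin (n + 1) → ℂ) : Prop :=
  ∃ (M : Matrix (Fin (n + 1)) (Fin (n + 1)) ℂ) (a W : Fin n → ℕ)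
    (g : Fin n → MvPolynomial (Fin (n + 1)) ℂ) (S : Finset ι),
    IsUnit M.det ∧ IsSystem a W g ∧ ρ * ∏ i, a i < S.card ∧
      ∀ q ∈ S, ∀ i : Fin n, (M.mulVec (s q)) i.succ ^ a i = MvPolynomial.eval (M.mulVec (s q)) (g i)

/-- The exponents of the monomials in `y 0, …, y (m - 1)` of degree at most `b` in each of these
variables. -/
def Box (n m b : ℕ) : Set (Fin (n + 1) →₀ ℕ) :=
  {γ | ∀ j : Fin (n + 1), γ j ≤ b ∧ (m ≤ (j : ℕ) → γ j = 0)}

end Pool.Agent.H5.DG
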