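import Pool.Agent.H5.DG.Defs

/-!
# Project DG, Part C: definitions
-/

open MvPolynomial Polynomial

noncomputable section

namespace Pool.Agent.H5.DG

section

variable {n : ℕ} {L : Type} [Field L] [Algebra ℂ L]

open Classical in
/-- The roots of `N (v; ·)` which do not belong to the points in `T`. -/
def outs (N : (PV n)[X]) (v : Fin (n + 2) → L) (T : Finset (Fin (n + 2) → ℂ)) : Finset L :=
  (rts N v).filter fun u => ∀ τ ∈ T, algebraMap ℂ L (τ 1) ≠ u

end

/-- The maximum of the values of the coordinates. -/
def vn {L : Type} [Field L] {Γ₀ : Type} [LinearOrderedCommGroupWithZero Γ₀] (ν : Valuation L Γ₀)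
    {k : ℕ} (x : Fin k → L) : Γ₀ := Finset.univ.sup fun a => ν (x a)

end Pool.Agent.H5.DG
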