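import Pool.Agent.H5.DG.EGenA
import Pool.Agent.H5.DG.CovAlg

/-!
# Project DG, module EGen: closed subvarieties of covers are of log general type
-/

open MvPolynomial
open Pool.Agent.H17LG.Variety (FunField ratio)
open Pool.Agent.H17GT (coordFun functionField)
open Pool.Agent.H92.GT (exists_index)
open Pool.Agent.H92.GT.Proj (exists_coordFun_ne_zero proj_point)

noncomputable section

namespace Pool.Agent.H5.DG

/-- The generic point, normalised at a coordinate. -/
private def EG_x {Nn : ℕ} (P : Ideal (MvPolynomial (Fin (Nn + 1)) ℂ)) [P.IsPrime]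
    (j₀ : Fin (Nn + 1)) (i : Fin (Nn + 1)) : functionField P := ratio P i j₀

private theorem EG_x_ratio {Nn : ℕ} (P : Ideal (MvPolynomial (Fin (Nn + 1)) ℂ)) [P.IsPrime]
    {j₀ : Fin (Nn + 1)} (hj₀ : coordFun P j₀ ≠ 0) (j : Fin (Nn + 1)) :
    (fun i => (EG_x P j₀ j)⁻¹ * EG_x P j₀ i) = fun i => ratio P i j := by
  funext i
  rw [← div_eq_inv_mul]
  exact ((EG_point P hj₀).1 i j).symm

private theorem EG_onForms {Nn m k : ℕ} (P : Ideal (MvPolynomial (Fin (Nn + 1)) ℂ)) [P.IsPrime]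
    {j₀ : Fin (Nn + 1)} (hj₀ : coordFun P j₀ ≠ 0) (O : Finset (Fin m))
    (H : Fin m → MvPolynomial (Fin (Nn + 1)) ℂ)
    (E : H23.PrimeDivisorOver (functionField P) k) {j : Fin (Nn + 1)} (hj : EG_x P j₀ j ≠ 0)
    (h0 : ∀ i, 0 ≤ E.ord ((EG_x P j₀ j)⁻¹ * EG_x P j₀ i)) {i : Fin m} (hi : i ∈ O)
    (h1 : 0 < E.ord (aeval (fun i => (EG_x P j₀ j)⁻¹ * EG_x P j₀ i) (H i))) :
    OnForms P O H (H23.toFano E) := by
  refine ⟨j, ?_, fun i' => ?_, i, hi, ?_⟩
  · intro h0
    apply hj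
    apply Subtype.ext
    show coordFun P j / coordFun P j₀ = 0
    rw [h0, zero_div]
  · have := h0 i'
    rw [congrFun (EG_x_ratio P hj₀ j) i'] at this
    exact this
  · rw [EG_x_ratio P hj₀ j] at h1
    exact h1

private theorem EG_x_facts {Nn : ℕ} (P : Ideal (MvPolynomial (Fin (Nn + 1)) ℂ)) [P.IsPrime]
    {j₀ : Fin (Nn + 1)} (hj₀ : coordFun P j₀ ≠ 0) :
    EG_x P j₀ j₀ = 1 ∧
      Algebra.IsAlgebraic (IntermediateField.adjoin ℂ (Set.range (EG_x P j₀)))
        (functionField P) ∧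
      ∀ (k : ℕ) (G : MvPolynomial (Fin (Nn + 1)) ℂ), G.IsHomogeneous k →
        (aeval (EG_x P j₀) G = 0 ↔ G ∈ P) := by
  obtain ⟨-, hgen, hker⟩ := EG_point P hj₀
  refine ⟨?_, ?_, fun k G hG => hker k G hG⟩
  · apply Subtype.ext
    exact div_self hj₀
  · have hgen' : IntermediateField.adjoin ℂ (Set.range (EG_x P j₀)) = ⊤ := hgen
    rw [hgen']
    exact ⟨fun f => isAlgebraic_algebraMap (⟨f, IntermediateField.mem_top⟩ :
      (⊤ : IntermediateField ℂ (functionField P)))⟩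

private theorem EG_prop {n Nn e w : ℕ} (P : Ideal (MvPolynomial (Fin (Nn + 1)) ℂ)) [P.IsPrime]
    (hP : Homog P) {F : Fin (n + 2) → MvPolynomial (Fin (Nn + 1)) ℂ} (hF : BaseFree P e F)
    {j₀ : Fin (Nn + 1)} (hj₀ : coordFun P j₀ ≠ 0) {z : Fin (w + 1) → functionField P}
    (hz : IsTranscendenceBasis ℂ z) :
    ¬ ∃ (y : Fin (n + 2) → ℂ) (f : functionField P), ∀ a,
      aeval (EG_x P j₀) (F a) = algebraMap ℂ (functionField P) (y a) * f := by
  obtain ⟨a₀, ha₀, halgF⟩ := fun_algebraic P hP hF hj₀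
  rintro ⟨y, f, hy⟩
  set V : Fin (n + 2) → functionField P := fun a => aeval (EG_x P j₀) (F a) with hV
  have halg' : Algebra.IsAlgebraic
      (IntermediateField.adjoin ℂ (Set.range fun a => V a / V a₀)) (functionField P) := halgF
  have hV0 : V a₀ ≠ 0 := ha₀
  have hf0 : f ≠ 0 := by
    rintro rfl
    apply hV0
    rw [hV]
    simp only
    rw [hy a₀, mul_zero]
  have h3 : ∀ a, V a / V a₀ = algebraMap ℂ (functionField P) (y a / y a₀) := by
    intro a
    rw [hV]
    simp only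
    rw [hy a, hy a₀, map_div₀, mul_div_mul_right _ _ hf0]
  have h4 : Algebra.IsAlgebraic ℂ (IntermediateField.adjoin ℂ
      (Set.range fun a => V a / V a₀)) := by
    apply IntermediateField.isAlgebraic_adjoin
    rintro _ ⟨a, rfl⟩
    simp only
    rw [h3 a]
    exact isIntegral_algebraMap
  have h5 : Algebra.IsAlgebraic ℂ (functionField P) :=
    Algebra.IsAlgebraic.trans ℂ (IntermediateField.adjoin ℂ
      (Set.range fun a => V a / V a₀)) (functionField P)
  exact hz.1.transcendental 0 (h5.isAlgebraic _)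

/-- **Closed subvarieties of covers are of log general type.** -/
theorem alg_cover {n Nn κ m e : ℕ} {l : Fin m → Fin (n + 2) → ℂ}
    {M : Matrix (Fin (n + 2)) (Fin (n + 2)) ℂ} {N : Polynomial (PV n)} {φ : PVW n}
    {J : Finset (Fin m)} {c : Fin m → ℂ} (h : Pkg l M κ N φ J c)
    {F : Fin (n + 2) → MvPolynomial (Fin (Nn + 1)) ℂ}
    (P : Ideal (MvPolynomial (Fin (Nn + 1)) ℂ)) [P.IsPrime] (hP : Homog P)
    (hF : BaseFree P e F) (O : Finset (Fin m)) (hO : ∀ j ∈ O, comb (l j) F ∉ P)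
    (hram : ∀ j ∉ O, Ram P (comb (l j) F)) (hΔ : aeval F (DelM M κ N) ∉ P) {w : ℕ} (hw : 1 ≤ w)
    (hz : ∃ z : Fin w → FunField P, IsTranscendenceBasis ℂ z) :
    H17LG.Variety.IsLogGeneralType (K := FunField P) (k := w)
      (OnForms P O fun j => comb (l j) F) := by
  have hwn : w ≤ n + 1 := dim_le P hP hF hz
  obtain ⟨k, rfl⟩ : ∃ k, w = k + 1 := ⟨w - 1, by omega⟩
  obtain ⟨z, hz⟩ := hz
  obtain ⟨j₀, hj₀⟩ := exists_coordFun_ne_zero P (k := k) z hz
  obtain ⟨hx1, halg, hker⟩ := EG_x_facts P hj₀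
  have hess : Algebra.EssFiniteType ℂ (functionField P) := H17GT.essFiniteType_functionField P
  obtain ⟨I, hI⟩ := exists_index halg (z := z) hz
  have hprop := EG_prop P hP hF hj₀ hI
  refine H17LG.isLogGeneralType_translate (K := functionField P)
    (B := fun E => OnForms P O (fun j => comb (l j) F) (H23.toFano E)) (fun E => Iff.rfl) ?_
  exact EG_core (K := functionField P) h P hP hF O hram hΔ hx1 halg hker hprop (by omega) hI _
    fun E hE j₁ hj₁ h0 j hjO hpos => hE (EG_onForms P hj₀ O _ E hj₁ h0 hjO hpos)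

end Pool.Agent.H5.DG
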