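import Pool.Agent.H5.DG.DefsA

/-!
# Project DG, A3: products of norm polynomials

`preNorm_mul`: homogeneity and the degree condition are multiplicative; `split`: `Fin.append`.
`preNorm_unique`: evaluate at `w = x e₀`: `x ^ κ = x ^ κ'` for all `x ∈ ℂ` (`F` is determined up to
the constant `c`). `gam_mul`: `p ∈ Gam (G * H) ℂ`: on the kernel of `p` (the vectors `(- ∑_{a ≥ 1} p a w a, w)`) the product of
the two polynomial functions `val G · (p 1)` and `val H · (p 1)` vanishes, so one of them vanishes.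
-/

open MvPolynomial

noncomputable section

namespace Pool.Agent.H5.DG

variable {n : ℕ}

private theorem facMul_val_mul {L : Type} [Field L] [Algebra ℂ L] (F G : Polynomial (PV n))
    (w : Fin (n + 2) → L) (u : L) : val (F * G) w u = val F w u * val G w u := by
  simp [val, atV, Polynomial.map_mul]

private theorem facMul_val_one {L : Type} [Field L] [Algebra ℂ L]
    (w : Fin (n + 2) → L) (u : L) : val (1 : Polynomial (PV n)) w u = 1 := by
  simp [val, atV]

private theorem facMul_val_C {L : Type} [Field L] [Algebra ℂ L] (c : ℂ)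
    (w : Fin (n + 2) → L) (u : L) :
    val (Polynomial.C (MvPolynomial.C c) : Polynomial (PV n)) w u = algebraMap ℂ L c := by
  simp [val, atV]

private theorem facMul_dot_single {L : Type} [Field L] {m : ℕ} (t : Fin (m + 1) → L) (x : L) :
    dot t (Pi.single 0 x) = t 0 * x := by
  simp [dot, Pi.single_apply]

private theorem facMul_val_single {k : ℕ} {F : Polynomial (PV n)} (hF : IsPreNorm k F) (x : ℂ) :
    val F (Pi.single 0 x : Fin (n + 2) → ℂ) 0 = x ^ k := by
  obtain ⟨t, ht, h⟩ := hF.split ℂ 0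
  rw [h]
  simp only [facMul_dot_single, (ht _).1, one_mul, Finset.prod_const, Finset.card_univ,
    Fintype.card_fin]

theorem preNorm_mul {k k' : ℕ} {F F' : Polynomial (PV n)} (hF : IsPreNorm k F)
    (hF' : IsPreNorm k' F') : IsPreNorm (k + k') (F * F') := by
  classical
  refine ⟨?_, ?_, ?_⟩
  · intro i
    rw [Polynomial.coeff_mul]
    exact MvPolynomial.IsHomogeneous.sum _ _ _ fun p _ => (hF.hom p.1).mul (hF'.hom p.2)
  · intro i α hα
    rw [Polynomial.coeff_mul] at hα
    obtain ⟨p, hp, hα⟩ : ∃ p ∈ Finset.HasAntidiagonal.antidiagonal i,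
        α ∈ (F.coeff p.1 * F'.coeff p.2).support := by
      by_contra hcon
      push Not at hcon
      rw [MvPolynomial.mem_support_iff, MvPolynomial.coeff_sum] at hα
      exact hα (Finset.sum_eq_zero fun p hp => by
        simpa [MvPolynomial.mem_support_iff] using hcon p hp)
    have h2 := MvPolynomial.support_mul _ _ hα
    rw [Finset.mem_add] at h2
    obtain ⟨β, hβ, γ, hγ, rfl⟩ := h2
    have h3 := hF.deg p.1 β hβ
    have h4 := hF'.deg p.2 γ hγ
    rw [Finset.HasAntidiagonal.mem_antidiagonal] at hp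
    rw [Finsupp.add_apply]
    omega
  · intro L _ _ _ u
    obtain ⟨t, ht, h⟩ := hF.split L u
    obtain ⟨t', ht', h'⟩ := hF'.split L u
    refine ⟨Fin.append t t', ?_, ?_⟩
    · intro s
      refine Fin.addCases (fun i => ?_) (fun i => ?_) s
      · rw [Fin.append_left]
        exact ht i
      · rw [Fin.append_right]
        exact ht' i
    · intro w
      rw [facMul_val_mul, h, h', Fin.prod_univ_add]
      simp only [Fin.append_left, Fin.append_right]

theorem preNorm_one : IsPreNorm 0 (1 : Polynomial (PV n)) := by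
  refine ⟨?_, ?_, ?_⟩
  · intro i
    rw [Polynomial.coeff_one]
    split_ifs
    · exact MvPolynomial.isHomogeneous_one _ _
    · exact MvPolynomial.isHomogeneous_zero _ _ _
  · intro i α hα
    rw [Polynomial.coeff_one] at hα
    split_ifs at hα with hi
    · rw [MvPolynomial.mem_support_iff, MvPolynomial.coeff_one] at hα
      have : (0 : Fin (n + 2) →₀ ℕ) = α := by
        by_contra hne
        exact hα (if_neg hne)
      subst this
      simp [hi]
    · simp at hα
  · intro L _ _ _ u
    refine ⟨fun s => s.elim0, fun s => s.elim0, ?_⟩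
    intro w
    rw [facMul_val_one]
    simp

theorem preNorm_unique {k k' : ℕ} {F : Polynomial (PV n)} {c : ℂ} (hF : IsPreNorm k F)
    (hF' : IsPreNorm k' (Polynomial.C (MvPolynomial.C c) * F)) : k = k' ∧ c = 1 := by
  have key : ∀ x : ℂ, c * x ^ k = x ^ k' := by
    intro x
    have h1 := facMul_val_single hF' x
    rw [facMul_val_mul, facMul_val_C, facMul_val_single hF x] at h1
    simpa using h1
  have hc : c = 1 := by simpa using key 1
  refine ⟨?_, hc⟩
  have h2 := key 2
  rw [hc, one_mul] at h2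
  have h3 : (2 : ℕ) ^ k = 2 ^ k' := by exact_mod_cast h2
  exact Nat.pow_right_injective le_rfl h3

theorem gam_mul {G H : Polynomial (PV n)} {p : Fin (n + 2) → ℂ} (h : p ∈ Gam (G * H) ℂ) :
    p ∈ Gam G ℂ ∨ p ∈ Gam H ℂ := by
  obtain ⟨hp0, hw⟩ := h
  -- the parametrisation of the kernel
  let σ : PV n →ₐ[ℂ] MvPolynomial (Fin (n + 1)) ℂ :=
    MvPolynomial.aeval (Fin.cons (-∑ a : Fin (n + 1), C (p a.succ) * X a) X :
      Fin (n + 2) → MvPolynomial (Fin (n + 1)) ℂ)
  let τ : Polynomial (PV n) → MvPolynomial (Fin (n + 1)) ℂ := fun F =>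
    σ (Polynomial.eval (C (p 1)) F)
  have hτ : ∀ F : Polynomial (PV n), ∀ w : Fin (n + 2) → ℂ, dot p w = 0 →
      val F w (p 1) = eval (fun a => w a.succ) (τ F) := by
    intro F w hw0
    have hw1 : w 0 = -∑ a : Fin (n + 1), p a.succ * w a.succ := by
      have h1 : dot p w = p 0 * w 0 + ∑ a : Fin (n + 1), p a.succ * w a.succ := by
        rw [dot, Fin.sum_univ_succ]
      rw [h1, hp0, one_mul] at hw0
      linear_combination hw0
    have hcomp : (MvPolynomial.aeval (fun a => w a.succ) : MvPolynomial (Fin (n + 1)) ℂ →ₐ[ℂ] ℂ).comp σ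
        = MvPolynomial.aeval w := by
      apply MvPolynomial.algHom_ext
      intro a
      refine Fin.cases ?_ (fun b => ?_) a
      · simp [σ, hw1]
      · simp [σ]
    have h2 : eval (fun a => w a.succ) (τ F) =
        MvPolynomial.aeval w (Polynomial.eval (C (p 1)) F) := by
      rw [← hcomp]
      simp [τ, MvPolynomial.aeval_eq_eval]
    rw [h2, val, atV]
    have h3 := Polynomial.eval_map (MvPolynomial.aeval w : PV n →ₐ[ℂ] ℂ).toRingHom (p := F) (p 1)
    rw [h3]
    have h4 := Polynomial.hom_eval₂ F (RingHom.id _) (MvPolynomial.aeval w : PV n →ₐ[ℂ] ℂ).toRingHom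
      (C (p 1))
    rw [RingHom.comp_id] at h4
    have h5 : (MvPolynomial.aeval w : PV n →ₐ[ℂ] ℂ).toRingHom (C (p 1)) = p 1 := by
      simp
    rw [h5] at h4
    rw [← h4]
    rfl
  have hzero : τ (G * H) = 0 := by
    apply MvPolynomial.funext
    intro y
    let w : Fin (n + 2) → ℂ := Fin.cons (-∑ a : Fin (n + 1), p a.succ * y a) y
    have hw0 : dot p w = 0 := by
      rw [dot, Fin.sum_univ_succ]
      simp [w, hp0]
    have h1 := hτ (G * H) w hw0
    rw [hw w hw0] at h1
    have h2 : (fun a : Fin (n + 1) => w a.succ) = y := by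
      funext a
      simp [w]
    rw [h2] at h1
    rw [← h1, map_zero]
  have hmul : τ (G * H) = τ G * τ H := by
    simp [τ, Polynomial.eval_mul, map_mul]
  rw [hmul] at hzero
  rcases mul_eq_zero.1 hzero with h0 | h0
  · left
    refine ⟨hp0, fun w hw0 => ?_⟩
    rw [hτ G w hw0, h0, map_zero]
  · right
    refine ⟨hp0, fun w hw0 => ?_⟩
    rw [hτ H w hw0, h0, map_zero]

theorem gam_smul {G : Polynomial (PV n)} {p : Fin (n + 2) → ℂ} {c : ℂ} (hc : c ≠ 0) :
    p ∈ Gam (Polynomial.C (MvPolynomial.C c) * G) ℂ ↔ p ∈ Gam G ℂ := by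
  have h : ∀ w : Fin (n + 2) → ℂ, val (Polynomial.C (MvPolynomial.C c) * G) w (p 1) = 0 ↔
      val G w (p 1) = 0 := by
    intro w
    rw [facMul_val_mul, facMul_val_C]
    simp [hc]
  simp only [Gam, Set.mem_ofPred_eq, h]

/-- A norm polynomial of degree `0` is `1`; one that is a unit has degree `0`. -/
theorem preNorm_zero {F : Polynomial (PV n)} (hF : IsPreNorm 0 F) : F = 1 := by
  have h1 : ∀ i, i ≠ 0 → F.coeff i = 0 := by
    intro i hi
    rw [← MvPolynomial.support_eq_empty, Finset.eq_empty_iff_forall_notMem]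
    intro α hα
    have := hF.deg i α hα
    omega
  have h2 : ∃ a : ℂ, F.coeff 0 = C a := by
    refine ⟨MvPolynomial.coeff 0 (F.coeff 0), ?_⟩
    apply MvPolynomial.totalDegree_eq_zero_iff_eq_C.1
    by_cases h0 : F.coeff 0 = 0
    · simp [h0]
    · exact (hF.hom 0).totalDegree h0
  obtain ⟨a, ha⟩ := h2
  have h3 : F = Polynomial.C (C a) := by
    ext1 i
    by_cases hi : i = 0
    · subst hi
      rw [ha, Polynomial.coeff_C_zero]
    · rw [h1 i hi, Polynomial.coeff_C_of_ne_zero hi]
  have h4 := facMul_val_single hF 1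
  rw [h3, facMul_val_C] at h4
  have h5 : a = 1 := by simpa using h4
  rw [h3, h5]
  simp

theorem preNorm_unit {k : ℕ} {F : Polynomial (PV n)} (hF : IsPreNorm k F) (hu : IsUnit F) :
    k = 0 := by
  obtain ⟨G, hG⟩ := hu.exists_right_inv
  have h1 := facMul_val_mul F G (Pi.single 0 (0 : ℂ) : Fin (n + 2) → ℂ) 0
  rw [hG, facMul_val_one, facMul_val_single hF 0] at h1
  by_contra hk
  rw [zero_pow hk, zero_mul] at h1
  exact one_ne_zero h1

theorem preNorm_ne_zero {k : ℕ} {F : Polynomial (PV n)} (hF : IsPreNorm k F) : F ≠ 0 := by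
  rintro rfl
  have h1 := facMul_val_single hF 1
  simp [val, atV] at h1

end Pool.Agent.H5.DG
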