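import Pool.Agent.H5.DG.DefsA

/-!
# Project DG, A3: divisors of a norm polynomial

`F` has the properties `IsPreNorm k F`, `F = G * H`. Then `G`, multiplied by a constant, has the properties of
`IsPreNorm κ`, for some `κ`.

Proof. (1) `G (v 0, 0, …, 0; u) * H (v 0, 0, …; u) = F (v 0, 0, …; u) = v 0 ^ k` in `ℂ[v 0, u]` (by `split` over `ℂ`), so
`G (v 0, 0, …; u) = c⁻¹ v 0 ^ κ`, `H (v 0, 0, …; u) = c v 0 ^ (k - κ)` (prime `v 0`). (2) For `u ∈ L` the polynomial
`G (·; u) ∈ L[v]` divides `F (·; u) = ∏ t_s`, a product of prime linear forms, so `G (·; u) = c' ∏_{s ∈ S} t_s`;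
evaluation at `e₀` gives `c' = c⁻¹`, comparison of `G (v 0 e₀; u)` gives `|S| = κ`. (3) Homogeneity: for all `u ∈ ℂ` the
polynomial `G (·; u)` is homogeneous of degree `κ`, so the components of other degrees of the coefficients of `G`
vanish. (4) Degrees: the ring homomorphism `s` to polynomials in one more variable `T` with `v 0 ↦ v 0 T`,
`u ↦ u T` (other variables fixed) turns `γ 0 + b` into the degree in `T`; `natDegree (s F) ≤ k`,
`natDegree (s G) ≥ κ`, `natDegree (s H) ≥ k - κ` (because of the monomials `v 0 ^ κ`, `v 0 ^ (k - κ)`), and the degrees add up.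
-/

open MvPolynomial

noncomputable section

namespace Pool.Agent.H5.DG

section FacPropsAux

variable {n : ℕ} {L : Type} [Field L] [Algebra ℂ L]

private def FP_at (u : L) : Polynomial (PV n) →+* MvPolynomial (Fin (n + 2)) L :=
  Polynomial.eval₂RingHom (MvPolynomial.map (algebraMap ℂ L)) (MvPolynomial.C u)

private lemma FP_val_eq (P : Polynomial (PV n)) (w : Fin (n + 2) → L) (u : L) :
    val P w u = Polynomial.eval₂RingHom (MvPolynomial.aeval w : PV n →ₐ[ℂ] L).toRingHom u P := by
  unfold val atV
  rw [Polynomial.eval_map, Polynomial.coe_eval₂RingHom]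

private lemma FP_eval_at (u : L) (P : Polynomial (PV n)) (w : Fin (n + 2) → L) :
    MvPolynomial.eval w (FP_at u P) = val P w u := by
  rw [FP_val_eq]
  have h : (MvPolynomial.eval w).comp (FP_at (n := n) u) =
      Polynomial.eval₂RingHom (MvPolynomial.aeval w : PV n →ₐ[ℂ] L).toRingHom u := by
    apply Polynomial.ringHom_ext'
    · apply MvPolynomial.ringHom_ext
      · intro r
        simp [FP_at]
      · intro i
        simp [FP_at]
    · simp [FP_at]
  exact congrArg (fun f => f P) h

private lemma FP_val_mul (P Q : Polynomial (PV n)) (w : Fin (n + 2) → L) (u : L) :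
    val (P * Q) w u = val P w u * val Q w u := by
  rw [FP_val_eq, FP_val_eq, FP_val_eq, map_mul]

private def FP_lin (t : Fin (n + 2) → L) : MvPolynomial (Fin (n + 2)) L :=
  ∑ a, MvPolynomial.C (t a) * MvPolynomial.X a

omit [Algebra ℂ L] in
private lemma FP_eval_lin (t w : Fin (n + 2) → L) : MvPolynomial.eval w (FP_lin t) = dot t w := by
  simp [FP_lin, dot]

omit [Algebra ℂ L] in
private lemma FP_lin_hom (t : Fin (n + 2) → L) : (FP_lin t).IsHomogeneous 1 := by
  unfold FP_lin
  apply MvPolynomial.IsHomogeneous.sum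
  intro a _
  have h := (MvPolynomial.isHomogeneous_C (Fin (n + 2)) (t a)).mul
    (MvPolynomial.isHomogeneous_X L a)
  simpa using h

omit [Algebra ℂ L] in
private lemma FP_prime (t : Fin (n + 2) → L) (h : t 0 = 1) : Prime (FP_lin t) := by
  have h1 : FP_lin t = MvPolynomial.sumSMulX (Finsupp.equivFunOnFinite.symm t) := by
    unfold FP_lin MvPolynomial.sumSMulX
    rw [Finsupp.linearCombination_apply, Finsupp.sum_fintype _ _ (by simp)]
    apply Finset.sum_congr rfl
    intro a _
    rw [MvPolynomial.smul_eq_C_mul]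
    rfl
  rw [h1]
  apply Irreducible.prime
  apply MvPolynomial.irreducible_sumSMulX
  · refine ⟨0, ?_⟩
    rw [Finsupp.mem_support_iff]
    change t 0 ≠ 0
    rw [h]
    exact one_ne_zero
  · intro r hr
    have h2 := hr 0
    change r ∣ t 0 at h2
    rw [h] at h2
    exact isUnit_of_dvd_one h2

omit [Algebra ℂ L] in
private lemma FP_dvd_prod (u : L) : ∀ (k : ℕ) (t : Fin k → Fin (n + 2) → L),
    (∀ s, t s 0 = 1 ∧ t s 1 = u) → ∀ A : MvPolynomial (Fin (n + 2)) L, A ∣ ∏ s, FP_lin (t s) →
    ∃ (m : ℕ) (t' : Fin m → Fin (n + 2) → L) (c : L), (∀ s, t' s 0 = 1 ∧ t' s 1 = u) ∧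
      A = MvPolynomial.C c * ∏ s, FP_lin (t' s) := by
  intro k
  induction k with
  | zero =>
    intro t _ A hA
    rw [Fin.prod_univ_zero] at hA
    obtain ⟨c, _, hc⟩ := MvPolynomial.isUnit_iff_eq_C_of_isReduced.1 (isUnit_of_dvd_one hA)
    exact ⟨0, t, c, fun s => s.elim0, by rw [Fin.prod_univ_zero, mul_one]; exact hc⟩
  | succ k ih =>
    intro t ht A hA
    rw [Fin.prod_univ_succ] at hA
    obtain ⟨B, hB⟩ := hA
    have hp := FP_prime (t 0) (ht 0).1
    have h1 : FP_lin (t 0) ∣ A * B := ⟨_, hB.symm⟩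
    rcases hp.dvd_or_dvd h1 with ⟨A', hA'⟩ | ⟨B', hB'⟩
    · have h2 : A' ∣ ∏ s : Fin k, FP_lin (t s.succ) := by
        refine ⟨B, ?_⟩
        apply mul_left_cancel₀ hp.ne_zero
        rw [hB, hA', mul_assoc]
      obtain ⟨m, t', c, h3, h4⟩ := ih (fun s => t s.succ) (fun s => ht s.succ) A' h2
      refine ⟨m + 1, Fin.cons (t 0) t', c, ?_, ?_⟩
      · intro s
        refine Fin.cases ?_ (fun s => ?_) s
        · exact ht 0
        · exact h3 s
      · rw [Fin.prod_univ_succ, hA', h4]
        simp only [Fin.cons_zero, Fin.cons_succ]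
        ring
    · have h2 : A ∣ ∏ s : Fin k, FP_lin (t s.succ) := by
        refine ⟨B', ?_⟩
        apply mul_left_cancel₀ hp.ne_zero
        rw [hB, hB']
        ring
      exact ih (fun s => t s.succ) (fun s => ht s.succ) A h2

private def FP_e (n : ℕ) (x : L) : Fin (n + 2) → L := fun a => if a = 0 then x else 0

omit [Algebra ℂ L] in
private lemma FP_dot_e (t : Fin (n + 2) → L) (x : L) : dot t (FP_e n x) = t 0 * x := by
  simp [dot, FP_e]

private def FP_th (n : ℕ) : PV n →+* Polynomial ℂ :=
  (MvPolynomial.aeval (fun a : Fin (n + 2) => if a = 0 then (Polynomial.X : Polynomial ℂ) else 0) :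
    PV n →ₐ[ℂ] Polynomial ℂ).toRingHom

private lemma FP_val_e (P : Polynomial (PV n)) (x u : L) :
    val P (FP_e n x) u =
      ((P.map (FP_th n)).map (Polynomial.aeval x : Polynomial ℂ →ₐ[ℂ] L).toRingHom).eval u := by
  unfold val atV
  rw [Polynomial.map_map]
  congr 2
  apply MvPolynomial.ringHom_ext
  · intro r
    simp [FP_th]
  · intro i
    by_cases hi : i = 0
    · simp [FP_th, FP_e, hi]
    · simp [FP_th, FP_e, hi]

private lemma FP_val_e_of {P : Polynomial (PV n)} {κ : ℕ}
    (h : P.map (FP_th n) = Polynomial.C (Polynomial.X ^ κ)) (x u : L) :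
    val P (FP_e n x) u = x ^ κ := by
  rw [FP_val_e, h]
  simp

private lemma FP_th_F {k : ℕ} {F : Polynomial (PV n)} (hF : IsPreNorm k F) :
    F.map (FP_th n) = Polynomial.C (Polynomial.X ^ k) := by
  apply Polynomial.eq_of_infinite_eval_eq
  apply Set.infinite_of_injective_forall_mem (f := fun u : ℂ => (Polynomial.C u : Polynomial ℂ))
    Polynomial.C_injective
  intro u
  change (F.map (FP_th n)).eval (Polynomial.C u) = _
  rw [Polynomial.eval_C]
  apply Polynomial.funext
  intro x
  have h1 := Polynomial.eval₂_at_apply (p := F.map (FP_th n)) (Polynomial.evalRingHom x)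
    (Polynomial.C u)
  rw [Polynomial.coe_evalRingHom, Polynomial.eval_C] at h1
  rw [← h1, ← Polynomial.eval_map]
  have h2 := FP_val_e F x u
  have h3 : (Polynomial.aeval x : Polynomial ℂ →ₐ[ℂ] ℂ).toRingHom = Polynomial.evalRingHom x := by
    apply Polynomial.ringHom_ext'
    · ext
      simp
    · simp
  rw [h3] at h2
  rw [← h2]
  obtain ⟨t, ht, ht2⟩ := hF.split ℂ u
  rw [ht2, Polynomial.eval_pow, Polynomial.eval_X]
  rw [Finset.prod_congr rfl fun s _ => by rw [FP_dot_e, (ht s).1, one_mul], Finset.prod_const,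
    Finset.card_univ, Fintype.card_fin]

private lemma FP_th_dvd {k : ℕ} {P : Polynomial (Polynomial ℂ)}
    (h : P ∣ Polynomial.C (Polynomial.X ^ k)) :
    ∃ (κ : ℕ) (c : ℂ), κ ≤ k ∧ c ≠ 0 ∧ P = Polynomial.C (Polynomial.C c * Polynomial.X ^ κ) := by
  have hp : Prime (Polynomial.C Polynomial.X : Polynomial (Polynomial ℂ)) :=
    Polynomial.prime_C_iff.2 Polynomial.prime_X
  rw [Polynomial.C_pow] at h
  obtain ⟨κ, hκ, hU⟩ := (_root_.dvd_prime_pow hp k).1 h
  obtain ⟨U, hU⟩ := hU.symm
  obtain ⟨r, hr, hr2⟩ := Polynomial.isUnit_iff.1 U.isUnit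
  obtain ⟨c, hc, hc2⟩ := Polynomial.isUnit_iff.1 hr
  refine ⟨κ, c, hκ, hc.ne_zero, ?_⟩
  rw [← hU, ← hr2, ← hc2, Polynomial.C_mul, Polynomial.C_pow]
  ring

private def FP_s (n : ℕ) : Polynomial (PV n) →+* Polynomial (Polynomial (PV n)) :=
  Polynomial.eval₂RingHom
    (MvPolynomial.aeval (fun a : Fin (n + 2) => if a = 0 then
      Polynomial.C (Polynomial.C (MvPolynomial.X a)) * Polynomial.X else
      Polynomial.C (Polynomial.C (MvPolynomial.X a))) :
        PV n →ₐ[ℂ] Polynomial (Polynomial (PV n))).toRingHom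
    (Polynomial.C Polynomial.X * Polynomial.X)

private lemma FP_s_monomial (i : ℕ) (α : Fin (n + 2) →₀ ℕ) (c : ℂ) :
    FP_s n (Polynomial.monomial i (MvPolynomial.monomial α c)) =
      Polynomial.C (Polynomial.monomial i (MvPolynomial.monomial α c)) *
        Polynomial.X ^ (α 0 + i) := by
  have h1 : MvPolynomial.aeval (fun a : Fin (n + 2) => if a = 0 then
      (Polynomial.C (Polynomial.C (MvPolynomial.X a)) * Polynomial.X :
        Polynomial (Polynomial (PV n))) else
      Polynomial.C (Polynomial.C (MvPolynomial.X a))) (MvPolynomial.monomial α c) =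
      Polynomial.C (Polynomial.C (MvPolynomial.monomial α c)) * Polynomial.X ^ (α 0) := by
    rw [MvPolynomial.aeval_monomial, Finsupp.prod_fintype _ _ (by simp)]
    have h2 : ∀ a : Fin (n + 2), (if a = 0 then
      (Polynomial.C (Polynomial.C (MvPolynomial.X a)) * Polynomial.X :
        Polynomial (Polynomial (PV n))) else
      Polynomial.C (Polynomial.C (MvPolynomial.X a))) ^ α a =
      Polynomial.C (Polynomial.C (MvPolynomial.X a ^ α a)) *
        (if a = 0 then Polynomial.X ^ α 0 else 1) := by
      intro a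
      by_cases ha : a = 0
      · subst ha
        rw [if_pos rfl, if_pos rfl, map_pow, map_pow]
        ring
      · simp [ha]
    rw [Finset.prod_congr rfl fun a _ => h2 a, Finset.prod_mul_distrib,
      Finset.prod_ite_eq' Finset.univ (0 : Fin (n + 2)), if_pos (Finset.mem_univ _), ← map_prod,
      ← map_prod, MvPolynomial.monomial_eq, Finsupp.prod_fintype _ _ (by simp), ← mul_assoc]
    congr 1
    rw [map_mul, map_mul]
    rfl
  have h3 : FP_s n (Polynomial.monomial i (MvPolynomial.monomial α c)) =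
      MvPolynomial.aeval (fun a : Fin (n + 2) => if a = 0 then
      (Polynomial.C (Polynomial.C (MvPolynomial.X a)) * Polynomial.X :
        Polynomial (Polynomial (PV n))) else
      Polynomial.C (Polynomial.C (MvPolynomial.X a))) (MvPolynomial.monomial α c) *
      (Polynomial.C Polynomial.X * Polynomial.X) ^ i := by
    unfold FP_s
    rw [Polynomial.coe_eval₂RingHom, Polynomial.eval₂_monomial]
    rfl
  have h4 : (Polynomial.C Polynomial.X * Polynomial.X : Polynomial (Polynomial (PV n))) ^ i =
      Polynomial.C Polynomial.X ^ i * Polynomial.X ^ i := by ring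
  rw [h3, h1, h4, ← Polynomial.C_mul_X_pow_eq_monomial, map_mul, map_pow, pow_add]
  ring

private lemma FP_s_coeff (P : Polynomial (PV n)) (j i : ℕ) (α : Fin (n + 2) →₀ ℕ) :
    (((FP_s n P).coeff j).coeff i).coeff α = if α 0 + i = j then (P.coeff i).coeff α else 0 := by
  classical
  induction P using Polynomial.induction_on' with
  | add P Q hP hQ =>
    rw [map_add, Polynomial.coeff_add, Polynomial.coeff_add, MvPolynomial.coeff_add, hP, hQ,
      Polynomial.coeff_add, MvPolynomial.coeff_add]
    split_ifs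
    · rfl
    · rw [add_zero]
  | monomial i' a =>
    induction a using MvPolynomial.induction_on' with
    | add p q hp hq =>
      rw [map_add (Polynomial.monomial i'), map_add (FP_s n), Polynomial.coeff_add,
        Polynomial.coeff_add, MvPolynomial.coeff_add, hp, hq, Polynomial.coeff_add,
        MvPolynomial.coeff_add]
      split_ifs
      · rfl
      · rw [add_zero]
    | monomial α' c =>
      rw [FP_s_monomial, Polynomial.coeff_C_mul, Polynomial.coeff_X_pow, mul_ite, mul_one, mul_zero,
        Polynomial.coeff_monomial]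
      by_cases h1 : j = α' 0 + i'
      · rw [if_pos h1, Polynomial.coeff_monomial]
        by_cases h2 : i' = i
        · rw [if_pos h2, MvPolynomial.coeff_monomial]
          by_cases h3 : α' = α
          · rw [if_pos h3, if_pos (by rw [h1, h2, h3])]
          · rw [if_neg h3, ite_self]
        · rw [if_neg h2, MvPolynomial.coeff_zero, ite_self]
      · rw [if_neg h1, Polynomial.coeff_zero, MvPolynomial.coeff_zero]
        by_cases h2 : i' = i
        · rw [if_pos h2, MvPolynomial.coeff_monomial]
          by_cases h3 : α' = α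
          · rw [if_neg (by rw [← h2, ← h3]; exact fun h => h1 h.symm)]
          · rw [if_neg h3, ite_self]
        · rw [if_neg h2, MvPolynomial.coeff_zero, ite_self]

private def FP_rho (n : ℕ) : Polynomial (PV n) →+* ℂ :=
  Polynomial.eval₂RingHom (MvPolynomial.eval (FP_e n (1 : ℂ))) 0

private lemma FP_rho_s (P : Polynomial (PV n)) (x : ℂ) :
    ((FP_s n P).map (FP_rho n)).eval x = val P (FP_e n x) (0 : ℂ) := by
  rw [FP_val_eq]
  have h : (Polynomial.evalRingHom x).comp ((Polynomial.mapRingHom (FP_rho n)).comp (FP_s n)) =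
      Polynomial.eval₂RingHom (MvPolynomial.aeval (FP_e n x) : PV n →ₐ[ℂ] ℂ).toRingHom 0 := by
    apply Polynomial.ringHom_ext'
    · apply MvPolynomial.ringHom_ext
      · intro r
        simp [FP_s, FP_rho]
      · intro i
        by_cases hi : i = 0
        · simp [FP_s, FP_rho, FP_e, hi]
        · simp [FP_s, FP_rho, FP_e, hi]
    · simp [FP_s, FP_rho]
  exact congrArg (fun f => f P) h

private lemma FP_rho_s_of {P : Polynomial (PV n)} {κ : ℕ}
    (h : P.map (FP_th n) = Polynomial.C (Polynomial.X ^ κ)) :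
    (FP_s n P).map (FP_rho n) = Polynomial.X ^ κ := by
  apply Polynomial.funext
  intro x
  rw [FP_rho_s, FP_val_e_of h, Polynomial.eval_pow, Polynomial.eval_X]

private lemma FP_main {k κ κ' : ℕ} {F G H : Polynomial (PV n)} (hF : IsPreNorm k F)
    (hFGH : F = G * H) (hG : G.map (FP_th n) = Polynomial.C (Polynomial.X ^ κ))
    (hH : H.map (FP_th n) = Polynomial.C (Polynomial.X ^ κ')) (hk : κ + κ' = k) :
    IsPreNorm κ G := by
  have hsplit : ∀ (L : Type) [Field L] [Algebra ℂ L] [IsAlgClosed L] (u : L),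
      ∃ t : Fin κ → Fin (n + 2) → L, (∀ s, t s 0 = 1 ∧ t s 1 = u) ∧
        FP_at u G = ∏ s, FP_lin (t s) := by
    intro L _ _ _ u
    have : CharZero L := charZero_of_injective_algebraMap (algebraMap ℂ L).injective
    obtain ⟨t, ht, ht2⟩ := hF.split L u
    have h1 : FP_at u F = ∏ s, FP_lin (t s) := by
      apply MvPolynomial.funext
      intro w
      rw [FP_eval_at, ht2, map_prod]
      exact Finset.prod_congr rfl fun s _ => (FP_eval_lin _ _).symm
    have h2 : FP_at u G ∣ ∏ s, FP_lin (t s) := by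
      rw [← h1, hFGH, map_mul]
      exact dvd_mul_right _ _
    obtain ⟨m, t', c, h3, h4⟩ := FP_dvd_prod u k t ht _ h2
    have h5 : ∀ x : L, x ^ κ = c * x ^ m := by
      intro x
      have h6 := congrArg (MvPolynomial.eval (FP_e n x)) h4
      rw [FP_eval_at, FP_val_e_of hG, map_mul, MvPolynomial.eval_C, map_prod,
        Finset.prod_congr rfl fun s _ => by rw [FP_eval_lin, FP_dot_e, (h3 s).1, one_mul],
        Finset.prod_const, Finset.card_univ, Fintype.card_fin] at h6
      exact h6
    have hc : c = 1 := by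
      have := h5 1
      rw [one_pow, one_pow, mul_one] at this
      exact this.symm
    have hm : m = κ := by
      have h6 := h5 2
      rw [hc, one_mul] at h6
      have h7 : (2 : ℕ) ^ κ = 2 ^ m := by exact_mod_cast h6
      exact (Nat.pow_right_injective (le_refl 2) h7).symm
    subst hm
    refine ⟨t', h3, ?_⟩
    rw [h4, hc, MvPolynomial.C_1, one_mul]
  refine ⟨?_, ?_, ?_⟩
  · -- homogeneity
    intro i α hα
    by_contra hne
    apply hα
    have h0 : ∀ u : ℂ, ∑ j ∈ G.support, (G.coeff j).coeff α * u ^ j = 0 := by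
      intro u
      obtain ⟨t, _, ht⟩ := hsplit ℂ u
      have h1 : (FP_at u G).IsHomogeneous κ := by
        rw [ht]
        have h2 := MvPolynomial.IsHomogeneous.prod Finset.univ (fun s => FP_lin (t s))
          (fun _ => 1) (fun s _ => FP_lin_hom (t s))
        simpa using h2
      have h3 : (FP_at u G).coeff α = 0 := by
        by_contra h4
        exact hne (h1 h4)
      rw [← h3]
      unfold FP_at
      rw [Polynomial.coe_eval₂RingHom, Polynomial.eval₂_eq_sum, Polynomial.sum_def,
        MvPolynomial.coeff_sum]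
      apply Finset.sum_congr rfl
      intro j _
      rw [← MvPolynomial.C_pow, mul_comm (MvPolynomial.map _ _) (MvPolynomial.C _),
        MvPolynomial.coeff_C_mul, MvPolynomial.coeff_map, mul_comm]
      rfl
    have h1 : (∑ j ∈ G.support, Polynomial.monomial j ((G.coeff j).coeff α) : Polynomial ℂ) = 0 := by
      apply Polynomial.funext
      intro u
      rw [Polynomial.eval_finsetSum, Polynomial.eval_zero, ← h0 u]
      apply Finset.sum_congr rfl
      intro j _
      rw [Polynomial.eval_monomial]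
    have h2 := congrArg (fun P : Polynomial ℂ => P.coeff i) h1
    simp only [Polynomial.finsetSum_coeff, Polynomial.coeff_monomial, Polynomial.coeff_zero,
      Finset.sum_ite_eq'] at h2
    by_cases hi : i ∈ G.support
    · rw [if_pos hi] at h2
      exact h2
    · rw [Polynomial.notMem_support_iff.1 hi, MvPolynomial.coeff_zero]
  · -- degree
    have hsF : (FP_s n F).natDegree ≤ k := by
      rw [Polynomial.natDegree_le_iff_coeff_eq_zero]
      intro N hN
      ext i α
      rw [FP_s_coeff, Polynomial.coeff_zero, MvPolynomial.coeff_zero]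
      split_ifs with h1
      · by_contra h2
        have := hF.deg i α (MvPolynomial.mem_support_iff.2 h2)
        omega
      · rfl
    have hGX := FP_rho_s_of hG
    have hHX := FP_rho_s_of hH
    have hG1 : κ ≤ (FP_s n G).natDegree := by
      have := Polynomial.natDegree_map_le (f := FP_rho n) (p := FP_s n G)
      rwa [hGX, Polynomial.natDegree_X_pow] at this
    have hH1 : κ' ≤ (FP_s n H).natDegree := by
      have := Polynomial.natDegree_map_le (f := FP_rho n) (p := FP_s n H)
      rwa [hHX, Polynomial.natDegree_X_pow] at this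
    have hG0 : FP_s n G ≠ 0 := by
      intro h
      rw [h, Polynomial.map_zero] at hGX
      exact pow_ne_zero κ Polynomial.X_ne_zero hGX.symm
    have hH0 : FP_s n H ≠ 0 := by
      intro h
      rw [h, Polynomial.map_zero] at hHX
      exact pow_ne_zero κ' Polynomial.X_ne_zero hHX.symm
    have h1 : (FP_s n G).natDegree ≤ κ := by
      rw [hFGH, map_mul, Polynomial.natDegree_mul hG0 hH0] at hsF
      omega
    intro i α hα
    by_contra hcon
    have h2 : (FP_s n G).coeff (α 0 + i) = 0 := Polynomial.coeff_eq_zero_of_natDegree_lt (by omega)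
    have h3 := FP_s_coeff G (α 0 + i) i α
    rw [h2, if_pos rfl, Polynomial.coeff_zero, MvPolynomial.coeff_zero] at h3
    exact (MvPolynomial.mem_support_iff.1 hα) h3.symm
  · intro L _ _ _ u
    obtain ⟨t, h1, h2⟩ := hsplit L u
    refine ⟨t, h1, fun w => ?_⟩
    rw [← FP_eval_at, h2, map_prod]
    exact Finset.prod_congr rfl fun s _ => FP_eval_lin _ _

end FacPropsAux

theorem divisor_preNorm {n k : ℕ} {F G : Polynomial (PV n)} (hF : IsPreNorm k F) (hG : G ∣ F) :
    ∃ (κ : ℕ) (c : ℂ), c ≠ 0 ∧ κ ≤ k ∧ IsPreNorm κ (Polynomial.C (MvPolynomial.C c) * G) := by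
  obtain ⟨H, hFGH⟩ := hG
  have h1 := FP_th_F hF
  have h2 : G.map (FP_th n) * H.map (FP_th n) = Polynomial.C (Polynomial.X ^ k) := by
    rw [← Polynomial.map_mul, ← hFGH, h1]
  obtain ⟨κ, c, hκ, hc, hG⟩ := FP_th_dvd (k := k) ⟨_, h2.symm⟩
  obtain ⟨κ', c', hκ', hc', hH⟩ := FP_th_dvd (k := k) (P := H.map (FP_th n))
    ⟨G.map (FP_th n), by rw [mul_comm]; exact h2.symm⟩
  rw [hG, hH, ← Polynomial.C_mul] at h2
  have h3 : Polynomial.C (c * c') * Polynomial.X ^ (κ + κ') = (Polynomial.X ^ k : Polynomial ℂ) := by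
    rw [← Polynomial.C_injective h2, Polynomial.C_mul, pow_add]
    ring
  have hcc : c * c' ≠ 0 := mul_ne_zero hc hc'
  have hk : κ + κ' = k := by
    have := congrArg Polynomial.natDegree h3
    rwa [Polynomial.natDegree_C_mul_X_pow _ _ hcc, Polynomial.natDegree_X_pow] at this
  have hcc1 : c * c' = 1 := by
    have := congrArg Polynomial.leadingCoeff h3
    rwa [Polynomial.leadingCoeff_C_mul_X_pow, Polynomial.leadingCoeff_X_pow] at this
  refine ⟨κ, c⁻¹, inv_ne_zero hc, hκ, ?_⟩
  refine FP_main (κ' := κ') (H := Polynomial.C (MvPolynomial.C c) * H) hF ?_ ?_ ?_ hk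
  · have h4 : (Polynomial.C (MvPolynomial.C c⁻¹) : Polynomial (PV n)) *
        Polynomial.C (MvPolynomial.C c) = 1 := by
      rw [← Polynomial.C_mul, ← MvPolynomial.C_mul, inv_mul_cancel₀ hc, MvPolynomial.C_1,
        Polynomial.C_1]
    calc F = G * H := hFGH
      _ = (Polynomial.C (MvPolynomial.C c⁻¹) * Polynomial.C (MvPolynomial.C c)) * (G * H) := by
        rw [h4, one_mul]
      _ = _ := by ring
  · rw [Polynomial.map_mul, hG, Polynomial.map_C, ← Polynomial.C_mul]
    congr 1
    have h5 : FP_th n (MvPolynomial.C c⁻¹) = Polynomial.C c⁻¹ := by simp [FP_th]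
    rw [h5, ← mul_assoc, ← Polynomial.C_mul, inv_mul_cancel₀ hc, Polynomial.C_1, one_mul]
  · rw [Polynomial.map_mul, hH, Polynomial.map_C, ← Polynomial.C_mul]
    congr 1
    have h5 : FP_th n (MvPolynomial.C c) = Polynomial.C c := by simp [FP_th]
    rw [h5, ← mul_assoc, ← Polynomial.C_mul, hcc1, Polynomial.C_1, one_mul]

end Pool.Agent.H5.DG
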