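import Pool.Agent.H5.DG.FacProps
import Pool.Agent.H5.DG.FacMul

/-!
# Project DG, A3: an irreducible factor with many marked points

Proof. Strong induction on `k` over the statement for all `S`: if `F` is irreducible take `N = F`. Otherwise
`F = G * H` with non-units `G, H`; by `divisor_preNorm` we may normalise both (the constants are inverse to
each other by `preNorm_unique`), `IsPreNorm κ G`, `IsPreNorm κ' H`, `κ + κ' = k`, both positive (`preNorm_zero`). Every
`p j` lies in `Gam G ℂ` or `Gam H ℂ` (`gam_mul`), so more than `ρ κ` of the points lie in the first or more than `ρ κ'` in the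
second set.
-/

open MvPolynomial

noncomputable section

namespace Pool.Agent.H5.DG

private theorem factor_normForm {n k : ℕ} {F : Polynomial (PV n)} (hF : IsPreNorm k F)
    (hi : Irreducible F) : IsNormForm k F :=
  ⟨hi, hF.hom, hF.deg, hF.split⟩

private theorem factor_not_gam_one {n : ℕ} {p : Fin (n + 2) → ℂ} :
    p ∉ Gam (1 : Polynomial (PV n)) ℂ := by
  rintro ⟨-, h⟩
  have := h 0 (by simp [dot])
  simp [val, atV] at this

theorem exists_factor {n : ℕ} (ρ : ℕ) {k : ℕ} (F : Polynomial (PV n)) (hF : IsPreNorm k F)
    {ι : Type} (S : Finset ι) (p : ι → Fin (n + 2) → ℂ) (hp : ∀ j ∈ S, p j ∈ Gam F ℂ)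
    (hS : ρ * k < S.card) :
    ∃ (κ : ℕ) (N : Polynomial (PV n)) (J : Finset ι), 1 ≤ κ ∧ IsNormForm κ N ∧ J ⊆ S ∧
      ρ * κ < J.card ∧ ∀ j ∈ J, p j ∈ Gam N ℂ := by
  classical
  induction k using Nat.strong_induction_on generalizing F S with
  | _ k ih =>
    by_cases hi : Irreducible F
    · refine ⟨k, F, S, ?_, factor_normForm hF hi, subset_rfl, hS, hp⟩
      rcases Nat.eq_zero_or_pos k with rfl | h
      · exact absurd (preNorm_zero hF) (by
          rintro rfl
          exact hi.not_isUnit isUnit_one)
      · exact h
    · by_cases hu : IsUnit F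
      · have hk := preNorm_unit hF hu
        subst hk
        have h1 := preNorm_zero hF
        subst h1
        have hne : S.Nonempty := by
          rw [← Finset.card_pos]
          omega
        obtain ⟨j, hj⟩ := hne
        exact absurd (hp j hj) factor_not_gam_one
      · have hnot : ¬ ∀ ⦃a b : Polynomial (PV n)⦄, F = a * b → IsUnit a ∨ IsUnit b := by
          intro h
          exact hi ⟨hu, h⟩
        push Not at hnot
        obtain ⟨G, H, hGH, hGu, hHu⟩ := hnot
        obtain ⟨κ, c, hc, -, hG⟩ := divisor_preNorm hF (G := G) ⟨H, hGH⟩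
        obtain ⟨κ', c', hc', -, hH⟩ := divisor_preNorm hF (G := H) ⟨G, by rw [hGH, mul_comm]⟩
        have hmul := preNorm_mul hG hH
        have hprod : (Polynomial.C (MvPolynomial.C c) * G) * (Polynomial.C (MvPolynomial.C c') * H) =
            Polynomial.C (MvPolynomial.C (c * c')) * F := by
          rw [hGH, map_mul, map_mul]
          ring
        rw [hprod] at hmul
        obtain ⟨hk, -⟩ := preNorm_unique hF hmul
        have hκ : 0 < κ := by
          rcases Nat.eq_zero_or_pos κ with h0 | h
          · subst h0
            exact absurd (IsUnit.of_mul_eq_one_right _ (preNorm_zero hG)) hGu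
          · exact h
        have hκ' : 0 < κ' := by
          rcases Nat.eq_zero_or_pos κ' with h0 | h
          · subst h0
            exact absurd (IsUnit.of_mul_eq_one_right _ (preNorm_zero hH)) hHu
          · exact h
        set G' := Polynomial.C (MvPolynomial.C c) * G with hG'
        set H' := Polynomial.C (MvPolynomial.C c') * H with hH'
        have hcov : ∀ j ∈ S, p j ∈ Gam G' ℂ ∨ p j ∈ Gam H' ℂ := by
          intro j hj
          have h1 := hp j hj
          rw [hGH] at h1
          rcases gam_mul h1 with h | h
          · exact Or.inl ((gam_smul hc).2 h)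
          · exact Or.inr ((gam_smul hc').2 h)
        have hcard : S.card ≤ (S.filter fun j => p j ∈ Gam G' ℂ).card +
            (S.filter fun j => p j ∈ Gam H' ℂ).card := by
          refine (Finset.card_le_card ?_).trans (Finset.card_union_le _ _)
          intro j hj
          rw [Finset.mem_union, Finset.mem_filter, Finset.mem_filter]
          rcases hcov j hj with h | h
          · exact Or.inl ⟨hj, h⟩
          · exact Or.inr ⟨hj, h⟩
        have hor : ρ * κ < (S.filter fun j => p j ∈ Gam G' ℂ).card ∨
            ρ * κ' < (S.filter fun j => p j ∈ Gam H' ℂ).card := by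
          by_contra hcon
          push Not at hcon
          rw [hk, mul_add] at hS
          omega
        rcases hor with h | h
        · obtain ⟨κ₁, N, J, h1, h2, h3, h4, h5⟩ := ih κ (by omega) G' hG
            (S.filter fun j => p j ∈ Gam G' ℂ) (fun j hj => (Finset.mem_filter.1 hj).2) h
          exact ⟨κ₁, N, J, h1, h2, h3.trans (Finset.filter_subset _ _), h4, h5⟩
        · obtain ⟨κ₁, N, J, h1, h2, h3, h4, h5⟩ := ih κ' (by omega) H' hH
            (S.filter fun j => p j ∈ Gam H' ℂ) (fun j hj => (Finset.mem_filter.1 hj).2) h
          exact ⟨κ₁, N, J, h1, h2, h3.trans (Finset.filter_subset _ _), h4, h5⟩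

end Pool.Agent.H5.DG
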