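import Pool.Agent.H5.DG.FinalDefs
import Pool.Agent.H5.DG.CovPkg
import Pool.Agent.H5.DG.EGen
import Pool.Agent.H5.DG.E4
import Pool.Agent.H5.DG.F1

/-!
# Project DG, module Final: the main theorem, diagonal complete intersections
-/

open MvPolynomial Filter Topology
open Pool.Agent.H17 (PN VanishesAt zeroLocus ZariskiClosedIn HolomorphicInto puncturedDisc)
open Pool.Agent.H17GT (coordFun)
open Pool.Agent.H17LG.Variety (FunField ratio IsLogGeneralType)

noncomputable section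

namespace Pool.Agent.H5.DG

variable {Nn m : ℕ}

/-- **The main theorem on finite covers.** -/
theorem main_cover (n : ℕ) : ∃ N₀ : ℕ, n + 2 ≤ N₀ ∧ ∀ (m : ℕ) (l : Fin m → Fin (n + 2) → ℂ),
    N₀ ≤ m → GenPos l → ∃ (k : ℕ) (Δ : PV n), Δ ≠ 0 ∧ Δ.IsHomogeneous k ∧ OrbifoldPart 2 l Δ ∧
      ∀ (Nn e : ℕ) (I : Ideal (MvPolynomial (Fin (Nn + 1)) ℂ))
        (F : Fin (n + 2) → MvPolynomial (Fin (Nn + 1)) ℂ) (O : Finset (Fin m)), Homog I →
        BaseFree I e F → (∀ j ∉ O, RamM 2 I (comb (l j) F)) → CoverPart l Δ I F O := by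
  obtain ⟨N₀, hN₀, hpkg⟩ := exists_pkg n
  refine ⟨N₀, by omega, fun m l hm hl => ?_⟩
  obtain ⟨M, κ, N, φ, J, c, h⟩ := hpkg m l hm hl
  obtain ⟨k, hk⟩ := DelM_isHomogeneous h
  refine ⟨k, DelM M κ N, DelM_ne_zero h, hk, ⟨fun f hf hm hne => picard_orb h hf hm hne,
    fun f hf hm hne => brody_orb h hf hm hne⟩, ?_⟩
  intro Nn e I F O hI hF hram
  exact ⟨fun f hf hfX hne => picard_cover h hI hF hram hf hfX hne,
    fun f hf hfX hne => brody_cover h hI hF hram hf hfX hne,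
    fun P _ hP hIP hO hΔ w hw hz => alg_cover h P hP (hF.mono hIP) O hO
      (fun j hj => (hram j hj).mono hIP) hΔ hw hz⟩

/-- **The main theorem**, in the final form. -/
theorem main_hyperplane (n : ℕ) : ∃ N₀ : ℕ, n + 2 ≤ N₀ ∧
    ∀ (m : ℕ) (l : Fin m → Fin (n + 2) → ℂ), N₀ ≤ m → GenPos l →
      ∃ (k : ℕ) (Δ : PV n), Δ ≠ 0 ∧ Δ.IsHomogeneous k ∧ HyperplaneTheorem 2 l Δ := by
  obtain ⟨N₀, hN₀, hmain⟩ := main_cover n
  refine ⟨N₀, hN₀, fun m l hm hl => ?_⟩
  obtain ⟨k, Δ, hΔ, hk, horb, hcov⟩ := hmain m l hm hl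
  refine ⟨k, Δ, hΔ, hk, horb, fun N e I _ F O hI hF hO hram => ?_⟩
  have h := hcov N e I F O hI hF hram
  exact ⟨h, fun w hw hz => ⟨fun hwr => delta_notMem I hI hF (by subst hwr; exact hz) hΔ hk,
    fun hΔI => h.four hI hF hk hΔI hO hw hz⟩⟩

/-! ### Diagonal complete intersections -/

section

variable {N c n d : ℕ} {a : Fin c → Fin (N + 1) → ℂ} {l : Fin (N + 1) → Fin (n + 2) → ℂ}
  {b : Fin (n + 2) → Fin (N + 1) → ℂ}

/-- The forms which define the map to `ℙ^(n + 1)`. -/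
def diagF (b : Fin (n + 2) → Fin (N + 1) → ℂ) (d : ℕ) (i : Fin (n + 2)) :
    MvPolynomial (Fin (N + 1)) ℂ :=
  ∑ j, C (b i j) * X j ^ d

/-- The data of a diagonal complete intersection. -/
theorem diag_data_of (hc : c + (n + 1) = N) (hd : 2 ≤ d) (hl : GenPos l)
    (hker : ∀ y : Fin (N + 1) → ℂ, (∀ i, ∑ j, a i j * y j = 0) ↔
      ∃ v : Fin (n + 2) → ℂ, ∀ j, y j = dot (l j) v) :
    ∃ (b : Fin (n + 2) → Fin (N + 1) → ℂ)
      (I : Ideal (MvPolynomial (Fin (N + 1)) ℂ)) (_ : I.IsPrime),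
      Homog I ∧ BaseFree I d (diagF b d) ∧ (∀ j, RamM d I (comb (l j) (diagF b d))) ∧
      (∀ x : PN N, (∀ Q ∈ I, ∀ k, Q.IsHomogeneous k → VanishesAt Q x) ↔
        x ∈ zeroLocus (diagForm a d)) ∧
      ∃ z : Fin (n + 1) → FunField I, IsTranscendenceBasis ℂ z := by
  classical
  have hd0 : 0 < d := by omega
  have hle : n + 2 ≤ N + 1 := by omega
  obtain ⟨b, hb⟩ := exists_inverse hle hl
  obtain ⟨hne, hpair⟩ := GenPos.pair hle hl
  obtain ⟨I, hI, hhom, hA, hX, hz⟩ := exists_prime hd0 hne hpair hb hker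
  have hAd : ∀ i, diagForm a d i ∈ I := hA
  -- points
  have hpt : ∀ x : Fin (N + 1) → ℂ, (∀ i, eval x (diagForm a d i) = 0) ↔
      ∃ v : Fin (n + 2) → ℂ, ∀ j, x j ^ d = dot (l j) v := by
    intro x
    simp only [eval_diagForm]
    exact hker fun j => x j ^ d
  have hcone : ∀ x : Fin (N + 1) → ℂ, (∀ Q ∈ I, eval x Q = 0) ↔
      ∃ v : Fin (n + 2) → ℂ, ∀ j, x j ^ d = dot (l j) v := by
    intro x
    constructor
    · intro h
      exact (hpt x).1 fun i => h _ (hAd i)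
    · rintro ⟨v, hv⟩ Q hQ
      rw [← MvPolynomial.sum_homogeneousComponent Q, map_sum]
      exact Finset.sum_eq_zero fun k _ =>
        hX _ (hhom Q hQ k) k (homogeneousComponent_isHomogeneous k Q) x v hv
  have hFv : ∀ (x : Fin (N + 1) → ℂ) (v : Fin (n + 2) → ℂ), (∀ j, x j ^ d = dot (l j) v) →
      ∀ i, eval x (diagF b d i) = v i := by
    intro x v hv i
    unfold diagF
    rw [map_sum, hb v i]
    refine Finset.sum_congr rfl fun j _ => ?_
    rw [map_mul, map_pow, eval_C, eval_X, hv]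
  have hcomb : ∀ j, X j ^ d - comb (l j) (diagF b d) ∈ I := by
    intro j
    refine mem_of_forall I fun x hx => ?_
    obtain ⟨v, hv⟩ := (hcone x).1 hx
    rw [map_sub, map_pow, eval_X, hv j]
    unfold comb dot
    rw [map_sum, sub_eq_zero]
    refine Finset.sum_congr rfl fun i _ => ?_
    rw [map_mul, eval_C, hFv x v hv]
  have hFhom : ∀ i, (diagF b d i).IsHomogeneous d := by
    intro i
    refine MvPolynomial.IsHomogeneous.sum _ _ _ fun j _ => ?_
    exact MvPolynomial.isHomogeneous_C_mul_X_pow _ _ _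
  refine ⟨b, I, hI, hhom, ⟨by omega, hFhom, fun j => ⟨d, ?_⟩⟩, fun j i => ⟨0, ?_⟩, ?_, hz⟩
  · have h1 : X j ^ d = comb (l j) (diagF b d) + (X j ^ d - comb (l j) (diagF b d)) := by ring
    rw [h1]
    refine Submodule.add_mem_sup ?_ (hcomb j)
    refine Ideal.sum_mem _ fun i _ => Ideal.mul_mem_left _ _ (Ideal.subset_span ⟨i, rfl⟩)
  · rw [pow_zero, one_mul]
    have h0 : (X j : MvPolynomial (Fin (N + 1)) ℂ) ∈
        Ideal.radical (Ideal.span {comb (l j) (diagF b d)} ⊔ I) := by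
      refine ⟨d, ?_⟩
      have h1 : (X j : MvPolynomial (Fin (N + 1)) ℂ) ^ d =
          comb (l j) (diagF b d) + (X j ^ d - comb (l j) (diagF b d)) := by ring
      rw [h1]
      exact Submodule.add_mem_sup (Ideal.subset_span rfl) (hcomb j)
    have h1 : comb (l j) (diagF b d) = X j ^ d + -(X j ^ d - comb (l j) (diagF b d)) := by ring
    have h2 : (X j : MvPolynomial (Fin (N + 1)) ℂ) ^ d ∈
        (Ideal.radical (Ideal.span {comb (l j) (diagF b d)} ⊔ I)) ^ d := Ideal.pow_mem_pow h0 d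
    have h3 := Submodule.add_mem_sup h2 (I.neg_mem (hcomb j))
    rwa [← h1] at h3
  · intro x
    constructor
    · intro h i
      exact h _ (hAd i) d (diagForm_isHomogeneous a d i)
    · intro h Q hQ k hk
      obtain ⟨v, hv⟩ := (hpt x.rep).1 h
      exact hX Q hQ k hk x.rep v hv

/-- The data of a smooth diagonal complete intersection. -/
theorem diag_data (hc : c + (n + 1) = N) (hd : 2 ≤ d) (hs : SmoothIntersection (diagForm a d)) :
    ∃ (l : Fin (N + 1) → Fin (n + 2) → ℂ) (b : Fin (n + 2) → Fin (N + 1) → ℂ)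
      (I : Ideal (MvPolynomial (Fin (N + 1)) ℂ)) (_ : I.IsPrime),
      GenPos l ∧ Homog I ∧ BaseFree I d (diagF b d) ∧ (∀ j, RamM d I (comb (l j) (diagF b d))) ∧
      (∀ x : PN N, (∀ Q ∈ I, ∀ k, Q.IsHomogeneous k → VanishesAt Q x) ↔
        x ∈ zeroLocus (diagForm a d)) ∧
      ∃ z : Fin (n + 1) → FunField I, IsTranscendenceBasis ℂ z := by
  obtain ⟨l, hl, hker⟩ := exists_forms hc hd hs
  obtain ⟨b, I, hI, h1, h2, h3, h4, h5⟩ := diag_data_of hc hd hl hker
  exact ⟨l, b, I, hI, hl, h1, h2, h3, h4, h5⟩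

end

end Pool.Agent.H5.DG
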