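import Pool.Agent.H5.DG.DefsA

/-!
# Project DG, A1: degrees in the basis

`R = ℂ[u]`; the total degree of a monomial `c (u) x ^ γ` is `natDegree c + ∑ γ j`. If all monomials of `g i`
have total degree `≤ a i` then the coordinates of a polynomial `f` of total degree `≤ D` in the basis of
monomials satisfy `natDegree c_α + ∑ α j ≤ D` (if `c_α ≠ 0`).

Proof. Strong induction on the weight: by linearity `f = c x ^ β`; if `β` is reduced, `f` is a multiple of a
basis element. Otherwise `x ^ β ≡ x ^ (β - a i e_i) g i`, whose monomials have smaller weight and total degree at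
most that of `x ^ β`. (Show: every `f` of total degree `≤ D` and weight `< w` is congruent to a combination of
the basis monomials with coefficients satisfying the bound; then uniqueness of the coordinates.)
-/

open MvPolynomial

noncomputable section

namespace Pool.Agent.H5.DG

variable {m : ℕ}

/-- All monomials have total degree at most `D`. -/
private def DB (D : ℕ) (f : MvPolynomial (Fin m) (Polynomial ℂ)) : Prop :=
  ∀ γ, f.coeff γ = 0 ∨ (f.coeff γ).natDegree + ∑ j, γ j ≤ D

private theorem DB.zero {D : ℕ} : DB D (0 : MvPolynomial (Fin m) (Polynomial ℂ)) :=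
  fun _ => Or.inl (by simp)

private theorem DB.add {D : ℕ} {f g : MvPolynomial (Fin m) (Polynomial ℂ)} (hf : DB D f)
    (hg : DB D g) : DB D (f + g) := by
  intro γ
  rw [coeff_add]
  rcases hf γ with h1 | h1 <;> rcases hg γ with h2 | h2
  · exact Or.inl (by rw [h1, h2, add_zero])
  · right
    rw [h1, zero_add]
    exact h2
  · right
    rw [h2, add_zero]
    exact h1
  · right
    have h3 := Polynomial.natDegree_add_le (f.coeff γ) (g.coeff γ)
    have h4 : max (f.coeff γ).natDegree (g.coeff γ).natDegree + ∑ j, γ j ≤ D := by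
      rcases le_total (f.coeff γ).natDegree (g.coeff γ).natDegree with h5 | h5
      · rw [max_eq_right h5]; exact h2
      · rw [max_eq_left h5]; exact h1
    omega

private def Red (a : Fin m → ℕ) (f : MvPolynomial (Fin m) (Polynomial ℂ)) : Prop :=
  ∀ γ ∈ f.support, ∀ i, γ i < a i

private theorem exists_red (a : Fin m → ℕ)
    (W : Fin m → ℕ) (g : Fin m → MvPolynomial (Fin m) (Polynomial ℂ))
    (hg : ∀ i, ∀ γ ∈ (g i).support, ∑ j, γ j * W j < a i * W i)
    (hdeg : ∀ i, ∀ γ ∈ (g i).support, ((g i).coeff γ).natDegree + ∑ j, γ j ≤ a i) (D : ℕ) :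
    ∀ (w : ℕ) (f : MvPolynomial (Fin m) (Polynomial ℂ)), (∀ γ ∈ f.support, ∑ j, γ j * W j < w) →
      DB D f → ∃ r, Red a r ∧ DB D r ∧ f - r ∈ sysIdeal a g := by
  classical
  intro w
  induction w with
  | zero =>
    intro f hf _
    have h0 : f = 0 := by
      by_contra h
      obtain ⟨γ, hγ⟩ := MvPolynomial.support_nonempty.2 h
      exact absurd (hf γ hγ) (Nat.not_lt_zero _)
    refine ⟨0, fun γ hγ => absurd hγ (by simp), DB.zero, ?_⟩
    rw [h0, sub_zero]
    exact Ideal.zero_mem _
  | succ w ih =>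
    intro f hf hD
    -- closure under sums
    have hP0 : ∃ r, Red a r ∧ DB D r ∧ (0 : MvPolynomial (Fin m) (Polynomial ℂ)) - r ∈
        sysIdeal a g :=
      ⟨0, fun γ hγ => absurd hγ (by simp), DB.zero, by rw [sub_zero]; exact Ideal.zero_mem _⟩
    have hadd : ∀ f₁ f₂ : MvPolynomial (Fin m) (Polynomial ℂ),
        (∃ r, Red a r ∧ DB D r ∧ f₁ - r ∈ sysIdeal a g) →
        (∃ r, Red a r ∧ DB D r ∧ f₂ - r ∈ sysIdeal a g) →
        ∃ r, Red a r ∧ DB D r ∧ f₁ + f₂ - r ∈ sysIdeal a g := by
      rintro f₁ f₂ ⟨r₁, h1, h2, h3⟩ ⟨r₂, h4, h5, h6⟩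
      refine ⟨r₁ + r₂, fun γ hγ => ?_, h2.add h5, ?_⟩
      · rcases Finset.mem_union.1 (MvPolynomial.support_add hγ) with h | h
        · exact h1 γ h
        · exact h4 γ h
      · have e : f₁ + f₂ - (r₁ + r₂) = (f₁ - r₁) + (f₂ - r₂) := by ring
        rw [e]
        exact Ideal.add_mem _ h3 h6
    rw [f.as_sum]
    refine Finset.sum_induction _ (fun f => ∃ r, Red a r ∧ DB D r ∧ f - r ∈ sysIdeal a g) hadd hP0
      fun γ hγ => ?_
    have hγD : (f.coeff γ).natDegree + ∑ j, γ j ≤ D :=
      (hD γ).resolve_left (MvPolynomial.mem_support_iff.1 hγ)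
    by_cases hred : ∀ i, γ i < a i
    · refine ⟨monomial γ (f.coeff γ), fun δ hδ => ?_, fun δ => ?_, ?_⟩
      · have h1 := MvPolynomial.support_monomial_subset hδ
        rw [Finset.mem_singleton] at h1
        rw [h1]
        exact hred
      · rw [coeff_monomial]
        split_ifs with h1
        · rw [← h1]
          exact Or.inr hγD
        · exact Or.inl rfl
      · rw [sub_self]
        exact Ideal.zero_mem _
    · push Not at hred
      obtain ⟨i, hi⟩ := hred
      set γ' := γ - Finsupp.single i (a i) with hγ'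
      have hle : Finsupp.single i (a i) ≤ γ := Finsupp.single_le_iff.2 hi
      have hγe : γ' + Finsupp.single i (a i) = γ := tsub_add_cancel_of_le hle
      have hsum : ∀ V : Fin m → ℕ, ∑ j, γ j * V j = ∑ j, γ' j * V j + a i * V i := by
        intro V
        rw [← hγe]
        simp only [Finsupp.add_apply, add_mul, Finset.sum_add_distrib]
        congr 1
        rw [Finset.sum_eq_single i]
        · rw [Finsupp.single_eq_same]
        · intro j _ hj
          rw [Finsupp.single_eq_of_ne hj, zero_mul]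
        · intro h
          exact absurd (Finset.mem_univ i) h
      have hs1 := hsum W
      have hs2 := hsum (fun _ => 1)
      simp only [mul_one] at hs2
      have hmon : monomial γ (f.coeff γ) = monomial γ' (f.coeff γ) * X i ^ a i := by
        rw [X_pow_eq_monomial, monomial_mul, mul_one, hγe]
      have hcoef : ∀ δ ∈ (monomial γ' (f.coeff γ) * g i).support, ∃ ε ∈ (g i).support,
          δ = γ' + ε ∧ (monomial γ' (f.coeff γ) * g i).coeff δ = f.coeff γ * (g i).coeff ε := by
        intro δ hδ
        rw [MvPolynomial.mem_support_iff, coeff_monomial_mul'] at hδ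
        split_ifs at hδ with h1
        · refine ⟨δ - γ', ?_, (add_tsub_cancel_of_le h1).symm, ?_⟩
          · rw [MvPolynomial.mem_support_iff]
            exact fun h2 => hδ (by rw [h2, mul_zero])
          · rw [coeff_monomial_mul', if_pos h1]
        · exact absurd rfl hδ
      obtain ⟨r, h1, h2, h3⟩ := ih (monomial γ' (f.coeff γ) * g i) (by
        intro δ hδ
        obtain ⟨ε, hε, rfl, -⟩ := hcoef δ hδ
        have h4 := hg i ε hε
        have h5 := hf γ hγ
        simp only [Finsupp.add_apply, add_mul, Finset.sum_add_distrib]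
        omega) (by
        intro δ
        by_cases hδ : (monomial γ' (f.coeff γ) * g i).coeff δ = 0
        · exact Or.inl hδ
        · right
          obtain ⟨ε, hε, rfl, he⟩ := hcoef δ (MvPolynomial.mem_support_iff.2 hδ)
          rw [he]
          have h4 := hdeg i ε hε
          have h5 := Polynomial.natDegree_mul_le (p := f.coeff γ) (q := (g i).coeff ε)
          simp only [Finsupp.add_apply, Finset.sum_add_distrib]
          omega)
      refine ⟨r, h1, h2, ?_⟩
      have e : monomial γ (f.coeff γ) - r = monomial γ' (f.coeff γ) * (X i ^ a i - g i) +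
          (monomial γ' (f.coeff γ) * g i - r) := by
        rw [hmon]
        ring
      rw [e]
      refine Ideal.add_mem _ (Ideal.mul_mem_left _ _ (Ideal.subset_span ⟨i, rfl⟩)) h3

private def toF (a : Fin m → ℕ) (α : Idx a) : Fin m →₀ ℕ :=
  Finsupp.equivFunOnFinite.symm fun i => (α i : ℕ)

private theorem toF_injective (a : Fin m → ℕ) : Function.Injective (toF a) := by
  intro α β h
  funext i
  have h1 : toF a α i = toF a β i := by rw [h]
  exact Fin.ext h1

private theorem mk_monomial (a : Fin m → ℕ) (g : Fin m → MvPolynomial (Fin m) (Polynomial ℂ))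
    (b : Module.Basis (Idx a) (Polynomial ℂ)
      (MvPolynomial (Fin m) (Polynomial ℂ) ⧸ sysIdeal a g))
    (hb : ∀ α : Idx a, b α = Ideal.Quotient.mk (sysIdeal a g) (∏ i, X i ^ (α i : ℕ)))
    (α : Idx a) (c : Polynomial ℂ) :
    Ideal.Quotient.mk (sysIdeal a g) (monomial (toF a α) c) = c • b α := by
  have h1 : (monomial (toF a α) c : MvPolynomial (Fin m) (Polynomial ℂ)) =
      c • ∏ i, X i ^ (α i : ℕ) := by
    rw [monomial_eq, MvPolynomial.smul_eq_C_mul]
    congr 1
    rw [Finsupp.prod_fintype _ _ fun i => pow_zero _]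
    rfl
  rw [h1, hb]
  rfl

theorem repr_degree {m : ℕ} (a : Fin m → ℕ) (ha : ∀ i, 1 ≤ a i)
    (W : Fin m → ℕ) (hW : ∀ i, 1 ≤ W i) (g : Fin m → MvPolynomial (Fin m) (Polynomial ℂ))
    (hg : ∀ i, ∀ γ ∈ (g i).support, ∑ j, γ j * W j < a i * W i)
    (hdeg : ∀ i, ∀ γ ∈ (g i).support, ((g i).coeff γ).natDegree + ∑ j, γ j ≤ a i)
    (b : Module.Basis (Idx a) (Polynomial ℂ)
      (MvPolynomial (Fin m) (Polynomial ℂ) ⧸ sysIdeal a g))
    (hb : ∀ α : Idx a, b α = Ideal.Quotient.mk (sysIdeal a g) (∏ i, X i ^ (α i : ℕ)))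
    (f : MvPolynomial (Fin m) (Polynomial ℂ)) (D : ℕ)
    (hf : ∀ γ ∈ f.support, (f.coeff γ).natDegree + ∑ j, γ j ≤ D) (α : Idx a)
    (hα : b.repr (Ideal.Quotient.mk (sysIdeal a g) f) α ≠ 0) :
    (b.repr (Ideal.Quotient.mk (sysIdeal a g) f) α).natDegree + ∑ j, (α j : ℕ) ≤ D := by
  classical
  have hDB : DB D f := by
    intro γ
    by_cases h : f.coeff γ = 0
    · exact Or.inl h
    · exact Or.inr (hf γ (MvPolynomial.mem_support_iff.2 h))
  obtain ⟨r, h1, h2, h3⟩ := exists_red a W g hg hdeg D
    ((f.support.sup fun γ => ∑ j, γ j * W j) + 1) f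
    (fun γ hγ => Nat.lt_succ_of_le (Finset.le_sup (f := fun γ : Fin m →₀ ℕ => ∑ j, γ j * W j) hγ))
    hDB
  have h4 : Ideal.Quotient.mk (sysIdeal a g) f = Ideal.Quotient.mk (sysIdeal a g) r :=
    (Ideal.Quotient.mk_eq_mk_iff_sub_mem f r).2 h3
  have h5 : r = ∑ β : Idx a, monomial (toF a β) (r.coeff (toF a β)) := by
    ext1 γ
    rw [coeff_sum]
    simp only [coeff_monomial]
    by_cases hγ : ∃ β, toF a β = γ
    · obtain ⟨β, rfl⟩ := hγ
      rw [Finset.sum_eq_single β]
      · rw [if_pos rfl]
      · intro β' _ hne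
        rw [if_neg fun h => hne (toF_injective a h)]
      · intro h
        exact absurd (Finset.mem_univ β) h
    · rw [Finset.sum_eq_zero]
      · by_contra hne
        have h6 := h1 γ (MvPolynomial.mem_support_iff.2 hne)
        refine hγ ⟨fun i => ⟨γ i, h6 i⟩, ?_⟩
        ext i
        rfl
      · intro β _
        rw [if_neg fun h => hγ ⟨β, h⟩]
  have h6 : b.repr (Ideal.Quotient.mk (sysIdeal a g) f) α = r.coeff (toF a α) := by
    have h7 : Ideal.Quotient.mk (sysIdeal a g) r = ∑ β : Idx a, r.coeff (toF a β) • b β := by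
      conv_lhs => rw [h5]
      rw [map_sum]
      exact Finset.sum_congr rfl fun β _ => mk_monomial a g b hb β _
    rw [h4, h7, b.repr_sum_self]
  rw [h6] at hα ⊢
  exact (h2 (toF a α)).resolve_left hα

end Pool.Agent.H5.DG
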