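import Pool.Agent.H5.DG.DefsA

/-!
# Project DG, A4: the case of dependent conditions

`G ≠ 0` involves only `y 0, …, y (m - 1)`, has total degree `δ' ≤ m b`, `δ' ≥ 1` (it vanishes at a point `s q` and is not
zero). Let `G'` be its homogeneous component of degree `δ'`; choose `y ∈ ℂ^(n+1)` with `G' (y) * y (m - 1) ≠ 0`, scale so
that `y (m - 1) = 1`, `λ j = y j` for `j < m - 1`. Let `A` be the linear map `x ↦ x + x (m - 1) (λ, 0)` (i.e.
`(A x) j = x j + λ j x (m - 1)` for `j < m - 1`, other coordinates fixed), `M = A⁻¹` (replace `λ` by `-λ`). The new points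
are `M s q`, the new equations `G ∘ A`, `g i ∘ A` (compose with `MvPolynomial.aeval` / `bind₁`). The coefficient of
`x (m - 1) ^ δ'` in `G ∘ A` is `G' (λ, 1) ≠ 0`, its total degree is `δ'`; so `x (m - 1) ^ δ' = g'`, where `g'` has total degree
`≤ δ'` and degree `< δ'` in `x (m - 1)`, involving only `x 0, …, x (m - 1)`. The properties of the `g i`, `m ≤ i + 1`, are
preserved, because `A` changes only the coordinates `y j` with `j < m - 1` by multiples of `y (m - 1)`.
-/

open MvPolynomial

noncomputable section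

namespace Pool.Agent.H5.DG

/-- the monomials have the degree of `γ`, and the exponents of `γ` for the variables after `c` -/
private def sbS {n : ℕ} (c : Fin (n + 1)) (γ : Fin (n + 1) →₀ ℕ)
    (F : MvPolynomial (Fin (n + 1)) ℂ) : Prop :=
  ∀ γ', coeff γ' F ≠ 0 → γ'.degree = γ.degree ∧ ∀ j, c < j → γ' j = γ j

private theorem sbS_mul {n : ℕ} {c : Fin (n + 1)} {γ δ : Fin (n + 1) →₀ ℕ}
    {F H : MvPolynomial (Fin (n + 1)) ℂ} (hF : sbS c γ F) (hH : sbS c δ H) :
    sbS c (γ + δ) (F * H) := by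
  classical
  intro ε hε
  rw [coeff_mul] at hε
  obtain ⟨p, hp, hne⟩ := Finset.exists_ne_zero_of_sum_ne_zero hε
  rw [Finset.HasAntidiagonal.mem_antidiagonal] at hp
  obtain ⟨h1, h2⟩ := hF _ (left_ne_zero_of_mul hne)
  obtain ⟨h3, h4⟩ := hH _ (right_ne_zero_of_mul hne)
  rw [← hp]
  refine ⟨?_, fun j hj => ?_⟩
  · rw [map_add, map_add, h1, h3]
  · rw [Finsupp.add_apply, Finsupp.add_apply, h2 j hj, h4 j hj]

private theorem sbS_C {n : ℕ} (c : Fin (n + 1)) (a : ℂ) : sbS c 0 (C a) := by
  classical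
  intro ε hε
  rw [coeff_C] at hε
  have h1 : 0 = ε := by
    by_contra h2
    exact hε (if_neg h2)
  rw [← h1]
  exact ⟨rfl, fun _ _ => rfl⟩

private theorem sbS_pow {n : ℕ} {c : Fin (n + 1)} {γ : Fin (n + 1) →₀ ℕ}
    {F : MvPolynomial (Fin (n + 1)) ℂ} (hF : sbS c γ F) (k : ℕ) : sbS c (k • γ) (F ^ k) := by
  induction k with
  | zero =>
    rw [zero_smul, pow_zero]
    exact sbS_C c 1
  | succ k ih =>
    rw [succ_nsmul, pow_succ]
    exact sbS_mul ih hF

private theorem sbS_prod {n : ℕ} {c : Fin (n + 1)} {ι : Type} (s : Finset ι)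
    {γ : ι → Fin (n + 1) →₀ ℕ} {F : ι → MvPolynomial (Fin (n + 1)) ℂ}
    (hF : ∀ i, sbS c (γ i) (F i)) : sbS c (∑ i ∈ s, γ i) (∏ i ∈ s, F i) := by
  classical
  induction s using Finset.induction_on with
  | empty =>
    rw [Finset.sum_empty, Finset.prod_empty]
    exact sbS_C c 1
  | insert i s hi ih =>
    rw [Finset.sum_insert hi, Finset.prod_insert hi]
    exact sbS_mul (hF i) ih

/-- the substitution `x j ↦ x j + l j x c` -/
private def sbA {n : ℕ} (c : Fin (n + 1)) (l : Fin (n + 1) → ℂ) :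
    MvPolynomial (Fin (n + 1)) ℂ →ₐ[ℂ] MvPolynomial (Fin (n + 1)) ℂ :=
  aeval fun j => X j + C (l j) * X c

private theorem sbA_eval {n : ℕ} (c : Fin (n + 1)) (l x : Fin (n + 1) → ℂ)
    (F : MvPolynomial (Fin (n + 1)) ℂ) :
    eval x (sbA c l F) = eval (fun j => x j + l j * x c) F := by
  have h1 : ((aeval x).comp (sbA c l) : MvPolynomial (Fin (n + 1)) ℂ →ₐ[ℂ] ℂ) =
      aeval fun j => x j + l j * x c := by
    ext j
    simp [sbA]
  have h2 := DFunLike.congr_fun h1 F
  simpa [MvPolynomial.aeval_eq_eval] using h2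

private theorem sbA_monomial {n : ℕ} {c : Fin (n + 1)} {l : Fin (n + 1) → ℂ}
    (hl : ∀ j, c < j → l j = 0) (γ : Fin (n + 1) →₀ ℕ) (a : ℂ) :
    sbS c γ (sbA c l (monomial γ a)) := by
  classical
  have h1 : ∀ j, sbS c (Finsupp.single j 1)
      (X j + C (l j) * X c : MvPolynomial (Fin (n + 1)) ℂ) := by
    intro j ε hε
    by_cases h2 : ε = Finsupp.single j 1
    · rw [h2]
      exact ⟨rfl, fun _ _ => rfl⟩
    · rw [coeff_add, coeff_X, if_neg (fun h => h2 h.symm), zero_add, coeff_C_mul, coeff_X] at hε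
      have h3 : Finsupp.single c 1 = ε := by
        by_contra h4
        exact hε (by rw [if_neg h4, mul_zero])
      have h4 : l j ≠ 0 := left_ne_zero_of_mul hε
      have h5 : j ≤ c := by
        by_contra h6
        exact h4 (hl j (not_le.1 h6))
      rw [← h3]
      refine ⟨?_, fun k hk => ?_⟩
      · rw [Finsupp.degree_single, Finsupp.degree_single]
      · rw [Finsupp.single_eq_of_ne hk.ne', Finsupp.single_eq_of_ne (lt_of_le_of_lt h5 hk).ne']
  have h2 : sbA c l (monomial γ a) = C a * ∏ j, (X j + C (l j) * X c) ^ γ j := by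
    unfold sbA
    rw [aeval_monomial, Finsupp.prod_fintype _ _ fun _ => pow_zero _]
    rfl
  have h3 := sbS_mul (sbS_C c a) (sbS_prod Finset.univ fun j => sbS_pow (h1 j) (γ j))
  have h4 : (0 : Fin (n + 1) →₀ ℕ) + ∑ j, γ j • Finsupp.single j 1 = γ := by
    rw [zero_add]
    have h5 : ∀ j, (γ j • Finsupp.single j 1 : Fin (n + 1) →₀ ℕ) = Finsupp.single j (γ j) := by
      intro j
      rw [Finsupp.smul_single, smul_eq_mul, mul_one]
    rw [Finset.sum_congr rfl fun j _ => h5 j]
    exact Finsupp.univ_sum_single γ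
  rw [h4] at h3
  rw [h2]
  exact h3

/-- the monomials of the transformed polynomial -/
private theorem sbA_supp {n : ℕ} {c : Fin (n + 1)} {l : Fin (n + 1) → ℂ}
    (hl : ∀ j, c < j → l j = 0) {F : MvPolynomial (Fin (n + 1)) ℂ} {ε : Fin (n + 1) →₀ ℕ}
    (hε : coeff ε (sbA c l F) ≠ 0) :
    ∃ γ ∈ F.support, ε.degree = γ.degree ∧ ∀ j, c < j → ε j = γ j := by
  rw [F.as_sum, map_sum, coeff_sum] at hε
  obtain ⟨γ, hγ, hne⟩ := Finset.exists_ne_zero_of_sum_ne_zero hε
  exact ⟨γ, hγ, sbA_monomial hl γ _ ε hne⟩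

private theorem sb_degree_le {n : ℕ} {F : MvPolynomial (Fin (n + 1)) ℂ} {D : ℕ}
    (h : ∀ γ ∈ F.support, γ.degree ≤ D) : F.totalDegree ≤ D := Finset.sup_le fun γ hγ => h γ hγ

private theorem sb_le_degree {n : ℕ} {F : MvPolynomial (Fin (n + 1)) ℂ} {γ : Fin (n + 1) →₀ ℕ}
    (h : γ ∈ F.support) : γ.degree ≤ F.totalDegree := le_totalDegree h

/-- the value of a form at a coordinate vector -/
private theorem sb_eval_single {n k : ℕ} {F : MvPolynomial (Fin (n + 1)) ℂ}
    (hF : F.IsHomogeneous k) (c : Fin (n + 1)) :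
    eval (Pi.single c 1) F = coeff (Finsupp.single c k) F := by
  classical
  rw [eval_eq']
  by_cases hm : Finsupp.single c k ∈ F.support
  · rw [Finset.sum_eq_single (Finsupp.single c k)]
    · have h1 : ∏ i, (Pi.single c 1 : Fin (n + 1) → ℂ) i ^ (Finsupp.single c k) i = 1 := by
        refine Finset.prod_eq_one fun i _ => ?_
        by_cases hi : i = c
        · rw [hi, Pi.single_eq_same, one_pow]
        · rw [Finsupp.single_eq_of_ne hi, pow_zero]
      rw [h1, mul_one]
    · intro d hd hne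
      have h2 : ∃ i, i ≠ c ∧ d i ≠ 0 := by
        by_contra hcon
        push Not at hcon
        apply hne
        have h3 : d.degree = k := (hF.degree_eq_sum_deg_support hd).symm
        have h4 : d.degree = d c := by
          rw [Finsupp.degree_eq_sum]
          exact Finset.sum_eq_single c (fun i _ hi => hcon i hi) (by simp)
        ext i
        by_cases hi : i = c
        · rw [hi, Finsupp.single_eq_same, ← h4, h3]
        · rw [hcon i hi, Finsupp.single_eq_of_ne hi]
      obtain ⟨i, hi, hdi⟩ := h2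
      rw [Finset.prod_eq_zero (Finset.mem_univ i), mul_zero]
      rw [Pi.single_eq_of_ne hi, zero_pow hdi]
    · intro h
      exact absurd hm h
  · rw [notMem_support_iff.1 hm]
    refine Finset.sum_eq_zero fun d hd => ?_
    have h2 : ∃ i, i ≠ c ∧ d i ≠ 0 := by
      by_contra hcon
      push Not at hcon
      apply hm
      have h3 : d.degree = k := (hF.degree_eq_sum_deg_support hd).symm
      have h4 : d.degree = d c := by
        rw [Finsupp.degree_eq_sum]
        exact Finset.sum_eq_single c (fun i _ hi => hcon i hi) (by simp)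
      have h5 : d = Finsupp.single c k := by
        ext i
        by_cases hi : i = c
        · rw [hi, Finsupp.single_eq_same, ← h4, h3]
        · rw [hcon i hi, Finsupp.single_eq_of_ne hi]
      rw [← h5]
      exact hd
    obtain ⟨i, hi, hdi⟩ := h2
    rw [Finset.prod_eq_zero (Finset.mem_univ i), mul_zero]
    rw [Pi.single_eq_of_ne hi, zero_pow hdi]

private theorem sb_scale {n k : ℕ} {F : MvPolynomial (Fin (n + 1)) ℂ} (hF : F.IsHomogeneous k)
    (t : ℂ) (y : Fin (n + 1) → ℂ) : eval (fun j => t * y j) F = t ^ k * eval y F := by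
  rw [eval_eq', eval_eq', Finset.mul_sum]
  refine Finset.sum_congr rfl fun d hd => ?_
  have h3 : ∑ i, d i = k := by
    rw [← Finsupp.degree_eq_sum]
    exact (hF.degree_eq_sum_deg_support hd).symm
  have h5 : ∏ i, (t * y i) ^ d i = t ^ k * ∏ i, y i ^ d i := by
    simp only [mul_pow]
    rw [Finset.prod_mul_distrib, Finset.prod_pow_eq_pow_sum, h3]
  rw [h5]
  ring

/-- there is a direction in which the top form does not vanish -/
private theorem sb_dir {n : ℕ} {F : MvPolynomial (Fin (n + 1)) ℂ} (hF0 : F ≠ 0) {k : ℕ}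
    (hF : F.IsHomogeneous k) (c : Fin (n + 1)) (hc : ∀ γ ∈ F.support, ∀ j, c < j → γ j = 0) :
    ∃ l : Fin (n + 1) → ℂ, (∀ j, c ≤ j → l j = 0) ∧
      eval (fun j => (Pi.single c 1 : Fin (n + 1) → ℂ) j + l j) F ≠ 0 := by
  classical
  have h1 : F * X c ≠ 0 := mul_ne_zero hF0 (X_ne_zero c)
  obtain ⟨y, hy⟩ : ∃ y, eval y (F * X c) ≠ 0 := by
    by_contra hcon
    push Not at hcon
    apply h1
    apply MvPolynomial.funext
    intro y
    rw [hcon y, map_zero]
  rw [map_mul, eval_X] at hy
  have hy1 : eval y F ≠ 0 := left_ne_zero_of_mul hy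
  have hy2 : y c ≠ 0 := right_ne_zero_of_mul hy
  refine ⟨fun j => if j < c then (y c)⁻¹ * y j else 0, fun j hj => if_neg (not_lt.2 hj), ?_⟩
  have h2 : eval (fun j => (Pi.single c 1 : Fin (n + 1) → ℂ) j +
      (if j < c then (y c)⁻¹ * y j else 0)) F = eval (fun j => (y c)⁻¹ * y j) F := by
    rw [eval_eq', eval_eq']
    refine Finset.sum_congr rfl fun d hd => ?_
    congr 1
    refine Finset.prod_congr rfl fun j _ => ?_
    rcases lt_trichotomy j c with h3 | h3 | h3
    · rw [if_pos h3, Pi.single_eq_of_ne h3.ne, zero_add]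
    · rw [h3, if_neg (lt_irrefl c), Pi.single_eq_same, add_zero, inv_mul_cancel₀ hy2]
    · rw [hc d hd j h3, pow_zero, pow_zero]
  rw [h2, sb_scale hF]
  exact mul_ne_zero (pow_ne_zero _ (inv_ne_zero hy2)) hy1

private theorem sb_top {n : ℕ} {F : MvPolynomial (Fin (n + 1)) ℂ} (hF0 : F ≠ 0) :
    homogeneousComponent F.totalDegree F ≠ 0 := by
  classical
  obtain ⟨γ, hγ, hd⟩ := Finset.exists_mem_eq_sup F.support (support_nonempty.2 hF0)
    (fun s => s.sum fun _ e => e)
  have h1 : γ.degree = F.totalDegree := hd.symm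
  intro h
  have h2 := congrArg (coeff γ) h
  rw [coeff_homogeneousComponent, if_pos h1, coeff_zero] at h2
  exact (mem_support_iff.1 hγ) h2

theorem step_lower {n m b : ℕ} (hm : 2 ≤ m) (hmn : m ≤ n + 1) {ι : Type} [Nonempty ι]
    (s : ι → Fin (n + 1) → ℂ) (δ : Fin n → ℕ) (g : Fin n → MvPolynomial (Fin (n + 1)) ℂ)
    (hL : Lvl m δ g s) (G : MvPolynomial (Fin (n + 1)) ℂ)
    (hG : G ∈ restrictSupport ℂ (Box n m b)) (hG0 : G ≠ 0) (hGs : ∀ q, eval (s q) G = 0) :
    ∃ (M : Matrix (Fin (n + 1)) (Fin (n + 1)) ℂ) (δ' : Fin n → ℕ)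
      (g' : Fin n → MvPolynomial (Fin (n + 1)) ℂ),
      IsUnit M.det ∧ Lvl (m - 1) δ' g' (fun q => M.mulVec (s q)) ∧
      (∀ i : Fin n, m ≤ (i : ℕ) + 1 → δ' i = δ i) ∧
      ∀ i : Fin n, (i : ℕ) + 1 = m - 1 → δ' i ≤ m * b := by
  classical
  set c : Fin (n + 1) := ⟨m - 1, by omega⟩ with hc
  have hcv : (c : ℕ) = m - 1 := rfl
  have hGb : ∀ γ ∈ G.support, ∀ j : Fin (n + 1), γ j ≤ b ∧ (m ≤ (j : ℕ) → γ j = 0) := by
    intro γ hγ
    rw [mem_restrictSupport_iff] at hG
    exact hG hγ
  have hGc : ∀ γ ∈ G.support, ∀ j, c < j → γ j = 0 := by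
    intro γ hγ j hj
    refine (hGb γ hγ j).2 ?_
    have : (c : ℕ) < j := hj
    omega
  set D := G.totalDegree with hD
  have hDb : D ≤ m * b := by
    refine sb_degree_le fun γ hγ => ?_
    rw [Finsupp.degree_eq_sum]
    have h1 : ∀ j : Fin (n + 1), γ j ≤ if (j : ℕ) < m then b else 0 := by
      intro j
      split_ifs with h2
      · exact (hGb γ hγ j).1
      · exact ((hGb γ hγ j).2 (not_lt.1 h2)).le
    refine (Finset.sum_le_sum fun j _ => h1 j).trans ?_
    rw [← Finset.sum_filter, Finset.sum_const, smul_eq_mul]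
    refine Nat.mul_le_mul_right _ ?_
    have h2 : (Finset.univ.filter fun j : Fin (n + 1) => (j : ℕ) < m).card ≤
        (Finset.range m).card := by
      refine Finset.card_le_card_of_injOn (fun j => (j : ℕ)) ?_ ?_
      · intro j hj
        rw [Finset.mem_coe, Finset.mem_filter] at hj
        exact Finset.mem_coe.2 (Finset.mem_range.2 hj.2)
      · intro j _ j' _ h
        exact Fin.ext h
    rwa [Finset.card_range] at h2
  have hD1 : 1 ≤ D := by
    by_contra h1
    have h2 : G.totalDegree = 0 := by omega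
    rw [totalDegree_eq_zero_iff_eq_C] at h2
    obtain ⟨q⟩ := ‹Nonempty ι›
    have h3 := hGs q
    rw [h2, eval_C] at h3
    apply hG0
    rw [h2, h3, C_0]
  have hGt0 : homogeneousComponent D G ≠ 0 := sb_top hG0
  have hGth : (homogeneousComponent D G).IsHomogeneous D := homogeneousComponent_isHomogeneous D G
  have hGtc : ∀ γ ∈ (homogeneousComponent D G).support, ∀ j, c < j → γ j = 0 := by
    intro γ hγ
    refine hGc γ ?_
    rw [mem_support_iff, coeff_homogeneousComponent] at hγ
    rw [mem_support_iff]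
    by_contra h1
    apply hγ
    rw [h1]
    exact ite_self _
  obtain ⟨l, hl0, hl1⟩ := sb_dir hGt0 hGth c hGtc
  have hl : ∀ j, c < j → l j = 0 := fun j hj => hl0 j hj.le
  have hlc : l c = 0 := hl0 c le_rfl
  -- the transformed polynomial
  set F := sbA c l G with hF
  set κ : ℂ := coeff (Finsupp.single c D) F with hκ
  have hκ0 : κ ≠ 0 := by
    have h1 : κ = coeff (Finsupp.single c D) (sbA c l (homogeneousComponent D G)) := by
      rw [hκ, hF]
      conv_lhs => rw [← sum_homogeneousComponent G, map_sum, coeff_sum]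
      refine Finset.sum_eq_single D ?_ ?_
      · intro k _ hk
        by_contra h2
        obtain ⟨γ, hγ, h3, -⟩ := sbA_supp hl h2
        rw [Finsupp.degree_single] at h3
        have h4 : γ.degree = k := ((homogeneousComponent_isHomogeneous k
          G).degree_eq_sum_deg_support hγ).symm
        exact hk (by rw [← h4, ← h3])
      · intro h2
        exact absurd (Finset.mem_range.2 (Nat.lt_succ_self _)) h2
    have h2 : (sbA c l (homogeneousComponent D G)).IsHomogeneous D := by
      intro ε hε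
      obtain ⟨γ, hγ, h3, -⟩ := sbA_supp hl hε
      have h4 : γ.degree = D := (hGth.degree_eq_sum_deg_support hγ).symm
      rw [← h4, ← h3]
      exact (Finsupp.degree_eq_weight_one (R := ℕ) ▸ rfl)
    rw [h1, ← sb_eval_single h2, sbA_eval]
    have h3 : (fun j => (Pi.single c 1 : Fin (n + 1) → ℂ) j +
        l j * (Pi.single c 1 : Fin (n + 1) → ℂ) c) =
        fun j => (Pi.single c 1 : Fin (n + 1) → ℂ) j + l j := by
      funext j
      rw [Pi.single_eq_same, mul_one]
    rw [h3]
    exact hl1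
  -- the matrices
  set M : Matrix (Fin (n + 1)) (Fin (n + 1)) ℂ :=
    Matrix.of fun j k => (if j = k then 1 else 0) - if k = c then l j else 0 with hM
  have hMv : ∀ (x : Fin (n + 1) → ℂ) (j), M.mulVec x j = x j - l j * x c := by
    intro x j
    rw [Matrix.mulVec, dotProduct]
    have h1 : ∀ k, M j k * x k = (if j = k then x k else 0) - if k = c then l j * x k else 0 := by
      intro k
      rw [hM, Matrix.of_apply, sub_mul]
      split_ifs <;> ring
    rw [Finset.sum_congr rfl fun k _ => h1 k, Finset.sum_sub_distrib, Finset.sum_ite_eq,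
      if_pos (Finset.mem_univ j), Finset.sum_ite_eq', if_pos (Finset.mem_univ c)]
  have hMA : ∀ x : Fin (n + 1) → ℂ, (fun j => M.mulVec x j + l j * M.mulVec x c) = x := by
    intro x
    funext j
    rw [hMv, hMv, hlc]
    ring
  have hMdet : IsUnit M.det := by
    rw [← Matrix.isUnit_iff_isUnit_det, ← Matrix.mulVec_injective_iff_isUnit]
    intro x y hxy
    have h1 := hMA x
    rw [hxy, hMA y] at h1
    exact h1.symm
  have hMge : ∀ (x : Fin (n + 1) → ℂ) (j), c ≤ j → M.mulVec x j = x j := by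
    intro x j hj
    rw [hMv, hl0 j hj, zero_mul, sub_zero]
  have hev : ∀ (q : ι) (Q : MvPolynomial (Fin (n + 1)) ℂ),
      eval (M.mulVec (s q)) (sbA c l Q) = eval (s q) Q := by
    intro q Q
    rw [sbA_eval, hMA]
  refine ⟨M, fun i => if (i : ℕ) + 1 = m - 1 then D else δ i,
    fun i => if (i : ℕ) + 1 = m - 1 then X c ^ D - C κ⁻¹ * F else sbA c l (g i), hMdet, ?_, ?_, ?_⟩
  · -- the new level
    have hcase : ∀ i : Fin n, (i : ℕ) + 1 = m - 1 → i.succ = c := by
      intro i hi
      apply Fin.ext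
      rw [Fin.val_succ, hcv, hi]
    have hlt : ∀ i : Fin n, m - 1 ≤ (i : ℕ) + 1 → ¬ (i : ℕ) + 1 = m - 1 → m ≤ (i : ℕ) + 1 := by
      intro i h1 h2
      omega
    have hcs : ∀ i : Fin n, m ≤ (i : ℕ) + 1 → c < i.succ := by
      intro i hi
      show (c : ℕ) < (i.succ : ℕ)
      rw [Fin.val_succ, hcv]
      omega
    have hFs : ∀ γ ∈ (X c ^ D - C κ⁻¹ * F).support, γ.degree ≤ D ∧ γ ≠ Finsupp.single c D ∧
        ∀ j, c < j → γ j = 0 := by
      intro γ hγ
      have h0 : γ ≠ Finsupp.single c D := by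
        rintro rfl
        apply mem_support_iff.1 hγ
        rw [coeff_sub, X_pow_eq_monomial, coeff_monomial, if_pos rfl, coeff_C_mul, ← hκ,
          inv_mul_cancel₀ hκ0, sub_self]
      rw [mem_support_iff, coeff_sub, X_pow_eq_monomial, coeff_monomial,
        if_neg (fun h => h0 h.symm), zero_sub, neg_ne_zero, coeff_C_mul] at hγ
      obtain ⟨γ', hγ', h1, h2⟩ := sbA_supp hl (right_ne_zero_of_mul hγ)
      refine ⟨?_, h0, fun j hj => ?_⟩
      · rw [h1]
        exact sb_le_degree hγ'
      · rw [h2 j hj]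
        exact hGc γ' hγ' j hj
    refine ⟨?_, ?_, ?_, ?_⟩
    · intro i hi
      by_cases h1 : (i : ℕ) + 1 = m - 1
      · show 1 ≤ (if (i : ℕ) + 1 = m - 1 then D else δ i)
        rw [if_pos h1]
        exact hD1
      · show 1 ≤ (if (i : ℕ) + 1 = m - 1 then D else δ i)
        rw [if_neg h1]
        exact hL.pos i (hlt i hi h1)
    · intro i hi
      by_cases h1 : (i : ℕ) + 1 = m - 1
      · simp only [if_pos h1]
        exact sb_degree_le fun γ hγ => (hFs γ hγ).1
      · simp only [if_neg h1]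
        refine sb_degree_le fun γ hγ => ?_
        obtain ⟨γ', hγ', h2, -⟩ := sbA_supp hl (mem_support_iff.1 hγ)
        rw [h2]
        exact (sb_le_degree hγ').trans (hL.deg i (hlt i hi h1))
    · intro i hi γ hγ
      by_cases h1 : (i : ℕ) + 1 = m - 1
      · simp only [if_pos h1] at hγ ⊢
        obtain ⟨h2, h3, h4⟩ := hFs γ hγ
        rw [hcase i h1]
        refine ⟨h4, ?_⟩
        by_contra h5
        push Not at h5
        apply h3
        have h6 : γ.degree = γ c + ∑ j ∈ Finset.univ.erase c, γ j := by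
          rw [Finsupp.degree_eq_sum, Finset.add_sum_erase _ _ (Finset.mem_univ c)]
        have h7 : ∑ j ∈ Finset.univ.erase c, γ j = 0 := by omega
        ext j
        by_cases hj : j = c
        · rw [hj, Finsupp.single_eq_same]
          omega
        · rw [Finsupp.single_eq_of_ne hj]
          exact (Finset.sum_eq_zero_iff.1 h7) j (Finset.mem_erase.2 ⟨hj, Finset.mem_univ j⟩)
      · simp only [if_neg h1] at hγ ⊢
        obtain ⟨γ', hγ', -, h3⟩ := sbA_supp hl (mem_support_iff.1 hγ)
        have h4 := hL.tri i (hlt i hi h1) γ' hγ'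
        have h5 := hcs i (hlt i hi h1)
        refine ⟨fun j hj => ?_, ?_⟩
        · rw [h3 j (h5.trans hj)]
          exact h4.1 j hj
        · rw [h3 _ h5]
          exact h4.2
    · intro i hi q
      by_cases h1 : (i : ℕ) + 1 = m - 1
      · simp only [if_pos h1]
        rw [hcase i h1, map_sub, map_pow, eval_X, map_mul, hF, hev q G, hGs q, mul_zero, sub_zero]
      · simp only [if_neg h1]
        rw [hev q, hMge _ _ (hcs i (hlt i hi h1)).le]
        exact hL.eq i (hlt i hi h1) q
  · intro i hi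
    simp only
    rw [if_neg (by omega)]
  · intro i hi
    simp only
    rw [if_pos hi]
    exact hDb

end Pool.Agent.H5.DG
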