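import Pool.Agent.H5.DG.StepA
import Pool.Agent.H5.DG.StepB

/-!
# Project DG, A4: the interpolation theorem

Claim (m), `1 ≤ m ≤ n + 1`: for all `D` there is `n₀` such that `Good ρ s` for all `s : ι → _`, `card ι ≥ n₀`, with
`Lvl m δ g s` and `∏ (m ≤ i + 1) δ i ≤ D`. Induction on `m`. `m = 1`: all points satisfy all equations
(`S = univ`, `M = 1`, `a = δ`, `W i = 1 + i`, the weight condition as in the header of `StepA`; `n₀ = ρ D + 1`).
Step: `b = ρ D m ^ (m - 1)`; then `ρ ((m b + 1) ^ (m - 1) D) < (b + 1) ^ m`; use `step_good` if the evaluation is injective on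
the box polynomials, otherwise `step_lower` and Claim `(m - 1)` with `D (m b)` (take `n₀ ≥ 1`), and `Good` is invariant under
an invertible linear change of the points (`good_of_mulVec`). The theorem is Claim `(n + 1)` with `D = 1`.
-/

open MvPolynomial

noncomputable section

namespace Pool.Agent.H5.DG

theorem good_of_mulVec {n ρ : ℕ} {ι : Type} (s : ι → Fin (n + 1) → ℂ)
    (M : Matrix (Fin (n + 1)) (Fin (n + 1)) ℂ) (hM : IsUnit M.det)
    (h : Good ρ fun q => M.mulVec (s q)) : Good ρ s := by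
  obtain ⟨M', a, W, g, S, hM', hsys, hcard, hS⟩ := h
  refine ⟨M' * M, a, W, g, S, ?_, hsys, hcard, ?_⟩
  · rw [Matrix.det_mul]
    exact hM'.mul hM
  · intro q hq i
    have := hS q hq i
    rw [Matrix.mulVec_mulVec] at this
    exact this

private theorem interp_base {n ρ D : ℕ} {ι : Type} [Fintype ι] (s : ι → Fin (n + 1) → ℂ)
    (δ : Fin n → ℕ) (g : Fin n → MvPolynomial (Fin (n + 1)) ℂ) (hL : Lvl 1 δ g s)
    (hD : ∏ i ∈ Finset.univ.filter (fun i : Fin n => 1 ≤ (i : ℕ) + 1), δ i ≤ D)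
    (hcard : ρ * D + 1 ≤ Fintype.card ι) : Good ρ s := by
  have hf : Finset.univ.filter (fun i : Fin n => 1 ≤ (i : ℕ) + 1) = Finset.univ := by
    apply Finset.filter_true_of_mem
    intro i _
    omega
  rw [hf] at hD
  refine ⟨1, δ, fun i => (i : ℕ) + 1, g, Finset.univ, by simp, ?_, ?_, ?_⟩
  · refine ⟨fun i => hL.pos i (by omega), fun i => by omega, fun i => hL.deg i (by omega), ?_⟩
    intro i γ hγ
    obtain ⟨h1, h2⟩ := hL.tri i (by omega) γ hγ
    have hdeg : ∑ j : Fin (n + 1), γ j ≤ δ i := by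
      have := (MvPolynomial.le_totalDegree hγ).trans (hL.deg i (by omega))
      rwa [Finsupp.sum_fintype _ _ (fun _ => rfl)] at this
    have hsum : ∑ j : Fin n, γ j.succ ≤ δ i := by
      rw [Fin.sum_univ_succ] at hdeg
      omega
    have hterm : ∀ j : Fin n, γ j.succ * ((j : ℕ) + 1) ≤
        γ j.succ * (i : ℕ) + (if j = i then γ i.succ else 0) := by
      intro j
      rcases lt_trichotomy j i with h | h | h
      · have h' : (j : ℕ) < (i : ℕ) := h
        rw [if_neg h.ne]
        have : γ j.succ * ((j : ℕ) + 1) ≤ γ j.succ * (i : ℕ) := Nat.mul_le_mul_left _ (by omega)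
        omega
      · subst h
        rw [if_pos rfl]
        apply le_of_eq
        ring
      · have : γ j.succ = 0 := h1 j.succ (Fin.succ_lt_succ_iff.2 h)
        simp [this]
    calc ∑ j : Fin n, γ j.succ * ((j : ℕ) + 1)
        ≤ ∑ j : Fin n, (γ j.succ * (i : ℕ) + (if j = i then γ i.succ else 0)) :=
          Finset.sum_le_sum fun j _ => hterm j
      _ = (∑ j : Fin n, γ j.succ) * (i : ℕ) + γ i.succ := by
          rw [Finset.sum_add_distrib, Finset.sum_mul]
          simp
      _ ≤ δ i * (i : ℕ) + γ i.succ := by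
          have := Nat.mul_le_mul_right (i : ℕ) hsum
          omega
      _ < δ i * (i : ℕ) + δ i := by omega
      _ = δ i * ((i : ℕ) + 1) := by ring
  · have := Nat.mul_le_mul_left ρ hD
    rw [Finset.card_univ]
    omega
  · intro q _ i
    rw [Matrix.one_mulVec]
    exact hL.eq i (by omega) q

private theorem interp_num {ρ D m b P : ℕ} (hm : 1 ≤ m) (hP : P ≤ D)
    (hb : b = ρ * D * m ^ (m - 1)) :
    ρ * ((m * b + 1) ^ (m - 1) * P) < (b + 1) ^ m := by
  have h1 : m * b + 1 ≤ m * (b + 1) := by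
    have : m * (b + 1) = m * b + m := by ring
    omega
  have h2 : (m * b + 1) ^ (m - 1) ≤ (m * (b + 1)) ^ (m - 1) := Nat.pow_le_pow_left h1 _
  have h3 : ρ * ((m * b + 1) ^ (m - 1) * P) ≤ ρ * ((m * (b + 1)) ^ (m - 1) * D) :=
    Nat.mul_le_mul_left _ (Nat.mul_le_mul h2 hP)
  have h4 : ρ * ((m * (b + 1)) ^ (m - 1) * D) = b * (b + 1) ^ (m - 1) := by
    rw [mul_pow, hb]
    ring
  have h5 : (b + 1) ^ m = (b + 1) * (b + 1) ^ (m - 1) := by
    rw [← pow_succ']
    congr 1
    omega
  rw [h5]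
  have h6 : 0 < (b + 1) ^ (m - 1) := by positivity
  calc ρ * ((m * b + 1) ^ (m - 1) * P) ≤ b * (b + 1) ^ (m - 1) := h3.trans_eq h4
    _ < (b + 1) * (b + 1) ^ (m - 1) := by
        apply Nat.mul_lt_mul_of_pos_right (by omega) h6

private theorem interp_claim (n ρ : ℕ) (m : ℕ) (hm : 1 ≤ m) (hmn : m ≤ n + 1) :
    ∀ D : ℕ, ∃ n₀ : ℕ, ∀ (ι : Type) [Fintype ι] (s : ι → Fin (n + 1) → ℂ) (δ : Fin n → ℕ)
      (g : Fin n → MvPolynomial (Fin (n + 1)) ℂ), Lvl m δ g s →
      ∏ i ∈ Finset.univ.filter (fun i : Fin n => m ≤ (i : ℕ) + 1), δ i ≤ D →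
      n₀ ≤ Fintype.card ι → Good ρ s := by
  induction m, hm using Nat.le_induction with
  | base =>
    intro D
    exact ⟨ρ * D + 1, fun ι _ s δ g hL hD hc => interp_base s δ g hL hD hc⟩
  | succ m hm ih =>
    intro D
    obtain ⟨n₀, hn₀⟩ := ih (by omega) (((m + 1) * (ρ * D * (m + 1) ^ (m + 1 - 1))) * D)
    refine ⟨max 1 n₀, ?_⟩
    intro ι _ s δ g hL hD hc
    have hne : Nonempty ι := by
      rw [← Fintype.card_pos_iff]
      have := le_max_left 1 n₀
      omega
    by_cases hinj : ∀ G ∈ restrictSupport ℂ (Box n (m + 1) (ρ * D * (m + 1) ^ (m + 1 - 1))),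
        (∀ q, eval (s q) G = 0) → G = 0
    · exact step_good (by omega) hmn s δ g hL hinj (interp_num (by omega) hD rfl)
    · push Not at hinj
      obtain ⟨G, hG, hGs, hG0⟩ := hinj
      obtain ⟨M, δ', g', hM, hL', hδ, hδ'⟩ :=
        step_lower (by omega) hmn s δ g hL G hG hG0 hGs
      refine good_of_mulVec s M hM ?_
      have hm1 : m + 1 - 1 = m := by omega
      rw [hm1] at hL'
      refine hn₀ ι _ δ' g' hL' ?_ ((le_max_right 1 n₀).trans hc)
      have hi0 : m - 1 < n := by omega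
      have hsplit : Finset.univ.filter (fun i : Fin n => m ≤ (i : ℕ) + 1) =
          insert (⟨m - 1, hi0⟩ : Fin n)
            (Finset.univ.filter (fun i : Fin n => m + 1 ≤ (i : ℕ) + 1)) := by
        ext i
        simp only [Finset.mem_filter, Finset.mem_univ, true_and, Finset.mem_insert, Fin.ext_iff]
        omega
      rw [hsplit, Finset.prod_insert (by simp; omega)]
      refine Nat.mul_le_mul ?_ ?_
      · exact hδ' ⟨m - 1, hi0⟩ (by simp; omega)
      · rw [Finset.prod_congr rfl (g := δ)]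
        · exact hD
        · intro i hi
          exact hδ i (by simpa using hi)

theorem interp (n ρ : ℕ) : ∃ n₀ : ℕ, ∀ (ι : Type) [Fintype ι] (s : ι → Fin (n + 1) → ℂ),
    n₀ ≤ Fintype.card ι → Good ρ s := by
  obtain ⟨n₀, hn₀⟩ := interp_claim n ρ (n + 1) (by omega) le_rfl 1
  refine ⟨n₀, ?_⟩
  intro ι _ s hc
  have hno : ∀ i : Fin n, ¬ (n + 1 ≤ (i : ℕ) + 1) := fun i h => by
    have := i.isLt
    omega
  refine hn₀ ι s (fun _ => 1) (fun _ => 0) ?_ ?_ hc
  · exact ⟨fun i h => absurd h (hno i), fun i h => absurd h (hno i),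
      fun i h => absurd h (hno i), fun i h => absurd h (hno i)⟩
  · simp

end Pool.Agent.H5.DG
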