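import Pool.Agent.H5.DG.Free
import Pool.Agent.H5.DG.FreeDeg

/-!
# Project DG, A2: the matrices of multiplication

`B = ℂ[u][x] / (x i ^ a i - g i)`, with the basis of `exists_basis` (applied to `toX (g i)`; the support and the
degrees of the coefficients of `toX G`: if `γ ∈ (toX G).support` then some `γ' ∈ G.support` has `γ' j.succ = γ j`,
and `natDegree ((toX G).coeff γ) + ∑ γ j ≤ G.totalDegree`). `U i = Algebra.leftMulMatrix b (mk (X i))`, so
`U i β α = b.repr (mk (X i) * b α) β`; they commute. Degrees: `repr_degree` with `f = X i * ∏ X j ^ α j`, `D = 1 + ∑ α j`.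
Left eigenvector: for a solution `x` over `u ∈ L` there is a ring homomorphism `B → L` with `X j ↦ x j`
(`Ideal.Quotient.lift` of `eval₂Hom (aeval u) x`); apply it to `X i * b α = ∑ U i β α • b β`.
Right eigenvector: if `∑ β, aeval u (U i α β) * y β = x i * y α` for all `i`, then for every
`f : MvPolynomial (Fin n) ℂ[X]` the matrix of `mk f` (entries `aeval u`) maps `y` to `f (u, x) y`
(`MvPolynomial.induction_on`); apply this to `f = X i ^ a i - toX (g i)`, `mk f = 0`.
-/

open MvPolynomial

noncomputable section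

namespace Pool.Agent.H5.DG

/-- the exponents of the variables `x` -/
private def mtT {n : ℕ} (γ : Fin (n + 1) →₀ ℕ) : Fin n →₀ ℕ :=
  Finsupp.equivFunOnFinite.symm fun j => γ j.succ

private theorem mtT_apply {n : ℕ} (γ : Fin (n + 1) →₀ ℕ) (j : Fin n) : mtT γ j = γ j.succ := rfl

private theorem mt_toX_monomial {n : ℕ} (γ : Fin (n + 1) →₀ ℕ) (c : ℂ) :
    toX (monomial γ c) = monomial (mtT γ) (Polynomial.C c * Polynomial.X ^ γ 0) := by
  unfold toX
  rw [aeval_monomial, Finsupp.prod_fintype _ _ fun _ => pow_zero _, Fin.prod_univ_succ]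
  simp only [Fin.cons_zero, Fin.cons_succ]
  rw [monomial_eq (R := Polynomial ℂ), Finsupp.prod_fintype _ _ fun _ => pow_zero _, C_mul, C_pow,
    mul_assoc]
  rfl

private theorem mt_toX {n : ℕ} (G : MvPolynomial (Fin (n + 1)) ℂ) :
    toX G = ∑ γ ∈ G.support, monomial (mtT γ) (Polynomial.C (coeff γ G) * Polynomial.X ^ γ 0) := by
  conv_lhs => rw [G.as_sum]
  have h1 : toX (∑ γ ∈ G.support, monomial γ (coeff γ G)) =
      ∑ γ ∈ G.support, toX (monomial γ (coeff γ G)) := by
    unfold toX
    rw [map_sum]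
  rw [h1]
  exact Finset.sum_congr rfl fun γ _ => mt_toX_monomial γ _

private theorem mt_supp {n : ℕ} {G : MvPolynomial (Fin (n + 1)) ℂ} {γ : Fin n →₀ ℕ}
    (h : γ ∈ (toX G).support) : ∃ γ' ∈ G.support, mtT γ' = γ := by
  classical
  by_contra hcon
  push Not at hcon
  apply mem_support_iff.1 h
  rw [mt_toX, coeff_sum]
  refine Finset.sum_eq_zero fun γ' hγ' => ?_
  rw [coeff_monomial, if_neg (hcon γ' hγ')]

private theorem mt_degree {n : ℕ} (γ : Fin (n + 1) →₀ ℕ) :
    γ 0 + ∑ j, mtT γ j = γ.degree := by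
  rw [Finsupp.degree_eq_sum, Fin.sum_univ_succ]
  rfl

private theorem mt_deg {n : ℕ} {G : MvPolynomial (Fin (n + 1)) ℂ} {γ : Fin n →₀ ℕ}
    (h : γ ∈ (toX G).support) :
    ((toX G).coeff γ).natDegree + ∑ j, γ j ≤ G.totalDegree := by
  classical
  have hle : ∀ γ' ∈ G.support, γ' 0 + ∑ j, mtT γ' j ≤ G.totalDegree := by
    intro γ' hγ'
    rw [mt_degree]
    exact le_totalDegree hγ'
  obtain ⟨γ0, hγ0, rfl⟩ := mt_supp h
  have h0 := hle γ0 hγ0
  have h1 : ((toX G).coeff (mtT γ0)).natDegree ≤ G.totalDegree - ∑ j, mtT γ0 j := by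
    rw [mt_toX, coeff_sum]
    refine Polynomial.natDegree_sum_le_of_forall_le _ _ fun γ' hγ' => ?_
    rw [coeff_monomial]
    split_ifs with h2
    · have h3 := hle γ' hγ'
      rw [h2] at h3
      refine (Polynomial.natDegree_C_mul_X_pow_le _ _).trans ?_
      omega
    · rw [Polynomial.natDegree_zero]
      exact Nat.zero_le _
  omega

section eval

variable {n : ℕ} {L : Type} [Field L] [Algebra ℂ L]

/-- the evaluation at `(u, x)` -/
private def mtPhi (u : L) (x : Fin n → L) : MvPolynomial (Fin n) (Polynomial ℂ) →+* L :=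
  eval₂Hom (Polynomial.aeval u : Polynomial ℂ →ₐ[ℂ] L).toRingHom x

private theorem mtPhi_C (u : L) (x : Fin n → L) (c : Polynomial ℂ) :
    mtPhi u x (C c) = Polynomial.aeval u c := by
  unfold mtPhi
  rw [eval₂Hom_C]
  rfl

private theorem mtPhi_X (u : L) (x : Fin n → L) (i : Fin n) : mtPhi u x (X i) = x i := by
  unfold mtPhi
  rw [eval₂Hom_X']

private theorem mtPhi_toX (u : L) (x : Fin n → L) (G : MvPolynomial (Fin (n + 1)) ℂ) :
    mtPhi u x (toX G) = evG G u x := by
  induction G using MvPolynomial.induction_on with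
  | C c =>
    have h1 : toX (C c : MvPolynomial (Fin (n + 1)) ℂ) = C (Polynomial.C c) := by
      unfold toX
      rw [aeval_C]
      rfl
    rw [h1, mtPhi_C, Polynomial.aeval_C]
    unfold evG
    rw [aeval_C]
  | add p q hp hq =>
    have h1 : toX (p + q) = toX p + toX q := by
      unfold toX
      rw [map_add]
    have h2 : evG (p + q) u x = evG p u x + evG q u x := by
      unfold evG
      rw [map_add]
    rw [h1, h2, map_add, hp, hq]
  | mul_X p i hp =>
    have h1 : toX (p * X i) = toX p * toX (X i) := by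
      unfold toX
      rw [map_mul]
    have h2 : evG (p * X i) u x = evG p u x * evG (X i) u x := by
      unfold evG
      rw [map_mul]
    rw [h1, h2, map_mul, hp]
    congr 1
    unfold toX evG
    rw [aeval_X, aeval_X]
    refine Fin.cases ?_ (fun j => ?_) i
    · rw [Fin.cons_zero, Fin.cons_zero, mtPhi_C, Polynomial.aeval_X]
    · rw [Fin.cons_succ, Fin.cons_succ, mtPhi_X]

end eval

theorem exists_mats {n : ℕ} {a W : Fin n → ℕ} {g : Fin n → MvPolynomial (Fin (n + 1)) ℂ}
    (h : IsSystem a W g) :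
    ∃ U : Fin n → Matrix (Idx a) (Idx a) (Polynomial ℂ),
      (∀ i j, U i * U j = U j * U i) ∧
      (∀ i α β, U i β α ≠ 0 →
        (U i β α).natDegree + ∑ j, (β j : ℕ) ≤ 1 + ∑ j, (α j : ℕ)) ∧
      (∀ (L : Type) [Field L] [Algebra ℂ L] (u : L) (x : Fin n → L),
        (∀ i, x i ^ a i = evG (g i) u x) → ∀ (i : Fin n) (α : Idx a),
        ∑ β : Idx a, (∏ j, x j ^ (β j : ℕ)) * Polynomial.aeval u (U i β α) =
          x i * ∏ j, x j ^ (α j : ℕ)) ∧
      (∀ (L : Type) [Field L] [Algebra ℂ L] (u : L) (x : Fin n → L) (y : Idx a → L),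
        Eig U u x y → ∀ i, x i ^ a i = evG (g i) u x) := by
  classical
  set gX : Fin n → MvPolynomial (Fin n) (Polynomial ℂ) := fun i => toX (g i) with hgX
  have hw : ∀ i, ∀ γ ∈ (gX i).support, ∑ j, γ j * W j < a i * W i := by
    intro i γ hγ
    obtain ⟨γ', hγ', rfl⟩ := mt_supp hγ
    exact h.weight i γ' hγ'
  have hdeg : ∀ i, ∀ γ ∈ (gX i).support, ((gX i).coeff γ).natDegree + ∑ j, γ j ≤ a i :=
    fun i γ hγ => (mt_deg hγ).trans (h.deg i)
  obtain ⟨b, hb⟩ := exists_basis a h.a_pos W h.W_pos gX hw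
  set mk := Ideal.Quotient.mk (sysIdeal a gX) with hmk
  set U : Fin n → Matrix (Idx a) (Idx a) (Polynomial ℂ) := fun i =>
    Algebra.leftMulMatrix b (mk (X i)) with hU
  have hUr : ∀ i β α, U i β α = b.repr (mk (X i * ∏ j, X j ^ (α j : ℕ))) β := by
    intro i β α
    rw [hU]
    simp only
    rw [Algebra.leftMulMatrix_eq_repr_mul, hb, ← map_mul mk]
  have hrel : ∀ (L : Type) [Field L] [Algebra ℂ L] (u : L) (x : Fin n → L),
      (∀ i, x i ^ a i = evG (g i) u x) ↔ ∀ f ∈ sysIdeal a gX, mtPhi u x f = 0 := by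
    intro L _ _ u x
    constructor
    · intro hx f hf
      have h1 : sysIdeal a gX ≤ RingHom.ker (mtPhi u x) := by
        unfold sysIdeal
        rw [Ideal.span_le]
        rintro _ ⟨i, rfl⟩
        show mtPhi u x (X i ^ a i - gX i) = 0
        rw [map_sub, map_pow, mtPhi_X, hgX]
        simp only
        rw [mtPhi_toX, hx i, sub_self]
      exact h1 hf
    · intro hf i
      have h1 := hf _ (Ideal.subset_span ⟨i, rfl⟩)
      dsimp only at h1
      rw [map_sub, map_pow, mtPhi_X, hgX] at h1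
      simp only at h1
      rw [mtPhi_toX, sub_eq_zero] at h1
      exact h1
  refine ⟨U, ?_, ?_, ?_, ?_⟩
  · intro i j
    rw [hU]
    simp only
    rw [← map_mul (Algebra.leftMulMatrix b), ← map_mul (Algebra.leftMulMatrix b),
      mul_comm (mk (X i))]
  · intro i α β hne
    rw [hUr] at hne ⊢
    refine repr_degree a h.a_pos W h.W_pos gX hw hdeg b hb _ _ ?_ β hne
    set e : Fin n →₀ ℕ := Finsupp.single i 1 +
      Finsupp.equivFunOnFinite.symm (fun j => (α j : ℕ)) with he
    have h1 : (X i * ∏ j, X j ^ (α j : ℕ) : MvPolynomial (Fin n) (Polynomial ℂ)) =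
        monomial e 1 := by
      have h2 : (∏ j, X j ^ (α j : ℕ) : MvPolynomial (Fin n) (Polynomial ℂ)) =
          monomial (Finsupp.equivFunOnFinite.symm (fun j => (α j : ℕ))) 1 := by
        rw [monomial_eq, C_1, one_mul, Finsupp.prod_fintype _ _ fun _ => pow_zero _]
        rfl
      rw [h2, he]
      have h3 : (X i : MvPolynomial (Fin n) (Polynomial ℂ)) =
          monomial (Finsupp.single i 1) 1 := rfl
      rw [h3, monomial_mul, one_mul]
    intro γ hγ
    rw [h1] at hγ ⊢
    have h2 : γ = e := by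
      by_contra h3
      apply mem_support_iff.1 hγ
      rw [coeff_monomial, if_neg (fun h4 => h3 h4.symm)]
    rw [h2, coeff_monomial, if_pos rfl, Polynomial.natDegree_one, zero_add, he]
    have h3 : ∀ j, (Finsupp.single i 1 + Finsupp.equivFunOnFinite.symm
        (fun j => (α j : ℕ)) : Fin n →₀ ℕ) j = (Finsupp.single i 1 : Fin n →₀ ℕ) j + α j :=
      fun j => rfl
    rw [Finset.sum_congr rfl fun j _ => h3 j, Finset.sum_add_distrib]
    refine Nat.add_le_add_right ?_ _
    rw [← Finsupp.degree_eq_sum, Finsupp.degree_single]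
  · intro L _ _ u x hx i α
    have hker : ∀ f ∈ sysIdeal a gX, mtPhi u x f = 0 := (hrel L u x).1 hx
    set ψ : (MvPolynomial (Fin n) (Polynomial ℂ) ⧸ sysIdeal a gX) →+* L :=
      Ideal.Quotient.lift (sysIdeal a gX) (mtPhi u x) hker with hψ
    have hψmk : ∀ f, ψ (mk f) = mtPhi u x f := fun f => Ideal.Quotient.lift_mk _ _ _
    have hψb : ∀ β : Idx a, ψ (b β) = ∏ j, x j ^ (β j : ℕ) := by
      intro β
      rw [hb, hψmk, map_prod]
      exact Finset.prod_congr rfl fun j _ => by rw [map_pow, mtPhi_X]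
    have hψs : ∀ (c : Polynomial ℂ) (y : MvPolynomial (Fin n) (Polynomial ℂ) ⧸ sysIdeal a gX),
        ψ (c • y) = Polynomial.aeval u c * ψ y := by
      intro c y
      obtain ⟨f, rfl⟩ := Ideal.Quotient.mk_surjective y
      have h1 : c • mk f = mk (c • f) := rfl
      rw [← hmk, h1, hψmk, hψmk, smul_eq_C_mul, map_mul, mtPhi_C]
    have h1 := b.sum_repr (mk (X i) * b α)
    have h2 := congrArg ψ h1
    rw [map_sum, map_mul ψ, hψmk, mtPhi_X, hψb] at h2
    rw [← h2]
    refine Finset.sum_congr rfl fun β _ => ?_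
    rw [hψs, hψb, mul_comm]
    congr 2
    rw [hU]
    simp only
    rw [Algebra.leftMulMatrix_eq_repr_mul]
  · intro L _ _ u x y hy
    rw [hrel L u x]
    intro f hf
    set θ : MvPolynomial (Fin n) (Polynomial ℂ) →+* Matrix (Idx a) (Idx a) L :=
      ((Polynomial.aeval u : Polynomial ℂ →ₐ[ℂ] L).toRingHom.mapMatrix).comp
        ((Algebra.leftMulMatrix b).toRingHom.comp mk) with hθ
    have hθX : ∀ i α β, θ (X i) α β = Polynomial.aeval u (U i α β) := fun i α β => rfl
    have hθC : ∀ c : Polynomial ℂ, θ (C c) = (Polynomial.aeval u c) • (1 : Matrix _ _ L) := by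
      intro c
      have h1 : Algebra.leftMulMatrix b (mk (C c)) =
          algebraMap (Polynomial ℂ) (Matrix (Idx a) (Idx a) (Polynomial ℂ)) c :=
        (Algebra.leftMulMatrix b).commutes c
      ext α β
      have h2 : θ (C c) α β = Polynomial.aeval u (Algebra.leftMulMatrix b (mk (C c)) α β) := rfl
      rw [h2, h1, Matrix.algebraMap_matrix_apply, Matrix.smul_apply, Matrix.one_apply]
      split_ifs
      · simp
      · simp
    have key : ∀ f, (θ f).mulVec y = mtPhi u x f • y := by
      intro f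
      induction f using MvPolynomial.induction_on with
      | C c =>
        rw [hθC, mtPhi_C, Matrix.smul_mulVec, Matrix.one_mulVec]
      | add p q hp hq => rw [map_add, map_add, Matrix.add_mulVec, hp, hq, add_smul]
      | mul_X p i hp =>
        have h1 : (θ (X i)).mulVec y = x i • y := by
          funext α
          have h2 := hy.2 i α
          rw [Matrix.mulVec, dotProduct, Pi.smul_apply, smul_eq_mul, ← h2]
          exact Finset.sum_congr rfl fun β _ => by rw [hθX]
        rw [map_mul, map_mul, ← Matrix.mulVec_mulVec, h1, Matrix.mulVec_smul, hp, mtPhi_X,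
          smul_smul, mul_comm]
    have h1 : θ f = 0 := by
      have h2 : mk f = 0 := Ideal.Quotient.eq_zero_iff_mem.2 hf
      rw [hθ]
      simp only [RingHom.comp_apply, h2, map_zero]
    have h2 := key f
    rw [h1, Matrix.zero_mulVec] at h2
    obtain ⟨α, hα⟩ := Function.ne_iff.1 hy.1
    have h3 := congrFun h2 α
    rw [Pi.smul_apply, smul_eq_mul, Pi.zero_apply] at h3
    exact (mul_eq_zero.1 h3.symm).resolve_right hα

end Pool.Agent.H5.DG
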