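import Pool.Agent.H5.DG.DefsA

/-!
# Project DG, A2: degrees of the determinant

The entry `(β, α)` of the matrix is a polynomial in `u` whose coefficients are homogeneous of degree `1`
in `v`, and all of whose monomials `v ^ γ u ^ b` satisfy `γ 0 + b ≤ 1 + w α - w β` (as integers). Both properties are
multiplicative; in the expansion of the determinant the sum of the bounds over `α` (with `β = σ α`) is `card ι`.
-/

open MvPolynomial

noncomputable section

namespace Pool.Agent.H5.DG

private def PP {n : ℕ} (k : ℕ) (d : ℤ) (p : Polynomial (PV n)) : Prop :=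
  (∀ i, (p.coeff i).IsHomogeneous k) ∧
    ∀ i, ∀ γ ∈ (p.coeff i).support, ((γ 0 : ℕ) : ℤ) + (i : ℤ) ≤ d

private lemma pp_zero {n : ℕ} (k : ℕ) (d : ℤ) : PP k d (0 : Polynomial (PV n)) := by
  refine ⟨fun i => ?_, fun i γ hγ => ?_⟩
  · simpa using MvPolynomial.isHomogeneous_zero _ _ _
  · simp at hγ

private lemma pp_add {n : ℕ} {k : ℕ} {d : ℤ} {p q : Polynomial (PV n)} (hp : PP k d p)
    (hq : PP k d q) : PP k d (p + q) := by
  refine ⟨fun i => ?_, fun i γ hγ => ?_⟩
  · rw [Polynomial.coeff_add]; exact (hp.1 i).add (hq.1 i)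
  · rw [Polynomial.coeff_add] at hγ
    rcases Finset.mem_union.1 (MvPolynomial.support_add hγ) with h | h
    · exact hp.2 i γ h
    · exact hq.2 i γ h

private lemma pp_neg {n : ℕ} {k : ℕ} {d : ℤ} {p : Polynomial (PV n)} (hp : PP k d p) :
    PP k d (-p) := by
  refine ⟨fun i => ?_, fun i γ hγ => ?_⟩
  · rw [Polynomial.coeff_neg]; exact (hp.1 i).neg
  · rw [Polynomial.coeff_neg, MvPolynomial.support_neg] at hγ
    exact hp.2 i γ hγ

private lemma pp_sum {n : ℕ} {k : ℕ} {d : ℤ} {σ : Type} (s : Finset σ)
    (f : σ → Polynomial (PV n)) (h : ∀ x ∈ s, PP k d (f x)) : PP k d (∑ x ∈ s, f x) := by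
  classical
  induction s using Finset.induction_on with
  | empty => simpa using pp_zero k d
  | insert a s ha ih =>
    rw [Finset.sum_insert ha]
    exact pp_add (h a (Finset.mem_insert_self a s))
      (ih fun x hx => h x (Finset.mem_insert_of_mem hx))

private lemma pp_coeff_sum_aux {n : ℕ} {σ : Type} (s : Finset σ) (f : σ → PV n)
    (γ : Fin (n + 2) →₀ ℕ) (h : γ ∈ (∑ x ∈ s, f x).support) : ∃ x ∈ s, γ ∈ (f x).support := by
  classical
  have := MvPolynomial.support_sum (s := s) (f := f) h
  simpa using this

private lemma pp_mul {n : ℕ} {k l : ℕ} {d e : ℤ} {p q : Polynomial (PV n)} (hp : PP k d p)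
    (hq : PP l e q) : PP (k + l) (d + e) (p * q) := by
  classical
  refine ⟨fun i => ?_, fun i γ hγ => ?_⟩
  · rw [Polynomial.coeff_mul]
    exact MvPolynomial.IsHomogeneous.sum _ _ _ fun x _ => (hp.1 _).mul (hq.1 _)
  · rw [Polynomial.coeff_mul] at hγ
    obtain ⟨x, hx, hγ'⟩ := pp_coeff_sum_aux _ _ _ hγ
    have h1 := MvPolynomial.support_mul _ _ hγ'
    obtain ⟨a, ha, b, hb, hab⟩ := Finset.mem_add.1 h1
    have h2 := hp.2 _ a ha
    have h3 := hq.2 _ b hb
    have h4 : x.1 + x.2 = i := Finset.HasAntidiagonal.mem_antidiagonal.1 hx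
    subst hab
    rw [← h4, Finsupp.add_apply]
    push_cast
    linarith

private lemma pp_one {n : ℕ} : PP 0 0 (1 : Polynomial (PV n)) := by
  refine ⟨fun i => ?_, fun i γ hγ => ?_⟩
  · rw [Polynomial.coeff_one]
    split_ifs
    · exact MvPolynomial.isHomogeneous_one _ _
    · exact MvPolynomial.isHomogeneous_zero _ _ _
  · rw [Polynomial.coeff_one] at hγ
    split_ifs at hγ with h
    · rw [MvPolynomial.support_one] at hγ
      rw [Finset.mem_singleton] at hγ
      subst hγ
      subst h
      simp
    · simp at hγ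

private lemma pp_prod {n : ℕ} {σ : Type} (s : Finset σ) (k : σ → ℕ) (d : σ → ℤ)
    (f : σ → Polynomial (PV n)) (h : ∀ x ∈ s, PP (k x) (d x) (f x)) :
    PP (∑ x ∈ s, k x) (∑ x ∈ s, d x) (∏ x ∈ s, f x) := by
  classical
  induction s using Finset.induction_on with
  | empty => simpa using pp_one
  | insert a s ha ih =>
    rw [Finset.prod_insert ha, Finset.sum_insert ha, Finset.sum_insert ha]
    exact pp_mul (h a (Finset.mem_insert_self a s))
      (ih fun x hx => h x (Finset.mem_insert_of_mem hx))

private lemma pp_CX {n : ℕ} (j : Fin (n + 2)) (r : Polynomial ℂ) (d : ℤ)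
    (hr : ∀ i, r.coeff i ≠ 0 → (((if j = 0 then 1 else 0 : ℕ) : ℕ) : ℤ) + (i : ℤ) ≤ d) :
    PP 1 d (Polynomial.C (MvPolynomial.X j) * r.map MvPolynomial.C : Polynomial (PV n)) := by
  classical
  have hc : ∀ i, (Polynomial.C (MvPolynomial.X j) * r.map MvPolynomial.C :
      Polynomial (PV n)).coeff i = MvPolynomial.monomial (Finsupp.single j 1) (r.coeff i) := by
    intro i
    rw [Polynomial.coeff_C_mul, Polynomial.coeff_map, mul_comm, MvPolynomial.C_mul_X_eq_monomial]
  refine ⟨fun i => ?_, fun i γ hγ => ?_⟩
  · rw [hc]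
    exact MvPolynomial.isHomogeneous_monomial _ (Finsupp.degree_single _ _)
  · rw [hc] at hγ
    have h0 : r.coeff i ≠ 0 := by
      intro h0
      rw [h0] at hγ
      simp at hγ
    have h1 := MvPolynomial.support_monomial_subset hγ
    rw [Finset.mem_singleton] at h1
    subst h1
    have h2 := hr i h0
    rw [Finsupp.single_apply]
    exact h2

theorem na_hom_deg {n : ℕ} {ι : Type} [Fintype ι] [DecidableEq ι]
    (U : Fin n → Matrix ι ι (Polynomial ℂ)) (w : ι → ℕ)
    (hU : ∀ i α β, U i β α ≠ 0 → (U i β α).natDegree + w β ≤ 1 + w α) :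
    (∀ i, ((NA U).coeff i).IsHomogeneous (Fintype.card ι)) ∧
    ∀ i, ∀ γ ∈ ((NA U).coeff i).support, γ 0 + i ≤ Fintype.card ι := by
  classical
  have key : PP (Fintype.card ι) (Fintype.card ι : ℤ) (NA U) := by
    unfold NA
    rw [Matrix.det_apply]
    refine pp_sum _ _ fun σ _ => ?_
    have hprod : PP (Fintype.card ι) (Fintype.card ι : ℤ)
        (∏ i : ι, (Matrix.of fun α β : ι =>
          (if α = β then Polynomial.C (MvPolynomial.X 0) +
            Polynomial.C (MvPolynomial.X 1) * Polynomial.X else 0) +
          ∑ i : Fin n, Polynomial.C (MvPolynomial.X i.succ.succ) *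
            (U i α β).map MvPolynomial.C : Matrix ι ι (Polynomial (PV n))) (σ i) i) := by
      have h1 := pp_prod (n := n) (Finset.univ : Finset ι) (fun _ => 1)
        (fun i => 1 + (w i : ℤ) - (w (σ i) : ℤ)) (fun i => (Matrix.of fun α β : ι =>
          (if α = β then Polynomial.C (MvPolynomial.X 0) +
            Polynomial.C (MvPolynomial.X 1) * Polynomial.X else 0) +
          ∑ i : Fin n, Polynomial.C (MvPolynomial.X i.succ.succ) *
            (U i α β).map MvPolynomial.C : Matrix ι ι (Polynomial (PV n))) (σ i) i) ?_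
      · have h2 : (∑ _x : ι, 1 : ℕ) = Fintype.card ι := by simp
        have h3 : (∑ i : ι, (1 + (w i : ℤ) - (w (σ i) : ℤ))) = (Fintype.card ι : ℤ) := by
          rw [Finset.sum_sub_distrib, Finset.sum_add_distrib,
            Equiv.sum_comp σ (fun i => (w i : ℤ))]
          simp
        rw [h2, h3] at h1
        exact h1
      · intro i _
        rw [Matrix.of_apply]
        refine pp_add ?_ ?_
        · split_ifs with h
          · rw [h]
            refine pp_add ?_ ?_
            · have := pp_CX (n := n) 0 (1 : Polynomial ℂ) (1 + (w i : ℤ) - (w i : ℤ)) (by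
                intro j hj
                rw [Polynomial.coeff_one] at hj
                split_ifs at hj with h
                · subst h; simp
                · exact absurd rfl hj)
              simpa using this
            · have := pp_CX (n := n) 1 (Polynomial.X : Polynomial ℂ) (1 + (w i : ℤ) - (w i : ℤ)) (by
                intro j hj
                rw [Polynomial.coeff_X] at hj
                split_ifs at hj with h
                · subst h; simp
                · exact absurd rfl hj)
              simpa using this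
          · exact pp_zero _ _
        · refine pp_sum _ _ fun j _ => ?_
          refine pp_CX _ _ _ ?_
          intro t ht
          have h0 : U j (σ i) i ≠ 0 := by
            intro h0
            rw [h0] at ht
            simp at ht
          have h1 := hU j i (σ i) h0
          have h2 : t ≤ (U j (σ i) i).natDegree := Polynomial.le_natDegree_of_ne_zero ht
          have h3 : (if (j.succ.succ : Fin (n + 2)) = 0 then 1 else 0 : ℕ) = 0 := by
            rw [if_neg (Fin.succ_ne_zero _)]
          rw [h3]
          push_cast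
          have h4 : t + w (σ i) ≤ 1 + w i := by omega
          have h5 : (t : ℤ) + (w (σ i) : ℤ) ≤ 1 + (w i : ℤ) := by exact_mod_cast h4
          linarith
    rcases Int.units_eq_one_or (Equiv.Perm.sign σ) with hs | hs
    · rw [hs, one_smul]; exact hprod
    · rw [hs, Units.neg_smul, one_smul]; exact pp_neg hprod
  refine ⟨key.1, fun i γ hγ => ?_⟩
  have := key.2 i γ hγ
  exact_mod_cast this

end Pool.Agent.H5.DG
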