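import Pool.Agent.H5.DG.DefsA

/-!
# Project DG, A2: the zeros of the determinant

`val (NA U) v u` is the determinant of `A = (v 0 + v 1 u) 1 + ∑ v (i + 2) U i (u)`. If it vanishes, the kernel of `A` is
not zero and invariant under the commuting matrices `U i (u)`, so it contains a common eigenvector
(`L` algebraically closed; e.g. by induction on the number of matrices, or
`Module.End.exists_hasEigenvalue` on successive eigenspaces). Conversely `A y = (v 0 + v 1 u + ∑ v (i + 2) x i) y`.
Finiteness: each `x i` is an eigenvalue of `U i (u)`.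
-/

open MvPolynomial

noncomputable section

namespace Pool.Agent.H5.DG

/-- The matrix whose determinant is `val (NA U) v u`. -/
private def AA {n : ℕ} {ι : Type} [Fintype ι] [DecidableEq ι]
    (U : Fin n → Matrix ι ι (Polynomial ℂ)) {L : Type} [Field L] [Algebra ℂ L]
    (v : Fin (n + 2) → L) (u : L) : Matrix ι ι L :=
  Matrix.of fun α β : ι => (if α = β then v 0 + v 1 * u else 0) +
    ∑ i : Fin n, v i.succ.succ * Polynomial.aeval u (U i α β)

private lemma val_NA {n : ℕ} {ι : Type} [Fintype ι] [DecidableEq ι]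
    (U : Fin n → Matrix ι ι (Polynomial ℂ)) {L : Type} [Field L] [Algebra ℂ L]
    (v : Fin (n + 2) → L) (u : L) : val (NA U) v u = (AA U v u).det := by
  have h1 : val (NA U) v u = ((Polynomial.evalRingHom u).comp
      (Polynomial.mapRingHom (MvPolynomial.aeval v : PV n →ₐ[ℂ] L).toRingHom)) (NA U) := rfl
  rw [h1]
  unfold NA
  rw [RingHom.map_det]
  congr 1
  ext α β
  rw [RingHom.mapMatrix_apply, Matrix.map_apply, Matrix.of_apply]
  unfold AA
  rw [Matrix.of_apply, map_add, map_sum]
  have hc : ∀ j : Fin (n + 2), ((Polynomial.evalRingHom u).comp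
      (Polynomial.mapRingHom (MvPolynomial.aeval v : PV n →ₐ[ℂ] L).toRingHom))
      (Polynomial.C (MvPolynomial.X j)) = v j := by
    intro j
    simp
  congr 1
  · split_ifs with h
    · rw [map_add, map_mul, hc, hc]
      simp
    · exact map_zero _
  · refine Finset.sum_congr rfl fun i _ => ?_
    rw [map_mul, hc]
    congr 1
    have h2 : ((Polynomial.evalRingHom u).comp
      (Polynomial.mapRingHom (MvPolynomial.aeval v : PV n →ₐ[ℂ] L).toRingHom))
      ((U i α β).map MvPolynomial.C) = (((U i α β).map MvPolynomial.C).map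
        (MvPolynomial.aeval v : PV n →ₐ[ℂ] L).toRingHom).eval u := rfl
    rw [h2, Polynomial.map_map, Polynomial.aeval_def, Polynomial.eval_map]
    congr 1
    ext z
    simp

/-- The matrix `U i` at `u`. -/
private def BB {n : ℕ} {ι : Type} [Fintype ι] [DecidableEq ι]
    (U : Fin n → Matrix ι ι (Polynomial ℂ)) {L : Type} [Field L] [Algebra ℂ L]
    (u : L) (i : Fin n) : Matrix ι ι L := (Polynomial.aeval u : Polynomial ℂ →ₐ[ℂ] L).toRingHom.mapMatrix (U i)

private lemma BB_apply {n : ℕ} {ι : Type} [Fintype ι] [DecidableEq ι]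
    (U : Fin n → Matrix ι ι (Polynomial ℂ)) {L : Type} [Field L] [Algebra ℂ L]
    (u : L) (i : Fin n) (α β : ι) : BB U u i α β = Polynomial.aeval u (U i α β) := rfl

private lemma AA_eq {n : ℕ} {ι : Type} [Fintype ι] [DecidableEq ι]
    (U : Fin n → Matrix ι ι (Polynomial ℂ)) {L : Type} [Field L] [Algebra ℂ L]
    (v : Fin (n + 2) → L) (u : L) :
    AA U v u = (v 0 + v 1 * u) • (1 : Matrix ι ι L) + ∑ i : Fin n, v i.succ.succ • BB U u i := by
  ext α β
  rw [Matrix.add_apply, Matrix.sum_apply, Matrix.smul_apply, Matrix.one_apply]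
  unfold AA
  rw [Matrix.of_apply]
  congr 1
  split_ifs <;> simp

private lemma AA_mulVec {n : ℕ} {ι : Type} [Fintype ι] [DecidableEq ι]
    (U : Fin n → Matrix ι ι (Polynomial ℂ)) {L : Type} [Field L] [Algebra ℂ L]
    (v : Fin (n + 2) → L) (u : L) (y : ι → L) :
    (AA U v u).mulVec y = (v 0 + v 1 * u) • y +
      ∑ i : Fin n, v i.succ.succ • (BB U u i).mulVec y := by
  rw [AA_eq, Matrix.add_mulVec, Matrix.smul_mulVec, Matrix.one_mulVec, Matrix.sum_mulVec]
  congr 1
  exact Finset.sum_congr rfl fun i _ => Matrix.smul_mulVec _ _ _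

private lemma AA_vecMul {n : ℕ} {ι : Type} [Fintype ι] [DecidableEq ι]
    (U : Fin n → Matrix ι ι (Polynomial ℂ)) {L : Type} [Field L] [Algebra ℂ L]
    (v : Fin (n + 2) → L) (u : L) (y : ι → L) :
    Matrix.vecMul y (AA U v u) = (v 0 + v 1 * u) • y +
      ∑ i : Fin n, v i.succ.succ • Matrix.vecMul y (BB U u i) := by
  rw [AA_eq, Matrix.vecMul_add, Matrix.vecMul_smul, Matrix.vecMul_one, Matrix.vecMul_sum]
  congr 1
  exact Finset.sum_congr rfl fun i _ => Matrix.vecMul_smul _ _ _

private lemma eig_iff {n : ℕ} {ι : Type} [Fintype ι] [DecidableEq ι]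
    (U : Fin n → Matrix ι ι (Polynomial ℂ)) {L : Type} [Field L] [Algebra ℂ L]
    (u : L) (x : Fin n → L) (y : ι → L) :
    Eig U u x y ↔ y ≠ 0 ∧ ∀ i, (BB U u i).mulVec y = x i • y := by
  unfold Eig
  refine and_congr_right fun _ => forall_congr' fun i => ?_
  rw [funext_iff]
  exact Iff.rfl

/-- Common eigenvectors of commuting endomorphisms in an invariant subspace. -/
private lemma common_eig {L V : Type} [Field L] [IsAlgClosed L] [AddCommGroup V] [Module L V]
    [FiniteDimensional L V] {n : ℕ} (f : Fin n → Module.End L V)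
    (hf : ∀ i j y, f i (f j y) = f j (f i y)) (E : Submodule L V)
    (hE : ∀ i, ∀ y ∈ E, f i y ∈ E) (hE0 : E ≠ ⊥) (s : Finset (Fin n)) :
    ∃ (x : Fin n → L) (y : V), y ∈ E ∧ y ≠ 0 ∧ ∀ i ∈ s, f i y = x i • y := by
  classical
  induction s using Finset.induction_on with
  | empty =>
    obtain ⟨y, hy, hy0⟩ := Submodule.exists_mem_ne_zero_of_ne_bot hE0
    exact ⟨0, y, hy, hy0, fun i hi => absurd hi (Finset.notMem_empty i)⟩
  | insert a s ha ih =>
    obtain ⟨x, y, hy, hy0, hs⟩ := ih
    let G : Submodule L V :=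
      { carrier := {z | z ∈ E ∧ ∀ i ∈ s, f i z = x i • z}
        add_mem' := by
          rintro z z' ⟨h1, h2⟩ ⟨h3, h4⟩
          refine ⟨E.add_mem h1 h3, fun i hi => ?_⟩
          rw [map_add, h2 i hi, h4 i hi, smul_add]
        zero_mem' := ⟨E.zero_mem, fun i _ => by rw [map_zero, smul_zero]⟩
        smul_mem' := by
          rintro c z ⟨h1, h2⟩
          refine ⟨E.smul_mem c h1, fun i hi => ?_⟩
          rw [map_smul, h2 i hi, smul_comm] }
    have hG : ∀ z ∈ G, f a z ∈ G := by
      rintro z ⟨h1, h2⟩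
      refine ⟨hE a z h1, fun i hi => ?_⟩
      rw [hf i a z, h2 i hi, map_smul]
    have hyG : y ∈ G := ⟨hy, hs⟩
    have : Nontrivial G := ⟨⟨⟨y, hyG⟩, 0, fun h => hy0 (congrArg Subtype.val h)⟩⟩
    obtain ⟨c, hc⟩ := Module.End.exists_eigenvalue ((f a).restrict hG)
    obtain ⟨z, hz⟩ := hc.exists_hasEigenvector
    have hz1 : ((f a).restrict hG) z = c • z := hz.apply_eq_smul
    have hz2 : f a z = c • (z : V) := congrArg Subtype.val hz1
    refine ⟨Function.update x a c, z, z.2.1, ?_, ?_⟩
    · intro h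
      exact hz.2 (Subtype.ext h)
    · intro i hi
      rcases Finset.mem_insert.1 hi with h | h
      · subst h
        rw [Function.update_self]
        exact hz2
      · have hne : i ≠ a := fun h' => ha (h' ▸ h)
        rw [Function.update_of_ne hne]
        exact z.2.2 i h

theorem na_zero {n : ℕ} {ι : Type} [Fintype ι] [DecidableEq ι]
    (U : Fin n → Matrix ι ι (Polynomial ℂ)) (hU : ∀ i j, U i * U j = U j * U i)
    {L : Type} [Field L] [Algebra ℂ L] [IsAlgClosed L] (v : Fin (n + 2) → L) (u : L) :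
    val (NA U) v u = 0 ↔ ∃ (x : Fin n → L) (y : ι → L), Eig U u x y ∧
      v 0 + v 1 * u + ∑ i : Fin n, v i.succ.succ * x i = 0 := by
  rw [val_NA, ← Matrix.exists_mulVec_eq_zero_iff]
  have hval : ∀ (x : Fin n → L) (y : ι → L), (∀ i, (BB U u i).mulVec y = x i • y) →
      (AA U v u).mulVec y = (v 0 + v 1 * u + ∑ i : Fin n, v i.succ.succ * x i) • y := by
    intro x y h
    rw [AA_mulVec, add_smul (v 0 + v 1 * u) (∑ i : Fin n, v i.succ.succ * x i) y,
      Finset.sum_smul]
    congr 1
    refine Finset.sum_congr rfl fun i _ => ?_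
    rw [h i, smul_smul]
  constructor
  · rintro ⟨y, hy0, hy⟩
    have hcomm : ∀ i j, BB U u i * BB U u j = BB U u j * BB U u i := by
      intro i j
      unfold BB
      rw [← map_mul, hU, map_mul]
    have hcommA : ∀ i, AA U v u * BB U u i = BB U u i * AA U v u := by
      intro i
      rw [AA_eq, add_mul, mul_add, Finset.sum_mul, Finset.mul_sum]
      congr 1
      · rw [Matrix.smul_mul, Matrix.mul_smul, one_mul, mul_one]
      · refine Finset.sum_congr rfl fun j _ => ?_
        rw [Matrix.smul_mul, Matrix.mul_smul, hcomm]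
    obtain ⟨x, z, hz1, hz2, hz3⟩ := common_eig (fun i => (BB U u i).mulVecLin)
      (by
        intro i j y
        simp only [Matrix.mulVecLin_apply, Matrix.mulVec_mulVec]
        rw [hcomm])
      (LinearMap.ker (AA U v u).mulVecLin)
      (by
        intro i y hy
        rw [LinearMap.mem_ker, Matrix.mulVecLin_apply] at hy ⊢
        rw [Matrix.mulVecLin_apply, Matrix.mulVec_mulVec, hcommA, ← Matrix.mulVec_mulVec, hy,
          Matrix.mulVec_zero])
      (by
        intro h
        have : y ∈ LinearMap.ker (AA U v u).mulVecLin := by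
          rw [LinearMap.mem_ker, Matrix.mulVecLin_apply]; exact hy
        rw [h] at this
        exact hy0 ((Submodule.mem_bot L).1 this)) Finset.univ
    have hz3' : ∀ i, (BB U u i).mulVec z = x i • z := fun i => hz3 i (Finset.mem_univ i)
    refine ⟨x, z, (eig_iff U u x z).2 ⟨hz2, hz3'⟩, ?_⟩
    rw [LinearMap.mem_ker, Matrix.mulVecLin_apply, hval x z hz3'] at hz1
    exact (smul_eq_zero.1 hz1).resolve_right hz2
  · rintro ⟨x, y, hy, hv⟩
    obtain ⟨hy0, hy1⟩ := (eig_iff U u x y).1 hy
    exact ⟨y, hy0, by rw [hval x y hy1, hv, zero_smul]⟩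

/-- A left eigenvector suffices for the converse. -/
theorem na_zero_of_left {n : ℕ} {ι : Type} [Fintype ι] [DecidableEq ι]
    (U : Fin n → Matrix ι ι (Polynomial ℂ)) {L : Type} [Field L] [Algebra ℂ L]
    (v : Fin (n + 2) → L) (u : L) (x : Fin n → L) (y : ι → L) (hy : y ≠ 0)
    (h : ∀ i α, ∑ β, y β * Polynomial.aeval u (U i β α) = x i * y α)
    (hv : v 0 + v 1 * u + ∑ i : Fin n, v i.succ.succ * x i = 0) :
    val (NA U) v u = 0 := by
  rw [val_NA, ← Matrix.exists_vecMul_eq_zero_iff]
  refine ⟨y, hy, ?_⟩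
  have h' : ∀ i, Matrix.vecMul y (BB U u i) = x i • y := by
    intro i
    funext α
    exact h i α
  have h2 : (∑ i : Fin n, v i.succ.succ • Matrix.vecMul y (BB U u i)) =
      (∑ i : Fin n, v i.succ.succ * x i) • y := by
    rw [Finset.sum_smul]
    refine Finset.sum_congr rfl fun i _ => ?_
    rw [h' i, smul_smul]
  rw [AA_vecMul, h2, ← add_smul, hv, zero_smul]

theorem eig_finite {n : ℕ} {ι : Type} [Fintype ι] [DecidableEq ι]
    (U : Fin n → Matrix ι ι (Polynomial ℂ)) {L : Type} [Field L] [Algebra ℂ L] (u : L) :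
    {x : Fin n → L | ∃ y : ι → L, Eig U u x y}.Finite := by
  have h1 : ∀ i : Fin n, {c : L | Module.End.HasEigenvalue (BB U u i).mulVecLin c}.Finite :=
    fun i => Module.End.finite_hasEigenvalue _
  refine (Set.Finite.pi' h1).subset ?_
  rintro x ⟨y, hy⟩ i
  obtain ⟨hy0, hy1⟩ := (eig_iff U u x y).1 hy
  refine Module.End.hasEigenvalue_of_hasEigenvector (x := y) ⟨?_, hy0⟩
  rw [Module.End.mem_eigenspace_iff, Matrix.mulVecLin_apply]
  exact hy1 i

theorem na_one {n : ℕ} {ι : Type} [Fintype ι] [DecidableEq ι]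
    (U : Fin n → Matrix ι ι (Polynomial ℂ)) {L : Type} [Field L] [Algebra ℂ L] (u : L) :
    val (NA U) (Pi.single 0 1 : Fin (n + 2) → L) u = 1 := by
  rw [val_NA, AA_eq]
  have h1 : (Pi.single 0 1 : Fin (n + 2) → L) 1 = 0 :=
    Pi.single_eq_of_ne (by exact Fin.succ_ne_zero (0 : Fin (n + 1))) _
  have h2 : ∀ i : Fin n, (Pi.single 0 1 : Fin (n + 2) → L) i.succ.succ = 0 := fun i =>
    Pi.single_eq_of_ne (Fin.succ_ne_zero _) _
  rw [h1, Pi.single_eq_same]
  simp only [h2, zero_smul, Finset.sum_const_zero, zero_mul, add_zero, one_smul]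
  exact Matrix.det_one

end Pool.Agent.H5.DG
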