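import Pool.Agent.H5.DG.DefsA

/-!
# Project DG, A2: polynomials that vanish only on finitely many hyperplanes

Proof. Strong induction on `k` is possible: `P` homogeneous of degree `k`, `P (e₀) = 1`. If `k = 0`, `P = 1`.
Otherwise let `q` be an irreducible factor of `P`. `q` vanishes only on the union of the hyperplanes `t = 0`, `t ∈ T`,
so `∏ t` vanishes on the zero set of `q`, hence (Nullstellensatz, `q` prime) `q` divides `∏ t`, so `q` is associated
with some linear form `t`; thus `t ∣ P`, `P = t * P'`, `P'` is homogeneous of degree `k - 1`, `P' (e₀) = 1`, and its zeros are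
zeros of `P`. (Note `t (e₀) = t 0 = 1`.)
-/

open MvPolynomial

noncomputable section

namespace Pool.Agent.H5.DG

private theorem splitLem_cofactor {K : Type} [Field K] {σ : Type} {k : ℕ}
    {ℓ Q : MvPolynomial σ K} (hℓ : ℓ.IsHomogeneous 1) (hℓ0 : ℓ ≠ 0)
    (h : (ℓ * Q).IsHomogeneous (k + 1)) : Q.IsHomogeneous k := by
  have key : ∀ j, homogeneousComponent (j + 1) (ℓ * Q) = ℓ * homogeneousComponent j Q := by
    intro j
    conv_lhs => rw [← sum_homogeneousComponent Q]
    rw [Finset.mul_sum, map_sum]
    have h1 : ∀ i, homogeneousComponent (j + 1) (ℓ * homogeneousComponent i Q) =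
        if i = j then ℓ * homogeneousComponent j Q else 0 := by
      intro i
      have h2 : (ℓ * homogeneousComponent i Q).IsHomogeneous (1 + i) :=
        hℓ.mul (homogeneousComponent_isHomogeneous i Q)
      rw [homogeneousComponent_of_mem h2]
      by_cases hij : i = j
      · subst hij
        rw [if_pos (by omega), if_pos rfl]
      · rw [if_neg (by omega), if_neg hij]
    rw [Finset.sum_congr rfl fun i _ => h1 i, Finset.sum_ite_eq']
    split_ifs with hj
    · rfl
    · rw [homogeneousComponent_eq_zero, mul_zero]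
      rw [Finset.mem_range] at hj
      omega
  have h3 : ∀ j, j ≠ k → homogeneousComponent j Q = 0 := by
    intro j hj
    have h4 := key j
    rw [homogeneousComponent_of_mem h, if_neg (by omega)] at h4
    rcases mul_eq_zero.1 h4.symm with h5 | h5
    · exact absurd h5 hℓ0
    · exact h5
  have h6 : Q = homogeneousComponent k Q := by
    ext α
    rw [coeff_homogeneousComponent]
    split_ifs with hα
    · rfl
    · have h7 := h3 α.degree hα
      have h8 := congrArg (coeff α) h7
      rwa [coeff_homogeneousComponent, if_pos rfl, coeff_zero] at h8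
  rw [h6]
  exact homogeneousComponent_isHomogeneous k Q

private theorem splitLem_lin_hom {K : Type} [Field K] {m : ℕ} (t : Fin (m + 1) → K) :
    (∑ a, C (t a) * X a : MvPolynomial (Fin (m + 1)) K).IsHomogeneous 1 :=
  MvPolynomial.IsHomogeneous.sum _ _ _ fun a _ => by
    simpa using (isHomogeneous_C (Fin (m + 1)) (t a)).mul (isHomogeneous_X K a)

private theorem splitLem_lin_eval {K : Type} [Field K] {m : ℕ} (t w : Fin (m + 1) → K) :
    eval w (∑ a, C (t a) * X a : MvPolynomial (Fin (m + 1)) K) = ∑ a, t a * w a := by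
  simp

private theorem splitLem_lin_ne {K : Type} [Field K] {m : ℕ} (t : Fin (m + 1) → K)
    (ht : t 0 = 1) : (∑ a, C (t a) * X a : MvPolynomial (Fin (m + 1)) K) ≠ 0 := by
  intro h
  have h1 := splitLem_lin_eval t (Pi.single 0 1)
  rw [h, map_zero] at h1
  simp [Pi.single_apply, ht] at h1

theorem split_lemma {L : Type} [Field L] [IsAlgClosed L] {m : ℕ} (k : ℕ)
    (P : MvPolynomial (Fin (m + 1)) L) (hP : P.IsHomogeneous k)
    (h0 : eval (Pi.single 0 1) P = 1) (T : Set (Fin (m + 1) → L)) (hTf : T.Finite)
    (hT0 : ∀ t ∈ T, t 0 = 1)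
    (hz : ∀ w, eval w P = 0 → ∃ t ∈ T, ∑ a, t a * w a = 0) :
    ∃ t : Fin k → Fin (m + 1) → L, (∀ s, t s ∈ T) ∧ P = ∏ s, ∑ a, C (t s a) * X a := by
  classical
  induction k generalizing P with
  | zero =>
    refine ⟨fun s => s.elim0, fun s => s.elim0, ?_⟩
    have hP0 : P.totalDegree = 0 := by
      by_cases h : P = 0
      · simp [h]
      · exact hP.totalDegree h
    rw [totalDegree_eq_zero_iff_eq_C] at hP0
    rw [hP0, eval_C] at h0
    rw [hP0, h0]
    simp
  | succ k ih =>
    have hPne : P ≠ 0 := by
      rintro rfl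
      simp at h0
    have hPu : ¬ IsUnit P := by
      intro h
      have h1 := (MvPolynomial.isUnit_iff_totalDegree_of_isReduced.1 h).2
      rw [hP.totalDegree hPne] at h1
      omega
    obtain ⟨q, hq, hqP⟩ := WfDvdMonoid.exists_irreducible_factor hPu hPne
    have hqp : Prime q := hq.prime
    have hmem : (∏ t ∈ hTf.toFinset, ∑ a, C (t a) * X a : MvPolynomial (Fin (m + 1)) L) ∈
        Ideal.span {q} := by
      have hprime : (Ideal.span {q}).IsPrime := (Ideal.span_singleton_prime hqp.ne_zero).2 hqp
      rw [← MvPolynomial.IsPrime.vanishingIdeal_zeroLocus (K := L) (Ideal.span {q})]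
      rw [mem_vanishingIdeal_iff]
      intro w hw
      have hwq : eval w q = 0 := by
        have := hw q (Ideal.subset_span rfl)
        rwa [← MvPolynomial.coe_aeval_eq_eval] 
      have hwP : eval w P = 0 := by
        obtain ⟨s, rfl⟩ := hqP
        rw [map_mul, hwq, zero_mul]
      obtain ⟨t, ht, htw⟩ := hz w hwP
      rw [map_prod]
      refine Finset.prod_eq_zero (hTf.mem_toFinset.2 ht) ?_
      have := splitLem_lin_eval t w
      rw [htw, ← MvPolynomial.coe_aeval_eq_eval] at this
      exact this
    rw [Ideal.mem_span_singleton] at hmem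
    obtain ⟨t, ht, hqt⟩ := hqp.exists_mem_finset_dvd hmem
    have ht' : t ∈ T := hTf.mem_toFinset.1 ht
    set ℓ : MvPolynomial (Fin (m + 1)) L := ∑ a, C (t a) * X a with hℓdef
    have hℓhom : ℓ.IsHomogeneous 1 := splitLem_lin_hom t
    have hℓ0 : ℓ ≠ 0 := splitLem_lin_ne t (hT0 t ht')
    -- `ℓ` divides `P`
    have hℓP : ℓ ∣ P := by
      obtain ⟨r, hr⟩ := hqt
      have hr0 : r ≠ 0 := by
        rintro rfl
        rw [mul_zero] at hr
        exact hℓ0 hr
      have hdeg := totalDegree_mul_of_isDomain hq.ne_zero hr0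
      rw [← hr, hℓhom.totalDegree hℓ0] at hdeg
      have hqd : q.totalDegree ≠ 0 := by
        intro h
        apply hq.not_isUnit
        rw [totalDegree_eq_zero_iff_eq_C] at h
        rw [h]
        apply IsUnit.map
        rw [isUnit_iff_ne_zero]
        intro h2
        rw [h2, map_zero] at h
        exact hq.ne_zero h
      have hrd : r.totalDegree = 0 := by omega
      have hru : IsUnit r := by
        rw [totalDegree_eq_zero_iff_eq_C] at hrd
        rw [hrd]
        apply IsUnit.map
        rw [isUnit_iff_ne_zero]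
        intro h2
        rw [h2, map_zero] at hrd
        exact hr0 hrd
      have hassoc : Associated q ℓ := ⟨hru.unit, by rw [hr]; simp⟩
      exact hassoc.symm.dvd.trans hqP
    obtain ⟨Q, hQ⟩ := hℓP
    have hQhom : Q.IsHomogeneous k := splitLem_cofactor hℓhom hℓ0 (hQ ▸ hP)
    have hQ0 : eval (Pi.single 0 1) Q = 1 := by
      rw [hQ, map_mul, hℓdef, splitLem_lin_eval] at h0
      simpa [Pi.single_apply, hT0 t ht'] using h0
    obtain ⟨t', ht'', hprod⟩ := ih Q hQhom hQ0 (fun w hw => hz w (by rw [hQ, map_mul, hw, mul_zero]))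
    refine ⟨Fin.cons t t', ?_, ?_⟩
    · intro s
      refine Fin.cases ?_ (fun i => ?_) s
      · simpa using ht'
      · simpa using ht'' i
    · rw [Fin.prod_univ_succ]
      simp only [Fin.cons_zero, Fin.cons_succ]
      rw [← hprod]
      exact hQ

end Pool.Agent.H5.DG
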