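import Pool.Agent.H5.DG.Mats
import Pool.Agent.H5.DG.NADeg
import Pool.Agent.H5.DG.NAZero
import Pool.Agent.H5.DG.SplitLem

/-!
# Project DG, A2: the norm polynomial of a system

`F = NA U` for the matrices of `exists_mats`; `card (Idx a) = ∏ a i`. `hom`, `deg`: `na_hom_deg` with `w α = ∑ α j`.
`split`: for `u ∈ L` let `P = F (·; u) : MvPolynomial (Fin (n + 2)) L`, i.e. `P = ∑ i, C (u ^ i) * map (F.coeff i)` (so
`eval w P = val F w u`), homogeneous of degree `∏ a i`; `split_lemma` with `T` = the points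
`(1, u, x)`, `x` the eigenvalues (`eig_finite`, `na_zero`, `na_one`). The points over `c` that satisfy the equations lie in
`Gam F ℂ`: the vector of the monomials `∏ x j ^ α j` is a left eigenvector (it is not zero: `α = 0`), `na_zero_of_left`.
-/

open MvPolynomial

noncomputable section

namespace Pool.Agent.H5.DG

/-- The polynomial `F (·; u)`. -/
private def PP' {n : ℕ} (F : Polynomial (PV n)) {L : Type} [Field L] [Algebra ℂ L] (u : L) :
    MvPolynomial (Fin (n + 2)) L :=
  ∑ i ∈ F.support, C (u ^ i) * MvPolynomial.map (algebraMap ℂ L) (F.coeff i)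

private lemma eval_PP' {n : ℕ} (F : Polynomial (PV n)) {L : Type} [Field L] [Algebra ℂ L] (u : L)
    (w : Fin (n + 2) → L) : eval w (PP' F u) = val F w u := by
  unfold PP' val atV
  rw [map_sum, Polynomial.eval_map, Polynomial.eval₂_eq_sum, Polynomial.sum_def]
  refine Finset.sum_congr rfl fun i _ => ?_
  rw [map_mul, eval_C, mul_comm]
  congr 1
  rw [MvPolynomial.eval_map]
  rfl

private lemma dot_cons {n : ℕ} {L : Type} [Field L] [Algebra ℂ L] (u : L) (x : Fin n → L)
    (w : Fin (n + 2) → L) :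
    ∑ a, (Fin.cons 1 (Fin.cons u x : Fin (n + 1) → L) : Fin (n + 2) → L) a * w a =
      w 0 + w 1 * u + ∑ i : Fin n, w i.succ.succ * x i := by
  rw [Fin.sum_univ_succ, Fin.sum_univ_succ]
  simp only [Fin.cons_zero, Fin.cons_succ, one_mul]
  rw [← add_assoc, show (Fin.succ 0 : Fin (n + 2)) = 1 from rfl, mul_comm u (w 1)]
  congr 1
  exact Finset.sum_congr rfl fun i _ => mul_comm _ _

theorem exists_NA {n : ℕ} {a W : Fin n → ℕ} {g : Fin n → MvPolynomial (Fin (n + 1)) ℂ}
    (h : IsSystem a W g) :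
    ∃ F : Polynomial (PV n), IsPreNorm (∏ i, a i) F ∧
      ∀ (c : ℂ) (x : Fin n → ℂ), (∀ i, x i ^ a i = evG (g i) c x) →
        (Fin.cons 1 (Fin.cons c x : Fin (n + 1) → ℂ) : Fin (n + 2) → ℂ) ∈ Gam F ℂ := by
  classical
  obtain ⟨U, hcomm, hdeg, hleft, _⟩ := exists_mats h
  have hcard : Fintype.card (Idx a) = ∏ i, a i := by
    rw [Fintype.card_pi]
    exact Finset.prod_congr rfl fun i _ => Fintype.card_fin _
  have hd := na_hom_deg U (fun α => ∑ j, (α j : ℕ)) hdeg
  rw [hcard] at hd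
  refine ⟨NA U, ⟨hd.1, hd.2, ?_⟩, ?_⟩
  · intro L _ _ _ u
    have hP : (PP' (NA U) u).IsHomogeneous (∏ i, a i) := by
      unfold PP'
      refine MvPolynomial.IsHomogeneous.sum _ _ _ fun i _ => ?_
      have h1 := (MvPolynomial.isHomogeneous_C (Fin (n + 2)) (u ^ i)).mul
        ((hd.1 i).map (algebraMap ℂ L))
      rwa [zero_add] at h1
    have h0 : eval (Pi.single 0 1) (PP' (NA U) u) = 1 := by
      rw [eval_PP', na_one]
    have hz : ∀ w, eval w (PP' (NA U) u) = 0 →
        ∃ t ∈ (fun x : Fin n → L => (Fin.cons 1 (Fin.cons u x : Fin (n + 1) → L) :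
          Fin (n + 2) → L)) '' {x : Fin n → L | ∃ y : Idx a → L, Eig U u x y},
        ∑ a, t a * w a = 0 := by
      intro w hw
      rw [eval_PP', na_zero U hcomm] at hw
      obtain ⟨x, y, hxy, hv⟩ := hw
      refine ⟨_, ⟨x, ⟨y, hxy⟩, rfl⟩, ?_⟩
      rw [← hv]
      exact dot_cons u x w
    obtain ⟨t, ht, hPt⟩ := split_lemma (∏ i, a i) (PP' (NA U) u) hP h0 _
      ((eig_finite U u).image _) (by
        rintro t ⟨x, _, rfl⟩
        rfl) hz
    refine ⟨t, fun s => ?_, fun w => ?_⟩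
    · obtain ⟨x, _, hx⟩ := ht s
      rw [← hx]
      exact ⟨rfl, rfl⟩
    · rw [← eval_PP', hPt, map_prod]
      refine Finset.prod_congr rfl fun s _ => ?_
      unfold dot
      rw [map_sum]
      refine Finset.sum_congr rfl fun i _ => ?_
      rw [map_mul, eval_C, eval_X]
  · intro c x hx
    refine ⟨rfl, fun w hw => ?_⟩
    have h1 : (Fin.cons 1 (Fin.cons c x : Fin (n + 1) → ℂ) : Fin (n + 2) → ℂ) 1 = c := rfl
    rw [h1]
    refine na_zero_of_left U w c x (fun α => ∏ j, x j ^ (α j : ℕ)) ?_ ?_ ?_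
    · intro h0
      have h2 := congrFun h0 (fun i => ⟨0, h.a_pos i⟩)
      simp at h2
    · intro i α
      exact hleft ℂ c x hx i α
    · rw [← dot_cons]
      exact hw

end Pool.Agent.H5.DG
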