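import Pool.Agent.H5.DG.Interp
import Pool.Agent.H5.DG.NASplit
import Pool.Agent.H5.DG.Factor

/-!
# Project DG, Part A: assembly

Choose `e ∈ ℂ^(n+2)` with `dot (l j) e ≠ 0` for all `j` and an invertible matrix `M₁` with first column `e`:
`c j * ∑ b, l j b * M₁ b a = (1, s j)`, `c j = (dot (l j) e)⁻¹`. `interp` gives `M₂`, a system and `S`; `M = M₁ * (1 ⊕ M₂ᵀ)`, so that
`c j * ∑ b, l j b * M b a = (1, M₂ s j)`. `exists_NA`: these points (`j ∈ S`) lie in `Gam F ℂ`; `exists_factor`.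
-/

open MvPolynomial

noncomputable section

namespace Pool.Agent.H5.DG

/-- A vector on which finitely many non-zero forms do not vanish. -/
theorem exists_not_zero {m k : ℕ} (l : Fin m → Fin k → ℂ) (hl : ∀ j, l j ≠ 0) :
    ∃ e : Fin k → ℂ, ∀ j, dot (l j) e ≠ 0 := by
  classical
  by_contra hcon
  push Not at hcon
  have hev : ∀ (j : Fin m) (e : Fin k → ℂ),
      eval e (∑ a, C (l j a) * X a : MvPolynomial (Fin k) ℂ) = dot (l j) e := by
    intro j e
    rw [map_sum]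
    unfold dot
    refine Finset.sum_congr rfl fun a _ => ?_
    rw [map_mul, eval_C, eval_X]
  have hP : (∏ j : Fin m, (∑ a, C (l j a) * X a : MvPolynomial (Fin k) ℂ)) = 0 := by
    refine MvPolynomial.funext fun e => ?_
    obtain ⟨j, hj⟩ := hcon e
    rw [map_prod, map_zero]
    exact Finset.prod_eq_zero (Finset.mem_univ j) (by rw [hev, hj])
  obtain ⟨j, _, hj⟩ := Finset.prod_eq_zero_iff.1 hP
  refine hl j (funext fun a => ?_)
  have h1 := hev j (Pi.single a 1)
  rw [hj, map_zero] at h1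
  unfold dot at h1
  rw [Finset.sum_eq_single a] at h1
  · rw [Pi.single_eq_same, mul_one] at h1
    exact h1.symm
  · intro b _ hb
    rw [Pi.single_eq_of_ne hb, mul_zero]
  · intro h
    exact absurd (Finset.mem_univ a) h

private lemma exists_matrix_col {n : ℕ} (e : Fin (n + 1) → ℂ) (he : e ≠ 0) :
    ∃ M : Matrix (Fin (n + 1)) (Fin (n + 1)) ℂ, IsUnit M.det ∧ ∀ b, M b 0 = e b := by
  classical
  obtain ⟨p, hp⟩ := Function.ne_iff.1 he
  refine ⟨((1 : Matrix (Fin (n + 1)) (Fin (n + 1)) ℂ).updateCol p e).submatrix id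
    (Equiv.swap 0 p), ?_, fun b => ?_⟩
  · rw [Matrix.det_permute', ← Matrix.cramer_apply, Matrix.cramer_one]
    refine IsUnit.mul ?_ (isUnit_iff_ne_zero.2 hp)
    exact (Equiv.Perm.sign (Equiv.swap 0 p)).isUnit.map (Int.castRingHom ℂ)
  · rw [Matrix.submatrix_apply, Equiv.swap_apply_left, Matrix.updateCol_self]
    rfl

/-- The matrix `1 ⊕ M₂ᵀ`. -/
private def blk {n : ℕ} (M : Matrix (Fin (n + 1)) (Fin (n + 1)) ℂ) :
    Matrix (Fin (n + 2)) (Fin (n + 2)) ℂ :=
  Matrix.of fun a b => Fin.cases (motive := fun _ => ℂ)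
    (Fin.cases (motive := fun _ => ℂ) 1 (fun _ => 0) b)
    (fun a' => Fin.cases (motive := fun _ => ℂ) 0 (fun b' => M b' a') b) a

private lemma blk_det {n : ℕ} (M : Matrix (Fin (n + 1)) (Fin (n + 1)) ℂ) :
    (blk M).det = M.det := by
  rw [Matrix.det_succ_column_zero, Fin.sum_univ_succ]
  have h1 : ∀ i : Fin (n + 1), blk M i.succ 0 = 0 := fun i => rfl
  have h2 : blk M 0 0 = 1 := rfl
  have h3 : (blk M).submatrix (Fin.succAbove 0) Fin.succ = M.transpose := by
    ext i j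
    rfl
  simp only [h1, h2, h3, Matrix.det_transpose, mul_zero, zero_mul, Finset.sum_const_zero, add_zero,
    Fin.val_zero, pow_zero, one_mul]

theorem partA (n ρ : ℕ) : ∃ N₀ : ℕ, ∀ (m : ℕ) (l : Fin m → Fin (n + 2) → ℂ), N₀ ≤ m →
    (∀ j, l j ≠ 0) →
    ∃ (M : Matrix (Fin (n + 2)) (Fin (n + 2)) ℂ) (κ : ℕ) (N : Polynomial (PV n))
      (J : Finset (Fin m)) (c : Fin m → ℂ),
      IsUnit M.det ∧ 1 ≤ κ ∧ IsNormForm κ N ∧ ρ * κ < J.card ∧
      ∀ j ∈ J, c j ≠ 0 ∧ (fun a => c j * ∑ b, l j b * M b a) ∈ Gam N ℂ := by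
  classical
  obtain ⟨n₀, hn₀⟩ := interp n ρ
  refine ⟨n₀ + 1, fun m l hm hl => ?_⟩
  obtain ⟨e, he⟩ := exists_not_zero l hl
  have he0 : e ≠ 0 := by
    intro h0
    refine he ⟨0, by omega⟩ ?_
    rw [h0]
    unfold dot
    simp
  obtain ⟨M₁, hM₁, hcol⟩ := exists_matrix_col e he0
  let c : Fin m → ℂ := fun j => (dot (l j) e)⁻¹
  let s : Fin m → Fin (n + 1) → ℂ := fun j a => c j * ∑ b, l j b * M₁ b a.succ
  have hs : ∀ j d, c j * ∑ b, l j b * M₁ b d =
      (Fin.cons 1 (s j) : Fin (n + 2) → ℂ) d := by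
    intro j d
    refine Fin.cases ?_ (fun d' => ?_) d
    · rw [Fin.cons_zero]
      have h1 : ∑ b, l j b * M₁ b 0 = dot (l j) e := by
        unfold dot
        exact Finset.sum_congr rfl fun b _ => by rw [hcol]
      rw [h1]
      exact inv_mul_cancel₀ (he j)
    · rw [Fin.cons_succ]
  obtain ⟨M₂, a, W, g, S, hM₂, hsys, hS, heq⟩ := hn₀ (Fin m) s (by
    rw [Fintype.card_fin]; omega)
  obtain ⟨F, hF, hFp⟩ := exists_NA hsys
  have hp : ∀ j ∈ S, (Fin.cons 1 (M₂.mulVec (s j)) : Fin (n + 2) → ℂ) ∈ Gam F ℂ := by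
    intro j hj
    have h1 := hFp (M₂.mulVec (s j) 0) (fun i => M₂.mulVec (s j) i.succ) (by
      intro i
      rw [heq j hj i]
      unfold evG
      have h2 : (Fin.cons (M₂.mulVec (s j) 0) (fun i : Fin n => M₂.mulVec (s j) i.succ) :
          Fin (n + 1) → ℂ) = M₂.mulVec (s j) := Fin.cons_self_tail _
      rw [h2, ← MvPolynomial.coe_aeval_eq_eval]
      rfl)
    have h2 : (Fin.cons (M₂.mulVec (s j) 0) (fun i : Fin n => M₂.mulVec (s j) i.succ) :
          Fin (n + 1) → ℂ) = M₂.mulVec (s j) := Fin.cons_self_tail _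
    rw [h2] at h1
    exact h1
  obtain ⟨κ, N, J, hκ, hN, _, hJ, hJp⟩ := exists_factor ρ F hF S _ hp hS
  refine ⟨M₁ * blk M₂, κ, N, J, c, ?_, hκ, hN, hJ, fun j hj => ⟨inv_ne_zero (he j), ?_⟩⟩
  · rw [Matrix.det_mul, blk_det]
    exact hM₁.mul hM₂
  · have h1 : (fun a => c j * ∑ b, l j b * (M₁ * blk M₂) b a) =
        (Fin.cons 1 (M₂.mulVec (s j)) : Fin (n + 2) → ℂ) := by
      funext x
      have h2 : c j * ∑ b, l j b * (M₁ * blk M₂) b x =
          ∑ d, (Fin.cons 1 (s j) : Fin (n + 2) → ℂ) d * blk M₂ d x := by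
        simp only [← hs]
        simp only [Matrix.mul_apply, Finset.mul_sum, Finset.sum_mul]
        rw [Finset.sum_comm]
        exact Finset.sum_congr rfl fun d _ => Finset.sum_congr rfl fun b _ => by ring
      rw [h2, Fin.sum_univ_succ]
      refine Fin.cases ?_ (fun x' => ?_) x
      · have h3 : ∀ i : Fin (n + 1), blk M₂ i.succ 0 = 0 := fun i => rfl
        have h4 : blk M₂ 0 0 = 1 := rfl
        simp [h3, h4]
      · have h3 : ∀ i : Fin (n + 1), blk M₂ i.succ x'.succ = M₂ x' i := fun i => rfl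
        have h4 : blk M₂ 0 x'.succ = 0 := rfl
        rw [h4, mul_zero, zero_add, Fin.cons_succ]
        unfold Matrix.mulVec dotProduct
        refine Finset.sum_congr rfl fun i _ => ?_
        rw [h3, Fin.cons_succ, mul_comm]
    rw [h1]
    exact hJp j hj

end Pool.Agent.H5.DG
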