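import Pool.Agent.H5.DG.PtsRoots

/-!
# Project DG, B3: the points of the curve in the hyperplane `v`

Let `u` be a root of `N (v; ·)`, `N (·; u) = ∏ t_s` (`split`). Since `val (dN 0 N) v u ≠ 0` and
`val (dN 0 N) v u = ∑_s ∏_{s' ≠ s} dot (t s') v` (`val_dN_of_split`, `t s 0 = 1`), exactly one of the factors vanishes
at `v` (with its multiplicity), say `t_s`, and `val (dN a N) v u = t_s a * val (dN 0 N) v u`, so `tpt N v u = t_s`.
-/

set_option autoImplicit false

open MvPolynomial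

noncomputable section

namespace Pool.Agent.H5.DG

variable {n κ : ℕ} {N : Polynomial (PV n)} {L : Type} [Field L] [Algebra ℂ L] [IsAlgClosed L]

theorem tpt_facts (hκ : 1 ≤ κ) (hN : IsPreNorm κ N) (v : Fin (n + 2) → L)
    (hΔ : MvPolynomial.aeval v (Del κ N) ≠ 0) {u : L} (hu : val N v u = 0) :
    tpt N v u ∈ Gam N L ∧ tpt N v u 0 = 1 ∧ tpt N v u 1 = u ∧ dot (tpt N v u) v = 0 ∧
      (∀ t ∈ Gam N L, t 1 = u → dot t v = 0 → t = tpt N v u) ∧
      ∀ w : Fin (n + 2) → L, ∑ a, w a * val (dN a N) v u =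
        dot (tpt N v u) w * val (dN 0 N) v u := by
  classical
  have hD := dN_ne_zero hκ hN v hΔ hu
  obtain ⟨t, ht1, ht⟩ := hN.split L u
  have hval := fun a => val_dN_of_split (N := N) ht a v
  -- a vanishing factor
  have hprod : ∏ s, dot (t s) v = 0 := by rw [← ht v]; exact hu
  obtain ⟨s0, _, hs0⟩ := Finset.prod_eq_zero_iff.mp hprod
  have hval2 : ∀ a, val (dN a N) v u = t s0 a * ∏ s' ∈ Finset.univ.erase s0, dot (t s') v := by
    intro a
    rw [hval a]
    apply Finset.sum_eq_single s0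
    · intro s _ hs
      rw [Finset.prod_eq_zero (Finset.mem_erase.mpr ⟨Ne.symm hs, Finset.mem_univ s0⟩) hs0, mul_zero]
    · intro h
      exact absurd (Finset.mem_univ s0) h
  have hD0 : val (dN 0 N) v u = ∏ s' ∈ Finset.univ.erase s0, dot (t s') v := by
    rw [hval2 0, (ht1 s0).1, one_mul]
  have hval3 : ∀ a, val (dN a N) v u = t s0 a * val (dN 0 N) v u := by
    intro a
    rw [hval2 a, hD0]
  have htpt : tpt N v u = t s0 := by
    funext a
    unfold tpt
    rw [hval3 a, mul_div_assoc, div_self hD, mul_one]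
  refine ⟨?_, ?_, ?_, ?_, ?_, ?_⟩
  · rw [htpt, mem_Gam_iff ht1 ht _ (ht1 s0).2]
    exact ⟨s0, rfl⟩
  · rw [htpt]
    exact (ht1 s0).1
  · rw [htpt]
    exact (ht1 s0).2
  · rw [htpt]
    exact hs0
  · intro t' ht' ht'1 ht'v
    rw [mem_Gam_iff ht1 ht _ ht'1] at ht'
    obtain ⟨s, hs⟩ := ht'
    rw [htpt, hs]
    by_contra hne
    have hss : s ≠ s0 := fun h => hne (by rw [h])
    apply hD
    rw [hD0]
    apply Finset.prod_eq_zero (Finset.mem_erase.mpr ⟨hss, Finset.mem_univ s⟩)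
    rw [← hs]
    exact ht'v
  · intro w
    rw [htpt]
    unfold dot
    rw [Finset.sum_mul]
    apply Finset.sum_congr rfl
    intro a _
    rw [hval3 a]
    ring

end Pool.Agent.H5.DG
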