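import Pool.Agent.H5.DG.BasicB

/-!
# Project DG, B3: the roots of `N (v; ·)`

`aeval v (Del κ N)` is the product of `aeval v (N.coeff κ)` and of the two resultants of `atV N v` with
`atV (dN 0 N) v` and with the derivative of `atV N v`, formal degrees `κ, κ` (`Polynomial.resultant_map_map`). Use
`natDegree_eq`, `Polynomial.resultant_eq_prod_eval` (`L` algebraically closed): no root of `atV N v` is a root of
`atV (dN 0 N) v` or of the derivative.
-/

open MvPolynomial

noncomputable section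

namespace Pool.Agent.H5.DG

variable {n κ : ℕ} {N : Polynomial (PV n)} {L : Type} [Field L] [Algebra ℂ L]

theorem coeff_ne_zero (v : Fin (n + 2) → L) (hΔ : MvPolynomial.aeval v (Del κ N) ≠ 0) :
    MvPolynomial.aeval v (N.coeff κ) ≠ 0 := by
  intro h
  apply hΔ
  rw [Del, map_mul, map_mul, h, zero_mul, zero_mul]

private theorem atV_coeff (v : Fin (n + 2) → L) (i : ℕ) :
    (atV N v).coeff i = MvPolynomial.aeval v (N.coeff i) := by
  rw [atV, Polynomial.coeff_map]
  rfl

theorem atV_natDegree (hN : IsPreNorm κ N) (v : Fin (n + 2) → L)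
    (hv : MvPolynomial.aeval v (N.coeff κ) ≠ 0) :
    (atV N v).natDegree = κ ∧ (atV N v).leadingCoeff = MvPolynomial.aeval v (N.coeff κ) := by
  have h1 : (atV N v).natDegree ≤ κ := by
    refine (Polynomial.natDegree_map_le).trans ?_
    exact natDegree_le hN
  have h2 : (atV N v).natDegree = κ := by
    refine le_antisymm h1 ?_
    refine Polynomial.le_natDegree_of_ne_zero ?_
    rw [atV_coeff]
    exact hv
  refine ⟨h2, ?_⟩
  rw [Polynomial.leadingCoeff, h2, atV_coeff]

omit [Algebra ℂ L] in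
private theorem common_root {f g : Polynomial L} (hκ : 1 ≤ κ) (hf : f.natDegree ≤ κ)
    (hg : g.natDegree ≤ κ) {u : L} (h1 : f.eval u = 0) (h2 : g.eval u = 0) :
    Polynomial.resultant f g κ κ = 0 := by
  obtain ⟨p, q, -, -, e⟩ := Polynomial.exists_mul_add_mul_eq_C_resultant f g hf hg
    (Or.inl (by omega))
  have h3 := congrArg (fun r => Polynomial.eval u r) e
  simp only [Polynomial.eval_add, Polynomial.eval_mul, h1, h2, zero_mul, add_zero,
    Polynomial.eval_C] at h3
  exact h3.symm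

theorem dN_ne_zero (hκ : 1 ≤ κ) (hN : IsPreNorm κ N) (v : Fin (n + 2) → L)
    (hΔ : MvPolynomial.aeval v (Del κ N) ≠ 0) {u : L} (hu : val N v u = 0) :
    val (dN 0 N) v u ≠ 0 := by
  intro h
  apply hΔ
  have h1 : (atV N v).natDegree ≤ κ := (atV_natDegree hN v (coeff_ne_zero v hΔ)).1.le
  have h2 : (atV (dN 0 N) v).natDegree ≤ κ :=
    (Polynomial.natDegree_map_le).trans (natDegree_dN_le hN 0)
  have h3 := common_root hκ h1 h2 hu h
  have h4 : MvPolynomial.aeval v (res0 κ N) = 0 := by
    rw [← h3, atV, atV, Polynomial.resultant_map_map]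
    rfl
  rw [Del, map_mul, map_mul, h4, mul_zero, zero_mul]

theorem derivative_ne_zero (hκ : 1 ≤ κ) (hN : IsPreNorm κ N) (v : Fin (n + 2) → L)
    (hΔ : MvPolynomial.aeval v (Del κ N) ≠ 0) {u : L} (hu : val N v u = 0) :
    (Polynomial.derivative (atV N v)).eval u ≠ 0 := by
  intro h
  apply hΔ
  have h1 : (atV N v).natDegree ≤ κ := (atV_natDegree hN v (coeff_ne_zero v hΔ)).1.le
  have h2 : (Polynomial.derivative (atV N v)).natDegree ≤ κ :=
    (Polynomial.natDegree_derivative_le _).trans (by omega)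
  have h3 := common_root hκ h1 h2 hu h
  have h4 : MvPolynomial.aeval v (Polynomial.resultant N (Polynomial.derivative N) κ κ) = 0 := by
    rw [← h3, atV, Polynomial.derivative_map, Polynomial.resultant_map_map]
    rfl
  rw [Del, map_mul, h4, mul_zero]

private theorem atV_ne_zero (v : Fin (n + 2) → L) (hΔ : MvPolynomial.aeval v (Del κ N) ≠ 0) :
    atV N v ≠ 0 := by
  intro h
  apply coeff_ne_zero v hΔ
  rw [← atV_coeff, h, Polynomial.coeff_zero]

theorem roots_nodup (hκ : 1 ≤ κ) (hN : IsPreNorm κ N) (v : Fin (n + 2) → L)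
    (hΔ : MvPolynomial.aeval v (Del κ N) ≠ 0) : (atV N v).roots.Nodup := by
  classical
  have h0 := atV_ne_zero v hΔ
  rw [Multiset.nodup_iff_count_le_one]
  intro u
  rw [Polynomial.count_roots]
  by_contra hlt
  rw [not_le] at hlt
  rw [Polynomial.one_lt_rootMultiplicity_iff_isRoot h0] at hlt
  exact derivative_ne_zero hκ hN v hΔ (u := u) hlt.1 hlt.2

theorem card_roots [IsAlgClosed L] (hκ : 1 ≤ κ) (hN : IsPreNorm κ N) (v : Fin (n + 2) → L)
    (hΔ : MvPolynomial.aeval v (Del κ N) ≠ 0) : (rts N v).card = κ := by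
  classical
  have h1 := roots_nodup hκ hN v hΔ
  have h2 : (rts N v).card = Multiset.card (atV N v).roots := by
    rw [rts, Multiset.toFinset_card_of_nodup h1]
  rw [h2, ← (IsAlgClosed.splits (atV N v)).natDegree_eq_card_roots,
    (atV_natDegree hN v (coeff_ne_zero v hΔ)).1]

theorem mem_roots_iff (hN : IsPreNorm κ N) (v : Fin (n + 2) → L)
    (hΔ : MvPolynomial.aeval v (Del κ N) ≠ 0) (u : L) :
    u ∈ rts N v ↔ val N v u = 0 := by
  classical
  rw [rts, Multiset.mem_toFinset, Polynomial.mem_roots (atV_ne_zero v hΔ)]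
  rfl

/-- `N (v; c) = a (v) ∏ (c - u)`. -/
theorem val_eq_prod [IsAlgClosed L] (hκ : 1 ≤ κ) (hN : IsPreNorm κ N) (v : Fin (n + 2) → L)
    (hΔ : MvPolynomial.aeval v (Del κ N) ≠ 0) (c : L) :
    val N v c = MvPolynomial.aeval v (N.coeff κ) *
      ∏ u ∈ rts N v, (c - u) := by
  classical
  have h1 := roots_nodup hκ hN v hΔ
  have h2 := (IsAlgClosed.splits (atV N v)).eq_prod_roots
  rw [val]
  conv_lhs => rw [h2]
  rw [Polynomial.eval_mul, Polynomial.eval_C, (atV_natDegree hN v (coeff_ne_zero v hΔ)).2,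
    Polynomial.eval_multiset_prod]
  congr 1
  rw [Multiset.map_map, Finset.prod, rts, Multiset.toFinset_val, Multiset.dedup_eq_self.mpr h1]
  congr 1
  refine Multiset.map_congr rfl ?_
  intro u _
  simp

end Pool.Agent.H5.DG
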