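import Pool.Agent.H5.DG.Pts

/-!
# Project DG, B4: the values of the resultants

`res0 κ N` at `v` and `resW κ N` at `(v, w)` are resultants of the specialised polynomials
(`Polynomial.resultant_map_map`); `Polynomial.resultant_eq_prod_eval` with `atV_natDegree`, `natDegree_dN_le`,
`roots_nodup`. The evaluation at `u` of the specialisation of `∑ a, C (X (inr a)) * dN a N` is
`∑ a, w a * val (dN a N) v u`.
-/

set_option autoImplicit false

open MvPolynomial

noncomputable section

namespace Pool.Agent.H5.DG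

variable {n κ : ℕ} {N : Polynomial (PV n)} {L : Type} [Field L] [Algebra ℂ L] [IsAlgClosed L]

/-- The resultant of `atV N v` with a polynomial of degree at most `κ`. -/
private theorem resEval_main (hκ : 1 ≤ κ) (hN : IsPreNorm κ N) (v : Fin (n + 2) → L)
    (hΔ : MvPolynomial.aeval v (Del κ N) ≠ 0) (g : Polynomial L) (hg : g.natDegree ≤ κ) :
    Polynomial.resultant (atV N v) g κ κ = MvPolynomial.aeval v (N.coeff κ) ^ κ *
      ∏ u ∈ rts N v, g.eval u := by
  classical
  obtain ⟨hdeg, hlead⟩ := atV_natDegree hN v (coeff_ne_zero v hΔ)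
  have h := Polynomial.resultant_eq_prod_eval (atV N v) g κ hg (IsAlgClosed.splits _)
  rw [hdeg, hlead] at h
  rw [h]
  congr 1
  have hnd := roots_nodup hκ hN v hΔ
  unfold rts
  rw [Finset.prod_multiset_map_count]
  apply Finset.prod_congr
  · ext x
    simp
  · intro u hu
    rw [Multiset.count_eq_one_of_mem hnd (by simpa using hu), pow_one]

theorem res0_eval (hκ : 1 ≤ κ) (hN : IsPreNorm κ N) (v : Fin (n + 2) → L)
    (hΔ : MvPolynomial.aeval v (Del κ N) ≠ 0) :
    MvPolynomial.aeval v (res0 κ N) = MvPolynomial.aeval v (N.coeff κ) ^ κ *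
      ∏ u ∈ rts N v, val (dN 0 N) v u := by
  have h1 : MvPolynomial.aeval v (res0 κ N)
      = Polynomial.resultant (atV N v) (atV (dN 0 N) v) κ κ := by
    unfold atV res0
    rw [Polynomial.resultant_map_map]
    rfl
  have h2 : (atV (dN 0 N) v).natDegree ≤ κ :=
    (Polynomial.natDegree_map_le).trans (natDegree_dN_le hN 0)
  rw [h1, resEval_main hκ hN v hΔ _ h2]
  rfl

theorem resW_eval (hκ : 1 ≤ κ) (hN : IsPreNorm κ N) (v w : Fin (n + 2) → L)
    (hΔ : MvPolynomial.aeval v (Del κ N) ≠ 0) :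
    evVW (resW κ N) v w = MvPolynomial.aeval v (N.coeff κ) ^ κ *
      ∏ u ∈ rts N v, ∑ a, w a * val (dN a N) v u := by
  have hcomp : ((MvPolynomial.aeval (Sum.elim v w) : PVW n →ₐ[ℂ] L).toRingHom).comp
      (MvPolynomial.rename Sum.inl : PV n →ₐ[ℂ] PVW n).toRingHom
      = (MvPolynomial.aeval v : PV n →ₐ[ℂ] L).toRingHom := by
    apply RingHom.ext
    intro p
    show MvPolynomial.aeval (Sum.elim v w) (MvPolynomial.rename Sum.inl p) = MvPolynomial.aeval v p
    rw [MvPolynomial.aeval_rename]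
    rfl
  set g : Polynomial L := ∑ a, Polynomial.C (w a) * atV (dN a N) v with hg
  have h1 : evVW (resW κ N) v w = Polynomial.resultant (atV N v) g κ κ := by
    unfold evVW resW
    have h2 := (Polynomial.resultant_map_map
      (N.map (MvPolynomial.rename Sum.inl : PV n →ₐ[ℂ] PVW n).toRingHom)
      (∑ a, Polynomial.C (MvPolynomial.X (Sum.inr a)) *
      (dN a N).map (MvPolynomial.rename Sum.inl : PV n →ₐ[ℂ] PVW n).toRingHom) κ κ
      (MvPolynomial.aeval (Sum.elim v w) : PVW n →ₐ[ℂ] L).toRingHom)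
    have h3 : (N.map (MvPolynomial.rename Sum.inl : PV n →ₐ[ℂ] PVW n).toRingHom).map
        (MvPolynomial.aeval (Sum.elim v w) : PVW n →ₐ[ℂ] L).toRingHom = atV N v := by
      rw [Polynomial.map_map, hcomp]
      rfl
    have h4 : (∑ a, Polynomial.C (MvPolynomial.X (Sum.inr a)) *
        (dN a N).map (MvPolynomial.rename Sum.inl : PV n →ₐ[ℂ] PVW n).toRingHom).map
        (MvPolynomial.aeval (Sum.elim v w) : PVW n →ₐ[ℂ] L).toRingHom = g := by
      rw [Polynomial.map_sum, hg]
      apply Finset.sum_congr rfl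
      intro a _
      rw [Polynomial.map_mul, Polynomial.map_C, Polynomial.map_map, hcomp]
      congr 2
      show MvPolynomial.aeval (Sum.elim v w) (MvPolynomial.X (Sum.inr a)) = w a
      rw [MvPolynomial.aeval_X]
      rfl
    rw [h3, h4] at h2
    exact h2.symm
  have hdeg : g.natDegree ≤ κ := by
    rw [hg]
    apply Polynomial.natDegree_sum_le_of_forall_le
    intro a _
    exact (Polynomial.natDegree_C_mul_le _ _).trans
      ((Polynomial.natDegree_map_le).trans (natDegree_dN_le hN a))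
  rw [h1, resEval_main hκ hN v hΔ g hdeg]
  congr 1
  apply Finset.prod_congr rfl
  intro u _
  rw [hg, Polynomial.eval_finsetSum]
  apply Finset.sum_congr rfl
  intro a _
  rw [Polynomial.eval_mul, Polynomial.eval_C]
  rfl

/-- `a (v) Res (N_v, D_w N_v) = (a (v) ∏ t_u (w)) Res (N_v, D_0 N_v)`. -/
theorem resW_eq (hκ : 1 ≤ κ) (hN : IsPreNorm κ N) (v w : Fin (n + 2) → L)
    (hΔ : MvPolynomial.aeval v (Del κ N) ≠ 0) :
    MvPolynomial.aeval v (N.coeff κ) * evVW (resW κ N) v w =
      (MvPolynomial.aeval v (N.coeff κ) * ∏ u ∈ rts N v, dot (tpt N v u) w) *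
        MvPolynomial.aeval v (res0 κ N) := by
  rw [res0_eval hκ hN v hΔ, resW_eval hκ hN v w hΔ]
  have h : ∏ u ∈ rts N v, ∑ a, w a * val (dN a N) v u
      = (∏ u ∈ rts N v, dot (tpt N v u) w) * ∏ u ∈ rts N v, val (dN 0 N) v u := by
    rw [← Finset.prod_mul_distrib]
    apply Finset.prod_congr rfl
    intro u hu
    exact (tpt_facts hκ hN v hΔ ((mem_roots_iff hN v hΔ u).mp hu)).2.2.2.2.2 w
  rw [h]
  ring

omit [IsAlgClosed L] in
theorem res0_ne (v : Fin (n + 2) → L) (hΔ : MvPolynomial.aeval v (Del κ N) ≠ 0) :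
    MvPolynomial.aeval v (res0 κ N) ≠ 0 := by
  unfold Del at hΔ
  rw [map_mul, map_mul] at hΔ
  exact right_ne_zero_of_mul (left_ne_zero_of_mul hΔ)

end Pool.Agent.H5.DG
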