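import Pool.Agent.H5.DG.Lang

/-!
# Project DG2, module SecDefs: hypersurface sections of projective varieties

`Y ⊆ ℙ^M` is the closed subvariety given by the homogeneous prime ideal `P`; the forms `G j` define
hypersurface sections of `Y`.
-/

open MvPolynomial Filter Topology
open Pool.Agent.H17 (PN VanishesAt zeroLocus ZariskiClosedIn HolomorphicInto puncturedDisc)
open Pool.Agent.H17LG.Variety (FunField)

noncomputable section

namespace Pool.Agent.H5.DG

variable {Nn m : ℕ}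

/-- The map `f`, holomorphic on `U`, meets the hypersurface `G = 0` with multiplicities at least `q`
at all points of `U` (multiplicity `⊤` is allowed). -/
def MeetsForm (q : ℕ) {r : ℕ} (G : MvPolynomial (Fin (r + 1)) ℂ) (f : ℂ → PN r) (U : Set ℂ) :
    Prop :=
  ∀ s ∈ U, ∃ φ : ℂ → Fin (r + 1) → ℂ, AnalyticAt ℂ φ s ∧
    (∀ᶠ z in 𝓝 s, ∃ h : φ z ≠ 0, f z = Projectivization.mk ℂ (φ z) h) ∧
    (eval (φ s) G = 0 → (q : ℕ∞) ≤ analyticOrderAt (fun z => eval (φ z) G) s)

/-- Maps from the punctured disc and from `ℂ` to the variety `Y` given by `P` which meet all the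
hypersurfaces `G j = 0` with multiplicities at least `q`, with the exceptional form `Δ`. -/
structure OrbifoldSection (q : ℕ) {M : ℕ} (P : Ideal (MvPolynomial (Fin (M + 1)) ℂ))
    (G : Fin m → MvPolynomial (Fin (M + 1)) ℂ) (Δ : MvPolynomial (Fin (M + 1)) ℂ) : Prop where
  picard : ∀ f : ℂ → PN M, HolomorphicInto f puncturedDisc →
    (∀ z ∈ puncturedDisc, f z ∈ variety P) → (∀ j, MeetsForm q (G j) f puncturedDisc) →
    (∃ z ∈ puncturedDisc, ¬ VanishesAt Δ (f z)) →
    ∃ g : ℂ → PN M, HolomorphicInto g (Metric.ball 0 1) ∧ ∀ z ∈ puncturedDisc, g z = f z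
  brody : ∀ f : ℂ → PN M, HolomorphicInto f Set.univ → (∀ z, f z ∈ variety P) →
    (∀ j, MeetsForm q (G j) f Set.univ) → (∃ z, ¬ VanishesAt Δ (f z)) → ∀ z w, f z = f w

/-- The statements for the open part `U` of the variety given by `I` where the forms `H i`, `i ∈ O`,
do not vanish, with the exceptional form `D`. -/
structure OpenPart (D : MvPolynomial (Fin (Nn + 1)) ℂ) (I : Ideal (MvPolynomial (Fin (Nn + 1)) ℂ))
    (O : Finset (Fin m)) (H : Fin m → MvPolynomial (Fin (Nn + 1)) ℂ) : Prop where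
  picard : ∀ f : ℂ → PN Nn, HolomorphicInto f puncturedDisc →
    (∀ z ∈ puncturedDisc, f z ∈ coverLocus I O H) → (∃ z ∈ puncturedDisc, ¬ VanishesAt D (f z)) →
    ∃ g : ℂ → PN Nn, HolomorphicInto g (Metric.ball 0 1) ∧ ∀ z ∈ puncturedDisc, g z = f z
  brody : ∀ f : ℂ → PN Nn, HolomorphicInto f Set.univ → (∀ z, f z ∈ coverLocus I O H) →
    (∃ z, ¬ VanishesAt D (f z)) → ∀ z w, f z = f w
  strongly : ∀ (Q : Ideal (MvPolynomial (Fin (Nn + 1)) ℂ)) [Q.IsPrime], Homog Q → I ≤ Q →
    (∀ i ∈ O, H i ∉ Q) → D ∉ Q → ∀ w, 1 ≤ w →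
    (∃ z : Fin w → FunField Q, IsTranscendenceBasis ℂ z) → LogGeneralType Q O H w

/-- **The theorem on hypersurface sections**, for the variety `Y` given by `P`, the forms `G j`, the
multiplicity `q` and the exceptional form `Δ`: maps to `Y`, finite covers `X` of closed subvarieties
of `Y`, and the four properties for the covers which are not contained in the exceptional set, in
particular for those which have the dimension of `Y`. -/
structure SectionTheorem (q : ℕ) {M : ℕ} (P : Ideal (MvPolynomial (Fin (M + 1)) ℂ)) [P.IsPrime]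
    (G : Fin m → MvPolynomial (Fin (M + 1)) ℂ) (Δ : MvPolynomial (Fin (M + 1)) ℂ) : Prop where
  orbifold : OrbifoldSection q P G Δ
  covers : ∀ (N e : ℕ) (I : Ideal (MvPolynomial (Fin (N + 1)) ℂ)) [I.IsPrime]
    (F : Fin (M + 1) → MvPolynomial (Fin (N + 1)) ℂ) (O : Finset (Fin m)), Homog I →
    BaseFree I e F → (∀ g ∈ P, aeval F g ∈ I) → (∀ j ∈ O, aeval F (G j) ∉ I) →
    (∀ j ∉ O, RamM q I (aeval F (G j))) →
    OpenPart (aeval F Δ) I O (fun j => aeval F (G j)) ∧
    ∀ w, 1 ≤ w → (∃ z : Fin w → FunField I, IsTranscendenceBasis ℂ z) →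
      ((∃ z : Fin w → FunField P, IsTranscendenceBasis ℂ z) → aeval F Δ ∉ I) ∧
      (aeval F Δ ∉ I → FourProperties I O (fun j => aeval F (G j)) w
        {x | x ∈ coverLocus I O (fun j => aeval F (G j)) ∧ VanishesAt (aeval F Δ) x})

/-- **All four properties**, if the variety is not contained in the exceptional set. -/
theorem OpenPart.four {k₀ : ℕ} {D : MvPolynomial (Fin (Nn + 1)) ℂ}
    {I : Ideal (MvPolynomial (Fin (Nn + 1)) ℂ)} [I.IsPrime] {O : Finset (Fin m)}
    {H : Fin m → MvPolynomial (Fin (Nn + 1)) ℂ} (h : OpenPart D I O H) (hI : Homog I)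
    (hD : D.IsHomogeneous k₀) (hDI : D ∉ I) (hH : ∀ j, ∃ d, (H j).IsHomogeneous d)
    (hO : ∀ j ∈ O, H j ∉ I) {w : ℕ} (hw : 1 ≤ w)
    (hz : ∃ z : Fin w → FunField I, IsTranscendenceBasis ℂ z) :
    FourProperties I O H w {x | x ∈ coverLocus I O H ∧ VanishesAt D x} := by
  classical
  refine ⟨⟨{D}, ?_, ?_⟩, ?_, h.strongly I hI le_rfl hO hDI _ hw hz, ?_, ?_, ?_⟩
  · intro Q hQ
    rw [Set.mem_singleton_iff] at hQ
    subst hQ
    exact ⟨k₀, hD⟩
  · ext x
    simp
  · intro hcon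
    obtain ⟨i, hi⟩ := exists_X_notMem I hw hz
    have hIp : I.IsPrime := inferInstance
    have h1 : X i * D * ∏ j ∈ O, H j ∉ I := by
      intro hc
      rcases hIp.mem_or_mem hc with h2 | h2
      · rcases hIp.mem_or_mem h2 with h3 | h3
        · exact hi h3
        · exact hDI h3
      · obtain ⟨j, hj, h3⟩ := (hIp.prod_mem_iff).1 h2
        exact hO j hj h3
    have h2 : ∃ x : Fin (Nn + 1) → ℂ, (∀ R ∈ I, eval x R = 0) ∧
        eval x (X i * D * ∏ j ∈ O, H j) ≠ 0 := by
      by_contra hc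
      push Not at hc
      exact h1 (mem_of_forall I hc)
    obtain ⟨x, hx, hne⟩ := h2
    rw [map_mul, map_mul, eval_X, map_prod] at hne
    have hx0 : x ≠ 0 := by
      rintro rfl
      exact hne (by rw [Pi.zero_apply, zero_mul, zero_mul])
    have hmem : Projectivization.mk ℂ x hx0 ∈ coverLocus I O H := by
      refine ⟨fun R hR k hk => ?_, fun j hj => ?_⟩
      · rw [Pool.Agent.H17.vanishesAt_mk_iff hk]
        exact hx R hR
      · obtain ⟨d, hd⟩ := hH j
        rw [Pool.Agent.H17.vanishesAt_mk_iff hd]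
        exact (Finset.prod_ne_zero_iff.1 (right_ne_zero_of_mul hne)) j hj
    rw [← hcon] at hmem
    have h3 := hmem.2
    rw [Pool.Agent.H17.vanishesAt_mk_iff hD] at h3
    exact right_ne_zero_of_mul (left_ne_zero_of_mul hne) h3
  · intro f hf hfX hne
    obtain ⟨z, hz1, hz2⟩ := hne
    exact h.picard f hf hfX ⟨z, hz1, fun hcon => hz2 ⟨hfX z hz1, hcon⟩⟩
  · intro f hf hfX hne z
    refine ⟨hfX z, ?_⟩
    by_contra hcon
    obtain ⟨a, b, hab⟩ := hne
    exact hab (h.brody f hf hfX ⟨z, hcon⟩ a b)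
  · intro Q _ hQ hIQ hOQ hsub w hw hz'
    refine h.strongly Q hQ hIQ hOQ (fun hcon => hsub ?_) w hw hz'
    intro x hx
    exact ⟨⟨fun R hR => hx.1 R (hIQ hR), hx.2⟩, hx.1 _ hcon k₀ hD⟩

end Pool.Agent.H5.DG
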