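import Pool.Agent.H5.DG.DefsA

/-!
# Project DG, A4: the case of independent conditions

`P_b = restrictSupport ℂ (Box n m b)` has dimension `h = (b + 1) ^ m` and the evaluation at the points `s q` is
injective on it; so there is a set `S` of `h` indices such that evaluation at the points `s q`, `q ∈ S`, is an
isomorphism of `P_b` with `ℂ ^ S` (an injective linear map to `ι → ℂ` has rank `h`; choose `h` independent coordinate
functionals). For `i + 1 < m` let `g' i ∈ P_b` be the polynomial with `eval (s q) (g' i) = s q i.succ ^ (m b + 1)` for `q ∈ S`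
and `a i = m b + 1` (degree of `g' i` at most `m b`), for `m ≤ i + 1` let `g' i = g i`, `a i = δ i`. Weights: `W i = 1` if
`i + 1 < m`, `W i = 2 + (i + 1 - m)` otherwise; for `m ≤ i + 1` and a monomial `γ` of `g i`:
`∑ γ j.succ W j ≤ γ i.succ W i + (δ i - γ i.succ) (W i - 1) < δ i W i`. `M = 1`, `∏ a i = (m b + 1) ^ (m - 1) ∏ δ i`.
-/

open MvPolynomial

noncomputable section

namespace Pool.Agent.H5.DG

/-- Selection of independent conditions. -/
private theorem StepA_select {V ι : Type} [AddCommGroup V] [Module ℂ V] [FiniteDimensional ℂ V]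
    [Finite ι] (Φ : ι → Module.Dual ℂ V) (h : ∀ x, (∀ q, Φ q x = 0) → x = 0) :
    ∃ S : Finset ι, S.card = Module.finrank ℂ V ∧
      ∀ f : ι → ℂ, ∃ x : V, ∀ q ∈ S, Φ q x = f q := by
  classical
  obtain ⟨κ, a, ha, hsp, hli⟩ := exists_linearIndependent' ℂ Φ
  have : Finite κ := Finite.of_injective a ha
  have : Fintype κ := Fintype.ofFinite κ
  have htop : Submodule.span ℂ (Set.range (Φ ∘ a)) = ⊤ := by
    rw [hsp, ← Subspace.dualCoannihilator_dualAnnihilator_eq
      (W := Submodule.span ℂ (Set.range Φ))]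
    have h1 : (Submodule.span ℂ (Set.range Φ)).dualCoannihilator = ⊥ := by
      rw [eq_bot_iff]
      intro x hx
      rw [Submodule.mem_dualCoannihilator] at hx
      rw [Submodule.mem_bot]
      exact h x fun q => hx _ (Submodule.subset_span ⟨q, rfl⟩)
    rw [h1, Submodule.dualAnnihilator_bot]
  have hcard : Fintype.card κ = Module.finrank ℂ V := by
    rw [← Subspace.dual_finrank_eq, Module.finrank_eq_card_basis (Module.Basis.mk hli htop.ge)]
  obtain ⟨E, hE⟩ : ∃ E : V →ₗ[ℂ] (κ → ℂ), ∀ x k, E x k = Φ (a k) x :=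
    ⟨LinearMap.pi fun k => Φ (a k), fun x k => rfl⟩
  have hinj : Function.Injective E := by
    rw [injective_iff_map_eq_zero]
    intro x hx
    refine h x fun q => ?_
    have h2 : ∀ φ ∈ Submodule.span ℂ (Set.range (Φ ∘ a)), φ x = 0 := by
      intro φ hφ
      induction hφ using Submodule.span_induction with
      | mem φ hφ =>
        obtain ⟨k, rfl⟩ := hφ
        have := hE x k
        rw [hx] at this
        exact this.symm
      | zero => rfl
      | add φ ψ _ _ h3 h4 => rw [LinearMap.add_apply, h3, h4, add_zero]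
      | smul c φ _ h3 => rw [LinearMap.smul_apply, h3, smul_zero]
    refine h2 (Φ q) ?_
    rw [htop]
    exact Submodule.mem_top
  have hsurj : Function.Surjective E := by
    refine (LinearMap.injective_iff_surjective_of_finrank_eq_finrank ?_).1 hinj
    rw [Module.finrank_pi, hcard]
  refine ⟨Finset.univ.image a, ?_, fun f => ?_⟩
  · rw [Finset.card_image_of_injective _ ha, Finset.card_univ, hcard]
  · obtain ⟨x, hx⟩ := hsurj fun k => f (a k)
    refine ⟨x, fun q hq => ?_⟩
    obtain ⟨k, -, rfl⟩ := Finset.mem_image.1 hq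
    rw [← hE, hx]

private def StepA_equiv {n m : ℕ} (b : ℕ) (hmn : m ≤ n + 1) : Box n m b ≃ (Fin m → Fin (b + 1)) where
  toFun γ j := ⟨γ.1 ⟨j, by omega⟩, by
    have := (γ.2 ⟨j, by omega⟩).1
    omega⟩
  invFun f := ⟨Finsupp.equivFunOnFinite.symm
    fun j : Fin (n + 1) => if h : (j : ℕ) < m then (f ⟨j, h⟩ : ℕ) else 0, by
      intro j
      rw [Finsupp.equivFunOnFinite_symm_apply_apply]
      constructor
      · split_ifs with h
        · have := (f ⟨j, h⟩).2
          omega
        · exact Nat.zero_le _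
      · intro hj
        rw [dif_neg (by omega)]⟩
  left_inv := by
    intro γ
    apply Subtype.ext
    ext j
    rw [Finsupp.equivFunOnFinite_symm_apply_apply]
    split_ifs with h
    · rfl
    · exact ((γ.2 j).2 (by omega)).symm
  right_inv := by
    intro f
    funext j
    apply Fin.ext
    simp only [Finsupp.equivFunOnFinite_symm_apply_apply]
    rw [dif_pos j.2]

private theorem StepA_card1 (n m : ℕ) :
    (Finset.univ.filter fun j : Fin n => (j : ℕ) < m).card ≤ m := by
  have h1 : (Finset.univ.filter fun j : Fin n => (j : ℕ) < m).card ≤ (Finset.range m).card := by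
    refine Finset.card_le_card_of_injOn (fun j => (j : ℕ)) ?_ ?_
    · intro j hj
      have h2 := (Finset.mem_filter.1 (Finset.mem_coe.1 hj)).2
      exact Finset.mem_coe.2 (Finset.mem_range.2 h2)
    · intro i _ j _ hij
      exact Fin.ext hij
  rwa [Finset.card_range] at h1

private theorem StepA_sum {n m b : ℕ} {γ : Fin (n + 1) →₀ ℕ} (hγ : γ ∈ Box n m b) :
    ∑ j, γ j ≤ m * b := by
  calc ∑ j, γ j ≤ ∑ j : Fin (n + 1), if (j : ℕ) < m then b else 0 := by
        refine Finset.sum_le_sum fun j _ => ?_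
        split_ifs with h
        · exact (hγ j).1
        · rw [(hγ j).2 (by omega)]
    _ = (Finset.univ.filter fun j : Fin (n + 1) => (j : ℕ) < m).card * b := by
        rw [← Finset.sum_filter, Finset.sum_const, smul_eq_mul]
    _ ≤ m * b := Nat.mul_le_mul_right b (StepA_card1 (n + 1) m)

private theorem StepA_deg {n : ℕ} {G : MvPolynomial (Fin (n + 1)) ℂ} {k : ℕ}
    (h : ∀ γ ∈ G.support, ∑ j, γ j ≤ k) : G.totalDegree ≤ k := by
  unfold MvPolynomial.totalDegree
  refine Finset.sup_le fun γ hγ => ?_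
  rw [Finsupp.sum_fintype _ _ (fun _ => rfl)]
  exact h γ hγ

private theorem StepA_sum_le {n : ℕ} {G : MvPolynomial (Fin (n + 1)) ℂ} {γ : Fin (n + 1) →₀ ℕ}
    (hγ : γ ∈ G.support) : ∑ j, γ j ≤ G.totalDegree := by
  have h1 := MvPolynomial.le_totalDegree hγ
  rwa [Finsupp.sum_fintype _ _ (fun _ => rfl)] at h1

/-- the weights -/
private def StepA_W (m : ℕ) {n : ℕ} (i : Fin n) : ℕ :=
  if (i : ℕ) + 1 < m then 1 else 2 + ((i : ℕ) + 1 - m)

/-- the weights of the monomials of the triangular equations -/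
private theorem StepA_weight {n m δ : ℕ} {i : Fin n} (hi : m ≤ (i : ℕ) + 1)
    {γ : Fin (n + 1) →₀ ℕ} (h1 : ∀ j : Fin (n + 1), i.succ < j → γ j = 0) (h2 : γ i.succ < δ)
    (h3 : ∑ j, γ j ≤ δ) : ∑ j : Fin n, γ j.succ * StepA_W m j < δ * StepA_W m i := by
  obtain ⟨w, hw⟩ : ∃ w, StepA_W m i = w + 1 := ⟨1 + ((i : ℕ) + 1 - m), by
    unfold StepA_W
    rw [if_neg (by omega)]
    omega⟩
  have h4 : ∑ j : Fin n, γ j.succ ≤ δ := by
    rw [Fin.sum_univ_succ] at h3
    omega
  have h5 : ∀ j : Fin n, γ j.succ * StepA_W m j ≤ γ j.succ * w + if j = i then γ i.succ else 0 := by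
    intro j
    rcases lt_trichotomy j i with h | h | h
    · rw [if_neg h.ne, add_zero]
      refine Nat.mul_le_mul_left _ ?_
      have h6 : (j : ℕ) < i := h
      unfold StepA_W at hw ⊢
      rw [if_neg (by omega)] at hw
      split_ifs <;> omega
    · subst h
      rw [if_pos rfl, hw]
      exact le_of_eq (by ring)
    · rw [h1 j.succ (Fin.succ_lt_succ_iff.2 h)]
      simp
  calc ∑ j : Fin n, γ j.succ * StepA_W m j
      ≤ ∑ j : Fin n, (γ j.succ * w + if j = i then γ i.succ else 0) :=
        Finset.sum_le_sum fun j _ => h5 j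
    _ = (∑ j : Fin n, γ j.succ) * w + γ i.succ := by
        rw [Finset.sum_add_distrib, ← Finset.sum_mul, Finset.sum_ite_eq' Finset.univ i,
          if_pos (Finset.mem_univ i)]
    _ ≤ δ * w + γ i.succ := Nat.add_le_add_right (Nat.mul_le_mul_right w h4) _
    _ < δ * w + δ := Nat.add_lt_add_left h2 _
    _ = δ * StepA_W m i := by rw [hw]; ring

/-- the evaluation functionals -/
private def StepA_ev {n : ℕ} (P : Submodule ℂ (MvPolynomial (Fin (n + 1)) ℂ))
    (y : Fin (n + 1) → ℂ) : Module.Dual ℂ P where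
  toFun G := MvPolynomial.eval y G.1
  map_add' G G' := by simp
  map_smul' c G := by simp [MvPolynomial.smul_eval]

theorem step_good {n m b ρ : ℕ} (hm : 1 ≤ m) (hmn : m ≤ n + 1) {ι : Type} [Finite ι]
    (s : ι → Fin (n + 1) → ℂ) (δ : Fin n → ℕ) (g : Fin n → MvPolynomial (Fin (n + 1)) ℂ)
    (hL : Lvl m δ g s)
    (hinj : ∀ G ∈ restrictSupport ℂ (Box n m b), (∀ q, eval (s q) G = 0) → G = 0)
    (hnum : ρ * ((m * b + 1) ^ (m - 1) *
      ∏ i ∈ Finset.univ.filter (fun i : Fin n => m ≤ (i : ℕ) + 1), δ i) < (b + 1) ^ m) :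
    Good ρ s := by
  classical
  set P := restrictSupport ℂ (Box n m b) with hP
  have hfinB : Finite (Box n m b) := Finite.of_equiv _ (StepA_equiv b hmn).symm
  have : FiniteDimensional ℂ P := Module.Finite.of_basis (basisRestrictSupport ℂ (Box n m b))
  have hdim : Module.finrank ℂ P = (b + 1) ^ m := by
    rw [Module.finrank_eq_nat_card_basis (basisRestrictSupport ℂ (Box n m b)),
      Nat.card_congr (StepA_equiv b hmn), Nat.card_eq_fintype_card, Fintype.card_fun,
      Fintype.card_fin, Fintype.card_fin]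
  obtain ⟨S, hS, hsel⟩ := StepA_select (fun q => StepA_ev P (s q)) (fun G hG =>
    Subtype.ext (hinj G.1 G.2 fun q => hG q))
  rw [hdim] at hS
  -- the interpolation polynomials
  have hex : ∀ i : Fin n, ∃ G : MvPolynomial (Fin (n + 1)) ℂ, G ∈ P ∧
      ∀ q ∈ S, s q i.succ ^ (m * b + 1) = MvPolynomial.eval (s q) G := by
    intro i
    obtain ⟨G, hG⟩ := hsel fun q => s q i.succ ^ (m * b + 1)
    exact ⟨G.1, G.2, fun q hq => (hG q hq).symm⟩
  choose g' hg' hg'S using hex
  have hbox : ∀ i, ∀ γ ∈ (g' i).support, γ ∈ Box n m b := fun i γ hγ =>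
    (mem_restrictSupport_iff ℂ).1 (hg' i) (Finset.mem_coe.2 hγ)
  refine ⟨1, fun i => if (i : ℕ) + 1 < m then m * b + 1 else δ i, StepA_W m,
    fun i => if (i : ℕ) + 1 < m then g' i else g i, S, ?_, ?_, ?_, ?_⟩
  · rw [Matrix.det_one]
    exact isUnit_one
  · constructor
    · intro i
      split_ifs with h
      · omega
      · exact hL.pos i (by omega)
    · intro i
      unfold StepA_W
      split_ifs <;> omega
    · intro i
      split_ifs with h
      · refine (StepA_deg fun γ hγ => StepA_sum (hbox i γ hγ)).trans (by omega)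
      · exact hL.deg i (by omega)
    · intro i γ hγ
      split_ifs at hγ ⊢ with h
      · have hB := hbox i γ hγ
        have hWi : StepA_W m i = 1 := by
          unfold StepA_W
          rw [if_pos h]
        rw [hWi, mul_one]
        have h1 : ∑ j : Fin n, γ j.succ * StepA_W m j ≤ ∑ j : Fin n, γ j.succ := by
          refine Finset.sum_le_sum fun j _ => ?_
          by_cases hj : (j : ℕ) + 1 < m
          · unfold StepA_W
            rw [if_pos hj, mul_one]
          · have h2 : γ j.succ = 0 := (hB j.succ).2 (by rw [Fin.val_succ]; omega)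
            rw [h2, zero_mul]
        have h3 := StepA_sum hB
        rw [Fin.sum_univ_succ] at h3
        omega
      · have hi : m ≤ (i : ℕ) + 1 := by omega
        obtain ⟨h1, h2⟩ := hL.tri i hi γ hγ
        exact StepA_weight hi h1 h2 ((StepA_sum_le hγ).trans (hL.deg i hi))
  · have h1 : ∏ i : Fin n, (if (i : ℕ) + 1 < m then m * b + 1 else δ i) =
        (m * b + 1) ^ (Finset.univ.filter fun i : Fin n => (i : ℕ) + 1 < m).card *
          ∏ i ∈ Finset.univ.filter (fun i : Fin n => m ≤ (i : ℕ) + 1), δ i := by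
      rw [Finset.prod_ite, Finset.prod_const]
      congr 1
      refine Finset.prod_congr ?_ fun _ _ => rfl
      ext i
      simp only [Finset.mem_filter, Finset.mem_univ, true_and, not_lt]
    have h2 : (Finset.univ.filter fun i : Fin n => (i : ℕ) + 1 < m).card ≤ m - 1 := by
      refine le_trans (Finset.card_le_card ?_) (StepA_card1 n (m - 1))
      intro i hi
      rw [Finset.mem_filter] at hi ⊢
      exact ⟨hi.1, by omega⟩
    rw [hS]
    refine lt_of_le_of_lt ?_ hnum
    refine Nat.mul_le_mul_left ρ ?_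
    rw [h1]
    exact Nat.mul_le_mul_right _ (Nat.pow_le_pow_right (by omega) h2)
  · intro q hq i
    rw [Matrix.one_mulVec]
    dsimp only
    split_ifs with h
    · exact hg'S i q hq
    · exact hL.eq i (by omega) q

end Pool.Agent.H5.DG
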